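import Mathlib

set_option autoImplicit false

namespace Helper112.Pf

open MeasureTheory

/-! DEFS -/

/-- Fourier-Laplace transform of the indicator function of `K`. -/
noncomputable def FT {n : ℕ} (K : Set (Fin n → ℝ)) (ζ : Fin n → ℂ) : ℂ :=
  ∫ x in K, Complex.exp (-(Complex.I * ∑ i, (x i : ℂ) * ζ i))

/-- `Q * FT K` is a finite exponential sum with homogeneous coefficients. -/
def ExpForm {n : ℕ} (K : Set (Fin n → ℝ)) : Prop :=
  ∃ (d : ℕ) (Q : MvPolynomial (Fin n) ℂ) (m : ℕ) (P : Fin m → MvPolynomial (Fin n) ℂ)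
    (v : Fin m → Fin n → ℝ),
    Q ≠ 0 ∧ Q.IsHomogeneous (d + n) ∧ (∀ i, (P i).IsHomogeneous d) ∧
    ∀ ζ : Fin n → ℂ, MvPolynomial.eval ζ Q * FT K ζ =
      ∑ i, MvPolynomial.eval ζ (P i) * Complex.exp (-(Complex.I * ∑ k, (v i k : ℂ) * ζ k))

/-- Closed polyhedron given by a list of inequalities `a·x ≤ b`. -/
def Ph {n : ℕ} (L : List ((Fin n → ℝ) × ℝ)) : Set (Fin n → ℝ) :=
  {x | ∀ c ∈ L, ∑ i, c.1 i * x i ≤ c.2}

/-- Convex body: compact convex set with non-empty interior. -/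
def IsBody {n : ℕ} (K : Set (Fin n → ℝ)) : Prop :=
  IsCompact K ∧ Convex ℝ K ∧ (interior K).Nonempty

/-- Prism: `K = {y + t v : y ∈ C, 0 ≤ t ≤ 1}` where `C` lies in the hyperplane `l·y = s`
and `v` is transverse to that hyperplane. -/
def IsPrism {n : ℕ} (K : Set (Fin n → ℝ)) : Prop :=
  ∃ (C : Set (Fin n → ℝ)) (v l : Fin n → ℝ) (s : ℝ), (∑ i, l i * v i) ≠ 0 ∧
    (∀ y ∈ C, ∑ i, l i * y i = s) ∧
    K = {x | ∃ y ∈ C, ∃ t ∈ Set.Icc (0:ℝ) 1, x = y + t • v}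

/-- `FT K` is `p` times an entire function. -/
def HasFactor {n : ℕ} (p : MvPolynomial (Fin n) ℂ) (K : Set (Fin n → ℝ)) : Prop :=
  ∃ f : (Fin n → ℂ) → ℂ, Differentiable ℂ f ∧ ∀ ζ, FT K ζ = MvPolynomial.eval ζ p * f ζ

/-! END DEFS -/

end Helper112.Pf
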