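import Mathlib
import Pool.Agent.Helper112.Pf.Defs

set_option autoImplicit false

namespace Helper112.Pf

open MeasureTheory

/-! DEFS2 -/

/-- Two-variable polynomial with coefficient array `c` (exponents `< M`). -/
noncomputable def ev (c : ℕ → ℕ → ℂ) (M : ℕ) (s t : ℂ) : ℂ :=
  ∑ i ∈ Finset.range M, ∑ j ∈ Finset.range M, c i j * s ^ i * t ^ j

/-- Edge polynomial of slope `β` through the pivot `(μ, D)`. -/
noncomputable def Rl (c : ℕ → ℕ → ℂ) (M μ D : ℕ) (β : ℝ) (lam w : ℂ) : ℂ :=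
  open Classical in
  ∑ i ∈ Finset.range M, ∑ j ∈ Finset.range M,
    if β * ((μ : ℝ) - i) = (D : ℝ) - j then c i j * w ^ i * lam ^ j else 0

/-- Pivot conditions for the slope `β`. -/
def Pivot (c : ℕ → ℕ → ℂ) (M μ D : ℕ) (β : ℝ) : Prop :=
  μ < M ∧ D < M ∧ c μ D ≠ 0 ∧
  (∀ i j, i < μ → j < M → c i j ≠ 0 → β * ((μ : ℝ) - i) ≤ (D : ℝ) - j) ∧
  (∀ i j, μ < i → i < M → j < M → c i j ≠ 0 → (j : ℝ) - D < β * ((i : ℝ) - μ)) ∧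
  (∀ j, j < M → c μ j ≠ 0 → j ≤ D) ∧
  (∃ i j, i < μ ∧ j < M ∧ c i j ≠ 0 ∧ β * ((μ : ℝ) - i) = (D : ℝ) - j)

/-- Profile of a planar body seen from a supporting line: left and right boundary functions. -/
def Prof (l r : ℝ → ℝ) (H : ℝ) : Prop :=
  0 < H ∧ ConvexOn ℝ (Set.Icc 0 H) l ∧ ConcaveOn ℝ (Set.Icc 0 H) r ∧
  ContinuousOn l (Set.Icc 0 H) ∧ ContinuousOn r (Set.Icc 0 H) ∧
  (∀ u ∈ Set.Icc 0 H, l u ≤ r u) ∧ (∀ u ∈ Set.Ioo 0 H, l u < r u)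

/-- Laplace integral of the chords. -/
noncomputable def Lap (l r : ℝ → ℝ) (H : ℝ) (s : ℂ) (T : ℝ) : ℂ :=
  ∫ u in (0 : ℝ)..H, Complex.exp (-((T : ℂ) * u)) *
    ∫ x in (l u)..(r u), Complex.exp (-(Complex.I * s * x))

/-- `T^2` times the Laplace transform of `δ` on `[0,H]`. -/
noncomputable def Kap (δ : ℝ → ℝ) (H T : ℝ) : ℝ := T ^ 2 * ∫ u in (0 : ℝ)..H, Real.exp (-(T * u)) * δ u

/-- Description of a planar set by its horizontal chords. -/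
def Chord (K : Set (Fin 2 → ℝ)) (A B : ℝ) (lo hi : ℝ → ℝ) : Prop :=
  A < B ∧ ConvexOn ℝ (Set.Icc A B) lo ∧ ConcaveOn ℝ (Set.Icc A B) hi ∧
  ContinuousOn lo (Set.Icc A B) ∧ ContinuousOn hi (Set.Icc A B) ∧
  (∀ u ∈ Set.Icc A B, lo u ≤ hi u) ∧ (∀ u ∈ Set.Ioo A B, lo u < hi u) ∧
  K = {x | x 1 ∈ Set.Icc A B ∧ lo (x 1) ≤ x 0 ∧ x 0 ≤ hi (x 1)}

/-- `K` lies in the angle `x0 + cone(a,b)` and contains the triangle `x0, x0+a, x0+b`. -/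
def VertexAt (K : Set (Fin 2 → ℝ)) (x0 a b : Fin 2 → ℝ) : Prop :=
  a 0 * b 1 - a 1 * b 0 ≠ 0 ∧
  (∀ x ∈ K, ∃ s t : ℝ, 0 ≤ s ∧ 0 ≤ t ∧ x = x0 + s • a + t • b) ∧
  (∀ s t : ℝ, 0 ≤ s → 0 ≤ t → s + t ≤ 1 → x0 + s • a + t • b ∈ K)

/-! END DEFS2 -/

end Helper112.Pf
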