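import Mathlib
import Pool.Agent.Helper112.Pf.Defs2

set_option autoImplicit false

namespace Helper112.Pf

open MeasureTheory

/-! DEFS3 -/

/-- Laplace integral of the chords with a complex parameter. -/
noncomputable def LapC (l r : ℝ → ℝ) (H : ℝ) (s z : ℂ) : ℂ :=
  ∫ u in (0 : ℝ)..H, Complex.exp (-(z * u)) *
    ∫ x in (l u)..(r u), Complex.exp (-(Complex.I * s * x))

/-- Broken line with slopes `pm` (left) and `pp` (right). -/
noncomputable def Bl (pm pp u : ℝ) : ℝ := if 0 ≤ u then pp * u else pm * u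

/-- The origin is a point of `K` and `K` lies in the cone `x₀ ≤ -c|x₁|`. -/
def NCorner (K : Set (Fin 2 → ℝ)) (c : ℝ) : Prop :=
  0 < c ∧ (0 : Fin 2 → ℝ) ∈ K ∧ ∀ x ∈ K, x 0 ≤ -(c * |x 1|)

/-! END DEFS3 -/

/-! DEFS4 -/

/-- The zero set of `p` contains points `s a + t b` with `s` bounded and `t` unbounded, for some
real basis `a, b`: it has an asymptote of real direction. -/
def RealAsymptote (p : MvPolynomial (Fin 2) ℂ) : Prop :=
  ∃ a b : Fin 2 → ℝ, a 0 * b 1 - a 1 * b 0 ≠ 0 ∧ ∃ R : ℝ, ∀ N : ℝ, ∃ s t : ℂ, ‖s‖ ≤ R ∧ N ≤ ‖t‖ ∧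
    MvPolynomial.eval (fun i => s * (a i : ℂ) + t * (b i : ℂ)) p = 0

/-! END DEFS4 -/

end Helper112.Pf
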