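import Mathlib
import Pool.Agent.Helper112.Pf.Defs

set_option autoImplicit false

namespace Helper112.Pf

open MeasureTheory

/-! DEFS5 -/

/-- Cartesian product of `K1 ⊂ ℝᵐ` and `K2 ⊂ ℝⁿ` as a subset of `ℝ^(m+n)`. -/
def Pr {m n : ℕ} (K1 : Set (Fin m → ℝ)) (K2 : Set (Fin n → ℝ)) : Set (Fin (m + n) → ℝ) :=
  {x | (fun i => x (Fin.castAdd n i)) ∈ K1 ∧ (fun j => x (Fin.natAdd m j)) ∈ K2}

/-! END DEFS5 -/

end Helper112.Pf
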