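import Mathlib
import Pool.Agent.Helper112.Pf.Defs

set_option autoImplicit false

namespace Helper112.Pf

open MeasureTheory

/-! TO PROVE -/

theorem affine_of_aux {n : ℕ} (U : Set (Fin n → ℝ)) (f : (Fin n → ℝ) → ℝ)
    (h1 : ConvexOn ℝ U f) (h2 : ConcaveOn ℝ U f) (x y : Fin n → ℝ) (hx : x ∈ U) (hy : y ∈ U)
    (a b : ℝ) (ha : 0 ≤ a) (hb : 0 ≤ b) (hab : a + b = 1) :
    f (a • x + b • y) = a * f x + b * f y :=
  le_antisymm (h1.2 hx hy ha hb hab) (h2.2 hx hy ha hb hab)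

theorem affine_of_scale {n : ℕ} (U : Set (Fin n → ℝ)) (f : (Fin n → ℝ) → ℝ)
    (h1 : ConvexOn ℝ U f) (h2 : ConcaveOn ℝ U f) (x0 h : Fin n → ℝ) (hx0 : x0 ∈ U)
    (s s' : ℝ) (hs : 0 < s) (hs' : 0 < s') (hss : s ≤ s') (hU' : x0 + s' • h ∈ U) :
    (f (x0 + s • h) - f x0) / s = (f (x0 + s' • h) - f x0) / s' := by
  have h3 : x0 + s • h = (1 - s / s') • x0 + (s / s') • (x0 + s' • h) := by
    rw [smul_add, smul_smul, div_mul_cancel₀ _ hs'.ne', ← add_assoc, ← add_smul]
    simp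
  have h4 : s / s' ≤ 1 := (div_le_one hs').2 hss
  have h5 := affine_of_aux U f h1 h2 x0 (x0 + s' • h) hx0 hU' (1 - s / s') (s / s')
    (by linarith) (by positivity) (by ring)
  rw [h3, h5]
  field_simp
  ring

theorem affine_of {n : ℕ} (U : Set (Fin n → ℝ)) (f : (Fin n → ℝ) → ℝ) (hU : IsOpen U)
    (hUn : U.Nonempty) (h1 : ConvexOn ℝ U f) (h2 : ConcaveOn ℝ U f) :
    ∃ (m : Fin n → ℝ) (b : ℝ), ∀ x ∈ U, f x = b + ∑ i, m i * x i := by
  classical
  obtain ⟨x0, hx0⟩ := hUn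
  obtain ⟨r, hr, hball⟩ := Metric.isOpen_iff.1 hU x0 hx0
  have hin : ∀ (h : Fin n → ℝ) (s : ℝ), 0 < s → s ≤ r / (2 * (‖h‖ + 1)) → x0 + s • h ∈ U := by
    intro h s hs hsr
    apply hball
    rw [Metric.mem_ball, dist_eq_norm, add_sub_cancel_left, norm_smul, Real.norm_eq_abs,
      abs_of_pos hs]
    have hn := norm_nonneg h
    calc s * ‖h‖ ≤ r / (2 * (‖h‖ + 1)) * ‖h‖ := mul_le_mul_of_nonneg_right hsr hn
      _ < r := by
        rw [div_mul_eq_mul_div, div_lt_iff₀ (by positivity)]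
        nlinarith
  obtain ⟨L, hL⟩ : ∃ L : (Fin n → ℝ) → ℝ, ∀ (h : Fin n → ℝ) (s : ℝ), 0 < s → x0 + s • h ∈ U →
      L h = (f (x0 + s • h) - f x0) / s := by
    refine ⟨fun h => (f (x0 + (r / (2 * (‖h‖ + 1))) • h) - f x0) / (r / (2 * (‖h‖ + 1))), ?_⟩
    intro h s hs hsU
    have hs0 : 0 < r / (2 * (‖h‖ + 1)) := by positivity
    have hU0 := hin h _ hs0 le_rfl
    rcases le_total s (r / (2 * (‖h‖ + 1))) with hc | hc
    · exact (affine_of_scale U f h1 h2 x0 h hx0 s _ hs hs0 hc hU0).symm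
    · exact affine_of_scale U f h1 h2 x0 h hx0 _ s hs0 hs hc hsU
  have hadd : ∀ h k, L (h + k) = L h + L k := by
    intro h k
    obtain ⟨s, hs, hs1, hs2, hs3⟩ : ∃ s : ℝ, 0 < s ∧ s ≤ r / (2 * (‖h + k‖ + 1)) ∧
        2 * s ≤ r / (2 * (‖h‖ + 1)) ∧ 2 * s ≤ r / (2 * (‖k‖ + 1)) := by
      refine ⟨min (r / (2 * (‖h + k‖ + 1))) (min (r / (2 * (‖h‖ + 1)) / 2)
        (r / (2 * (‖k‖ + 1)) / 2)), ?_, min_le_left _ _, ?_, ?_⟩
      · exact lt_min (by positivity) (lt_min (by positivity) (by positivity))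
      · have := (min_le_right (r / (2 * (‖h + k‖ + 1))) (min (r / (2 * (‖h‖ + 1)) / 2)
          (r / (2 * (‖k‖ + 1)) / 2))).trans (min_le_left _ _)
        linarith
      · have := (min_le_right (r / (2 * (‖h + k‖ + 1))) (min (r / (2 * (‖h‖ + 1)) / 2)
          (r / (2 * (‖k‖ + 1)) / 2))).trans (min_le_right _ _)
        linarith
    have hU1 := hin (h + k) s hs hs1
    have hU2 := hin h (2 * s) (by positivity) hs2
    have hU3 := hin k (2 * s) (by positivity) hs3
    rw [hL (h + k) s hs hU1, hL h (2 * s) (by positivity) hU2, hL k (2 * s) (by positivity) hU3]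
    have h3 : x0 + s • (h + k) = (1 / 2 : ℝ) • (x0 + (2 * s) • h) + (1 / 2 : ℝ) • (x0 + (2 * s) • k) := by
      funext i
      simp only [Pi.add_apply, Pi.smul_apply, smul_eq_mul]
      ring
    rw [h3, affine_of_aux U f h1 h2 _ _ hU2 hU3 (1 / 2) (1 / 2) (by norm_num) (by norm_num)
      (by norm_num)]
    field_simp
    ring
  have hzero : L 0 = 0 := by
    rw [hL 0 1 one_pos (by simpa using hx0)]
    simp
  have hpos : ∀ (c : ℝ) (h : Fin n → ℝ), 0 < c → L (c • h) = c * L h := by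
    intro c h hc
    have hs0 : 0 < r / (2 * (‖c • h‖ + 1)) := by positivity
    have hU0 := hin (c • h) _ hs0 le_rfl
    obtain ⟨s, hsdef⟩ : ∃ s : ℝ, s = r / (2 * (‖c • h‖ + 1)) := ⟨_, rfl⟩
    rw [← hsdef] at hs0 hU0
    have hU1 : x0 + (s * c) • h ∈ U := by
      rw [mul_smul]
      exact hU0
    rw [hL (c • h) s hs0 hU0, hL h (s * c) (by positivity) hU1, mul_smul]
    field_simp
  have hneg : ∀ h, L (-h) = - L h := by
    intro h
    have := hadd h (-h)
    rw [add_neg_cancel, hzero] at this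
    linarith
  let Λ : (Fin n → ℝ) →ₗ[ℝ] ℝ :=
    { toFun := L
      map_add' := hadd
      map_smul' := by
        intro c h
        simp only [RingHom.id_apply, smul_eq_mul]
        rcases lt_trichotomy c 0 with hc | hc | hc
        · have h3 : c • h = -((-c) • h) := by rw [neg_smul, neg_neg]
          rw [h3, hneg, hpos (-c) h (by linarith)]
          ring
        · rw [hc, zero_smul, hzero, zero_mul]
        · exact hpos c h hc }
  refine ⟨fun i => L (fun j => if i = j then 1 else 0),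
    f x0 - ∑ i, L (fun j => if i = j then 1 else 0) * x0 i, ?_⟩
  intro x hx
  have h3 : L (x - x0) = f x - f x0 := by
    rw [hL (x - x0) 1 one_pos (by simpa using hx)]
    simp
  have h4 : Λ (x - x0) = ∑ i, (x - x0) i • Λ (fun j => if i = j then 1 else 0) :=
    LinearMap.pi_apply_eq_sum_univ Λ (x - x0)
  have h5 : L (x - x0) = ∑ i, (x i - x0 i) * L (fun j => if i = j then 1 else 0) := h4
  have h6 : f x = f x0 + ∑ i, (x i - x0 i) * L (fun j => if i = j then 1 else 0) := by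
    rw [← h5, h3]
    ring
  rw [h6]
  have h7 : ∑ i, (x i - x0 i) * L (fun j => if i = j then 1 else 0) =
      ∑ i, L (fun j => if i = j then 1 else 0) * x i -
        ∑ i, L (fun j => if i = j then 1 else 0) * x0 i := by
    rw [← Finset.sum_sub_distrib]
    exact Finset.sum_congr rfl (fun i _ => by ring)
  rw [h7]
  ring

end Helper112.Pf
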