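import Mathlib
import Pool.Agent.Helper112.Pf.Defs

set_option autoImplicit false

namespace Helper112.Pf

open MeasureTheory



/-! TO PROVE -/

theorem chords_comb {n : ℕ} (a b s t : ℝ) (x y : Fin n → ℝ) :
    a • (Fin.cons s x : Fin (n + 1) → ℝ) + b • (Fin.cons t y : Fin (n + 1) → ℝ)
      = Fin.cons (a * s + b * t) (a • x + b • y) := by
  funext i
  refine Fin.cases ?_ (fun j => ?_) i
  · simp
  · simp

theorem chords_cont {n : ℕ} (x : Fin n → ℝ) :
    Continuous (fun t : ℝ => (Fin.cons t x : Fin (n + 1) → ℝ)) := by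
  refine continuous_pi fun i => ?_
  refine Fin.cases ?_ (fun j => ?_) i
  · simpa using (continuous_id' : Continuous fun a : ℝ => a)
  · simpa using continuous_const

theorem chords {n : ℕ} (K : Set (Fin (n + 1) → ℝ)) (hK : IsBody K) :
    ∃ (U : Set (Fin n → ℝ)) (lo hi : (Fin n → ℝ) → ℝ), IsOpen U ∧ Convex ℝ U ∧ U.Nonempty ∧
      (∀ x ∈ U, lo x < hi x) ∧ ConvexOn ℝ U lo ∧ ConcaveOn ℝ U hi ∧ ContinuousOn lo U ∧
      ContinuousOn hi U ∧
      (∀ x ∈ U, {t : ℝ | (Fin.cons t x : Fin (n + 1) → ℝ) ∈ K} = Set.Icc (lo x) (hi x)) ∧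
      K = closure {z : Fin (n + 1) → ℝ | Fin.tail z ∈ U ∧ lo (Fin.tail z) ≤ z 0 ∧ z 0 ≤ hi (Fin.tail z)} := by
  obtain ⟨hcomp, hconv, hint⟩ := hK
  let T : (Fin (n + 1) → ℝ) →L[ℝ] (Fin n → ℝ) :=
    ContinuousLinearMap.pi (fun i => ContinuousLinearMap.proj (R := ℝ) (φ := fun _ : Fin (n + 1) => ℝ) i.succ)
  have hT : ∀ z, T z = Fin.tail z := fun z => rfl
  have hTs : Function.Surjective T := by
    intro x
    refine ⟨Fin.cons 0 x, ?_⟩
    rw [hT, Fin.tail_cons]
  have hUo : IsOpen (T '' interior K) := T.isOpenMap hTs _ isOpen_interior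
  have hUc : Convex ℝ (T '' interior K) := hconv.interior.linear_image T.toLinearMap
  have hUn : (T '' interior K).Nonempty := hint.image _
  obtain ⟨S, hS⟩ : ∃ S : (Fin n → ℝ) → Set ℝ, S = fun x => {t : ℝ | (Fin.cons t x : Fin (n + 1) → ℝ) ∈ K} := ⟨_, rfl⟩
  have hSm : ∀ x t, t ∈ S x ↔ (Fin.cons t x : Fin (n + 1) → ℝ) ∈ K := by
    intro x t
    rw [hS]
    rfl
  have hScl : ∀ x, IsClosed (S x) := by
    intro x
    have := hcomp.isClosed.preimage (chords_cont x)
    rw [hS]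
    exact this
  have hSconv : ∀ x, Convex ℝ (S x) := by
    intro x s hs t ht a b ha hb hab
    rw [hSm] at hs ht ⊢
    have h1 := hconv hs ht ha hb hab
    rw [chords_comb] at h1
    have h2 : a • x + b • x = x := by rw [← add_smul, hab, one_smul]
    rw [h2] at h1
    exact h1
  obtain ⟨R, hR⟩ := hcomp.isBounded.exists_norm_le
  have hSb : ∀ x t, t ∈ S x → |t| ≤ R := by
    intro x t ht
    rw [hSm] at ht
    have h1 := norm_le_pi_norm (Fin.cons t x : Fin (n + 1) → ℝ) 0
    rw [Fin.cons_zero] at h1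
    exact h1.trans (hR _ ht)
  have hSbb : ∀ x, BddBelow (S x) := fun x => ⟨-R, fun t ht => (abs_le.1 (hSb x t ht)).1⟩
  have hSba : ∀ x, BddAbove (S x) := fun x => ⟨R, fun t ht => (abs_le.1 (hSb x t ht)).2⟩
  have hSI : ∀ x ∈ T '' interior K, ∃ s t, s < t ∧ s ∈ S x ∧ t ∈ S x := by
    rintro _ ⟨z, hz, rfl⟩
    obtain ⟨ε, hε, hb⟩ := Metric.isOpen_iff.1 isOpen_interior z hz
    have hz' : (Fin.cons (z 0) (T z) : Fin (n + 1) → ℝ) = z := by
      rw [hT]; exact Fin.cons_self_tail z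
    have hmem : ∀ s : ℝ, |s - z 0| < ε → s ∈ S (T z) := by
      intro s hs
      rw [hSm]
      refine interior_subset (hb ?_)
      rw [Metric.mem_ball, dist_pi_lt_iff hε]
      intro i
      refine Fin.cases ?_ (fun j => ?_) i
      · rw [Fin.cons_zero, Real.dist_eq]
        exact hs
      · rw [Fin.cons_succ, hT]
        simp only [Fin.tail, dist_self]
        exact hε
    refine ⟨z 0 - ε / 2, z 0 + ε / 2, by linarith, hmem _ ?_, hmem _ ?_⟩
    · rw [abs_lt]; constructor <;> linarith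
    · rw [abs_lt]; constructor <;> linarith
  have hSIcc : ∀ x ∈ T '' interior K, S x = Set.Icc (sInf (S x)) (sSup (S x)) := by
    intro x hx
    obtain ⟨s, t, hst, hs, ht⟩ := hSI x hx
    exact eq_Icc_csInf_csSup_of_connected_bdd_closed ⟨⟨s, hs⟩, (hSconv x).isPreconnected⟩
      (hSbb x) (hSba x) (hScl x)
  have hlt : ∀ x ∈ T '' interior K, sInf (S x) < sSup (S x) := by
    intro x hx
    obtain ⟨s, t, hst, hs, ht⟩ := hSI x hx
    exact (csInf_le (hSbb x) hs).trans_lt (hst.trans_le (le_csSup (hSba x) ht))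
  have hlom : ∀ x ∈ T '' interior K, (Fin.cons (sInf (S x)) x : Fin (n + 1) → ℝ) ∈ K := by
    intro x hx
    rw [← hSm]
    have h1 : sInf (S x) ∈ Set.Icc (sInf (S x)) (sSup (S x)) := ⟨le_rfl, (hlt x hx).le⟩
    rwa [← hSIcc x hx] at h1
  have hhim : ∀ x ∈ T '' interior K, (Fin.cons (sSup (S x)) x : Fin (n + 1) → ℝ) ∈ K := by
    intro x hx
    rw [← hSm]
    have h1 : sSup (S x) ∈ Set.Icc (sInf (S x)) (sSup (S x)) := ⟨(hlt x hx).le, le_rfl⟩
    rwa [← hSIcc x hx] at h1
  have hlo : ConvexOn ℝ (T '' interior K) (fun x => sInf (S x)) := by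
    refine ⟨hUc, fun x hx y hy a b ha hb hab => ?_⟩
    have h1 := hconv (hlom x hx) (hlom y hy) ha hb hab
    rw [chords_comb, ← hSm] at h1
    exact csInf_le (hSbb _) h1
  have hhi : ConcaveOn ℝ (T '' interior K) (fun x => sSup (S x)) := by
    refine ⟨hUc, fun x hx y hy a b ha hb hab => ?_⟩
    have h1 := hconv (hhim x hx) (hhim y hy) ha hb hab
    rw [chords_comb, ← hSm] at h1
    exact le_csSup (hSba _) h1
  refine ⟨T '' interior K, fun x => sInf (S x), fun x => sSup (S x), hUo, hUc, hUn, hlt, hlo, hhi,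
    hlo.continuousOn hUo, hhi.continuousOn hUo, ?_, ?_⟩
  · intro x hx
    have := hSIcc x hx
    rw [← this]
    ext t
    exact (hSm x t).symm
  · apply Set.Subset.antisymm
    · have h1 : closure (interior K) = closure K :=
        hconv.closure_interior_eq_closure_of_nonempty_interior hint
      rw [hcomp.isClosed.closure_eq] at h1
      conv_lhs => rw [← h1]
      refine closure_mono ?_
      intro z hz
      have hz1 : Fin.tail z ∈ T '' interior K := ⟨z, hz, rfl⟩
      refine ⟨hz1, ?_⟩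
      have h2 : z 0 ∈ S (Fin.tail z) := by
        rw [hSm, Fin.cons_self_tail]
        exact interior_subset hz
      exact ⟨csInf_le (hSbb _) h2, le_csSup (hSba _) h2⟩
    · refine closure_minimal ?_ hcomp.isClosed
      rintro z ⟨hz1, hz2, hz3⟩
      have h2 : z 0 ∈ S (Fin.tail z) := by
        rw [hSIcc _ hz1]
        exact ⟨hz2, hz3⟩
      rw [hSm, Fin.cons_self_tail] at h2
      exact h2

end Helper112.Pf
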