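import Mathlib
import Pool.Agent.Helper112.Pf.Defs

set_option autoImplicit false

namespace Helper112.Pf

open MeasureTheory



/-! TO PROVE -/

theorem comb {n : ℕ} (K : Set (Fin n → ℝ)) (h : ExpForm K) :
    ∃ (d : ℕ) (Q : MvPolynomial (Fin n) ℂ) (F : Finset (Fin n → ℂ))
      (P : (Fin n → ℂ) → MvPolynomial (Fin n) ℂ),
      Q ≠ 0 ∧ (∀ v ∈ F, (P v).IsHomogeneous d) ∧
      (∀ v ∈ F, ∃ y : Fin n → ℝ, ∀ i, v i = -(Complex.I * (y i : ℂ))) ∧
      ∀ ζ : Fin n → ℂ, MvPolynomial.eval ζ Q * FT K ζ =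
        ∑ v ∈ F, MvPolynomial.eval ζ (P v) * Complex.exp (∑ i, v i * ζ i) := by
  classical
  obtain ⟨d, Q, m, P, v, hQ, -, hP, hF⟩ := h
  set lam : Fin m → (Fin n → ℂ) := fun i k => -(Complex.I * (v i k : ℂ)) with hlam
  refine ⟨d, Q, Finset.univ.image lam, fun u => ∑ i ∈ Finset.univ.filter (fun i => lam i = u), P i,
    hQ, ?_, ?_, ?_⟩
  · intro u _
    exact MvPolynomial.IsHomogeneous.sum _ _ _ (fun i _ => hP i)
  · intro u hu
    rw [Finset.mem_image] at hu
    obtain ⟨i, -, rfl⟩ := hu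
    exact ⟨v i, fun k => rfl⟩
  · intro ζ
    rw [hF ζ]
    rw [← Finset.sum_fiberwise_of_maps_to (s := Finset.univ) (t := Finset.univ.image lam) (g := lam)
      (fun i _ => Finset.mem_image_of_mem lam (Finset.mem_univ i))]
    apply Finset.sum_congr rfl
    intro u _
    rw [map_sum, Finset.sum_mul]
    apply Finset.sum_congr rfl
    intro i hi
    rw [Finset.mem_filter] at hi
    rw [← hi.2]
    congr 2
    rw [hlam, Finset.mul_sum, ← Finset.sum_neg_distrib]
    apply Finset.sum_congr rfl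
    intro k _
    ring

end Helper112.Pf
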