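import Mathlib
import Pool.Agent.Helper112.Pf.Defs

set_option autoImplicit false

namespace Helper112.Pf

open MeasureTheory

/-! TO PROVE -/

theorem const_len_aux {a b : ℝ} (hab : a < b) (c : ℂ)
    (h : ∫ t in Set.Icc a b, Complex.exp (-(Complex.I * ((t : ℂ) * c))) = 0) :
    c ≠ 0 ∧ ∃ m : ℤ, m ≠ 0 ∧ (b - a) * c.re = m * (2 * Real.pi) := by
  rw [integral_Icc_eq_integral_Ioc, ← intervalIntegral.integral_of_le hab.le] at h
  have hc : c ≠ 0 := by
    rintro rfl
    simp only [mul_zero, neg_zero, Complex.exp_zero, intervalIntegral.integral_const,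
      Complex.real_smul, mul_one] at h
    have h1 : b - a = 0 := by exact_mod_cast h
    linarith
  refine ⟨hc, ?_⟩
  set k : ℂ := -(Complex.I * c) with hk
  have hk0 : k ≠ 0 := by
    rw [hk]; exact neg_ne_zero.mpr (mul_ne_zero Complex.I_ne_zero hc)
  have h1 : ∀ t : ℝ, Complex.exp (-(Complex.I * ((t : ℂ) * c))) = Complex.exp (k * t) := by
    intro t; rw [hk]; congr 1; ring
  simp_rw [h1] at h
  rw [integral_exp_mul_complex hk0, div_eq_zero_iff] at h
  have h2 : Complex.exp (k * b) - Complex.exp (k * a) = 0 := h.resolve_right hk0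
  have h3 : Complex.exp (k * b) = Complex.exp (k * a) := sub_eq_zero.mp h2
  have h4 : Complex.exp (k * (b - a)) = 1 := by
    rw [mul_sub, Complex.exp_sub, h3, div_self (Complex.exp_ne_zero _)]
  obtain ⟨m, hm⟩ := Complex.exp_eq_one_iff.mp h4
  have h5 : c * (b - a) = -((m : ℂ) * (2 * Real.pi)) := by
    have h6 : Complex.I * (c * (b - a)) = Complex.I * (-((m : ℂ) * (2 * Real.pi))) := by
      have : Complex.I * (c * (b - a)) = -(k * (b - a)) := by rw [hk]; ring
      rw [this, hm]; ring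
    exact mul_left_cancel₀ Complex.I_ne_zero h6
  have h7 : c.re * (b - a) = -((m : ℝ) * (2 * Real.pi)) := by
    have := congrArg Complex.re h5
    have e1 : (c * ((b : ℂ) - a)).re = c.re * (b - a) := by
      rw [← Complex.ofReal_sub, mul_comm, Complex.re_ofReal_mul]; ring
    have e2 : (-((m : ℂ) * (2 * (Real.pi : ℂ)))).re = -((m : ℝ) * (2 * Real.pi)) := by
      have : (-((m : ℂ) * (2 * (Real.pi : ℂ)))) = ((-((m : ℝ) * (2 * Real.pi)) : ℝ) : ℂ) := by
        push_cast; ring
      rw [this, Complex.ofReal_re]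
    rw [e1, e2] at this
    exact this
  refine ⟨-m, ?_, ?_⟩
  · intro hm0
    have hm1 : m = 0 := by omega
    rw [hm1] at h5
    simp only [Int.cast_zero, zero_mul, neg_zero, mul_eq_zero] at h5
    rcases h5 with h5 | h5
    · exact hc h5
    · have : ((b - a : ℝ) : ℂ) = 0 := by push_cast; exact h5
      have h8 : b - a = 0 := by exact_mod_cast this
      linarith
  · push_cast
    linarith

theorem const_len {n : ℕ} (U : Set (Fin n → ℝ)) (lo hi : (Fin n → ℝ) → ℝ) (hU : IsOpen U)
    (hUc : Convex ℝ U) (hUn : U.Nonempty) (hlt : ∀ x ∈ U, lo x < hi x) (hlo : ContinuousOn lo U)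
    (hhi : ContinuousOn hi U) (c : ℂ)
    (h : ∀ x ∈ U, ∫ t in Set.Icc (lo x) (hi x), Complex.exp (-(Complex.I * ((t : ℂ) * c))) = 0) :
    ∃ L : ℝ, 0 < L ∧ ∀ x ∈ U, hi x = lo x + L := by
  have hkey : ∀ x ∈ U, ∃ m : ℤ, m ≠ 0 ∧ (hi x - lo x) * c.re = m * (2 * Real.pi) := fun x hx =>
    (const_len_aux (hlt x hx) c (h x hx)).2
  have hpi := Real.pi_pos
  have hcont : ContinuousOn (fun x => (hi x - lo x) * c.re / (2 * Real.pi)) U :=
    ((hhi.sub hlo).mul_const _).div_const _
  have hval : ∀ x ∈ U, ∃ m : ℤ, (hi x - lo x) * c.re / (2 * Real.pi) = m := by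
    intro x hx
    obtain ⟨m, -, hm⟩ := hkey x hx
    exact ⟨m, by rw [hm]; field_simp⟩
  have hle : ∀ x ∈ U, ∀ y ∈ U, (hi y - lo y) * c.re / (2 * Real.pi) ≤
      (hi x - lo x) * c.re / (2 * Real.pi) := by
    intro x hx y hy
    by_contra hcon
    push Not at hcon
    obtain ⟨a, ha⟩ := hval x hx
    obtain ⟨b, hb⟩ := hval y hy
    have hsub := hUc.isPreconnected.intermediate_value hx hy hcont
    have hab : a < b := by
      rw [ha, hb] at hcon; exact_mod_cast hcon
    have hab1 : (a : ℝ) + 1 ≤ b := by exact_mod_cast hab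
    have hmem : (a : ℝ) + 1 / 2 ∈ Set.Icc ((hi x - lo x) * c.re / (2 * Real.pi))
        ((hi y - lo y) * c.re / (2 * Real.pi)) := by
      rw [ha, hb]
      constructor <;> linarith
    obtain ⟨z, hz, hz'⟩ := hsub hmem
    obtain ⟨d, hd⟩ := hval z hz
    simp only at hz'
    rw [hd] at hz'
    have h1 : (2 : ℝ) * d = 2 * a + 1 := by linarith
    have h2 : 2 * d = 2 * a + 1 := by exact_mod_cast h1
    omega
  obtain ⟨x0, hx0⟩ := hUn
  refine ⟨hi x0 - lo x0, by linarith [hlt x0 hx0], fun x hx => ?_⟩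
  have h1 := hle x hx x0 hx0
  have h2 := hle x0 hx0 x hx
  have h3 : (hi x - lo x) * c.re / (2 * Real.pi) = (hi x0 - lo x0) * c.re / (2 * Real.pi) :=
    le_antisymm h2 h1
  have h4 : (hi x - lo x) * c.re = (hi x0 - lo x0) * c.re := by
    field_simp at h3
    linarith
  have hcre : c.re ≠ 0 := by
    intro h0
    obtain ⟨m, hm0, hm⟩ := hkey x0 hx0
    rw [h0, mul_zero] at hm
    have : (m : ℝ) = 0 := by
      have := hm.symm
      rcases mul_eq_zero.mp this with h | h
      · exact h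
      · linarith
    exact hm0 (by exact_mod_cast this)
  have h5 := mul_right_cancel₀ hcre h4
  linarith

end Helper112.Pf
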