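import Mathlib
import Pool.Agent.Helper112.Pf.Defs

set_option autoImplicit false

namespace Helper112.Pf

open MeasureTheory

/-! TO PROVE -/

theorem curve_line {n : ℕ} (q : MvPolynomial (Fin n) ℂ) (z w : Fin n → ℂ) :
    HasDerivAt (fun t : ℂ => MvPolynomial.eval (z + t • w) q)
      (∑ i, MvPolynomial.eval z (MvPolynomial.pderiv i q) * w i) 0 := by
  classical
  induction q using MvPolynomial.induction_on with
  | C a => simpa using hasDerivAt_const (0:ℂ) a
  | add p q hp hq =>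
    have := hp.add hq
    simpa [add_mul, Finset.sum_add_distrib] using! this
  | mul_X p j hp =>
    have h1 : HasDerivAt (fun t : ℂ => z j + t * w j) (w j) 0 := by
      simpa using! ((hasDerivAt_id (0:ℂ)).mul_const (w j)).const_add (z j)
    have h2 := hp.mul h1
    have e1 : (fun t : ℂ => MvPolynomial.eval (z + t • w) (p * MvPolynomial.X j)) =
        (fun t : ℂ => MvPolynomial.eval (z + t • w) p * (z j + t * w j)) := by
      funext t
      simp
    rw [e1]
    convert! h2 using 1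
    simp only [Derivation.leibniz, MvPolynomial.pderiv_X, smul_eq_mul, map_add, map_mul,
      MvPolynomial.eval_X, zero_smul, add_zero, zero_mul, add_mul, Finset.sum_add_distrib]
    rw [add_comm]
    congr 1
    · rw [Finset.sum_mul]
      refine Finset.sum_congr rfl fun i _ => ?_
      ring
    · rw [Finset.sum_eq_single j]
      · simp
      · intro b _ hb
        simp [hb.symm]
      · simp

theorem curve_contDiff {n : ℕ} (q : MvPolynomial (Fin n) ℂ) (z w w' : Fin n → ℂ) :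
    ContDiff ℂ 1 (fun p : ℂ × ℂ => MvPolynomial.eval (z + p.1 • w + p.2 • w') q) := by
  induction q using MvPolynomial.induction_on with
  | C a => simpa using contDiff_const
  | add p q hp hq => simpa using! hp.add hq
  | mul_X p j hp =>
    simp only [map_mul, MvPolynomial.eval_X, Pi.add_apply, Pi.smul_apply, smul_eq_mul]
    refine hp.mul ?_
    fun_prop

theorem curve {n : ℕ} (q : MvPolynomial (Fin n) ℂ) (ζ0 w w' : Fin n → ℂ)
    (h0 : MvPolynomial.eval ζ0 q = 0)
    (hw : ∑ i, MvPolynomial.eval ζ0 (MvPolynomial.pderiv i q) * w i = 0)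
    (hw' : ∑ i, MvPolynomial.eval ζ0 (MvPolynomial.pderiv i q) * w' i ≠ 0) :
    ∃ (r : ℝ) (y : ℂ → ℂ), 0 < r ∧ DifferentiableOn ℂ y (Metric.ball 0 r) ∧ y 0 = 0 ∧
      deriv y 0 = 0 ∧ ∀ x ∈ Metric.ball (0:ℂ) r, MvPolynomial.eval (ζ0 + x • w + y x • w') q = 0 := by
  set G : ℂ × ℂ → ℂ := fun p => MvPolynomial.eval (ζ0 + p.1 • w + p.2 • w') q with hG
  have hGc : ContDiff ℂ 1 G := curve_contDiff q ζ0 w w'
  have hc : ContDiffAt ℂ 1 G (0, 0) := hGc.contDiffAt
  have hG0 : G (0, 0) = 0 := by simp [hG, h0]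
  have hfd : HasFDerivAt G (fderiv ℂ G (0, 0)) (0, 0) :=
    (hc.differentiableAt one_ne_zero).hasFDerivAt
  -- partial derivatives
  have hx : fderiv ℂ G (0, 0) (1, 0) = 0 := by
    have h1 : HasDerivAt (fun t : ℂ => ((t, 0) : ℂ × ℂ)) (1, 0) 0 :=
      (hasDerivAt_id (0:ℂ)).prodMk (hasDerivAt_const (0:ℂ) (0:ℂ))
    have h2 := HasFDerivAt.comp_hasDerivAt (f := fun t : ℂ => ((t, 0) : ℂ × ℂ)) (0:ℂ) hfd h1
    have h3 := curve_line q ζ0 w
    have h4 : (G ∘ fun t : ℂ => ((t, 0) : ℂ × ℂ)) = fun t : ℂ => MvPolynomial.eval (ζ0 + t • w) q := by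
      funext t
      simp [hG]
    rw [h4] at h2
    rw [h2.unique h3, hw]
  have hy : fderiv ℂ G (0, 0) (0, 1) ≠ 0 := by
    have h1 : HasDerivAt (fun t : ℂ => ((0, t) : ℂ × ℂ)) (0, 1) 0 :=
      (hasDerivAt_const (0:ℂ) (0:ℂ)).prodMk (hasDerivAt_id (0:ℂ))
    have h2 := HasFDerivAt.comp_hasDerivAt (f := fun t : ℂ => ((0, t) : ℂ × ℂ)) (0:ℂ) hfd h1
    have h3 := curve_line q ζ0 w'
    have h4 : (G ∘ fun t : ℂ => ((0, t) : ℂ × ℂ)) = fun t : ℂ => MvPolynomial.eval (ζ0 + t • w') q := by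
      funext t
      simp [hG]
    rw [h4] at h2
    rw [h2.unique h3]
    exact hw'
  have hinl : fderiv ℂ G (0, 0) ∘L .inl ℂ ℂ ℂ = 0 := by
    ext
    simpa using! hx
  have hinv : (fderiv ℂ G (0, 0) ∘L .inr ℂ ℂ ℂ).IsInvertible := by
    set c := fderiv ℂ G (0, 0) (0, 1) with hcdef
    refine ⟨ContinuousLinearEquiv.smulLeft (Units.mk0 c hy), ?_⟩
    ext
    simp [hcdef]
  set y : ℂ → ℂ := hc.implicitFunction one_ne_zero hinv with hydef
  have hy0 : y 0 = 0 := hc.implicitFunction_apply_self one_ne_zero hinv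
  have hyc : ContDiffAt ℂ 1 y 0 := hc.contDiffAt_implicitFunction one_ne_zero hinv
  have hyev : ∀ᶠ x in nhds (0:ℂ), G (x, y x) = G (0, 0) :=
    hc.eventually_apply_implicitFunction one_ne_zero hinv
  have hyd : HasStrictFDerivAt y
      (-(fderiv ℂ G (0, 0) ∘L .inr ℂ ℂ ℂ).inverse ∘L (fderiv ℂ G (0, 0) ∘L .inl ℂ ℂ ℂ)) 0 :=
    hc.hasStrictFDerivAt_implicitFunction one_ne_zero hinv
  have hdiff : ∀ᶠ x in nhds (0:ℂ), DifferentiableAt ℂ y x := by
    have := hyc.eventually (by simp)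
    filter_upwards [this] with x hx
    exact hx.differentiableAt one_ne_zero
  obtain ⟨r, hr, hball⟩ := Metric.eventually_nhds_iff_ball.mp (hyev.and hdiff)
  refine ⟨r, y, hr, fun x hx => (hball x hx).2.differentiableWithinAt, hy0, ?_, ?_⟩
  · rw [hinl] at hyd
    have := hyd.hasFDerivAt.hasDerivAt
    simpa using this.deriv
  · intro x hx
    have := (hball x hx).1
    rw [hG0] at this
    exact this

end Helper112.Pf
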