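import Mathlib
import Pool.Agent.Helper112.Pf.Defs

set_option autoImplicit false

namespace Helper112.Pf

open MeasureTheory

/-! TO PROVE -/

theorem deg_one_coeff {n : ℕ} (a : Fin n → ℂ) (m : Fin n →₀ ℕ) :
    MvPolynomial.coeff m (∑ i, MvPolynomial.C (a i) * MvPolynomial.X i) =
      ∑ i, if Finsupp.single i 1 = m then a i else 0 := by
  classical
  rw [MvPolynomial.coeff_sum]
  apply Finset.sum_congr rfl
  intro i _
  rw [MvPolynomial.coeff_C_mul, MvPolynomial.coeff_X']
  split_ifs <;> simp

theorem deg_one_single {n : ℕ} (a : Fin n → ℂ) (j : Fin n) :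
    (∑ i, if Finsupp.single i 1 = (Finsupp.single j 1 : Fin n →₀ ℕ) then a i else 0) = a j := by
  classical
  rw [Finset.sum_eq_single j]
  · simp
  · intro i _ hij
    rw [if_neg]
    intro h
    exact hij (Finsupp.single_left_injective one_ne_zero h)
  · intro h
    exact (h (Finset.mem_univ j)).elim

theorem deg_one {n : ℕ} (p : MvPolynomial (Fin n) ℂ) (hp : p.totalDegree = 1) :
    ∃ (a : Fin n → ℂ) (c : ℂ), a ≠ 0 ∧ ∀ ζ : Fin n → ℂ, MvPolynomial.eval ζ p = ∑ i, a i * ζ i - c := by
  classical
  have hm : ∀ m ∈ p.support, m = 0 ∨ ∃ i, m = Finsupp.single i 1 := by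
    intro m hm
    have h1 := MvPolynomial.le_totalDegree hm
    rw [hp, Finsupp.sum_fintype _ _ (fun _ => rfl)] at h1
    by_cases h0 : m = 0
    · exact Or.inl h0
    · right
      obtain ⟨i, hi⟩ : ∃ i, m i ≠ 0 := by
        by_contra hcon
        push Not at hcon
        exact h0 (Finsupp.ext hcon)
      refine ⟨i, ?_⟩
      have h2 : m i + ∑ j ∈ Finset.univ.erase i, m j = ∑ j, m j :=
        Finset.add_sum_erase _ _ (Finset.mem_univ i)
      have h3 : ∑ j ∈ Finset.univ.erase i, m j = 0 := by omega
      have h4 : m i = 1 := by omega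
      ext j
      by_cases hj : i = j
      · subst hj
        simp [h4]
      · rw [Finsupp.single_eq_of_ne' hj]
        rw [Finset.sum_eq_zero_iff] at h3
        exact h3 j (Finset.mem_erase.2 ⟨fun h => hj h.symm, Finset.mem_univ j⟩)
  let a : Fin n → ℂ := fun i => MvPolynomial.coeff (Finsupp.single i 1) p
  have hpe : p = ∑ i, MvPolynomial.C (a i) * MvPolynomial.X i +
      MvPolynomial.C (MvPolynomial.coeff 0 p) := by
    ext m
    rw [MvPolynomial.coeff_add, deg_one_coeff, MvPolynomial.coeff_C]
    by_cases h0 : m = 0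
    · subst h0
      rw [if_pos rfl, Finset.sum_eq_zero, zero_add]
      intro i _
      rw [if_neg]
      intro h
      have := DFunLike.congr_fun h i
      simp at this
    · rw [if_neg (fun h => h0 h.symm), add_zero]
      by_cases h1 : ∃ i, m = Finsupp.single i 1
      · obtain ⟨j, rfl⟩ := h1
        rw [deg_one_single]
      · rw [Finset.sum_eq_zero]
        · by_contra hc
          rcases hm m (MvPolynomial.mem_support_iff.2 hc) with h | h
          · exact h0 h
          · exact h1 h
        · intro i _
          rw [if_neg]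
          intro h
          exact h1 ⟨i, h.symm⟩
  refine ⟨a, -MvPolynomial.coeff 0 p, ?_, ?_⟩
  · intro ha
    have h1 : p = MvPolynomial.C (MvPolynomial.coeff 0 p) := by
      conv_lhs => rw [hpe]
      rw [ha]
      simp
    rw [h1, MvPolynomial.totalDegree_C] at hp
    exact zero_ne_one hp
  · intro ζ
    conv_lhs => rw [hpe]
    simp

theorem deg_one_mk {n : ℕ} (a : Fin n → ℂ) (ha : a ≠ 0) (c : ℂ) :
    ∃ p : MvPolynomial (Fin n) ℂ, p.totalDegree = 1 ∧
      ∀ ζ : Fin n → ℂ, MvPolynomial.eval ζ p = ∑ i, a i * ζ i - c := by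
  classical
  refine ⟨∑ i, MvPolynomial.C (a i) * MvPolynomial.X i - MvPolynomial.C c, ?_, ?_⟩
  · apply le_antisymm
    · refine (MvPolynomial.totalDegree_sub _ _).trans (max_le ?_ ?_)
      · refine MvPolynomial.totalDegree_finsetSum_le ?_
        intro i _
        refine (MvPolynomial.totalDegree_mul _ _).trans ?_
        rw [MvPolynomial.totalDegree_C, zero_add, MvPolynomial.totalDegree_X]
      · rw [MvPolynomial.totalDegree_C]
        exact Nat.zero_le _
    · obtain ⟨i, hi⟩ : ∃ i, a i ≠ 0 := by
        by_contra hcon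
        push Not at hcon
        exact ha (funext hcon)
      have h1 : Finsupp.single i 1 ∈
          (∑ i, MvPolynomial.C (a i) * MvPolynomial.X i - MvPolynomial.C c).support := by
        rw [MvPolynomial.mem_support_iff, MvPolynomial.coeff_sub, deg_one_coeff, deg_one_single,
          MvPolynomial.coeff_C, if_neg]
        · simpa using hi
        · intro h
          have := DFunLike.congr_fun h i
          simp at this
      have h2 := MvPolynomial.le_totalDegree h1
      simpa using h2
  · intro ζ
    simp

end Helper112.Pf
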