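import Mathlib
import Pool.Agent.Helper112.Pf.Defs

set_option autoImplicit false

namespace Helper112.Pf

open MeasureTheory

/-! TO PROVE -/

theorem line_deriv {n : ℕ} (z v : Fin n → ℂ) (μ : ℂ) :
    HasDerivAt (fun μ : ℂ => z + μ • v) v μ := by
  have h := ((hasDerivAt_id μ).smul_const v).const_add z
  simpa using h

theorem cauchy_fderiv {n : ℕ} (G : (Fin n → ℂ) → ℂ) (hG : Differentiable ℂ G) (z : Fin n → ℂ)
    (M : ℝ) (hM : 0 ≤ M) (hb : ∀ y, ‖y - z‖ ≤ 1 → ‖G y‖ ≤ M) : ‖fderiv ℂ G z‖ ≤ M := by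
  apply ContinuousLinearMap.opNorm_le_bound _ hM
  intro v
  by_cases hv : v = 0
  · simp [hv]
  have hv0 : 0 < ‖v‖ := norm_pos_iff.2 hv
  have hd : Differentiable ℂ (fun μ : ℂ => G (z + μ • v)) := fun μ =>
    (hG _).comp μ (line_deriv z v μ).differentiableAt
  have h1 := Complex.norm_deriv_le_of_forall_mem_sphere_norm_le (c := 0) (R := 1 / ‖v‖) (C := M)
    (f := fun μ : ℂ => G (z + μ • v)) (by positivity) hd.diffContOnCl (by
      intro μ hμ
      apply hb
      rw [mem_sphere_zero_iff_norm] at hμ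
      rw [add_sub_cancel_left, norm_smul, hμ, one_div, inv_mul_cancel₀ hv0.ne'])
  have h2 : deriv (fun μ : ℂ => G (z + μ • v)) 0 = fderiv ℂ G z v := by
    have h3 : HasFDerivAt G (fderiv ℂ G z) (z + (0 : ℂ) • v) := by
      rw [zero_smul, add_zero]
      exact (hG z).hasFDerivAt
    exact (h3.comp_hasDerivAt (0 : ℂ) (line_deriv z v 0)).deriv
  rw [h2] at h1
  rwa [div_div_eq_mul_div, div_one] at h1

theorem int_diff {n : ℕ} (K : (Fin n → ℂ) → ℝ → ℂ) (a b : ℝ)
    (hK : Continuous (Function.uncurry K)) (hd : ∀ t, Differentiable ℂ (fun z => K z t)) :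
    Differentiable ℂ (fun z => ∫ t in a..b, K z t) := by
  intro z₀
  obtain ⟨M, hM0, hM⟩ : ∃ M : ℝ, 0 ≤ M ∧ ∀ z t, ‖z - z₀‖ ≤ 2 → t ∈ Set.uIcc a b →
      ‖K z t‖ ≤ M := by
    have hc : IsCompact (Metric.closedBall z₀ 2 ×ˢ Set.uIcc a b) :=
      (isCompact_closedBall _ _).prod isCompact_uIcc
    obtain ⟨M, hM⟩ := hc.exists_bound_of_continuousOn hK.continuousOn
    refine ⟨max M 0, le_max_right _ _, fun z t hz ht => ?_⟩
    exact (hM (z, t) ⟨mem_closedBall_iff_norm.2 hz, ht⟩).trans (le_max_left _ _)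
  have hcz : ∀ z, Continuous (K z) := fun z => hK.comp (continuous_const.prodMk continuous_id)
  have hmeas : Measurable (fun p : ℝ × (Fin n → ℂ) => fderiv ℂ (fun z => K z p.1) p.2) :=
    measurable_fderiv_with_param ℂ (f := fun (t : ℝ) (z : Fin n → ℂ) => K z t)
      (hK.comp continuous_swap)
  have h := intervalIntegral.hasFDerivAt_integral_of_dominated_of_fderiv_le (μ := volume)
    (a := a) (b := b) (𝕜 := ℂ) (F := K) (F' := fun z t => fderiv ℂ (fun z => K z t) z)
    (x₀ := z₀) (bound := fun _ => M) (s := Metric.ball z₀ 1) (Metric.ball_mem_nhds _ one_pos)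
    (Filter.Eventually.of_forall fun z => (hcz z).aestronglyMeasurable)
    ((hcz z₀).intervalIntegrable a b)
    ((hmeas.comp (measurable_id.prodMk measurable_const)).aestronglyMeasurable)
    (Filter.Eventually.of_forall (fun t ht z hz => by
      apply cauchy_fderiv _ (hd t) z M hM0
      intro y hy
      apply hM y t _ (Set.uIoc_subset_uIcc ht)
      rw [mem_ball_iff_norm] at hz
      have : ‖y - z₀‖ ≤ ‖y - z‖ + ‖z - z₀‖ := norm_sub_le_norm_sub_add_norm_sub y z z₀
      linarith))
    intervalIntegrable_const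
    (Filter.Eventually.of_forall (fun t _ z _ => (hd t z).hasFDerivAt))
  exact h.differentiableAt

theorem dir_diff {n : ℕ} (F : (Fin n → ℂ) → ℂ) (hF : Differentiable ℂ F) (w : Fin n → ℂ) :
    Differentiable ℂ (fun z => fderiv ℂ F z w) := by
  have h : (fun z => fderiv ℂ F z w) = fun z => (2 * (Real.pi : ℂ) * Complex.I)⁻¹ •
      ∫ θ in (0 : ℝ)..2 * Real.pi, deriv (circleMap 0 1) θ •
        (((circleMap 0 1 θ - 0) ^ 2)⁻¹ • F (z + circleMap 0 1 θ • w)) := by
    funext z
    have hd : Differentiable ℂ (fun μ : ℂ => F (z + μ • w)) := fun μ =>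
      (hF _).comp μ (line_deriv z w μ).differentiableAt
    have h1 := Complex.two_pi_I_inv_smul_circleIntegral_sub_sq_inv_smul_of_differentiable
      isOpen_univ (c := 0) (w₀ := 0) (R := 1) (f := fun μ : ℂ => F (z + μ • w))
      (Set.subset_univ _) hd.differentiableOn (Metric.mem_ball_self one_pos)
    have h2 : deriv (fun μ : ℂ => F (z + μ • w)) 0 = fderiv ℂ F z w := by
      have h3 : HasFDerivAt F (fderiv ℂ F z) (z + (0 : ℂ) • w) := by
        rw [zero_smul, add_zero]
        exact (hF z).hasFDerivAt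
      exact (h3.comp_hasDerivAt (0 : ℂ) (line_deriv z w 0)).deriv
    rw [h2] at h1
    rw [← h1]
    rfl
  rw [h]
  apply Differentiable.fun_const_smul
  apply int_diff
  · have hc : Continuous (fun p : (Fin n → ℂ) × ℝ => circleMap 0 1 p.2) :=
      (continuous_circleMap 0 1).comp continuous_snd
    have hne : ∀ p : (Fin n → ℂ) × ℝ, (circleMap 0 1 p.2 - 0) ^ 2 ≠ 0 := by
      intro p
      rw [sub_zero]
      exact pow_ne_zero 2 (circleMap_ne_center one_ne_zero)
    have hF' : Continuous F := hF.continuous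
    have e : Function.uncurry (fun (z : Fin n → ℂ) (θ : ℝ) => deriv (circleMap 0 1) θ •
        (((circleMap 0 1 θ - 0) ^ 2)⁻¹ • F (z + circleMap 0 1 θ • w))) =
        fun p : (Fin n → ℂ) × ℝ => (circleMap 0 1 p.2 * Complex.I) •
        (((circleMap 0 1 p.2 - 0) ^ 2)⁻¹ • F (p.1 + circleMap 0 1 p.2 • w)) := by
      funext p
      simp only [Function.uncurry, deriv_circleMap]
    rw [e]
    apply (hc.mul continuous_const).smul
    apply Continuous.fun_smul
    · exact ((hc.sub continuous_const).pow 2).inv₀ hne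
    · exact hF'.comp (continuous_fst.add (hc.smul continuous_const))
  · intro θ
    apply Differentiable.fun_const_smul
    apply Differentiable.fun_const_smul
    exact hF.comp (differentiable_id.add_const _)

theorem div_linear {n : ℕ} (F : (Fin n → ℂ) → ℂ) (hF : Differentiable ℂ F) (a : Fin n → ℂ)
    (ha : a ≠ 0) (c : ℂ) (h : ∀ ζ : Fin n → ℂ, ∑ i, a i * ζ i = c → F ζ = 0) :
    ∃ f : (Fin n → ℂ) → ℂ, Differentiable ℂ f ∧ ∀ ζ, F ζ = (∑ i, a i * ζ i - c) * f ζ := by
  obtain ⟨k, hk⟩ : ∃ k, a k ≠ 0 := by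
    by_contra hcon
    push Not at hcon
    exact ha (funext hcon)
  obtain ⟨w, hw⟩ : ∃ w : Fin n → ℂ, ∑ i, a i * w i = 1 := by
    refine ⟨Pi.single k (a k)⁻¹, ?_⟩
    rw [Finset.sum_eq_single k]
    · rw [Pi.single_eq_same, mul_inv_cancel₀ hk]
    · intro i _ hi
      rw [Pi.single_eq_of_ne hi, mul_zero]
    · intro hk'
      exact absurd (Finset.mem_univ k) hk'
  obtain ⟨s, hs⟩ : ∃ s : (Fin n → ℂ) → ℂ, s = fun z => ∑ i, a i * z i - c := ⟨_, rfl⟩
  have hsd : Differentiable ℂ s := by
    rw [hs]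
    fun_prop
  have hzero : ∀ z, F (z - s z • w) = 0 := by
    intro z
    apply h
    simp only [Pi.sub_apply, Pi.smul_apply, smul_eq_mul, mul_sub, Finset.sum_sub_distrib]
    have e1 : ∑ i, a i * (s z * w i) = s z * ∑ i, a i * w i := by
      rw [Finset.mul_sum]
      apply Finset.sum_congr rfl
      intro i _
      ring
    rw [e1, hw, hs]
    ring
  have hFw := dir_diff F hF w
  refine ⟨fun z => ∫ r in (0 : ℝ)..1, fderiv ℂ F (z - (((1 - r : ℝ) : ℂ) * s z) • w) w, ?_, ?_⟩
  · apply int_diff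
    · have e : Function.uncurry (fun (z : Fin n → ℂ) (r : ℝ) =>
          fderiv ℂ F (z - (((1 - r : ℝ) : ℂ) * s z) • w) w) =
          (fun z => fderiv ℂ F z w) ∘ (fun p : (Fin n → ℂ) × ℝ =>
            p.1 - (((1 - p.2 : ℝ) : ℂ) * s p.1) • w) := rfl
      rw [e]
      apply hFw.continuous.comp
      have hsc : Continuous s := hsd.continuous
      have h1 : Continuous (fun p : (Fin n → ℂ) × ℝ => ((1 - p.2 : ℝ) : ℂ)) :=
        Complex.continuous_ofReal.comp (continuous_const.sub continuous_snd)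
      exact continuous_fst.sub ((h1.mul (hsc.comp continuous_fst)).smul continuous_const)
    · intro r
      have h1 : Differentiable ℂ (fun z : Fin n → ℂ => z - (((1 - r : ℝ) : ℂ) * s z) • w) :=
        differentiable_id.sub ((hsd.const_mul _).smul_const w)
      exact hFw.comp h1
  · intro z
    have hder : ∀ r : ℝ, HasDerivAt (fun r : ℝ => F (z - (((1 - r : ℝ) : ℂ) * s z) • w))
        (s z * fderiv ℂ F (z - (((1 - r : ℝ) : ℂ) * s z) • w) w) r := by
      intro r
      have h1 : HasDerivAt (fun μ : ℂ => z - ((1 - μ) * s z) • w) (s z • w) (r : ℂ) := by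
        have h2 := ((((hasDerivAt_id (r : ℂ)).const_sub 1).mul_const (s z)).smul_const w).const_sub z
        simpa using h2
      have h3 : HasDerivAt (fun μ : ℂ => F (z - ((1 - μ) * s z) • w))
          (fderiv ℂ F (z - ((1 - (r : ℂ)) * s z) • w) (s z • w)) (r : ℂ) :=
        (hF _).hasFDerivAt.comp_hasDerivAt (r : ℂ) h1
      have h4 := h3.comp_ofReal
      rw [map_smul, smul_eq_mul] at h4
      have e : (fun r : ℝ => F (z - (((1 - r : ℝ) : ℂ) * s z) • w)) =
          fun y : ℝ => F (z - ((1 - (y : ℂ)) * s z) • w) := by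
        funext y
        push_cast
        rfl
      rw [e]
      push_cast
      exact h4
    have hcont : Continuous (fun r : ℝ =>
        s z * fderiv ℂ F (z - (((1 - r : ℝ) : ℂ) * s z) • w) w) := by
      apply continuous_const.mul
      apply hFw.continuous.comp
      have h1 : Continuous (fun r : ℝ => ((1 - r : ℝ) : ℂ)) :=
        Complex.continuous_ofReal.comp (continuous_const.sub continuous_id)
      exact continuous_const.sub ((h1.mul continuous_const).smul continuous_const)
    have hint := intervalIntegral.integral_eq_sub_of_hasDerivAt (a := 0) (b := 1)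
      (fun r _ => hder r) (hcont.intervalIntegrable 0 1)
    rw [intervalIntegral.integral_const_mul] at hint
    have e1 : F (z - (((1 - 1 : ℝ) : ℂ) * s z) • w) = F z := by simp
    have e0 : F (z - (((1 - 0 : ℝ) : ℂ) * s z) • w) = 0 := by
      have := hzero z
      simpa using this
    rw [e1, e0, sub_zero] at hint
    rw [← hint]
    simp only [hs]

end Helper112.Pf
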