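import Mathlib
import Pool.Agent.Helper112.Pf.Defs

set_option autoImplicit false

namespace Helper112.Pf

open MeasureTheory

/-! TO PROVE -/

open Polynomial in
theorem elim_alg_lin {K : Type*} [Field K] (q : K[X]) (hq : q ≠ 0) (m : ℕ) (hm : q.natDegree = m)
    (P : Fin (m + 1) → K[X]) : ∃ k : Fin (m + 1) → K, (∃ j, k j ≠ 0) ∧
      q ∣ ∑ j, C (k j) * P j := by
  obtain ⟨q', hq'⟩ : ∃ q', q' = q * C (q.leadingCoeff)⁻¹ := ⟨_, rfl⟩
  have hmon : q'.Monic := by rw [hq']; exact monic_mul_leadingCoeff_inv hq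
  have hdeg : q'.natDegree = m := by
    rw [hq', natDegree_mul_leadingCoeff_inv _ hq, hm]
  have hnot : ¬ LinearIndependent K (fun j : Fin (m + 1) => fun i : Fin m =>
      ((P j) %ₘ q').coeff i) := by
    intro h
    have h1 := h.fintype_card_le_finrank
    simp at h1
  obtain ⟨k, hk, hj⟩ := Fintype.not_linearIndependent_iff.1 hnot
  refine ⟨k, hj, ?_⟩
  have hdvd : q' ∣ ∑ j, C (k j) * P j := by
    rw [← modByMonic_eq_zero_iff_dvd hmon]
    have h1 : (∑ j, C (k j) * P j) %ₘ q' = ∑ j, k j • ((P j) %ₘ q') := by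
      have h2 := map_sum (modByMonicHom q') (fun j => C (k j) * P j) Finset.univ
      simp only [modByMonicHom, LinearMap.coe_mk, AddHom.coe_mk] at h2
      rw [h2]
      refine Finset.sum_congr rfl fun j _ => ?_
      rw [← smul_eq_C_mul, smul_modByMonic]
    rw [h1]
    ext i
    rw [coeff_zero]
    by_cases hi : i < m
    · have h3 := congrFun hk ⟨i, hi⟩
      simp only [Finset.sum_apply, Pi.smul_apply, Pi.zero_apply] at h3
      rw [finset_sum_coeff]
      simpa using h3
    · rw [finset_sum_coeff]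
      refine Finset.sum_eq_zero fun j _ => ?_
      rw [coeff_smul]
      have h4 : ((P j) %ₘ q').coeff i = 0 := by
        apply coeff_eq_zero_of_degree_lt
        refine (degree_modByMonic_lt (P j) hmon).trans_le ?_
        rw [degree_eq_natDegree hmon.ne_zero, hdeg]
        exact_mod_cast not_lt.1 hi
      rw [h4, smul_zero]
  exact (Dvd.intro _ hq'.symm).trans hdvd

theorem elim_alg (Q A B : Polynomial (Polynomial ℂ)) (hQ : Q ≠ 0) :
    ∃ g : Polynomial (Polynomial ℂ), g ≠ 0 ∧ ∀ x y t : ℂ,
      (Q.map (Polynomial.evalRingHom x)).eval y = 0 →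
      (A.map (Polynomial.evalRingHom x)).eval y = t * (B.map (Polynomial.evalRingHom x)).eval y →
      (B.map (Polynomial.evalRingHom x)).eval y ≠ 0 →
      (g.map (Polynomial.evalRingHom x)).eval t = 0 := by
  obtain ⟨m, hm⟩ : ∃ m, Q.natDegree = m := ⟨_, rfl⟩
  let K := FractionRing (Polynomial ℂ)
  have hinj : Function.Injective (algebraMap (Polynomial ℂ) K) := IsFractionRing.injective _ _
  have hq0 : Q.map (algebraMap (Polynomial ℂ) K) ≠ 0 := (Polynomial.map_ne_zero_iff hinj).2 hQ
  have hqm : (Q.map (algebraMap (Polynomial ℂ) K)).natDegree = m := by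
    rw [Polynomial.natDegree_map_eq_of_injective hinj, hm]
  obtain ⟨k, ⟨j0, hj0⟩, H, hH⟩ := elim_alg_lin _ hq0 m hqm
    (fun j : Fin (m + 1) => (A ^ (j : ℕ) * B ^ (m - (j : ℕ))).map (algebraMap (Polynomial ℂ) K))
  obtain ⟨b, hb⟩ := IsLocalization.exist_integer_multiples_of_finite
    (nonZeroDivisors (Polynomial ℂ)) k
  choose a ha using hb
  obtain ⟨b2, hb2⟩ := IsLocalization.integerNormalization_map_to_map
    (nonZeroDivisors (Polynomial ℂ)) (Polynomial.C (algebraMap (Polynomial ℂ) K b) * H)
  obtain ⟨H1, hH1⟩ : ∃ H1, H1 = IsLocalization.integerNormalization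
    (nonZeroDivisors (Polynomial ℂ)) (Polynomial.C (algebraMap (Polynomial ℂ) K b) * H) := ⟨_, rfl⟩
  rw [← hH1] at hb2
  have hid : ∑ j : Fin (m + 1), Polynomial.C ((b2 : Polynomial ℂ) * a j) *
      (A ^ (j : ℕ) * B ^ (m - (j : ℕ))) = Q * H1 := by
    apply Polynomial.map_injective _ hinj
    rw [Polynomial.map_mul, hb2, Polynomial.map_sum]
    have h1 : ∀ j : Fin (m + 1), Polynomial.map (algebraMap (Polynomial ℂ) K)
        (Polynomial.C ((b2 : Polynomial ℂ) * a j) * (A ^ (j : ℕ) * B ^ (m - (j : ℕ)))) =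
        Polynomial.C (algebraMap (Polynomial ℂ) K b2) * (Polynomial.C (algebraMap (Polynomial ℂ) K b) *
          (Polynomial.C (k j) * (A ^ (j : ℕ) * B ^ (m - (j : ℕ))).map
            (algebraMap (Polynomial ℂ) K))) := by
      intro j
      rw [Polynomial.map_mul, Polynomial.map_C, map_mul, ha j, Algebra.smul_def, Polynomial.C_mul,
        Polynomial.C_mul]
      ring
    simp only [h1]
    rw [← Finset.mul_sum, ← Finset.mul_sum, hH, Algebra.smul_def]
    have h2 : algebraMap (Polynomial ℂ) (Polynomial K) (b2 : Polynomial ℂ) =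
      Polynomial.C (algebraMap (Polynomial ℂ) K b2) := rfl
    rw [h2]
    ring
  refine ⟨∑ j : Fin (m + 1), Polynomial.C ((b2 : Polynomial ℂ) * a j) * Polynomial.X ^ (j : ℕ),
    ?_, ?_⟩
  · intro h0
    have h1 := congrArg (fun p => Polynomial.coeff p (j0 : ℕ)) h0
    simp only [Polynomial.finset_sum_coeff, Polynomial.coeff_C_mul_X_pow,
      Polynomial.coeff_zero] at h1
    rw [Finset.sum_eq_single j0] at h1
    · rw [if_pos rfl] at h1
      rcases mul_eq_zero.1 h1 with h2 | h2
      · exact nonZeroDivisors.ne_zero b2.2 h2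
      · have h3 := ha j0
        rw [h2, map_zero, Algebra.smul_def] at h3
        rcases mul_eq_zero.1 h3.symm with h4 | h4
        · exact nonZeroDivisors.ne_zero b.2 ((map_eq_zero_iff _ hinj).1 h4)
        · exact hj0 h4
    · intro j _ hj
      rw [if_neg]
      intro h
      exact hj (Fin.ext h.symm)
    · intro h
      exact absurd (Finset.mem_univ _) h
  · intro x y t h1 h2 h3
    have h4 := congrArg (fun P => (P.map (Polynomial.evalRingHom x)).eval y) hid
    simp only [Polynomial.map_mul, Polynomial.eval_mul, h1, zero_mul, Polynomial.map_sum,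
      Polynomial.eval_finset_sum, Polynomial.map_pow, Polynomial.eval_pow, Polynomial.map_C,
      Polynomial.eval_C, h2] at h4
    have h5 : ((∑ j : Fin (m + 1), Polynomial.C ((b2 : Polynomial ℂ) * a j) *
        Polynomial.X ^ (j : ℕ)).map (Polynomial.evalRingHom x)).eval t *
        ((B.map (Polynomial.evalRingHom x)).eval y) ^ m = 0 := by
      rw [← h4]
      simp only [Polynomial.map_mul, Polynomial.eval_mul, Polynomial.map_sum,
        Polynomial.eval_finset_sum, Polynomial.map_pow, Polynomial.eval_pow, Polynomial.map_C,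
        Polynomial.eval_C, Polynomial.map_X, Polynomial.eval_X]
      rw [Finset.sum_mul]
      refine Finset.sum_congr rfl fun j _ => ?_
      have h6 : ∀ b : ℂ, b ^ m = b ^ (j : ℕ) * b ^ (m - (j : ℕ)) := by
        intro b
        rw [← pow_add]
        congr 1
        have := j.2
        omega
      rw [h6]
      ring
    rcases mul_eq_zero.1 h5 with h6 | h6
    · exact h6
    · exact absurd h6 (pow_ne_zero _ h3)

end Helper112.Pf
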