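import Mathlib
import Pool.Agent.Helper112.Pf.Defs

set_option autoImplicit false

namespace Helper112.Pf

open MeasureTheory

/-! TO PROVE -/

theorem exp_trans (g : Polynomial (Polynomial ℂ)) (hg : g ≠ 0) (c : ℂ) (hc : c ≠ 0) (r : ℝ)
    (hr : 0 < r) (h : ∀ x : ℂ, ‖x‖ < r →
      (g.map (Polynomial.evalRingHom x)).eval (c * Complex.exp x) = 0) : False := by
  have hev : ∀ (x t : ℂ), (g.map (Polynomial.evalRingHom x)).eval t =
      ∑ i ∈ Finset.range (g.natDegree + 1), (g.coeff i).eval x * t ^ i := by
    intro x t
    rw [Polynomial.eval_map, Polynomial.eval₂_eq_sum_range]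
    rfl
  have hqe : ∀ (x t : ℂ), (g.eval (Polynomial.C t)).eval x =
      (g.map (Polynomial.evalRingHom x)).eval t := by
    intro x t
    rw [hev, Polynomial.eval_eq_sum_range (p := g), Polynomial.eval_finsetSum]
    apply Finset.sum_congr rfl
    intro i _
    simp
  have hdiff : Differentiable ℂ (fun x : ℂ =>
      (g.map (Polynomial.evalRingHom x)).eval (c * Complex.exp x)) := by
    have h1 : (fun x : ℂ => (g.map (Polynomial.evalRingHom x)).eval (c * Complex.exp x)) =
        fun x => ∑ i ∈ Finset.range (g.natDegree + 1), (g.coeff i).eval x * (c * Complex.exp x) ^ i := by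
      funext x
      exact hev x _
    rw [h1]
    apply Differentiable.fun_sum
    intro i _
    apply Differentiable.mul
    · exact (g.coeff i).differentiable
    · exact ((Complex.differentiable_exp).const_mul c).pow i
  have hzero : (fun x : ℂ => (g.map (Polynomial.evalRingHom x)).eval (c * Complex.exp x)) =
      fun _ => 0 := by
    refine AnalyticOnNhd.eq_of_eventuallyEq (𝕜 := ℂ) (z₀ := 0) (fun x _ => hdiff.analyticAt x)
      analyticOnNhd_const ?_
    · have : Metric.ball (0 : ℂ) r ∈ nhds (0 : ℂ) := Metric.ball_mem_nhds 0 hr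
      filter_upwards [this] with x hx
      exact h x (by simpa using hx)
  have hall : ∀ x : ℂ, (g.map (Polynomial.evalRingHom x)).eval (c * Complex.exp x) = 0 :=
    fun x => congrFun hzero x
  have hroot : ∀ t : ℂ, t ≠ 0 → g.eval (Polynomial.C t) = 0 := by
    intro t ht
    apply Polynomial.eq_zero_of_infinite_isRoot
    refine Set.infinite_of_injective_forall_mem
      (f := fun k : ℕ => Complex.log (t / c) + k * (2 * Real.pi * Complex.I)) ?_ ?_
    · intro k k' hk
      simp only [add_right_inj] at hk
      have h2 : (2 * (Real.pi : ℂ) * Complex.I) ≠ 0 := Complex.two_pi_I_ne_zero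
      have := mul_right_cancel₀ h2 hk
      exact_mod_cast this
    · intro k
      change (g.eval (Polynomial.C t)).eval _ = 0
      rw [hqe]
      have h3 := hall (Complex.log (t / c) + k * (2 * Real.pi * Complex.I))
      have h4 : c * Complex.exp (Complex.log (t / c) + k * (2 * Real.pi * Complex.I)) = t := by
        rw [Complex.exp_add, Complex.exp_nat_mul_two_pi_mul_I, mul_one,
          Complex.exp_log (div_ne_zero ht hc)]
        field_simp
      rw [h4] at h3
      exact h3
  apply hg
  apply Polynomial.eq_zero_of_infinite_isRoot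
  refine Set.infinite_of_injective_forall_mem
    (f := fun n : ℕ => (Polynomial.C ((n : ℂ) + 1) : Polynomial ℂ)) ?_ ?_
  · intro n n' hn
    have := Polynomial.C_injective hn
    simp only [add_left_inj, Nat.cast_inj] at this
    exact this
  · intro n
    exact hroot _ (Nat.cast_add_one_ne_zero n)
end Helper112.Pf
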