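import Mathlib
import Pool.Agent.Helper112.Pf.Defs

set_option autoImplicit false

namespace Helper112.Pf

open MeasureTheory



/-! TO PROVE -/

theorem eff_inner (z0 : ℂ) (a b : ℝ) :
    z0 * ∫ t in a..b, Complex.exp (-(Complex.I * ((t : ℂ) * z0))) =
    Complex.I * (Complex.exp (-(Complex.I * ((b : ℂ) * z0))) -
      Complex.exp (-(Complex.I * ((a : ℂ) * z0)))) := by
  have h : ∀ t : ℝ, HasDerivAt (fun t : ℝ => Complex.I * Complex.exp (-(Complex.I * ((t : ℂ) * z0))))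
      (z0 * Complex.exp (-(Complex.I * ((t : ℂ) * z0)))) t := by
    intro t
    have h1 : HasDerivAt (fun t : ℝ => (t : ℂ)) 1 t := by
      simpa using (hasDerivAt_id t).ofReal_comp
    have h2 : HasDerivAt (fun t : ℝ => -(Complex.I * ((t : ℂ) * z0))) (-(Complex.I * (1 * z0))) t :=
      ((h1.mul_const z0).const_mul Complex.I).fun_neg
    have h3 := (h2.cexp).const_mul Complex.I
    refine h3.congr_deriv ?_
    have hI : Complex.I * Complex.I = -1 := Complex.I_mul_I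
    linear_combination (-z0 * Complex.exp (-(Complex.I * ((t : ℂ) * z0)))) * hI
  rw [← intervalIntegral.integral_const_mul,
    intervalIntegral.integral_eq_sub_of_hasDerivAt (fun t _ => h t)
      ((by fun_prop : Continuous fun t : ℝ =>
        z0 * Complex.exp (-(Complex.I * ((t : ℂ) * z0)))).intervalIntegrable a b)]
  ring

theorem eff_fubini {n : ℕ} (K' : Set (Fin n → ℝ)) (hK' : IsCompact K')
    (l u : Fin n → ℝ) (l0 u0 : ℝ) (hlu : ∀ x ∈ K', l0 + ∑ i, l i * x i ≤ u0 + ∑ i, u i * x i)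
    (K : Set (Fin (n + 1) → ℝ)) (hK : IsCompact K)
    (hKK : ∀ (t : ℝ) (x : Fin n → ℝ), (Fin.cons t x : Fin (n + 1) → ℝ) ∈ K ↔
      (x ∈ K' ∧ l0 + ∑ i, l i * x i ≤ t ∧ t ≤ u0 + ∑ i, u i * x i)) (ζ : Fin (n + 1) → ℂ) :
    FT K ζ = ∫ x in K', Complex.exp (-(Complex.I * ∑ i, (x i : ℂ) * ζ i.succ)) *
      ∫ t in (l0 + ∑ i, l i * x i)..(u0 + ∑ i, u i * x i),
        Complex.exp (-(Complex.I * ((t : ℂ) * ζ 0))) := by
  set g : (Fin (n + 1) → ℝ) → ℂ := fun x => Complex.exp (-(Complex.I * ∑ i, (x i : ℂ) * ζ i))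
    with hg
  have hgc : Continuous g := by fun_prop
  have hint : Integrable (K.indicator g) volume :=
    (integrable_indicator_iff hK.measurableSet).2 (hgc.continuousOn.integrableOn_compact hK)
  have hmp := (volume_preserving_piFinSuccAbove (fun _ : Fin (n + 1) => ℝ) 0).symm
  have hsymm : ∀ p : ℝ × (Fin n → ℝ),
      (MeasurableEquiv.piFinSuccAbove (fun _ : Fin (n + 1) => ℝ) 0).symm p = Fin.cons p.1 p.2 := by
    intro p
    simp [MeasurableEquiv.piFinSuccAbove_symm_apply, Fin.insertNthEquiv]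
  have h1 : FT K ζ = ∫ p : ℝ × (Fin n → ℝ), K.indicator g (Fin.cons p.1 p.2) := by
    have e1 := hmp.integral_comp' (K.indicator g)
    have e2 : FT K ζ = ∫ y, K.indicator g y := (integral_indicator hK.measurableSet).symm
    rw [e2, ← e1]
    congr 1
    funext p
    rw [hsymm p]
  have h2 : Integrable (fun p : ℝ × (Fin n → ℝ) => K.indicator g (Fin.cons p.1 p.2))
      (volume.prod volume) := by
    have e1 := hmp.integrable_comp_of_integrable hint
    refine e1.congr (Filter.Eventually.of_forall fun p => ?_)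
    simp only [Function.comp]
    rw [hsymm p]
  rw [h1]
  have h3 : ∫ p : ℝ × (Fin n → ℝ), K.indicator g (Fin.cons p.1 p.2) =
      ∫ x : Fin n → ℝ, ∫ t : ℝ, K.indicator g (Fin.cons t x) := integral_prod_symm _ h2
  rw [h3, ← integral_indicator hK'.measurableSet]
  congr 1
  funext x
  by_cases hx : x ∈ K'
  · rw [Set.indicator_of_mem hx]
    have h4 : ∀ t : ℝ, K.indicator g (Fin.cons t x) =
        (Set.Icc (l0 + ∑ i, l i * x i) (u0 + ∑ i, u i * x i)).indicator
          (fun t : ℝ => Complex.exp (-(Complex.I * ∑ i, (x i : ℂ) * ζ i.succ)) *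
            Complex.exp (-(Complex.I * ((t : ℂ) * ζ 0)))) t := by
      intro t
      by_cases ht : t ∈ Set.Icc (l0 + ∑ i, l i * x i) (u0 + ∑ i, u i * x i)
      · rw [Set.indicator_of_mem ht, Set.indicator_of_mem ((hKK t x).2 ⟨hx, ht.1, ht.2⟩)]
        simp only [hg]
        rw [← Complex.exp_add, Fin.sum_univ_succ]
        simp only [Fin.cons_zero, Fin.cons_succ]
        congr 1
        ring
      · rw [Set.indicator_of_notMem ht, Set.indicator_of_notMem]
        intro h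
        exact ht ⟨((hKK t x).1 h).2.1, ((hKK t x).1 h).2.2⟩
    simp_rw [h4]
    rw [integral_indicator measurableSet_Icc, integral_Icc_eq_integral_Ioc,
      ← intervalIntegral.integral_of_le (hlu x hx), intervalIntegral.integral_const_mul]
  · rw [Set.indicator_of_notMem hx]
    have h4 : ∀ t : ℝ, K.indicator g (Fin.cons t x) = 0 := by
      intro t
      rw [Set.indicator_of_notMem]
      intro h
      exact hx ((hKK t x).1 h).1
    simp_rw [h4]
    simp

theorem eff_rel {n : ℕ} (K' : Set (Fin n → ℝ)) (hK' : IsCompact K')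
    (l u : Fin n → ℝ) (l0 u0 : ℝ) (hlu : ∀ x ∈ K', l0 + ∑ i, l i * x i ≤ u0 + ∑ i, u i * x i)
    (K : Set (Fin (n + 1) → ℝ)) (hK : IsCompact K)
    (hKK : ∀ (t : ℝ) (x : Fin n → ℝ), (Fin.cons t x : Fin (n + 1) → ℝ) ∈ K ↔
      (x ∈ K' ∧ l0 + ∑ i, l i * x i ≤ t ∧ t ≤ u0 + ∑ i, u i * x i)) (ζ : Fin (n + 1) → ℂ) :
    ζ 0 * FT K ζ = Complex.I *
      (Complex.exp (-(Complex.I * ((u0 : ℂ) * ζ 0))) * FT K' (fun i => ζ i.succ + (u i : ℂ) * ζ 0) -
       Complex.exp (-(Complex.I * ((l0 : ℂ) * ζ 0))) *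
        FT K' (fun i => ζ i.succ + (l i : ℂ) * ζ 0)) := by
  rw [eff_fubini K' hK' l u l0 u0 hlu K hK hKK ζ, ← integral_const_mul]
  have h1 : ∀ x : Fin n → ℝ, ζ 0 * (Complex.exp (-(Complex.I * ∑ i, (x i : ℂ) * ζ i.succ)) *
      ∫ t in (l0 + ∑ i, l i * x i)..(u0 + ∑ i, u i * x i),
        Complex.exp (-(Complex.I * ((t : ℂ) * ζ 0)))) =
      Complex.I * Complex.exp (-(Complex.I * ((u0 : ℂ) * ζ 0))) *
        Complex.exp (-(Complex.I * ∑ i, (x i : ℂ) * (ζ i.succ + (u i : ℂ) * ζ 0))) -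
      Complex.I * Complex.exp (-(Complex.I * ((l0 : ℂ) * ζ 0))) *
        Complex.exp (-(Complex.I * ∑ i, (x i : ℂ) * (ζ i.succ + (l i : ℂ) * ζ 0))) := by
    intro x
    have h2 := eff_inner (ζ 0) (l0 + ∑ i, l i * x i) (u0 + ∑ i, u i * x i)
    have h3 : ∀ (w : Fin n → ℝ) (w0 : ℝ),
        Complex.exp (-(Complex.I * ∑ i, (x i : ℂ) * ζ i.succ)) *
          Complex.exp (-(Complex.I * (((w0 + ∑ i, w i * x i : ℝ) : ℂ) * ζ 0))) =
        Complex.exp (-(Complex.I * ((w0 : ℂ) * ζ 0))) *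
          Complex.exp (-(Complex.I * ∑ i, (x i : ℂ) * (ζ i.succ + (w i : ℂ) * ζ 0))) := by
      intro w w0
      rw [← Complex.exp_add, ← Complex.exp_add]
      congr 1
      have h4 : ∑ i, (x i : ℂ) * (ζ i.succ + (w i : ℂ) * ζ 0) =
          ∑ i, (x i : ℂ) * ζ i.succ + (∑ i, (w i : ℂ) * (x i : ℂ)) * ζ 0 := by
        rw [Finset.sum_mul, ← Finset.sum_add_distrib]
        apply Finset.sum_congr rfl
        intro i _
        ring
      rw [h4]
      push_cast
      ring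
    have h5 := h3 u u0
    have h6 := h3 l l0
    linear_combination (Complex.exp (-(Complex.I * ∑ i, (x i : ℂ) * ζ i.succ))) * h2 +
      Complex.I * h5 - Complex.I * h6
  simp_rw [h1]
  have hc : ∀ w : Fin n → ℝ, IntegrableOn (fun x : Fin n → ℝ =>
      Complex.exp (-(Complex.I * ∑ i, (x i : ℂ) * (ζ i.succ + (w i : ℂ) * ζ 0)))) K' := by
    intro w
    apply ContinuousOn.integrableOn_compact hK'
    apply Continuous.continuousOn
    fun_prop
  rw [integral_sub ((hc u).const_mul _) ((hc l).const_mul _), integral_const_mul,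
    integral_const_mul]
  unfold FT
  ring

/-- substitution -/
noncomputable def eff_s {n : ℕ} (w : Fin n → ℝ) :
    MvPolynomial (Fin n) ℂ →ₐ[ℂ] MvPolynomial (Fin (n + 1)) ℂ :=
  MvPolynomial.aeval (fun i => MvPolynomial.X i.succ +
    MvPolynomial.C (w i : ℂ) * MvPolynomial.X 0)

theorem eff_s_eval {n : ℕ} (w : Fin n → ℝ) (Q : MvPolynomial (Fin n) ℂ) (ζ : Fin (n + 1) → ℂ) :
    MvPolynomial.eval ζ (eff_s w Q) =
      MvPolynomial.eval (fun i => ζ i.succ + (w i : ℂ) * ζ 0) Q := by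
  have h : (MvPolynomial.eval ζ).comp (eff_s w : MvPolynomial (Fin n) ℂ →+*
      MvPolynomial (Fin (n + 1)) ℂ) = MvPolynomial.eval (fun i => ζ i.succ + (w i : ℂ) * ζ 0) := by
    apply MvPolynomial.ringHom_ext
    · intro r
      simp [eff_s]
    · intro i
      simp [eff_s]
  exact congrArg (fun f : MvPolynomial (Fin n) ℂ →+* ℂ => f Q) h

theorem eff_s_hom {n d : ℕ} (w : Fin n → ℝ) (Q : MvPolynomial (Fin n) ℂ)
    (hQ : Q.IsHomogeneous d) : (eff_s w Q).IsHomogeneous d := by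
  have h := hQ.aeval (fun i => (MvPolynomial.X i.succ +
    MvPolynomial.C (w i : ℂ) * MvPolynomial.X 0 : MvPolynomial (Fin (n + 1)) ℂ)) (n := 1) (by
      intro i
      apply MvPolynomial.IsHomogeneous.add (MvPolynomial.isHomogeneous_X _ _)
      exact (MvPolynomial.isHomogeneous_X ℂ (0 : Fin (n + 1))).C_mul _)
  rw [one_mul] at h
  exact h

theorem eff_s_ne {n : ℕ} (w : Fin n → ℝ) (Q : MvPolynomial (Fin n) ℂ) (hQ : Q ≠ 0) :
    eff_s w Q ≠ 0 := by
  intro h
  apply hQ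
  apply MvPolynomial.funext
  intro z
  have h1 := eff_s_eval w Q (Fin.cons 0 z)
  rw [h] at h1
  simp only [Fin.cons_zero, Fin.cons_succ, mul_zero, add_zero, map_zero] at h1
  rw [map_zero]
  exact h1.symm

theorem expForm_fiber {n : ℕ} (K' : Set (Fin n → ℝ)) (hK' : IsCompact K') (h : ExpForm K')
    (l u : Fin n → ℝ) (l0 u0 : ℝ) (hlu : ∀ x ∈ K', l0 + ∑ i, l i * x i ≤ u0 + ∑ i, u i * x i)
    (K : Set (Fin (n + 1) → ℝ)) (hK : IsCompact K)
    (hKK : ∀ (t : ℝ) (x : Fin n → ℝ), (Fin.cons t x : Fin (n + 1) → ℝ) ∈ K ↔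
      (x ∈ K' ∧ l0 + ∑ i, l i * x i ≤ t ∧ t ≤ u0 + ∑ i, u i * x i)) : ExpForm K := by
  obtain ⟨d, Q, m, P, v, hQ0, hQ, hP, hF⟩ := h
  refine ⟨2 * d + n, MvPolynomial.X 0 * eff_s u Q * eff_s l Q, m + m,
    Fin.append (fun i => MvPolynomial.C Complex.I * (eff_s u (P i) * eff_s l Q))
      (fun i => MvPolynomial.C (-Complex.I) * (eff_s l (P i) * eff_s u Q)),
    Fin.append (fun i => Fin.cons (u0 + ∑ k, v i k * u k) (v i))
      (fun i => Fin.cons (l0 + ∑ k, v i k * l k) (v i)), ?_, ?_, ?_, ?_⟩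
  · exact mul_ne_zero (mul_ne_zero (MvPolynomial.X_ne_zero _) (eff_s_ne u Q hQ0))
      (eff_s_ne l Q hQ0)
  · have h1 := ((MvPolynomial.isHomogeneous_X ℂ (0 : Fin (n + 1))).mul (eff_s_hom u Q hQ)).mul
      (eff_s_hom l Q hQ)
    have h2 : 1 + (d + n) + (d + n) = 2 * d + n + (n + 1) := by ring
    rwa [h2] at h1
  · intro i
    have h2 : d + (d + n) = 2 * d + n := by ring
    refine Fin.addCases (fun j => ?_) (fun j => ?_) i
    · rw [Fin.append_left]
      have h1 := ((eff_s_hom u (P j) (hP j)).mul (eff_s_hom l Q hQ)).C_mul Complex.I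
      rwa [h2] at h1
    · rw [Fin.append_right]
      have h1 := ((eff_s_hom l (P j) (hP j)).mul (eff_s_hom u Q hQ)).C_mul (-Complex.I)
      rwa [h2] at h1
  · intro ζ
    have hR := eff_rel K' hK' l u l0 u0 hlu K hK hKK ζ
    have hFu := hF (fun i => ζ i.succ + (u i : ℂ) * ζ 0)
    have hFl := hF (fun i => ζ i.succ + (l i : ℂ) * ζ 0)
    rw [Fin.sum_univ_add]
    simp only [Fin.append_left, Fin.append_right, map_mul, MvPolynomial.eval_C,
      MvPolynomial.eval_X, eff_s_eval]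
    have hexp : ∀ (w : Fin n → ℝ) (w0 : ℝ) (i : Fin m),
        Complex.exp (-(Complex.I * ∑ k : Fin (n + 1),
          (((Fin.cons (w0 + ∑ k, v i k * w k) (v i) : Fin (n + 1) → ℝ) k : ℝ) : ℂ) * ζ k)) =
        Complex.exp (-(Complex.I * ((w0 : ℂ) * ζ 0))) *
          Complex.exp (-(Complex.I * ∑ k, (v i k : ℂ) * (ζ k.succ + (w k : ℂ) * ζ 0))) := by
      intro w w0 i
      rw [← Complex.exp_add, Fin.sum_univ_succ]
      simp only [Fin.cons_zero, Fin.cons_succ]
      congr 1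
      have h4 : ∑ k, (v i k : ℂ) * (ζ k.succ + (w k : ℂ) * ζ 0) =
          ∑ k, (v i k : ℂ) * ζ k.succ + (∑ k, (v i k : ℂ) * (w k : ℂ)) * ζ 0 := by
        rw [Finset.sum_mul, ← Finset.sum_add_distrib]
        apply Finset.sum_congr rfl
        intro i _
        ring
      rw [h4]
      push_cast
      ring
    simp_rw [hexp]
    have e1 : ∑ x : Fin m, Complex.I * (MvPolynomial.eval (fun i => ζ i.succ + (u i : ℂ) * ζ 0) (P x) *
        MvPolynomial.eval (fun i => ζ i.succ + (l i : ℂ) * ζ 0) Q) *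
        (Complex.exp (-(Complex.I * ((u0 : ℂ) * ζ 0))) *
          Complex.exp (-(Complex.I * ∑ k, (v x k : ℂ) * (ζ k.succ + (u k : ℂ) * ζ 0)))) =
        Complex.I * MvPolynomial.eval (fun i => ζ i.succ + (l i : ℂ) * ζ 0) Q *
          Complex.exp (-(Complex.I * ((u0 : ℂ) * ζ 0))) *
        ∑ x : Fin m, MvPolynomial.eval (fun i => ζ i.succ + (u i : ℂ) * ζ 0) (P x) *
          Complex.exp (-(Complex.I * ∑ k, (v x k : ℂ) * (ζ k.succ + (u k : ℂ) * ζ 0))) := by
      rw [Finset.mul_sum]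
      apply Finset.sum_congr rfl
      intro x _
      ring
    have e2 : ∑ x : Fin m, -Complex.I * (MvPolynomial.eval (fun i => ζ i.succ + (l i : ℂ) * ζ 0) (P x) *
        MvPolynomial.eval (fun i => ζ i.succ + (u i : ℂ) * ζ 0) Q) *
        (Complex.exp (-(Complex.I * ((l0 : ℂ) * ζ 0))) *
          Complex.exp (-(Complex.I * ∑ k, (v x k : ℂ) * (ζ k.succ + (l k : ℂ) * ζ 0)))) =
        -Complex.I * MvPolynomial.eval (fun i => ζ i.succ + (u i : ℂ) * ζ 0) Q *
          Complex.exp (-(Complex.I * ((l0 : ℂ) * ζ 0))) *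
        ∑ x : Fin m, MvPolynomial.eval (fun i => ζ i.succ + (l i : ℂ) * ζ 0) (P x) *
          Complex.exp (-(Complex.I * ∑ k, (v x k : ℂ) * (ζ k.succ + (l k : ℂ) * ζ 0))) := by
      rw [Finset.mul_sum]
      apply Finset.sum_congr rfl
      intro x _
      ring
    rw [e1, e2, ← hFu, ← hFl]
    linear_combination (MvPolynomial.eval (fun i => ζ i.succ + (u i : ℂ) * ζ 0) Q *
      MvPolynomial.eval (fun i => ζ i.succ + (l i : ℂ) * ζ 0) Q) * hR

end Helper112.Pf
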