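import Mathlib
import Pool.Agent.Helper112.Pf.Defs

set_option autoImplicit false

namespace Helper112.Pf

open MeasureTheory



/-! TO PROVE -/

theorem expForm_zero {n : ℕ} (K : Set (Fin n → ℝ)) (hK : ∀ ζ, FT K ζ = 0) : ExpForm K := by
  refine ⟨0, ∏ i : Fin n, MvPolynomial.X i, 0, Fin.elim0, Fin.elim0, ?_, ?_, ?_, ?_⟩
  · exact Finset.prod_ne_zero_iff.2 (fun i _ => MvPolynomial.X_ne_zero i)
  · have h := MvPolynomial.IsHomogeneous.prod (Finset.univ : Finset (Fin n))
      (fun i => (MvPolynomial.X i : MvPolynomial (Fin n) ℂ)) (fun _ => 1)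
      (fun i _ => MvPolynomial.isHomogeneous_X ℂ i)
    simpa using h
  · intro i
    exact i.elim0
  · intro ζ
    rw [hK ζ, mul_zero, Finset.univ_eq_empty, Finset.sum_empty]


theorem expForm_union {n : ℕ} (K K1 K2 : Set (Fin n → ℝ)) (h1 : ExpForm K1) (h2 : ExpForm K2)
    (h : ∀ ζ, FT K ζ = FT K1 ζ + FT K2 ζ) : ExpForm K := by
  obtain ⟨d1, Q1, m1, P1, v1, hQ1, hd1, hP1, e1⟩ := h1
  obtain ⟨d2, Q2, m2, P2, v2, hQ2, hd2, hP2, e2⟩ := h2
  refine ⟨d1 + d2 + n, Q1 * Q2, m1 + m2, Fin.append (fun i => P1 i * Q2) (fun i => P2 i * Q1),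
    Fin.append v1 v2, mul_ne_zero hQ1 hQ2, ?_, ?_, ?_⟩
  · have h3 := hd1.mul hd2
    have e : (d1 + n) + (d2 + n) = d1 + d2 + n + n := by ring
    rw [e] at h3
    exact h3
  · intro i
    refine Fin.addCases (fun i => ?_) (fun i => ?_) i
    · rw [Fin.append_left]
      have h3 := (hP1 i).mul hd2
      have e : d1 + (d2 + n) = d1 + d2 + n := by ring
      rw [e] at h3
      exact h3
    · rw [Fin.append_right]
      have h3 := (hP2 i).mul hd1
      have e : d2 + (d1 + n) = d1 + d2 + n := by ring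
      rw [e] at h3
      exact h3
  · intro ζ
    rw [Fin.sum_univ_add]
    simp only [Fin.append_left, Fin.append_right, map_mul]
    have s1 : ∑ i, MvPolynomial.eval ζ (P1 i) * MvPolynomial.eval ζ Q2 *
        Complex.exp (-(Complex.I * ∑ k, (v1 i k : ℂ) * ζ k)) =
        MvPolynomial.eval ζ Q2 * (MvPolynomial.eval ζ Q1 * FT K1 ζ) := by
      rw [e1 ζ, Finset.mul_sum]
      refine Finset.sum_congr rfl (fun i _ => ?_)
      ring
    have s2 : ∑ i, MvPolynomial.eval ζ (P2 i) * MvPolynomial.eval ζ Q1 *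
        Complex.exp (-(Complex.I * ∑ k, (v2 i k : ℂ) * ζ k)) =
        MvPolynomial.eval ζ Q1 * (MvPolynomial.eval ζ Q2 * FT K2 ζ) := by
      rw [e2 ζ, Finset.mul_sum]
      refine Finset.sum_congr rfl (fun i _ => ?_)
      ring
    rw [s1, s2, h ζ]
    ring


end Helper112.Pf
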