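import Mathlib
import Pool.Agent.Helper112.Pf.Defs

set_option autoImplicit false

namespace Helper112.Pf

open MeasureTheory



/-! TO PROVE -/

theorem FT_union {n : ℕ} (K1 K2 : Set (Fin n → ℝ)) (h1 : IsCompact K1) (h2 : IsCompact K2)
    (h : volume (K1 ∩ K2) = 0) (ζ : Fin n → ℂ) : FT (K1 ∪ K2) ζ = FT K1 ζ + FT K2 ζ := by
  have hc : Continuous (fun x : Fin n → ℝ => Complex.exp (-(Complex.I * ∑ i, (x i : ℂ) * ζ i))) := by
    fun_prop
  unfold FT
  exact setIntegral_union₀ h h2.measurableSet.nullMeasurableSet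
    (hc.continuousOn.integrableOn_compact h1) (hc.continuousOn.integrableOn_compact h2)

end Helper112.Pf
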