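import Mathlib
import Pool.Agent.Helper112.Pf.Defs

set_option autoImplicit false

namespace Helper112.Pf

open MeasureTheory

/-! TO PROVE -/

theorem hyperplane_null {n : ℕ} (a : Fin n → ℝ) (b : ℝ) (h : ¬ (a = 0 ∧ b = 0)) :
    volume {x : Fin n → ℝ | ∑ i, a i * x i = b} = 0 := by
  classical
  by_cases ha : a = 0
  · have hb : b ≠ 0 := fun hb => h ⟨ha, hb⟩
    have he : {x : Fin n → ℝ | ∑ i, a i * x i = b} = ∅ := by
      ext x
      simp only [Set.mem_setOf_eq, Set.mem_empty_iff_false, iff_false]
      intro hx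
      apply hb
      rw [← hx, ha]
      simp
    rw [he, measure_empty]
  · obtain ⟨i, hi⟩ : ∃ i, a i ≠ 0 := by
      by_contra hne
      push Not at hne
      exact ha (funext hne)
    let f : (Fin n → ℝ) →ₗ[ℝ] ℝ := ∑ j, a j • LinearMap.proj j
    have hf : ∀ x, f x = ∑ j, a j * x j := by
      intro x
      simp [f]
    have hfs : ∀ c : ℝ, f (Pi.single i c) = a i * c := by
      intro c
      rw [hf, Finset.sum_eq_single i]
      · simp
      · intro j _ hj
        simp [Pi.single_eq_of_ne hj]
      · simp
    let x0 : Fin n → ℝ := Pi.single i (b / a i)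
    have hx0 : f x0 = b := by
      rw [hfs]
      field_simp
    let s : AffineSubspace ℝ (Fin n → ℝ) := AffineSubspace.mk' x0 (LinearMap.ker f)
    have hmem : ∀ x, x ∈ s ↔ f x = b := by
      intro x
      rw [AffineSubspace.mem_mk', LinearMap.mem_ker, vsub_eq_sub, map_sub, hx0, sub_eq_zero]
    have hs : s ≠ ⊤ := by
      intro htop
      have h1 : x0 + Pi.single i 1 ∈ s := by
        rw [htop]
        exact AffineSubspace.mem_top ℝ (Fin n → ℝ) _
      rw [hmem, map_add, hx0, hfs] at h1
      apply hi
      linarith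
    have he : {x : Fin n → ℝ | ∑ i, a i * x i = b} = (s : Set (Fin n → ℝ)) := by
      ext x
      rw [Set.mem_setOf_eq, SetLike.mem_coe, hmem, hf]
    rw [he]
    exact Measure.addHaar_affineSubspace volume s hs

end Helper112.Pf
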