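import Mathlib
import Pool.Agent.Helper112.Pf.Defs
import Pool.Agent.Helper112.Pf.JFtUnion
import Pool.Agent.Helper112.Pf.JExpformFiber
import Pool.Agent.Helper112.Pf.JExpformZero
import Pool.Agent.Helper112.Pf.JHyperplaneNull

set_option autoImplicit false

namespace Helper112.Pf

open MeasureTheory



/-! TO PROVE -/

/-- upper constraint -/
def kU {n : ℕ} (u : (Fin n → ℝ) × ℝ) : Set (Fin (n + 1) → ℝ) :=
  {y | y 0 ≤ u.2 + ∑ i, u.1 i * y i.succ}
/-- lower constraint -/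
def kL {n : ℕ} (l : (Fin n → ℝ) × ℝ) : Set (Fin (n + 1) → ℝ) :=
  {y | l.2 + ∑ i, l.1 i * y i.succ ≤ y 0}
/-- flat constraint -/
def kF {n : ℕ} (f : (Fin n → ℝ) × ℝ) : Set (Fin (n + 1) → ℝ) :=
  {y | ∑ i, f.1 i * y i.succ ≤ f.2}
/-- polyhedron given by upper, lower and flat constraints -/
def KK {n : ℕ} (Us Ls Fs : List ((Fin n → ℝ) × ℝ)) : Set (Fin (n + 1) → ℝ) :=
  {y | (∀ u ∈ Us, y ∈ kU u) ∧ (∀ l ∈ Ls, y ∈ kL l) ∧ (∀ f ∈ Fs, y ∈ kF f)}

theorem ph_step_closed {n : ℕ} (Us Ls Fs : List ((Fin n → ℝ) × ℝ)) : IsClosed (KK Us Ls Fs) := by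
  have h : KK Us Ls Fs = (⋂ u ∈ Us, kU u) ∩ ((⋂ l ∈ Ls, kL l) ∩ (⋂ f ∈ Fs, kF f)) := by
    ext y
    simp [KK]
  rw [h]
  refine (isClosed_iInter fun u => isClosed_iInter fun _ => ?_).inter
    ((isClosed_iInter fun u => isClosed_iInter fun _ => ?_).inter
    (isClosed_iInter fun u => isClosed_iInter fun _ => ?_))
  · exact isClosed_le (by fun_prop) (by fun_prop)
  · exact isClosed_le (by fun_prop) (by fun_prop)
  · exact isClosed_le (by fun_prop) (by fun_prop)

theorem ph_step_phclosed {n : ℕ} (L : List ((Fin n → ℝ) × ℝ)) : IsClosed (Ph L) := by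
  have h : Ph L = ⋂ c ∈ L, {x : Fin n → ℝ | ∑ i, c.1 i * x i ≤ c.2} := by
    ext y
    simp [Ph]
  rw [h]
  exact isClosed_iInter fun u => isClosed_iInter fun _ => isClosed_le (by fun_prop) (by fun_prop)

theorem ph_step_empty {n : ℕ} (K : Set (Fin (n + 1) → ℝ)) (hb : Bornology.IsBounded K)
    (h : ∀ y ∈ K, ∀ R : ℝ, ∃ c : ℝ, R < |c| ∧ (Fin.cons c (fun i => y (Fin.succ i)) :
      Fin (n + 1) → ℝ) ∈ K) : ExpForm K := by
  have hK : K = ∅ := by
    by_contra hne
    obtain ⟨y, hy⟩ := Set.nonempty_iff_ne_empty.2 hne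
    obtain ⟨R, hR⟩ := hb.exists_norm_le
    obtain ⟨c, hc, hcK⟩ := h y hy R
    have h1 := hR _ hcK
    have h2 := norm_le_pi_norm (Fin.cons c (fun i => y (Fin.succ i)) : Fin (n + 1) → ℝ) 0
    rw [Fin.cons_zero, Real.norm_eq_abs] at h2
    linarith
  apply expForm_zero
  intro ζ
  rw [hK, FT]
  simp

theorem ph_step_nilU {n : ℕ} (Ls Fs : List ((Fin n → ℝ) × ℝ))
    (hb : Bornology.IsBounded (KK [] Ls Fs)) : ExpForm (KK [] Ls Fs) := by
  refine ph_step_empty _ hb ?_
  intro y hy R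
  refine ⟨|y 0| + |R| + 1, ?_, ?_⟩
  · have h1 : R ≤ |R| := le_abs_self R
    have h2 : 0 ≤ |y 0| := abs_nonneg _
    have h3 : 0 ≤ |R| := abs_nonneg _
    rw [abs_of_nonneg (by linarith)]
    linarith
  · obtain ⟨h1, h2, h3⟩ := hy
    refine ⟨by simp, fun l hl => ?_, fun f hf => ?_⟩
    · have h4 : l.2 + ∑ i, l.1 i * y i.succ ≤ y 0 := h2 l hl
      have h5 : y 0 ≤ |y 0| := le_abs_self _
      have h6 : 0 ≤ |R| := abs_nonneg _
      change l.2 + ∑ i, l.1 i * (Fin.cons _ (fun i => y (Fin.succ i)) : Fin (n + 1) → ℝ) i.succ ≤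
        (Fin.cons _ (fun i => y (Fin.succ i)) : Fin (n + 1) → ℝ) 0
      simp only [Fin.cons_succ, Fin.cons_zero]
      linarith
    · have h4 : ∑ i, f.1 i * y i.succ ≤ f.2 := h3 f hf
      change ∑ i, f.1 i * (Fin.cons _ (fun i => y (Fin.succ i)) : Fin (n + 1) → ℝ) i.succ ≤ f.2
      simp only [Fin.cons_succ]
      exact h4

theorem ph_step_nilL {n : ℕ} (Us Fs : List ((Fin n → ℝ) × ℝ))
    (hb : Bornology.IsBounded (KK Us [] Fs)) : ExpForm (KK Us [] Fs) := by
  refine ph_step_empty _ hb ?_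
  intro y hy R
  refine ⟨-(|y 0| + |R| + 1), ?_, ?_⟩
  · have h1 : R ≤ |R| := le_abs_self R
    have h2 : 0 ≤ |y 0| := abs_nonneg _
    have h3 : 0 ≤ |R| := abs_nonneg _
    rw [abs_neg, abs_of_nonneg (by linarith)]
    linarith
  · obtain ⟨h1, h2, h3⟩ := hy
    refine ⟨fun l hl => ?_, by simp, fun f hf => ?_⟩
    · have h4 : y 0 ≤ l.2 + ∑ i, l.1 i * y i.succ := h1 l hl
      have h5 : -|y 0| ≤ y 0 := neg_abs_le _
      have h6 : 0 ≤ |R| := abs_nonneg _
      change (Fin.cons _ (fun i => y (Fin.succ i)) : Fin (n + 1) → ℝ) 0 ≤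
        l.2 + ∑ i, l.1 i * (Fin.cons _ (fun i => y (Fin.succ i)) : Fin (n + 1) → ℝ) i.succ
      simp only [Fin.cons_succ, Fin.cons_zero]
      linarith
    · have h4 : ∑ i, f.1 i * y i.succ ≤ f.2 := h3 f hf
      change ∑ i, f.1 i * (Fin.cons _ (fun i => y (Fin.succ i)) : Fin (n + 1) → ℝ) i.succ ≤ f.2
      simp only [Fin.cons_succ]
      exact h4

theorem ph_step_split {n : ℕ} (K K1 K2 : Set (Fin (n + 1) → ℝ)) (hb : Bornology.IsBounded K)
    (h1c : IsClosed K1) (h2c : IsClosed K2) (hK : K = K1 ∪ K2) (a : Fin n → ℝ) (b : ℝ)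
    (hab : ¬ (a = 0 ∧ b = 0)) (hint : ∀ y, y ∈ K1 → y ∈ K2 → ∑ i, a i * y i.succ = b)
    (e1 : Bornology.IsBounded K1 → ExpForm K1) (e2 : Bornology.IsBounded K2 → ExpForm K2) :
    ExpForm K := by
  have hb1 : Bornology.IsBounded K1 := hb.subset (by rw [hK]; exact Set.subset_union_left)
  have hb2 : Bornology.IsBounded K2 := hb.subset (by rw [hK]; exact Set.subset_union_right)
  refine expForm_union K K1 K2 (e1 hb1) (e2 hb2) fun ζ => ?_
  rw [hK]
  refine FT_union K1 K2 (Metric.isCompact_of_isClosed_isBounded h1c hb1)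
    (Metric.isCompact_of_isClosed_isBounded h2c hb2) ?_ ζ
  refine measure_mono_null ?_ (hyperplane_null (Fin.cons 0 a : Fin (n + 1) → ℝ) b ?_)
  · rintro y ⟨hy1, hy2⟩
    have h := hint y hy1 hy2
    change ∑ i, (Fin.cons 0 a : Fin (n + 1) → ℝ) i * y i = b
    rw [Fin.sum_univ_succ]
    simp only [Fin.cons_zero, Fin.cons_succ, zero_mul, zero_add]
    exact h
  · rintro ⟨h1, h2⟩
    apply hab
    refine ⟨?_, h2⟩
    funext i
    have := congrFun h1 i.succ
    simpa using this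

theorem ph_step_sumsub {n : ℕ} (a b : Fin n → ℝ) (y : Fin (n + 1) → ℝ) :
    ∑ i, (a - b) i * y i.succ = ∑ i, a i * y i.succ - ∑ i, b i * y i.succ := by
  rw [← Finset.sum_sub_distrib]
  refine Finset.sum_congr rfl fun i _ => ?_
  simp only [Pi.sub_apply]
  ring

theorem ph_step_main {n : ℕ}
    (IH : ∀ L : List ((Fin n → ℝ) × ℝ), Bornology.IsBounded (Ph L) → ExpForm (Ph L)) :
    ∀ (N : ℕ) (Us Ls Fs : List ((Fin n → ℝ) × ℝ)), Us.length + Ls.length ≤ N →
      Bornology.IsBounded (KK Us Ls Fs) → ExpForm (KK Us Ls Fs) := by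
  intro N
  induction N with
  | zero =>
    intro Us Ls Fs hN hb
    have : Us = [] := List.eq_nil_of_length_eq_zero (by omega)
    subst this
    exact ph_step_nilU Ls Fs hb
  | succ N ih =>
    intro Us Ls Fs hN hb
    match Us, Ls, hN, hb with
    | [], Ls, hN, hb => exact ph_step_nilU Ls Fs hb
    | u1 :: u2 :: Us', Ls, hN, hb =>
      simp only [List.length_cons] at hN
      by_cases h12 : u1 = u2
      · have heq : KK (u1 :: u2 :: Us') Ls Fs = KK (u1 :: Us') Ls Fs := by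
          subst h12
          ext y
          simp [KK]
        rw [heq] at hb ⊢
        exact ih _ _ _ (by simp only [List.length_cons]; omega) hb
      · refine ph_step_split _ (KK (u1 :: Us') Ls ((u1.1 - u2.1, u2.2 - u1.2) :: Fs))
          (KK (u2 :: Us') Ls ((u2.1 - u1.1, u1.2 - u2.2) :: Fs)) hb (ph_step_closed _ _ _)
          (ph_step_closed _ _ _) ?_ (u1.1 - u2.1) (u2.2 - u1.2) ?_ ?_
          (ih _ _ _ (by simp only [List.length_cons]; omega))
          (ih _ _ _ (by simp only [List.length_cons]; omega))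
        · ext y
          simp only [KK, kU, kL, kF, Set.mem_union, Set.mem_ofPred_eq, List.forall_mem_cons,
            ph_step_sumsub]
          constructor
          · rintro ⟨⟨h1, h2, h3⟩, h4, h5⟩
            rcases le_total (u1.2 + ∑ i, u1.1 i * y i.succ) (u2.2 + ∑ i, u2.1 i * y i.succ)
              with h | h
            · exact Or.inl ⟨⟨h1, h3⟩, h4, by linarith, h5⟩
            · exact Or.inr ⟨⟨h2, h3⟩, h4, by linarith, h5⟩
          · rintro (⟨⟨h1, h3⟩, h4, h, h5⟩ | ⟨⟨h1, h3⟩, h4, h, h5⟩)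
            · exact ⟨⟨h1, by linarith, h3⟩, h4, h5⟩
            · exact ⟨⟨by linarith, h1, h3⟩, h4, h5⟩
        · rintro ⟨ha, hb'⟩
          exact h12 (Prod.ext (sub_eq_zero.1 ha) (sub_eq_zero.1 hb').symm)
        · intro y hy1 hy2
          simp only [KK, kU, kL, kF, Set.mem_ofPred_eq, List.forall_mem_cons,
            ph_step_sumsub] at hy1 hy2
          rw [ph_step_sumsub]
          linarith [hy1.2.2.1, hy2.2.2.1]
    | [u], [], hN, hb => exact ph_step_nilL [u] Fs hb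
    | [u], l1 :: l2 :: Ls', hN, hb =>
      simp only [List.length_cons, List.length_nil] at hN
      by_cases h12 : l1 = l2
      · have heq : KK [u] (l1 :: l2 :: Ls') Fs = KK [u] (l1 :: Ls') Fs := by
          subst h12
          ext y
          simp [KK]
        rw [heq] at hb ⊢
        exact ih _ _ _ (by simp only [List.length_cons, List.length_nil]; omega) hb
      · refine ph_step_split _ (KK [u] (l1 :: Ls') ((l2.1 - l1.1, l1.2 - l2.2) :: Fs))
          (KK [u] (l2 :: Ls') ((l1.1 - l2.1, l2.2 - l1.2) :: Fs)) hb (ph_step_closed _ _ _)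
          (ph_step_closed _ _ _) ?_ (l1.1 - l2.1) (l2.2 - l1.2) ?_ ?_
          (ih _ _ _ (by simp only [List.length_cons, List.length_nil]; omega))
          (ih _ _ _ (by simp only [List.length_cons, List.length_nil]; omega))
        · ext y
          simp only [KK, kU, kL, kF, Set.mem_union, Set.mem_ofPred_eq, List.forall_mem_cons,
            ph_step_sumsub]
          constructor
          · rintro ⟨h0, ⟨h1, h2, h3⟩, h5⟩
            rcases le_total (l1.2 + ∑ i, l1.1 i * y i.succ) (l2.2 + ∑ i, l2.1 i * y i.succ)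
              with h | h
            · exact Or.inr ⟨h0, ⟨h2, h3⟩, by linarith, h5⟩
            · exact Or.inl ⟨h0, ⟨h1, h3⟩, by linarith, h5⟩
          · rintro (⟨h0, ⟨h1, h3⟩, h, h5⟩ | ⟨h0, ⟨h1, h3⟩, h, h5⟩)
            · exact ⟨h0, ⟨h1, by linarith, h3⟩, h5⟩
            · exact ⟨h0, ⟨by linarith, h1, h3⟩, h5⟩
        · rintro ⟨ha, hb'⟩
          exact h12 (Prod.ext (sub_eq_zero.1 ha) (sub_eq_zero.1 hb').symm)
        · intro y hy1 hy2
          simp only [KK, kU, kL, kF, Set.mem_ofPred_eq, List.forall_mem_cons,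
            ph_step_sumsub] at hy1 hy2
          rw [ph_step_sumsub]
          linarith [hy1.2.2.1, hy2.2.2.1]
    | [u], [l], hN, hb =>
      have hsub : ∀ x : Fin n → ℝ, ∑ i, (l.1 - u.1) i * x i =
          ∑ i, l.1 i * x i - ∑ i, u.1 i * x i := by
        intro x
        rw [← Finset.sum_sub_distrib]
        refine Finset.sum_congr rfl fun i _ => ?_
        simp only [Pi.sub_apply]
        ring
      have hmem : ∀ (t : ℝ) (x : Fin n → ℝ), (Fin.cons t x : Fin (n + 1) → ℝ) ∈ KK [u] [l] Fs ↔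
          (x ∈ Ph ((l.1 - u.1, u.2 - l.2) :: Fs) ∧ l.2 + ∑ i, l.1 i * x i ≤ t ∧
            t ≤ u.2 + ∑ i, u.1 i * x i) := by
        intro t x
        simp only [KK, kU, kL, kF, Ph, Set.mem_ofPred_eq, List.forall_mem_cons, hsub,
          Fin.cons_zero, Fin.cons_succ, List.not_mem_nil, false_imp_iff, implies_true, and_true]
        constructor
        · rintro ⟨h1, h2, h3⟩
          exact ⟨⟨by linarith, h3⟩, h2, h1⟩
        · rintro ⟨⟨h1, h2⟩, h3, h4⟩
          exact ⟨h4, h3, h2⟩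
      have hle : ∀ x ∈ Ph ((l.1 - u.1, u.2 - l.2) :: Fs),
          l.2 + ∑ i, l.1 i * x i ≤ u.2 + ∑ i, u.1 i * x i := by
        intro x hx
        have h1 : ∑ i, (l.1 - u.1) i * x i ≤ u.2 - l.2 := hx _ List.mem_cons_self
        rw [hsub] at h1
        linarith
      have hb' : Bornology.IsBounded (Ph ((l.1 - u.1, u.2 - l.2) :: Fs)) := by
        obtain ⟨R, hR⟩ := hb.exists_norm_le
        rw [isBounded_iff_forall_norm_le]
        refine ⟨R, fun x hx => ?_⟩
        have h1 := hR (Fin.cons (u.2 + ∑ i, u.1 i * x i) x)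
          ((hmem _ x).2 ⟨hx, hle x hx, le_rfl⟩)
        refine le_trans ?_ h1
        rw [pi_norm_le_iff_of_nonneg (norm_nonneg _)]
        intro i
        have h2 := norm_le_pi_norm
          (Fin.cons (u.2 + ∑ i, u.1 i * x i) x : Fin (n + 1) → ℝ) i.succ
        rw [Fin.cons_succ] at h2
        exact h2
      exact expForm_fiber (Ph ((l.1 - u.1, u.2 - l.2) :: Fs))
        (Metric.isCompact_of_isClosed_isBounded (ph_step_phclosed _) hb') (IH _ hb')
        l.1 u.1 l.2 u.2 hle _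
        (Metric.isCompact_of_isClosed_isBounded (ph_step_closed _ _ _) hb) hmem

theorem ph_step_conv {n : ℕ} (L : List ((Fin (n + 1) → ℝ) × ℝ)) :
    ∃ Us Ls Fs : List ((Fin n → ℝ) × ℝ), Ph L = KK Us Ls Fs := by
  induction L with
  | nil => exact ⟨[], [], [], by ext y; simp [Ph, KK]⟩
  | cons c L ih =>
    obtain ⟨Us, Ls, Fs, h⟩ := ih
    have hcons : ∀ y, y ∈ Ph (c :: L) ↔ (c.1 0 * y 0 + ∑ i : Fin n, c.1 i.succ * y i.succ ≤ c.2 ∧
        y ∈ KK Us Ls Fs) := by
      intro y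
      rw [← h]
      simp only [Ph, Set.mem_ofPred_eq, List.forall_mem_cons, Fin.sum_univ_succ]
    have hdiv : ∀ y : Fin (n + 1) → ℝ, c.1 0 ≠ 0 →
        c.2 / c.1 0 + ∑ i : Fin n, (-(c.1 i.succ) / c.1 0) * y i.succ =
          (c.2 - ∑ i : Fin n, c.1 i.succ * y i.succ) / c.1 0 := by
      intro y h0
      rw [sub_div, Finset.sum_div, sub_eq_add_neg, ← Finset.sum_neg_distrib]
      congr 1
      refine Finset.sum_congr rfl fun i _ => ?_
      ring
    rcases lt_trichotomy (c.1 0) 0 with h0 | h0 | h0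
    · refine ⟨Us, (fun i => -(c.1 i.succ) / c.1 0, c.2 / c.1 0) :: Ls, Fs, ?_⟩
      ext y
      rw [hcons]
      simp only [KK, kL, Set.mem_ofPred_eq, List.forall_mem_cons, hdiv y h0.ne,
        div_le_iff_of_neg h0]
      constructor
      · rintro ⟨h1, h2, h3, h4⟩
        exact ⟨h2, ⟨by linarith, h3⟩, h4⟩
      · rintro ⟨h2, ⟨h1, h3⟩, h4⟩
        exact ⟨by linarith, h2, h3, h4⟩
    · refine ⟨Us, Ls, (fun i => c.1 i.succ, c.2) :: Fs, ?_⟩
      ext y
      rw [hcons]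
      simp only [KK, kF, Set.mem_ofPred_eq, List.forall_mem_cons, h0, zero_mul, zero_add]
      constructor
      · rintro ⟨h1, h2, h3, h4⟩
        exact ⟨h2, h3, h1, h4⟩
      · rintro ⟨h2, h3, h1, h4⟩
        exact ⟨h1, h2, h3, h4⟩
    · refine ⟨(fun i => -(c.1 i.succ) / c.1 0, c.2 / c.1 0) :: Us, Ls, Fs, ?_⟩
      ext y
      rw [hcons]
      simp only [KK, kU, Set.mem_ofPred_eq, List.forall_mem_cons, hdiv y h0.ne', le_div_iff₀ h0]
      constructor
      · rintro ⟨h1, h2, h3, h4⟩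
        exact ⟨⟨by linarith, h2⟩, h3, h4⟩
      · rintro ⟨⟨h1, h2⟩, h3, h4⟩
        exact ⟨by linarith, h2, h3, h4⟩

theorem ph_step {n : ℕ}
    (IH : ∀ L : List ((Fin n → ℝ) × ℝ), Bornology.IsBounded (Ph L) → ExpForm (Ph L))
    (L : List ((Fin (n + 1) → ℝ) × ℝ)) (hL : Bornology.IsBounded (Ph L)) : ExpForm (Ph L) := by
  obtain ⟨Us, Ls, Fs, h⟩ := ph_step_conv L
  rw [h] at hL ⊢
  exact ph_step_main IH _ Us Ls Fs le_rfl hL

end Helper112.Pf
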