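import Mathlib
import Pool.Agent.Helper112.Pf.Defs
import Pool.Agent.Helper112.Pf.JExpformZero
import Pool.Agent.Helper112.Pf.JPhStep

set_option autoImplicit false

namespace Helper112.Pf

open MeasureTheory



/-! TO PROVE -/

theorem expForm_Ph_zero_FT (ζ : Fin 0 → ℂ) : FT (Set.univ : Set (Fin 0 → ℝ)) ζ = 1 := by
  unfold FT
  rw [setIntegral_univ]
  simp [Measure.real, volume_pi, Measure.pi_univ]

theorem expForm_Ph (n : ℕ) (L : List ((Fin n → ℝ) × ℝ)) (hL : Bornology.IsBounded (Ph L)) :
    ExpForm (Ph L) := by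
  induction n with
  | zero =>
    rcases Set.eq_empty_or_nonempty (Ph L) with h | h
    · rw [h]
      apply expForm_zero
      intro ζ
      simp [FT]
    · have hu : Ph L = Set.univ := Subsingleton.eq_univ_of_nonempty h
      rw [hu]
      refine ⟨0, 1, 1, fun _ => 1, fun _ => 0, one_ne_zero, MvPolynomial.isHomogeneous_one _ _,
        fun _ => MvPolynomial.isHomogeneous_one _ _, ?_⟩
      intro ζ
      rw [expForm_Ph_zero_FT]
      simp
  | succ n ih => exact ph_step ih L hL

end Helper112.Pf
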