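import Mathlib
import Pool.Agent.Helper112.Pf.Defs

set_option autoImplicit false

namespace Helper112.Pf

open MeasureTheory



/-! TO PROVE -/

theorem FT_pos {n : ℕ} (K : Set (Fin n → ℝ)) (hK : IsBody K) (η : Fin n → ℝ) :
    FT K (fun i => Complex.I * (η i : ℂ)) ≠ 0 := by
  obtain ⟨hc, hconv, hint⟩ := hK
  have h1 : FT K (fun i => Complex.I * (η i : ℂ))
      = ((∫ x in K, Real.exp (∑ i, x i * η i) : ℝ) : ℂ) := by
    unfold FT
    rw [← integral_complex_ofReal]
    congr 1
    ext x
    rw [Complex.ofReal_exp]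
    congr 1
    rw [Complex.ofReal_sum, Finset.mul_sum, ← Finset.sum_neg_distrib]
    refine Finset.sum_congr rfl fun i _ => ?_
    rw [Complex.ofReal_mul]
    linear_combination (-(x i : ℂ) * (η i : ℂ)) * Complex.I_mul_I
  rw [h1]
  have hcont : Continuous fun x : Fin n → ℝ => Real.exp (∑ i, x i * η i) := by fun_prop
  have h2 : 0 < ∫ x in K, Real.exp (∑ i, x i * η i) := by
    rw [integral_pos_iff_support_of_nonneg (fun x => (Real.exp_pos _).le)
      (hcont.continuousOn.integrableOn_compact hc)]
    have h3 : Function.support (fun x : Fin n → ℝ => Real.exp (∑ i, x i * η i)) = Set.univ := by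
      ext x
      simp
    rw [h3, Measure.restrict_apply_univ]
    exact Measure.measure_pos_of_nonempty_interior _ hint
  exact_mod_cast h2.ne'

end Helper112.Pf
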