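import Mathlib
import Pool.Agent.Helper112.Pf.Defs

set_option autoImplicit false

namespace Helper112.Pf

open MeasureTheory



/-! TO PROVE -/

theorem FT_linear {n : ℕ} (M : (Fin n → ℝ) ≃ₗ[ℝ] (Fin n → ℝ)) (K : Set (Fin n → ℝ)) (hK : IsCompact K)
    (ζ ω : Fin n → ℂ) (h : ∀ x : Fin n → ℝ, ∑ i, (M x i : ℂ) * ζ i = ∑ i, (x i : ℂ) * ω i) :
    ∃ c : ℂ, c ≠ 0 ∧ FT (M '' K) ζ = c * FT K ω := by
  obtain ⟨A, hA⟩ : ∃ A : (Fin n → ℝ) →L[ℝ] (Fin n → ℝ),
      A = (M.toContinuousLinearEquiv : (Fin n → ℝ) →L[ℝ] (Fin n → ℝ)) := ⟨_, rfl⟩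
  have hAM : ∀ x, A x = M x := fun x => by rw [hA]; rfl
  have hdet : A.det ≠ 0 := by
    have h1 : IsUnit (LinearMap.det (M : (Fin n → ℝ) →ₗ[ℝ] (Fin n → ℝ))) :=
      LinearEquiv.isUnit_det' M
    have h2 : A.det = LinearMap.det (M : (Fin n → ℝ) →ₗ[ℝ] (Fin n → ℝ)) := by
      rw [hA]
      rfl
    rw [h2]
    exact h1.ne_zero
  have himg : M '' K = A '' K := Set.image_congr fun x _ => (hAM x).symm
  have hinj : Set.InjOn A K := by
    intro x _ y _ hxy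
    rw [hAM, hAM] at hxy
    exact M.injective hxy
  refine ⟨((|A.det| : ℝ) : ℂ), ?_, ?_⟩
  · exact_mod_cast abs_ne_zero.2 hdet
  · unfold FT
    rw [himg, integral_image_eq_integral_abs_det_fderiv_smul volume hK.measurableSet
      (f' := fun _ => A) (fun x _ => A.hasFDerivWithinAt) hinj]
    have h3 : ∀ x : Fin n → ℝ, |A.det| • Complex.exp (-(Complex.I * ∑ i, (A x i : ℂ) * ζ i)) =
        ((|A.det| : ℝ) : ℂ) * Complex.exp (-(Complex.I * ∑ i, (x i : ℂ) * ω i)) := by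
      intro x
      rw [Complex.real_smul]
      congr 4
      rw [← h x, hAM]
    simp only [h3]
    exact integral_const_mul _ _

end Helper112.Pf
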