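import Mathlib
import Pool.Agent.Helper112.Pf.Defs

set_option autoImplicit false

namespace Helper112.Pf

open MeasureTheory

/-! TO PROVE -/

theorem fourier_zero {n : ℕ} (g : (Fin n → ℝ) → ℂ) (hg : Integrable g)
    (h : ∀ ξ : Fin n → ℝ, ∫ x, Complex.exp (-(Complex.I * ∑ i, (x i : ℂ) * (ξ i : ℂ))) * g x = 0)
    (x0 : Fin n → ℝ) (hc : ContinuousAt g x0) : g x0 = 0 := by
  classical
  have hmp : MeasurePreserving (MeasurableEquiv.toLp 2 (Fin n → ℝ)).symm
      (volume : Measure (EuclideanSpace ℝ (Fin n))) volume :=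
    EuclideanSpace.volume_preserving_symm_measurableEquiv_toLp (Fin n)
  set F : EuclideanSpace ℝ (Fin n) → ℂ := fun x => g (x.ofLp) with hF
  have hFi : Integrable F := by
    have := (hmp.integrable_comp_emb (MeasurableEquiv.measurableEmbedding _) (g := g)).2 hg
    exact this
  have hzero : (FourierTransform.fourier F : EuclideanSpace ℝ (Fin n) → ℂ) = 0 := by
    funext w
    rw [Real.fourier_eq']
    have h1 := h (fun i => 2 * Real.pi * w.ofLp i)
    have h2 := hmp.integral_comp (MeasurableEquiv.measurableEmbedding _)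
      (fun x : Fin n → ℝ => Complex.exp (-(Complex.I * ∑ i, (x i : ℂ) * ((2 * Real.pi * w.ofLp i : ℝ) : ℂ))) * g x)
    rw [h1] at h2
    simp only [Pi.zero_apply]
    rw [← h2]
    refine integral_congr_ae (Filter.Eventually.of_forall fun x => ?_)
    simp only [smul_eq_mul]
    have h3 : (MeasurableEquiv.toLp 2 (Fin n → ℝ)).symm x = x.ofLp := rfl
    rw [h3]
    congr 2
    rw [PiLp.inner_apply]
    simp only [RCLike.inner_apply, conj_trivial]
    push_cast
    rw [Finset.mul_sum, Finset.mul_sum, Finset.sum_mul, ← Finset.sum_neg_distrib]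
    refine Finset.sum_congr rfl fun i _ => ?_
    ring
  have hcF : ContinuousAt F (WithLp.toLp 2 x0) := by
    have : ContinuousAt (fun x : EuclideanSpace ℝ (Fin n) => x.ofLp) (WithLp.toLp 2 x0) :=
      (PiLp.continuous_ofLp 2 _).continuousAt
    exact ContinuousAt.comp (f := fun x : EuclideanSpace ℝ (Fin n) => x.ofLp) (g := g) hc this
  have hinv := hFi.fourierInv_fourier_eq (by rw [hzero]; exact integrable_zero _ _ _) hcF
  rw [hzero] at hinv
  have h0 : FourierTransformInv.fourierInv (0 : EuclideanSpace ℝ (Fin n) → ℂ) (WithLp.toLp 2 x0) = (0 : ℂ) := by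
    rw [Real.fourierInv_eq]
    simp
  rw [h0] at hinv
  exact hinv.symm

end Helper112.Pf
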