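import Mathlib
import Pool.Agent.Helper112.Pf.Defs

set_option autoImplicit false

namespace Helper112.Pf

open MeasureTheory



/-! TO PROVE -/

theorem FT_fubini_aux {n : ℕ} (K : Set (Fin (n + 1) → ℝ)) (hK : IsCompact K) (ζ : Fin (n + 1) → ℂ) :
    Integrable (fun p : ℝ × (Fin n → ℝ) => K.indicator
      (fun x => Complex.exp (-(Complex.I * ∑ i, (x i : ℂ) * ζ i)))
      (Fin.cons p.1 p.2 : Fin (n + 1) → ℝ)) ((volume : Measure ℝ).prod volume) ∧
    FT K ζ = ∫ p : ℝ × (Fin n → ℝ), K.indicator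
      (fun x => Complex.exp (-(Complex.I * ∑ i, (x i : ℂ) * ζ i)))
      (Fin.cons p.1 p.2 : Fin (n + 1) → ℝ) ∂((volume : Measure ℝ).prod volume) := by
  have hmp := (MeasureTheory.volume_preserving_piFinSuccAbove (fun _ : Fin (n + 1) => ℝ) 0).symm
  have he : ∀ p : ℝ × (Fin n → ℝ),
      (MeasurableEquiv.piFinSuccAbove (fun _ : Fin (n + 1) => ℝ) 0).symm p =
        (Fin.cons p.1 p.2 : Fin (n + 1) → ℝ) := by
    intro p
    funext i
    refine Fin.cases ?_ (fun j => ?_) i
    · simp [MeasurableEquiv.piFinSuccAbove]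
    · simp [MeasurableEquiv.piFinSuccAbove]
  have hcont : Continuous (fun x : Fin (n + 1) → ℝ =>
      Complex.exp (-(Complex.I * ∑ i, (x i : ℂ) * ζ i))) := by fun_prop
  have hint : Integrable (K.indicator (fun x : Fin (n + 1) → ℝ =>
      Complex.exp (-(Complex.I * ∑ i, (x i : ℂ) * ζ i)))) :=
    (integrable_indicator_iff hK.isClosed.measurableSet).2 (hcont.continuousOn.integrableOn_compact hK)
  have h1 := (hmp.integrable_comp_emb (MeasurableEquiv.measurableEmbedding _)
    (g := K.indicator (fun x : Fin (n + 1) → ℝ =>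
      Complex.exp (-(Complex.I * ∑ i, (x i : ℂ) * ζ i))))).2 hint
  have h2 := hmp.integral_comp (MeasurableEquiv.measurableEmbedding _)
    (K.indicator (fun x : Fin (n + 1) → ℝ =>
      Complex.exp (-(Complex.I * ∑ i, (x i : ℂ) * ζ i))))
  simp only [he] at h2
  refine ⟨?_, ?_⟩
  · refine h1.congr (Filter.Eventually.of_forall fun p => ?_)
    simp only [Function.comp_apply, he]
  · unfold FT
    rw [← integral_indicator hK.isClosed.measurableSet]
    exact h2.symm

theorem FT_fubini_inner {n : ℕ} (K : Set (Fin (n + 1) → ℝ)) (hK : IsCompact K) (c : ℂ)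
    (ζ : Fin n → ℂ) (x : Fin n → ℝ) :
    ∫ t : ℝ, K.indicator
      (fun x => Complex.exp (-(Complex.I * ∑ i, (x i : ℂ) * (Fin.cons c ζ : Fin (n + 1) → ℂ) i)))
      (Fin.cons t x : Fin (n + 1) → ℝ) =
    Complex.exp (-(Complex.I * ∑ i, (x i : ℂ) * ζ i)) *
        ∫ t in {t : ℝ | (Fin.cons t x : Fin (n + 1) → ℝ) ∈ K},
          Complex.exp (-(Complex.I * ((t : ℂ) * c))) := by
  have hc : Continuous (fun t : ℝ => (Fin.cons t x : Fin (n + 1) → ℝ)) := by
    refine continuous_pi fun i => ?_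
    refine Fin.cases ?_ (fun j => ?_) i
    · simp only [Fin.cons_zero]; exact continuous_id
    · simp only [Fin.cons_succ]; exact continuous_const
  have hms : MeasurableSet {t : ℝ | (Fin.cons t x : Fin (n + 1) → ℝ) ∈ K} :=
    (hK.isClosed.preimage hc).measurableSet
  rw [← integral_indicator hms, ← integral_const_mul]
  refine integral_congr_ae (Filter.Eventually.of_forall fun t => ?_)
  by_cases h : (Fin.cons t x : Fin (n + 1) → ℝ) ∈ K
  · have h' : t ∈ {t : ℝ | (Fin.cons t x : Fin (n + 1) → ℝ) ∈ K} := h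
    simp only [Set.indicator_of_mem h, Set.indicator_of_mem h']
    rw [← Complex.exp_add]
    congr 1
    rw [Fin.sum_univ_succ]
    simp only [Fin.cons_zero, Fin.cons_succ]
    ring
  · have h' : t ∉ {t : ℝ | (Fin.cons t x : Fin (n + 1) → ℝ) ∈ K} := h
    simp only [Set.indicator_of_notMem h, Set.indicator_of_notMem h', mul_zero]

theorem FT_fubini {n : ℕ} (K : Set (Fin (n + 1) → ℝ)) (hK : IsCompact K) (c : ℂ) (ζ : Fin n → ℂ) :
    Integrable (fun x : Fin n → ℝ => ∫ t in {t : ℝ | (Fin.cons t x : Fin (n + 1) → ℝ) ∈ K},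
      Complex.exp (-(Complex.I * ((t : ℂ) * c)))) ∧
    FT K (Fin.cons c ζ : Fin (n + 1) → ℂ) =
      ∫ x : Fin n → ℝ, Complex.exp (-(Complex.I * ∑ i, (x i : ℂ) * ζ i)) *
        ∫ t in {t : ℝ | (Fin.cons t x : Fin (n + 1) → ℝ) ∈ K}, Complex.exp (-(Complex.I * ((t : ℂ) * c))) := by
  constructor
  · obtain ⟨h1, -⟩ := FT_fubini_aux K hK (Fin.cons c (0 : Fin n → ℂ))
    have h2 := h1.integral_prod_right
    refine h2.congr (Filter.Eventually.of_forall fun x => ?_)
    simp only
    rw [FT_fubini_inner K hK c 0 x]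
    simp
  · obtain ⟨h1, h2⟩ := FT_fubini_aux K hK (Fin.cons c ζ)
    rw [h2, integral_prod_symm _ h1]
    refine integral_congr_ae (Filter.Eventually.of_forall fun x => ?_)
    exact FT_fubini_inner K hK c ζ x


end Helper112.Pf
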