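import Mathlib
import Pool.Agent.Helper112.Pf.Defs

set_option autoImplicit false

namespace Helper112.Pf

open MeasureTheory



/-! TO PROVE -/

theorem prism_of_graph_closure {n : ℕ} (U : Set (Fin n → ℝ)) (m : Fin n → ℝ) (b L : ℝ) :
    closure {z : Fin (n + 1) → ℝ | Fin.tail z ∈ U ∧ b + ∑ i, m i * Fin.tail z i ≤ z 0 ∧
      z 0 ≤ b + ∑ i, m i * Fin.tail z i + L} =
    {z : Fin (n + 1) → ℝ | Fin.tail z ∈ closure U ∧ b + ∑ i, m i * Fin.tail z i ≤ z 0 ∧
      z 0 ≤ b + ∑ i, m i * Fin.tail z i + L} := by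
  have htail : Continuous fun z : Fin (n + 1) → ℝ => Fin.tail z := by
    apply continuous_pi
    intro i
    exact continuous_apply i.succ
  have hsum : Continuous fun z : Fin (n + 1) → ℝ => b + ∑ i, m i * Fin.tail z i := by
    refine continuous_const.add (continuous_finsetSum _ fun i _ => continuous_const.mul ?_)
    exact continuous_apply i.succ
  apply Set.Subset.antisymm
  · apply closure_minimal
    · rintro z ⟨h1, h2, h3⟩
      exact ⟨subset_closure h1, h2, h3⟩
    · apply IsClosed.inter (isClosed_closure.preimage htail)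
      apply IsClosed.inter
      · exact isClosed_le hsum (continuous_apply 0)
      · exact isClosed_le (continuous_apply 0) (hsum.add continuous_const)
  · rintro z ⟨h1, h2, h3⟩
    set t : ℝ := z 0 - (b + ∑ i, m i * Fin.tail z i) with ht
    have hg : Continuous fun x : Fin n → ℝ =>
        (Fin.cons (b + ∑ i, m i * x i + t) x : Fin (n + 1) → ℝ) := by
      apply continuous_pi
      intro i
      refine Fin.cases ?_ (fun j => ?_) i
      · simp only [Fin.cons_zero]
        fun_prop
      · simp only [Fin.cons_succ]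
        exact continuous_apply j
    have hz : z = (Fin.cons (b + ∑ i, m i * Fin.tail z i + t) (Fin.tail z) : Fin (n + 1) → ℝ) := by
      rw [ht, add_sub_cancel]
      exact (Fin.cons_self_tail z).symm
    rw [hz]
    refine map_mem_closure (f := fun x : Fin n → ℝ =>
        (Fin.cons (b + ∑ i, m i * x i + t) x : Fin (n + 1) → ℝ)) hg h1 (fun x hx => ?_)
    refine ⟨?_, ?_, ?_⟩
    · rw [Fin.tail_cons]; exact hx
    · rw [Fin.tail_cons]; dsimp only; rw [Fin.cons_zero]; linarith
    · rw [Fin.tail_cons]; dsimp only; rw [Fin.cons_zero]; linarith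

theorem prism_of_graph {n : ℕ} (K : Set (Fin (n + 1) → ℝ)) (U : Set (Fin n → ℝ)) (m : Fin n → ℝ)
    (b L : ℝ) (hL : 0 < L) (hK : IsCompact K)
    (h : K = closure {z : Fin (n + 1) → ℝ | Fin.tail z ∈ U ∧ b + ∑ i, m i * Fin.tail z i ≤ z 0 ∧
      z 0 ≤ b + ∑ i, m i * Fin.tail z i + L}) : IsPrism K := by
  rw [prism_of_graph_closure] at h
  refine ⟨{z | z ∈ K ∧ z 0 - ∑ i, m i * Fin.tail z i = b}, Fin.cons L 0, Fin.cons 1 (-m), b,
    ?_, ?_, ?_⟩
  · rw [Fin.sum_univ_succ]
    simpa using hL.ne'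
  · rintro y ⟨hy, hyb⟩
    rw [Fin.sum_univ_succ, ← hyb]
    simp [Fin.tail, Finset.sum_neg_distrib]
    ring
  · ext x
    constructor
    · intro hx
      rw [h] at hx
      obtain ⟨h1, h2, h3⟩ := hx
      refine ⟨Fin.cons (b + ∑ i, m i * Fin.tail x i) (Fin.tail x), ⟨?_, ?_⟩,
        (x 0 - (b + ∑ i, m i * Fin.tail x i)) / L, ⟨?_, ?_⟩, ?_⟩
      · rw [h]
        refine ⟨?_, ?_, ?_⟩
        · rw [Fin.tail_cons]; exact h1
        · rw [Fin.tail_cons, Fin.cons_zero]
        · rw [Fin.tail_cons, Fin.cons_zero]; linarith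
      · rw [Fin.tail_cons, Fin.cons_zero]; ring
      · apply div_nonneg _ hL.le; linarith
      · rw [div_le_one hL]; linarith
      · funext i
        refine Fin.cases ?_ (fun j => ?_) i
        · simp only [Pi.add_apply, Pi.smul_apply, Fin.cons_zero, smul_eq_mul]
          field_simp
          ring
        · simp only [Pi.add_apply, Pi.smul_apply, Fin.cons_succ, smul_eq_mul, Pi.zero_apply,
            mul_zero, add_zero]
          rfl
    · rintro ⟨y, ⟨hy, hyb⟩, t, ht, rfl⟩
      rw [h] at hy ⊢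
      obtain ⟨h1, h2, h3⟩ := hy
      have htl : Fin.tail (y + t • (Fin.cons L 0 : Fin (n + 1) → ℝ)) = Fin.tail y := by
        funext i
        simp [Fin.tail]
      have h0 : (y + t • (Fin.cons L 0 : Fin (n + 1) → ℝ)) 0 = y 0 + t * L := by simp
      have htL : 0 ≤ t * L := mul_nonneg ht.1 hL.le
      have htL2 : t * L ≤ L := by nlinarith [ht.2]
      refine ⟨?_, ?_, ?_⟩
      · rw [htl]; exact h1
      · rw [htl, h0]; linarith
      · rw [htl, h0]; linarith

end Helper112.Pf
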