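import Mathlib
import Pool.Agent.Helper112.Pf.Defs
import Pool.Agent.Helper112.Pf.JFtFubini
import Pool.Agent.Helper112.Pf.JAffineOf
import Pool.Agent.Helper112.Pf.JChords
import Pool.Agent.Helper112.Pf.JConstLen
import Pool.Agent.Helper112.Pf.JFourierZero
import Pool.Agent.Helper112.Pf.JPrismOfGraph

set_option autoImplicit false

namespace Helper112.Pf

open MeasureTheory



/-! TO PROVE -/

theorem linear_prism0_cont {n : ℕ} (U : Set (Fin n → ℝ)) (lo hi : (Fin n → ℝ) → ℝ) (hU : IsOpen U)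
    (hlt : ∀ x ∈ U, lo x < hi x) (hlo : ContinuousOn lo U) (hhi : ContinuousOn hi U) (f : ℝ → ℂ)
    (hf : Continuous f) (g : (Fin n → ℝ) → ℂ)
    (hg : ∀ x ∈ U, g x = ∫ t in Set.Icc (lo x) (hi x), f t) (x0 : Fin n → ℝ) (hx0 : x0 ∈ U) :
    ContinuousAt g x0 := by
  have hF : Continuous (fun y : ℝ => ∫ t in (0 : ℝ)..y, f t) :=
    intervalIntegral.continuous_primitive (fun a b => hf.intervalIntegrable a b) 0
  have he : ∀ x ∈ U, g x = (∫ t in (0 : ℝ)..(hi x), f t) - ∫ t in (0 : ℝ)..(lo x), f t := by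
    intro x hx
    rw [hg x hx, integral_Icc_eq_integral_Ioc,
      ← intervalIntegral.integral_of_le (hlt x hx).le,
      intervalIntegral.integral_interval_sub_left (hf.intervalIntegrable _ _)
        (hf.intervalIntegrable _ _)]
  have h1 : ContinuousAt hi x0 := hhi.continuousAt (hU.mem_nhds hx0)
  have h2 : ContinuousAt lo x0 := hlo.continuousAt (hU.mem_nhds hx0)
  have h3 : ContinuousAt (fun x => (∫ t in (0 : ℝ)..(hi x), f t) - ∫ t in (0 : ℝ)..(lo x), f t) x0 :=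
    (ContinuousAt.comp (g := fun y : ℝ => ∫ t in (0 : ℝ)..y, f t) hF.continuousAt h1).sub
      (ContinuousAt.comp (g := fun y : ℝ => ∫ t in (0 : ℝ)..y, f t) hF.continuousAt h2)
  refine h3.congr ?_
  filter_upwards [hU.mem_nhds hx0] with x hx
  exact (he x hx).symm

theorem linear_prism0 {n : ℕ} (K : Set (Fin (n + 1) → ℝ)) (hK : IsBody K) (c : ℂ)
    (h : ∀ ζ : Fin n → ℂ, FT K (Fin.cons c ζ : Fin (n + 1) → ℂ) = 0) : IsPrism K := by
  obtain ⟨U, lo, hi, hUo, hUc, hUn, hlt, hlo, hhi, hloc, hhic, hset, hK'⟩ := chords K hK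
  obtain ⟨g, hg⟩ : ∃ g : (Fin n → ℝ) → ℂ, g = fun x : Fin n → ℝ =>
    ∫ t in {t : ℝ | (Fin.cons t x : Fin (n + 1) → ℝ) ∈ K},
      Complex.exp (-(Complex.I * ((t : ℂ) * c))) := ⟨_, rfl⟩
  have hgU : ∀ x ∈ U, g x = ∫ t in Set.Icc (lo x) (hi x),
      Complex.exp (-(Complex.I * ((t : ℂ) * c))) := by
    intro x hx
    rw [hg]
    show ∫ t in {t : ℝ | (Fin.cons t x : Fin (n + 1) → ℝ) ∈ K}, _ = _
    rw [hset x hx]
  have hgi : Integrable g := by
    rw [hg]
    exact (FT_fubini K hK.1 c 0).1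
  have hg0 : ∀ x ∈ U, g x = 0 := by
    intro x hx
    apply fourier_zero g hgi
    · intro ξ
      have h1 := (FT_fubini K hK.1 c (fun i => (ξ i : ℂ))).2
      rw [h] at h1
      rw [hg]
      exact h1.symm
    · exact linear_prism0_cont U lo hi hUo hlt hloc hhic
        (fun t => Complex.exp (-(Complex.I * ((t : ℂ) * c)))) (by fun_prop) g hgU x hx
  obtain ⟨L, hL, hLe⟩ := const_len U lo hi hUo hUc hUn hlt hloc hhic c (fun x hx => by
    rw [← hgU x hx]; exact hg0 x hx)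
  have hcc : ConcaveOn ℝ U lo := by
    have h1 : ConcaveOn ℝ U (fun x => hi x + (-L)) := hhi.add_const (-L)
    refine h1.congr ?_
    intro x hx
    show hi x + (-L) = lo x
    rw [hLe x hx]
    ring
  obtain ⟨m, b, hmb⟩ := affine_of U lo hUo hUn hlo hcc
  apply prism_of_graph K U m b L hL hK.1
  have hse : {z : Fin (n + 1) → ℝ | Fin.tail z ∈ U ∧ lo (Fin.tail z) ≤ z 0 ∧
      z 0 ≤ hi (Fin.tail z)} = {z : Fin (n + 1) → ℝ | Fin.tail z ∈ U ∧
      b + ∑ i, m i * Fin.tail z i ≤ z 0 ∧ z 0 ≤ b + ∑ i, m i * Fin.tail z i + L} := by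
    ext z
    constructor
    · rintro ⟨h1, h2, h3⟩
      rw [hLe _ h1, hmb _ h1] at h3
      rw [hmb _ h1] at h2
      exact ⟨h1, h2, h3⟩
    · rintro ⟨h1, h2, h3⟩
      refine ⟨h1, ?_, ?_⟩
      · rw [hmb _ h1]; exact h2
      · rw [hLe _ h1, hmb _ h1]; exact h3
  rw [← hse]
  exact hK'

end Helper112.Pf
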