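import Mathlib
import Pool.Agent.Helper112.Pf.Defs
import Pool.Agent.Helper112.Pf.JFtLinear
import Pool.Agent.Helper112.Pf.JLinearPrism0

set_option autoImplicit false

namespace Helper112.Pf

open MeasureTheory



/-! TO PROVE -/

theorem linear_prism_key {n : ℕ} (B : (Fin n → ℝ) →ₗ[ℝ] (Fin n → ℝ)) (y : Fin n → ℝ)
    (j : Fin n) :
    ∑ i, y i * B (fun j => if i = j then (1:ℝ) else 0) j = B y j := by
  have h := congrFun (LinearMap.pi_apply_eq_sum_univ B y) j
  rw [h]
  simp only [Finset.sum_apply, Pi.smul_apply, smul_eq_mul]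

theorem linear_prism_keyC {n : ℕ} (B : (Fin n → ℝ) →ₗ[ℝ] (Fin n → ℝ)) (y : Fin n → ℝ)
    (w : Fin n → ℂ) :
    ∑ i, (y i : ℂ) * ∑ j, ((B (fun j => if i = j then (1:ℝ) else 0) j : ℝ) : ℂ) * w j =
      ∑ j, ((B y j : ℝ) : ℂ) * w j := by
  simp only [Finset.mul_sum]
  rw [Finset.sum_comm]
  refine Finset.sum_congr rfl fun j _ => ?_
  rw [← linear_prism_key B y j, Complex.ofReal_sum, Finset.sum_mul]
  refine Finset.sum_congr rfl fun i _ => ?_
  rw [Complex.ofReal_mul]
  ring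

theorem linear_prism_keyR {n : ℕ} (B : (Fin n → ℝ) →ₗ[ℝ] (Fin n → ℝ)) (y : Fin n → ℝ)
    (w : Fin n → ℝ) :
    ∑ i, (∑ j, B (fun j => if i = j then (1:ℝ) else 0) j * w j) * y i =
      ∑ j, B y j * w j := by
  simp only [Finset.sum_mul]
  rw [Finset.sum_comm]
  refine Finset.sum_congr rfl fun j _ => ?_
  rw [← linear_prism_key B y j, Finset.sum_mul]
  refine Finset.sum_congr rfl fun i _ => ?_
  ring

theorem linear_prism {n : ℕ} (K : Set (Fin n → ℝ)) (hK : IsBody K) (a : Fin n → ℝ) (ha : a ≠ 0) (c : ℂ)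
    (h : ∀ ζ : Fin n → ℂ, ∑ i, (a i : ℂ) * ζ i = c → FT K ζ = 0) : IsPrism K := by
  obtain _ | k := n
  · exact absurd (Subsingleton.elim a 0) ha
  have he : (fun j : Fin (k + 1) => if (0 : Fin (k+1)) = j then (1:ℝ) else 0) ≠ 0 := by
    intro h0
    have := congrFun h0 0
    simp at this
  obtain ⟨A, hA⟩ := SeparatingDual.exists_continuousLinearEquiv_apply_eq (R := ℝ) he ha
  set K1 := A.symm '' K with hK1
  have hKK : K = A '' K1 := by
    rw [hK1, Set.image_image]
    simp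
  have hb1 : IsBody K1 := by
    refine ⟨hK.1.image A.symm.continuous, ?_, ?_⟩
    · exact hK.2.1.linear_image A.symm.toLinearEquiv.toLinearMap
    · have := A.symm.toHomeomorph.image_interior K
      obtain ⟨x, hx⟩ := hK.2.2
      refine ⟨A.symm x, ?_⟩
      have h2 : A.symm x ∈ A.symm.toHomeomorph '' interior K := ⟨x, hx, rfl⟩
      rw [this] at h2
      exact h2
  have hz : ∀ ζ : Fin k → ℂ, FT K1 (Fin.cons c ζ : Fin (k + 1) → ℂ) = 0 := by
    intro ζ
    set w : Fin (k+1) → ℂ := Fin.cons c ζ with hw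
    set z : Fin (k+1) → ℂ := fun i => ∑ j, ((A.symm.toLinearEquiv.toLinearMap
      (fun j => if i = j then (1:ℝ) else 0) j : ℝ) : ℂ) * w j with hz
    have h1 : ∀ x : Fin (k+1) → ℝ, ∑ i, (A.toLinearEquiv x i : ℂ) * z i =
        ∑ i, (x i : ℂ) * w i := by
      intro x
      simp only [hz]
      rw [linear_prism_keyC]
      simp
    obtain ⟨c1, hc1, h2⟩ := FT_linear A.toLinearEquiv K1 hb1.1 z w h1
    have h3 : FT K z = 0 := by
      apply h
      have h4 := h1 (fun j => if (0 : Fin (k+1)) = j then (1:ℝ) else 0)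
      have h5 : A.toLinearEquiv (fun j => if (0 : Fin (k+1)) = j then (1:ℝ) else 0) = a := hA
      rw [h5] at h4
      rw [h4, Finset.sum_eq_single 0]
      · simp [hw]
      · intro i _ hi
        simp [Ne.symm hi]
      · simp
    have h6 : A.toLinearEquiv '' K1 = K := hKK.symm
    rw [h6, h3] at h2
    exact (mul_eq_zero.1 h2.symm).resolve_left hc1
  obtain ⟨C, v, l, s, hlv, hC, hK1'⟩ := linear_prism0 K1 hb1 c hz
  have hl := linear_prism_keyR (A.symm.toLinearEquiv.toLinearMap)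
  refine ⟨A '' C, A v, fun i => ∑ j, A.symm.toLinearEquiv.toLinearMap
    (fun j => if i = j then (1:ℝ) else 0) j * l j, s, ?_, ?_, ?_⟩
  · rw [hl]
    have e : ∑ j, (A.symm.toLinearEquiv.toLinearMap (A v)) j * l j = ∑ j, l j * v j := by
      refine Finset.sum_congr rfl fun j _ => ?_
      rw [mul_comm]
      congr 1
      exact congrFun (A.symm_apply_apply v) j
    rw [e]
    exact hlv
  · rintro y ⟨y', hy', rfl⟩
    rw [hl, ← hC y' hy']
    refine Finset.sum_congr rfl fun j _ => ?_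
    rw [mul_comm]
    congr 1
    exact congrFun (A.symm_apply_apply y') j
  · rw [hKK, hK1']
    ext x
    constructor
    · rintro ⟨x', ⟨y, hy, t, ht, rfl⟩, rfl⟩
      exact ⟨A y, ⟨y, hy, rfl⟩, t, ht, by rw [map_add, map_smul]⟩
    · rintro ⟨_, ⟨y, hy, rfl⟩, t, ht, rfl⟩
      exact ⟨y + t • v, ⟨y, hy, t, ht, rfl⟩, by rw [map_add, map_smul]⟩


end Helper112.Pf
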