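import Mathlib
import Pool.Agent.Helper112.Pf.Defs

set_option autoImplicit false

namespace Helper112.Pf

open MeasureTheory

/-! TO PROVE -/

theorem real_dir_aux {n : ℕ} (u y : Fin n → ℝ) (p q : ℝ)
    (hD : (∑ i, u i * u i) * (∑ i, y i * y i) - (∑ i, u i * y i) ^ 2 ≠ 0) :
    ∃ η : Fin n → ℝ, ∑ i, u i * η i = p ∧ ∑ i, y i * η i = q := by
  set uu := ∑ i, u i * u i with huu
  set yy := ∑ i, y i * y i with hyy
  set uy := ∑ i, u i * y i with huy
  set D := uu * yy - uy ^ 2 with hDd
  set α := (p * yy - q * uy) / D with hα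
  set β := (q * uu - p * uy) / D with hβ
  refine ⟨fun i => α * u i + β * y i, ?_, ?_⟩
  · have : ∑ i, u i * (α * u i + β * y i) = α * uu + β * uy := by
      rw [huu, huy, Finset.mul_sum, Finset.mul_sum, ← Finset.sum_add_distrib]
      exact Finset.sum_congr rfl fun i _ => by ring
    rw [this, hα, hβ]
    field_simp
    rw [hDd]; ring
  · have : ∑ i, y i * (α * u i + β * y i) = α * uy + β * yy := by
      rw [hyy, huy, Finset.mul_sum, Finset.mul_sum, ← Finset.sum_add_distrib]
      exact Finset.sum_congr rfl fun i _ => by ring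
    rw [this, hα, hβ]
    field_simp
    rw [hDd]; ring

theorem real_dir {n : ℕ} (a : Fin n → ℂ) (c : ℂ)
    (h : ∀ η : Fin n → ℝ, ∑ i, a i * (Complex.I * (η i : ℂ)) ≠ c) :
    ∃ (b : Fin n → ℝ) (z : ℂ), ∀ i, a i = z * (b i : ℂ) := by
  classical
  set u : Fin n → ℝ := fun i => (a i).re with hu
  set y : Fin n → ℝ := fun i => (a i).im with hy
  have hD : (∑ i, u i * u i) * (∑ i, y i * y i) - (∑ i, u i * y i) ^ 2 = 0 := by
    by_contra hne
    obtain ⟨η, h1, h2⟩ := real_dir_aux u y c.im (-c.re) hne
    apply h η
    apply Complex.ext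
    · rw [Complex.re_sum]
      have : ∀ i, (a i * (Complex.I * (η i : ℂ))).re = -(y i * η i) := by
        intro i; simp [hy]
      simp only [this]
      rw [Finset.sum_neg_distrib, h2]; ring
    · rw [Complex.im_sum]
      have : ∀ i, (a i * (Complex.I * (η i : ℂ))).im = (u i * η i) := by
        intro i; simp [hu]
      simp only [this]
      rw [h1]
  by_cases huu : ∑ i, u i * u i = 0
  · have h0 : ∀ i, u i = 0 := by
      intro i
      have := (Finset.sum_eq_zero_iff_of_nonneg (fun i _ => mul_self_nonneg (u i))).mp huu i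
        (Finset.mem_univ i)
      exact mul_self_eq_zero.mp this
    refine ⟨y, Complex.I, fun i => ?_⟩
    apply Complex.ext
    · have := h0 i
      simp only [hu] at this
      simp [this]
    · simp [hy]
  · set uu := ∑ i, u i * u i with huud
    set yy := ∑ i, y i * y i with hyy
    set uy := ∑ i, u i * y i with huy
    set lam : ℝ := uy / uu with hlam
    have hs : ∑ i, (y i - lam * u i) * (y i - lam * u i) = 0 := by
      have e : ∑ i, (y i - lam * u i) * (y i - lam * u i) = yy - 2 * lam * uy + lam ^ 2 * uu := by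
        rw [hyy, huy, huud, Finset.mul_sum, Finset.mul_sum, ← Finset.sum_sub_distrib,
          ← Finset.sum_add_distrib]
        exact Finset.sum_congr rfl fun i _ => by ring
      rw [e, hlam]
      field_simp
      linarith
    have h0 : ∀ i, y i = lam * u i := by
      intro i
      have := (Finset.sum_eq_zero_iff_of_nonneg
        (fun i _ => mul_self_nonneg (y i - lam * u i))).mp hs i (Finset.mem_univ i)
      have := mul_self_eq_zero.mp this
      linarith
    refine ⟨u, 1 + lam * Complex.I, fun i => ?_⟩
    apply Complex.ext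
    · simp [hu]
    · have := h0 i
      simp only [hu, hy] at this
      simp [hu, this]

end Helper112.Pf
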