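import Mathlib
import Pool.Agent.Helper112.Pf.Defs
import Pool.Agent.Helper112.Pf.JFtPos
import Pool.Agent.Helper112.Pf.JDegOne
import Pool.Agent.Helper112.Pf.JLinearPrism
import Pool.Agent.Helper112.Pf.JRealDir

set_option autoImplicit false

namespace Helper112.Pf

open MeasureTheory



/-! TO PROVE -/

theorem factor_prism {n : ℕ} (K : Set (Fin n → ℝ)) (hK : IsBody K) (p : MvPolynomial (Fin n) ℂ)
    (hp : p.totalDegree = 1) (h : HasFactor p K) : IsPrism K := by
  obtain ⟨a, c, ha, hpe⟩ := deg_one p hp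
  obtain ⟨f, -, hf⟩ := h
  have hz : ∀ ζ : Fin n → ℂ, ∑ i, a i * ζ i = c → FT K ζ = 0 := by
    intro ζ hζ
    rw [hf, hpe, hζ, sub_self, zero_mul]
  obtain ⟨b, w, hb⟩ := real_dir a c (by
    intro η hη
    exact FT_pos K hK η (hz _ hη))
  have hw : w ≠ 0 := by
    rintro rfl
    exact ha (funext fun i => by rw [hb i, zero_mul]; rfl)
  have hb0 : b ≠ 0 := by
    rintro rfl
    exact ha (funext fun i => by rw [hb i]; simp)
  refine linear_prism K hK b hb0 (c / w) ?_
  intro ζ hζ
  apply hz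
  have h1 : ∑ i, a i * ζ i = w * ∑ i, (b i : ℂ) * ζ i := by
    rw [Finset.mul_sum]
    refine Finset.sum_congr rfl fun i _ => ?_
    rw [hb i, mul_assoc]
  rw [h1, hζ]
  field_simp

end Helper112.Pf
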