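import Mathlib
import Pool.Agent.Helper112.Pf.Defs

set_option autoImplicit false

namespace Helper112.Pf

open MeasureTheory



/-! TO PROVE -/

/-- the linear form `ζ ↦ -i x·ζ` -/
noncomputable def FTdL {n : ℕ} (x : Fin n → ℝ) : (Fin n → ℂ) →L[ℂ] ℂ :=
  -(Complex.I • ∑ i, (x i : ℂ) • (ContinuousLinearMap.proj i : (Fin n → ℂ) →L[ℂ] ℂ))

theorem FTdL_apply {n : ℕ} (x : Fin n → ℝ) (ζ : Fin n → ℂ) :
    FTdL x ζ = -(Complex.I * ∑ i, (x i : ℂ) * ζ i) := by
  unfold FTdL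
  simp [sum_apply]

theorem FTdL_cont {n : ℕ} : Continuous (fun x : Fin n → ℝ => FTdL x) := by
  unfold FTdL
  fun_prop

theorem FTdL_cont2 {n : ℕ} : Continuous (fun p : (Fin n → ℂ) × (Fin n → ℝ) =>
    Complex.exp (FTdL p.2 p.1)) := by
  have hc0 : Continuous (fun p : (Fin n → ℂ) × (Fin n → ℝ) => FTdL p.2) :=
    FTdL_cont.comp continuous_snd
  exact (hc0.clm_apply continuous_fst).cexp

theorem FTdL_cont3 {n : ℕ} : Continuous (fun p : (Fin n → ℂ) × (Fin n → ℝ) =>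
      Complex.exp (FTdL p.2 p.1) • FTdL p.2) :=
  FTdL_cont2.smul (FTdL_cont.comp continuous_snd)

theorem FTdL_der {n : ℕ} (x : Fin n → ℝ) (ζ : Fin n → ℂ) :
    HasFDerivAt (fun ζ => Complex.exp (FTdL x ζ)) (Complex.exp (FTdL x ζ) • FTdL x) ζ :=
  (FTdL x).hasFDerivAt.cexp

theorem FT_diff {n : ℕ} (K : Set (Fin n → ℝ)) (hK : IsCompact K) : Differentiable ℂ (FT K) := by
  intro ζ₀
  obtain ⟨C, hC⟩ := ((isCompact_closedBall ζ₀ 1).prod hK).exists_bound_of_continuousOn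
    (FTdL_cont3 (n := n)).continuousOn
  have hFT : FT K = fun ζ => ∫ x in K, Complex.exp (FTdL x ζ) := by
    funext ζ
    unfold FT
    simp_rw [FTdL_apply]
  have hcx : ∀ ζ : Fin n → ℂ, Continuous (fun x : Fin n → ℝ => Complex.exp (FTdL x ζ)) := fun ζ =>
    (FTdL_cont.clm_apply continuous_const).cexp
  have hcx' : Continuous (fun x : Fin n → ℝ => Complex.exp (FTdL x ζ₀) • FTdL x) :=
    (hcx ζ₀).smul FTdL_cont
  have hm : volume K < ⊤ := hK.measure_lt_top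
  have hfin : IsFiniteMeasure (volume.restrict K) := ⟨by simpa using hm⟩
  have h1 : ∀ᶠ ζ in nhds ζ₀, AEStronglyMeasurable (fun x : Fin n → ℝ => Complex.exp (FTdL x ζ))
      (volume.restrict K) := Filter.Eventually.of_forall fun ζ => (hcx ζ).aestronglyMeasurable
  have h2 : Integrable (fun x : Fin n → ℝ => Complex.exp (FTdL x ζ₀)) (volume.restrict K) :=
    (hcx ζ₀).continuousOn.integrableOn_compact hK
  have h3 : AEStronglyMeasurable (fun x : Fin n → ℝ => Complex.exp (FTdL x ζ₀) • FTdL x)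
      (volume.restrict K) := hcx'.aestronglyMeasurable
  have h4 : ∀ᵐ x ∂(volume.restrict K), ∀ ζ ∈ Metric.ball ζ₀ 1,
      ‖Complex.exp (FTdL x ζ) • FTdL x‖ ≤ C := by
    refine (ae_restrict_iff' hK.measurableSet).2 (Filter.Eventually.of_forall ?_)
    intro x hx ζ hζ
    exact hC (ζ, x) ⟨Metric.ball_subset_closedBall hζ, hx⟩
  have h5 : Integrable (fun _ : Fin n → ℝ => C) (volume.restrict K) := integrable_const C
  have h6 : ∀ᵐ x ∂(volume.restrict K), ∀ ζ ∈ Metric.ball ζ₀ 1,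
      HasFDerivAt (fun ζ => Complex.exp (FTdL x ζ)) (Complex.exp (FTdL x ζ) • FTdL x) ζ :=
    Filter.Eventually.of_forall fun x ζ _ => FTdL_der x ζ
  have key := hasFDerivAt_integral_of_dominated_of_fderiv_le (𝕜 := ℂ) (μ := volume.restrict K)
    (F := fun ζ x => Complex.exp (FTdL x ζ)) (F' := fun ζ x => Complex.exp (FTdL x ζ) • FTdL x)
    (x₀ := ζ₀) (s := Metric.ball ζ₀ 1) (bound := fun _ => C) (Metric.ball_mem_nhds ζ₀ one_pos)
    h1 h2 h3 h4 h5 h6
  rw [hFT]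
  exact key.differentiableAt

end Helper112.Pf
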