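import Mathlib
import Pool.Agent.Helper112.Pf.Defs

set_option autoImplicit false

namespace Helper112.Pf

open MeasureTheory

theorem hom_div {n : ℕ} (q P : MvPolynomial (Fin n) ℂ) (d : ℕ) (hP : P.IsHomogeneous d)
    (hP0 : P ≠ 0) (hq : Irreducible q) (h : q ∣ P) : MvPolynomial.eval (fun _ => (0:ℂ)) q = 0 := by
  classical
  obtain ⟨g, rfl⟩ := h
  have hq0 : q ≠ 0 := fun h0 => hP0 (by rw [h0, zero_mul])
  have hg0 : g ≠ 0 := fun h0 => hP0 (by rw [h0, mul_zero])
  by_contra hc
  have hc' : MvPolynomial.coeff 0 q ≠ 0 := by
    intro h0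
    apply hc
    have h1 : MvPolynomial.eval (fun _ => (0:ℂ)) q = MvPolynomial.constantCoeff q := by
      have := MvPolynomial.eval_zero (R := ℂ) (σ := Fin n)
      have h2 : (fun _ => (0:ℂ) : Fin n → ℂ) = 0 := rfl
      rw [h2, this]
    rw [h1]
    exact h0
  -- choose a monomial of minimal degree
  have hne : g.support.Nonempty := by
    rw [MvPolynomial.support_nonempty]
    exact hg0
  obtain ⟨m, hm, hmin⟩ := Finset.exists_min_image g.support (fun m => m.degree) hne
  have hcm : MvPolynomial.coeff m (q * g) = MvPolynomial.coeff 0 q * MvPolynomial.coeff m g := by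
    rw [MvPolynomial.coeff_mul]
    rw [Finset.sum_eq_single (0, m)]
    · rintro ⟨a, b⟩ hab hne'
      rw [Finset.HasAntidiagonal.mem_antidiagonal] at hab
      simp only at hab ⊢
      by_cases hb : b ∈ g.support
      · exfalso
        have h1 := hmin b hb
        have h2 : m.degree = a.degree + b.degree := by
          rw [← hab]; exact map_add (Finsupp.degree) a b
        have h3 : a.degree = 0 := by omega
        have h4 : a = 0 := by
          rw [Finsupp.degree_eq_zero_iff] at h3
          exact h3
        apply hne'
        rw [h4] at hab ⊢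
        rw [zero_add] at hab
        rw [hab]
      · rw [MvPolynomial.notMem_support_iff] at hb
        rw [hb, mul_zero]
    · intro h0
      exfalso
      apply h0
      rw [Finset.HasAntidiagonal.mem_antidiagonal]
      simp
  have hcm0 : MvPolynomial.coeff m (q * g) ≠ 0 := by
    rw [hcm]
    exact mul_ne_zero hc' (MvPolynomial.mem_support_iff.mp hm)
  have hmd : m.degree = d := by
    by_contra hne'
    exact hcm0 (hP.coeff_eq_zero hne')
  have hmt : m.degree ≤ g.totalDegree := by
    have := MvPolynomial.le_totalDegree hm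
    rw [Finsupp.degree_eq_sum]
    simpa [Finsupp.sum_fintype] using this
  have htd : (q * g).totalDegree = d := hP.totalDegree hP0
  rw [MvPolynomial.totalDegree_mul_of_isDomain hq0 hg0] at htd
  have hq1 : q.totalDegree = 0 := by omega
  rw [MvPolynomial.totalDegree_eq_zero_iff_eq_C] at hq1
  apply hq.not_isUnit
  rw [hq1]
  exact (isUnit_iff_ne_zero.mpr hc').map MvPolynomial.C

end Helper112.Pf
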