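import Mathlib
import Pool.Agent.Helper112.Pf.Defs

set_option autoImplicit false

namespace Helper112.Pf

open MeasureTheory

/-! TO PROVE -/

theorem null {n : ℕ} (q A : MvPolynomial (Fin n) ℂ) (hq : Irreducible q)
    (h : ∀ ζ : Fin n → ℂ, MvPolynomial.eval ζ q = 0 → MvPolynomial.eval ζ A = 0) : q ∣ A := by
  have hp : Prime q := UniqueFactorizationMonoid.irreducible_iff_prime.1 hq
  have hpi : (Ideal.span {q} : Ideal (MvPolynomial (Fin n) ℂ)).IsPrime :=
    (Ideal.span_singleton_prime hp.ne_zero).2 hp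
  have h1 : A ∈ MvPolynomial.vanishingIdeal ℂ (MvPolynomial.zeroLocus ℂ
      (Ideal.span {q} : Ideal (MvPolynomial (Fin n) ℂ))) := by
    rw [MvPolynomial.mem_vanishingIdeal_iff]
    intro x hx
    have h2 := hx q (Ideal.mem_span_singleton_self q)
    rw [MvPolynomial.aeval_eq_eval] at h2 ⊢
    exact h x h2
  rw [MvPolynomial.vanishingIdeal_zeroLocus_eq_radical, hpi.radical] at h1
  exact Ideal.mem_span_singleton.1 h1

end Helper112.Pf
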