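import Mathlib
import Pool.Agent.Helper112.Pf.Defs
import Pool.Agent.Helper112.Pf.JNull

set_option autoImplicit false

namespace Helper112.Pf

open MeasureTheory

/-! TO PROVE -/

theorem hyper_chain {n : ℕ} (z u : Fin n → ℂ) (p : MvPolynomial (Fin n) ℂ) (t : ℂ) :
    HasDerivAt (fun s : ℂ => MvPolynomial.eval (fun i => z i + s * u i) p)
      (∑ i, u i * MvPolynomial.eval (fun i => z i + t * u i) (MvPolynomial.pderiv i p)) t := by
  induction p using MvPolynomial.induction_on with
  | C a =>
    simp only [MvPolynomial.eval_C, MvPolynomial.pderiv_C, map_zero, mul_zero,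
      Finset.sum_const_zero]
    exact hasDerivAt_const _ _
  | add p q hp hq =>
    have h := hp.add hq
    simp only [map_add, mul_add, Finset.sum_add_distrib]
    exact h
  | mul_X p k hp =>
    have h1 : HasDerivAt (fun s : ℂ => z k + s * u k) (u k) t := by
      simpa using ((hasDerivAt_id t).mul_const (u k)).const_add (z k)
    have h := hp.mul h1
    have e : (fun s : ℂ => MvPolynomial.eval (fun i => z i + s * u i) (p * MvPolynomial.X k))
        = (fun s : ℂ => MvPolynomial.eval (fun i => z i + s * u i) p) *
          (fun s : ℂ => z k + s * u k) := by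
      funext s
      simp
    rw [e]
    refine h.congr_deriv ?_
    simp only [Derivation.leibniz, MvPolynomial.pderiv_X, smul_eq_mul, map_add, map_mul,
      MvPolynomial.eval_X]
    have h2 : ∀ i : Fin n, u i * (MvPolynomial.eval (fun i => z i + t * u i) p *
        MvPolynomial.eval (fun i => z i + t * u i)
          ((Pi.single i (1 : MvPolynomial (Fin n) ℂ) : Fin n → MvPolynomial (Fin n) ℂ) k) +
        (z k + t * u k) * MvPolynomial.eval (fun i => z i + t * u i) (MvPolynomial.pderiv i p))
        = (if i = k then MvPolynomial.eval (fun i => z i + t * u i) p * u k else 0) +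
          u i * MvPolynomial.eval (fun i => z i + t * u i) (MvPolynomial.pderiv i p)
            * (z k + t * u k) := by
      intro i
      by_cases hik : i = k
      · subst hik
        simp only [Pi.single_eq_same, map_one, if_true]
        ring
      · rw [Pi.single_eq_of_ne (fun h => hik h.symm), if_neg hik]
        simp only [map_zero]
        ring
    rw [Finset.sum_congr rfl (fun i _ => h2 i), Finset.sum_add_distrib, Finset.sum_ite_eq']
    simp only [Finset.mem_univ, if_true]
    rw [Finset.sum_mul]
    ring

theorem hyper {n : ℕ} (q : MvPolynomial (Fin n) ℂ) (hq : Irreducible q) (τ : Fin n → ℂ) (hτ : τ ≠ 0)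
    (h : ∀ j k : Fin n, MvPolynomial.C (τ j) * MvPolynomial.pderiv k q = MvPolynomial.C (τ k) * MvPolynomial.pderiv j q) :
    ∃ c : ℂ, ∀ ζ : Fin n → ℂ, ∑ i, τ i * ζ i = c → MvPolynomial.eval ζ q = 0 := by
  obtain ⟨z0, hz0⟩ : ∃ z : Fin n → ℂ, MvPolynomial.eval z q = 0 := by
    by_contra hcon
    push Not at hcon
    have := null q 1 hq (fun ζ hζ => absurd hζ (hcon ζ))
    exact hq.not_isUnit (isUnit_of_dvd_one this)
  obtain ⟨k, hk⟩ : ∃ k, τ k ≠ 0 := by
    by_contra hcon
    push Not at hcon
    exact hτ (funext hcon)
  refine ⟨∑ i, τ i * z0 i, fun ζ hζ => ?_⟩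
  let u : Fin n → ℂ := fun i => ζ i - z0 i
  have hu : ∑ i, τ i * u i = 0 := by
    simp only [u, mul_sub, Finset.sum_sub_distrib]
    rw [hζ, sub_self]
  have hd : ∀ t : ℂ, HasDerivAt (fun s : ℂ => MvPolynomial.eval (fun i => z0 i + s * u i) q) 0 t := by
    intro t
    have h1 := hyper_chain z0 u q t
    have h2 : ∀ j : Fin n, MvPolynomial.eval (fun i => z0 i + t * u i) (MvPolynomial.pderiv j q)
        = τ j / τ k * MvPolynomial.eval (fun i => z0 i + t * u i) (MvPolynomial.pderiv k q) := by
      intro j
      have h3 := congrArg (MvPolynomial.eval (fun i => z0 i + t * u i)) (h j k)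
      simp only [map_mul, MvPolynomial.eval_C] at h3
      field_simp
      rw [h3]
      ring
    rw [Finset.sum_congr rfl (fun j _ => by rw [h2 j])] at h1
    have h4 : ∑ j : Fin n, u j * (τ j / τ k *
        MvPolynomial.eval (fun i => z0 i + t * u i) (MvPolynomial.pderiv k q)) = 0 := by
      have : ∀ j : Fin n, u j * (τ j / τ k *
        MvPolynomial.eval (fun i => z0 i + t * u i) (MvPolynomial.pderiv k q)) =
        (τ j * u j) * (1 / τ k * MvPolynomial.eval (fun i => z0 i + t * u i) (MvPolynomial.pderiv k q)) := by
        intro j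
        ring
      rw [Finset.sum_congr rfl (fun j _ => this j), ← Finset.sum_mul, hu, zero_mul]
    rw [h4] at h1
    exact h1
  have hc := is_const_of_deriv_eq_zero (fun t => (hd t).differentiableAt) (fun t => (hd t).deriv) 1 0
  have e1 : (fun i => z0 i + (1 : ℂ) * u i) = ζ := by
    funext i
    simp only [u]
    ring
  have e0 : (fun i => z0 i + (0 : ℂ) * u i) = z0 := by
    funext i
    ring
  simp only [e1, e0] at hc
  rw [hc, hz0]

end Helper112.Pf
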