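import Mathlib
import Pool.Agent.Helper112.Pf.Defs
import Pool.Agent.Helper112.Pf.JCurve

set_option autoImplicit false

namespace Helper112.Pf

open MeasureTheory

/-! TO PROVE -/

theorem tang_chain {n : ℕ} (P : MvPolynomial (Fin n) ℂ) (c : ℂ → Fin n → ℂ) (c' : Fin n → ℂ) (x₀ : ℂ)
    (hc : ∀ i, HasDerivAt (fun x => c x i) (c' i) x₀) :
    HasDerivAt (fun x => MvPolynomial.eval (c x) P)
      (∑ i, MvPolynomial.eval (c x₀) (MvPolynomial.pderiv i P) * c' i) x₀ := by
  induction P using MvPolynomial.induction_on with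
  | C a =>
    simp only [MvPolynomial.eval_C, MvPolynomial.pderiv_C, map_zero, zero_mul,
      Finset.sum_const_zero]
    exact hasDerivAt_const x₀ a
  | add p q hp hq =>
    simp only [map_add, add_mul, Finset.sum_add_distrib]
    exact hp.add hq
  | mul_X p j hp =>
    have h1 := hp.mul (hc j)
    have e : (∑ i, MvPolynomial.eval (c x₀) (MvPolynomial.pderiv i (p * MvPolynomial.X j)) * c' i) =
        (∑ i, MvPolynomial.eval (c x₀) (MvPolynomial.pderiv i p) * c' i) * c x₀ j +
          MvPolynomial.eval (c x₀) p * c' j := by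
      have e1 : ∀ i, MvPolynomial.eval (c x₀) (MvPolynomial.pderiv i (p * MvPolynomial.X j)) * c' i =
          (MvPolynomial.eval (c x₀) (MvPolynomial.pderiv i p) * c' i) * c x₀ j +
          (if i = j then MvPolynomial.eval (c x₀) p * c' i else 0) := by
        intro i
        rw [MvPolynomial.pderiv_mul, MvPolynomial.pderiv_X, map_add, map_mul, map_mul,
          MvPolynomial.eval_X, Pi.single_apply]
        by_cases h : i = j
        · subst h
          simp
          ring
        · rw [if_neg (Ne.symm h), if_neg h]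
          simp
          ring
      rw [Finset.sum_congr rfl fun i _ => e1 i, Finset.sum_add_distrib, Finset.sum_mul]
      congr 1
      simp
    rw [e]
    simp only [map_mul, MvPolynomial.eval_X]
    exact h1

theorem tang {n : ℕ} (q : MvPolynomial (Fin n) ℂ) (F : Finset (Fin n → ℂ))
    (P : (Fin n → ℂ) → MvPolynomial (Fin n) ℂ)
    (h : ∀ ζ : Fin n → ℂ, MvPolynomial.eval ζ q = 0 →
      ∑ v ∈ F, MvPolynomial.eval ζ (P v) * Complex.exp (∑ i, v i * ζ i) = 0) (j k : Fin n) :
    ∀ ζ : Fin n → ℂ, MvPolynomial.eval ζ q = 0 →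
      ∑ v ∈ F, MvPolynomial.eval ζ
        (MvPolynomial.pderiv k q * (MvPolynomial.pderiv j (P v) + MvPolynomial.C (v j) * P v)
          - MvPolynomial.pderiv j q * (MvPolynomial.pderiv k (P v) + MvPolynomial.C (v k) * P v))
        * Complex.exp (∑ i, v i * ζ i) = 0 := by
  intro ζ hζ
  set qj : ℂ := MvPolynomial.eval ζ (MvPolynomial.pderiv j q) with hqj
  set qk : ℂ := MvPolynomial.eval ζ (MvPolynomial.pderiv k q) with hqk
  by_cases hz : qj = 0 ∧ qk = 0
  · refine Finset.sum_eq_zero fun v _ => ?_
    rw [map_sub, map_mul, map_mul, ← hqj, ← hqk, hz.1, hz.2]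
    ring
  · obtain ⟨i₀, hi₀⟩ : ∃ i₀ : Fin n, MvPolynomial.eval ζ (MvPolynomial.pderiv i₀ q) ≠ 0 := by
      rw [not_and_or] at hz
      rcases hz with hz | hz
      · exact ⟨j, hz⟩
      · exact ⟨k, hz⟩
    set w : Fin n → ℂ := fun i => qk * (if i = j then 1 else 0) - qj * (if i = k then 1 else 0)
      with hw
    have hsum : ∀ f : Fin n → ℂ, ∑ i, f i * w i = f j * qk - f k * qj := by
      intro f
      have e : ∀ i, f i * w i = (if i = j then f i * qk else 0) - (if i = k then f i * qj else 0) := by
        intro i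
        simp only [hw]
        split_ifs <;> ring
      rw [Finset.sum_congr rfl fun i _ => e i, Finset.sum_sub_distrib]
      simp
    obtain ⟨r, y, hr, hy, hy0, hy', hcur⟩ := curve q ζ w (Pi.single i₀ 1) hζ
      (by rw [hsum]; ring) (by
        rw [Finset.sum_eq_single i₀]
        · simpa using hi₀
        · intro b _ hb
          rw [Pi.single_apply, if_neg hb, mul_zero]
        · intro h
          exact absurd (Finset.mem_univ _) h)
    set c : ℂ → Fin n → ℂ := fun x => ζ + x • w + y x • (Pi.single i₀ 1 : Fin n → ℂ) with hcdef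
    have hc0 : c 0 = ζ := by
      simp [hcdef, hy0]
    have hyd : HasDerivAt y 0 0 := by
      have h1 := (hy.differentiableAt (Metric.ball_mem_nhds 0 hr)).hasDerivAt
      rwa [hy'] at h1
    have hcd : ∀ i, HasDerivAt (fun x => c x i) (w i) 0 := by
      intro i
      have h1 : HasDerivAt (fun x : ℂ => ζ i + x * w i + y x * (Pi.single i₀ 1 : Fin n → ℂ) i)
          (1 * w i + 0 * (Pi.single i₀ 1 : Fin n → ℂ) i) 0 :=
        (((hasDerivAt_id (0 : ℂ)).mul_const (w i)).const_add (ζ i)).add (hyd.mul_const _)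
      rw [one_mul, zero_mul, add_zero] at h1
      exact h1
    have hG : HasDerivAt (fun x => ∑ v ∈ F, MvPolynomial.eval (c x) (P v) *
        Complex.exp (∑ i, v i * c x i))
        (∑ v ∈ F, ((∑ i, MvPolynomial.eval (c 0) (MvPolynomial.pderiv i (P v)) * w i) *
          Complex.exp (∑ i, v i * c 0 i) + MvPolynomial.eval (c 0) (P v) *
          (Complex.exp (∑ i, v i * c 0 i) * ∑ i, v i * w i))) 0 := by
      refine HasDerivAt.fun_sum fun v _ => ?_
      have h1 := tang_chain (P v) c w 0 hcd
      have h2 : HasDerivAt (fun x => ∑ i, v i * c x i) (∑ i, v i * w i) 0 :=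
        HasDerivAt.fun_sum fun i _ => (hcd i).const_mul (v i)
      exact h1.mul h2.cexp
    have hG0 : HasDerivAt (fun x => ∑ v ∈ F, MvPolynomial.eval (c x) (P v) *
        Complex.exp (∑ i, v i * c x i)) 0 0 := by
      refine (hasDerivAt_const (0 : ℂ) (0 : ℂ)).congr_of_eventuallyEq ?_
      filter_upwards [Metric.ball_mem_nhds (0 : ℂ) hr] with x hx
      exact h (c x) (hcur x hx)
    have hu := hG.unique hG0
    rw [hc0] at hu
    rw [← hu]
    refine Finset.sum_congr rfl fun v _ => ?_
    rw [hsum, hsum]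
    simp only [map_sub, map_mul, map_add, MvPolynomial.eval_C]
    rw [← hqj, ← hqk]
    ring

end Helper112.Pf
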