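import Mathlib
import Pool.Agent.Helper112.Pf.Defs

set_option autoImplicit false

namespace Helper112.Pf

open MeasureTheory

/-! TO PROVE -/

theorem nd_pderiv {n : ℕ} (q : MvPolynomial (Fin n) ℂ) (i : Fin n) (d : ℕ)
    (hd : q.totalDegree ≤ d + 1) : (MvPolynomial.pderiv i q).totalDegree ≤ d := by
  classical
  refine Finset.sup_le fun s hs => ?_
  have h1 : MvPolynomial.coeff s (MvPolynomial.pderiv i q) ≠ 0 :=
    MvPolynomial.mem_support_iff.1 hs
  have h2 : s + Finsupp.single i 1 ∈ q.support := by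
    rw [MvPolynomial.mem_support_iff]
    intro h0
    apply h1
    rw [MvPolynomial.coeff_pderiv, h0]
    simp
  have h3 := (MvPolynomial.le_totalDegree h2).trans hd
  rw [Finsupp.sum_add_index' (fun _ => rfl) (fun _ _ _ => rfl),
    Finsupp.sum_single_index rfl] at h3
  omega

theorem not_dvd_deg {n : ℕ} (q : MvPolynomial (Fin n) ℂ) (hq : Irreducible q) (a b : ℂ)
    (j k : Fin n)
    (hne : MvPolynomial.C a * MvPolynomial.pderiv k q - MvPolynomial.C b * MvPolynomial.pderiv j q ≠ 0) :
    ¬ q ∣ (MvPolynomial.C a * MvPolynomial.pderiv k q - MvPolynomial.C b * MvPolynomial.pderiv j q) := by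
  intro hdvd
  have h1 := MvPolynomial.totalDegree_le_of_dvd_of_isDomain hdvd hne
  have hpos : q.totalDegree ≠ 0 := by
    intro h0
    rw [MvPolynomial.totalDegree_eq_zero_iff_eq_C] at h0
    apply hq.not_isUnit
    rw [h0]
    refine (IsUnit.mk0 _ ?_).map MvPolynomial.C
    intro hc
    apply hq.ne_zero
    rw [h0, hc, map_zero]
  obtain ⟨d, hd⟩ := Nat.exists_eq_succ_of_ne_zero hpos
  have h2 : (MvPolynomial.C a * MvPolynomial.pderiv k q -
      MvPolynomial.C b * MvPolynomial.pderiv j q).totalDegree ≤ d := by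
    refine (MvPolynomial.totalDegree_sub _ _).trans (max_le ?_ ?_)
    · refine (MvPolynomial.totalDegree_mul _ _).trans ?_
      rw [MvPolynomial.totalDegree_C, zero_add]
      exact nd_pderiv q k d hd.le
    · refine (MvPolynomial.totalDegree_mul _ _).trans ?_
      rw [MvPolynomial.totalDegree_C, zero_add]
      exact nd_pderiv q j d hd.le
  omega

end Helper112.Pf
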