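import Mathlib
import Pool.Agent.Helper112.Pf.Defs
import Pool.Agent.Helper112.Pf.JCurve
import Pool.Agent.Helper112.Pf.JElimAlg
import Pool.Agent.Helper112.Pf.JExpTrans

set_option autoImplicit false

namespace Helper112.Pf

open MeasureTheory

/-! TO PROVE -/

theorem hasDerivAt_eval_aux {n : ℕ} (P : MvPolynomial (Fin n) ℂ) (z : ℂ → Fin n → ℂ) (u : Fin n → ℂ)
    (x : ℂ) (hz : ∀ i, HasDerivAt (fun t => z t i) (u i) x) :
    HasDerivAt (fun t => MvPolynomial.eval (z t) P)
      (∑ i, MvPolynomial.eval (z x) (MvPolynomial.pderiv i P) * u i) x := by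
  induction P using MvPolynomial.induction_on with
  | C a => simpa using hasDerivAt_const x a
  | add p q hp hq =>
    have := hp.add hq
    simp only [map_add, add_mul, Finset.sum_add_distrib]
    exact this
  | mul_X p i hp =>
    have h1 : HasDerivAt (fun t => MvPolynomial.eval (z t) p * z t i)
        ((∑ k, MvPolynomial.eval (z x) (MvPolynomial.pderiv k p) * u k) * z x i +
          MvPolynomial.eval (z x) p * u i) x := hp.mul (hz i)
    simp only [map_mul, MvPolynomial.eval_X, Derivation.leibniz, MvPolynomial.pderiv_X, map_add,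
      smul_eq_mul]
    refine h1.congr_deriv ?_
    simp only [add_mul, Finset.sum_add_distrib]
    rw [add_comm]
    congr 1
    · rw [Finset.sum_eq_single i]
      · simp
      · intro k _ hk
        rw [Pi.single_eq_of_ne hk.symm]
        simp
      · simp
    · rw [Finset.sum_mul]
      refine Finset.sum_congr rfl ?_
      intro k _
      ring

/-- substitution -/
noncomputable def subst {n : ℕ} (a b c : Fin n → ℂ) :
    MvPolynomial (Fin n) ℂ →ₐ[ℂ] Polynomial (Polynomial ℂ) :=
  MvPolynomial.aeval (fun i => Polynomial.C (Polynomial.C (a i) + Polynomial.C (b i) * Polynomial.X) +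
    Polynomial.C (Polynomial.C (c i)) * Polynomial.X)

theorem subst_eval {n : ℕ} (a b c : Fin n → ℂ) (P : MvPolynomial (Fin n) ℂ) (x y : ℂ) :
    ((subst a b c P).map (Polynomial.evalRingHom x)).eval y =
      MvPolynomial.eval (a + x • b + y • c) P := by
  induction P using MvPolynomial.induction_on with
  | C r =>
    have : subst a b c (MvPolynomial.C r) = Polynomial.C (Polynomial.C r) := by
      rw [← MvPolynomial.algebraMap_eq, AlgHom.commutes]
      rfl
    rw [this]
    simp
  | add p q hp hq => simp only [map_add, Polynomial.map_add, Polynomial.eval_add, hp, hq]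
  | mul_X p i hp =>
    rw [map_mul, Polynomial.map_mul, Polynomial.eval_mul, hp, map_mul]
    congr 1
    rw [subst, MvPolynomial.aeval_X, MvPolynomial.eval_X]
    simp
    ring
theorem ode {n : ℕ} (q A B : MvPolynomial (Fin n) ℂ) (τ : Fin n → ℂ) (j k : Fin n)
    (h : ∀ ζ : Fin n → ℂ, MvPolynomial.eval ζ q = 0 → MvPolynomial.eval ζ
      (B * (MvPolynomial.pderiv k q * MvPolynomial.pderiv j A - MvPolynomial.pderiv j q * MvPolynomial.pderiv k A)
        - A * (MvPolynomial.pderiv k q * MvPolynomial.pderiv j B - MvPolynomial.pderiv j q * MvPolynomial.pderiv k B)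
        + (MvPolynomial.C (τ j) * MvPolynomial.pderiv k q - MvPolynomial.C (τ k) * MvPolynomial.pderiv j q) * A * B) = 0)
    (ζ0 : Fin n → ℂ) (h0 : MvPolynomial.eval ζ0 q = 0) (hA : MvPolynomial.eval ζ0 A ≠ 0)
    (hB : MvPolynomial.eval ζ0 B ≠ 0)
    (hR : MvPolynomial.eval ζ0
      (MvPolynomial.C (τ j) * MvPolynomial.pderiv k q - MvPolynomial.C (τ k) * MvPolynomial.pderiv j q) ≠ 0) :
    False := by
  classical
  have hjk : j ≠ k := by
    rintro rfl
    apply hR
    simp
  set qj := MvPolynomial.eval ζ0 (MvPolynomial.pderiv j q) with hqj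
  set qk := MvPolynomial.eval ζ0 (MvPolynomial.pderiv k q) with hqk
  have hR0 : τ j * qk - τ k * qj ≠ 0 := by simpa using hR
  set R0 := τ j * qk - τ k * qj with hR0d
  set w : Fin n → ℂ := Pi.single j (qk / R0) + Pi.single k (-(qj / R0)) with hw
  set w1 : Fin n → ℂ := Pi.single j (τ k) + Pi.single k (-(τ j)) with hw1
  have hsum : ∀ (f : Fin n → ℂ) (a b : ℂ), ∑ i, f i * (Pi.single j a + Pi.single k b : Fin n → ℂ) i =
      f j * a + f k * b := by
    intro f a b
    simp only [Pi.add_apply, mul_add, Finset.sum_add_distrib]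
    congr 1
    · rw [Finset.sum_eq_single j]
      · simp
      · intro i _ hi; simp [Pi.single_apply, hi]
      · simp
    · rw [Finset.sum_eq_single k]
      · simp
      · intro i _ hi; simp [Pi.single_apply, hi]
      · simp
  have e1 : ∑ i, MvPolynomial.eval ζ0 (MvPolynomial.pderiv i q) * w i = 0 := by
    rw [hw, hsum]
    ring
  have e2 : ∑ i, MvPolynomial.eval ζ0 (MvPolynomial.pderiv i q) * w1 i ≠ 0 := by
    rw [hw1, hsum]
    intro h3
    apply hR0
    rw [hR0d]
    linear_combination -h3
  obtain ⟨r, y, hr, hyd, hy0, -, hyq⟩ := curve q ζ0 w w1 h0 e1 e2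
  set z : ℂ → Fin n → ℂ := fun x => ζ0 + x • w + y x • w1 with hz
  have hz0 : z 0 = ζ0 := by simp [hz, hy0]
  have hyat : ∀ x ∈ Metric.ball (0:ℂ) r, HasDerivAt y (deriv y x) x := by
    intro x hx
    exact (hyd.differentiableAt (Metric.isOpen_ball.mem_nhds hx)).hasDerivAt
  have hzd : ∀ x ∈ Metric.ball (0:ℂ) r, ∀ i, HasDerivAt (fun t => z t i) (w i + deriv y x * w1 i) x := by
    intro x hx i
    have h1 : HasDerivAt (fun t : ℂ => ζ0 i + t * w i + y t * w1 i) (w i + deriv y x * w1 i) x := by
      have h2 : HasDerivAt (fun t : ℂ => t * w i) (w i) x := by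
        simpa using (hasDerivAt_id x).mul_const (w i)
      exact (h2.const_add (ζ0 i)).add ((hyat x hx).mul_const (w1 i))
    exact h1
  have hwj : w j = qk / R0 := by simp [hw, Pi.single_apply, hjk]
  have hwk : w k = -(qj / R0) := by simp [hw, Pi.single_apply, hjk.symm]
  have hw1j : w1 j = τ k := by simp [hw1, Pi.single_apply, hjk]
  have hw1k : w1 k = -(τ j) := by simp [hw1, Pi.single_apply, hjk.symm]
  -- derivative of eval along the curve
  have hder : ∀ (P : MvPolynomial (Fin n) ℂ), ∀ x ∈ Metric.ball (0:ℂ) r,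
      HasDerivAt (fun t => MvPolynomial.eval (z t) P)
        (MvPolynomial.eval (z x) (MvPolynomial.pderiv j P) * (w j + deriv y x * w1 j) +
          MvPolynomial.eval (z x) (MvPolynomial.pderiv k P) * (w k + deriv y x * w1 k)) x := by
    intro P x hx
    have h1 := hasDerivAt_eval_aux P z (fun i => w i + deriv y x * w1 i) x (hzd x hx)
    convert h1 using 1
    have h2 : ∀ i, w i + deriv y x * w1 i =
        (Pi.single j (w j + deriv y x * w1 j) + Pi.single k (w k + deriv y x * w1 k) : Fin n → ℂ) i := by
      intro i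
      rw [Pi.add_apply]
      by_cases hi : i = j
      · subst hi; simp [Pi.single_apply, hjk]
      · by_cases hi' : i = k
        · subst hi'; simp [Pi.single_apply, hi]
        · simp [hw, hw1, Pi.single_apply, hi, hi']
    have h3 : ∑ i, MvPolynomial.eval (z x) (MvPolynomial.pderiv i P) * (w i + deriv y x * w1 i) =
        ∑ i, MvPolynomial.eval (z x) (MvPolynomial.pderiv i P) *
          (Pi.single j (w j + deriv y x * w1 j) + Pi.single k (w k + deriv y x * w1 k) : Fin n → ℂ) i :=
      Finset.sum_congr rfl (fun i _ => congrArg (fun t => MvPolynomial.eval (z x) (MvPolynomial.pderiv i P) * t) (h2 i))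
    rw [h3, hsum]
  -- continuity: shrink the ball
  have hcont : ∀ P : MvPolynomial (Fin n) ℂ, ContinuousAt (fun t => MvPolynomial.eval (z t) P) 0 :=
    fun P => (hder P 0 (Metric.mem_ball_self hr)).continuousAt
  set RR : MvPolynomial (Fin n) ℂ :=
    MvPolynomial.C (τ j) * MvPolynomial.pderiv k q - MvPolynomial.C (τ k) * MvPolynomial.pderiv j q with hRR
  have ev : ∀ᶠ x in nhds (0:ℂ), x ∈ Metric.ball (0:ℂ) r ∧ MvPolynomial.eval (z x) A ≠ 0 ∧
      MvPolynomial.eval (z x) B ≠ 0 ∧ MvPolynomial.eval (z x) RR ≠ 0 := by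
    have hb : Metric.ball (0:ℂ) r ∈ nhds (0:ℂ) := Metric.isOpen_ball.mem_nhds (Metric.mem_ball_self hr)
    filter_upwards [hb, (hcont A).eventually_ne (by rw [hz0]; exact hA),
      (hcont B).eventually_ne (by rw [hz0]; exact hB),
      (hcont RR).eventually_ne (by rw [hz0]; exact hR)] with x h1 h2 h3 h4
    exact ⟨h1, h2, h3, h4⟩
  obtain ⟨s, hs, hsb⟩ := Metric.eventually_nhds_iff_ball.1 ev
  -- the constant function
  set F : ℂ → ℂ := fun x => MvPolynomial.eval (z x) A * Complex.exp x / MvPolynomial.eval (z x) B with hF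
  have hFd : ∀ x ∈ Metric.ball (0:ℂ) s, HasDerivAt F 0 x := by
    intro x hx
    obtain ⟨hxr, hxA, hxB, hxR⟩ := hsb x hx
    have hA' := hder A x hxr
    have hB' := hder B x hxr
    have hq' := hder q x hxr
    have hq0 : HasDerivAt (fun t => MvPolynomial.eval (z t) q) 0 x := by
      refine (hasDerivAt_const x (0:ℂ)).congr_of_eventuallyEq ?_
      filter_upwards [Metric.isOpen_ball.mem_nhds hxr] with t ht
      exact hyq t ht
    have hqe := hq'.unique hq0
    have hrel := h (z x) (hyq x hxr)
    have hAE : HasDerivAt (fun t => MvPolynomial.eval (z t) A * Complex.exp t) _ x :=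
      hA'.mul (Complex.hasDerivAt_exp x)
    have hF' : HasDerivAt F _ x := hAE.div hB' hxB
    refine hF'.congr_deriv ?_
    rw [div_eq_zero_iff]
    left
    beta_reduce
    clear hF' hAE hA' hB' hq' hq0
    rw [hwj, hwk, hw1j, hw1k] at hqe ⊢
    rw [hRR] at hxR hrel
    simp only [map_add, map_sub, map_mul, MvPolynomial.eval_C] at hrel hxR
    generalize MvPolynomial.eval (z x) A = a at *
    generalize MvPolynomial.eval (z x) B = b at *
    generalize MvPolynomial.eval (z x) (MvPolynomial.pderiv j A) = aj at *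
    generalize MvPolynomial.eval (z x) (MvPolynomial.pderiv k A) = ak at *
    generalize MvPolynomial.eval (z x) (MvPolynomial.pderiv j B) = bj at *
    generalize MvPolynomial.eval (z x) (MvPolynomial.pderiv k B) = bk at *
    generalize MvPolynomial.eval (z x) (MvPolynomial.pderiv j q) = pj at *
    generalize MvPolynomial.eval (z x) (MvPolynomial.pderiv k q) = pk at *
    have hu : τ j * (qk / R0 + deriv y x * τ k) + τ k * (-(qj / R0) + deriv y x * -(τ j)) = 1 := by
      have : τ j * (qk / R0 + deriv y x * τ k) + τ k * (-(qj / R0) + deriv y x * -(τ j)) =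
          (τ j * qk - τ k * qj) / R0 := by ring
      rw [this, ← hR0d, div_self hR0]
    generalize (qk / R0 + deriv y x * τ k) = uj at *
    generalize (-(qj / R0) + deriv y x * -(τ j)) = uk at *
    have huj : (τ j * pk - τ k * pj) * uj = pk := by linear_combination pk * hu - τ k * hqe
    have huk : (τ j * pk - τ k * pj) * uk = -pj := by linear_combination -pj * hu + τ j * hqe
    have key : (τ j * pk - τ k * pj) * (((aj * uj + ak * uk) * Complex.exp x + a * Complex.exp x) * b -
        a * Complex.exp x * (bj * uj + bk * uk)) = 0 := by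
      linear_combination (Complex.exp x * b * aj - a * Complex.exp x * bj) * huj +
        (Complex.exp x * b * ak - a * Complex.exp x * bk) * huk + Complex.exp x * hrel
    rcases mul_eq_zero.1 key with h1 | h1
    · exact absurd h1 hxR
    · exact h1
  have hconst : ∀ x ∈ Metric.ball (0:ℂ) s, F x = F 0 := by
    intro x hx
    have hpre : IsPreconnected (Metric.ball (0:ℂ) s) := (convex_ball (0:ℂ) s).isPreconnected
    refine Metric.isOpen_ball.is_const_of_deriv_eq_zero hpre ?_ ?_ hx (Metric.mem_ball_self hs)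
    · intro t ht; exact (hFd t ht).differentiableAt.differentiableWithinAt
    · intro t ht; exact (hFd t ht).deriv
  set κ := F 0 with hκ
  have hκ0 : κ ≠ 0 := by
    rw [hκ, hF]
    simp only
    rw [hz0]
    exact div_ne_zero (mul_ne_zero hA (Complex.exp_ne_zero _)) hB
  have hqt : subst ζ0 w w1 q ≠ 0 := by
    intro h1
    have h2 : ∀ t : ℂ, MvPolynomial.eval (ζ0 + t • w1) q = 0 := by
      intro t
      have := subst_eval ζ0 w w1 q 0 t
      rw [h1] at this
      simp at this
      exact this.symm
    have h3 := hasDerivAt_eval_aux q (fun t => ζ0 + t • w1) w1 0 (by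
      intro i
      have h4 : HasDerivAt (fun t : ℂ => ζ0 i + t * w1 i) (w1 i) 0 := by
        have h5 : HasDerivAt (fun t : ℂ => t * w1 i) (w1 i) 0 := by
          simpa using (hasDerivAt_id (0:ℂ)).mul_const (w1 i)
        exact h5.const_add (ζ0 i)
      exact h4)
    have h6 : HasDerivAt (fun t : ℂ => MvPolynomial.eval (ζ0 + t • w1) q) 0 0 := by
      simp only [h2]
      exact hasDerivAt_const _ _
    have h7 := h3.unique h6
    apply e2
    simpa using h7
  obtain ⟨g, hg, hgz⟩ := elim_alg (subst ζ0 w w1 q) (subst ζ0 w w1 B) (subst ζ0 w w1 A) hqt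
  refine exp_trans g hg κ⁻¹ (inv_ne_zero hκ0) s hs ?_
  intro x hx
  have hxs : x ∈ Metric.ball (0:ℂ) s := by simpa using hx
  obtain ⟨hxr, hxA, hxB, hxR⟩ := hsb x hxs
  refine hgz x (y x) _ ?_ ?_ ?_
  · rw [subst_eval]; exact hyq x hxr
  · rw [subst_eval, subst_eval]
    have h1 := hconst x hxs
    have h2 : MvPolynomial.eval (z x) A * Complex.exp x = κ * MvPolynomial.eval (z x) B := by
      rw [← h1, hF]
      simp only
      field_simp
    have h3 : MvPolynomial.eval (z x) B = κ⁻¹ * Complex.exp x * MvPolynomial.eval (z x) A := by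
      field_simp
      linear_combination -h2
    exact h3
  · rw [subst_eval]; exact hxA

end Helper112.Pf
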