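import Mathlib
import Pool.Agent.Helper112.Pf.Defs
import Pool.Agent.Helper112.Pf.JNull
import Pool.Agent.Helper112.Pf.JNotDvdDeg
import Pool.Agent.Helper112.Pf.JOde

set_option autoImplicit false

namespace Helper112.Pf

open MeasureTheory

theorem twoterm {n : ℕ} (q : MvPolynomial (Fin n) ℂ) (hq : Irreducible q)
    (A B : MvPolynomial (Fin n) ℂ) (τ : Fin n → ℂ) (hA : ¬ q ∣ A) (hB : ¬ q ∣ B) (j k : Fin n)
    (h : ∀ ζ : Fin n → ℂ, MvPolynomial.eval ζ q = 0 → MvPolynomial.eval ζ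
      (B * (MvPolynomial.pderiv k q * MvPolynomial.pderiv j A - MvPolynomial.pderiv j q * MvPolynomial.pderiv k A)
        - A * (MvPolynomial.pderiv k q * MvPolynomial.pderiv j B - MvPolynomial.pderiv j q * MvPolynomial.pderiv k B)
        + (MvPolynomial.C (τ j) * MvPolynomial.pderiv k q - MvPolynomial.C (τ k) * MvPolynomial.pderiv j q) * A * B) = 0) :
    MvPolynomial.C (τ j) * MvPolynomial.pderiv k q = MvPolynomial.C (τ k) * MvPolynomial.pderiv j q := by
  by_contra hne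
  have hne' : MvPolynomial.C (τ j) * MvPolynomial.pderiv k q - MvPolynomial.C (τ k) * MvPolynomial.pderiv j q ≠ 0 :=
    sub_ne_zero.mpr hne
  have h1 := not_dvd_deg q hq (τ j) (τ k) j k hne'
  have hp : Prime q := hq.prime
  have h2 : ¬ q ∣ A * B * (MvPolynomial.C (τ j) * MvPolynomial.pderiv k q - MvPolynomial.C (τ k) * MvPolynomial.pderiv j q) := by
    intro hd
    rcases hp.dvd_or_dvd hd with hd | hd
    · rcases hp.dvd_or_dvd hd with hd | hd
      · exact hA hd
      · exact hB hd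
    · exact h1 hd
  have h3 : ∃ ζ : Fin n → ℂ, MvPolynomial.eval ζ q = 0 ∧ MvPolynomial.eval ζ
      (A * B * (MvPolynomial.C (τ j) * MvPolynomial.pderiv k q - MvPolynomial.C (τ k) * MvPolynomial.pderiv j q)) ≠ 0 := by
    by_contra hcon
    push Not at hcon
    exact h2 (null q _ hq hcon)
  obtain ⟨ζ0, hz, hnz⟩ := h3
  rw [map_mul, map_mul] at hnz
  have hA0 : MvPolynomial.eval ζ0 A ≠ 0 := fun e => hnz (by rw [e]; ring)
  have hB0 : MvPolynomial.eval ζ0 B ≠ 0 := fun e => hnz (by rw [e]; ring)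
  have hR0 : MvPolynomial.eval ζ0 (MvPolynomial.C (τ j) * MvPolynomial.pderiv k q - MvPolynomial.C (τ k) * MvPolynomial.pderiv j q) ≠ 0 :=
    fun e => hnz (by rw [e]; ring)
  exact ode q A B τ j k h ζ0 hz hA0 hB0 hR0

end Helper112.Pf
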