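import Mathlib
import Pool.Agent.Helper112.Pf.Defs
import Pool.Agent.Helper112.Pf.JNull
import Pool.Agent.Helper112.Pf.JTang
import Pool.Agent.Helper112.Pf.JTwoterm

set_option autoImplicit false

namespace Helper112.Pf

open MeasureTheory

/-! TO PROVE -/

theorem ritt_aux_27417 {n : ℕ} (q : MvPolynomial (Fin n) ℂ) (hq : Irreducible q)
    (F : Finset (Fin n → ℂ)) : ∀ (N : ℕ) (P : (Fin n → ℂ) → MvPolynomial (Fin n) ℂ),
    (∃ S : Finset (Fin n → ℂ), S.card = N ∧ ∀ v ∈ F, ¬ q ∣ P v → v ∈ S) →
    (∀ ζ : Fin n → ℂ, MvPolynomial.eval ζ q = 0 →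
      ∑ v ∈ F, MvPolynomial.eval ζ (P v) * Complex.exp (∑ i, v i * ζ i) = 0) →
    (∃ v ∈ F, ¬ q ∣ P v) →
    ∃ v ∈ F, ∃ v' ∈ F, v ≠ v' ∧ ∀ j k : Fin n,
      MvPolynomial.C (v j - v' j) * MvPolynomial.pderiv k q = MvPolynomial.C (v k - v' k) * MvPolynomial.pderiv j q := by
  classical
  intro N
  induction N using Nat.strong_induction_on with
  | _ N IH =>
  intro P hN h hP
  obtain ⟨v0, hv0, hq0⟩ := hP
  by_cases h1 : ∃ v1 ∈ F, v1 ≠ v0 ∧ ¬ q ∣ P v1
  · obtain ⟨v1, hv1, hne, hq1⟩ := h1
    by_cases hA : ∀ j k : Fin n, ∀ v ∈ F, q ∣ P v0 * (MvPolynomial.pderiv k q *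
        (MvPolynomial.pderiv j (P v) + MvPolynomial.C (v j) * P v)
          - MvPolynomial.pderiv j q * (MvPolynomial.pderiv k (P v) + MvPolynomial.C (v k) * P v)) -
        P v * (MvPolynomial.pderiv k q *
        (MvPolynomial.pderiv j (P v0) + MvPolynomial.C (v0 j) * P v0)
          - MvPolynomial.pderiv j q *
            (MvPolynomial.pderiv k (P v0) + MvPolynomial.C (v0 k) * P v0))
    · refine ⟨v1, hv1, v0, hv0, hne, ?_⟩
      intro j k
      refine twoterm q hq (P v1) (P v0) (fun i => v1 i - v0 i) hq1 hq0 j k ?_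
      intro ζ hζ
      obtain ⟨s, hs⟩ := hA j k v1 hv1
      have h2 : P v0 * (MvPolynomial.pderiv k q * MvPolynomial.pderiv j (P v1) -
          MvPolynomial.pderiv j q * MvPolynomial.pderiv k (P v1))
        - P v1 * (MvPolynomial.pderiv k q * MvPolynomial.pderiv j (P v0) -
          MvPolynomial.pderiv j q * MvPolynomial.pderiv k (P v0))
        + (MvPolynomial.C (v1 j - v0 j) * MvPolynomial.pderiv k q -
          MvPolynomial.C (v1 k - v0 k) * MvPolynomial.pderiv j q) * P v1 * P v0 = q * s := by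
        rw [← hs, MvPolynomial.C_sub, MvPolynomial.C_sub]
        ring
      show MvPolynomial.eval ζ (P v0 * (MvPolynomial.pderiv k q * MvPolynomial.pderiv j (P v1) -
          MvPolynomial.pderiv j q * MvPolynomial.pderiv k (P v1))
        - P v1 * (MvPolynomial.pderiv k q * MvPolynomial.pderiv j (P v0) -
          MvPolynomial.pderiv j q * MvPolynomial.pderiv k (P v0))
        + (MvPolynomial.C (v1 j - v0 j) * MvPolynomial.pderiv k q -
          MvPolynomial.C (v1 k - v0 k) * MvPolynomial.pderiv j q) * P v1 * P v0) = 0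
      rw [h2, map_mul, hζ, zero_mul]
    · push Not at hA
      obtain ⟨j, k, v2, hv2, hq2⟩ := hA
      set P2 : (Fin n → ℂ) → MvPolynomial (Fin n) ℂ := fun v => P v0 * (MvPolynomial.pderiv k q *
        (MvPolynomial.pderiv j (P v) + MvPolynomial.C (v j) * P v)
          - MvPolynomial.pderiv j q * (MvPolynomial.pderiv k (P v) + MvPolynomial.C (v k) * P v)) -
        P v * (MvPolynomial.pderiv k q *
        (MvPolynomial.pderiv j (P v0) + MvPolynomial.C (v0 j) * P v0)
          - MvPolynomial.pderiv j q *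
            (MvPolynomial.pderiv k (P v0) + MvPolynomial.C (v0 k) * P v0)) with hP2
      have hdiv : ∀ v, q ∣ P v → q ∣ P2 v := by
        rintro v ⟨s, hs⟩
        have h3 : ∀ i : Fin n, MvPolynomial.pderiv i (q * s) =
            MvPolynomial.pderiv i q * s + q * MvPolynomial.pderiv i s := by
          intro i
          exact MvPolynomial.pderiv_mul
        refine ⟨P v0 * (MvPolynomial.pderiv k q * (MvPolynomial.pderiv j s +
            MvPolynomial.C (v j) * s) - MvPolynomial.pderiv j q * (MvPolynomial.pderiv k s +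
            MvPolynomial.C (v k) * s)) - s * (MvPolynomial.pderiv k q *
            (MvPolynomial.pderiv j (P v0) + MvPolynomial.C (v0 j) * P v0)
            - MvPolynomial.pderiv j q *
            (MvPolynomial.pderiv k (P v0) + MvPolynomial.C (v0 k) * P v0)), ?_⟩
        show P v0 * (MvPolynomial.pderiv k q *
        (MvPolynomial.pderiv j (P v) + MvPolynomial.C (v j) * P v)
          - MvPolynomial.pderiv j q * (MvPolynomial.pderiv k (P v) + MvPolynomial.C (v k) * P v)) -
        P v * (MvPolynomial.pderiv k q *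
        (MvPolynomial.pderiv j (P v0) + MvPolynomial.C (v0 j) * P v0)
          - MvPolynomial.pderiv j q *
            (MvPolynomial.pderiv k (P v0) + MvPolynomial.C (v0 k) * P v0)) = _
        rw [hs, h3, h3]
        ring
      have hzero : P2 v0 = 0 := by
        show P v0 * _ - P v0 * _ = 0
        exact sub_self _
      obtain ⟨S, hSN, hS⟩ := hN
      have hsub : ∀ v ∈ F, ¬ q ∣ P2 v → v ∈ S.erase v0 := by
        intro v hv hv2
        rw [Finset.mem_erase]
        refine ⟨?_, hS v hv fun h4 => hv2 (hdiv v h4)⟩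
        rintro rfl
        apply hv2
        rw [hzero]
        exact dvd_zero q
      have hlt : (S.erase v0).card < N := by
        rw [← hSN]
        exact Finset.card_erase_lt_of_mem (hS v0 hv0 hq0)
      refine IH _ hlt P2 ⟨S.erase v0, rfl, hsub⟩ ?_ ⟨v2, hv2, hq2⟩
      · intro ζ hζ
        have h7 := tang q F P h j k ζ hζ
        have h8 := h ζ hζ
        have h9 : ∀ v ∈ F, MvPolynomial.eval ζ (P2 v) * Complex.exp (∑ i, v i * ζ i) =
            MvPolynomial.eval ζ (P v0) * (MvPolynomial.eval ζ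
        (MvPolynomial.pderiv k q * (MvPolynomial.pderiv j (P v) + MvPolynomial.C (v j) * P v)
          - MvPolynomial.pderiv j q * (MvPolynomial.pderiv k (P v) + MvPolynomial.C (v k) * P v))
        * Complex.exp (∑ i, v i * ζ i)) -
            MvPolynomial.eval ζ (MvPolynomial.pderiv k q *
        (MvPolynomial.pderiv j (P v0) + MvPolynomial.C (v0 j) * P v0)
          - MvPolynomial.pderiv j q *
            (MvPolynomial.pderiv k (P v0) + MvPolynomial.C (v0 k) * P v0)) *
            (MvPolynomial.eval ζ (P v) * Complex.exp (∑ i, v i * ζ i)) := by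
          intro v _
          rw [hP2]
          simp only [map_sub, map_mul, map_add]
          ring
        rw [Finset.sum_congr rfl h9, Finset.sum_sub_distrib, ← Finset.mul_sum, ← Finset.mul_sum,
          h7, h8, mul_zero, mul_zero, sub_zero]
  · exfalso
    push Not at h1
    apply hq0
    apply null q (P v0) hq
    intro ζ hζ
    have h8 := h ζ hζ
    rw [Finset.sum_eq_single v0] at h8
    · rcases mul_eq_zero.mp h8 with h9 | h9
      · exact h9
      · exact absurd h9 (Complex.exp_ne_zero _)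
    · intro v hv hne
      obtain ⟨s, hs⟩ := h1 v hv hne
      rw [hs, map_mul, hζ, zero_mul, zero_mul]
    · intro h9
      exact absurd hv0 h9

theorem ritt {n : ℕ} (q : MvPolynomial (Fin n) ℂ) (hq : Irreducible q) (F : Finset (Fin n → ℂ))
    (P : (Fin n → ℂ) → MvPolynomial (Fin n) ℂ)
    (h : ∀ ζ : Fin n → ℂ, MvPolynomial.eval ζ q = 0 →
      ∑ v ∈ F, MvPolynomial.eval ζ (P v) * Complex.exp (∑ i, v i * ζ i) = 0)
    (hP : ∃ v ∈ F, ¬ q ∣ P v) :
    ∃ v ∈ F, ∃ v' ∈ F, v ≠ v' ∧ ∀ j k : Fin n,
      MvPolynomial.C (v j - v' j) * MvPolynomial.pderiv k q = MvPolynomial.C (v k - v' k) * MvPolynomial.pderiv j q :=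
  ritt_aux_27417 q hq F _ P ⟨F, rfl, fun _ hv _ => hv⟩ h hP

end Helper112.Pf

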