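import Mathlib
import Pool.Agent.Helper112.Pf.Defs
import Pool.Agent.Helper112.Pf.JFtPos
import Pool.Agent.Helper112.Pf.JComb
import Pool.Agent.Helper112.Pf.JHomDiv
import Pool.Agent.Helper112.Pf.JHyper
import Pool.Agent.Helper112.Pf.JRitt

set_option autoImplicit false

namespace Helper112.Pf

open MeasureTheory



/-! TO PROVE -/

theorem irr_zero {n : ℕ} (K : Set (Fin n → ℝ)) (hK : IsBody K) (hE : ExpForm K)
    (q : MvPolynomial (Fin n) ℂ) (hq : Irreducible q)
    (h : ∀ ζ : Fin n → ℂ, MvPolynomial.eval ζ q = 0 → FT K ζ = 0) :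
    ∃ (a : Fin n → ℝ) (c : ℂ), a ≠ 0 ∧ ∀ ζ : Fin n → ℂ, ∑ i, (a i : ℂ) * ζ i = c → FT K ζ = 0 := by
  obtain ⟨d, Q, F, P, hQ, hP, hv, hform⟩ := comb K hE
  have hsum : ∀ ζ : Fin n → ℂ, MvPolynomial.eval ζ q = 0 →
      ∑ v ∈ F, MvPolynomial.eval ζ (P v) * Complex.exp (∑ i, v i * ζ i) = 0 := by
    intro ζ hζ
    rw [← hform, h ζ hζ, mul_zero]
  have hex : ∃ v ∈ F, ¬ q ∣ P v := by
    by_contra hno
    push Not at hno
    by_cases hz : ∃ v ∈ F, P v ≠ 0
    · obtain ⟨v, hvF, hne⟩ := hz
      have h1 := hom_div q (P v) d (hP v hvF) hne hq (hno v hvF)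
      have h2 := h _ h1
      have h3 := FT_pos K hK (fun _ => 0)
      apply h3
      have e : (fun i : Fin n => Complex.I * (((fun _ : Fin n => (0 : ℝ)) i : ℝ) : ℂ)) =
          fun _ => (0 : ℂ) := by
        funext i; simp
      rw [e]
      exact h2
    · push Not at hz
      apply hQ
      refine MvPolynomial.funext_set (fun _ : Fin n => Set.range fun t : ℝ => Complex.I * (t : ℂ)) ?_ ?_
      · intro i
        refine Set.infinite_range_of_injective fun a b hab => ?_
        have h1 := mul_left_cancel₀ Complex.I_ne_zero hab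
        exact_mod_cast h1
      · intro x hx
        rw [Set.mem_univ_pi] at hx
        choose η hη using hx
        have hxe : x = fun i => Complex.I * (η i : ℂ) := by
          funext i; exact (hη i).symm
        rw [hxe, map_zero]
        have h1 := hform (fun i => Complex.I * (η i : ℂ))
        rw [Finset.sum_eq_zero (fun v hvF => by rw [hz v hvF, map_zero, zero_mul])] at h1
        exact (mul_eq_zero.1 h1).resolve_right (FT_pos K hK η)
  obtain ⟨v, hvF, v1, hv1F, hne, hprop⟩ := ritt q hq F P hsum hex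
  have hτ : (fun i => v i - v1 i) ≠ 0 := by
    intro h0
    apply hne
    funext i
    exact sub_eq_zero.1 (congrFun h0 i)
  obtain ⟨c, hc⟩ := hyper q hq (fun i => v i - v1 i) hτ hprop
  obtain ⟨y, hy⟩ := hv v hvF
  obtain ⟨y1, hy1⟩ := hv v1 hv1F
  refine ⟨fun i => y i - y1 i, Complex.I * c, ?_, ?_⟩
  · intro h0
    apply hne
    funext i
    have h1 : y i = y1 i := sub_eq_zero.1 (congrFun h0 i)
    rw [hy, hy1, h1]
  · intro ζ hζ
    apply h
    apply hc
    have h1 : ∑ i, (v i - v1 i) * ζ i = -Complex.I * ∑ i, ((y i - y1 i : ℝ) : ℂ) * ζ i := by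
      rw [Finset.mul_sum]
      refine Finset.sum_congr rfl fun i _ => ?_
      rw [hy, hy1]
      push_cast
      ring
    rw [h1, hζ, ← mul_assoc]
    rw [neg_mul, Complex.I_mul_I]
    ring

end Helper112.Pf
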