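import Mathlib
import Pool.Agent.Helper112.Pf.Defs
import Pool.Agent.Helper112.Pf.JIrrZero
import Pool.Agent.Helper112.Pf.JLinearPrism

set_option autoImplicit false

namespace Helper112.Pf

open MeasureTheory



/-! TO PROVE -/

theorem poly_prism {n : ℕ} (K : Set (Fin n → ℝ)) (hK : IsBody K) (hE : ExpForm K)
    (p : MvPolynomial (Fin n) ℂ) (hp : p.totalDegree ≠ 0) (h : HasFactor p K) : IsPrism K := by
  have hp0 : p ≠ 0 := by
    rintro rfl
    simp at hp
  have hu : ¬ IsUnit p := by
    intro hu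
    obtain ⟨q, hq⟩ := hu.exists_right_inv
    have hq0 : q ≠ 0 := by
      rintro rfl
      simp at hq
    have h1 := MvPolynomial.totalDegree_mul_of_isDomain hp0 hq0
    rw [hq] at h1
    simp only [MvPolynomial.totalDegree_one] at h1
    omega
  obtain ⟨q, hq, hqp⟩ := WfDvdMonoid.exists_irreducible_factor hu hp0
  obtain ⟨f, -, hf⟩ := h
  obtain ⟨a, c, ha, hac⟩ := irr_zero K hK hE q hq (by
    intro ζ hζ
    obtain ⟨r, rfl⟩ := hqp
    rw [hf, map_mul, hζ]
    simp)
  exact linear_prism K hK a ha c hac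

end Helper112.Pf
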