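import Mathlib
import Pool.Agent.Helper112.Pf.Defs

set_option autoImplicit false

namespace Helper112.Pf

open MeasureTheory



/-! TO PROVE -/

theorem prism_null {n : ℕ} (v l : Fin n → ℝ) (c : ℝ) (hlv : (∑ i, l i * v i) ≠ 0) :
    volume {x : Fin n → ℝ | ∑ i, l i * x i = c} = 0 := by
  let L : (Fin n → ℝ) →ₗ[ℝ] ℝ :=
    { toFun := fun x => ∑ i, l i * x i
      map_add' := fun x y => by
        simp only [Pi.add_apply, mul_add, Finset.sum_add_distrib]
      map_smul' := fun r x => by
        simp only [Pi.smul_apply, smul_eq_mul, RingHom.id_apply, Finset.mul_sum]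
        exact Finset.sum_congr rfl fun i _ => by ring }
  have hL : ∀ x, L x = ∑ i, l i * x i := fun x => rfl
  rcases Set.eq_empty_or_nonempty {x : Fin n → ℝ | ∑ i, l i * x i = c} with h | ⟨x0, hx0⟩
  · rw [h]; exact measure_empty
  · have h1 : {x : Fin n → ℝ | ∑ i, l i * x i = c}
        = (fun x => x + (-x0)) ⁻¹' (LinearMap.ker L : Set (Fin n → ℝ)) := by
      ext x
      simp only [Set.mem_setOf_eq, Set.mem_preimage, SetLike.mem_coe, LinearMap.mem_ker]
      rw [map_add, map_neg, hL, hL]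
      have : ∑ i, l i * x0 i = c := hx0
      rw [this]
      constructor
      · intro h; rw [h]; ring
      · intro h; linarith
    rw [h1, measure_preimage_add_right]
    apply Measure.addHaar_submodule
    intro htop
    have h2 : v ∈ LinearMap.ker L := by rw [htop]; trivial
    exact hlv (LinearMap.mem_ker.1 h2)

theorem prism_vanish {n : ℕ} (K : Set (Fin n → ℝ)) (hK : IsBody K) (C : Set (Fin n → ℝ))
    (v l : Fin n → ℝ) (s : ℝ) (hlv : (∑ i, l i * v i) ≠ 0) (hC : ∀ y ∈ C, ∑ i, l i * y i = s)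
    (hKC : K = {x | ∃ y ∈ C, ∃ t ∈ Set.Icc (0:ℝ) 1, x = y + t • v}) (ζ : Fin n → ℂ)
    (hζ : ∑ i, (v i : ℂ) * ζ i = 2 * Real.pi) : FT K ζ = 0 := by
  set lam := ∑ i, l i * v i with hlam
  set T : (Fin n → ℝ) → ℝ := fun x => (∑ i, l i * x i - s) / lam with hT
  have hTc : Continuous T := by
    rw [hT]; fun_prop
  have hTadd : ∀ (x : Fin n → ℝ) (t : ℝ), T (x + t • v) = T x + t := by
    intro x t
    simp only [hT, Pi.add_apply, Pi.smul_apply, smul_eq_mul, mul_add, Finset.sum_add_distrib]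
    have h1 : ∑ i, l i * (t * v i) = t * lam := by
      rw [hlam, Finset.mul_sum]
      exact Finset.sum_congr rfl fun i _ => by ring
    rw [h1]
    field_simp
    ring
  have hTC : ∀ y ∈ C, T y = 0 := by
    intro y hy
    simp only [hT]
    rw [hC y hy, sub_self, zero_div]
  have hmem : ∀ x, x ∈ K ↔ (0 ≤ T x ∧ T x ≤ 1) ∧ x + (-T x) • v ∈ C := by
    intro x
    rw [hKC]
    constructor
    · rintro ⟨y, hy, t, ht, rfl⟩
      have h1 : T (y + t • v) = t := by rw [hTadd, hTC y hy, zero_add]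
      rw [h1]
      refine ⟨ht, ?_⟩
      have h2 : y + t • v + (-t) • v = y := by rw [neg_smul, add_neg_cancel_right]
      rw [h2]; exact hy
    · rintro ⟨h1, h2⟩
      refine ⟨_, h2, T x, h1, ?_⟩
      rw [neg_smul, neg_add_cancel_right]
  set f : (Fin n → ℝ) → ℂ := fun x => Complex.exp (-(Complex.I * ∑ i, (x i : ℂ) * ζ i)) with hf
  have hfc : Continuous f := by rw [hf]; fun_prop
  have hKm : MeasurableSet K := hK.1.measurableSet
  have hint : IntegrableOn f K := hfc.continuousOn.integrableOn_compact hK.1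
  set A : Set (Fin n → ℝ) := {x | T x < 1 / 2} with hA
  have hAm : MeasurableSet A := (isOpen_lt hTc continuous_const).measurableSet
  set K1 : Set (Fin n → ℝ) := (K \ A) ∩ {x | T x < 1} with hK1
  have hK1m : MeasurableSet K1 :=
    (hKm.diff hAm).inter (isOpen_lt hTc continuous_const).measurableSet
  have hsplit := integral_inter_add_sdiff hAm hint
  have hnull : volume {x : Fin n → ℝ | T x = 1} = 0 := by
    have h1 : {x : Fin n → ℝ | T x = 1} = {x : Fin n → ℝ | ∑ i, l i * x i = s + lam} := by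
      ext x
      simp only [Set.mem_setOf_eq, hT]
      rw [div_eq_one_iff_eq hlv]
      constructor
      · intro h; linarith
      · intro h; linarith
    rw [h1]
    exact prism_null v l _ hlv
  have hae : (K \ A : Set (Fin n → ℝ)) =ᵐ[volume] K1 := by
    have h1 : ∀ᵐ x : Fin n → ℝ, T x ≠ 1 := by
      rw [ae_iff]
      simpa using hnull
    filter_upwards [h1] with x hx
    apply propext
    constructor
    · intro h
      exact ⟨h, lt_of_le_of_ne ((hmem x).1 h.1).1.2 hx⟩
    · intro h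
      exact h.1
  have hpre : ∀ x, x + (1 / 2 : ℝ) • v ∈ K1 ↔ x ∈ K ∩ A := by
    intro x
    have hTx := hTadd x (1 / 2)
    have hproj : x + (1 / 2 : ℝ) • v + (-T (x + (1 / 2 : ℝ) • v)) • v = x + (-T x) • v := by
      rw [hTx, neg_add, add_smul, neg_smul (1 / 2 : ℝ)]
      abel
    simp only [hK1, hA, Set.mem_inter_iff, Set.mem_diff, Set.mem_setOf_eq]
    rw [hmem, hmem, hproj, hTx]
    constructor
    · rintro ⟨⟨⟨⟨h1, h2⟩, h3⟩, h4⟩, h5⟩
      exact ⟨⟨⟨by linarith, by linarith⟩, h3⟩, by linarith⟩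
    · rintro ⟨⟨⟨h1, h2⟩, h3⟩, h4⟩
      exact ⟨⟨⟨⟨by linarith, by linarith⟩, h3⟩, by linarith⟩, by linarith⟩
  have hshift : ∀ x, f (x + (1 / 2 : ℝ) • v) = - f x := by
    intro x
    simp only [hf]
    have h1 : -(Complex.I * ∑ i, (((x + (1 / 2 : ℝ) • v) i : ℝ) : ℂ) * ζ i)
        = -(Complex.I * ∑ i, (x i : ℂ) * ζ i) + -(Real.pi * Complex.I) := by
      have h2 : ∑ i, (((x + (1 / 2 : ℝ) • v) i : ℝ) : ℂ) * ζ i
          = ∑ i, (x i : ℂ) * ζ i + (1 / 2) * ∑ i, (v i : ℂ) * ζ i := by
        rw [Finset.mul_sum, ← Finset.sum_add_distrib]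
        refine Finset.sum_congr rfl fun i _ => ?_
        simp only [Pi.add_apply, Pi.smul_apply, smul_eq_mul]
        push_cast
        ring
      rw [h2, hζ]
      ring
    rw [h1, Complex.exp_add, Complex.exp_neg (Real.pi * Complex.I), Complex.exp_pi_mul_I]
    norm_num
  have hK1int : ∫ x in K1, f x = - ∫ x in K ∩ A, f x := by
    rw [← integral_indicator hK1m, ← integral_indicator (hKm.inter hAm), ← integral_neg,
      ← integral_add_right_eq_self (K1.indicator f) ((1 / 2 : ℝ) • v)]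
    congr 1
    funext x
    by_cases hx : x ∈ K ∩ A
    · rw [Set.indicator_of_mem hx, Set.indicator_of_mem ((hpre x).2 hx), hshift]
    · rw [Set.indicator_of_notMem hx, Set.indicator_of_notMem (fun h => hx ((hpre x).1 h)),
        neg_zero]
  show ∫ x in K, f x = 0
  rw [← hsplit, setIntegral_congr_set hae, hK1int, add_neg_cancel]

end Helper112.Pf
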