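import Mathlib
import Pool.Agent.Helper112.Pf.Defs
import Pool.Agent.Helper112.Pf.JFtDiff
import Pool.Agent.Helper112.Pf.JDegOne
import Pool.Agent.Helper112.Pf.JDivLinear
import Pool.Agent.Helper112.Pf.JPrismVanish

set_option autoImplicit false

namespace Helper112.Pf

open MeasureTheory



/-! TO PROVE -/

theorem prism_factor {n : ℕ} (K : Set (Fin n → ℝ)) (hK : IsBody K) (h : IsPrism K) :
    ∃ p : MvPolynomial (Fin n) ℂ, p.totalDegree = 1 ∧ HasFactor p K := by
  obtain ⟨C, v, l, s, hlv, hC, hKC⟩ := h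
  have hv : (fun i => (v i : ℂ)) ≠ 0 := by
    intro h0
    apply hlv
    apply Finset.sum_eq_zero
    intro i _
    have h1 := congrFun h0 i
    have h2 : v i = 0 := by simpa using h1
    rw [h2, mul_zero]
  obtain ⟨f, hf, hfe⟩ := div_linear (FT K) (FT_diff K hK.1) (fun i => (v i : ℂ)) hv (2 * Real.pi)
    (fun ζ hζ => prism_vanish K hK C v l s hlv hC hKC ζ hζ)
  obtain ⟨p, hp, hpe⟩ := deg_one_mk (fun i => (v i : ℂ)) hv (2 * Real.pi)
  refine ⟨p, hp, f, hf, fun ζ => ?_⟩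
  rw [hfe, hpe]

end Helper112.Pf
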