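import Mathlib
import Pool.Agent.Helper112.Pf.Defs
import Pool.Agent.Helper112.Pf.JExpformPh
import Pool.Agent.Helper112.Pf.JPrismFactor
import Pool.Agent.Helper112.Pf.JFactorPrism
import Pool.Agent.Helper112.Pf.JPolyPrism

set_option autoImplicit false

namespace Helper112.Pf

/-- `K` has a polynomial factor of degree one. -/
def HasLinearFactor {n : ℕ} (K : Set (Fin n → ℝ)) : Prop :=
  ∃ p : MvPolynomial (Fin n) ℂ, p.totalDegree = 1 ∧ HasFactor p K

/-- `K` has a (non-constant) polynomial factor. -/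
def HasPolyFactor {n : ℕ} (K : Set (Fin n → ℝ)) : Prop :=
  ∃ p : MvPolynomial (Fin n) ℂ, p.totalDegree ≠ 0 ∧ HasFactor p K

/-- `K` is a finite intersection of closed half-spaces `a·x ≤ b`. -/
def IsPolyhedral {n : ℕ} (K : Set (Fin n → ℝ)) : Prop :=
  ∃ L : List ((Fin n → ℝ) × ℝ), K = Ph L

theorem main_linear {n : ℕ} (K : Set (Fin n → ℝ)) (hK : IsBody K) :
    HasLinearFactor K ↔ IsPrism K := by
  constructor
  · rintro ⟨p, hp, h⟩
    exact factor_prism K hK p hp h
  · intro h
    exact prism_factor K hK h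

theorem main_poly {n : ℕ} (K : Set (Fin n → ℝ)) (hK : IsBody K) (hP : IsPolyhedral K) :
    HasPolyFactor K ↔ IsPrism K := by
  constructor
  · rintro ⟨p, hp, h⟩
    obtain ⟨L, rfl⟩ := hP
    exact poly_prism _ hK (expForm_Ph n L hK.1.isBounded) p hp h
  · intro h
    obtain ⟨p, hp, hf⟩ := prism_factor K hK h
    exact ⟨p, by rw [hp]; norm_num, hf⟩

end Helper112.Pf
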