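import Mathlib
import Pool.Agent.Helper112.Pf.Defs2

set_option autoImplicit false

namespace Helper112.Pf

open MeasureTheory





/-! TO PROVE -/

theorem FT_bot (K : Set (Fin 2 → ℝ)) (hK : IsBody K) (A B : ℝ) (lo hi : ℝ → ℝ) (h : Chord K A B lo hi)
    (s : ℂ) (T : ℝ) :
    FT K ![s, -(Complex.I * T)] =
      Complex.exp (-((T : ℂ) * A)) * Lap (fun u => lo (A + u)) (fun u => hi (A + u)) (B - A) s T := by
  classical
  obtain ⟨hAB, -, -, -, -, hle, -, hKe⟩ := h
  obtain ⟨g, hg⟩ : ∃ g : ℝ × ℝ → ℂ, g = fun p : ℝ × ℝ =>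
    Complex.exp (-(Complex.I * ((p.1 : ℂ) * s + (p.2 : ℂ) * (-(Complex.I * T))))) := ⟨_, rfl⟩
  obtain ⟨K', hK'⟩ : ∃ K' : Set (ℝ × ℝ), K' = {p : ℝ × ℝ | p.2 ∈ Set.Icc A B ∧ lo p.2 ≤ p.1 ∧
    p.1 ≤ hi p.2} := ⟨_, rfl⟩
  have hpre : K = (MeasurableEquiv.finTwoArrow (α := ℝ)) ⁻¹' K' := by
    rw [hKe, hK']
    rfl
  have hFT : FT K ![s, -(Complex.I * T)] = ∫ p in K', g p := by
    unfold FT
    have h1 := (MeasureTheory.volume_preserving_finTwoArrow ℝ).setIntegral_preimage_emb
      (MeasurableEquiv.measurableEmbedding _) g K'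
    rw [← h1, ← hpre]
    congr 1
    ext x
    simp only [hg, Fin.sum_univ_two]
    rfl
  have hcomp : IsCompact K' := by
    have : K' = (fun x : Fin 2 → ℝ => (x 0, x 1)) '' K := by
      ext p
      constructor
      · intro hp
        refine ⟨![p.1, p.2], ?_, ?_⟩
        · rw [hKe]
          rw [hK'] at hp
          simpa using hp
        · simp
      · rintro ⟨x, hx, rfl⟩
        rw [hKe] at hx
        rw [hK']
        exact hx
    rw [this]
    exact hK.1.image (by fun_prop)
  have hmeas : MeasurableSet K' := hcomp.measurableSet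
  have hgc : Continuous g := by
    rw [hg]
    fun_prop
  have hint : Integrable (K'.indicator g) := by
    rw [integrable_indicator_iff hmeas]
    exact hgc.continuousOn.integrableOn_compact hcomp
  have h1 : ∫ p in K', g p = ∫ y, ∫ x, K'.indicator g (x, y) := by
    rw [← integral_indicator hmeas]
    rw [Measure.volume_eq_prod ℝ ℝ] at hint ⊢
    exact integral_prod_symm _ hint
  have h2 : ∀ y : ℝ, ∫ x, K'.indicator g (x, y) = (Set.Icc A B).indicator
      (fun y : ℝ => Complex.exp (-((T:ℂ) * y)) *
        ∫ x in (lo y)..(hi y), Complex.exp (-(Complex.I * s * x))) y := by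
    intro y
    by_cases hy : y ∈ Set.Icc A B
    · rw [Set.indicator_of_mem hy]
      have h3 : (fun x => K'.indicator g (x, y)) = (Set.Icc (lo y) (hi y)).indicator
          (fun x : ℝ => Complex.exp (-((T:ℂ) * y)) * Complex.exp (-(Complex.I * s * x))) := by
        funext x
        by_cases hx : x ∈ Set.Icc (lo y) (hi y)
        · rw [Set.indicator_of_mem hx, Set.indicator_of_mem (show (x, y) ∈ K' by
            rw [hK']
            exact ⟨hy, hx.1, hx.2⟩)]
          rw [hg]
          show Complex.exp (-(Complex.I * ((x : ℂ) * s + (y : ℂ) * (-(Complex.I * T))))) = _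
          rw [← Complex.exp_add]
          congr 1
          have := Complex.I_mul_I
          linear_combination ((T:ℂ) * y) * this
        · rw [Set.indicator_of_notMem hx, Set.indicator_of_notMem]
          rw [hK']
          rintro ⟨-, h4, h5⟩
          exact hx ⟨h4, h5⟩
      rw [h3, integral_indicator measurableSet_Icc, MeasureTheory.integral_const_mul,
        intervalIntegral.integral_of_le (hle y hy), integral_Icc_eq_integral_Ioc]
    · rw [Set.indicator_of_notMem hy]
      have h3 : (fun x => K'.indicator g (x, y)) = fun _ => 0 := by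
        funext x
        rw [Set.indicator_of_notMem]
        rw [hK']
        rintro ⟨h4, -⟩
        exact hy h4
      rw [h3]
      simp
  have h2' : (fun y => ∫ x, K'.indicator g (x, y)) = (Set.Icc A B).indicator
      (fun y : ℝ => Complex.exp (-((T:ℂ) * y)) *
        ∫ x in (lo y)..(hi y), Complex.exp (-(Complex.I * s * x))) := funext h2
  rw [hFT, h1, h2', integral_indicator measurableSet_Icc, integral_Icc_eq_integral_Ioc,
    ← intervalIntegral.integral_of_le hAB.le]
  unfold Lap
  rw [← intervalIntegral.integral_const_mul]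
  have h5 := intervalIntegral.integral_comp_add_left (a := 0) (b := B - A)
    (fun y : ℝ => Complex.exp (-((T:ℂ) * y)) *
        ∫ x in (lo y)..(hi y), Complex.exp (-(Complex.I * s * x))) A
  rw [add_zero, add_sub_cancel] at h5
  rw [← h5]
  apply intervalIntegral.integral_congr
  intro u _
  show Complex.exp (-((T:ℂ) * ((A + u : ℝ) : ℂ))) *
    (∫ (x : ℝ) in lo (A + u)..hi (A + u), Complex.exp (-(Complex.I * s * ↑x))) =
    Complex.exp (-((T:ℂ) * (A : ℂ))) * (Complex.exp (-((T:ℂ) * (u : ℂ))) *
      ∫ (x : ℝ) in lo (A + u)..hi (A + u), Complex.exp (-(Complex.I * s * ↑x)))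
  rw [← mul_assoc, ← Complex.exp_add]
  congr 2
  push_cast
  ring


end Helper112.Pf
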