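import Mathlib
import Pool.Agent.Helper112.Pf.Defs2

set_option autoImplicit false

namespace Helper112.Pf

open MeasureTheory





/-! TO PROVE -/

theorem FT_top (K : Set (Fin 2 → ℝ)) (hK : IsBody K) (A B : ℝ) (lo hi : ℝ → ℝ) (h : Chord K A B lo hi)
    (s : ℂ) (T : ℝ) :
    FT K ![s, Complex.I * T] =
      Complex.exp ((T : ℂ) * B) * Lap (fun u => lo (B - u)) (fun u => hi (B - u)) (B - A) s T := by
  classical
  obtain ⟨hAB, -, -, -, -, hle, -, hKeq⟩ := h
  set F : (Fin 2 → ℝ) → ℂ := fun x =>
    Complex.exp (-(Complex.I * ∑ i, (x i : ℂ) * (![s, Complex.I * T] : Fin 2 → ℂ) i)) with hF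
  have hFc : Continuous F := by
    rw [hF]
    fun_prop
  have hFval : ∀ x : Fin 2 → ℝ, F x = Complex.exp ((T : ℂ) * x 1) *
      Complex.exp (-(Complex.I * s * x 0)) := by
    intro x
    simp only [hF, Fin.sum_univ_two, Matrix.cons_val_zero, Matrix.cons_val_one]
    rw [← Complex.exp_add]
    congr 1
    have : Complex.I * Complex.I = -1 := Complex.I_mul_I
    linear_combination (-(x 1 : ℂ) * T) * this
  have hKm : MeasurableSet K := hK.1.measurableSet
  have hint : Integrable (K.indicator F) := by
    rw [integrable_indicator_iff hKm]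
    exact hFc.continuousOn.integrableOn_compact hK.1
  have hmp := MeasureTheory.volume_preserving_finTwoArrow ℝ
  set g : ℝ × ℝ → ℂ := (K.indicator F) ∘ (MeasurableEquiv.finTwoArrow.symm : ℝ × ℝ → (Fin 2 → ℝ)) with hg
  have hgint : Integrable g (volume.prod volume) := by
    rw [← Measure.volume_eq_prod]
    exact (hmp.symm).integrable_comp_of_integrable hint
  have h1 : FT K ![s, Complex.I * T] = ∫ z, g z ∂(volume.prod volume) := by
    rw [← Measure.volume_eq_prod, ← hmp.integral_comp' g, FT, ← integral_indicator hKm]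
    apply integral_congr_ae
    refine Filter.Eventually.of_forall fun x => ?_
    simp only [hg, Function.comp_apply, MeasurableEquiv.symm_apply_apply]
    rfl
  rw [h1, integral_prod_symm g hgint]
  have hgval : ∀ x y : ℝ, g (x, y) = if (y ∈ Set.Icc A B ∧ lo y ≤ x ∧ x ≤ hi y) then
      Complex.exp ((T : ℂ) * y) * Complex.exp (-(Complex.I * s * x)) else 0 := by
    intro x y
    have h2 : (MeasurableEquiv.finTwoArrow.symm : ℝ × ℝ → (Fin 2 → ℝ)) (x, y) = ![x, y] := rfl
    simp only [hg, Function.comp_apply, h2]
    by_cases hxy : (y ∈ Set.Icc A B ∧ lo y ≤ x ∧ x ≤ hi y)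
    · rw [if_pos hxy, Set.indicator_of_mem, hFval]
      · simp
      · rw [hKeq]
        simpa using hxy
    · rw [if_neg hxy, Set.indicator_of_notMem]
      rw [hKeq]
      simpa using hxy
  have hinner : ∀ y : ℝ, ∫ x, g (x, y) = (Set.Icc A B).indicator (fun y => Complex.exp ((T : ℂ) * y) *
      ∫ x in (lo y)..(hi y), Complex.exp (-(Complex.I * s * x))) y := by
    intro y
    by_cases hy : y ∈ Set.Icc A B
    · rw [Set.indicator_of_mem hy]
      have h3 : (fun x => g (x, y)) = (Set.Icc (lo y) (hi y)).indicator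
          (fun x : ℝ => Complex.exp ((T : ℂ) * y) * Complex.exp (-(Complex.I * s * x))) := by
        funext x
        rw [hgval]
        by_cases hx : x ∈ Set.Icc (lo y) (hi y)
        · rw [if_pos ⟨hy, hx.1, hx.2⟩, Set.indicator_of_mem hx]
        · rw [if_neg (fun h => hx ⟨h.2.1, h.2.2⟩), Set.indicator_of_notMem hx]
      rw [h3, integral_indicator measurableSet_Icc, integral_const_mul,
        intervalIntegral.integral_of_le (hle y hy), integral_Icc_eq_integral_Ioc]
    · rw [Set.indicator_of_notMem hy]
      have h3 : (fun x => g (x, y)) = fun _ => 0 := by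
        funext x
        rw [hgval, if_neg (fun h => hy h.1)]
      rw [h3, integral_zero]
  simp only [hinner]
  rw [integral_indicator measurableSet_Icc, integral_Icc_eq_integral_Ioc,
    ← intervalIntegral.integral_of_le hAB.le]
  have h4 := intervalIntegral.integral_comp_sub_left (a := 0) (b := B - A)
    (fun y : ℝ => Complex.exp ((T : ℂ) * y) *
      ∫ x in (lo y)..(hi y), Complex.exp (-(Complex.I * s * x))) B
  rw [sub_zero, sub_sub_cancel] at h4
  rw [← h4, Lap, ← intervalIntegral.integral_const_mul]
  apply intervalIntegral.integral_congr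
  intro u _
  simp only
  rw [← mul_assoc, ← Complex.exp_add]
  congr 2
  push_cast
  ring
end Helper112.Pf
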