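import Mathlib
import Pool.Agent.Helper112.Pf.Defs2

set_option autoImplicit false

namespace Helper112.Pf

open MeasureTheory



/-! TO PROVE -/

theorem ev_limit_term (T β q : ℝ) (hT : 0 < T) (i j : ℕ) (c w lam : ℂ) :
    c * (((T ^ (-β) : ℝ) : ℂ) * w) ^ i * (lam * T) ^ j / ((T ^ q : ℝ) : ℂ) =
      (c * w ^ i * lam ^ j) * ((T ^ ((j : ℝ) - β * i - q) : ℝ) : ℂ) := by
  have h1 : T ^ ((j : ℝ) - β * i - q) = (T ^ (-β)) ^ i * T ^ j / T ^ q := by
    rw [Real.rpow_sub hT, sub_eq_add_neg, Real.rpow_add hT, Real.rpow_natCast,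
      ← Real.rpow_natCast (T ^ (-β)) i, ← Real.rpow_mul hT.le]
    rw [neg_mul]
    ring
  rw [h1]
  push_cast
  rw [mul_pow, mul_pow]
  ring

theorem ev_limit (c : ℕ → ℕ → ℂ) (M μ D : ℕ) (β : ℝ) (hP : Pivot c M μ D β) (lam w : ℂ) :
    Filter.Tendsto (fun T : ℝ => ev c M (((T ^ (-β) : ℝ) : ℂ) * w) (lam * T) / ((T ^ ((D : ℝ) - β * μ) : ℝ) : ℂ))
      Filter.atTop (nhds (Rl c M μ D β lam w)) := by
  classical
  have heq : (fun T : ℝ => ∑ i ∈ Finset.range M, ∑ j ∈ Finset.range M,
      (c i j * w ^ i * lam ^ j) * ((T ^ ((j : ℝ) - β * i - ((D : ℝ) - β * μ)) : ℝ) : ℂ))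
      =ᶠ[Filter.atTop] (fun T : ℝ => ev c M (((T ^ (-β) : ℝ) : ℂ) * w) (lam * T) /
        ((T ^ ((D : ℝ) - β * μ) : ℝ) : ℂ)) := by
    filter_upwards [Filter.eventually_gt_atTop (0 : ℝ)] with T hT
    unfold ev
    rw [Finset.sum_div]
    refine Finset.sum_congr rfl fun i _ => ?_
    rw [Finset.sum_div]
    refine Finset.sum_congr rfl fun j _ => ?_
    rw [ev_limit_term T β _ hT]
  refine Filter.Tendsto.congr' heq ?_
  unfold Rl
  obtain ⟨hμ, hD, hc0, h4, h5, h6, -⟩ := hP
  refine tendsto_finsetSum _ fun i hi => tendsto_finsetSum _ fun j hj => ?_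
  rw [Finset.mem_range] at hi hj
  by_cases hc : c i j = 0
  · simp [hc]
  · by_cases hcond : β * ((μ : ℝ) - i) = (D : ℝ) - j
    · rw [if_pos hcond]
      have he : (j : ℝ) - β * i - ((D : ℝ) - β * μ) = 0 := by linarith
      simp only [he, Real.rpow_zero, Complex.ofReal_one, mul_one]
      exact tendsto_const_nhds
    · rw [if_neg hcond]
      have he : (j : ℝ) - β * i - ((D : ℝ) - β * μ) < 0 := by
        have hne : (j : ℝ) - β * i - ((D : ℝ) - β * μ) ≠ 0 := fun h => hcond (by linarith)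
        refine lt_of_le_of_ne ?_ hne
        rcases lt_trichotomy i μ with h | h | h
        · have := h4 i j h hj hc
          linarith
        · subst h
          have := h6 j hj hc
          have : (j : ℝ) ≤ D := by exact_mod_cast this
          linarith
        · have := h5 i j h hi hj hc
          linarith
      have h1 : Filter.Tendsto (fun T : ℝ => T ^ ((j : ℝ) - β * i - ((D : ℝ) - β * μ)))
          Filter.atTop (nhds 0) := by
        have := tendsto_rpow_neg_atTop (neg_pos.mpr he)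
        rwa [neg_neg] at this
      have h2 : Filter.Tendsto (fun T : ℝ =>
          ((T ^ ((j : ℝ) - β * i - ((D : ℝ) - β * μ)) : ℝ) : ℂ)) Filter.atTop (nhds 0) := by
        have := (Complex.continuous_ofReal.tendsto 0).comp h1
        rw [Complex.ofReal_zero] at this
        exact this
      have h3 := h2.const_mul (c i j * w ^ i * lam ^ j)
      rwa [mul_zero] at h3


end Helper112.Pf
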