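import Mathlib
import Pool.Agent.Helper112.Pf.Defs2

set_option autoImplicit false

namespace Helper112.Pf

open MeasureTheory



/-! TO PROVE -/

open Classical in
/-- the edge polynomial as a polynomial -/
noncomputable def RlRootQ (c : ℕ → ℕ → ℂ) (M μ D : ℕ) (β : ℝ) (lam : ℂ) : Polynomial ℂ :=
  ∑ i ∈ Finset.range M, ∑ j ∈ Finset.range M,
    if β * ((μ : ℝ) - i) = (D : ℝ) - j then
      Polynomial.C (c i j * lam ^ j) * Polynomial.X ^ i else 0

theorem Rl_root_eval (c : ℕ → ℕ → ℂ) (M μ D : ℕ) (β : ℝ) (lam w : ℂ) :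
    (RlRootQ c M μ D β lam).eval w = Rl c M μ D β lam w := by
  unfold RlRootQ Rl
  rw [Polynomial.eval_finsetSum]
  refine Finset.sum_congr rfl fun i _ => ?_
  rw [Polynomial.eval_finsetSum]
  refine Finset.sum_congr rfl fun j _ => ?_
  split_ifs
  · simp only [Polynomial.eval_mul, Polynomial.eval_C, Polynomial.eval_pow, Polynomial.eval_X]
    ring
  · simp

theorem Rl_root_coeff (c : ℕ → ℕ → ℂ) (M μ D : ℕ) (β : ℝ) (lam : ℂ) (n j0 : ℕ) (hn : n < M)
    (hj : j0 < M) (he : β * ((μ : ℝ) - n) = (D : ℝ) - j0) :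
    (RlRootQ c M μ D β lam).coeff n = c n j0 * lam ^ j0 := by
  unfold RlRootQ
  rw [Polynomial.finsetSum_coeff, Finset.sum_eq_single n]
  · rw [Polynomial.finsetSum_coeff, Finset.sum_eq_single j0]
    · rw [if_pos he, Polynomial.coeff_C_mul_X_pow, if_pos rfl]
    · intro j _ hjne
      rw [if_neg]
      · simp
      · intro h
        apply hjne
        have h1 : (j : ℝ) = j0 := by linarith
        exact_mod_cast h1
    · intro h
      exact absurd (Finset.mem_range.mpr hj) h
  · intro i _ hi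
    rw [Polynomial.finsetSum_coeff]
    refine Finset.sum_eq_zero fun j _ => ?_
    split_ifs
    · rw [Polynomial.coeff_C_mul_X_pow, if_neg (Ne.symm hi)]
    · simp
  · intro h
    exact absurd (Finset.mem_range.mpr hn) h

theorem Rl_root (c : ℕ → ℕ → ℂ) (M μ D : ℕ) (β : ℝ) (hP : Pivot c M μ D β) (lam : ℂ) (hlam : lam ≠ 0) :
    (∃ w0 : ℂ, w0 ≠ 0 ∧ Rl c M μ D β lam w0 = 0) ∧ (∃ w1 : ℂ, Rl c M μ D β lam w1 ≠ 0) := by
  obtain ⟨hμ, hD, hc, -, -, -, i0, j0, hi0, hj0, hc0, he0⟩ := hP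
  have h1 : (RlRootQ c M μ D β lam).coeff μ ≠ 0 := by
    rw [Rl_root_coeff c M μ D β lam μ D hμ hD (by ring)]
    exact mul_ne_zero hc (pow_ne_zero _ hlam)
  have h2 : (RlRootQ c M μ D β lam).coeff i0 ≠ 0 := by
    rw [Rl_root_coeff c M μ D β lam i0 j0 (hi0.trans hμ) hj0 he0]
    exact mul_ne_zero hc0 (pow_ne_zero _ hlam)
  have hQ : RlRootQ c M μ D β lam ≠ 0 := by
    intro h
    apply h1
    rw [h, Polynomial.coeff_zero]
  constructor
  · obtain ⟨q, hq, hqd⟩ := Polynomial.exists_eq_pow_rootMultiplicity_mul_and_not_dvd _ hQ 0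
    rw [Polynomial.dvd_iff_isRoot] at hqd
    have hdeg : q.degree ≠ 0 := by
      intro hd
      have e := Polynomial.eq_C_of_degree_eq_zero hd
      rw [e, Polynomial.C_0, sub_zero] at hq
      have e1 : ∀ n, (RlRootQ c M μ D β lam).coeff n ≠ 0 →
          n = Polynomial.rootMultiplicity 0 (RlRootQ c M μ D β lam) := by
        intro n hn
        by_contra hne
        apply hn
        rw [hq, mul_comm, Polynomial.coeff_C_mul_X_pow, if_neg]
        exact hne
      have e2 := e1 μ h1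
      have e3 := e1 i0 h2
      omega
    obtain ⟨w0, hw0⟩ := IsAlgClosed.exists_root q hdeg
    refine ⟨w0, ?_, ?_⟩
    · rintro rfl
      exact hqd hw0
    · rw [← Rl_root_eval, hq, Polynomial.eval_mul, hw0.eq_zero, mul_zero]
  · by_contra hcon
    push Not at hcon
    apply hQ
    apply Polynomial.funext
    intro w
    rw [Rl_root_eval, hcon w, Polynomial.eval_zero]

end Helper112.Pf
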