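import Mathlib
import Pool.Agent.Helper112.Pf.Defs2

set_option autoImplicit false

namespace Helper112.Pf

open MeasureTheory



/-! TO PROVE -/

theorem Rl_rot (c : ℕ → ℕ → ℂ) (M μ D : ℕ) (β : ℝ) (lam w : ℂ) (k : ℕ) (h : Rl c M μ D β lam w = 0) :
    Rl c M μ D β (lam * (-1) ^ k) (Complex.exp (-(Complex.I * Real.pi * β * k)) * w) = 0 := by
  classical
  have key : Rl c M μ D β (lam * (-1) ^ k) (Complex.exp (-(Complex.I * Real.pi * β * k)) * w) =
      Complex.exp (Complex.I * Real.pi * k * ((D : ℂ) - β * μ)) * Rl c M μ D β lam w := by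
    unfold Rl
    rw [Finset.mul_sum]
    refine Finset.sum_congr rfl fun i _ => ?_
    rw [Finset.mul_sum]
    refine Finset.sum_congr rfl fun j _ => ?_
    by_cases hc : β * ((μ : ℝ) - i) = (D : ℝ) - j
    · rw [if_pos hc, if_pos hc]
      have hc' : (β : ℂ) * ((μ : ℂ) - i) = (D : ℂ) - j := by exact_mod_cast congrArg (fun x : ℝ => (x : ℂ)) hc
      have e1 : (D : ℂ) - β * μ = j - β * i := by linear_combination -hc'
      have e2 : Complex.exp (Complex.I * Real.pi * k * ((D : ℂ) - β * μ)) =
          Complex.exp (-(Complex.I * Real.pi * β * k)) ^ i * ((-1) ^ k) ^ j := by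
        rw [e1]
        have e3 : (-1 : ℂ) = Complex.exp (Real.pi * Complex.I) := Complex.exp_pi_mul_I.symm
        rw [e3, ← Complex.exp_nat_mul, ← Complex.exp_nat_mul, ← Complex.exp_nat_mul, ← Complex.exp_add]
        congr 1
        ring
      rw [e2, mul_pow, mul_pow]
      ring
    · rw [if_neg hc, if_neg hc, mul_zero]
  rw [key, h, mul_zero]

end Helper112.Pf
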