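import Mathlib
import Pool.Agent.Helper112.Pf.Defs2

set_option autoImplicit false

namespace Helper112.Pf

open MeasureTheory

/-! TO PROVE -/

theorem roots_cont_bd (z0 z1 : ℂ) (ε : ℝ) (hε : 0 < ε) (m : ℕ) : ∀ g : Polynomial ℂ,
    g.natDegree ≤ m → (∀ r, g.eval r = 0 → ε ≤ ‖z0 - r‖) →
    ‖g.eval z1‖ ≤ ‖g.eval z0‖ * (1 + ‖z1 - z0‖ / ε) ^ m := by
  have hB0 : 0 ≤ ‖z1 - z0‖ / ε := by positivity
  have hB : 1 ≤ 1 + ‖z1 - z0‖ / ε := by linarith
  induction m with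
  | zero =>
    intro g hg _
    rw [Polynomial.eq_C_of_natDegree_le_zero hg]
    simp
  | succ m ih =>
    intro g hg hr
    by_cases hd : g.natDegree = 0
    · rw [Polynomial.eq_C_of_natDegree_eq_zero hd, Polynomial.eval_C, Polynomial.eval_C]
      exact le_mul_of_one_le_right (norm_nonneg _) (one_le_pow₀ hB)
    · have hg0 : g ≠ 0 := by
        rintro rfl
        exact hd Polynomial.natDegree_zero
      have hdeg : g.degree ≠ 0 := by
        intro h
        exact hd (Polynomial.natDegree_eq_of_degree_eq_some h)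
      obtain ⟨r, hroot⟩ := IsAlgClosed.exists_root g hdeg
      obtain ⟨h, hgh⟩ := Polynomial.dvd_iff_isRoot.2 hroot
      have hh0 : h ≠ 0 := by
        rintro rfl
        exact hg0 (by rw [hgh, mul_zero])
      have hnd : g.natDegree = 1 + h.natDegree := by
        rw [hgh, Polynomial.natDegree_mul (Polynomial.X_sub_C_ne_zero r) hh0,
          Polynomial.natDegree_X_sub_C]
      have hev : ∀ z, g.eval z = (z - r) * h.eval z := by
        intro z
        rw [hgh]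
        simp
      have hih := ih h (by omega) (fun r' hr' => hr r' (by rw [hev, hr', mul_zero]))
      have hr0 : ε ≤ ‖z0 - r‖ := hr r hroot
      have h1 : ‖z1 - r‖ ≤ ‖z0 - r‖ * (1 + ‖z1 - z0‖ / ε) := by
        have h2 : ‖z1 - r‖ ≤ ‖z1 - z0‖ + ‖z0 - r‖ := by
          have : z1 - r = (z1 - z0) + (z0 - r) := by ring
          rw [this]
          exact norm_add_le _ _
        have h3 : ‖z1 - z0‖ = ε * (‖z1 - z0‖ / ε) := by field_simp
        have h4 : ε * (‖z1 - z0‖ / ε) ≤ ‖z0 - r‖ * (‖z1 - z0‖ / ε) :=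
          mul_le_mul_of_nonneg_right hr0 hB0
        calc ‖z1 - r‖ ≤ ‖z1 - z0‖ + ‖z0 - r‖ := h2
          _ ≤ ‖z0 - r‖ * (‖z1 - z0‖ / ε) + ‖z0 - r‖ := by linarith
          _ = _ := by ring
      rw [hev, hev, norm_mul, norm_mul]
      calc ‖z1 - r‖ * ‖h.eval z1‖ ≤ (‖z0 - r‖ * (1 + ‖z1 - z0‖ / ε)) *
            (‖h.eval z0‖ * (1 + ‖z1 - z0‖ / ε) ^ m) :=
            mul_le_mul h1 hih (norm_nonneg _) (mul_nonneg (norm_nonneg _) (by linarith))
        _ = _ := by rw [pow_succ]; ring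

theorem roots_cont (f : ℝ → Polynomial ℂ) (m : ℕ) (hm : ∀ T, (f T).natDegree ≤ m) (z0 z1 w : ℂ)
    (hw : w ≠ 0) (h0 : Filter.Tendsto (fun T => (f T).eval z0) Filter.atTop (nhds 0))
    (h1 : Filter.Tendsto (fun T => (f T).eval z1) Filter.atTop (nhds w)) :
    ∃ z : ℝ → ℂ, Filter.Tendsto z Filter.atTop (nhds z0) ∧ ∀ᶠ T in Filter.atTop, (f T).eval (z T) = 0 := by
  classical
  have hwpos : 0 < ‖w‖ := norm_pos_iff.2 hw
  have hn0 : Filter.Tendsto (fun T => ‖(f T).eval z0‖) Filter.atTop (nhds 0) := by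
    have := h0.norm
    rwa [norm_zero] at this
  have hn1 : Filter.Tendsto (fun T => ‖(f T).eval z1‖) Filter.atTop (nhds ‖w‖) := h1.norm
  have hev1 : ∀ᶠ T in Filter.atTop, ‖w‖ / 2 < ‖(f T).eval z1‖ :=
    hn1.eventually (lt_mem_nhds (by linarith))
  have key : ∀ ε : ℝ, 0 < ε → ∀ᶠ T in Filter.atTop,
      ∃ r, (f T).eval r = 0 ∧ ‖z0 - r‖ < ε := by
    intro ε hε
    have hB0 : 0 ≤ ‖z1 - z0‖ / ε := by positivity
    have hBm : 0 < (1 + ‖z1 - z0‖ / ε) ^ m := by positivity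
    have hev0 : ∀ᶠ T in Filter.atTop,
        ‖(f T).eval z0‖ < ‖w‖ / 2 / (1 + ‖z1 - z0‖ / ε) ^ m :=
      hn0.eventually (gt_mem_nhds (by positivity))
    filter_upwards [hev0, hev1] with T hT0 hT1
    by_contra hcon
    push Not at hcon
    have h2 := roots_cont_bd z0 z1 ε hε m (f T) (hm T) hcon
    have h3 : ‖(f T).eval z0‖ * (1 + ‖z1 - z0‖ / ε) ^ m < ‖w‖ / 2 := by
      rwa [lt_div_iff₀ hBm] at hT0
    linarith
  have hmin : ∀ T, ∃ z : ℂ, (f T ≠ 0 ∧ ∃ r, (f T).eval r = 0) →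
      (f T).eval z = 0 ∧ ∀ r, (f T).eval r = 0 → ‖z0 - z‖ ≤ ‖z0 - r‖ := by
    intro T
    by_cases hT : f T ≠ 0 ∧ ∃ r, (f T).eval r = 0
    · obtain ⟨hT0, r, hr⟩ := hT
      have hmem : ∀ x, x ∈ (f T).roots.toFinset ↔ (f T).eval x = 0 := by
        intro x
        rw [Multiset.mem_toFinset, Polynomial.mem_roots hT0]
        rfl
      obtain ⟨z, hz, hz'⟩ := Finset.exists_min_image (f T).roots.toFinset (fun x => ‖z0 - x‖)
        ⟨r, (hmem r).2 hr⟩
      exact ⟨z, fun _ => ⟨(hmem z).1 hz, fun r hr => hz' r ((hmem r).2 hr)⟩⟩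
    · exact ⟨0, fun h => absurd h hT⟩
  choose z hz using hmin
  have hne : ∀ᶠ T in Filter.atTop, f T ≠ 0 := by
    filter_upwards [hev1] with T hT h
    rw [h, Polynomial.eval_zero, norm_zero] at hT
    linarith
  refine ⟨z, ?_, ?_⟩
  · rw [Metric.tendsto_nhds]
    intro ε hε
    filter_upwards [key ε hε, hne] with T ⟨r, hr, hrε⟩ hT
    rw [dist_comm, dist_eq_norm]
    exact lt_of_le_of_lt ((hz T ⟨hT, r, hr⟩).2 r hr) hrε
  · filter_upwards [key 1 one_pos, hne] with T ⟨r, hr, _⟩ hT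
    exact (hz T ⟨hT, r, hr⟩).1

end Helper112.Pf
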