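import Mathlib
import Pool.Agent.Helper112.Pf.Defs2
import Pool.Agent.Helper112.Pf.VEvLimit
import Pool.Agent.Helper112.Pf.VRlRoot
import Pool.Agent.Helper112.Pf.VRlRot
import Pool.Agent.Helper112.Pf.VRootsCont

set_option autoImplicit false

namespace Helper112.Pf

open MeasureTheory



/-! TO PROVE -/

/-- the polynomial in `w` used in `np` -/
noncomputable def np_f (c : ℕ → ℕ → ℂ) (M μ D : ℕ) (β : ℝ) (lam : ℂ) (T : ℝ) : Polynomial ℂ :=
  ∑ i ∈ Finset.range M, Polynomial.C ((∑ j ∈ Finset.range M,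
    c i j * (((T ^ (-β) : ℝ) : ℂ)) ^ i * (lam * T) ^ j) / ((T ^ ((D : ℝ) - β * μ) : ℝ) : ℂ)) *
      Polynomial.X ^ i

theorem np_f_eval (c : ℕ → ℕ → ℂ) (M μ D : ℕ) (β : ℝ) (lam : ℂ) (T : ℝ) (w : ℂ) :
    (np_f c M μ D β lam T).eval w =
      ev c M (((T ^ (-β) : ℝ) : ℂ) * w) (lam * T) / ((T ^ ((D : ℝ) - β * μ) : ℝ) : ℂ) := by
  unfold np_f ev
  rw [Polynomial.eval_finsetSum, Finset.sum_div]
  refine Finset.sum_congr rfl fun i _ => ?_
  rw [Polynomial.eval_mul, Polynomial.eval_C, Polynomial.eval_pow, Polynomial.eval_X,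
    div_mul_eq_mul_div, Finset.sum_mul]
  congr 1
  refine Finset.sum_congr rfl fun j _ => ?_
  rw [mul_pow]
  ring

theorem np_f_natDegree (c : ℕ → ℕ → ℂ) (M μ D : ℕ) (β : ℝ) (lam : ℂ) (T : ℝ) :
    (np_f c M μ D β lam T).natDegree ≤ M := by
  unfold np_f
  refine Polynomial.natDegree_sum_le_of_forall_le _ _ fun i hi => ?_
  exact (Polynomial.natDegree_C_mul_X_pow_le _ _).trans (Finset.mem_range.1 hi).le

theorem np (c : ℕ → ℕ → ℂ) (M μ D : ℕ) (β : ℝ) (hP : Pivot c M μ D β) (lam : ℂ) (hlam : lam ≠ 0) :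
    ∃ w0 : ℂ, w0 ≠ 0 ∧ ∀ k : ℕ, ∃ w : ℝ → ℂ,
      Filter.Tendsto w Filter.atTop (nhds (Complex.exp (-(Complex.I * Real.pi * β * k)) * w0)) ∧
      ∀ᶠ T : ℝ in Filter.atTop, ev c M (((T ^ (-β) : ℝ) : ℂ) * w T) (lam * (-1) ^ k * T) = 0 := by
  obtain ⟨⟨w0, hw0, hr0⟩, -⟩ := Rl_root c M μ D β hP lam hlam
  refine ⟨w0, hw0, fun k => ?_⟩
  have hl1 : lam * (-1) ^ k ≠ 0 := mul_ne_zero hlam (pow_ne_zero _ (by norm_num))
  have hk := Rl_rot c M μ D β lam w0 k hr0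
  obtain ⟨-, w1, hw1⟩ := Rl_root c M μ D β hP (lam * (-1) ^ k) hl1
  have h0 : Filter.Tendsto (fun T => (np_f c M μ D β (lam * (-1) ^ k) T).eval
      (Complex.exp (-(Complex.I * Real.pi * β * k)) * w0)) Filter.atTop (nhds 0) := by
    simp only [np_f_eval]
    rw [← hk]
    exact ev_limit c M μ D β hP _ _
  have h1 : Filter.Tendsto (fun T => (np_f c M μ D β (lam * (-1) ^ k) T).eval w1)
      Filter.atTop (nhds (Rl c M μ D β (lam * (-1) ^ k) w1)) := by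
    simp only [np_f_eval]
    exact ev_limit c M μ D β hP _ _
  obtain ⟨z, hz, hz0⟩ := roots_cont (np_f c M μ D β (lam * (-1) ^ k)) M
    (fun T => np_f_natDegree c M μ D β _ T) _ _ _ hw1 h0 h1
  refine ⟨z, hz, ?_⟩
  filter_upwards [hz0, Filter.eventually_gt_atTop 0] with T hT hTpos
  rw [np_f_eval] at hT
  have hden : ((T ^ ((D : ℝ) - β * μ) : ℝ) : ℂ) ≠ 0 :=
    Complex.ofReal_ne_zero.2 (Real.rpow_pos_of_pos hTpos _).ne'
  exact (div_eq_zero_iff.1 hT).resolve_right hden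

end Helper112.Pf
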