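import Mathlib
import Pool.Agent.Helper112.Pf.Defs2

set_option autoImplicit false

namespace Helper112.Pf

open MeasureTheory



/-! TO PROVE -/

theorem cvx_aux (f : ℝ → ℝ) (A B : ℝ) (φ : ℝ → ℝ) (s : Set ℝ) (hs : Convex ℝ s)
    (hφ : ∀ x ∈ s, φ x ∈ Set.Icc A B)
    (haff : ∀ x y a b : ℝ, a + b = 1 → φ (a * x + b * y) = a * φ x + b * φ y)
    (hf : ConvexOn ℝ (Set.Icc A B) f) : ConvexOn ℝ s (fun u => f (φ u)) := by
  refine ⟨hs, fun x hx y hy a b ha hb hab => ?_⟩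
  simp only [smul_eq_mul]
  rw [haff x y a b hab]
  exact hf.2 (hφ x hx) (hφ y hy) ha hb hab

theorem ccv_aux (f : ℝ → ℝ) (A B : ℝ) (φ : ℝ → ℝ) (s : Set ℝ) (hs : Convex ℝ s)
    (hφ : ∀ x ∈ s, φ x ∈ Set.Icc A B)
    (haff : ∀ x y a b : ℝ, a + b = 1 → φ (a * x + b * y) = a * φ x + b * φ y)
    (hf : ConcaveOn ℝ (Set.Icc A B) f) : ConcaveOn ℝ s (fun u => f (φ u)) := by
  refine ⟨hs, fun x hx y hy a b ha hb hab => ?_⟩
  simp only [smul_eq_mul]
  rw [haff x y a b hab]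
  exact hf.2 (hφ x hx) (hφ y hy) ha hb hab

theorem prof_aux (K : Set (Fin 2 → ℝ)) (A B : ℝ) (lo hi : ℝ → ℝ) (h : Chord K A B lo hi)
    (φ : ℝ → ℝ) (hc : Continuous φ)
    (hφ : ∀ x ∈ Set.Icc 0 (B - A), φ x ∈ Set.Icc A B)
    (hφ' : ∀ x ∈ Set.Ioo 0 (B - A), φ x ∈ Set.Ioo A B)
    (haff : ∀ x y a b : ℝ, a + b = 1 → φ (a * x + b * y) = a * φ x + b * φ y) :
    Prof (fun u => lo (φ u)) (fun u => hi (φ u)) (B - A) := by
  obtain ⟨h1, h2, h3, h4, h5, h6, h7, -⟩ := h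
  refine ⟨by linarith, cvx_aux lo A B φ _ (convex_Icc _ _) hφ haff h2,
    ccv_aux hi A B φ _ (convex_Icc _ _) hφ haff h3, ?_, ?_, fun u hu => h6 _ (hφ u hu),
    fun u hu => h7 _ (hφ' u hu)⟩
  · exact h4.comp hc.continuousOn hφ
  · exact h5.comp hc.continuousOn hφ

theorem prof_of_chord (K : Set (Fin 2 → ℝ)) (A B : ℝ) (lo hi : ℝ → ℝ) (h : Chord K A B lo hi) :
    Prof (fun u => lo (B - u)) (fun u => hi (B - u)) (B - A) ∧
    Prof (fun u => lo (A + u)) (fun u => hi (A + u)) (B - A) := by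
  constructor
  · refine prof_aux K A B lo hi h (fun u => B - u) (by fun_prop) ?_ ?_ ?_
    · intro x hx
      constructor <;> linarith [hx.1, hx.2]
    · intro x hx
      constructor <;> linarith [hx.1, hx.2]
    · intro x y a b hab
      linear_combination (-B) * hab
  · refine prof_aux K A B lo hi h (fun u => A + u) (by fun_prop) ?_ ?_ ?_
    · intro x hx
      constructor <;> linarith [hx.1, hx.2]
    · intro x hx
      constructor <;> linarith [hx.1, hx.2]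
    · intro x y a b hab
      linear_combination (-A) * hab

end Helper112.Pf
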