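import Mathlib
import Pool.Agent.Helper112.Pf.Defs2

set_option autoImplicit false

namespace Helper112.Pf

open MeasureTheory



/-! TO PROVE -/

theorem gen_nz (J : ℝ → ℝ → ℂ) (H u1 m B : ℝ) (hu1 : 0 < u1) (hu1H : u1 ≤ H) (hm : 0 < m)
    (hB : 0 ≤ B)
    (ω : ℝ → ℂ) (hJc : ∀ T, ContinuousOn (J T) (Set.Icc 0 H))
    (h1 : ∀ᶠ T in Filter.atTop, ∀ u ∈ Set.Icc 0 u1, 0 ≤ (J T u * ω T).re)
    (h2 : ∀ᶠ T in Filter.atTop, ∀ u ∈ Set.Icc (u1 / 4) (u1 / 2), m ≤ (J T u * ω T).re)
    (h3 : ∀ᶠ T in Filter.atTop, ∀ u ∈ Set.Icc 0 H, ‖J T u * ω T‖ ≤ B) :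
    ∀ᶠ T : ℝ in Filter.atTop,
      (∫ u in (0 : ℝ)..H, Complex.exp (-((T : ℂ) * u)) * J T u) ≠ 0 := by
  have h4 : Filter.Tendsto (fun T : ℝ => Real.exp (T * (u1 / 2))) Filter.atTop Filter.atTop :=
    Real.tendsto_exp_atTop.comp (Filter.tendsto_id.atTop_mul_const (by positivity))
  filter_upwards [h1, h2, h3, h4.eventually_gt_atTop (4 * H * B / (u1 * m)),
    Filter.eventually_gt_atTop (0 : ℝ)] with T g1 g2 g3 g4 hT h0
  set φ : ℝ → ℝ := fun u => Real.exp (-(T * u)) * (J T u * ω T).re with hφ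
  have hcφ : ContinuousOn φ (Set.Icc 0 H) := by
    apply ContinuousOn.mul (by fun_prop)
    exact Complex.continuous_re.comp_continuousOn ((hJc T).mul continuousOn_const)
  have hH : 0 < H := lt_of_lt_of_le hu1 hu1H
  have hii : ∀ a b, 0 ≤ a → a ≤ b → b ≤ H → IntervalIntegrable φ volume a b := by
    intro a b ha hab hb
    apply ContinuousOn.intervalIntegrable
    rw [Set.uIcc_of_le hab]
    exact hcφ.mono (Set.Icc_subset_Icc ha hb)
  have hcJ : IntervalIntegrable (fun u : ℝ => Complex.exp (-((T : ℂ) * u)) * J T u * ω T)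
      volume 0 H := by
    apply ContinuousOn.intervalIntegrable
    rw [Set.uIcc_of_le hH.le]
    exact ((Continuous.continuousOn (by fun_prop)).mul (hJc T)).mul continuousOn_const
  have hzero : ∫ u in (0 : ℝ)..H, φ u = 0 := by
    have e1 : ∫ u in (0 : ℝ)..H, Complex.exp (-((T : ℂ) * u)) * J T u * ω T = 0 := by
      rw [intervalIntegral.integral_mul_const, h0, zero_mul]
    have e2 := Complex.reCLM.intervalIntegral_comp_comm hcJ
    rw [e1, map_zero] at e2
    refine Eq.trans ?_ e2
    apply intervalIntegral.integral_congr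
    intro u _
    simp only [hφ, Complex.reCLM_apply]
    have : Complex.exp (-((T : ℂ) * u)) = ((Real.exp (-(T * u)) : ℝ) : ℂ) := by
      push_cast; rfl
    rw [this, mul_assoc, Complex.re_ofReal_mul]
  have s1 : ∫ u in (0 : ℝ)..H, φ u = (∫ u in (0 : ℝ)..(u1 / 4), φ u) +
      (∫ u in (u1 / 4)..(u1 / 2), φ u) + (∫ u in (u1 / 2)..u1, φ u) + ∫ u in u1..H, φ u := by
    rw [intervalIntegral.integral_add_adjacent_intervals (hii _ _ le_rfl (by linarith) (by linarith))
      (hii _ _ (by linarith) (by linarith) (by linarith)),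
      intervalIntegral.integral_add_adjacent_intervals (hii _ _ le_rfl (by linarith) (by linarith))
      (hii _ _ (by linarith) (by linarith) (by linarith)),
      intervalIntegral.integral_add_adjacent_intervals (hii _ _ le_rfl (by linarith) (by linarith))
      (hii _ _ (by linarith) (by linarith) (by linarith))]
  have p1 : 0 ≤ ∫ u in (0 : ℝ)..(u1 / 4), φ u := by
    apply intervalIntegral.integral_nonneg (by linarith)
    intro u hu
    exact mul_nonneg (Real.exp_pos _).le (g1 u ⟨hu.1, by linarith [hu.2]⟩)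
  have p3 : 0 ≤ ∫ u in (u1 / 2)..u1, φ u := by
    apply intervalIntegral.integral_nonneg (by linarith)
    intro u hu
    exact mul_nonneg (Real.exp_pos _).le (g1 u ⟨by linarith [hu.1], hu.2⟩)
  have p2 : (u1 / 4) * (Real.exp (-(T * (u1 / 2))) * m) ≤ ∫ u in (u1 / 4)..(u1 / 2), φ u := by
    have e : (u1 / 4) * (Real.exp (-(T * (u1 / 2))) * m) =
        ∫ _ in (u1 / 4)..(u1 / 2), Real.exp (-(T * (u1 / 2))) * m := by
      rw [intervalIntegral.integral_const, smul_eq_mul]
      ring
    rw [e]
    apply intervalIntegral.integral_mono_on (by linarith) intervalIntegrable_const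
      (hii _ _ (by linarith) (by linarith) (by linarith))
    intro u hu
    apply mul_le_mul _ (g2 u hu) hm.le (Real.exp_pos _).le
    apply Real.exp_le_exp.2
    nlinarith [hu.2]
  have p4 : -((H - u1) * (Real.exp (-(T * u1)) * B)) ≤ ∫ u in u1..H, φ u := by
    have e : -((H - u1) * (Real.exp (-(T * u1)) * B)) =
        ∫ _ in u1..H, -(Real.exp (-(T * u1)) * B) := by
      rw [intervalIntegral.integral_const, smul_eq_mul]
      ring
    rw [e]
    apply intervalIntegral.integral_mono_on hu1H intervalIntegrable_const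
      (hii _ _ (by linarith) (by linarith) le_rfl)
    intro u hu
    have k1 : |(J T u * ω T).re| ≤ B :=
      (Complex.abs_re_le_norm _).trans (g3 u ⟨by linarith [hu.1], hu.2⟩)
    have k2 : -B ≤ (J T u * ω T).re := (abs_le.1 k1).1
    have k3 : Real.exp (-(T * u)) ≤ Real.exp (-(T * u1)) := by
      apply Real.exp_le_exp.2
      nlinarith [hu.1]
    have k4 := Real.exp_pos (-(T * u))
    have k5 := Real.exp_pos (-(T * u1))
    show -(Real.exp (-(T * u1)) * B) ≤ Real.exp (-(T * u)) * (J T u * ω T).re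
    calc -(Real.exp (-(T * u1)) * B) ≤ -(Real.exp (-(T * u)) * B) := by nlinarith
      _ = Real.exp (-(T * u)) * (-B) := by ring
      _ ≤ _ := mul_le_mul_of_nonneg_left k2 k4.le
  have q1 : 4 * H * B < Real.exp (T * (u1 / 2)) * (u1 * m) := by
    rwa [div_lt_iff₀ (by positivity)] at g4
  have q2 : Real.exp (-(T * (u1 / 2))) = Real.exp (T * (u1 / 2)) * Real.exp (-(T * u1)) := by
    rw [← Real.exp_add]; congr 1; ring
  have q3 := Real.exp_pos (-(T * u1))
  have q4 : (H - u1) * (Real.exp (-(T * u1)) * B) < (u1 / 4) * (Real.exp (-(T * (u1 / 2))) * m) := by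
    rw [q2]
    have : (H - u1) * (Real.exp (-(T * u1)) * B) ≤ H * (Real.exp (-(T * u1)) * B) := by
      have : 0 ≤ Real.exp (-(T * u1)) * B := by positivity
      nlinarith
    have : H * (Real.exp (-(T * u1)) * B) <
        (u1 / 4) * (Real.exp (T * (u1 / 2)) * Real.exp (-(T * u1)) * m) := by
      have := mul_lt_mul_of_pos_left q1 q3
      nlinarith
    linarith
  rw [s1] at hzero
  linarith


/-- primitive -/
noncomputable def Qp (p : ℂ × ℝ) : ℂ :=
  ∫ x in (0 : ℝ)..p.2, Complex.exp (-(Complex.I * p.1 * x))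

theorem Qp_cont : Continuous Qp := by
  have h : Continuous (Function.uncurry (fun (p : ℂ × ℝ) (x : ℝ) =>
      Complex.exp (-(Complex.I * p.1 * x)))) := by
    unfold Function.uncurry
    fun_prop
  exact intervalIntegral.continuous_parametric_intervalIntegral_of_continuous h continuous_snd

theorem J_eq (s : ℂ) (a b : ℝ) :
    ∫ x in a..b, Complex.exp (-(Complex.I * s * x)) = Qp (s, b) - Qp (s, a) := by
  unfold Qp
  rw [intervalIntegral.integral_interval_sub_left] <;>
    exact Continuous.intervalIntegrable (by fun_prop) _ _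

theorem top_len (l r : ℝ → ℝ) (H : ℝ) (h : Prof l r H) (s : ℝ → ℂ) (c0 : ℂ)
    (hs : Filter.Tendsto s Filter.atTop (nhds c0)) (hz : ∀ᶠ T in Filter.atTop, Lap l r H (s T) T = 0) :
    0 < r 0 - l 0 ∧ ∃ k : ℤ, k ≠ 0 ∧ c0 * ((r 0 - l 0 : ℝ) : ℂ) = 2 * Real.pi * k := by
  obtain ⟨hH, -, -, hlc, hrc, hlr, hlr'⟩ := h
  set J : ℝ → ℝ → ℂ := fun T u => Qp (s T, r u) - Qp (s T, l u) with hJ
  have hJL : ∀ T, Lap l r H (s T) T =
      ∫ u in (0 : ℝ)..H, Complex.exp (-((T : ℂ) * u)) * J T u := by
    intro T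
    unfold Lap
    apply intervalIntegral.integral_congr
    intro u _
    show Complex.exp (-((T : ℂ) * u)) * _ = Complex.exp (-((T : ℂ) * u)) * J T u
    rw [J_eq]
  have hJc : ∀ T, ContinuousOn (J T) (Set.Icc 0 H) := by
    intro T
    apply ContinuousOn.sub
    · exact Qp_cont.comp_continuousOn (continuousOn_const.prodMk hrc)
    · exact Qp_cont.comp_continuousOn (continuousOn_const.prodMk hlc)
  have h0mem : (0 : ℝ) ∈ Set.Icc 0 H := ⟨le_rfl, hH.le⟩
  -- bounds
  obtain ⟨R1, hR1⟩ := isCompact_Icc.exists_bound_of_continuousOn hlc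
  obtain ⟨R2, hR2⟩ := isCompact_Icc.exists_bound_of_continuousOn hrc
  obtain ⟨B0, hB0⟩ := ((isCompact_closedBall (0 : ℂ) (‖c0‖ + 1)).prod
    (isCompact_closedBall (0 : ℝ) (max R1 R2))).exists_bound_of_continuousOn
      Qp_cont.continuousOn
  have hsb : ∀ᶠ T in Filter.atTop, ‖s T‖ ≤ ‖c0‖ + 1 := by
    have := (continuous_norm.tendsto c0).comp hs
    exact this.eventually (eventually_le_nhds (by linarith))
  have hJB : ∀ᶠ T in Filter.atTop, ∀ u ∈ Set.Icc 0 H, ‖J T u‖ ≤ B0 + B0 := by
    filter_upwards [hsb] with T hT u hu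
    refine (norm_sub_le _ _).trans (add_le_add ?_ ?_)
    · apply hB0
      refine ⟨by simpa using hT, ?_⟩
      simp only [Metric.mem_closedBall, dist_zero_right]
      exact (hR2 u hu).trans (le_max_right _ _)
    · apply hB0
      refine ⟨by simpa using hT, ?_⟩
      simp only [Metric.mem_closedBall, dist_zero_right]
      exact (hR1 u hu).trans (le_max_left _ _)
  have hB0' : 0 ≤ B0 := by
    have := hB0 (0, 0) ⟨by simp; positivity, by
      simp only [Metric.mem_closedBall, dist_self]
      exact (norm_nonneg _).trans ((hR1 0 h0mem).trans (le_max_left _ _))⟩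
    exact (norm_nonneg _).trans this
  have hJ0 : ∀ᶠ T : ℝ in Filter.atTop,
      (∫ u in (0 : ℝ)..H, Complex.exp (-((T : ℂ) * u)) * J T u) = 0 := by
    filter_upwards [hz] with T hT
    rw [← hJL, hT]
  have hle0 : l 0 ≤ r 0 := hlr 0 h0mem
  have hpos : 0 < r 0 - l 0 := by
    by_contra hcon
    have heq : r 0 = l 0 := by linarith
    -- case L = 0
    obtain ⟨C, hC⟩ : ∃ C, C = ‖c0‖ + 1 := ⟨_, rfl⟩
    have hCpos : 0 < C := by rw [hC]; positivity
    have hnear : ∀ᶠ u in nhdsWithin 0 (Set.Icc 0 H),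
        |l u - l 0| ≤ 1 / (4 * C) ∧ |r u - l 0| ≤ 1 / (4 * C) := by
      have e1 := (hlc 0 h0mem)
      have e2 := (hrc 0 h0mem)
      have hd : 0 < 1 / (4 * C) := by positivity
      have e1' := e1.eventually (Metric.closedBall_mem_nhds _ hd)
      have e2' := e2.eventually (Metric.closedBall_mem_nhds _ hd)
      filter_upwards [e1', e2'] with u a b
      refine ⟨by simpa [Real.dist_eq] using a, ?_⟩
      rw [← heq]
      simpa [Real.dist_eq] using b
    obtain ⟨ε, hε, hεs⟩ := Metric.mem_nhdsWithin_iff.1 hnear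
    obtain ⟨u1, hu1⟩ : ∃ u1, u1 = min (ε / 2) (H / 2) := ⟨_, rfl⟩
    have hu1pos : 0 < u1 := by rw [hu1]; positivity
    have hu1H : u1 ≤ H / 2 := by rw [hu1]; exact min_le_right _ _
    have hu1ε : u1 ≤ ε / 2 := by rw [hu1]; exact min_le_left _ _
    have hnu : ∀ u ∈ Set.Icc 0 u1, |l u - l 0| ≤ 1 / (4 * C) ∧ |r u - l 0| ≤ 1 / (4 * C) := by
      intro u hu
      apply hεs
      refine ⟨?_, hu.1, by linarith [hu.2]⟩
      rw [Metric.mem_ball, Real.dist_eq, sub_zero, abs_of_nonneg hu.1]
      linarith [hu.2]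
    -- min of r - l
    have hsub : Set.Icc (u1 / 4) (u1 / 2) ⊆ Set.Icc 0 H :=
      Set.Icc_subset_Icc (by linarith) (by linarith)
    obtain ⟨um, humem, hum⟩ := isCompact_Icc.exists_isMinOn
      (Set.nonempty_Icc.2 (by linarith : u1 / 4 ≤ u1 / 2)) ((hrc.sub hlc).mono hsub)
    have hmpos : 0 < r um - l um := by
      have := hlr' um ⟨by linarith [humem.1], by linarith [humem.2]⟩
      linarith
    have key : ∀ᶠ T in Filter.atTop, ∀ u ∈ Set.Icc 0 u1,
        (1 / 2) * (r u - l u) ≤ (J T u * Complex.exp (Complex.I * s T * l 0)).re := by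
      filter_upwards [hsb] with T hT u hu
      have huH : u ∈ Set.Icc 0 H := ⟨hu.1, by linarith [hu.2]⟩
      have e1 : J T u * Complex.exp (Complex.I * s T * l 0) =
          ∫ x in (l u)..(r u), Complex.exp (-(Complex.I * s T * (x - l 0))) := by
        show (Qp (s T, r u) - Qp (s T, l u)) * _ = _
        rw [← J_eq, ← intervalIntegral.integral_mul_const]
        apply intervalIntegral.integral_congr
        intro x _
        show Complex.exp _ * Complex.exp _ = Complex.exp _
        rw [← Complex.exp_add]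
        congr 1
        ring
      have hint : IntervalIntegrable
          (fun x : ℝ => Complex.exp (-(Complex.I * s T * (x - l 0)))) volume (l u) (r u) :=
        Continuous.intervalIntegrable (by fun_prop) _ _
      have e2 := Complex.reCLM.intervalIntegral_comp_comm hint
      rw [e1]
      have e3 : (∫ x in (l u)..(r u), Complex.exp (-(Complex.I * s T * (x - l 0)))).re =
          ∫ x in (l u)..(r u), (Complex.exp (-(Complex.I * s T * (x - l 0)))).re := e2.symm
      rw [e3]
      have e4 : (1 / 2) * (r u - l u) = ∫ _ in (l u)..(r u), (1 / 2 : ℝ) := by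
        rw [intervalIntegral.integral_const, smul_eq_mul]
        ring
      rw [e4]
      apply intervalIntegral.integral_mono_on (hlr u huH) intervalIntegrable_const
      · exact Continuous.intervalIntegrable (by fun_prop) _ _
      · intro x hx
        have hxx : |x - l 0| ≤ 1 / (4 * C) := by
          obtain ⟨a1, a2⟩ := hnu u hu
          rw [abs_le] at a1 a2 ⊢
          exact ⟨by linarith [hx.1], by linarith [hx.2]⟩
        have hn : ‖-(Complex.I * s T * ((x : ℂ) - l 0))‖ ≤ 1 / 4 := by
          rw [norm_neg, norm_mul, norm_mul, Complex.norm_I, one_mul]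
          have : ‖(x : ℂ) - l 0‖ = |x - l 0| := by
            rw [← Complex.ofReal_sub, Complex.norm_real, Real.norm_eq_abs]
          rw [this]
          calc ‖s T‖ * |x - l 0| ≤ C * (1 / (4 * C)) := by
                apply mul_le_mul _ hxx (abs_nonneg _) hCpos.le
                rw [hC]; exact hT
            _ = 1 / 4 := by field_simp
        have hexp := Complex.norm_exp_sub_one_le (hn.trans (by norm_num))
        have hre : |(Complex.exp (-(Complex.I * s T * ((x : ℂ) - l 0))) - 1).re| ≤ 1 / 2 := by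
          refine (Complex.abs_re_le_norm _).trans (hexp.trans ?_)
          linarith
        rw [Complex.sub_re, Complex.one_re, abs_le] at hre
        linarith [hre.1]
    have hωb : ∀ᶠ T in Filter.atTop,
        ‖Complex.exp (Complex.I * s T * l 0)‖ ≤ Real.exp (C * |l 0|) := by
      filter_upwards [hsb] with T hT
      rw [Complex.norm_exp]
      apply Real.exp_le_exp.2
      refine (Complex.re_le_norm _).trans ?_
      rw [norm_mul, norm_mul, Complex.norm_I, one_mul, Complex.norm_real, Real.norm_eq_abs, hC]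
      exact mul_le_mul_of_nonneg_right hT (abs_nonneg _)
    have := gen_nz J H u1 ((1 / 2) * (r um - l um)) ((B0 + B0) * Real.exp (C * |l 0|)) hu1pos
      (by linarith) (by positivity) (by positivity)
      (fun T => Complex.exp (Complex.I * s T * l 0)) hJc
      (by
        filter_upwards [key] with T hT u hu
        refine le_trans ?_ (hT u hu)
        have := hlr u ⟨hu.1, by linarith [hu.2]⟩
        linarith)
      (by
        filter_upwards [key] with T hT u hu
        refine le_trans ?_ (hT u ⟨by linarith [hu.1], by linarith [hu.2]⟩)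
        have h5 : r um - l um ≤ r u - l u := hum hu
        linarith)
      (by
        filter_upwards [hJB, hωb] with T a b u hu
        rw [norm_mul]
        exact mul_le_mul (a u hu) b (norm_nonneg _) (by positivity))
    obtain ⟨T, a, b⟩ := (this.and hJ0).exists
    exact a b
  refine ⟨hpos, ?_⟩
  have hz0 : Qp (c0, r 0) - Qp (c0, l 0) = 0 := by
    by_contra hne
    set z0 := Qp (c0, r 0) - Qp (c0, l 0) with hz0
    have hz0n : 0 < ‖z0‖ := norm_pos_iff.2 hne
    have hlim : Filter.Tendsto (fun p : ℝ × ℝ => J p.1 p.2)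
        (Filter.atTop ×ˢ nhdsWithin 0 (Set.Icc 0 H)) (nhds z0) := by
      have t1 : Filter.Tendsto (fun p : ℝ × ℝ => s p.1)
          (Filter.atTop ×ˢ nhdsWithin 0 (Set.Icc 0 H)) (nhds c0) := hs.comp Filter.tendsto_fst
      have t2 : Filter.Tendsto (fun p : ℝ × ℝ => r p.2)
          (Filter.atTop ×ˢ nhdsWithin 0 (Set.Icc 0 H)) (nhds (r 0)) :=
        Filter.Tendsto.comp (hrc 0 h0mem) Filter.tendsto_snd
      have t3 : Filter.Tendsto (fun p : ℝ × ℝ => l p.2)
          (Filter.atTop ×ˢ nhdsWithin 0 (Set.Icc 0 H)) (nhds (l 0)) :=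
        Filter.Tendsto.comp (hlc 0 h0mem) Filter.tendsto_snd
      exact ((Qp_cont.tendsto _).comp (t1.prodMk_nhds t2)).sub
        ((Qp_cont.tendsto _).comp (t1.prodMk_nhds t3))
    have hev := hlim.eventually (Metric.ball_mem_nhds z0 (half_pos hz0n))
    obtain ⟨pa, hpa, pb, hpb, hab⟩ := Filter.eventually_prod_iff.1 hev
    obtain ⟨ε, hε, hεs⟩ := Metric.mem_nhdsWithin_iff.1 hpb
    obtain ⟨u1, hu1⟩ : ∃ u1, u1 = min (ε / 2) (H / 2) := ⟨_, rfl⟩
    have hu1pos : 0 < u1 := by rw [hu1]; positivity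
    have hu1H : u1 ≤ H / 2 := by rw [hu1]; exact min_le_right _ _
    have hu1ε : u1 ≤ ε / 2 := by rw [hu1]; exact min_le_left _ _
    have key : ∀ᶠ T in Filter.atTop, ∀ u ∈ Set.Icc 0 u1,
        ‖z0‖ ^ 2 / 2 ≤ (J T u * (starRingEnd ℂ) z0).re := by
      filter_upwards [hpa] with T hT u hu
      have hpu : pb u := by
        apply hεs
        refine ⟨?_, hu.1, by linarith [hu.2]⟩
        rw [Metric.mem_ball, Real.dist_eq, sub_zero, abs_of_nonneg hu.1]
        linarith [hu.2]
      have h5 := hab hT hpu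
      rw [dist_eq_norm] at h5
      change ‖J T u - z0‖ < ‖z0‖ / 2 at h5
      have h6 : J T u * (starRingEnd ℂ) z0 =
          (J T u - z0) * (starRingEnd ℂ) z0 + z0 * (starRingEnd ℂ) z0 := by ring
      have h7 : (z0 * (starRingEnd ℂ) z0).re = ‖z0‖ ^ 2 := by
        rw [Complex.mul_conj, Complex.ofReal_re, Complex.normSq_eq_norm_sq]
      have h8 : |((J T u - z0) * (starRingEnd ℂ) z0).re| ≤ ‖z0‖ / 2 * ‖z0‖ := by
        refine (Complex.abs_re_le_norm _).trans ?_
        rw [norm_mul, RCLike.norm_conj]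
        exact mul_le_mul_of_nonneg_right h5.le hz0n.le
      rw [h6, Complex.add_re, h7]
      have := (abs_le.1 h8).1
      nlinarith
    have := gen_nz J H u1 (‖z0‖ ^ 2 / 2) ((B0 + B0) * ‖z0‖) hu1pos
      (by linarith) (by positivity) (by positivity)
      (fun _ => (starRingEnd ℂ) z0) hJc
      (by
        filter_upwards [key] with T hT u hu
        exact le_trans (by positivity) (hT u hu))
      (by
        filter_upwards [key] with T hT u hu
        exact hT u ⟨by linarith [hu.1], by linarith [hu.2]⟩)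
      (by
        filter_upwards [hJB] with T a u hu
        rw [norm_mul, RCLike.norm_conj]
        exact mul_le_mul_of_nonneg_right (a u hu) (norm_nonneg _))
    obtain ⟨T, a, b⟩ := (this.and hJ0).exists
    exact a b
  rw [← J_eq] at hz0
  have hLne : ((r 0 - l 0 : ℝ) : ℂ) ≠ 0 := by exact_mod_cast hpos.ne'
  have hc0 : c0 ≠ 0 := by
    rintro rfl
    apply hLne
    rw [← hz0]
    simp
  have hc : -(Complex.I * c0) ≠ 0 := neg_ne_zero.2 (mul_ne_zero Complex.I_ne_zero hc0)
  have hint : ∫ x in (l 0)..(r 0), Complex.exp (-(Complex.I * c0 * x)) =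
      ∫ x in (l 0)..(r 0), Complex.exp (-(Complex.I * c0) * x) := by
    apply intervalIntegral.integral_congr
    intro x _
    show Complex.exp _ = Complex.exp _
    congr 1
    ring
  rw [hint, integral_exp_mul_complex hc, div_eq_zero_iff] at hz0
  have hee : Complex.exp (-(Complex.I * c0) * (r 0)) = Complex.exp (-(Complex.I * c0) * (l 0)) := by
    rcases hz0 with h1 | h1
    · exact sub_eq_zero.1 h1
    · exact absurd h1 hc
  rw [Complex.exp_eq_exp_iff_exists_int] at hee
  obtain ⟨n, hn⟩ := hee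
  have hmain : c0 * ((r 0 - l 0 : ℝ) : ℂ) = 2 * Real.pi * ((-n : ℤ) : ℂ) := by
    push_cast
    have h5 : Complex.I * (c0 * ((r 0 : ℂ) - l 0)) = Complex.I * (2 * Real.pi * (-(n : ℂ))) := by
      linear_combination -hn
    exact mul_left_cancel₀ Complex.I_ne_zero h5
  refine ⟨-n, ?_, hmain⟩
  intro hn0
  rw [hn0, Int.cast_zero, mul_zero] at hmain
  exact (mul_ne_zero hc0 hLne) hmain

end Helper112.Pf
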