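import Mathlib
import Pool.Agent.Helper112.Pf.Defs2

set_option autoImplicit false

namespace Helper112.Pf

open MeasureTheory



/-! TO PROVE -/

theorem kap_lim_J (a : ℝ) (ha : 0 < a) :
    Filter.Tendsto (fun T : ℝ => T ^ 2 * ∫ u in (0 : ℝ)..a, Real.exp (-(T * u)) * u)
      Filter.atTop (nhds 1) := by
  have h1 : ∀ T : ℝ, 0 < T → T ^ 2 * ∫ u in (0 : ℝ)..a, Real.exp (-(T * u)) * u
      = 1 - ((T * a) ^ 1 * Real.exp (-(T * a)) + (T * a) ^ 0 * Real.exp (-(T * a))) := by
    intro T hT
    have hd : ∀ u ∈ Set.uIcc 0 a, HasDerivAt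
        (fun u : ℝ => -((T * u + 1) * Real.exp (-(T * u)) / T ^ 2))
        (Real.exp (-(T * u)) * u) u := by
      intro u _
      have e1 : HasDerivAt (fun u : ℝ => T * u + 1) T u := by
        simpa using ((hasDerivAt_id u).const_mul T).add_const 1
      have e2 : HasDerivAt (fun u : ℝ => Real.exp (-(T * u))) (Real.exp (-(T * u)) * (-T)) u := by
        have : HasDerivAt (fun u : ℝ => -(T * u)) (-T) u := by
          have h0 := ((hasDerivAt_id u).const_mul T).neg
          rw [mul_one] at h0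
          exact h0
        exact this.exp
      have e3 := ((e1.mul e2).div_const (T ^ 2)).neg
      refine e3.congr_deriv ?_
      field_simp
      ring
    rw [intervalIntegral.integral_eq_sub_of_hasDerivAt hd
      (Continuous.intervalIntegrable (by fun_prop) _ _)]
    simp only [mul_zero, neg_zero, Real.exp_zero, zero_add, pow_one, pow_zero, one_mul]
    field_simp
    ring
  have hTa : Filter.Tendsto (fun T : ℝ => T * a) Filter.atTop Filter.atTop :=
    Filter.tendsto_id.atTop_mul_const ha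
  have l1 := (Real.tendsto_pow_mul_exp_neg_atTop_nhds_zero 1).comp hTa
  have l0 := (Real.tendsto_pow_mul_exp_neg_atTop_nhds_zero 0).comp hTa
  have l := (l1.add l0).const_sub 1
  rw [add_zero, sub_zero] at l
  refine l.congr' ?_
  filter_upwards [Filter.eventually_gt_atTop 0] with T hT
  rw [h1 T hT]
  rfl

theorem kap_lim_low (δ : ℝ → ℝ) (H : ℝ) (hc : ContinuousOn δ (Set.Icc 0 H))
    (m u1 : ℝ) (hu1 : 0 < u1) (hu1H : u1 ≤ H) (hm : ∀ u ∈ Set.Icc 0 u1, m * u ≤ δ u)
    (a : ℝ) (ham : a < m) : ∀ᶠ T in Filter.atTop, a < Kap δ H T := by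
  have hH : 0 ≤ H := hu1.le.trans hu1H
  obtain ⟨B, hB⟩ := (isCompact_Icc (a := (0:ℝ)) (b := H)).bddBelow_image hc
  have hB' : ∀ u ∈ Set.Icc 0 H, B ≤ δ u := fun u hu => hB (Set.mem_image_of_mem _ hu)
  set C : ℝ := |B| with hC
  have hlow : ∀ T : ℝ, 0 < T → m * (T ^ 2 * ∫ u in (0 : ℝ)..u1, Real.exp (-(T * u)) * u)
      - (C * H / u1 ^ 2) * ((T * u1) ^ 2 * Real.exp (-(T * u1))) ≤ Kap δ H T := by
    intro T hT
    have hcont : ContinuousOn (fun u => Real.exp (-(T * u)) * δ u) (Set.Icc 0 H) := by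
      apply ContinuousOn.mul _ hc
      exact Continuous.continuousOn (by fun_prop)
    have hi : IntervalIntegrable (fun u => Real.exp (-(T * u)) * δ u) volume 0 H := by
      apply ContinuousOn.intervalIntegrable
      rwa [Set.uIcc_of_le hH]
    have hi1 : IntervalIntegrable (fun u => Real.exp (-(T * u)) * δ u) volume 0 u1 := by
      apply hi.mono_set
      rw [Set.uIcc_of_le hu1.le, Set.uIcc_of_le hH]
      exact Set.Icc_subset_Icc le_rfl hu1H
    have hi2 : IntervalIntegrable (fun u => Real.exp (-(T * u)) * δ u) volume u1 H := by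
      apply hi.mono_set
      rw [Set.uIcc_of_le hu1H, Set.uIcc_of_le hH]
      exact Set.Icc_subset_Icc hu1.le le_rfl
    have hs := intervalIntegral.integral_add_adjacent_intervals hi1 hi2
    unfold Kap
    rw [← hs, mul_add]
    have p1 : m * (∫ u in (0 : ℝ)..u1, Real.exp (-(T * u)) * u)
        ≤ ∫ u in (0 : ℝ)..u1, Real.exp (-(T * u)) * δ u := by
      rw [← intervalIntegral.integral_const_mul]
      apply intervalIntegral.integral_mono_on hu1.le _ hi1
      · intro u hu
        have := hm u hu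
        have he := Real.exp_pos (-(T * u))
        nlinarith
      · exact Continuous.intervalIntegrable (by fun_prop) _ _
    have p2 : -(C * H * Real.exp (-(T * u1))) ≤ ∫ u in u1..H, Real.exp (-(T * u)) * δ u := by
      have h1 : ∫ _u in u1..H, -(C * Real.exp (-(T * u1)))
          ≤ ∫ u in u1..H, Real.exp (-(T * u)) * δ u := by
        apply intervalIntegral.integral_mono_on hu1H _ hi2
        · intro u hu
          have h2 : -C ≤ δ u := (neg_abs_le B).trans (hB' u ⟨hu1.le.trans hu.1, hu.2⟩)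
          have h3 : Real.exp (-(T * u)) ≤ Real.exp (-(T * u1)) := by
            apply Real.exp_le_exp.2
            have := mul_le_mul_of_nonneg_left hu.1 hT.le
            linarith
          have he := Real.exp_pos (-(T * u))
          have hC0 : 0 ≤ C := abs_nonneg B
          nlinarith [mul_le_mul_of_nonneg_left h2 he.le, mul_le_mul_of_nonneg_left h3 hC0]
        · exact Continuous.intervalIntegrable (by fun_prop) _ _
      rw [intervalIntegral.integral_const, smul_eq_mul] at h1
      refine le_trans ?_ h1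
      have hC0 : 0 ≤ C := abs_nonneg B
      have he := Real.exp_pos (-(T * u1))
      have : 0 ≤ C * Real.exp (-(T * u1)) * u1 := by positivity
      nlinarith
    have hT2 : 0 < T ^ 2 := by positivity
    have q1 := mul_le_mul_of_nonneg_left p1 hT2.le
    have q2 := mul_le_mul_of_nonneg_left p2 hT2.le
    have e : (C * H / u1 ^ 2) * ((T * u1) ^ 2 * Real.exp (-(T * u1)))
        = T ^ 2 * (C * H * Real.exp (-(T * u1))) := by
      field_simp
    rw [e]
    linarith
  have hTa : Filter.Tendsto (fun T : ℝ => T * u1) Filter.atTop Filter.atTop :=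
    Filter.tendsto_id.atTop_mul_const hu1
  have l2 := ((Real.tendsto_pow_mul_exp_neg_atTop_nhds_zero 2).comp hTa).const_mul (C * H / u1 ^ 2)
  have l1 := (kap_lim_J u1 hu1).const_mul m
  have l := l1.sub l2
  rw [mul_one, mul_zero, sub_zero] at l
  have hev := l.eventually (lt_mem_nhds ham)
  filter_upwards [hev, Filter.eventually_gt_atTop 0] with T h1 h2
  exact lt_of_lt_of_le h1 (hlow T h2)

theorem kap_lim_slope (δ : ℝ → ℝ) (H : ℝ) (hδ : ConcaveOn ℝ (Set.Icc 0 H) δ)
    (h0 : δ 0 = 0) (u1 : ℝ) (hu1 : 0 < u1) (hu1H : u1 ≤ H) :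
    ∀ u ∈ Set.Icc 0 u1, δ u1 / u1 * u ≤ δ u := by
  intro u hu
  have hH : 0 ≤ H := hu1.le.trans hu1H
  have h := hδ.2 (Set.left_mem_Icc.2 hH) (⟨hu1.le, hu1H⟩ : u1 ∈ Set.Icc 0 H)
    (by rw [sub_nonneg, div_le_one hu1]; exact hu.2 : (0:ℝ) ≤ 1 - u / u1)
    (div_nonneg hu.1 hu1.le : (0:ℝ) ≤ u / u1) (by ring)
  simp only [smul_eq_mul, mul_zero, zero_add, h0] at h
  rw [div_mul_cancel₀ _ hu1.ne'] at h
  calc δ u1 / u1 * u = u / u1 * δ u1 := by ring
    _ ≤ δ u := h

theorem kap_lim (δ : ℝ → ℝ) (H : ℝ) (hH : 0 < H) (hδ : ConcaveOn ℝ (Set.Icc 0 H) δ)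
    (hc : ContinuousOn δ (Set.Icc 0 H)) (h0 : δ 0 = 0) :
    (∃ κ : ℝ, Filter.Tendsto (fun T => Kap δ H T) Filter.atTop (nhds κ) ∧ ∀ u ∈ Set.Icc 0 H, δ u ≤ κ * u) ∨
    Filter.Tendsto (fun T => Kap δ H T) Filter.atTop Filter.atTop := by
  set S : Set ℝ := (fun u => δ u / u) '' Set.Ioc 0 H with hS
  have hne : S.Nonempty := ⟨_, H, ⟨hH, le_rfl⟩, rfl⟩
  by_cases hb : BddAbove S
  · left
    refine ⟨sSup S, ?_, ?_⟩
    · rw [tendsto_order]
      constructor
      · intro a ha
        obtain ⟨_, ⟨u1, hu1, rfl⟩, h1⟩ := exists_lt_of_lt_csSup hne ha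
        exact kap_lim_low δ H hc (δ u1 / u1) u1 hu1.1 hu1.2
          (kap_lim_slope δ H hδ h0 u1 hu1.1 hu1.2) a h1
      · intro b hb'
        have l := (kap_lim_J H hH).const_mul (sSup S)
        rw [mul_one] at l
        have hev := l.eventually (gt_mem_nhds hb')
        filter_upwards [hev, Filter.eventually_gt_atTop 0] with T h1 h2
        refine lt_of_le_of_lt ?_ h1
        unfold Kap
        rw [mul_left_comm]
        apply mul_le_mul_of_nonneg_left _ (by positivity)
        rw [← intervalIntegral.integral_const_mul]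
        apply intervalIntegral.integral_mono_on hH.le
        · apply ContinuousOn.intervalIntegrable
          rw [Set.uIcc_of_le hH.le]
          apply ContinuousOn.mul _ hc
          exact Continuous.continuousOn (by fun_prop)
        · exact Continuous.intervalIntegrable (by fun_prop) _ _
        · intro u hu
          have : δ u ≤ sSup S * u := by
            rcases hu.1.eq_or_lt with h | h
            · rw [← h, h0, mul_zero]
            · rw [← div_le_iff₀ h]
              exact le_csSup hb ⟨u, ⟨h, hu.2⟩, rfl⟩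
          have he := Real.exp_pos (-(T * u))
          nlinarith
    · intro u hu
      rcases hu.1.eq_or_lt with h | h
      · rw [← h, h0, mul_zero]
      · rw [← div_le_iff₀ h]
        exact le_csSup hb ⟨u, ⟨h, hu.2⟩, rfl⟩
  · right
    rw [Filter.tendsto_atTop]
    intro b
    rw [not_bddAbove_iff] at hb
    obtain ⟨_, ⟨u1, hu1, rfl⟩, h1⟩ := hb b
    have := kap_lim_low δ H hc (δ u1 / u1) u1 hu1.1 hu1.2
      (kap_lim_slope δ H hδ h0 u1 hu1.1 hu1.2) b h1
    filter_upwards [this] with T hT
    exact hT.le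

end Helper112.Pf
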