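import Mathlib
import Pool.Agent.Helper112.Pf.Defs2

set_option autoImplicit false

namespace Helper112.Pf

open MeasureTheory



theorem pf_exp1 (w : ℂ) (M : ℝ) (h : ‖w‖ ≤ M) : ‖Complex.exp w - 1‖ ≤ Real.exp M - 1 := by
  have h1 := Complex.norm_exp_sub_sum_le_exp_norm_sub_sum w 1
  simp at h1
  have h2 := Real.exp_le_exp.2 h
  linarith

theorem pf_exp (M : ℝ) (w1 w2 : ℂ) (h1 : ‖w1‖ ≤ M) (h2 : ‖w2‖ ≤ M) :
    ‖Complex.exp w1 - Complex.exp w2 - (w1 - w2)‖ ≤ (Real.exp M - 1) * ‖w1 - w2‖ := by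
  have key := Convex.norm_image_sub_le_of_norm_hasDerivWithin_le (𝕜 := ℂ)
    (f := fun w => Complex.exp w - w) (f' := fun w => Complex.exp w - 1)
    (C := Real.exp M - 1) (s := Metric.closedBall (0:ℂ) M) (x := w2) (y := w1)
    (fun x _ => ((Complex.hasDerivAt_exp x).sub (hasDerivAt_id x)).hasDerivWithinAt)
    (fun x hx => pf_exp1 x M (by simpa using hx)) (convex_closedBall 0 M)
    (by simpa using h2) (by simpa using h1)
  have e : Complex.exp w1 - Complex.exp w2 - (w1 - w2) =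
    (Complex.exp w1 - w1) - (Complex.exp w2 - w2) := by ring
  rw [e]
  exact key

theorem pf_norm (T u : ℝ) : ‖Complex.exp (-((T : ℂ) * u))‖ = Real.exp (-(T * u)) := by
  rw [Complex.norm_exp]
  congr 1
  simp

theorem pf_split (H : ℝ) (R : ℝ → ℂ) (w : ℝ → ℝ) (u0 ε C T : ℝ)
    (hR : ContinuousOn R (Set.Icc 0 H)) (hw : ContinuousOn w (Set.Icc 0 H))
    (hu0 : 0 < u0) (hu0H : u0 ≤ H) (hε : 0 ≤ ε) (hC : 0 ≤ C) (hT : 0 ≤ T)
    (h1 : ∀ u ∈ Set.Icc 0 u0, ‖R u‖ ≤ ε * |w u|) (h2 : ∀ u ∈ Set.Icc 0 H, ‖R u‖ ≤ C)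
    (h3 : ∀ u ∈ Set.Icc 0 H, |w u| ≤ C)
    (hs : (∀ u ∈ Set.Icc 0 u0, 0 ≤ w u) ∨ (∀ u ∈ Set.Icc 0 u0, w u ≤ 0)) :
    ‖∫ u in (0:ℝ)..H, Complex.exp (-((T : ℂ) * u)) * R u‖ ≤
      ε * |∫ u in (0:ℝ)..H, Real.exp (-(T * u)) * w u| +
        (ε + 1) * (C * H * Real.exp (-(T * u0))) := by
  have hH : 0 < H := lt_of_lt_of_le hu0 hu0H
  have hc1 : ContinuousOn (fun u : ℝ => Complex.exp (-((T : ℂ) * u)) * R u) (Set.Icc 0 H) := by
    apply ContinuousOn.mul _ hR
    fun_prop
  have hc2 : ContinuousOn (fun u : ℝ => Real.exp (-(T * u)) * w u) (Set.Icc 0 H) := by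
    apply ContinuousOn.mul _ hw
    fun_prop
  have hc3 : ContinuousOn (fun u : ℝ => Real.exp (-(T * u)) * |w u|) (Set.Icc 0 H) := by
    apply ContinuousOn.mul _ hw.abs
    fun_prop
  have i1a : IntervalIntegrable (fun u : ℝ => Complex.exp (-((T : ℂ) * u)) * R u) volume 0 u0 :=
    (hc1.mono (by rw [Set.uIcc_of_le hu0.le]; exact Set.Icc_subset_Icc_right hu0H)).intervalIntegrable
  have i1b : IntervalIntegrable (fun u : ℝ => Complex.exp (-((T : ℂ) * u)) * R u) volume u0 H :=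
    (hc1.mono (by rw [Set.uIcc_of_le hu0H]; exact Set.Icc_subset_Icc_left hu0.le)).intervalIntegrable
  have i2a : IntervalIntegrable (fun u : ℝ => Real.exp (-(T * u)) * w u) volume 0 u0 :=
    (hc2.mono (by rw [Set.uIcc_of_le hu0.le]; exact Set.Icc_subset_Icc_right hu0H)).intervalIntegrable
  have i2b : IntervalIntegrable (fun u : ℝ => Real.exp (-(T * u)) * w u) volume u0 H :=
    (hc2.mono (by rw [Set.uIcc_of_le hu0H]; exact Set.Icc_subset_Icc_left hu0.le)).intervalIntegrable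
  have i3a : IntervalIntegrable (fun u : ℝ => Real.exp (-(T * u)) * |w u|) volume 0 u0 :=
    (hc3.mono (by rw [Set.uIcc_of_le hu0.le]; exact Set.Icc_subset_Icc_right hu0H)).intervalIntegrable
  set B : ℝ := C * Real.exp (-(T * u0)) * (H - u0) with hB
  have hB0 : 0 ≤ B := by
    rw [hB]
    have : 0 ≤ H - u0 := by linarith
    positivity
  have hBle : B ≤ C * H * Real.exp (-(T * u0)) := by
    rw [hB]
    have h4 : C * Real.exp (-(T * u0)) * (H - u0) ≤ C * Real.exp (-(T * u0)) * H := by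
      apply mul_le_mul_of_nonneg_left (by linarith) (by positivity)
    linarith
  have t1 : ‖∫ u in (u0:ℝ)..H, Complex.exp (-((T : ℂ) * u)) * R u‖ ≤ B := by
    have := intervalIntegral.norm_integral_le_of_norm_le_const (a := u0) (b := H)
      (C := C * Real.exp (-(T * u0))) (f := fun u : ℝ => Complex.exp (-((T : ℂ) * u)) * R u) (by
        intro u hu
        rw [Set.uIoc_of_le hu0H] at hu
        rw [norm_mul, pf_norm, mul_comm]
        apply mul_le_mul (h2 u ⟨by linarith [hu.1], hu.2⟩) _ (Real.exp_pos _).le hC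
        apply Real.exp_le_exp.2
        have : T * u0 ≤ T * u := mul_le_mul_of_nonneg_left hu.1.le hT
        linarith)
    rwa [abs_of_nonneg (by linarith : 0 ≤ H - u0)] at this
  have t2 : |∫ u in (u0:ℝ)..H, Real.exp (-(T * u)) * w u| ≤ B := by
    have := intervalIntegral.norm_integral_le_of_norm_le_const (a := u0) (b := H)
      (C := C * Real.exp (-(T * u0))) (f := fun u : ℝ => Real.exp (-(T * u)) * w u) (by
        intro u hu
        rw [Set.uIoc_of_le hu0H] at hu
        rw [norm_mul, Real.norm_eq_abs, Real.norm_eq_abs, abs_of_pos (Real.exp_pos _), mul_comm]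
        apply mul_le_mul (h3 u ⟨by linarith [hu.1], hu.2⟩) _ (Real.exp_pos _).le hC
        apply Real.exp_le_exp.2
        have : T * u0 ≤ T * u := mul_le_mul_of_nonneg_left hu.1.le hT
        linarith)
    rwa [abs_of_nonneg (by linarith : 0 ≤ H - u0)] at this
  have t3 : ‖∫ u in (0:ℝ)..u0, Complex.exp (-((T : ℂ) * u)) * R u‖ ≤
      ε * ∫ u in (0:ℝ)..u0, Real.exp (-(T * u)) * |w u| := by
    calc _ ≤ ∫ u in (0:ℝ)..u0, ‖Complex.exp (-((T : ℂ) * u)) * R u‖ :=
          intervalIntegral.norm_integral_le_integral_norm hu0.le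
      _ ≤ ∫ u in (0:ℝ)..u0, ε * (Real.exp (-(T * u)) * |w u|) := by
          apply intervalIntegral.integral_mono_on hu0.le i1a.norm (i3a.const_mul ε)
          intro u hu
          rw [norm_mul, pf_norm]
          have := h1 u hu
          have h5 := Real.exp_pos (-(T * u))
          calc Real.exp (-(T * u)) * ‖R u‖ ≤ Real.exp (-(T * u)) * (ε * |w u|) :=
                mul_le_mul_of_nonneg_left this h5.le
            _ = _ := by ring
      _ = _ := by rw [intervalIntegral.integral_const_mul]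
  have t4 : ∫ u in (0:ℝ)..u0, Real.exp (-(T * u)) * |w u| ≤
      |∫ u in (0:ℝ)..u0, Real.exp (-(T * u)) * w u| := by
    rcases hs with hs | hs
    · refine le_trans (le_of_eq ?_) (le_abs_self _)
      apply intervalIntegral.integral_congr
      intro u hu
      rw [Set.uIcc_of_le hu0.le] at hu
      show Real.exp (-(T * u)) * |w u| = Real.exp (-(T * u)) * w u
      rw [abs_of_nonneg (hs u hu)]
    · refine le_trans (le_of_eq ?_) (neg_le_abs _)
      rw [← intervalIntegral.integral_neg]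
      apply intervalIntegral.integral_congr
      intro u hu
      rw [Set.uIcc_of_le hu0.le] at hu
      show Real.exp (-(T * u)) * |w u| = -(Real.exp (-(T * u)) * w u)
      rw [abs_of_nonpos (hs u hu)]
      ring
  have e1 : ∫ u in (0:ℝ)..H, Complex.exp (-((T : ℂ) * u)) * R u =
      (∫ u in (0:ℝ)..u0, Complex.exp (-((T : ℂ) * u)) * R u) +
        ∫ u in (u0:ℝ)..H, Complex.exp (-((T : ℂ) * u)) * R u :=
    (intervalIntegral.integral_add_adjacent_intervals i1a i1b).symm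
  have e2 : ∫ u in (0:ℝ)..H, Real.exp (-(T * u)) * w u =
      (∫ u in (0:ℝ)..u0, Real.exp (-(T * u)) * w u) +
        ∫ u in (u0:ℝ)..H, Real.exp (-(T * u)) * w u :=
    (intervalIntegral.integral_add_adjacent_intervals i2a i2b).symm
  have t5 : |∫ u in (0:ℝ)..u0, Real.exp (-(T * u)) * w u| ≤
      |∫ u in (0:ℝ)..H, Real.exp (-(T * u)) * w u| + B := by
    have : (∫ u in (0:ℝ)..u0, Real.exp (-(T * u)) * w u) =
      (∫ u in (0:ℝ)..H, Real.exp (-(T * u)) * w u) - ∫ u in (u0:ℝ)..H, Real.exp (-(T * u)) * w u := by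
      rw [e2]; ring
    rw [this]
    refine (abs_sub _ _).trans ?_
    linarith
  rw [e1]
  refine (norm_add_le _ _).trans ?_
  have t6 : ε * ∫ u in (0:ℝ)..u0, Real.exp (-(T * u)) * |w u| ≤
      ε * (|∫ u in (0:ℝ)..H, Real.exp (-(T * u)) * w u| + B) :=
    mul_le_mul_of_nonneg_left (t4.trans t5) hε
  have t7 : (ε + 1) * B ≤ (ε + 1) * (C * H * Real.exp (-(T * u0))) :=
    mul_le_mul_of_nonneg_left hBle (by linarith)
  linarith

theorem pf_sign (δ : ℝ → ℝ) (H : ℝ) (hH : 0 < H) (hδ : ConcaveOn ℝ (Set.Icc 0 H) δ) (h0 : δ 0 = 0) :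
    ∃ e : ℝ, 0 < e ∧ e ≤ H ∧ ((∀ u ∈ Set.Icc 0 e, 0 ≤ δ u) ∨ (∀ u ∈ Set.Icc 0 e, δ u ≤ 0)) := by
  by_cases h : ∃ u1, 0 < u1 ∧ u1 ≤ H ∧ 0 < δ u1
  · obtain ⟨u1, hu1, hu1H, hd⟩ := h
    refine ⟨u1, hu1, hu1H, Or.inl ?_⟩
    intro u hu
    have h1 := hδ.2 (show (0:ℝ) ∈ Set.Icc 0 H from ⟨le_rfl, hH.le⟩)
      (show u1 ∈ Set.Icc 0 H from ⟨hu1.le, hu1H⟩)
      (show (0:ℝ) ≤ 1 - u / u1 by rw [sub_nonneg, div_le_one hu1]; exact hu.2)
      (show (0:ℝ) ≤ u / u1 from div_nonneg hu.1 hu1.le) (by ring)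
    have e : (1 - u / u1) • (0:ℝ) + (u / u1) • u1 = u := by
      simp only [smul_eq_mul]
      field_simp
      ring
    rw [e, h0] at h1
    simp only [smul_eq_mul, mul_zero, zero_add] at h1
    have : 0 ≤ u / u1 * δ u1 := mul_nonneg (div_nonneg hu.1 hu1.le) hd.le
    linarith
  · push Not at h
    refine ⟨H, hH, le_rfl, Or.inr ?_⟩
    intro u hu
    rcases eq_or_lt_of_le hu.1 with h' | h'
    · rw [← h', h0]
    · exact h u h' hu.2

theorem pf_tail (u0 : ℝ) (hu0 : 0 < u0) (n : ℕ) :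
    Filter.Tendsto (fun T : ℝ => T ^ n * Real.exp (-(T * u0))) Filter.atTop (nhds 0) := by
  have h1 := Real.tendsto_pow_mul_exp_neg_atTop_nhds_zero n
  have h2 : Filter.Tendsto (fun T : ℝ => T * u0) Filter.atTop Filter.atTop :=
    Filter.tendsto_id.atTop_mul_const hu0
  have h3 := (h1.comp h2).const_mul ((u0 ^ n)⁻¹)
  rw [mul_zero] at h3
  refine h3.congr ?_
  intro T
  simp only [Function.comp_apply]
  rw [mul_pow]
  field_simp


theorem pf_zero_eq (l r : ℝ → ℝ) (H : ℝ) (h : Prof l r H) (c : ℝ)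
    (k : ℤ) (hck : c * (r 0 - l 0) = 2 * Real.pi * k) (y : ℂ) (T : ℝ) (hs : (c : ℂ) + y ≠ 0)
    (hz : Lap l r H (c + y) T = 0) :
    (Complex.I * (c + y)) * ((∫ u in (0:ℝ)..H, Real.exp (-(T * u)) * ((r u - l u) - (r 0 - l 0)) : ℝ) : ℂ)
      + (∫ u in (0:ℝ)..H, Complex.exp (-((T : ℂ) * u)) *
        (Complex.exp (-(Complex.I * (c + y) * ((l u - l 0 : ℝ) : ℂ))) -
          Complex.exp (-(Complex.I * (c + y) * ((r u - r 0 : ℝ) : ℂ))) -
          (-(Complex.I * (c + y) * ((l u - l 0 : ℝ) : ℂ)) -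
            -(Complex.I * (c + y) * ((r u - r 0 : ℝ) : ℂ)))))
      + (1 - Complex.exp (-(Complex.I * y * ((r 0 - l 0 : ℝ) : ℂ)))) *
        (∫ u in (0:ℝ)..H, Complex.exp (-((T : ℂ) * u)) *
          Complex.exp (-(Complex.I * (c + y) * ((r u - r 0 : ℝ) : ℂ)))) = 0 := by
  obtain ⟨hH, -, -, hl, hr, -, -⟩ := h
  set s : ℂ := (c : ℂ) + y with hsdef
  have hcl : ContinuousOn (fun u : ℝ => ((l u : ℝ) : ℂ)) (Set.Icc 0 H) :=
    Complex.continuous_ofReal.comp_continuousOn hl
  have hcr : ContinuousOn (fun u : ℝ => ((r u : ℝ) : ℂ)) (Set.Icc 0 H) :=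
    Complex.continuous_ofReal.comp_continuousOn hr
  have hcT : ContinuousOn (fun u : ℝ => Complex.exp (-((T : ℂ) * u))) (Set.Icc 0 H) := by fun_prop
  have hIs : Complex.I * s ≠ 0 := mul_ne_zero Complex.I_ne_zero hs
  -- inner integral
  have hinner : ∀ u : ℝ, ∫ x in (l u)..(r u), Complex.exp (-(Complex.I * s * x)) =
      (Complex.exp (-(Complex.I * s * l u)) - Complex.exp (-(Complex.I * s * r u))) / (Complex.I * s) := by
    intro u
    have h1 := integral_exp_mul_complex (a := l u) (b := r u) (c := -(Complex.I * s)) (neg_ne_zero.2 hIs)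
    have h2 : ∀ x : ℝ, Complex.exp (-(Complex.I * s) * x) = Complex.exp (-(Complex.I * s * x)) := by
      intro x; rw [neg_mul]
    simp_rw [h2] at h1
    rw [h1, div_neg, ← neg_div, neg_sub]
  have hL : ∫ u in (0 : ℝ)..H, Complex.exp (-((T : ℂ) * u)) *
      (Complex.exp (-(Complex.I * s * l u)) - Complex.exp (-(Complex.I * s * r u))) = 0 := by
    unfold Lap at hz
    simp_rw [hinner] at hz
    have h3 : ∀ u : ℝ, Complex.exp (-((T : ℂ) * u)) *
        ((Complex.exp (-(Complex.I * s * l u)) - Complex.exp (-(Complex.I * s * r u))) / (Complex.I * s)) =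
        (Complex.I * s)⁻¹ * (Complex.exp (-((T : ℂ) * u)) *
        (Complex.exp (-(Complex.I * s * l u)) - Complex.exp (-(Complex.I * s * r u)))) := by
      intro u; rw [div_eq_mul_inv]; ring
    simp_rw [h3] at hz
    rw [intervalIntegral.integral_const_mul] at hz
    exact (mul_eq_zero.1 hz).resolve_left (inv_ne_zero hIs)
  have hexpL : Complex.exp (-(Complex.I * s * ((r 0 - l 0 : ℝ) : ℂ))) =
      Complex.exp (-(Complex.I * y * ((r 0 - l 0 : ℝ) : ℂ))) := by
    have e1 : -(Complex.I * s * ((r 0 - l 0 : ℝ) : ℂ)) =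
        ((-k : ℤ) : ℂ) * (2 * Real.pi * Complex.I) + -(Complex.I * y * ((r 0 - l 0 : ℝ) : ℂ)) := by
      have e2 : (c : ℂ) * ((r 0 - l 0 : ℝ) : ℂ) = 2 * Real.pi * k := by
        rw [← Complex.ofReal_mul, hck]; push_cast; ring
      have e3 : -(Complex.I * s * ((r 0 - l 0 : ℝ) : ℂ)) =
        -(Complex.I * ((c : ℂ) * ((r 0 - l 0 : ℝ) : ℂ))) + -(Complex.I * y * ((r 0 - l 0 : ℝ) : ℂ)) := by
        rw [hsdef]; ring
      rw [e3, e2]
      push_cast
      ring
    rw [e1, Complex.exp_add, Complex.exp_int_mul_two_pi_mul_I, one_mul]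
  -- pointwise identity
  have hpt : ∀ u : ℝ, Complex.exp (Complex.I * s * l 0) * (Complex.exp (-((T : ℂ) * u)) *
      (Complex.exp (-(Complex.I * s * l u)) - Complex.exp (-(Complex.I * s * r u)))) =
      (Complex.I * s) * ((Real.exp (-(T * u)) * ((r u - l u) - (r 0 - l 0)) : ℝ) : ℂ) +
      Complex.exp (-((T : ℂ) * u)) *
        (Complex.exp (-(Complex.I * s * ((l u - l 0 : ℝ) : ℂ))) -
          Complex.exp (-(Complex.I * s * ((r u - r 0 : ℝ) : ℂ))) -
          (-(Complex.I * s * ((l u - l 0 : ℝ) : ℂ)) -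
            -(Complex.I * s * ((r u - r 0 : ℝ) : ℂ)))) +
      (1 - Complex.exp (-(Complex.I * y * ((r 0 - l 0 : ℝ) : ℂ)))) *
        (Complex.exp (-((T : ℂ) * u)) *
          Complex.exp (-(Complex.I * s * ((r u - r 0 : ℝ) : ℂ)))) := by
    intro u
    rw [← hexpL]
    have a1 : Complex.exp (-(Complex.I * s * ((l u - l 0 : ℝ) : ℂ))) =
        Complex.exp (Complex.I * s * l 0) * Complex.exp (-(Complex.I * s * l u)) := by
      rw [← Complex.exp_add]; congr 1; push_cast; ring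
    have a2 : Complex.exp (Complex.I * s * l 0) * Complex.exp (-(Complex.I * s * r u)) =
        Complex.exp (-(Complex.I * s * ((r 0 - l 0 : ℝ) : ℂ))) *
          Complex.exp (-(Complex.I * s * ((r u - r 0 : ℝ) : ℂ))) := by
      rw [← Complex.exp_add, ← Complex.exp_add]; congr 1; push_cast; ring
    have a3 : ((Real.exp (-(T * u)) * ((r u - l u) - (r 0 - l 0)) : ℝ) : ℂ) =
        Complex.exp (-((T : ℂ) * u)) * (((r u - l u) - (r 0 - l 0) : ℝ) : ℂ) := by
      push_cast; ring_nf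
    have a4 : Complex.exp (Complex.I * s * l 0) * (Complex.exp (-((T : ℂ) * u)) *
      (Complex.exp (-(Complex.I * s * l u)) - Complex.exp (-(Complex.I * s * r u)))) =
      Complex.exp (-((T : ℂ) * u)) * (Complex.exp (Complex.I * s * l 0) * Complex.exp (-(Complex.I * s * l u))
        - Complex.exp (Complex.I * s * l 0) * Complex.exp (-(Complex.I * s * r u))) := by ring
    rw [a4, ← a1, a2, a3]
    push_cast
    ring
  have hint : ∀ f : ℝ → ℂ, ContinuousOn f (Set.Icc 0 H) → IntervalIntegrable f volume 0 H := by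
    intro f hf
    exact (hf.mono (by rw [Set.uIcc_of_le hH.le])).intervalIntegrable
  have hd1 : ContinuousOn (fun u : ℝ => ((Real.exp (-(T * u)) * ((r u - l u) - (r 0 - l 0)) : ℝ) : ℂ))
      (Set.Icc 0 H) := by
    apply Complex.continuous_ofReal.comp_continuousOn
    apply ContinuousOn.mul (by fun_prop)
    exact (hr.sub hl).sub continuousOn_const
  have hla : ContinuousOn (fun u : ℝ => -(Complex.I * s * ((l u - l 0 : ℝ) : ℂ))) (Set.Icc 0 H) := by
    apply ContinuousOn.neg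
    apply ContinuousOn.mul continuousOn_const
    exact Complex.continuous_ofReal.comp_continuousOn (hl.sub continuousOn_const)
  have hrb : ContinuousOn (fun u : ℝ => -(Complex.I * s * ((r u - r 0 : ℝ) : ℂ))) (Set.Icc 0 H) := by
    apply ContinuousOn.neg
    apply ContinuousOn.mul continuousOn_const
    exact Complex.continuous_ofReal.comp_continuousOn (hr.sub continuousOn_const)
  have hd2 : ContinuousOn (fun u : ℝ => Complex.exp (-((T : ℂ) * u)) *
        (Complex.exp (-(Complex.I * s * ((l u - l 0 : ℝ) : ℂ))) -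
          Complex.exp (-(Complex.I * s * ((r u - r 0 : ℝ) : ℂ))) -
          (-(Complex.I * s * ((l u - l 0 : ℝ) : ℂ)) -
            -(Complex.I * s * ((r u - r 0 : ℝ) : ℂ))))) (Set.Icc 0 H) :=
    hcT.mul (((hla.cexp).sub (hrb.cexp)).sub (hla.sub hrb))
  have hd3 : ContinuousOn (fun u : ℝ => Complex.exp (-((T : ℂ) * u)) *
          Complex.exp (-(Complex.I * s * ((r u - r 0 : ℝ) : ℂ)))) (Set.Icc 0 H) :=
    hcT.mul hrb.cexp
  have hfin : (0 : ℂ) = ∫ u in (0:ℝ)..H, Complex.exp (Complex.I * s * l 0) * (Complex.exp (-((T : ℂ) * u)) *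
      (Complex.exp (-(Complex.I * s * l u)) - Complex.exp (-(Complex.I * s * r u)))) := by
    rw [intervalIntegral.integral_const_mul, hL, mul_zero]
  simp_rw [hpt] at hfin
  rw [intervalIntegral.integral_add (((hint _ hd1).const_mul _).add (hint _ hd2))
      ((hint _ hd3).const_mul _),
    intervalIntegral.integral_add ((hint _ hd1).const_mul _) (hint _ hd2),
    intervalIntegral.integral_const_mul, intervalIntegral.integral_const_mul,
    intervalIntegral.integral_ofReal] at hfin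
  exact hfin.symm


theorem pf_prep (l r : ℝ → ℝ) (H : ℝ) (h : Prof l r H) : ∃ A e : ℝ, 0 ≤ A ∧ 0 < e ∧ e ≤ H ∧
    (∀ u ∈ Set.Icc 0 H, |l u - l 0| ≤ A ∧ |r u - r 0| ≤ A) ∧
    ((∀ u ∈ Set.Icc 0 e, 0 ≤ (r u - l u) - (r 0 - l 0)) ∨
      (∀ u ∈ Set.Icc 0 e, (r u - l u) - (r 0 - l 0) ≤ 0)) ∧
    ∀ η : ℝ, 0 < η → ∃ u0 : ℝ, 0 < u0 ∧ u0 ≤ e ∧
      ∀ u ∈ Set.Icc 0 u0, |l u - l 0| ≤ η ∧ |r u - r 0| ≤ η := by
  obtain ⟨hH, hcv, hcc, hl, hr, -, -⟩ := h
  obtain ⟨A1, hA1⟩ := isCompact_Icc.exists_bound_of_continuousOn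
    (hl.sub continuousOn_const : ContinuousOn (fun u => l u - l 0) (Set.Icc 0 H))
  obtain ⟨A2, hA2⟩ := isCompact_Icc.exists_bound_of_continuousOn
    (hr.sub continuousOn_const : ContinuousOn (fun u => r u - r 0) (Set.Icc 0 H))
  obtain ⟨e, he, heH, hsgn⟩ := pf_sign (fun u => (r u - l u) - (r 0 - l 0)) H hH (by
    refine ⟨convex_Icc 0 H, fun x hx z hz a b ha hb hab => ?_⟩
    have h1 := hcc.2 hx hz ha hb hab
    have h2 := hcv.2 hx hz ha hb hab
    simp only [smul_eq_mul] at h1 h2 ⊢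
    have e1 : a * (r x - l x - (r 0 - l 0)) + b * (r z - l z - (r 0 - l 0)) =
      (a * r x + b * r z) - (a * l x + b * l z) - (a + b) * (r 0 - l 0) := by ring
    rw [e1, hab, one_mul]
    linarith) (by simp)
  refine ⟨max (max A1 A2) 0, e, le_max_right _ _, he, heH, ?_, hsgn, ?_⟩
  · intro u hu
    have h1 := hA1 u hu
    have h2 := hA2 u hu
    rw [Real.norm_eq_abs] at h1 h2
    exact ⟨h1.trans ((le_max_left _ _).trans (le_max_left _ _)),
      h2.trans ((le_max_right _ _).trans (le_max_left _ _))⟩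
  · intro η hη
    obtain ⟨d1, hd1, h1⟩ := Metric.continuousWithinAt_iff.1 (hl 0 ⟨le_rfl, hH.le⟩) η hη
    obtain ⟨d2, hd2, h2⟩ := Metric.continuousWithinAt_iff.1 (hr 0 ⟨le_rfl, hH.le⟩) η hη
    refine ⟨min (min (d1 / 2) (d2 / 2)) e, by positivity, min_le_right _ _, ?_⟩
    intro u hu
    have hu1 : u ≤ d1 / 2 := hu.2.trans ((min_le_left _ _).trans (min_le_left _ _))
    have hu2 : u ≤ d2 / 2 := hu.2.trans ((min_le_left _ _).trans (min_le_right _ _))
    have hu3 : u ≤ H := (hu.2.trans (min_le_right _ _)).trans heH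
    have hd : dist u 0 = u := by rw [Real.dist_eq, sub_zero, abs_of_nonneg hu.1]
    have g1 := h1 ⟨hu.1, hu3⟩ (by rw [hd]; linarith)
    have g2 := h2 ⟨hu.1, hu3⟩ (by rw [hd]; linarith)
    rw [Real.dist_eq] at g1 g2
    exact ⟨g1.le, g2.le⟩

theorem pf_n1 (s : ℂ) (S x m : ℝ) (hs : ‖s‖ ≤ S) (hx : |x| ≤ m) (hm : 0 ≤ m) :
    ‖-(Complex.I * s * (x : ℂ))‖ ≤ S * m := by
  rw [norm_neg, norm_mul, norm_mul, Complex.norm_I, one_mul, Complex.norm_real, Real.norm_eq_abs]
  exact mul_le_mul hs hx (abs_nonneg _) ((norm_nonneg _).trans hs)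

theorem pf_n2 (s : ℂ) (S a b m : ℝ) (hs : ‖s‖ ≤ S) (ha : |a| ≤ m) (hb : |b| ≤ m) (hm : 0 ≤ m) :
    ‖Complex.exp (-(Complex.I * s * (a : ℂ))) - Complex.exp (-(Complex.I * s * (b : ℂ))) -
      (-(Complex.I * s * (a : ℂ)) - -(Complex.I * s * (b : ℂ)))‖ ≤
      (Real.exp (S * m) - 1) * (S * |b - a|) := by
  have hS : 0 ≤ S := (norm_nonneg _).trans hs
  refine (pf_exp (S * m) _ _ (pf_n1 s S a m hs ha hm) (pf_n1 s S b m hs hb hm)).trans ?_
  apply mul_le_mul_of_nonneg_left
  · have e : -(Complex.I * s * (a : ℂ)) - -(Complex.I * s * (b : ℂ)) =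
      Complex.I * s * ((b - a : ℝ) : ℂ) := by push_cast; ring
    rw [e, norm_mul, norm_mul, Complex.norm_I, one_mul, Complex.norm_real, Real.norm_eq_abs]
    exact mul_le_mul_of_nonneg_right hs (abs_nonneg _)
  · have := Real.one_le_exp (mul_nonneg hS hm)
    linarith

theorem pf_rho (l r : ℝ → ℝ) (H : ℝ) (h : Prof l r H) (c : ℝ) (y : ℝ → ℂ)
    (hy : Filter.Tendsto y Filter.atTop (nhds 0)) (ε : ℝ) (hε : 0 < ε) :
    ∀ᶠ T : ℝ in Filter.atTop, ‖(T : ℂ) ^ 2 * (∫ u in (0:ℝ)..H, Complex.exp (-((T : ℂ) * u)) *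
        (Complex.exp (-(Complex.I * (c + y T) * ((l u - l 0 : ℝ) : ℂ))) -
          Complex.exp (-(Complex.I * (c + y T) * ((r u - r 0 : ℝ) : ℂ))) -
          (-(Complex.I * (c + y T) * ((l u - l 0 : ℝ) : ℂ)) -
            -(Complex.I * (c + y T) * ((r u - r 0 : ℝ) : ℂ)))))‖ ≤
      ε * |T ^ 2 * ∫ u in (0:ℝ)..H, Real.exp (-(T * u)) * ((r u - l u) - (r 0 - l 0))| + ε := by
  obtain ⟨A, e, hA, he, heH, hAb, hsgn, hsm⟩ := pf_prep l r H h
  obtain ⟨hH, -, -, hl, hr, -, -⟩ := h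
  set S : ℝ := |c| + 1 with hS
  have hS0 : 0 < S := by positivity
  have hex : Real.exp (S * (Real.log (1 + ε / S) / S)) = 1 + ε / S := by
    rw [mul_div_cancel₀ _ hS0.ne', Real.exp_log (by positivity)]
  have hη : 0 < Real.log (1 + ε / S) / S := by
    apply div_pos _ hS0
    apply Real.log_pos
    have : 0 < ε / S := by positivity
    linarith
  obtain ⟨u0, hu0, hu0e, hsm0⟩ := hsm _ hη
  have hu0H : u0 ≤ H := hu0e.trans heH
  set C : ℝ := Real.exp (S * A) * (S * (2 * A)) + 2 * A with hC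
  have hC0 : 0 ≤ C := by positivity
  have htail : ∀ᶠ T : ℝ in Filter.atTop,
      ((ε + 1) * (C * H)) * (T ^ 2 * Real.exp (-(T * u0))) < ε := by
    have h1 := (pf_tail u0 hu0 2).const_mul ((ε + 1) * (C * H))
    rw [mul_zero] at h1
    exact (tendsto_order.1 h1).2 _ hε
  have hyS : ∀ᶠ T : ℝ in Filter.atTop, ‖y T‖ < 1 := by
    have h1 := Metric.tendsto_nhds.1 hy 1 one_pos
    simpa using h1
  filter_upwards [htail, Filter.eventually_ge_atTop 0, hyS] with T ht hT0 hyT
  have hsn : ‖(c : ℂ) + y T‖ ≤ S := by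
    refine (norm_add_le _ _).trans ?_
    rw [Complex.norm_real, Real.norm_eq_abs, hS]
    linarith
  have hla : ContinuousOn (fun u : ℝ => -(Complex.I * (c + y T) * ((l u - l 0 : ℝ) : ℂ))) (Set.Icc 0 H) := by
    apply ContinuousOn.neg
    apply ContinuousOn.mul continuousOn_const
    exact Complex.continuous_ofReal.comp_continuousOn (hl.sub continuousOn_const)
  have hrb : ContinuousOn (fun u : ℝ => -(Complex.I * (c + y T) * ((r u - r 0 : ℝ) : ℂ))) (Set.Icc 0 H) := by
    apply ContinuousOn.neg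
    apply ContinuousOn.mul continuousOn_const
    exact Complex.continuous_ofReal.comp_continuousOn (hr.sub continuousOn_const)
  have hδA : ∀ u ∈ Set.Icc 0 H, |(r u - l u) - (r 0 - l 0)| ≤ 2 * A := by
    intro u hu
    obtain ⟨h1, h2⟩ := hAb u hu
    have e1 : (r u - l u) - (r 0 - l 0) = (r u - r 0) - (l u - l 0) := by ring
    rw [e1]
    refine (abs_sub _ _).trans ?_
    linarith
  have hδe : ∀ u, (r u - r 0) - (l u - l 0) = (r u - l u) - (r 0 - l 0) := fun u => by ring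
  have key := pf_split H
    (fun u : ℝ => (Complex.exp (-(Complex.I * (c + y T) * ((l u - l 0 : ℝ) : ℂ))) -
          Complex.exp (-(Complex.I * (c + y T) * ((r u - r 0 : ℝ) : ℂ))) -
          (-(Complex.I * (c + y T) * ((l u - l 0 : ℝ) : ℂ)) -
            -(Complex.I * (c + y T) * ((r u - r 0 : ℝ) : ℂ)))))
    (fun u => (r u - l u) - (r 0 - l 0)) u0 ε C T
    (((hla.cexp).sub (hrb.cexp)).sub (hla.sub hrb)) ((hr.sub hl).sub continuousOn_const)
    hu0 hu0H hε.le hC0 hT0
    (by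
      intro u hu
      obtain ⟨h1, h2⟩ := hsm0 u hu
      refine (pf_n2 _ S _ _ _ hsn h1 h2 hη.le).trans ?_
      rw [hex, hδe]
      have : (1 + ε / S - 1) * (S * |r u - l u - (r 0 - l 0)|) = ε * |r u - l u - (r 0 - l 0)| := by
        field_simp
        ring
      rw [this])
    (by
      intro u hu
      obtain ⟨h1, h2⟩ := hAb u hu
      refine (pf_n2 _ S _ _ _ hsn h1 h2 hA).trans ?_
      rw [hδe, hC]
      have h3 := hδA u hu
      have h4 : (Real.exp (S * A) - 1) * (S * |r u - l u - (r 0 - l 0)|) ≤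
          Real.exp (S * A) * (S * (2 * A)) := by
        apply mul_le_mul (by linarith) _ (by positivity) (Real.exp_pos _).le
        exact mul_le_mul_of_nonneg_left h3 hS0.le
      linarith)
    (by
      intro u hu
      have h3 := hδA u hu
      have : 0 ≤ Real.exp (S * A) * (S * (2 * A)) := by positivity
      show |(r u - l u) - (r 0 - l 0)| ≤ C
      rw [hC]
      linarith)
    (by
      rcases hsgn with hs | hs
      · exact Or.inl fun u hu => hs u ⟨hu.1, hu.2.trans hu0e⟩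
      · exact Or.inr fun u hu => hs u ⟨hu.1, hu.2.trans hu0e⟩)
  rw [norm_mul, norm_pow, Complex.norm_real, Real.norm_eq_abs, abs_of_nonneg hT0, abs_mul,
    abs_of_nonneg (by positivity : (0:ℝ) ≤ T ^ 2)]
  have hT2 : 0 ≤ T ^ 2 := by positivity
  have := mul_le_mul_of_nonneg_left key hT2
  refine this.trans ?_
  have e2 : T ^ 2 * (ε * |∫ u in (0:ℝ)..H, Real.exp (-(T * u)) * ((r u - l u) - (r 0 - l 0))| +
      (ε + 1) * (C * H * Real.exp (-(T * u0)))) =
      ε * (T ^ 2 * |∫ u in (0:ℝ)..H, Real.exp (-(T * u)) * ((r u - l u) - (r 0 - l 0))|) +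
      ((ε + 1) * (C * H)) * (T ^ 2 * Real.exp (-(T * u0))) := by ring
  rw [e2]
  linarith

theorem pf_int (H T : ℝ) (hT : 0 < T) :
    (T : ℂ) * ∫ u in (0:ℝ)..H, Complex.exp (-((T : ℂ) * u)) = 1 - Complex.exp (-((T : ℂ) * H)) := by
  have hT' : (T : ℂ) ≠ 0 := by exact_mod_cast hT.ne'
  have h1 := integral_exp_mul_complex (a := (0:ℝ)) (b := H) (c := -(T : ℂ)) (neg_ne_zero.2 hT')
  simp_rw [neg_mul] at h1
  rw [h1]
  simp only [Complex.ofReal_zero, mul_zero, neg_zero, Complex.exp_zero]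
  field_simp
  ring

theorem pf_G (l r : ℝ → ℝ) (H : ℝ) (h : Prof l r H) (c : ℝ) (y : ℝ → ℂ)
    (hy : Filter.Tendsto y Filter.atTop (nhds 0)) :
    Filter.Tendsto (fun T : ℝ => (T : ℂ) * (∫ u in (0:ℝ)..H, Complex.exp (-((T : ℂ) * u)) *
          Complex.exp (-(Complex.I * (c + y T) * ((r u - r 0 : ℝ) : ℂ))))) Filter.atTop (nhds 1) := by
  obtain ⟨A, e, hA, he, heH, hAb, hsgn, hsm⟩ := pf_prep l r H h
  obtain ⟨hH, -, -, hl, hr, -, -⟩ := h
  set S : ℝ := |c| + 1 with hS
  have hS0 : 0 < S := by positivity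
  have hz : Filter.Tendsto (fun T : ℝ => (T : ℂ) * (∫ u in (0:ℝ)..H, Complex.exp (-((T : ℂ) * u)) *
          (Complex.exp (-(Complex.I * (c + y T) * ((r u - r 0 : ℝ) : ℂ))) - 1))) Filter.atTop (nhds 0) := by
    rw [Metric.tendsto_nhds]
    intro ε3 hε3
    set ε : ℝ := ε3 / 3 with hε3d
    have hε : 0 < ε := by positivity
    have hex : Real.exp (S * (Real.log (1 + ε) / S)) = 1 + ε := by
      rw [mul_div_cancel₀ _ hS0.ne', Real.exp_log (by positivity)]
    have hη : 0 < Real.log (1 + ε) / S := by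
      apply div_pos _ hS0
      apply Real.log_pos
      linarith
    obtain ⟨u0, hu0, hu0e, hsm0⟩ := hsm _ hη
    have hu0H : u0 ≤ H := hu0e.trans heH
    set C : ℝ := Real.exp (S * A) + 1 with hC
    have hC0 : 0 ≤ C := by positivity
    have htail : ∀ᶠ T : ℝ in Filter.atTop,
        ((ε + 1) * (C * H)) * (T ^ 1 * Real.exp (-(T * u0))) < ε := by
      have h1 := (pf_tail u0 hu0 1).const_mul ((ε + 1) * (C * H))
      rw [mul_zero] at h1
      exact (tendsto_order.1 h1).2 _ hε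
    have hyS : ∀ᶠ T : ℝ in Filter.atTop, ‖y T‖ < 1 := by
      have h1 := Metric.tendsto_nhds.1 hy 1 one_pos
      simpa using h1
    filter_upwards [htail, Filter.eventually_gt_atTop 0, hyS] with T ht hT0 hyT
    have hsn : ‖(c : ℂ) + y T‖ ≤ S := by
      refine (norm_add_le _ _).trans ?_
      rw [Complex.norm_real, Real.norm_eq_abs, hS]
      linarith
    have hrb : ContinuousOn (fun u : ℝ => -(Complex.I * (c + y T) * ((r u - r 0 : ℝ) : ℂ)))
        (Set.Icc 0 H) := by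
      apply ContinuousOn.neg
      apply ContinuousOn.mul continuousOn_const
      exact Complex.continuous_ofReal.comp_continuousOn (hr.sub continuousOn_const)
    have key := pf_split H
      (fun u : ℝ => Complex.exp (-(Complex.I * (c + y T) * ((r u - r 0 : ℝ) : ℂ))) - 1)
      (fun _ => 1) u0 ε C T
      ((hrb.cexp).sub continuousOn_const) continuousOn_const
      hu0 hu0H hε.le hC0 hT0.le
      (by
        intro u hu
        obtain ⟨h1, h2⟩ := hsm0 u hu
        refine (pf_exp1 _ _ (pf_n1 _ S _ _ hsn h2 hη.le)).trans ?_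
        rw [hex]
        simp)
      (by
        intro u hu
        obtain ⟨h1, h2⟩ := hAb u hu
        refine (pf_exp1 _ _ (pf_n1 _ S _ _ hsn h2 hA)).trans ?_
        rw [hC]
        linarith)
      (by
        intro u hu
        rw [abs_one, hC]
        have := Real.exp_pos (S * A)
        linarith)
      (Or.inl fun u hu => zero_le_one)
    have hI : T * |∫ u in (0:ℝ)..H, Real.exp (-(T * u)) * 1| ≤ 1 := by
      have h1 := pf_int H T hT0
      have h2 : (∫ u in (0:ℝ)..H, Complex.exp (-((T : ℂ) * u))) =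
          ((∫ u in (0:ℝ)..H, Real.exp (-(T * u)) * 1 : ℝ) : ℂ) := by
        rw [← intervalIntegral.integral_ofReal]
        apply intervalIntegral.integral_congr
        intro u _
        push_cast
        ring_nf
      rw [h2] at h1
      have h3 : T * (∫ u in (0:ℝ)..H, Real.exp (-(T * u)) * 1) = 1 - Real.exp (-(T * H)) := by
        have h4 : ((T * (∫ u in (0:ℝ)..H, Real.exp (-(T * u)) * 1) : ℝ) : ℂ) =
            ((1 - Real.exp (-(T * H)) : ℝ) : ℂ) := by
          rw [Complex.ofReal_mul, h1]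
          push_cast
          rfl
        exact_mod_cast h4
      have h5 : T * |∫ u in (0:ℝ)..H, Real.exp (-(T * u)) * 1| =
          |T * (∫ u in (0:ℝ)..H, Real.exp (-(T * u)) * 1)| := by
        rw [abs_mul, abs_of_pos hT0]
      rw [h5, h3]
      have h6 := Real.exp_pos (-(T * H))
      have h7 : Real.exp (-(T * H)) ≤ 1 := by
        apply Real.exp_le_one_iff.2
        have : 0 ≤ T * H := by positivity
        linarith
      rw [abs_of_nonneg (by linarith)]
      linarith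
    rw [dist_zero_right, norm_mul, Complex.norm_real, Real.norm_eq_abs, abs_of_pos hT0]
    have h8 := mul_le_mul_of_nonneg_left key hT0.le
    refine lt_of_le_of_lt h8 ?_
    have e2 : T * (ε * |∫ u in (0:ℝ)..H, Real.exp (-(T * u)) * 1| +
        (ε + 1) * (C * H * Real.exp (-(T * u0)))) =
        ε * (T * |∫ u in (0:ℝ)..H, Real.exp (-(T * u)) * 1|) +
        ((ε + 1) * (C * H)) * (T ^ 1 * Real.exp (-(T * u0))) := by ring
    rw [e2]
    have h9 : ε * (T * |∫ u in (0:ℝ)..H, Real.exp (-(T * u)) * 1|) ≤ ε * 1 :=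
      mul_le_mul_of_nonneg_left hI hε.le
    linarith
  have h1 : Filter.Tendsto (fun T : ℝ => (1 : ℂ) - Complex.exp (-((T : ℂ) * H))) Filter.atTop (nhds 1) := by
    have h2 := pf_tail H hH 0
    have h3 : Filter.Tendsto (fun T : ℝ => Complex.exp (-((T : ℂ) * H))) Filter.atTop (nhds 0) := by
      rw [tendsto_zero_iff_norm_tendsto_zero]
      refine h2.congr ?_
      intro T
      rw [pf_norm, pow_zero, one_mul]
    simpa using (tendsto_const_nhds (x := (1:ℂ))).sub h3
  have h2 := hz.add h1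
  rw [zero_add] at h2
  refine h2.congr' ?_
  filter_upwards [Filter.eventually_gt_atTop 0] with T hT
  rw [← pf_int H T hT, ← mul_add]
  congr 1
  have hrb : ContinuousOn (fun u : ℝ => -(Complex.I * (c + y T) * ((r u - r 0 : ℝ) : ℂ)))
      (Set.Icc 0 H) := by
    apply ContinuousOn.neg
    apply ContinuousOn.mul continuousOn_const
    exact Complex.continuous_ofReal.comp_continuousOn (hr.sub continuousOn_const)
  have hcT : ContinuousOn (fun u : ℝ => Complex.exp (-((T : ℂ) * u))) (Set.Icc 0 H) := by fun_prop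
  have hint : ∀ f : ℝ → ℂ, ContinuousOn f (Set.Icc 0 H) → IntervalIntegrable f volume 0 H := by
    intro f hf
    exact (hf.mono (by rw [Set.uIcc_of_le hH.le])).intervalIntegrable
  have ha : IntervalIntegrable (fun u : ℝ => Complex.exp (-((T : ℂ) * u)) *
      (Complex.exp (-(Complex.I * (c + y T) * ((r u - r 0 : ℝ) : ℂ))) - 1)) volume 0 H :=
    hint _ (hcT.mul ((hrb.cexp).sub continuousOn_const))
  rw [← intervalIntegral.integral_add ha (hint _ hcT)]
  apply intervalIntegral.integral_congr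
  intro u _
  simp only []
  ring

theorem pf_psi (y : ℝ → ℂ) (L : ℝ) (hL : L ≠ 0)
    (hy : Filter.Tendsto y Filter.atTop (nhds 0)) : ∃ ψ : ℝ → ℂ,
    Filter.Tendsto ψ Filter.atTop (nhds 1) ∧
    ∀ T, 1 - Complex.exp (-(Complex.I * y T * (L : ℂ))) = (Complex.I * y T * (L : ℂ)) * ψ T := by
  classical
  let φ : ℂ → ℂ := fun w => if w = 0 then 1 else (1 - Complex.exp (-w)) / w
  have hφ : Filter.Tendsto φ (nhds 0) (nhds 1) := by
    rw [tendsto_iff_norm_sub_tendsto_zero]
    have hb : ∀ w : ℂ, ‖φ w - 1‖ ≤ Real.exp ‖w‖ - 1 := by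
      intro w
      show ‖(if w = 0 then 1 else (1 - Complex.exp (-w)) / w) - 1‖ ≤ Real.exp ‖w‖ - 1
      by_cases hw : w = 0
      · rw [if_pos hw, hw]
        simp
      · rw [if_neg hw]
        have h1 := pf_exp ‖w‖ (-w) 0 (by rw [norm_neg]) (by simp)
        rw [Complex.exp_zero, sub_zero, norm_neg] at h1
        have e : (1 - Complex.exp (-w)) / w - 1 = -(Complex.exp (-w) - 1 - -w) / w := by
          field_simp
          ring
        rw [e, norm_div, norm_neg, div_le_iff₀ (norm_pos_iff.2 hw)]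
        exact h1
    apply squeeze_zero (fun w => norm_nonneg _) hb
    have : Filter.Tendsto (fun w : ℂ => Real.exp ‖w‖ - 1) (nhds 0) (nhds (Real.exp ‖(0:ℂ)‖ - 1)) := by
      apply Continuous.tendsto
      fun_prop
    simpa using this
  refine ⟨fun T => φ (Complex.I * y T * (L : ℂ)), ?_, ?_⟩
  · apply hφ.comp
    have := (hy.const_mul Complex.I).mul_const (L : ℂ)
    simpa using this
  · intro T
    show _ = _ * (if Complex.I * y T * (L : ℂ) = 0 then 1 else
      (1 - Complex.exp (-(Complex.I * y T * (L : ℂ)))) / (Complex.I * y T * (L : ℂ)))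
    by_cases hw : Complex.I * y T * (L : ℂ) = 0
    · rw [if_pos hw, hw]
      simp
    · rw [if_neg hw, mul_div_cancel₀ _ hw]

theorem top_asym (l r : ℝ → ℝ) (H : ℝ) (h : Prof l r H) (c : ℝ) (hc : c ≠ 0) (hL : 0 < r 0 - l 0)
    (k : ℤ) (hck : c * (r 0 - l 0) = 2 * Real.pi * k) (y : ℝ → ℂ)
    (hy : Filter.Tendsto y Filter.atTop (nhds 0))
    (hz : ∀ᶠ T in Filter.atTop, Lap l r H (c + y T) T = 0) :
    ∃ e1 e2 : ℝ → ℂ, Filter.Tendsto e1 Filter.atTop (nhds 0) ∧ Filter.Tendsto e2 Filter.atTop (nhds 0) ∧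
      ∀ᶠ T : ℝ in Filter.atTop, -(((r 0 - l 0) / c : ℝ) : ℂ) * (T * y T) =
        ((Kap (fun u => (r u - l u) - (r 0 - l 0)) H T : ℝ) : ℂ) * (1 + e1 T) + e2 T := by
  classical
  obtain ⟨ψ, hψ, hψe⟩ := pf_psi y (r 0 - l 0) hL.ne' hy
  have hG := pf_G l r H h c y hy
  have hρ := pf_rho l r H h c y hy
  set G : ℝ → ℂ := fun T : ℝ => (T : ℂ) * (∫ u in (0:ℝ)..H, Complex.exp (-((T : ℂ) * u)) *
          Complex.exp (-(Complex.I * (c + y T) * ((r u - r 0 : ℝ) : ℂ)))) with hGdef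
  set ρ : ℝ → ℂ := fun T : ℝ => (T : ℂ) ^ 2 * (∫ u in (0:ℝ)..H, Complex.exp (-((T : ℂ) * u)) *
        (Complex.exp (-(Complex.I * (c + y T) * ((l u - l 0 : ℝ) : ℂ))) -
          Complex.exp (-(Complex.I * (c + y T) * ((r u - r 0 : ℝ) : ℂ))) -
          (-(Complex.I * (c + y T) * ((l u - l 0 : ℝ) : ℂ)) -
            -(Complex.I * (c + y T) * ((r u - r 0 : ℝ) : ℂ))))) with hρdef
  set K : ℝ → ℝ := fun T => Kap (fun u => (r u - l u) - (r 0 - l 0)) H T with hKdef
  have hρ' : ∀ ε : ℝ, 0 < ε → ∀ᶠ T : ℝ in Filter.atTop, ‖ρ T‖ ≤ ε * |K T| + ε := hρ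
  have hcC : (c : ℂ) ≠ 0 := by exact_mod_cast hc
  set q : ℝ → ℂ := fun T => ψ T * G T with hq
  have hq1 : Filter.Tendsto q Filter.atTop (nhds 1) := by
    have := hψ.mul hG
    rwa [one_mul] at this
  have hq0 : ∀ᶠ T in Filter.atTop, q T ≠ 0 := hq1.eventually_ne one_ne_zero
  have hs : Filter.Tendsto (fun T => (c : ℂ) + y T) Filter.atTop (nhds c) := by
    have := (tendsto_const_nhds (x := (c : ℂ))).add hy
    rwa [add_zero] at this
  have hs0 : ∀ᶠ T in Filter.atTop, (c : ℂ) + y T ≠ 0 := hs.eventually_ne hcC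
  have hinv : Filter.Tendsto (fun T => (Complex.I * c * q T)⁻¹) Filter.atTop
      (nhds (Complex.I * c * 1)⁻¹) :=
    ((hq1.const_mul (Complex.I * c))).inv₀ (by
      rw [mul_one]; exact mul_ne_zero Complex.I_ne_zero hcC)
  -- the small quotient
  have hθ : Filter.Tendsto (fun T => ‖ρ T‖ / (|K T| + 1)) Filter.atTop (nhds 0) := by
    rw [Metric.tendsto_nhds]
    intro ε hε
    filter_upwards [hρ' (ε / 2) (by positivity)] with T hT
    have hK1 : 0 < |K T| + 1 := by positivity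
    rw [dist_zero_right, norm_div, norm_norm, Real.norm_eq_abs, abs_of_pos hK1, div_lt_iff₀ hK1]
    have : ε / 2 * |K T| + ε / 2 = ε / 2 * (|K T| + 1) := by ring
    rw [this] at hT
    nlinarith
  set ρ' : ℝ → ℂ := fun T => ρ T * (Complex.I * c * q T)⁻¹ with hρ'def
  have hbound : Filter.Tendsto (fun T => 2 * (‖ρ T‖ / (|K T| + 1)) * ‖(Complex.I * c * q T)⁻¹‖)
      Filter.atTop (nhds 0) := by
    have := (hθ.const_mul 2).mul hinv.norm
    rwa [mul_zero, zero_mul] at this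
  have h1 : Filter.Tendsto (fun T => if 1 ≤ |K T| then ρ' T / (K T : ℂ) else 0) Filter.atTop (nhds 0) := by
    apply squeeze_zero_norm _ hbound
    intro T
    by_cases hK : 1 ≤ |K T|
    · rw [if_pos hK, norm_div, hρ'def, norm_mul, Complex.norm_real, Real.norm_eq_abs]
      have hKp : 0 < |K T| := by linarith
      rw [mul_div_right_comm]
      apply mul_le_mul_of_nonneg_right _ (norm_nonneg _)
      rw [div_le_iff₀ hKp]
      have h3 : 0 < |K T| + 1 := by linarith
      rw [mul_assoc, div_mul_eq_mul_div, ← mul_div_assoc, le_div_iff₀ h3]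
      have := norm_nonneg (ρ T)
      nlinarith
    · rw [if_neg hK, norm_zero]
      positivity
  have h2 : Filter.Tendsto (fun T => if 1 ≤ |K T| then 0 else ρ' T) Filter.atTop (nhds 0) := by
    apply squeeze_zero_norm _ hbound
    intro T
    by_cases hK : 1 ≤ |K T|
    · rw [if_pos hK, norm_zero]
      positivity
    · rw [if_neg hK, hρ'def, norm_mul]
      apply mul_le_mul_of_nonneg_right _ (norm_nonneg _)
      have h3 : 0 < |K T| + 1 := by positivity
      rw [← mul_div_assoc, le_div_iff₀ h3]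
      push Not at hK
      have := norm_nonneg (ρ T)
      nlinarith
  have h3 : Filter.Tendsto (fun T => ((c : ℂ) + y T) * (c * q T)⁻¹ - 1) Filter.atTop (nhds 0) := by
    have h4 : Filter.Tendsto (fun T => (c * q T)⁻¹) Filter.atTop (nhds ((c : ℂ) * 1)⁻¹) :=
      (hq1.const_mul (c : ℂ)).inv₀ (by rw [mul_one]; exact hcC)
    have h5 := (hs.mul h4).sub_const 1
    rw [mul_one, mul_inv_cancel₀ hcC, sub_self] at h5
    exact h5
  refine ⟨fun T => (((c : ℂ) + y T) * (c * q T)⁻¹ - 1) + (if 1 ≤ |K T| then ρ' T / (K T : ℂ) else 0),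
    fun T => if 1 ≤ |K T| then 0 else ρ' T, ?_, h2, ?_⟩
  · have := h3.add h1
    rwa [add_zero] at this
  · filter_upwards [hz, hq0, hs0, Filter.eventually_gt_atTop 0] with T hzT hqT hsT hT0
    have hE := pf_zero_eq l r H h c k hck (y T) T hsT hzT
    rw [hψe T] at hE
    have hTC : (T : ℂ) ≠ 0 := by exact_mod_cast hT0.ne'
    have hKT : ((K T : ℝ) : ℂ) = (T : ℂ) ^ 2 *
        ((∫ u in (0:ℝ)..H, Real.exp (-(T * u)) * ((r u - l u) - (r 0 - l 0)) : ℝ) : ℂ) := by
      show ((T ^ 2 * ∫ u in (0 : ℝ)..H, Real.exp (-(T * u)) * ((r u - l u) - (r 0 - l 0)) : ℝ) : ℂ) = _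
      rw [Complex.ofReal_mul, Complex.ofReal_pow]
    have hmain : (Complex.I * (c + y T)) * (K T : ℂ) + ρ T +
        (Complex.I * ((r 0 - l 0 : ℝ) : ℂ)) * ((T : ℂ) * y T) * q T = 0 := by
      have hE2 := congrArg (fun z => (T : ℂ) ^ 2 * z) hE
      simp only [mul_zero] at hE2
      rw [hKT, hρdef, hq, hGdef]
      simp only []
      rw [← hE2]
      ring
    have hsol : -(((r 0 - l 0) / c : ℝ) : ℂ) * (T * y T) =
        (K T : ℂ) * (((c : ℂ) + y T) * (c * q T)⁻¹) + ρ' T := by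
      rw [hρ'def]
      simp only []
      rw [Complex.ofReal_div]
      have hI : Complex.I ≠ 0 := Complex.I_ne_zero
      field_simp
      linear_combination (-1 : ℂ) * hmain
    rw [hsol]
    by_cases hK : 1 ≤ |K T|
    · simp only [if_pos hK]
      have hKne : (K T : ℂ) ≠ 0 := by
        have : K T ≠ 0 := by
          intro h0
          rw [h0, abs_zero] at hK
          linarith
        exact_mod_cast this
      field_simp
      ring
    · simp only [if_neg hK]
      ring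

end Helper112.Pf
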