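import Mathlib
import Pool.Agent.Helper112.Pf.Defs2
import Pool.Agent.Helper112.Pf.VKapLim
import Pool.Agent.Helper112.Pf.VTopAsym

set_option autoImplicit false

namespace Helper112.Pf

open MeasureTheory



/-! TO PROVE -/

theorem top_slope (l r : ℝ → ℝ) (H : ℝ) (h : Prof l r H) (c : ℝ) (hc : c ≠ 0) (hL : 0 < r 0 - l 0)
    (k : ℤ) (hck : c * (r 0 - l 0) = 2 * Real.pi * k) (y : ℝ → ℂ)
    (hy : Filter.Tendsto y Filter.atTop (nhds 0))
    (hz : ∀ᶠ T in Filter.atTop, Lap l r H (c + y T) T = 0) :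
    (∀ ω : ℂ, Filter.Tendsto (fun T : ℝ => (T : ℂ) * y T) Filter.atTop (nhds ω) →
      ∃ κ : ℝ, ω = -((c / (r 0 - l 0) * κ : ℝ) : ℂ) ∧ ∀ u ∈ Set.Icc 0 H, r u - l u ≤ (r 0 - l 0) + κ * u) ∧
    (Filter.Tendsto (fun T : ℝ => ‖(T : ℂ) * y T‖) Filter.atTop Filter.atTop →
      Filter.Tendsto (fun T : ℝ => y T / ((‖y T‖ : ℝ) : ℂ)) Filter.atTop (nhds (((-(c / |c|) : ℝ) : ℂ)))) := by
  obtain ⟨e1, e2, he1, he2, hv⟩ := top_asym l r H h c hc hL k hck y hy hz
  obtain ⟨hH, hl, hr, hlc, hrc, hle, hlt⟩ := h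
  generalize hLdef : r 0 - l 0 = L at *
  have hconc : ConcaveOn ℝ (Set.Icc 0 H) (fun u => (r u - l u) - L) := by
    have h1 := (hr.sub hl).add_const (-L)
    have h2 : (fun u => (r u - l u) - L) = (r - l + fun _ => -L) := by
      funext u
      simp [sub_eq_add_neg]
    rw [h2]
    exact h1
  have hcont : ContinuousOn (fun u => (r u - l u) - L) (Set.Icc 0 H) :=
    (hrc.sub hlc).sub continuousOn_const
  have h0 : (fun u => (r u - l u) - L) 0 = 0 := by
    show (r 0 - l 0) - L = 0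
    rw [hLdef, sub_self]
  have hk := kap_lim (fun u => (r u - l u) - L) H hH hconc hcont h0
  generalize hKdef : (fun T => Kap (fun u => (r u - l u) - L) H T) = K at *
  have hv' : ∀ᶠ T : ℝ in Filter.atTop, -((L / c : ℝ) : ℂ) * (T * y T) = ((K T : ℝ) : ℂ) * (1 + e1 T) + e2 T := by
    filter_upwards [hv] with T hT
    rw [hT, ← hKdef]
  have hLc : (L / c : ℝ) ≠ 0 := div_ne_zero hL.ne' hc
  have hLcC : ((L / c : ℝ) : ℂ) ≠ 0 := by exact_mod_cast hLc
  -- if K tends to infinity
  have hinf : Filter.Tendsto K Filter.atTop Filter.atTop →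
      Filter.Tendsto (fun T => (1 + e1 T) + e2 T / ((K T : ℝ) : ℂ)) Filter.atTop (nhds 1) := by
    intro hK
    have h1 : Filter.Tendsto (fun T => (((K T)⁻¹ : ℝ) : ℂ)) Filter.atTop (nhds ((0 : ℝ) : ℂ)) :=
      (Complex.continuous_ofReal.tendsto 0).comp (tendsto_inv_atTop_zero.comp hK)
    have h2 := (he1.const_add (1 : ℂ)).add (he2.mul h1)
    simp only [add_zero, Complex.ofReal_zero, mul_zero] at h2
    refine h2.congr fun T => ?_
    rw [Complex.ofReal_inv, div_eq_mul_inv]
  constructor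
  · intro ω hω
    have h1 : Filter.Tendsto (fun T : ℝ => -((L / c : ℝ) : ℂ) * ((T : ℂ) * y T)) Filter.atTop
        (nhds (-((L / c : ℝ) : ℂ) * ω)) := hω.const_mul _
    rcases hk with ⟨κ, hκ, hκ2⟩ | hK
    · refine ⟨κ, ?_, ?_⟩
      · have h2 : Filter.Tendsto (fun T => ((K T : ℝ) : ℂ) * (1 + e1 T) + e2 T) Filter.atTop
            (nhds ((κ : ℂ) * (1 + 0) + 0)) :=
          (((Complex.continuous_ofReal.tendsto κ).comp hκ).mul (he1.const_add (1 : ℂ))).add he2
        have h3 := tendsto_nhds_unique (h1.congr' hv') h2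
        rw [add_zero, add_zero, mul_one] at h3
        have h4 : ω = -(κ : ℂ) / ((L / c : ℝ) : ℂ) := by
          rw [eq_div_iff hLcC]
          linear_combination - h3
        rw [h4]
        have hcC : (c : ℂ) ≠ 0 := by exact_mod_cast hc
        have hLC : (L : ℂ) ≠ 0 := by exact_mod_cast hL.ne'
        push_cast
        field_simp
      · intro u hu
        have h2 : (r u - l u) - L ≤ κ * u := hκ2 u hu
        linarith
    · exfalso
      have h2 := hinf hK
      -- K * q tends to infinity in norm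
      have h3 : Filter.Tendsto (fun T => |K T| * ‖(1 + e1 T) + e2 T / ((K T : ℝ) : ℂ)‖) Filter.atTop
          Filter.atTop := by
        have h4 : Filter.Tendsto (fun T => |K T|) Filter.atTop Filter.atTop :=
          Filter.tendsto_abs_atTop_atTop.comp hK
        have h5 := h2.norm
        rw [norm_one] at h5
        exact h4.atTop_mul_pos one_pos h5
      have h6 : Filter.Tendsto (fun T : ℝ => ‖-((L / c : ℝ) : ℂ) * ((T : ℂ) * y T)‖) Filter.atTop
          Filter.atTop := by
        refine h3.congr' ?_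
        filter_upwards [hv', hK.eventually_gt_atTop 0] with T hT hT2
        rw [hT]
        have h7 : ((K T : ℝ) : ℂ) ≠ 0 := by exact_mod_cast hT2.ne'
        have h8 : ((K T : ℝ) : ℂ) * (1 + e1 T) + e2 T =
            ((K T : ℝ) : ℂ) * ((1 + e1 T) + e2 T / ((K T : ℝ) : ℂ)) := by
          field_simp
        rw [h8, norm_mul, Complex.norm_real, Real.norm_eq_abs]
      exact not_tendsto_nhds_of_tendsto_atTop h6 _ h1.norm
  · intro hTy
    have h1 : Filter.Tendsto (fun T : ℝ => ‖-((L / c : ℝ) : ℂ) * ((T : ℂ) * y T)‖) Filter.atTop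
        Filter.atTop := by
      simp only [norm_mul ( -((L / c : ℝ) : ℂ))]
      exact hTy.const_mul_atTop (norm_pos_iff.mpr (neg_ne_zero.mpr hLcC))
    rcases hk with ⟨κ, hκ, hκ2⟩ | hK
    · exfalso
      have h2 : Filter.Tendsto (fun T => ((K T : ℝ) : ℂ) * (1 + e1 T) + e2 T) Filter.atTop
          (nhds ((κ : ℂ) * (1 + 0) + 0)) :=
        (((Complex.continuous_ofReal.tendsto κ).comp hκ).mul (he1.const_add (1 : ℂ))).add he2
      have h3 : Filter.Tendsto (fun T : ℝ => -((L / c : ℝ) : ℂ) * ((T : ℂ) * y T)) Filter.atTop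
          (nhds ((κ : ℂ) * (1 + 0) + 0)) := by
        refine h2.congr' ?_
        filter_upwards [hv'] with T hT
        rw [hT]
      exact not_tendsto_nhds_of_tendsto_atTop h1 _ h3.norm
    · have h2 := hinf hK
      have h3 : Filter.Tendsto (fun T => (((-(c / |c|) : ℝ) : ℂ)) *
          (((1 + e1 T) + e2 T / ((K T : ℝ) : ℂ)) /
            ((‖(1 + e1 T) + e2 T / ((K T : ℝ) : ℂ)‖ : ℝ) : ℂ))) Filter.atTop
          (nhds ((((-(c / |c|) : ℝ) : ℂ)) * (1 / ((‖(1 : ℂ)‖ : ℝ) : ℂ)))) := by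
        refine Filter.Tendsto.const_mul _ (Filter.Tendsto.div h2 ?_ ?_)
        · exact (Complex.continuous_ofReal.tendsto _).comp h2.norm
        · simp
      rw [norm_one, Complex.ofReal_one, div_one, mul_one] at h3
      refine h3.congr' ?_
      filter_upwards [hv', hK.eventually_gt_atTop 0, Filter.eventually_gt_atTop 0] with T hT hT2 hT3
      have hKC : ((K T : ℝ) : ℂ) ≠ 0 := by exact_mod_cast hT2.ne'
      have hTC : (T : ℂ) ≠ 0 := by exact_mod_cast hT3.ne'
      have hcC : (c : ℂ) ≠ 0 := by exact_mod_cast hc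
      have hLC : (L : ℂ) ≠ 0 := by exact_mod_cast hL.ne'
      generalize hq : (1 + e1 T) + e2 T / ((K T : ℝ) : ℂ) = q
      have h8 : ((K T : ℝ) : ℂ) * (1 + e1 T) + e2 T = ((K T : ℝ) : ℂ) * q := by
        rw [← hq]
        field_simp
      rw [h8] at hT
      have hyT : y T = ((-c * (K T / (L * T)) : ℝ) : ℂ) * q := by
        have h9 : y T = (-((L / c : ℝ) : ℂ) * (T * y T)) * (-(c : ℂ) / (L * T)) := by
          push_cast
          field_simp
        rw [h9, hT]
        push_cast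
        field_simp
      have hpos : 0 < K T / (L * T) := by positivity
      rw [hyT, norm_mul, Complex.norm_real, Real.norm_eq_abs, abs_mul, abs_neg, abs_of_pos hpos]
      have hposC : ((K T / (L * T) : ℝ) : ℂ) ≠ 0 := by exact_mod_cast hpos.ne'
      have habs : ((|c| : ℝ) : ℂ) ≠ 0 := by
        exact_mod_cast (abs_pos.mpr hc).ne'
      rw [Complex.ofReal_mul, Complex.ofReal_mul, Complex.ofReal_mul, Complex.ofReal_neg,
        Complex.ofReal_neg, Complex.ofReal_div]
      by_cases hq0 : q = 0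
      · simp [hq0]
      · have hqn : ((‖q‖ : ℝ) : ℂ) ≠ 0 := by
          exact_mod_cast (norm_pos_iff.mpr hq0).ne'
        field_simp

end Helper112.Pf
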