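import Mathlib
import Pool.Agent.Helper112.Pf.Defs2
import Pool.Agent.Helper112.Pf.VFtBot
import Pool.Agent.Helper112.Pf.VFtTop
import Pool.Agent.Helper112.Pf.VNp
import Pool.Agent.Helper112.Pf.VProfOfChord
import Pool.Agent.Helper112.Pf.VTopLen
import Pool.Agent.Helper112.Pf.VTopSlope

set_option autoImplicit false

namespace Helper112.Pf

open MeasureTheory





/-! TO PROVE -/

theorem bp_y0 (β : ℝ) (hβ : 0 < β) (w : ℝ → ℂ) (w1 : ℂ) (hw : Filter.Tendsto w Filter.atTop (nhds w1)) :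
    Filter.Tendsto (fun T : ℝ => ((T ^ (-β) : ℝ) : ℂ) * w T) Filter.atTop (nhds 0) := by
  have h1 : Filter.Tendsto (fun T : ℝ => ((T ^ (-β) : ℝ) : ℂ)) Filter.atTop (nhds ((0 : ℝ) : ℂ)) :=
    (Complex.continuous_ofReal.tendsto 0).comp (tendsto_rpow_neg_atTop hβ)
  simpa using h1.mul hw

theorem bp_eq (β T : ℝ) (hT : 0 < T) (w : ℂ) :
    (T : ℂ) * (((T ^ (-β) : ℝ) : ℂ) * w) = ((T ^ (1 - β) : ℝ) : ℂ) * w := by
  have h : T ^ (1 - β) = T * T ^ (-β) := by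
    rw [sub_eq_add_neg, Real.rpow_add hT, Real.rpow_one]
  rw [h]
  push_cast
  ring

theorem bp_small (β : ℝ) (hβ : 1 < β) (w : ℝ → ℂ) (w1 : ℂ) (hw : Filter.Tendsto w Filter.atTop (nhds w1)) :
    Filter.Tendsto (fun T : ℝ => (T : ℂ) * (((T ^ (-β) : ℝ) : ℂ) * w T)) Filter.atTop (nhds 0) := by
  refine (bp_y0 (β - 1) (by linarith) w w1 hw).congr' ?_
  filter_upwards [Filter.eventually_gt_atTop (0 : ℝ)] with T hT
  rw [bp_eq β T hT, neg_sub]

theorem bp_one (w : ℝ → ℂ) (w1 : ℂ) (hw : Filter.Tendsto w Filter.atTop (nhds w1)) :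
    Filter.Tendsto (fun T : ℝ => (T : ℂ) * (((T ^ (-1 : ℝ) : ℝ) : ℂ) * w T)) Filter.atTop (nhds w1) := by
  refine hw.congr' ?_
  filter_upwards [Filter.eventually_gt_atTop (0 : ℝ)] with T hT
  rw [bp_eq 1 T hT, sub_self, Real.rpow_zero]
  simp

theorem bp_big (β : ℝ) (hβ : β < 1) (w : ℝ → ℂ) (w1 : ℂ) (h0 : w1 ≠ 0)
    (hw : Filter.Tendsto w Filter.atTop (nhds w1)) :
    Filter.Tendsto (fun T : ℝ => ‖(T : ℂ) * (((T ^ (-β) : ℝ) : ℂ) * w T)‖) Filter.atTop Filter.atTop := by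
  have h1 : Filter.Tendsto (fun T : ℝ => T ^ (1 - β) * ‖w T‖) Filter.atTop Filter.atTop :=
    (tendsto_rpow_atTop (by linarith)).atTop_mul_pos (norm_pos_iff.2 h0) hw.norm
  refine h1.congr' ?_
  filter_upwards [Filter.eventually_gt_atTop (0 : ℝ)] with T hT
  rw [bp_eq β T hT, norm_mul, Complex.norm_real, Real.norm_of_nonneg (Real.rpow_nonneg hT.le _)]

theorem bp_dir (β : ℝ) (w : ℝ → ℂ) (w1 : ℂ) (h0 : w1 ≠ 0)
    (hw : Filter.Tendsto w Filter.atTop (nhds w1)) :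
    Filter.Tendsto (fun T : ℝ => (((T ^ (-β) : ℝ) : ℂ) * w T) / ((‖((T ^ (-β) : ℝ) : ℂ) * w T‖ : ℝ) : ℂ))
      Filter.atTop (nhds (w1 / ((‖w1‖ : ℝ) : ℂ))) := by
  have h1 : Filter.Tendsto (fun T : ℝ => w T / ((‖w T‖ : ℝ) : ℂ)) Filter.atTop
      (nhds (w1 / ((‖w1‖ : ℝ) : ℂ))) := by
    refine hw.div ((Complex.continuous_ofReal.tendsto _).comp hw.norm) ?_
    rw [Complex.ofReal_ne_zero]
    exact (norm_pos_iff.2 h0).ne'
  refine h1.congr' ?_
  filter_upwards [Filter.eventually_gt_atTop (0 : ℝ)] with T hT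
  have h2 : 0 < T ^ (-β) := Real.rpow_pos_of_pos hT _
  rw [norm_mul, Complex.norm_real, Real.norm_of_nonneg h2.le, Complex.ofReal_mul,
    mul_div_mul_left _ _ (Complex.ofReal_ne_zero.2 h2.ne')]

theorem bp_real (c0 : ℂ) (L : ℝ) (hL : 0 < L) (k : ℤ) (hk : k ≠ 0)
    (h : c0 * ((L : ℝ) : ℂ) = 2 * Real.pi * k) :
    ∃ c : ℝ, c ≠ 0 ∧ c0 = c ∧ c * L = 2 * Real.pi * k := by
  have hL0 : (L : ℂ) ≠ 0 := Complex.ofReal_ne_zero.2 hL.ne'
  have hk0 : (k : ℝ) ≠ 0 := by exact_mod_cast hk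
  refine ⟨2 * Real.pi * k / L, ?_, ?_, ?_⟩
  · have := Real.pi_pos
    positivity
  · rw [eq_comm]
    push_cast
    rw [← h]
    field_simp
  · field_simp

theorem bp_alg (L1 L2 a H : ℝ) (h1 : 0 < L1) (h2 : 0 < L2) (hH : 0 < H) (ha : a ≠ 0)
    (e1 : L2 ≤ L1 * (1 + a * H)) (e2 : L1 ≤ L2 * (1 - a * H)) : False := by
  have h3 : L2 * L1 ≤ (L1 * (1 + a * H)) * (L2 * (1 - a * H)) :=
    mul_le_mul e1 e2 h1.le (h2.le.trans e1)
  have h4 : 0 < L1 * L2 * (a * H) ^ 2 := by positivity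
  nlinarith

theorem bp_conc (A B : ℝ) (lo hi : ℝ → ℝ) (hAB : A < B) (hlo : ConvexOn ℝ (Set.Icc A B) lo)
    (hhi : ConcaveOn ℝ (Set.Icc A B) hi) (L : ℝ) (hA : hi A - lo A = L) (hB : hi B - lo B = L)
    (u : ℝ) (hu : u ∈ Set.Icc A B) : L ≤ hi u - lo u := by
  have h1 : ConcaveOn ℝ (Set.Icc A B) (hi - lo) := hhi.sub hlo
  have hBA : 0 < B - A := by linarith
  have e : u = ((B - u) / (B - A)) • A + ((u - A) / (B - A)) • B := by
    simp only [smul_eq_mul]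
    field_simp
    ring
  have h2 := h1.2 (Set.left_mem_Icc.2 hAB.le) (Set.right_mem_Icc.2 hAB.le)
    (div_nonneg (by linarith [hu.2]) hBA.le : 0 ≤ (B - u) / (B - A))
    (div_nonneg (by linarith [hu.1]) hBA.le : 0 ≤ (u - A) / (B - A))
    (by field_simp; ring)
  rw [← e] at h2
  simp only [Pi.sub_apply, smul_eq_mul] at h2
  rw [hA, hB] at h2
  have e2 : (B - u) / (B - A) * L + (u - A) / (B - A) * L = L := by
    field_simp
    ring
  linarith

theorem branch_prism (K : Set (Fin 2 → ℝ)) (hK : IsBody K) (A B : ℝ) (lo hi : ℝ → ℝ)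
    (hC : Chord K A B lo hi) (c : ℕ → ℕ → ℂ) (M μ D : ℕ) (β : ℝ) (hβ : 0 < β) (hP : Pivot c M μ D β)
    (c0 : ℂ) (hz : ∀ s t : ℂ, ev c M s t = 0 → FT K ![c0 + s, t] = 0) :
    ∃ L : ℝ, 0 < L ∧ ∀ u ∈ Set.Icc A B, hi u = lo u + L := by
  obtain ⟨w0, hw0, hw⟩ := np c M μ D β hP Complex.I Complex.I_ne_zero
  obtain ⟨wa, ha, hza⟩ := hw 0
  obtain ⟨wb, hb, hzb⟩ := hw 1
  obtain ⟨wc, hc, hzc⟩ := hw 2
  have e0 : Complex.exp (-(Complex.I * Real.pi * β * ((0 : ℕ) : ℂ))) * w0 = w0 := by simp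
  rw [e0] at ha
  obtain ⟨hp1, hp2⟩ := prof_of_chord K A B lo hi hC
  have hAB : A < B := hC.1
  have hH : 0 < B - A := by linarith
  have ya := bp_y0 β hβ wa _ ha
  have yb := bp_y0 β hβ wb _ hb
  have yc := bp_y0 β hβ wc _ hc
  have la : ∀ᶠ T : ℝ in Filter.atTop, Lap (fun u => lo (B - u)) (fun u => hi (B - u)) (B - A)
      (c0 + ((T ^ (-β) : ℝ) : ℂ) * wa T) T = 0 := by
    filter_upwards [hza] with T hT
    have h1 := hz _ _ hT
    rw [pow_zero, mul_one, FT_top K hK A B lo hi hC] at h1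
    exact (mul_eq_zero.1 h1).resolve_left (Complex.exp_ne_zero _)
  have lc : ∀ᶠ T : ℝ in Filter.atTop, Lap (fun u => lo (B - u)) (fun u => hi (B - u)) (B - A)
      (c0 + ((T ^ (-β) : ℝ) : ℂ) * wc T) T = 0 := by
    filter_upwards [hzc] with T hT
    have h1 := hz _ _ hT
    have e : Complex.I * (-1) ^ 2 * (T : ℂ) = Complex.I * T := by ring
    rw [e, FT_top K hK A B lo hi hC] at h1
    exact (mul_eq_zero.1 h1).resolve_left (Complex.exp_ne_zero _)
  have lb : ∀ᶠ T : ℝ in Filter.atTop, Lap (fun u => lo (A + u)) (fun u => hi (A + u)) (B - A)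
      (c0 + ((T ^ (-β) : ℝ) : ℂ) * wb T) T = 0 := by
    filter_upwards [hzb] with T hT
    have h1 := hz _ _ hT
    have e : Complex.I * (-1) ^ 1 * (T : ℂ) = -(Complex.I * T) := by ring
    rw [e, FT_bot K hK A B lo hi hC] at h1
    exact (mul_eq_zero.1 h1).resolve_left (Complex.exp_ne_zero _)
  have sa : Filter.Tendsto (fun T : ℝ => c0 + ((T ^ (-β) : ℝ) : ℂ) * wa T) Filter.atTop (nhds c0) := by
    simpa using ya.const_add c0
  have sb : Filter.Tendsto (fun T : ℝ => c0 + ((T ^ (-β) : ℝ) : ℂ) * wb T) Filter.atTop (nhds c0) := by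
    simpa using yb.const_add c0
  obtain ⟨hL1, k1, hk1, hc1⟩ := top_len _ _ _ hp1 _ _ sa la
  obtain ⟨hL2, k2, hk2, hc2⟩ := top_len _ _ _ hp2 _ _ sb lb
  obtain ⟨c', hc0, rfl, hcL1⟩ := bp_real c0 _ hL1 k1 hk1 hc1
  have hcL2 : c' * (hi (A + 0) - lo (A + 0)) = 2 * Real.pi * k2 := by
    have h1 := hc2
    have h2 : (((c' * (hi (A + 0) - lo (A + 0)) : ℝ)) : ℂ) = ((2 * Real.pi * k2 : ℝ) : ℂ) := by
      push_cast
      push_cast at h1
      exact h1
    exact_mod_cast h2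
  have SA := top_slope _ _ _ hp1 c' hc0 hL1 k1 hcL1 _ ya la
  have SC := top_slope _ _ _ hp1 c' hc0 hL1 k1 hcL1 _ yc lc
  have SB := top_slope _ _ _ hp2 c' hc0 hL2 k2 hcL2 _ yb lb
  have L1e : hi (B - 0) - lo (B - 0) = hi B - lo B := by rw [sub_zero]
  have L2e : hi (A + 0) - lo (A + 0) = hi A - lo A := by rw [add_zero]
  simp only [L1e] at hL1 SA SC
  simp only [L2e] at hL2 SB
  have hHm : B - A ∈ Set.Icc 0 (B - A) := ⟨hH.le, le_refl _⟩
  rcases lt_trichotomy β 1 with h1 | h1 | h1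
  · exfalso
    have hwc0 : Complex.exp (-(Complex.I * Real.pi * β * ((2 : ℕ) : ℂ))) * w0 ≠ 0 :=
      mul_ne_zero (Complex.exp_ne_zero _) hw0
    have d1 := tendsto_nhds_unique (SA.2 (bp_big β h1 wa _ hw0 ha)) (bp_dir β wa _ hw0 ha)
    have d2 := tendsto_nhds_unique (SC.2 (bp_big β h1 wc _ hwc0 hc)) (bp_dir β wc _ hwc0 hc)
    have hn : ‖Complex.exp (-(Complex.I * Real.pi * β * ((2 : ℕ) : ℂ)))‖ = 1 := by
      have e : -(Complex.I * Real.pi * β * ((2 : ℕ) : ℂ)) = ((-(Real.pi * β * 2) : ℝ) : ℂ) * Complex.I := by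
        push_cast
        ring
      rw [e, Complex.norm_exp_ofReal_mul_I]
    rw [norm_mul, hn, one_mul, d1, mul_div_assoc] at d2
    have hq : w0 / ((‖w0‖ : ℝ) : ℂ) ≠ 0 := by
      refine div_ne_zero hw0 ?_
      rw [Complex.ofReal_ne_zero]
      exact (norm_pos_iff.2 hw0).ne'
    have h3 : Complex.exp (-(Complex.I * Real.pi * β * ((2 : ℕ) : ℂ))) = 1 :=
      (mul_right_cancel₀ hq (by rw [one_mul]; exact d2)).symm
    rw [Complex.exp_eq_one_iff] at h3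
    obtain ⟨n, hn2⟩ := h3
    have h4 : ((2 * Real.pi : ℝ) : ℂ) * Complex.I * (β : ℂ) = ((2 * Real.pi : ℝ) : ℂ) * Complex.I * (-(n : ℂ)) := by
      push_cast
      push_cast at hn2
      linear_combination -hn2
    have h5 : ((2 * Real.pi : ℝ) : ℂ) * Complex.I ≠ 0 := by
      refine mul_ne_zero ?_ Complex.I_ne_zero
      rw [Complex.ofReal_ne_zero]
      have := Real.pi_pos
      positivity
    have h6 : (β : ℂ) = -(n : ℂ) := mul_left_cancel₀ h5 h4
    have h7 : β = ((-n : ℤ) : ℝ) := by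
      have : (β : ℂ) = (((-n : ℤ) : ℝ) : ℂ) := by
        rw [h6]
        push_cast
        rfl
      exact_mod_cast this
    rw [h7] at hβ h1
    have h8 : (0 : ℤ) < -n := by exact_mod_cast hβ
    have h9 : -n < (1 : ℤ) := by exact_mod_cast h1
    omega
  · exfalso
    subst h1
    obtain ⟨κ1, e1, b1⟩ := SA.1 _ (bp_one wa _ ha)
    obtain ⟨κ2, e2, b2⟩ := SB.1 _ (bp_one wb _ hb)
    have em : Complex.exp (-(Complex.I * Real.pi * ((1 : ℝ) : ℂ) * ((1 : ℕ) : ℂ))) = -1 := by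
      have e : -(Complex.I * Real.pi * ((1 : ℝ) : ℂ) * ((1 : ℕ) : ℂ)) = -(Real.pi * Complex.I) := by
        push_cast
        ring
      rw [e, Complex.exp_neg, Complex.exp_pi_mul_I]
      norm_num
    rw [em] at e2
    have e3 : ((c' / (hi B - lo B) * κ1 : ℝ) : ℂ) = ((-(c' / (hi A - lo A) * κ2) : ℝ) : ℂ) := by
      rw [Complex.ofReal_neg, ← e2, e1]
      ring
    have e4 : c' / (hi B - lo B) * κ1 = -(c' / (hi A - lo A) * κ2) := by exact_mod_cast e3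
    obtain ⟨a, hae⟩ : ∃ a, a = κ1 / (hi B - lo B) := ⟨_, rfl⟩
    have hκ1 : κ1 = (hi B - lo B) * a := by
      rw [hae]
      field_simp
    have hκ2 : κ2 = -((hi A - lo A) * a) := by
      have h2 : c' * a = c' * (-(κ2 / (hi A - lo A))) := by
        rw [hae]
        linear_combination e4
      have h3 := mul_left_cancel₀ hc0 h2
      rw [h3]
      field_simp
    have ha0 : a ≠ 0 := by
      intro h
      rw [hκ1, h] at e1
      apply hw0
      rw [e1]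
      simp
    have c1 := b1 _ hHm
    have c2 := b2 _ hHm
    have f1 : B - (B - A) = A := by ring
    have f2 : A + (B - A) = B := by ring
    rw [f1, hκ1] at c1
    rw [f2, hκ2] at c2
    exact bp_alg _ _ a (B - A) hL1 hL2 hH ha0 (by linarith) (by linarith)
  · obtain ⟨κ1, e1, b1⟩ := SA.1 _ (bp_small β h1 wa _ ha)
    obtain ⟨κ2, e2, b2⟩ := SB.1 _ (bp_small β h1 wb _ hb)
    have hκ1 : κ1 = 0 := by
      have h2 : ((c' / (hi B - lo B) * κ1 : ℝ) : ℂ) = ((0 : ℝ) : ℂ) := by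
        rw [Complex.ofReal_zero]
        linear_combination e1
      have h3 : c' / (hi B - lo B) * κ1 = 0 := by exact_mod_cast h2
      exact (mul_eq_zero.1 h3).resolve_left (div_ne_zero hc0 hL1.ne')
    have hκ2 : κ2 = 0 := by
      have h2 : ((c' / (hi A - lo A) * κ2 : ℝ) : ℂ) = ((0 : ℝ) : ℂ) := by
        rw [Complex.ofReal_zero]
        linear_combination e2
      have h3 : c' / (hi A - lo A) * κ2 = 0 := by exact_mod_cast h2
      exact (mul_eq_zero.1 h3).resolve_left (div_ne_zero hc0 hL2.ne')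
    rw [hκ1] at b1
    rw [hκ2] at b2
    have c1 := b1 _ hHm
    have c2 := b2 _ hHm
    have f1 : B - (B - A) = A := by ring
    have f2 : A + (B - A) = B := by ring
    rw [f1] at c1
    rw [f2] at c2
    refine ⟨hi B - lo B, hL1, fun u hu => ?_⟩
    have c3 := b1 (B - u) ⟨by linarith [hu.2], by linarith [hu.1]⟩
    have f3 : B - (B - u) = u := by ring
    simp only [f3] at c3
    have c4 := bp_conc A B lo hi hAB hC.2.1 hC.2.2.1 (hi B - lo B) (by linarith) rfl u hu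
    linarith

end Helper112.Pf
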