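import Mathlib
import Pool.Agent.Helper112.Pf.Defs2

set_option autoImplicit false

namespace Helper112.Pf

open MeasureTheory





/-! TO PROVE -/

theorem chord_exists_lo (K : Set (Fin 2 → ℝ)) (hK : IsCompact K) (hc : Convex ℝ K) (A B : ℝ)
    (hne : ∀ u ∈ Set.Icc A B, ∃ s : ℝ, ![s, u] ∈ K) :
    ∃ lo : ℝ → ℝ, ConvexOn ℝ (Set.Icc A B) lo ∧ ContinuousOn lo (Set.Icc A B) ∧
      (∀ u ∈ Set.Icc A B, ![lo u, u] ∈ K) ∧
      (∀ u ∈ Set.Icc A B, ∀ s : ℝ, ![s, u] ∈ K → lo u ≤ s) := by
  have hmin : ∀ u : ℝ, ∃ l : ℝ, u ∈ Set.Icc A B →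
      ![l, u] ∈ K ∧ ∀ s : ℝ, ![s, u] ∈ K → l ≤ s := by
    intro u
    by_cases hu : u ∈ Set.Icc A B
    · have hcl : IsCompact (K ∩ {x : Fin 2 → ℝ | x 1 = u}) :=
        hK.inter_right (isClosed_eq (continuous_apply 1) continuous_const)
      obtain ⟨s0, hs0⟩ := hne u hu
      obtain ⟨x, hx, hmin⟩ := hcl.exists_isMinOn ⟨![s0, u], hs0, by simp⟩
        (f := fun x : Fin 2 → ℝ => x 0) (continuous_apply 0).continuousOn
      refine ⟨x 0, fun _ => ⟨?_, ?_⟩⟩
      · have hxe : ![x 0, u] = x := by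
          ext i
          fin_cases i
          · rfl
          · exact hx.2.symm
        rw [hxe]
        exact hx.1
      · intro s hs
        have h1 : ![s, u] ∈ K ∩ {x : Fin 2 → ℝ | x 1 = u} := ⟨hs, by simp⟩
        have h2 := hmin h1
        simpa using h2
    · exact ⟨0, fun h => absurd h hu⟩
  choose lo hlo using hmin
  have hconv : ConvexOn ℝ (Set.Icc A B) lo := by
    refine ⟨convex_Icc A B, ?_⟩
    intro u hu v hv a b ha hb hab
    have h1 := hc (hlo u hu).1 (hlo v hv).1 ha hb hab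
    have h2 : a • ![lo u, u] + b • ![lo v, v] = ![a • lo u + b • lo v, a • u + b • v] := by
      ext i
      fin_cases i <;> simp
    rw [h2] at h1
    exact (hlo _ (convex_Icc A B hu hv ha hb hab)).2 _ h1
  refine ⟨lo, hconv, ?_, fun u hu => (hlo u hu).1, fun u hu => (hlo u hu).2⟩
  intro u0 hu0
  unfold ContinuousWithinAt
  rw [tendsto_order]
  constructor
  · -- lower semicontinuity
    intro c hcu
    have hcl : IsClosed ((fun x : Fin 2 → ℝ => x 1) '' (K ∩ {x : Fin 2 → ℝ | x 0 ≤ c})) :=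
      ((hK.inter_right (isClosed_le (continuous_apply 0) continuous_const)).image
        (continuous_apply 1)).isClosed
    have hnot : u0 ∉ ((fun x : Fin 2 → ℝ => x 1) '' (K ∩ {x : Fin 2 → ℝ | x 0 ≤ c})) := by
      rintro ⟨x, ⟨hxK, hxc⟩, hxu⟩
      have hxe : ![x 0, u0] = x := by
        ext i
        fin_cases i
        · rfl
        · exact hxu.symm
      have h3 := (hlo u0 hu0).2 (x 0) (by rw [hxe]; exact hxK)
      have h4 : x 0 ≤ c := hxc
      linarith
    have hev : ∀ᶠ u in nhds u0,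
        u ∉ ((fun x : Fin 2 → ℝ => x 1) '' (K ∩ {x : Fin 2 → ℝ | x 0 ≤ c})) :=
      hcl.isOpen_compl.mem_nhds hnot
    filter_upwards [mem_nhdsWithin_of_mem_nhds hev, self_mem_nhdsWithin] with u hu1 hu2
    by_contra hcon
    rw [not_lt] at hcon
    exact hu1 ⟨![lo u, u], ⟨(hlo u hu2).1, by simpa using hcon⟩, by simp⟩
  · -- upper semicontinuity
    intro c hcu
    set G : ℝ → ℝ := fun u => max
      ((1 - (u - u0) / (B - u0)) * lo u0 + ((u - u0) / (B - u0)) * lo B)
      ((1 - (u0 - u) / (u0 - A)) * lo u0 + ((u0 - u) / (u0 - A)) * lo A) with hG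
    have hGc : Continuous G := by
      rw [hG]
      fun_prop
    have hG0 : G u0 = lo u0 := by
      rw [hG]
      simp
    have hle : ∀ u ∈ Set.Icc A B, lo u ≤ G u := by
      intro u hu
      rcases le_total u0 u with h1 | h1
      · refine le_trans ?_ (le_max_left _ _)
        rcases eq_or_lt_of_le hu0.2 with h2 | h2
        · have h3 : u = u0 := le_antisymm (hu.2.trans h2.ge) h1
          rw [h3]
          simp
        · have hB0 : 0 < B - u0 := by linarith
          have ht1 : (u - u0) / (B - u0) ≤ 1 := by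
            rw [div_le_one hB0]; linarith [hu.2]
          have ht0 : 0 ≤ (u - u0) / (B - u0) := div_nonneg (by linarith) hB0.le
          have h4 := hconv.2 hu0 (Set.right_mem_Icc.2 (hu0.1.trans hu0.2))
            (sub_nonneg.2 ht1) ht0 (sub_add_cancel 1 _)
          have h5 : (1 - (u - u0) / (B - u0)) • u0 + ((u - u0) / (B - u0)) • B = u := by
            simp only [smul_eq_mul]
            field_simp
            ring
          rw [h5] at h4
          simpa only [smul_eq_mul] using h4
      · refine le_trans ?_ (le_max_right _ _)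
        rcases eq_or_lt_of_le hu0.1 with h2 | h2
        · have h3 : u = u0 := le_antisymm h1 (h2.ge.trans hu.1)
          rw [h3]
          simp
        · have hA0 : 0 < u0 - A := by linarith
          have ht1 : (u0 - u) / (u0 - A) ≤ 1 := by
            rw [div_le_one hA0]; linarith [hu.1]
          have ht0 : 0 ≤ (u0 - u) / (u0 - A) := div_nonneg (by linarith) hA0.le
          have h4 := hconv.2 hu0 (Set.left_mem_Icc.2 (hu0.1.trans hu0.2))
            (sub_nonneg.2 ht1) ht0 (sub_add_cancel 1 _)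
          have h5 : (1 - (u0 - u) / (u0 - A)) • u0 + ((u0 - u) / (u0 - A)) • A = u := by
            simp only [smul_eq_mul]
            field_simp
            ring
          rw [h5] at h4
          simpa only [smul_eq_mul] using h4
    have hev : ∀ᶠ u in nhds u0, G u < c := by
      have h6 : Filter.Tendsto G (nhds u0) (nhds (lo u0)) := by
        rw [← hG0]
        exact hGc.tendsto u0
      exact h6.eventually (gt_mem_nhds hcu)
    filter_upwards [mem_nhdsWithin_of_mem_nhds hev, self_mem_nhdsWithin] with u hu1 hu2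
    exact (hle u hu2).trans_lt hu1

theorem chord_exists (K : Set (Fin 2 → ℝ)) (hK : IsBody K) :
    ∃ (A B : ℝ) (lo hi : ℝ → ℝ), Chord K A B lo hi := by
  obtain ⟨hKc, hKconv, x, hx⟩ := hK
  rw [mem_interior_iff_mem_nhds, Metric.mem_nhds_iff] at hx
  obtain ⟨ε, hε, hball⟩ := hx
  have hpt : ∀ a b : ℝ, |a| < ε → |b| < ε → ![x 0 + a, x 1 + b] ∈ K := by
    intro a b ha hb
    apply hball
    rw [Metric.mem_ball, dist_pi_lt_iff hε]
    intro i
    fin_cases i
    · simpa [Real.dist_eq] using ha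
    · simpa [Real.dist_eq] using hb
  have hxK : x ∈ K := hball (Metric.mem_ball_self hε)
  obtain ⟨xA, hxA, hA⟩ := hKc.exists_isMinOn ⟨x, hxK⟩ (f := fun x : Fin 2 → ℝ => x 1)
    (continuous_apply 1).continuousOn
  obtain ⟨xB, hxB, hB⟩ := hKc.exists_isMaxOn ⟨x, hxK⟩ (f := fun x : Fin 2 → ℝ => x 1)
    (continuous_apply 1).continuousOn
  have hA' : ∀ y ∈ K, xA 1 ≤ y 1 := fun y hy => hA hy
  have hB' : ∀ y ∈ K, y 1 ≤ xB 1 := fun y hy => hB hy
  have hε2 : |ε / 2| < ε := by rw [abs_of_pos (by linarith)]; linarith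
  have hε2' : |-(ε / 2)| < ε := by rw [abs_neg]; exact hε2
  have h0ε : |(0 : ℝ)| < ε := by rw [abs_zero]; exact hε
  have hA1 : xA 1 ≤ x 1 + -(ε / 2) := by simpa using hA' _ (hpt 0 (-(ε / 2)) h0ε hε2')
  have hB1 : x 1 + ε / 2 ≤ xB 1 := by simpa using hB' _ (hpt 0 (ε / 2) h0ε hε2)
  have hAB : xA 1 < xB 1 := by linarith
  have heta : ∀ y : Fin 2 → ℝ, ![y 0, y 1] = y := by
    intro y
    ext i
    fin_cases i <;> rfl
  have hne : ∀ u ∈ Set.Icc (xA 1) (xB 1), ∃ s : ℝ, ![s, u] ∈ K := by
    intro u hu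
    have hAB0 : 0 < xB 1 - xA 1 := by linarith
    have ht1 : (u - xA 1) / (xB 1 - xA 1) ≤ 1 := by
      rw [div_le_one hAB0]; linarith [hu.2]
    have ht0 : 0 ≤ (u - xA 1) / (xB 1 - xA 1) := div_nonneg (by linarith [hu.1]) hAB0.le
    have h1 := hKconv hxA hxB (a := 1 - (u - xA 1) / (xB 1 - xA 1))
      (b := (u - xA 1) / (xB 1 - xA 1)) (by linarith) ht0 (by ring)
    refine ⟨((1 - (u - xA 1) / (xB 1 - xA 1)) • xA + ((u - xA 1) / (xB 1 - xA 1)) • xB) 0, ?_⟩
    have h2 : ((1 - (u - xA 1) / (xB 1 - xA 1)) • xA + ((u - xA 1) / (xB 1 - xA 1)) • xB) 1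
        = u := by
      simp only [Pi.add_apply, Pi.smul_apply, smul_eq_mul]
      field_simp
      ring
    have h3 := heta ((1 - (u - xA 1) / (xB 1 - xA 1)) • xA + ((u - xA 1) / (xB 1 - xA 1)) • xB)
    rw [h2] at h3
    rw [h3]
    exact h1
  obtain ⟨lo, hloc, hlocont, hlom, hlomin⟩ := chord_exists_lo K hKc hKconv (xA 1) (xB 1) hne
  set K' : Set (Fin 2 → ℝ) := (fun y : Fin 2 → ℝ => (![-y 0, y 1] : Fin 2 → ℝ)) '' K with hK'
  have hK'c : IsCompact K' := by
    refine hKc.image ?_
    rw [continuous_pi_iff]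
    intro i
    fin_cases i
    · exact (continuous_apply 0).neg
    · exact continuous_apply 1
  have hK'conv : Convex ℝ K' := by
    rintro _ ⟨y, hy, rfl⟩ _ ⟨z, hz, rfl⟩ a b ha hb hab
    refine ⟨a • y + b • z, hKconv hy hz ha hb hab, ?_⟩
    ext i
    fin_cases i
    · simp
      ring
    · simp
  have hmem : ∀ s u : ℝ, ![s, u] ∈ K' ↔ ![-s, u] ∈ K := by
    intro s u
    constructor
    · rintro ⟨y, hy, hyy⟩
      have h1 := congrFun hyy 0
      have h2 := congrFun hyy 1
      simp at h1 h2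
      have h3 := heta y
      rw [h2] at h3
      rw [← h1, neg_neg, h3]
      exact hy
    · intro h
      refine ⟨![-s, u], h, ?_⟩
      ext i
      fin_cases i <;> simp
  obtain ⟨lo', hloc', hlocont', hlom', hlomin'⟩ := chord_exists_lo K' hK'c hK'conv (xA 1) (xB 1)
    (by
      intro u hu
      obtain ⟨s, hs⟩ := hne u hu
      exact ⟨-s, by rw [hmem, neg_neg]; exact hs⟩)
  have hhim : ∀ u ∈ Set.Icc (xA 1) (xB 1), ![-lo' u, u] ∈ K := fun u hu =>
    (hmem _ _).1 (hlom' u hu)
  have hhimax : ∀ u ∈ Set.Icc (xA 1) (xB 1), ∀ s : ℝ, ![s, u] ∈ K → s ≤ -lo' u := by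
    intro u hu s hs
    have h1 := hlomin' u hu (-s) (by rw [hmem, neg_neg]; exact hs)
    linarith
  refine ⟨xA 1, xB 1, lo, fun u => - lo' u, hAB, hloc, hloc'.neg, hlocont, hlocont'.neg, ?_, ?_, ?_⟩
  · intro u hu
    exact hhimax u hu _ (hlom u hu)
  · intro u hu
    have huI : u ∈ Set.Icc (xA 1) (xB 1) := Set.Ioo_subset_Icc_self hu
    -- two points at height u
    have key : ∃ s s' : ℝ, s < s' ∧ ![s, u] ∈ K ∧ ![s', u] ∈ K := by
      rcases le_total u (x 1) with h1 | h1
      · have hd : 0 < x 1 - xA 1 := by linarith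
        set t : ℝ := (u - xA 1) / (x 1 - xA 1) with ht
        have ht0 : 0 < t := div_pos (by linarith [hu.1]) hd
        have ht1 : t ≤ 1 := by rw [ht, div_le_one hd]; linarith
        have hh : (1 - t) * xA 1 + t * x 1 = u := by
          rw [ht]; field_simp; ring
        have hp : ∀ a : ℝ, |a| < ε → ![(1 - t) * xA 0 + t * (x 0 + a), u] ∈ K := by
          intro a ha
          have h2 := hKconv hxA (hpt a 0 ha h0ε) (a := 1 - t) (b := t) (by linarith) ht0.le
            (by ring)
          convert h2 using 1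
          ext i
          fin_cases i
          · simp
          · simp [hh]
        refine ⟨_, _, ?_, hp (-(ε / 2)) hε2', hp (ε / 2) hε2⟩
        nlinarith
      · have hd : 0 < xB 1 - x 1 := by linarith
        set t : ℝ := (xB 1 - u) / (xB 1 - x 1) with ht
        have ht0 : 0 < t := div_pos (by linarith [hu.2]) hd
        have ht1 : t ≤ 1 := by rw [ht, div_le_one hd]; linarith
        have hh : (1 - t) * xB 1 + t * x 1 = u := by
          rw [ht]; field_simp; ring
        have hp : ∀ a : ℝ, |a| < ε → ![(1 - t) * xB 0 + t * (x 0 + a), u] ∈ K := by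
          intro a ha
          have h2 := hKconv hxB (hpt a 0 ha h0ε) (a := 1 - t) (b := t) (by linarith) ht0.le
            (by ring)
          convert h2 using 1
          ext i
          fin_cases i
          · simp
          · simp [hh]
        refine ⟨_, _, ?_, hp (-(ε / 2)) hε2', hp (ε / 2) hε2⟩
        nlinarith
    obtain ⟨s, s', hss, hs, hs'⟩ := key
    exact (hlomin u huI s hs).trans_lt (hss.trans_le (hhimax u huI s' hs'))
  · ext y
    constructor
    · intro hy
      have hyI : y 1 ∈ Set.Icc (xA 1) (xB 1) := ⟨hA' y hy, hB' y hy⟩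
      exact ⟨hyI, hlomin _ hyI _ (by rw [heta]; exact hy), hhimax _ hyI _ (by rw [heta]; exact hy)⟩
    · rintro ⟨hyI, h1, h2⟩
      have h3 := hlom _ hyI
      have h4 := hhim _ hyI
      by_cases h5 : lo (y 1) = -lo' (y 1)
      · have h6 : y 0 = lo (y 1) := le_antisymm (h2.trans h5.ge) h1
        rw [← h6, heta] at h3
        exact h3
      · have h7 : lo (y 1) < -lo' (y 1) := lt_of_le_of_ne (h1.trans h2) h5
        have hd : 0 < -lo' (y 1) - lo (y 1) := by linarith
        set t : ℝ := (y 0 - lo (y 1)) / (-lo' (y 1) - lo (y 1)) with ht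
        have ht0 : 0 ≤ t := div_nonneg (by linarith) hd.le
        have ht1 : t ≤ 1 := by
          rw [ht, div_le_one hd]
          have h8 : y 0 ≤ -lo' (y 1) := h2
          linarith
        have h8 := hKconv h3 h4 (a := 1 - t) (b := t) (by linarith) ht0 (by ring)
        have hh : (1 - t) * lo (y 1) + t * (-lo' (y 1)) = y 0 := by
          rw [ht]; field_simp; ring
        have h9 : (1 - t) • ![lo (y 1), y 1] + t • ![-lo' (y 1), y 1] = y := by
          ext i
          fin_cases i
          · simpa using hh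
          · simp
            ring
        rw [h9] at h8
        exact h8

end Helper112.Pf
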