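import Mathlib
import Pool.Agent.Helper112.Pf.Defs2

set_option autoImplicit false

namespace Helper112.Pf

open MeasureTheory



/-! TO PROVE -/

theorem ev_shift (c : ℕ → ℕ → ℂ) (M : ℕ) (c0 : ℂ) :
    ∃ c' : ℕ → ℕ → ℂ, (∀ j (s : ℂ), ∑ i ∈ Finset.range M, c' i j * s ^ i = ∑ i ∈ Finset.range M, c i j * (c0 + s) ^ i) ∧
      (∀ j, (∀ i, c i j = 0) → ∀ i, c' i j = 0) ∧ (∀ s t : ℂ, ev c' M s t = ev c M (c0 + s) t) := by
  have hpow : ∀ (s : ℂ) (k : ℕ), k < M → (c0 + s) ^ k =
      ∑ i ∈ Finset.range M, s ^ i * c0 ^ (k - i) * (k.choose i : ℂ) := by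
    intro s k hk
    rw [add_comm c0 s, add_pow]
    apply Finset.sum_subset
    · intro i hi
      rw [Finset.mem_range] at hi ⊢
      omega
    · intro i _ hi
      rw [Finset.mem_range] at hi
      rw [Nat.choose_eq_zero_of_lt (by omega)]
      simp
  have h1 : ∀ j (s : ℂ), ∑ i ∈ Finset.range M,
      (∑ k ∈ Finset.range M, c k j * (k.choose i : ℂ) * c0 ^ (k - i)) * s ^ i =
      ∑ i ∈ Finset.range M, c i j * (c0 + s) ^ i := by
    intro j s
    simp only [Finset.sum_mul]
    rw [Finset.sum_comm]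
    refine Finset.sum_congr rfl fun k hk => ?_
    rw [hpow s k (Finset.mem_range.mp hk), Finset.mul_sum]
    refine Finset.sum_congr rfl fun i _ => ?_
    ring
  refine ⟨fun i j => ∑ k ∈ Finset.range M, c k j * (k.choose i : ℂ) * c0 ^ (k - i), h1, ?_, ?_⟩
  · intro j hj i
    apply Finset.sum_eq_zero
    intro k _
    rw [hj k]
    ring
  · intro s t
    unfold ev
    rw [Finset.sum_comm]
    rw [Finset.sum_comm (s := Finset.range M) (t := Finset.range M)
      (f := fun i j => c i j * (c0 + s) ^ i * t ^ j)]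
    refine Finset.sum_congr rfl fun j _ => ?_
    rw [← Finset.sum_mul, ← Finset.sum_mul, h1 j s]

end Helper112.Pf
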