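import Mathlib
import Pool.Agent.Helper112.Pf.Defs2

set_option autoImplicit false

namespace Helper112.Pf

open MeasureTheory

/-! TO PROVE -/

theorem exists_beta (c : ℕ → ℕ → ℂ) (M μ D : ℕ) (h : ∃ i j, i < μ ∧ j < M ∧ c i j ≠ 0) :
    ∃ β : ℝ, (∀ i j, i < μ → j < M → c i j ≠ 0 → β * ((μ : ℝ) - i) ≤ (D : ℝ) - j) ∧
      (∃ i j, i < μ ∧ j < M ∧ c i j ≠ 0 ∧ β * ((μ : ℝ) - i) = (D : ℝ) - j) := by
  classical
  obtain ⟨i₀, j₀, h1, h2, h3⟩ := h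
  have hne : ((Finset.range μ ×ˢ Finset.range M).filter (fun p => c p.1 p.2 ≠ 0)).Nonempty :=
    ⟨(i₀, j₀), by simp [h1, h2, h3]⟩
  obtain ⟨p, hp, hmin⟩ := Finset.exists_min_image _
    (fun p : ℕ × ℕ => ((D : ℝ) - p.2) / ((μ : ℝ) - p.1)) hne
  simp only [Finset.mem_filter, Finset.mem_product, Finset.mem_range] at hp hmin
  have hpos : ∀ i : ℕ, i < μ → (0 : ℝ) < (μ : ℝ) - i := by
    intro i hi
    have : (i : ℝ) < μ := by exact_mod_cast hi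
    linarith
  refine ⟨((D : ℝ) - p.2) / ((μ : ℝ) - p.1), ?_, p.1, p.2, hp.1.1, hp.1.2, hp.2, ?_⟩
  · intro i j hi hj hc
    have := hmin (i, j) ⟨⟨hi, hj⟩, hc⟩
    rw [← le_div_iff₀ (hpos i hi)]
    exact this
  · exact div_mul_cancel₀ _ (hpos p.1 hp.1.1).ne'

end Helper112.Pf
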