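import Mathlib
import Pool.Agent.Helper112.Pf.Defs2
import Pool.Agent.Helper112.Pf.VExistsBeta

set_option autoImplicit false

namespace Helper112.Pf

open MeasureTheory



/-! TO PROVE -/

theorem pivot_bounded (c : ℕ → ℕ → ℂ) (M D : ℕ) (hDM : D < M) (hD : ∀ i j, D < j → c i j = 0)
    (h0 : c 0 D = 0) (hg : ∃ i, i < M ∧ c i D ≠ 0) (hn : ∃ j, j < M ∧ c 0 j ≠ 0) :
    ∃ (μ : ℕ) (β : ℝ), 0 < β ∧ Pivot c M μ D β := by
  classical
  obtain ⟨μ, hμ, hμM, hμD, hμmin⟩ : ∃ μ, μ = Nat.find hg ∧ μ < M ∧ c μ D ≠ 0 ∧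
      ∀ i, i < μ → c i D = 0 := by
    refine ⟨Nat.find hg, rfl, (Nat.find_spec hg).1, (Nat.find_spec hg).2, ?_⟩
    intro i hi
    by_contra hne
    exact Nat.find_min hg hi ⟨hi.trans (Nat.find_spec hg).1, hne⟩
  have hμ0 : 0 < μ := by
    rcases Nat.eq_zero_or_pos μ with h | h
    · rw [h] at hμD
      exact absurd h0 hμD
    · exact h
  have hle : ∀ i j, c i j ≠ 0 → j ≤ D := by
    intro i j hij
    by_contra hlt
    exact hij (hD i j (not_le.mp hlt))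
  obtain ⟨j0, hj0, hj0'⟩ := hn
  obtain ⟨β, hβ1, hβ2⟩ := exists_beta c M μ D ⟨0, j0, hμ0, hj0, hj0'⟩
  have hβ : 0 < β := by
    obtain ⟨i, j, hi, hj, hij, he⟩ := hβ2
    have h1 : j ≤ D := hle i j hij
    have h2 : j ≠ D := by
      rintro rfl
      exact hij (hμmin i hi)
    have h3 : (j : ℝ) < D := by exact_mod_cast lt_of_le_of_ne h1 h2
    have h4 : (i : ℝ) < μ := by exact_mod_cast hi
    have h5 : 0 < β * ((μ : ℝ) - i) := by rw [he]; linarith
    exact (pos_iff_pos_of_mul_pos h5).mpr (by linarith)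
  refine ⟨μ, β, hβ, hμM, hDM, hμD, hβ1, ?_, ?_, hβ2⟩
  · intro i j hi hiM hjM hij
    have h1 : (j : ℝ) ≤ D := by exact_mod_cast hle i j hij
    have h2 : (μ : ℝ) < i := by exact_mod_cast hi
    have h3 : 0 < β * ((i : ℝ) - μ) := mul_pos hβ (by linarith)
    linarith
  · intro j hj hj'
    exact hle μ j hj'

end Helper112.Pf
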