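import Mathlib
import Pool.Agent.Helper112.Pf.Defs2

set_option autoImplicit false

namespace Helper112.Pf

open MeasureTheory





/-! TO PROVE -/

theorem prism_of_const (K : Set (Fin 2 → ℝ)) (A B : ℝ) (lo hi : ℝ → ℝ) (h : Chord K A B lo hi)
    (L : ℝ) (hL : 0 < L) (hc : ∀ u ∈ Set.Icc A B, hi u = lo u + L) : IsPrism K := by
  obtain ⟨hAB, h1, h2, -, -, -, -, hK⟩ := h
  have hBA : 0 < B - A := by linarith
  have hA : A ∈ Set.Icc A B := ⟨le_refl _, hAB.le⟩
  have hB : B ∈ Set.Icc A B := ⟨hAB.le, le_refl _⟩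
  set m : ℝ := (lo B - lo A) / (B - A) with hm
  have aff : ∀ u ∈ Set.Icc A B, lo u = (lo A - m * A) + m * u := by
    intro u hu
    have ht0 : 0 ≤ (u - A) / (B - A) := div_nonneg (by linarith [hu.1]) hBA.le
    have ht1 : 0 ≤ (B - u) / (B - A) := div_nonneg (by linarith [hu.2]) hBA.le
    have hsum : (B - u) / (B - A) + (u - A) / (B - A) = 1 := by
      field_simp
      ring
    have hu' : (B - u) / (B - A) * A + (u - A) / (B - A) * B = u := by
      field_simp
      ring
    have c1 := h1.2 hA hB ht1 ht0 hsum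
    have c2 := h2.2 hA hB ht1 ht0 hsum
    simp only [smul_eq_mul] at c1 c2
    rw [hu'] at c1 c2
    rw [hc A hA, hc B hB, hc u hu] at c2
    have e1 : (B - u) / (B - A) * (lo A + L) + (u - A) / (B - A) * (lo B + L) =
        (B - u) / (B - A) * lo A + (u - A) / (B - A) * lo B + L := by
      have : ((B - u) / (B - A) + (u - A) / (B - A)) * L = L := by rw [hsum, one_mul]
      linarith
    have e2 : (B - u) / (B - A) * lo A + (u - A) / (B - A) * lo B = (lo A - m * A) + m * u := by
      rw [hm]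
      field_simp
      ring
    linarith
  refine ⟨{x | x 1 ∈ Set.Icc A B ∧ x 0 = lo (x 1)}, ![L, 0], ![1, -m], lo A - m * A, ?_, ?_, ?_⟩
  · simp [hL.ne']
  · rintro y ⟨hy1, hy0⟩
    have := aff _ hy1
    simp only [Fin.sum_univ_two, Matrix.cons_val_zero, Matrix.cons_val_one]
    rw [hy0, this]
    ring
  · rw [hK]
    ext x
    constructor
    · rintro ⟨hx1, hx2, hx3⟩
      refine ⟨![lo (x 1), x 1], ?_, (x 0 - lo (x 1)) / L, ?_, ?_⟩
      · exact ⟨by simpa using hx1, by simp⟩
      · rw [hc _ hx1] at hx3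
        refine ⟨div_nonneg (by linarith) hL.le, ?_⟩
        rw [div_le_one hL]
        linarith
      · ext i
        fin_cases i
        · simp
          field_simp
          ring
        · simp
    · rintro ⟨y, ⟨hy1, hy0⟩, t, ⟨ht0, ht1⟩, rfl⟩
      have e1 : (y + t • (![L, 0] : Fin 2 → ℝ)) 1 = y 1 := by simp
      have e0 : (y + t • (![L, 0] : Fin 2 → ℝ)) 0 = y 0 + t * L := by simp
      refine ⟨?_, ?_, ?_⟩
      · rw [e1]; exact hy1
      · rw [e1, e0, hy0]; nlinarith
      · rw [e1, e0, hy0, hc _ hy1]; nlinarith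

end Helper112.Pf
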