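import Mathlib
import Pool.Agent.Helper112.Pf.Defs2
import Pool.Agent.Helper112.Pf.JLinearPrism
import Pool.Agent.Helper112.Pf.VBranchPrism
import Pool.Agent.Helper112.Pf.VChordExists
import Pool.Agent.Helper112.Pf.VEvShift
import Pool.Agent.Helper112.Pf.VPivotBounded
import Pool.Agent.Helper112.Pf.VPrismOfConst

set_option autoImplicit false

namespace Helper112.Pf

open MeasureTheory





/-! TO PROVE -/

theorem asym_prism (K : Set (Fin 2 → ℝ)) (hK : IsBody K) (c : ℕ → ℕ → ℂ) (M D : ℕ) (hDM : D < M)
    (hz : ∀ s t : ℂ, ev c M s t = 0 → FT K ![s, t] = 0) (hD : ∀ i j, D < j → c i j = 0)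
    (hg : ∃ i, 1 ≤ i ∧ i < M ∧ c i D ≠ 0) : IsPrism K := by
  obtain ⟨i0, hi1, hiM, hi⟩ := hg
  let g : Polynomial ℂ := ∑ i ∈ Finset.range M, Polynomial.monomial i (c i D)
  have hev : ∀ s, g.eval s = ∑ i ∈ Finset.range M, c i D * s ^ i := by
    intro s
    simp only [g, Polynomial.eval_finset_sum, Polynomial.eval_monomial]
  have hcoef : g.coeff i0 = c i0 D := by
    simp only [g, Polynomial.finsetSum_coeff, Polynomial.coeff_monomial]
    rw [Finset.sum_ite_eq' (Finset.range M) i0 (fun i => c i D), if_pos (Finset.mem_range.2 hiM)]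
  have hdeg : 0 < g.degree := by
    have h1 : ((i0 : ℕ) : WithBot ℕ) ≤ g.degree := Polynomial.le_degree_of_ne_zero (by rw [hcoef]; exact hi)
    refine lt_of_lt_of_le ?_ h1
    exact_mod_cast hi1
  obtain ⟨c0, hc0⟩ := Complex.exists_root hdeg
  have hc0' : ∑ i ∈ Finset.range M, c i D * c0 ^ i = 0 := by rw [← hev]; exact hc0
  obtain ⟨c1, h1, h2, h3⟩ := ev_shift c M c0
  have hM : 0 < M := by omega
  have h0D : c1 0 D = 0 := by
    have h4 := h1 D 0
    rw [add_zero, hc0'] at h4
    rw [← h4]
    rw [Finset.sum_eq_single 0]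
    · simp
    · intro b _ hb
      rw [zero_pow hb, mul_zero]
    · intro h; exact absurd (Finset.mem_range.2 hM) h
  have hne : ∃ i, i < M ∧ c1 i D ≠ 0 := by
    by_contra hcon
    push Not at hcon
    have hg0 : g = 0 := by
      apply Polynomial.funext
      intro s
      have h4 := h1 D (s - c0)
      rw [add_sub_cancel] at h4
      rw [hev, ← h4, Polynomial.eval_zero]
      apply Finset.sum_eq_zero
      intro i hi
      rw [hcon i (Finset.mem_range.1 hi), zero_mul]
    rw [hg0, Polynomial.coeff_zero] at hcoef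
    exact hi hcoef.symm
  have hD1 : ∀ i j, D < j → c1 i j = 0 := fun i j hj => h2 j (fun i => hD i j hj) i
  by_cases hn : ∃ j, j < M ∧ c1 0 j ≠ 0
  · obtain ⟨μ, β, hβ, hP⟩ := pivot_bounded c1 M D hDM hD1 h0D hne hn
    obtain ⟨A, B, lo, hi', hC⟩ := chord_exists K hK
    obtain ⟨L, hL, hL2⟩ := branch_prism K hK A B lo hi' hC c1 M μ D β hβ hP c0
      (fun s t h => hz (c0 + s) t (by rw [← h3]; exact h))
    exact prism_of_const K A B lo hi' hC L hL hL2
  · push Not at hn
    have hev0 : ∀ t, ev c1 M 0 t = 0 := by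
      intro t
      unfold ev
      apply Finset.sum_eq_zero
      intro i _
      apply Finset.sum_eq_zero
      intro j hj
      rcases Nat.eq_zero_or_pos i with h | h
      · subst h
        rw [hn j (Finset.mem_range.1 hj)]
        simp
      · rw [zero_pow (by omega), mul_zero, zero_mul]
    apply linear_prism K hK ![1, 0] (by
      intro h
      have := congrFun h 0
      simp at this) c0
    intro ζ hζ
    rw [Fin.sum_univ_two] at hζ
    simp at hζ
    have h5 := hz c0 (ζ 1) (by
      have := h3 0 (ζ 1)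
      rw [add_zero] at this
      rw [← this]
      exact hev0 _)
    have h6 : ![c0, ζ 1] = ζ := by
      ext i
      fin_cases i
      · simp [hζ]
      · simp
    rw [h6] at h5
    exact h5

end Helper112.Pf
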