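import Mathlib
import Pool.Agent.Helper112.Pf.Defs2

set_option autoImplicit false

namespace Helper112.Pf

open MeasureTheory



/-! TO PROVE -/

theorem body_linear {n : ℕ} (M : (Fin n → ℝ) ≃ₗ[ℝ] (Fin n → ℝ)) (K : Set (Fin n → ℝ)) (hK : IsBody K) :
    IsBody (M '' K) := by
  obtain ⟨h1, h2, h3⟩ := hK
  have hc : Continuous M := M.toLinearMap.continuous_of_finiteDimensional
  refine ⟨h1.image hc, h2.linear_image M.toLinearMap, ?_⟩
  have he : M '' K = M.toContinuousLinearEquiv.toHomeomorph '' K := rfl
  rw [he, ← Homeomorph.image_interior]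
  exact h3.image _

end Helper112.Pf
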