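import Mathlib
import Pool.Agent.Helper112.Pf.Defs2

set_option autoImplicit false

namespace Helper112.Pf

open MeasureTheory



/-! TO PROVE -/

theorem coef_of_mv_deg (d : Fin 2 →₀ ℕ) : (d.sum fun _ e => e) = d 0 + d 1 := by
  rw [Finsupp.sum_fintype _ _ (fun _ => rfl), Fin.sum_univ_two]

theorem coef_of_mv_td (p : MvPolynomial (Fin 2) ℂ) (f : Fin 2 → MvPolynomial (Fin 2) ℂ)
    (hf : ∀ i, (f i).totalDegree ≤ 1) : (MvPolynomial.bind₁ f p).totalDegree ≤ p.totalDegree := by
  rw [← MvPolynomial.aeval_eq_bind₁, MvPolynomial.aeval_def, MvPolynomial.eval₂_eq']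
  apply MvPolynomial.totalDegree_finsetSum_le
  intro d hd
  refine (MvPolynomial.totalDegree_mul _ _).trans ?_
  have h1 : (algebraMap ℂ (MvPolynomial (Fin 2) ℂ) (MvPolynomial.coeff d p)).totalDegree = 0 := by
    rw [MvPolynomial.algebraMap_eq, MvPolynomial.totalDegree_C]
  rw [h1, zero_add]
  refine (MvPolynomial.totalDegree_finsetProd _ _).trans ?_
  have h2 := MvPolynomial.le_totalDegree hd
  rw [coef_of_mv_deg] at h2
  rw [Fin.sum_univ_two]
  refine le_trans ?_ h2
  have h3 : ∀ i, (f i ^ d i).totalDegree ≤ d i := by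
    intro i
    refine (MvPolynomial.totalDegree_pow _ _).trans ?_
    calc d i * (f i).totalDegree ≤ d i * 1 := Nat.mul_le_mul_left _ (hf i)
      _ = d i := mul_one _
  exact add_le_add (h3 0) (h3 1)

theorem coef_of_mv_lin (a b : ℂ) :
    (MvPolynomial.C a * MvPolynomial.X 0 + MvPolynomial.C b * MvPolynomial.X 1 : MvPolynomial (Fin 2) ℂ).totalDegree ≤ 1 := by
  refine (MvPolynomial.totalDegree_add _ _).trans (max_le ?_ ?_)
  · refine (MvPolynomial.totalDegree_mul _ _).trans ?_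
    rw [MvPolynomial.totalDegree_C, MvPolynomial.totalDegree_X]
  · refine (MvPolynomial.totalDegree_mul _ _).trans ?_
    rw [MvPolynomial.totalDegree_C, MvPolynomial.totalDegree_X]

theorem coef_of_mv (p : MvPolynomial (Fin 2) ℂ) (a11 a12 a21 a22 : ℝ) (hdet : a11 * a22 - a12 * a21 ≠ 0)
    (hp : p.totalDegree ≠ 0) :
    ∃ (c : ℕ → ℕ → ℂ) (m : ℕ), 1 ≤ m ∧ (∀ i j, m < i + j → c i j = 0) ∧ (∃ i j, i + j = m ∧ c i j ≠ 0) ∧
      ∀ s t : ℂ, ev c (m + 1) s t = MvPolynomial.eval ![a11 * s + a12 * t, a21 * s + a22 * t] p := by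
  classical
  obtain ⟨f, hfdef⟩ : ∃ f : Fin 2 → MvPolynomial (Fin 2) ℂ, f = ![MvPolynomial.C (a11 : ℂ) * MvPolynomial.X 0 + MvPolynomial.C (a12 : ℂ) * MvPolynomial.X 1,
    MvPolynomial.C (a21 : ℂ) * MvPolynomial.X 0 + MvPolynomial.C (a22 : ℂ) * MvPolynomial.X 1] := ⟨_, rfl⟩
  obtain ⟨Δ, hΔ⟩ : ∃ Δ : ℂ, Δ = (a11 : ℂ) * a22 - a12 * a21 := ⟨_, rfl⟩
  have hΔ0 : Δ ≠ 0 := by
    rw [hΔ]
    exact_mod_cast hdet
  obtain ⟨g, hgdef⟩ : ∃ g : Fin 2 → MvPolynomial (Fin 2) ℂ, g = ![MvPolynomial.C (a22 / Δ) * MvPolynomial.X 0 + MvPolynomial.C (-a12 / Δ) * MvPolynomial.X 1,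
    MvPolynomial.C (-a21 / Δ) * MvPolynomial.X 0 + MvPolynomial.C (a11 / Δ) * MvPolynomial.X 1] := ⟨_, rfl⟩
  have hf1 : ∀ i, (f i).totalDegree ≤ 1 := by
    intro i
    rw [hfdef]
    fin_cases i
    · exact coef_of_mv_lin _ _
    · exact coef_of_mv_lin _ _
  have hg1 : ∀ i, (g i).totalDegree ≤ 1 := by
    intro i
    rw [hgdef]
    fin_cases i
    · exact coef_of_mv_lin _ _
    · exact coef_of_mv_lin _ _
  have hgf : ∀ i, MvPolynomial.bind₁ g (f i) = MvPolynomial.X i := by
    intro i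
    have e1 : MvPolynomial.C ((a11 : ℂ) * (a22 / Δ) + a12 * (-a21 / Δ)) = (1 : MvPolynomial (Fin 2) ℂ) := by
      have : (a11 : ℂ) * (a22 / Δ) + a12 * (-a21 / Δ) = 1 := by
        field_simp
        rw [hΔ]
        ring
      rw [this, MvPolynomial.C_1]
    have e2 : MvPolynomial.C ((a11 : ℂ) * (-a12 / Δ) + a12 * (a11 / Δ)) = (0 : MvPolynomial (Fin 2) ℂ) := by
      have : (a11 : ℂ) * (-a12 / Δ) + a12 * (a11 / Δ) = 0 := by
        field_simp
        ring
      rw [this, MvPolynomial.C_0]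
    have e3 : MvPolynomial.C ((a21 : ℂ) * (a22 / Δ) + a22 * (-a21 / Δ)) = (0 : MvPolynomial (Fin 2) ℂ) := by
      have : (a21 : ℂ) * (a22 / Δ) + a22 * (-a21 / Δ) = 0 := by
        field_simp
        ring
      rw [this, MvPolynomial.C_0]
    have e4 : MvPolynomial.C ((a21 : ℂ) * (-a12 / Δ) + a22 * (a11 / Δ)) = (1 : MvPolynomial (Fin 2) ℂ) := by
      have : (a21 : ℂ) * (-a12 / Δ) + a22 * (a11 / Δ) = 1 := by
        field_simp
        rw [hΔ]
        ring
      rw [this, MvPolynomial.C_1]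
    rw [MvPolynomial.C_add, MvPolynomial.C_mul, MvPolynomial.C_mul] at e1 e2 e3 e4
    rw [hfdef, hgdef]
    fin_cases i
    · simp only [Fin.zero_eta, Matrix.cons_val_zero, map_add, map_mul, MvPolynomial.bind₁_X_right, MvPolynomial.bind₁_C_right,
        Matrix.cons_val_one]
      linear_combination (MvPolynomial.X 0) * e1 + (MvPolynomial.X 1) * e2
    · simp only [Fin.mk_one, Matrix.cons_val_zero, map_add, map_mul, MvPolynomial.bind₁_X_right, MvPolynomial.bind₁_C_right,
        Matrix.cons_val_one]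
      linear_combination (MvPolynomial.X 0) * e3 + (MvPolynomial.X 1) * e4
  obtain ⟨q, hq⟩ : ∃ q, q = MvPolynomial.bind₁ f p := ⟨_, rfl⟩
  have hback : MvPolynomial.bind₁ g q = p := by
    rw [hq, MvPolynomial.bind₁_bind₁]
    have : (fun i => MvPolynomial.bind₁ g (f i)) = MvPolynomial.X := funext hgf
    rw [this]
    exact MvPolynomial.aeval_X_left_apply p
  have hm1 : 1 ≤ q.totalDegree := by
    have h1 := coef_of_mv_td q g hg1
    rw [hback] at h1
    omega
  have hq0 : q.support.Nonempty := by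
    rw [MvPolynomial.support_nonempty]
    rintro h0
    rw [h0, MvPolynomial.totalDegree_zero] at hm1
    omega
  let e : ℕ × ℕ → (Fin 2 →₀ ℕ) := fun x => Finsupp.single 0 x.1 + Finsupp.single 1 x.2
  have he0 : ∀ x, e x 0 = x.1 := by intro x; simp [e]
  have he1 : ∀ x, e x 1 = x.2 := by intro x; simp [e]
  have hesurj : ∀ d : Fin 2 →₀ ℕ, e (d 0, d 1) = d := by
    intro d
    ext i
    fin_cases i
    · exact he0 _
    · exact he1 _
  refine ⟨fun i j => MvPolynomial.coeff (e (i, j)) q, q.totalDegree, hm1, ?_, ?_, ?_⟩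
  · intro i j hij
    by_contra hne
    have h1 := MvPolynomial.le_totalDegree (MvPolynomial.mem_support_iff.mpr hne)
    rw [coef_of_mv_deg, he0, he1] at h1
    exact absurd h1 (not_le.mpr hij)
  · obtain ⟨d, hd, hde⟩ := Finset.exists_mem_eq_sup q.support hq0 (fun s => s.sum fun _ e => e)
    have h1 : q.totalDegree = d 0 + d 1 := by
      rw [← coef_of_mv_deg]
      exact hde
    refine ⟨d 0, d 1, h1.symm, ?_⟩
    show MvPolynomial.coeff (e (d 0, d 1)) q ≠ 0
    rw [hesurj]
    exact MvPolynomial.mem_support_iff.mp hd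
  · intro s t
    have h1 : MvPolynomial.eval ![(a11 : ℂ) * s + a12 * t, a21 * s + a22 * t] p = MvPolynomial.eval ![s, t] q := by
      have h2 : MvPolynomial.eval ![s, t] (MvPolynomial.bind₁ f p) = MvPolynomial.eval (fun i => MvPolynomial.eval ![s, t] (f i)) p :=
        MvPolynomial.eval₂Hom_bind₁ (RingHom.id ℂ) ![s, t] f p
      have : (fun i => MvPolynomial.eval ![s, t] (f i)) = ![(a11 : ℂ) * s + a12 * t, a21 * s + a22 * t] := by
        funext i
        rw [hfdef]
        fin_cases i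
        · simp
        · simp
      rw [hq, h2, this]
    rw [h1, MvPolynomial.eval_eq']
    unfold ev
    have hinj : Set.InjOn e (Finset.range (q.totalDegree + 1) ×ˢ Finset.range (q.totalDegree + 1) : Finset (ℕ × ℕ)) := by
      intro x _ y _ hxy
      apply Prod.ext
      · rw [← he0 x, ← he0 y, hxy]
      · rw [← he1 x, ← he1 y, hxy]
    have hsub : q.support ⊆ (Finset.range (q.totalDegree + 1) ×ˢ Finset.range (q.totalDegree + 1) : Finset (ℕ × ℕ)).image e := by
      intro d hd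
      rw [Finset.mem_image]
      have h2 := MvPolynomial.le_totalDegree hd
      rw [coef_of_mv_deg] at h2
      refine ⟨(d 0, d 1), ?_, hesurj d⟩
      rw [Finset.mem_product, Finset.mem_range, Finset.mem_range]
      constructor
      · show d 0 < _
        omega
      · show d 1 < _
        omega
    rw [Finset.sum_subset hsub (fun d _ hd => by
      rw [MvPolynomial.notMem_support_iff.mp hd, zero_mul]), Finset.sum_image hinj, Finset.sum_product]
    apply Finset.sum_congr rfl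
    intro i _
    apply Finset.sum_congr rfl
    intro j _
    rw [Fin.prod_univ_two, he0, he1]
    simp [mul_assoc]

end Helper112.Pf
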