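import Mathlib
import Pool.Agent.Helper112.Pf.Defs2

set_option autoImplicit false

namespace Helper112.Pf

open MeasureTheory



/-! TO PROVE -/

theorem prism_linear {n : ℕ} (M : (Fin n → ℝ) ≃ₗ[ℝ] (Fin n → ℝ)) (K : Set (Fin n → ℝ))
    (h : IsPrism (M '' K)) : IsPrism K := by
  obtain ⟨C, v, l, s, hlv, hC, hK⟩ := h
  let φ : (Fin n → ℝ) →ₗ[ℝ] ℝ :=
    (∑ j, l j • (LinearMap.proj (R := ℝ) (φ := fun _ : Fin n => ℝ) j)).comp M.toLinearMap
  have hφ : ∀ x, φ x = ∑ j, l j * (M x) j := by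
    intro x
    simp [φ, LinearMap.sum_apply]
  have hl : ∀ x : Fin n → ℝ, ∑ i, φ (fun j => if i = j then 1 else 0) * x i = ∑ j, l j * (M x) j := by
    intro x
    rw [← hφ, φ.pi_apply_eq_sum_univ x]
    exact Finset.sum_congr rfl fun i _ => mul_comm _ _
  refine ⟨M.symm '' C, M.symm v, fun i => φ (fun j => if i = j then 1 else 0), s, ?_, ?_, ?_⟩
  · rw [hl, M.apply_symm_apply]
    exact hlv
  · rintro _ ⟨y, hy, rfl⟩
    rw [hl, M.apply_symm_apply]
    exact hC y hy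
  · ext x
    constructor
    · intro hx
      have h1 : M x ∈ M '' K := ⟨x, hx, rfl⟩
      rw [hK] at h1
      obtain ⟨y, hy, t, ht, hxy⟩ := h1
      refine ⟨M.symm y, ⟨y, hy, rfl⟩, t, ht, ?_⟩
      rw [← map_smul, ← map_add, ← hxy, M.symm_apply_apply]
    · rintro ⟨_, ⟨y, hy, rfl⟩, t, ht, hxy⟩
      have h1 : M x ∈ M '' K := by
        rw [hK]
        refine ⟨y, hy, t, ht, ?_⟩
        rw [hxy, map_add, map_smul, M.apply_symm_apply, M.apply_symm_apply]
      obtain ⟨z, hz, hzx⟩ := h1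
      rw [← M.injective hzx]
      exact hz

end Helper112.Pf
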