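import Mathlib
import Pool.Agent.Helper112.Pf.Defs3
import Pool.Agent.Helper112.Pf.JFtLinear
import Pool.Agent.Helper112.Pf.JFtPos
import Pool.Agent.Helper112.Pf.VAsymPrism
import Pool.Agent.Helper112.Pf.VBodyLinear
import Pool.Agent.Helper112.Pf.VCoefOfMv
import Pool.Agent.Helper112.Pf.VPrismLinear

set_option autoImplicit false

namespace Helper112.Pf

open MeasureTheory







/-! TO PROVE -/

/-- the linear map `x ↦ (a·x, b·x)` -/
noncomputable def asymptote_prism_lin (a b : Fin 2 → ℝ) (hdet : a 0 * b 1 - a 1 * b 0 ≠ 0) :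
    (Fin 2 → ℝ) ≃ₗ[ℝ] (Fin 2 → ℝ) where
  toFun x := ![a 0 * x 0 + a 1 * x 1, b 0 * x 0 + b 1 * x 1]
  map_add' x y := by
    ext i; fin_cases i <;> simp <;> ring
  map_smul' r x := by
    ext i; fin_cases i <;> simp <;> ring
  invFun y := ![(b 1 * y 0 - a 1 * y 1) / (a 0 * b 1 - a 1 * b 0),
    (a 0 * y 1 - b 0 * y 0) / (a 0 * b 1 - a 1 * b 0)]
  left_inv x := by
    ext i
    fin_cases i
    · show (b 1 * (a 0 * x 0 + a 1 * x 1) - a 1 * (b 0 * x 0 + b 1 * x 1)) /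
        (a 0 * b 1 - a 1 * b 0) = x 0
      rw [div_eq_iff hdet]; ring
    · show (a 0 * (b 0 * x 0 + b 1 * x 1) - b 0 * (a 0 * x 0 + a 1 * x 1)) /
        (a 0 * b 1 - a 1 * b 0) = x 1
      rw [div_eq_iff hdet]; ring
  right_inv y := by
    ext i
    fin_cases i
    · show a 0 * ((b 1 * y 0 - a 1 * y 1) / (a 0 * b 1 - a 1 * b 0)) +
        a 1 * ((a 0 * y 1 - b 0 * y 0) / (a 0 * b 1 - a 1 * b 0)) = y 0
      rw [← mul_div_assoc, ← mul_div_assoc, ← add_div, div_eq_iff hdet]; ring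
    · show b 0 * ((b 1 * y 0 - a 1 * y 1) / (a 0 * b 1 - a 1 * b 0)) +
        b 1 * ((a 0 * y 1 - b 0 * y 0) / (a 0 * b 1 - a 1 * b 0)) = y 1
      rw [← mul_div_assoc, ← mul_div_assoc, ← add_div, div_eq_iff hdet]; ring

theorem asymptote_prism_bd (c : ℕ → ℕ → ℂ) (m D : ℕ) (hDm : D < m + 1)
    (hD : ∀ i j, D < j → c i j = 0) (h0 : ∀ i, 1 ≤ i → c i D = 0) (R : ℝ) (s t : ℂ)
    (hs : ‖s‖ ≤ R) (ht : 1 ≤ ‖t‖) (hz : ev c (m + 1) s t = 0) :
    ‖t‖ * ‖c 0 D‖ ≤ ∑ i ∈ Finset.range (m + 1), ∑ j ∈ Finset.range (m + 1), ‖c i j‖ * R ^ i := by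
  classical
  have hsplit : ev c (m + 1) s t = c 0 D * t ^ D +
      ∑ i ∈ Finset.range (m + 1), ∑ j ∈ Finset.range (m + 1),
        (if j < D then c i j * s ^ i * t ^ j else 0) := by
    have h1 : ∀ i j, c i j * s ^ i * t ^ j =
        (if i = 0 then (if j = D then c i j * s ^ i * t ^ j else 0) else 0) +
        (if j < D then c i j * s ^ i * t ^ j else 0) := by
      intro i j
      rcases lt_trichotomy j D with h | h | h
      · rw [if_pos h, if_neg h.ne]; simp
      · rw [if_neg (show ¬ j < D by omega), if_pos h]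
        by_cases hi : i = 0
        · rw [if_pos hi]; simp
        · rw [if_neg hi, h, h0 i (by omega)]; simp
      · rw [if_neg (show ¬ j < D by omega), if_neg (show ¬ j = D by omega), hD i j h]
        simp
    unfold ev
    rw [Finset.sum_congr rfl fun i _ => Finset.sum_congr rfl fun j _ => h1 i j]
    simp only [Finset.sum_add_distrib]
    congr 1
    rw [Finset.sum_eq_single 0]
    · rw [Finset.sum_eq_single D]
      · simp
      · intro j _ hj
        simp [hj]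
      · intro hn
        exact absurd (Finset.mem_range.2 hDm) hn
    · intro i _ hi
      simp [hi]
    · intro hn
      exact absurd (Finset.mem_range.2 (by omega)) hn
  have hR0 : 0 ≤ R := (norm_nonneg s).trans hs
  have hbound : ‖t * ∑ i ∈ Finset.range (m + 1), ∑ j ∈ Finset.range (m + 1),
        (if j < D then c i j * s ^ i * t ^ j else 0)‖ ≤
      (∑ i ∈ Finset.range (m + 1), ∑ j ∈ Finset.range (m + 1), ‖c i j‖ * R ^ i) * ‖t‖ ^ D := by
    rw [Finset.mul_sum, Finset.sum_mul]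
    refine (norm_sum_le _ _).trans (Finset.sum_le_sum fun i _ => ?_)
    rw [Finset.mul_sum, Finset.sum_mul]
    refine (norm_sum_le _ _).trans (Finset.sum_le_sum fun j _ => ?_)
    split_ifs with hj
    · have e1 : ‖t * (c i j * s ^ i * t ^ j)‖ = ‖c i j‖ * ‖s‖ ^ i * ‖t‖ ^ (j + 1) := by
        rw [norm_mul, norm_mul, norm_mul, norm_pow, norm_pow]; ring
      rw [e1]
      have e2 : ‖s‖ ^ i ≤ R ^ i := pow_le_pow_left₀ (norm_nonneg _) hs i
      have e3 : ‖t‖ ^ (j + 1) ≤ ‖t‖ ^ D := pow_le_pow_right₀ ht (by omega)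
      exact mul_le_mul (mul_le_mul_of_nonneg_left e2 (norm_nonneg _)) e3
        (pow_nonneg (norm_nonneg _) _) (by positivity)
    · rw [mul_zero, norm_zero]
      positivity
  rw [hz] at hsplit
  have h2 : ∑ i ∈ Finset.range (m + 1), ∑ j ∈ Finset.range (m + 1),
        (if j < D then c i j * s ^ i * t ^ j else 0) = -(c 0 D * t ^ D) := by
    linear_combination -hsplit
  rw [h2, norm_mul, norm_neg, norm_mul, norm_pow] at hbound
  have htD : 0 < ‖t‖ ^ D := pow_pos (by linarith) _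
  have h3 : (‖t‖ * ‖c 0 D‖) * ‖t‖ ^ D ≤
      (∑ i ∈ Finset.range (m + 1), ∑ j ∈ Finset.range (m + 1), ‖c i j‖ * R ^ i) * ‖t‖ ^ D := by
    linarith
  exact le_of_mul_le_mul_right h3 htD

theorem asymptote_prism (K : Set (Fin 2 → ℝ)) (hK : IsBody K) (p : MvPolynomial (Fin 2) ℂ)
    (h : HasFactor p K) (ha : RealAsymptote p) : IsPrism K := by
  obtain ⟨f, _, hfac⟩ := h
  obtain ⟨a, b, hdet, R, hR⟩ := ha
  have hFT := FT_pos K hK 0
  have hp : p.totalDegree ≠ 0 := by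
    intro h0
    rw [MvPolynomial.totalDegree_eq_zero_iff_eq_C] at h0
    obtain ⟨s, t, _, _, hst⟩ := hR 0
    rw [h0, MvPolynomial.eval_C] at hst
    apply hFT
    rw [hfac, h0, MvPolynomial.eval_C, hst, zero_mul]
  obtain ⟨c, m, hm, htop, ⟨i0, j0, hij0, hc0⟩, hev⟩ := coef_of_mv p (a 0) (b 0) (a 1) (b 1)
    (by intro h; apply hdet; linarith) hp
  classical
  obtain ⟨D, hDdef⟩ : ∃ D, D = Nat.findGreatest (fun j => ∃ i, c i j ≠ 0) m := ⟨_, rfl⟩
  have hDm : D ≤ m := by rw [hDdef]; exact Nat.findGreatest_le m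
  have hDP : ∃ i, c i D ≠ 0 := by
    rw [hDdef]
    exact Nat.findGreatest_spec (P := fun j => ∃ i, c i j ≠ 0) (m := j0) (by omega) ⟨i0, hc0⟩
  have hD : ∀ i j, D < j → c i j = 0 := by
    intro i j hj
    by_contra hne
    rcases Nat.lt_or_ge m j with h | h
    · exact hne (htop i j (by omega))
    · rw [hDdef] at hj
      exact Nat.findGreatest_is_greatest hj h ⟨i, hne⟩
  by_cases hcase : ∃ i, 1 ≤ i ∧ c i D ≠ 0
  · obtain ⟨i, hi1, hi2⟩ := hcase
    have him : i < m + 1 := by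
      by_contra hlt
      exact hi2 (htop i D (by omega))
    apply prism_linear (asymptote_prism_lin a b hdet) K
    refine asym_prism _ (body_linear _ K hK) c (m + 1) D (by omega) ?_ hD ⟨i, hi1, him, hi2⟩
    intro s t hst
    rw [hev] at hst
    obtain ⟨k, _, hk⟩ := FT_linear (asymptote_prism_lin a b hdet) K hK.1 ![s, t]
      ![a 0 * s + b 0 * t, a 1 * s + b 1 * t] (by
        intro x
        rw [Fin.sum_univ_two, Fin.sum_univ_two]
        show (((a 0 * x 0 + a 1 * x 1 : ℝ)) : ℂ) * s + (((b 0 * x 0 + b 1 * x 1 : ℝ)) : ℂ) * t =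
          (x 0 : ℂ) * (a 0 * s + b 0 * t) + (x 1 : ℂ) * (a 1 * s + b 1 * t)
        push_cast
        ring)
    rw [hk, hfac, hst, zero_mul, mul_zero]
  · exfalso
    push Not at hcase
    have hc0D : c 0 D ≠ 0 := by
      obtain ⟨i, hi⟩ := hDP
      rcases Nat.eq_zero_or_pos i with h0 | h0
      · rwa [h0] at hi
      · exact absurd (hcase i h0) hi
    have hpos : 0 < ‖c 0 D‖ := norm_pos_iff.2 hc0D
    obtain ⟨S, hS⟩ : ∃ S : ℝ, S = ∑ i ∈ Finset.range (m + 1), ∑ j ∈ Finset.range (m + 1),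
      ‖c i j‖ * R ^ i := ⟨_, rfl⟩
    obtain ⟨s, t, hs, ht, hst⟩ := hR (max 1 (S / ‖c 0 D‖ + 1))
    have ht1 : 1 ≤ ‖t‖ := (le_max_left _ _).trans ht
    have ht2 : S / ‖c 0 D‖ + 1 ≤ ‖t‖ := (le_max_right _ _).trans ht
    have hzero : ev c (m + 1) s t = 0 := by
      rw [hev, ← hst]
      congr 2
      funext i
      fin_cases i
      · show (a 0 : ℂ) * s + b 0 * t = s * (a 0 : ℂ) + t * (b 0 : ℂ)
        ring
      · show (a 1 : ℂ) * s + b 1 * t = s * (a 1 : ℂ) + t * (b 1 : ℂ)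
        ring
    have hb := asymptote_prism_bd c m D (by omega) hD hcase R s t hs ht1 hzero
    rw [← hS, ← le_div_iff₀ hpos] at hb
    linarith

end Helper112.Pf
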