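import Mathlib
import Pool.Agent.Helper112.Pf.Defs2

set_option autoImplicit false

namespace Helper112.Pf

open MeasureTheory



/-! TO PROVE -/

private theorem shear_one (m k i : ℕ) (hk : k ≤ m) (hik : i ≤ k) (F : ℕ → ℂ)
    (hF : ∀ l, m < k + l → F l = 0) (t : ℂ) :
    ∑ j ∈ Finset.range (m + 1), (if i ≤ k ∧ k ≤ i + j then F (i + j - k) else 0) * t ^ j =
      ∑ l ∈ Finset.range (m + 1), F l * t ^ (k - i + l) := by
  obtain ⟨d, hd⟩ : ∃ d, k = i + d := ⟨k - i, by omega⟩
  obtain ⟨e, he⟩ : ∃ e, m + 1 = d + e := ⟨m + 1 - d, by omega⟩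
  have h1 : ∑ j ∈ Finset.range (m + 1), (if i ≤ k ∧ k ≤ i + j then F (i + j - k) else 0) * t ^ j =
      ∑ x ∈ Finset.range e, F x * t ^ (d + x) := by
    rw [he, Finset.sum_range_add]
    rw [Finset.sum_eq_zero (s := Finset.range d), zero_add]
    · refine Finset.sum_congr rfl fun x _ => ?_
      rw [if_pos ⟨hik, by omega⟩]
      congr 2
      omega
    · intro x hx
      rw [Finset.mem_range] at hx
      rw [if_neg (by omega), zero_mul]
  have h2 : ∑ l ∈ Finset.range (m + 1), F l * t ^ (k - i + l) =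
      ∑ x ∈ Finset.range e, F x * t ^ (d + x) := by
    rw [he, add_comm d e, Finset.sum_range_add]
    rw [Finset.sum_eq_zero (s := Finset.range d), add_zero]
    · refine Finset.sum_congr rfl fun x _ => ?_
      congr 2
      omega
    · intro x _
      rw [hF (e + x) (by omega), zero_mul]
  rw [h1, h2]

private theorem shear_pow (m k : ℕ) (hk : k ≤ m) (s u : ℂ) :
    (s + u) ^ k = ∑ i ∈ Finset.range (m + 1), s ^ i * u ^ (k - i) * (k.choose i : ℂ) := by
  rw [add_pow]
  refine Finset.sum_subset ?_ ?_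
  · intro x hx
    rw [Finset.mem_range] at hx ⊢
    omega
  · intro x _ hx
    rw [Finset.mem_range, not_lt] at hx
    rw [Nat.choose_eq_zero_of_lt (by omega), Nat.cast_zero, mul_zero]

theorem coef_shear (c : ℕ → ℕ → ℂ) (m : ℕ) (htop : ∀ i j, m < i + j → c i j = 0) (ρ : ℂ) :
    ∃ c' : ℕ → ℕ → ℂ, (∀ i j, m < i + j → c' i j = 0) ∧ c' m 0 = c m 0 ∧
      c' 0 m = ∑ i ∈ Finset.range (m + 1), c i (m - i) * ρ ^ i ∧
      ∀ s t : ℂ, ev c' (m + 1) s t = ev c (m + 1) (s + ρ * t) t := by
  refine ⟨fun i j => ∑ k ∈ Finset.range (m + 1), if i ≤ k ∧ k ≤ i + j then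
    c k (i + j - k) * (k.choose i : ℂ) * ρ ^ (k - i) else 0, ?_, ?_, ?_, ?_⟩
  · intro i j hij
    refine Finset.sum_eq_zero fun k _ => ?_
    split_ifs with h
    · rw [htop k (i + j - k) (by omega), zero_mul, zero_mul]
    · rfl
  · beta_reduce
    rw [Finset.sum_eq_single m]
    · rw [if_pos ⟨le_rfl, le_rfl⟩, Nat.choose_self, Nat.sub_self, pow_zero, add_zero, Nat.sub_self]
      simp
    · intro k hk hkm
      rw [if_neg (by omega)]
    · intro h
      exact absurd (Finset.mem_range.2 (Nat.lt_succ_self m)) h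
  · beta_reduce
    refine Finset.sum_congr rfl fun k hk => ?_
    rw [Finset.mem_range] at hk
    rw [if_pos ⟨Nat.zero_le _, by omega⟩, zero_add, Nat.choose_zero_right, Nat.sub_zero]
    simp
  · intro s t
    unfold ev
    have hL : ∀ i ∈ Finset.range (m + 1), ∑ j ∈ Finset.range (m + 1),
        (∑ k ∈ Finset.range (m + 1), if i ≤ k ∧ k ≤ i + j then
          c k (i + j - k) * (k.choose i : ℂ) * ρ ^ (k - i) else 0) * s ^ i * t ^ j =
        ∑ k ∈ Finset.range (m + 1), (∑ l ∈ Finset.range (m + 1), c k l * t ^ (k - i + l)) *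
          ((k.choose i : ℂ) * ρ ^ (k - i) * s ^ i) := by
      intro i _
      have e1 : ∀ j ∈ Finset.range (m + 1), (∑ k ∈ Finset.range (m + 1), if i ≤ k ∧ k ≤ i + j then
          c k (i + j - k) * (k.choose i : ℂ) * ρ ^ (k - i) else 0) * s ^ i * t ^ j =
          ∑ k ∈ Finset.range (m + 1), ((if i ≤ k ∧ k ≤ i + j then c k (i + j - k) else 0) * t ^ j) *
            ((k.choose i : ℂ) * ρ ^ (k - i) * s ^ i) := by
        intro j _
        rw [Finset.sum_mul, Finset.sum_mul]
        refine Finset.sum_congr rfl fun k _ => ?_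
        split_ifs
        · ring
        · ring
      rw [Finset.sum_congr rfl e1, Finset.sum_comm]
      refine Finset.sum_congr rfl fun k hk => ?_
      rw [Finset.mem_range] at hk
      rw [← Finset.sum_mul]
      by_cases hik : i ≤ k
      · rw [shear_one m k i (by omega) hik (c k) (fun l hl => htop k l hl) t]
      · rw [Nat.choose_eq_zero_of_lt (by omega)]
        simp
    rw [Finset.sum_congr rfl hL, Finset.sum_comm]
    refine Finset.sum_congr rfl fun k hk => ?_
    rw [Finset.mem_range] at hk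
    rw [shear_pow m k (by omega)]
    have e2 : ∀ l ∈ Finset.range (m + 1), c k l * (∑ i ∈ Finset.range (m + 1),
        s ^ i * (ρ * t) ^ (k - i) * (k.choose i : ℂ)) * t ^ l = ∑ i ∈ Finset.range (m + 1),
        (c k l * t ^ (k - i + l)) * ((k.choose i : ℂ) * ρ ^ (k - i) * s ^ i) := by
      intro l _
      rw [Finset.mul_sum, Finset.sum_mul]
      refine Finset.sum_congr rfl fun i _ => ?_
      rw [mul_pow, pow_add]
      ring
    rw [Finset.sum_congr rfl e2, Finset.sum_comm]
    refine Finset.sum_congr rfl fun i _ => ?_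
    rw [Finset.sum_mul]

end Helper112.Pf
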