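import Mathlib
import Pool.Agent.Helper112.Pf.Defs2
import Pool.Agent.Helper112.Pf.VExistsBeta

set_option autoImplicit false

namespace Helper112.Pf

open MeasureTheory



/-! TO PROVE -/

theorem pivot_unbounded (c : ℕ → ℕ → ℂ) (m : ℕ) (hm : 1 ≤ m) (htop : ∀ i j, m < i + j → c i j = 0)
    (hm0 : c m 0 ≠ 0) (h0m : c 0 m = 0) :
    (∃ D, D < m + 1 ∧ (∀ i j, D < j → c i j = 0) ∧ ∃ i, 1 ≤ i ∧ i < m + 1 ∧ c i D ≠ 0) ∨
    ∃ (μ D : ℕ) (β : ℝ), -1 < β ∧ β < 0 ∧ Pivot c (m + 1) μ D β := by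
  classical
  have hex : ∃ i, i ≤ m ∧ c i (m - i) ≠ 0 := ⟨m, le_rfl, by rw [Nat.sub_self]; exact hm0⟩
  obtain ⟨k, hkm, hk0, hkmin⟩ : ∃ k, k ≤ m ∧ c k (m - k) ≠ 0 ∧ ∀ i, i < k → c i (m - i) = 0 := by
    refine ⟨Nat.find hex, (Nat.find_spec hex).1, (Nat.find_spec hex).2, fun i hi => ?_⟩
    by_contra hc
    exact Nat.find_min hex hi ⟨(hi.le).trans (Nat.find_spec hex).1, hc⟩
  have hk1 : 1 ≤ k := by
    rcases Nat.eq_zero_or_pos k with h0 | h0
    · subst h0
      rw [Nat.sub_zero] at hk0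
      exact absurd h0m hk0
    · exact h0
  have hle : ∀ i j, c i j ≠ 0 → i + j ≤ m := by
    intro i j hc
    by_contra hlt
    exact hc (htop i j (by omega))
  obtain ⟨D, hD⟩ : ∃ D, m = k + D := ⟨m - k, by omega⟩
  have hDk : m - k = D := by omega
  rw [hDk] at hk0
  by_cases hcase : ∀ i j, i < k → D < j → c i j = 0
  · left
    refine ⟨D, by omega, fun i j hj => ?_, k, hk1, by omega, hk0⟩
    rcases lt_or_ge i k with hi | hi
    · exact hcase i j hi hj
    · exact htop i j (by omega)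
  · right
    push Not at hcase
    obtain ⟨i0, j0, hi0, hj0, hc0⟩ := hcase
    have hj0m : j0 < m + 1 := by
      have := hle i0 j0 hc0
      omega
    obtain ⟨β, hβ1, i1, j1, hi1, hj1, hc1, he⟩ := exists_beta c (m + 1) k D ⟨i0, j0, hi0, hj0m, hc0⟩
    have hβneg : β < 0 := by
      have h1 := hβ1 i0 j0 hi0 hj0m hc0
      have h2 : (0 : ℝ) < (k : ℝ) - i0 := by
        rw [sub_pos]
        exact_mod_cast hi0
      have h3 : (D : ℝ) - j0 < 0 := by
        rw [sub_neg]
        exact_mod_cast hj0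
      by_contra hc
      push Not at hc
      have := mul_nonneg hc h2.le
      linarith
    have hβm : -1 < β := by
      have h1 := hle i1 j1 hc1
      have h2 : j1 ≠ m - i1 := by
        rintro rfl
        exact hc1 (hkmin i1 hi1)
      have h3 : i1 + j1 + 1 ≤ k + D := by omega
      have h4 : (i1 : ℝ) + j1 + 1 ≤ k + D := by exact_mod_cast h3
      have h5 : (0 : ℝ) < (k : ℝ) - i1 := by
        rw [sub_pos]
        exact_mod_cast hi1
      by_contra hc
      push Not at hc
      nlinarith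
    refine ⟨k, D, β, hβm, hβneg, by omega, by omega, hk0, hβ1, ?_, ?_, i1, j1, hi1, hj1, hc1, he⟩
    · intro i j hi _ _ hc
      have h1 := hle i j hc
      have h2 : (i : ℝ) + j ≤ k + D := by
        have : i + j ≤ k + D := by omega
        exact_mod_cast this
      have h3 : (0 : ℝ) < (i : ℝ) - k := by
        rw [sub_pos]
        exact_mod_cast hi
      nlinarith
    · intro j _ hc
      have h1 := hle k j hc
      omega

end Helper112.Pf
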