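import Mathlib
import Pool.Agent.Helper112.Pf.Defs3

set_option autoImplicit false

namespace Helper112.Pf

open MeasureTheory





/-! TO PROVE -/

theorem FT_chord (K : Set (Fin 2 → ℝ)) (hK : IsBody K) (A B : ℝ) (lo hi : ℝ → ℝ) (h : Chord K A B lo hi)
    (s t : ℂ) :
    FT K ![s, t] = ∫ u in A..B, Complex.exp (-(Complex.I * t * u)) *
      ∫ x in (lo u)..(hi u), Complex.exp (-(Complex.I * s * x)) := by
  obtain ⟨hAB, _, _, _, _, hle, _, hKeq⟩ := h
  have hKm : MeasurableSet K := hK.1.measurableSet
  set G : (Fin 2 → ℝ) → ℂ := fun x =>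
    Complex.exp (-(Complex.I * ((x 0 : ℂ) * s + (x 1 : ℂ) * t))) with hG
  have hGc : Continuous G := by
    rw [hG]
    fun_prop
  have hFT : FT K ![s, t] = ∫ x, K.indicator G x := by
    unfold FT
    rw [integral_indicator hKm]
    congr 1
    funext x
    rw [hG]
    simp [Fin.sum_univ_two]
  have hint : Integrable (K.indicator G) :=
    (integrable_indicator_iff hKm).2 (hGc.continuousOn.integrableOn_compact hK.1)
  have mp := (volume_preserving_finTwoArrow ℝ).symm
  have h1 : ∫ x, K.indicator G x = ∫ p : ℝ × ℝ, K.indicator G ![p.1, p.2] :=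
    (mp.integral_comp' (K.indicator G)).symm
  have hint2 : Integrable (fun p : ℝ × ℝ => K.indicator G ![p.1, p.2]) :=
    (mp.integrable_comp_emb (MeasurableEquiv.measurableEmbedding _)).2 hint
  rw [hFT, h1, Measure.volume_eq_prod]
  rw [Measure.volume_eq_prod] at hint2
  rw [integral_prod_symm _ hint2]
  have hinner : ∀ u : ℝ, ∫ x : ℝ, K.indicator G ![x, u] = (Set.Icc A B).indicator (fun u : ℝ =>
      Complex.exp (-(Complex.I * t * u)) *
        ∫ x in (lo u)..(hi u), Complex.exp (-(Complex.I * s * x))) u := by
    intro u
    by_cases hu : u ∈ Set.Icc A B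
    · rw [Set.indicator_of_mem hu]
      have e1 : (fun x : ℝ => K.indicator G ![x, u]) = (Set.Icc (lo u) (hi u)).indicator
          (fun x : ℝ => Complex.exp (-(Complex.I * t * u)) * Complex.exp (-(Complex.I * s * x))) := by
        funext x
        by_cases hx : x ∈ Set.Icc (lo u) (hi u)
        · have hxK : ![x, u] ∈ K := by
            rw [hKeq]
            exact ⟨hu, hx.1, hx.2⟩
          rw [Set.indicator_of_mem hx, Set.indicator_of_mem hxK, hG, ← Complex.exp_add]
          simp only [Matrix.cons_val_zero, Matrix.cons_val_one]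
          congr 1
          ring
        · have hxK : ![x, u] ∉ K := by
            rw [hKeq]
            rintro ⟨_, h2, h3⟩
            exact hx ⟨h2, h3⟩
          rw [Set.indicator_of_notMem hx, Set.indicator_of_notMem hxK]
      rw [e1, integral_indicator measurableSet_Icc, integral_Icc_eq_integral_Ioc,
        ← intervalIntegral.integral_of_le (hle u hu), intervalIntegral.integral_const_mul]
    · rw [Set.indicator_of_notMem hu]
      have e1 : (fun x : ℝ => K.indicator G ![x, u]) = fun _ => 0 := by
        funext x
        have hxK : ![x, u] ∉ K := by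
          rw [hKeq]
          rintro ⟨h1, _⟩
          exact hu h1
        rw [Set.indicator_of_notMem hxK]
      rw [e1, integral_zero]
  simp only [hinner]
  rw [integral_indicator measurableSet_Icc, integral_Icc_eq_integral_Ioc,
    ← intervalIntegral.integral_of_le hAB.le]

end Helper112.Pf
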