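import Mathlib
import Pool.Agent.Helper112.Pf.Defs3
import Pool.Agent.Helper112.Pf.WFtChord

set_option autoImplicit false

namespace Helper112.Pf

open MeasureTheory







/-! TO PROVE -/

theorem FT_topC (K : Set (Fin 2 → ℝ)) (hK : IsBody K) (A B : ℝ) (lo hi : ℝ → ℝ) (h : Chord K A B lo hi)
    (s z : ℂ) :
    FT K ![s, Complex.I * z] =
      Complex.exp (z * B) * LapC (fun u => lo (B - u)) (fun u => hi (B - u)) (B - A) s z := by
  rw [FT_chord K hK A B lo hi h]
  have h1 : ∀ u : ℝ, Complex.exp (-(Complex.I * (Complex.I * z) * u)) = Complex.exp (z * u) := by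
    intro u
    congr 1
    have : Complex.I * Complex.I = -1 := Complex.I_mul_I
    linear_combination (-z * u) * this
  simp only [h1]
  unfold LapC
  rw [← intervalIntegral.integral_const_mul]
  have h2 := intervalIntegral.integral_comp_sub_left (a := 0) (b := B - A)
    (fun u : ℝ => Complex.exp (z * u) * ∫ x in (lo u)..(hi u), Complex.exp (-(Complex.I * s * x))) B
  have e1 : B - (B - A) = A := by ring
  have e2 : B - 0 = B := by ring
  rw [e1, e2] at h2
  rw [← h2]
  apply intervalIntegral.integral_congr
  intro u _
  simp only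
  rw [← mul_assoc, ← Complex.exp_add]
  congr 2
  push_cast
  ring


end Helper112.Pf
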