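import Mathlib
import Pool.Agent.Helper112.Pf.Defs3
import Pool.Agent.Helper112.Pf.VEvLimit
import Pool.Agent.Helper112.Pf.VRlRoot
import Pool.Agent.Helper112.Pf.VRootsCont

set_option autoImplicit false

namespace Helper112.Pf

open MeasureTheory



/-! TO PROVE -/

/-- the rescaled polynomial -/
noncomputable def h396_fp (c : ℕ → ℕ → ℂ) (M : ℕ) (s t q : ℂ) : Polynomial ℂ :=
  ∑ i ∈ Finset.range M, Polynomial.C (∑ j ∈ Finset.range M, c i j * s ^ i * t ^ j / q) *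
    Polynomial.X ^ i

theorem h396_fp_deg (c : ℕ → ℕ → ℂ) (M : ℕ) (s t q : ℂ) : (h396_fp c M s t q).natDegree ≤ M := by
  unfold h396_fp
  refine Polynomial.natDegree_sum_le_of_forall_le _ _ ?_
  intro i hi
  exact (Polynomial.natDegree_C_mul_X_pow_le _ _).trans (Finset.mem_range.1 hi).le

theorem h396_fp_eval (c : ℕ → ℕ → ℂ) (M : ℕ) (s t q w : ℂ) :
    (h396_fp c M s t q).eval w = ev c M (s * w) t / q := by
  unfold h396_fp ev
  rw [Polynomial.eval_finsetSum, Finset.sum_div]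
  refine Finset.sum_congr rfl fun i _ => ?_
  rw [Polynomial.eval_mul, Polynomial.eval_C, Polynomial.eval_pow, Polynomial.eval_X,
    Finset.sum_mul, Finset.sum_div]
  refine Finset.sum_congr rfl fun j _ => ?_
  rw [mul_pow]
  ring

theorem np_at (c : ℕ → ℕ → ℂ) (M μ D : ℕ) (β : ℝ) (hP : Pivot c M μ D β) (lam : ℂ) (hlam : lam ≠ 0)
    (w0 : ℂ) (h : Rl c M μ D β lam w0 = 0) :
    ∃ w : ℝ → ℂ, Filter.Tendsto w Filter.atTop (nhds w0) ∧
      ∀ᶠ T : ℝ in Filter.atTop, ev c M (((T ^ (-β) : ℝ) : ℂ) * w T) (lam * T) = 0 := by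
  obtain ⟨_, w1, hw1⟩ := Rl_root c M μ D β hP lam hlam
  have hlim : ∀ w : ℂ, Filter.Tendsto (fun T : ℝ => (h396_fp c M ((T ^ (-β) : ℝ) : ℂ) (lam * T)
      ((T ^ ((D : ℝ) - β * μ) : ℝ) : ℂ)).eval w) Filter.atTop (nhds (Rl c M μ D β lam w)) := by
    intro w
    refine (ev_limit c M μ D β hP lam w).congr fun T => ?_
    rw [h396_fp_eval]
  obtain ⟨z, hz, hz2⟩ := roots_cont (fun T : ℝ => h396_fp c M ((T ^ (-β) : ℝ) : ℂ) (lam * T)
      ((T ^ ((D : ℝ) - β * μ) : ℝ) : ℂ)) M (fun T => h396_fp_deg c M _ _ _) w0 w1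
      (Rl c M μ D β lam w1) hw1 (by simpa only [h] using hlim w0) (hlim w1)
  refine ⟨z, hz, ?_⟩
  filter_upwards [hz2, Filter.eventually_gt_atTop (0 : ℝ)] with T hT hT0
  rw [h396_fp_eval] at hT
  have hq : ((T ^ ((D : ℝ) - β * μ) : ℝ) : ℂ) ≠ 0 := by
    exact_mod_cast (Real.rpow_pos_of_pos hT0 _).ne'
  rcases div_eq_zero_iff.1 hT with h1 | h1
  · exact h1
  · exact absurd h1 hq

end Helper112.Pf
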