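import Mathlib
import Pool.Agent.Helper112.Pf.Defs3
import Pool.Agent.Helper112.Pf.VEvLimit
import Pool.Agent.Helper112.Pf.VRootsCont

set_option autoImplicit false

namespace Helper112.Pf

open MeasureTheory



/-! TO PROVE -/

/-- auxiliary polynomial -/
noncomputable def np_real_pol (c : ℕ → ℕ → ℂ) (M μ D : ℕ) (β : ℝ) (w : ℂ) (T : ℝ) :
    Polynomial ℂ :=
  ∑ i ∈ Finset.range M, ∑ j ∈ Finset.range M,
    Polynomial.C (c i j * (((T ^ (-β) : ℝ) : ℂ) * w) ^ i * (Complex.I * T) ^ j /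
      ((T ^ ((D : ℝ) - β * μ) : ℝ) : ℂ)) * Polynomial.X ^ j

theorem np_real_eval (c : ℕ → ℕ → ℂ) (M μ D : ℕ) (β : ℝ) (w : ℂ) (T : ℝ) (v : ℂ) :
    (np_real_pol c M μ D β w T).eval v =
      ev c M (((T ^ (-β) : ℝ) : ℂ) * w) ((Complex.I * v) * T) /
        ((T ^ ((D : ℝ) - β * μ) : ℝ) : ℂ) := by
  unfold np_real_pol ev
  rw [Polynomial.eval_finset_sum, Finset.sum_div]
  refine Finset.sum_congr rfl fun i _ => ?_
  rw [Polynomial.eval_finset_sum, Finset.sum_div]
  refine Finset.sum_congr rfl fun j _ => ?_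
  rw [Polynomial.eval_mul, Polynomial.eval_C, Polynomial.eval_pow, Polynomial.eval_X,
    show (Complex.I * v) * (T : ℂ) = (Complex.I * T) * v by ring, mul_pow (Complex.I * (T : ℂ)) v j]
  ring

theorem np_real_deg (c : ℕ → ℕ → ℂ) (M μ D : ℕ) (β : ℝ) (w : ℂ) (T : ℝ) :
    (np_real_pol c M μ D β w T).natDegree ≤ M := by
  unfold np_real_pol
  refine Polynomial.natDegree_sum_le_of_forall_le _ _ fun i _ => ?_
  refine Polynomial.natDegree_sum_le_of_forall_le _ _ fun j hj => ?_
  refine (Polynomial.natDegree_C_mul_X_pow_le _ _).trans ?_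
  exact (Finset.mem_range.1 hj).le

theorem np_real_ne (c : ℕ → ℕ → ℂ) (M μ D : ℕ) (β : ℝ) (hP : Pivot c M μ D β) (hβ : β ≠ 0)
    (w : ℂ) (hw : w ≠ 0) : ∃ lam : ℂ, Rl c M μ D β lam w ≠ 0 := by
  classical
  obtain ⟨hμ, hD, hc, -⟩ := hP
  by_contra hcon
  push Not at hcon
  let p : Polynomial ℂ := ∑ i ∈ Finset.range M, ∑ j ∈ Finset.range M,
    if β * ((μ : ℝ) - i) = (D : ℝ) - j then Polynomial.C (c i j * w ^ i) * Polynomial.X ^ j else 0
  have hp : ∀ lam : ℂ, p.eval lam = Rl c M μ D β lam w := by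
    intro lam
    show Polynomial.eval lam (∑ i ∈ Finset.range M, ∑ j ∈ Finset.range M,
      if β * ((μ : ℝ) - i) = (D : ℝ) - j then Polynomial.C (c i j * w ^ i) * Polynomial.X ^ j
        else 0) = _
    unfold Rl
    rw [Polynomial.eval_finset_sum]
    refine Finset.sum_congr rfl fun i _ => ?_
    rw [Polynomial.eval_finset_sum]
    refine Finset.sum_congr rfl fun j _ => ?_
    split_ifs
    · rw [Polynomial.eval_mul, Polynomial.eval_C, Polynomial.eval_pow, Polynomial.eval_X]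
    · rw [Polynomial.eval_zero]
  have hp0 : p = 0 := by
    apply Polynomial.funext
    intro lam
    rw [hp, hcon, Polynomial.eval_zero]
  have h1 : p.coeff D = c μ D * w ^ μ := by
    show Polynomial.coeff (∑ i ∈ Finset.range M, ∑ j ∈ Finset.range M,
      if β * ((μ : ℝ) - i) = (D : ℝ) - j then Polynomial.C (c i j * w ^ i) * Polynomial.X ^ j
        else 0) D = _
    rw [Polynomial.finset_sum_coeff, Finset.sum_eq_single μ]
    · rw [Polynomial.finset_sum_coeff, Finset.sum_eq_single D]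
      · rw [if_pos (by ring), Polynomial.coeff_C_mul, Polynomial.coeff_X_pow_self, mul_one]
      · intro j _ hj
        split_ifs
        · rw [Polynomial.coeff_C_mul, Polynomial.coeff_X_pow, if_neg (Ne.symm hj), mul_zero]
        · exact Polynomial.coeff_zero _
      · intro h
        exact absurd (Finset.mem_range.2 hD) h
    · intro i _ hi
      rw [Polynomial.finset_sum_coeff]
      refine Finset.sum_eq_zero fun j _ => ?_
      split_ifs with hij
      · by_cases hj : D = j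
        · exfalso
          subst hj
          rw [sub_self] at hij
          rcases mul_eq_zero.1 hij with h2 | h2
          · exact hβ h2
          · apply hi
            have h3 : (μ : ℝ) = i := by linarith
            exact_mod_cast h3.symm
        · rw [Polynomial.coeff_C_mul, Polynomial.coeff_X_pow, if_neg hj, mul_zero]
      · exact Polynomial.coeff_zero _
    · intro h
      exact absurd (Finset.mem_range.2 hμ) h
  rw [hp0, Polynomial.coeff_zero] at h1
  exact (mul_ne_zero hc (pow_ne_zero _ hw)) h1.symm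

theorem np_real (c : ℕ → ℕ → ℂ) (M μ D : ℕ) (β : ℝ) (hP : Pivot c M μ D β) (hβ : β = -1 / 2)
    (w0 : ℝ) (hw : 0 < w0) (h : Rl c M μ D β Complex.I (w0 : ℂ) = 0) :
    ∃ v : ℝ → ℂ, Filter.Tendsto v Filter.atTop (nhds 1) ∧
      ∀ᶠ T : ℝ in Filter.atTop,
        ev c M (((w0 * Real.sqrt T : ℝ)) : ℂ) (Complex.I * ((T : ℂ) * v T)) = 0 := by
  have hw' : (w0 : ℂ) ≠ 0 := by exact_mod_cast hw.ne'
  have hβ0 : β ≠ 0 := by rw [hβ]; norm_num
  obtain ⟨lam, hlam⟩ := np_real_ne c M μ D β hP hβ0 (w0 : ℂ) hw'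
  have hl1 : Complex.I * (-(Complex.I * lam)) = lam := by
    rw [mul_neg, ← mul_assoc, Complex.I_mul_I]
    ring
  obtain ⟨z, hz1, hz2⟩ := roots_cont (np_real_pol c M μ D β (w0 : ℂ)) M
    (np_real_deg c M μ D β (w0 : ℂ)) 1 (-(Complex.I * lam)) (Rl c M μ D β lam (w0 : ℂ)) hlam
    (by
      have h1 := ev_limit c M μ D β hP (Complex.I * 1) (w0 : ℂ)
      rw [mul_one, h] at h1
      refine h1.congr fun T => ?_
      rw [np_real_eval, mul_one])
    (by
      have h1 := ev_limit c M μ D β hP (Complex.I * (-(Complex.I * lam))) (w0 : ℂ)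
      have h2 : Rl c M μ D β (Complex.I * (-(Complex.I * lam))) (w0 : ℂ) =
        Rl c M μ D β lam (w0 : ℂ) := by rw [hl1]
      rw [h2] at h1
      refine h1.congr fun T => ?_
      rw [np_real_eval])
  refine ⟨z, hz1, ?_⟩
  filter_upwards [hz2, Filter.eventually_gt_atTop (0 : ℝ)] with T hT hT0
  rw [np_real_eval, div_eq_zero_iff] at hT
  have hpow : ((T ^ ((D : ℝ) - β * μ) : ℝ) : ℂ) ≠ 0 := by
    exact_mod_cast (Real.rpow_pos_of_pos hT0 _).ne'
  have h3 := hT.resolve_right hpow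
  have h4 : (T ^ (-β) : ℝ) = Real.sqrt T := by
    rw [Real.sqrt_eq_rpow, hβ]
    norm_num
  rw [h4] at h3
  have h5 : (((w0 * Real.sqrt T : ℝ)) : ℂ) = ((Real.sqrt T : ℝ) : ℂ) * (w0 : ℂ) := by
    push_cast
    ring
  have h6 : Complex.I * ((T : ℂ) * z T) = Complex.I * z T * (T : ℂ) := by ring
  rw [h5, h6]
  exact h3


end Helper112.Pf
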