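import Mathlib
import Pool.Agent.Helper112.Pf.Defs3

set_option autoImplicit false

namespace Helper112.Pf

open MeasureTheory

/-! TO PROVE -/


theorem rot_im2_form (w0 : ℂ) (β : ℝ) (k : ℕ) :
    (Complex.exp (-(Complex.I * Real.pi * β * ((2 * k : ℕ) : ℂ))) * w0).im =
      ‖w0‖ * Real.sin (Complex.arg w0 - 2 * Real.pi * β * k) := by
  have h := Complex.norm_mul_exp_arg_mul_I w0
  have e : Complex.exp (-(Complex.I * Real.pi * β * ((2 * k : ℕ) : ℂ))) * w0 =
      ((‖w0‖ : ℝ) : ℂ) *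
        Complex.exp (((Complex.arg w0 - 2 * Real.pi * β * k : ℝ) : ℂ) * Complex.I) := by
    conv_lhs => rw [← h]
    rw [mul_left_comm, ← Complex.exp_add]
    congr 2
    push_cast
    ring
  rw [e, Complex.im_ofReal_mul, Complex.exp_ofReal_mul_I_im]

theorem rot_im2_step (δ y : ℝ) (hδ : 0 < δ) (hy : 0 ≤ y) :
    ∃ k : ℕ, y < δ * k ∧ δ * k ≤ y + δ := by
  refine ⟨⌊y / δ⌋₊ + 1, ?_, ?_⟩
  · have h := Nat.lt_floor_add_one (y / δ)
    rw [div_lt_iff₀ hδ] at h
    push_cast
    linarith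
  · have h := Nat.floor_le (div_nonneg hy hδ.le)
    rw [le_div_iff₀ hδ] at h
    push_cast
    linarith

theorem rot_im2 (w0 : ℂ) (hw : w0 ≠ 0) (β : ℝ) (h1 : -1 < β) (h2 : β < 0) :
    (∃ k : ℕ, 0 < (Complex.exp (-(Complex.I * Real.pi * β * ((2 * k : ℕ) : ℂ))) * w0).im) ∨
      (β = -1 / 2 ∧ w0.im = 0) := by
  have hpi := Real.pi_pos
  have hn : 0 < ‖w0‖ := norm_pos_iff.2 hw
  have ha1 := Complex.neg_pi_lt_arg w0
  have ha2 := Complex.arg_le_pi w0
  rcases lt_trichotomy β (-1 / 2) with h | h | h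
  · left
    have hd : 0 < 2 * Real.pi * (1 + β) := by
      have : 0 < 1 + β := by linarith
      positivity
    obtain ⟨k, hk1, hk2⟩ := rot_im2_step (2 * Real.pi * (1 + β)) (Complex.arg w0 + Real.pi) hd
      (by linarith)
    refine ⟨k, ?_⟩
    rw [rot_im2_form]
    apply mul_pos hn
    have e : Complex.arg w0 - 2 * Real.pi * β * k =
        (Complex.arg w0 - 2 * Real.pi * (1 + β) * k + 2 * Real.pi - 2 * Real.pi) +
          (k : ℝ) * (2 * Real.pi) := by ring
    rw [e, Real.sin_add_nat_mul_two_pi, Real.sin_sub_two_pi]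
    apply Real.sin_pos_of_pos_of_lt_pi
    · have : 2 * Real.pi * (1 + β) < Real.pi := by nlinarith
      linarith
    · linarith
  · subst h
    rcases lt_trichotomy w0.im 0 with h3 | h3 | h3
    · left
      refine ⟨1, ?_⟩
      have e : -(Complex.I * Real.pi * ((-1 / 2 : ℝ) : ℂ) * ((2 * 1 : ℕ) : ℂ)) =
          Real.pi * Complex.I := by
        push_cast
        ring
      rw [e, Complex.exp_pi_mul_I, neg_one_mul, Complex.neg_im]
      linarith
    · right
      exact ⟨rfl, h3⟩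
    · left
      refine ⟨0, ?_⟩
      simpa using h3
  · left
    have hd : 0 < 2 * Real.pi * (-β) := by
      have : 0 < -β := by linarith
      positivity
    obtain ⟨k, hk1, hk2⟩ := rot_im2_step (2 * Real.pi * (-β)) (2 * Real.pi - Complex.arg w0) hd
      (by linarith)
    refine ⟨k, ?_⟩
    rw [rot_im2_form]
    apply mul_pos hn
    have e : Complex.arg w0 - 2 * Real.pi * β * k =
        (Complex.arg w0 + 2 * Real.pi * (-β) * k) := by ring
    rw [e, ← Real.sin_sub_two_pi]
    apply Real.sin_pos_of_pos_of_lt_pi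
    · linarith
    · have : 2 * Real.pi * (-β) < Real.pi := by nlinarith
      linarith


end Helper112.Pf
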