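import Mathlib
import Pool.Agent.Helper112.Pf.Defs3

set_option autoImplicit false

namespace Helper112.Pf

open MeasureTheory

/-! TO PROVE -/

theorem slope_dich (l : ℝ → ℝ) (H : ℝ) (hH : 0 < H) (hl : ConvexOn ℝ (Set.Icc 0 H) l)
    (hc : ContinuousOn l (Set.Icc 0 H)) (hneg : ∀ u ∈ Set.Icc 0 H, l u ≤ 0) :
    (∃ C : ℝ, ∀ u ∈ Set.Icc 0 H, |l u| ≤ C * u) ∨
    (∀ M : ℝ, ∃ u0 : ℝ, 0 < u0 ∧ ∀ u ∈ Set.Ioo 0 u0, l u ≤ -(M * u)) := by
  have h0mem : (0 : ℝ) ∈ Set.Icc 0 H := ⟨le_refl 0, hH.le⟩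
  rcases (hneg 0 h0mem).lt_or_eq with h0 | h0
  · right
    intro M
    have hcont := hc 0 h0mem
    rw [Metric.continuousWithinAt_iff] at hcont
    obtain ⟨δ, hδ, hδ'⟩ := hcont (-(l 0) / 2) (by linarith)
    have hM : 0 < |M| + 1 := by positivity
    refine ⟨min (min δ H) (-(l 0) / (2 * (|M| + 1))), ?_, ?_⟩
    · refine lt_min (lt_min hδ hH) (div_pos (by linarith) (by positivity))
    · rintro u ⟨hu0, hu1⟩
      have hu2 : u < δ := lt_of_lt_of_le hu1 ((min_le_left _ _).trans (min_le_left _ _))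
      have hu3 : u < H := lt_of_lt_of_le hu1 ((min_le_left _ _).trans (min_le_right _ _))
      have hu4 : u < -(l 0) / (2 * (|M| + 1)) := lt_of_lt_of_le hu1 (min_le_right _ _)
      have h1 := hδ' (show u ∈ Set.Icc 0 H from ⟨hu0.le, hu3.le⟩) (by
        rw [Real.dist_eq, sub_zero, abs_of_pos hu0]
        exact hu2)
      rw [Real.dist_eq] at h1
      have h2 := (abs_lt.1 h1).2
      have h3 : u * (2 * (|M| + 1)) < -(l 0) := by
        rwa [lt_div_iff₀ (by positivity)] at hu4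
      have h4 : M * u ≤ |M| * u := mul_le_mul_of_nonneg_right (le_abs_self M) hu0.le
      nlinarith
  · by_cases hb : ∃ C : ℝ, ∀ u ∈ Set.Ioc 0 H, -(C * u) ≤ l u
    · left
      obtain ⟨C, hC⟩ := hb
      refine ⟨C, ?_⟩
      intro u hu
      rcases hu.1.eq_or_lt with h | h
      · rw [← h, h0]
        simp
      · rw [abs_of_nonpos (hneg u hu)]
        have := hC u ⟨h, hu.2⟩
        linarith
    · right
      intro M
      push Not at hb
      obtain ⟨u1, hu1, hu1'⟩ := hb M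
      refine ⟨u1, hu1.1, ?_⟩
      rintro u ⟨hu0, huu⟩
      have h1 : 0 < u1 := hu1.1
      have h2 := hl.2 h0mem (show u1 ∈ Set.Icc 0 H from ⟨h1.le, hu1.2⟩)
        (show 0 ≤ 1 - u / u1 by
          rw [sub_nonneg, div_le_one h1]
          exact huu.le)
        (show 0 ≤ u / u1 by positivity) (by ring)
      have h3 : (1 - u / u1) • (0 : ℝ) + (u / u1) • u1 = u := by
        rw [smul_zero, zero_add, smul_eq_mul]
        field_simp
      rw [h3, h0, smul_zero, zero_add, smul_eq_mul] at h2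
      have h4 : u / u1 * l u1 ≤ u / u1 * (-(M * u1)) :=
        mul_le_mul_of_nonneg_left hu1'.le (by positivity)
      have h5 : u / u1 * (-(M * u1)) = -(M * u) := by
        field_simp
      linarith

end Helper112.Pf
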