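import Mathlib
import Pool.Agent.Helper112.Pf.Defs3

set_option autoImplicit false

namespace Helper112.Pf

open MeasureTheory



/-! TO PROVE -/

theorem top_good_exp (k ε : ℝ) (hk : 0 < k) (hε : 0 < ε) (n : ℕ) :
    ∀ᶠ T : ℝ in Filter.atTop, T ^ n * Real.exp (-(T * k)) < ε := by
  have h1 : Filter.Tendsto (fun T : ℝ => T * k) Filter.atTop Filter.atTop :=
    Filter.tendsto_id.atTop_mul_const hk
  have h2 := (Real.tendsto_pow_mul_exp_neg_atTop_nhds_zero n).comp h1
  have h3 := h2.eventually (gt_mem_nhds (show (0:ℝ) < ε * k ^ n by positivity))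
  filter_upwards [h3] with T hT
  simp only [Function.comp_apply, mul_pow] at hT
  have h4 : T ^ n * Real.exp (-(T * k)) * k ^ n < ε * k ^ n := by
    refine lt_of_le_of_lt (le_of_eq ?_) hT
    ring
  exact lt_of_mul_lt_mul_right h4 (by positivity)

theorem top_good_core (l r : ℝ → ℝ) (H : ℝ) (h : Prof l r H) (C C2 u0 q : ℝ) (hC : 0 ≤ C)
    (hr : ∀ u ∈ Set.Icc 0 H, |r u| ≤ C * u) (hC2 : ∀ u ∈ Set.Icc 0 H, |l u| ≤ C2)
    (s : ℂ) (T : ℝ) (hT : 0 < T) (hq : 0 ≤ q) (ha : ‖s‖ * C < T) (hs0 : s ≠ 0)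
    (hl : ∀ u ∈ Set.Ioo 0 u0, u ≤ H → s.im * l u ≤ -(q * u)) (hlap : Lap l r H s T = 0) :
    0 ≤ Real.exp (-(T * H)) / T + Real.exp (-(T * u0)) * Real.exp (‖s‖ * C2) * H +
      1 / (T + q) - 1 / T + ‖s‖ * C / (T - ‖s‖ * C) ^ 2 := by
  obtain ⟨hH, -, -, hlc, hrc, -, -⟩ := h
  have hIs : -(Complex.I * s) ≠ 0 := neg_ne_zero.2 (mul_ne_zero Complex.I_ne_zero hs0)
  set W : ℝ → ℂ := fun u => Complex.exp (-((T : ℂ) * u)) *
    (Complex.exp (-(Complex.I * s) * (l u)) - Complex.exp (-(Complex.I * s) * (r u))) with hW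
  have hWc : ContinuousOn W (Set.Icc 0 H) := by
    have h1 : ContinuousOn (fun u => ((l u : ℝ) : ℂ)) (Set.Icc 0 H) :=
      Complex.continuous_ofReal.comp_continuousOn hlc
    have h2 : ContinuousOn (fun u => ((r u : ℝ) : ℂ)) (Set.Icc 0 H) :=
      Complex.continuous_ofReal.comp_continuousOn hrc
    refine ContinuousOn.mul (by fun_prop) (ContinuousOn.sub ?_ ?_)
    · exact Complex.continuous_exp.comp_continuousOn (continuousOn_const.mul h1)
    · exact Complex.continuous_exp.comp_continuousOn (continuousOn_const.mul h2)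
  have hWi : IntervalIntegrable W volume 0 H := by
    apply ContinuousOn.intervalIntegrable
    rw [Set.uIcc_of_le hH.le]
    exact hWc
  have e1 : Lap l r H s T = (∫ u in (0:ℝ)..H, W u) * (1 / (Complex.I * s)) := by
    rw [← intervalIntegral.integral_mul_const]
    unfold Lap
    refine intervalIntegral.integral_congr fun u _ => ?_
    have e2 : ∫ x in (l u)..(r u), Complex.exp (-(Complex.I * s * x)) =
        (Complex.exp (-(Complex.I * s) * (r u)) - Complex.exp (-(Complex.I * s) * (l u))) /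
          (-(Complex.I * s)) := by
      rw [← integral_exp_mul_complex hIs]
      refine intervalIntegral.integral_congr fun x _ => ?_
      simp only [neg_mul]
    simp only [hW]
    rw [e2, div_neg, ← neg_div, neg_sub]
    ring
  have e3 : ∫ u in (0:ℝ)..H, W u = 0 := by
    rw [hlap] at e1
    have h4 : (1 / (Complex.I * s)) ≠ 0 := by
      refine one_div_ne_zero (mul_ne_zero Complex.I_ne_zero hs0)
    exact (mul_eq_zero.1 e1.symm).resolve_right h4
  have e4 : ∫ u in (0:ℝ)..H, (W u).re = 0 := by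
    have := Complex.reCLM.intervalIntegral_comp_comm hWi
    rw [e3] at this
    simpa using this
  have hWri : IntervalIntegrable (fun u => (W u).re) volume 0 H := by
    apply ContinuousOn.intervalIntegrable
    rw [Set.uIcc_of_le hH.le]
    exact Complex.continuous_re.comp_continuousOn hWc
  set a : ℝ := T - ‖s‖ * C with ha'
  have hapos : 0 < a := by linarith
  set E : ℝ := Real.exp (-(T * u0)) * Real.exp (‖s‖ * C2) with hE
  set G : ℝ → ℝ := fun u => Real.exp (-((T + q) * u)) - Real.exp (-(T * u)) +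
    ‖s‖ * C * (u * Real.exp (-(a * u))) + E with hG
  have hGc : Continuous G := by fun_prop
  set F : ℝ → ℝ := fun u => -(Real.exp (-((T + q) * u)) / (T + q)) + Real.exp (-(T * u)) / T -
    ‖s‖ * C * ((u / a + 1 / a ^ 2) * Real.exp (-(a * u))) + E * u with hF
  have hexp : ∀ k u : ℝ, HasDerivAt (fun u => Real.exp (-(k * u))) (Real.exp (-(k * u)) * -(k)) u := by
    intro k u
    have : HasDerivAt (fun u : ℝ => -(k * u)) (-(k)) u := by
      simpa using ((hasDerivAt_id' u).const_mul k).fun_neg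
    exact this.exp
  have hFd : ∀ u, HasDerivAt F (G u) u := by
    intro u
    have d1 := ((hexp (T + q) u).div_const (T + q)).fun_neg
    have d2 := (hexp T u).div_const T
    have d3 : HasDerivAt (fun u : ℝ => u / a + 1 / a ^ 2) (1 / a) u :=
      ((hasDerivAt_id u).div_const a).add_const _
    have d4 := (d3.fun_mul (hexp a u)).const_mul (‖s‖ * C)
    have d5 : HasDerivAt (fun u : ℝ => E * u) E u := by
      simpa using (hasDerivAt_id u).const_mul E
    have d6 := ((d1.fun_add d2).fun_sub d4).fun_add d5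
    refine d6.congr_deriv ?_
    simp only [hG]
    have hTq : T + q ≠ 0 := by positivity
    have hT0 : T ≠ 0 := hT.ne'
    have ha0 : a ≠ 0 := hapos.ne'
    generalize Real.exp (-((T + q) * u)) = x1
    generalize Real.exp (-(T * u)) = x2
    generalize Real.exp (-(a * u)) = x3
    field_simp
    ring
  have e5 : ∫ u in (0:ℝ)..H, G u = F H - F 0 :=
    intervalIntegral.integral_eq_sub_of_hasDerivAt (fun u _ => hFd u)
      (hGc.intervalIntegrable _ _)
  have e6 : ∫ u in (0:ℝ)..H, (W u).re ≤ ∫ u in (0:ℝ)..H, G u := by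
    refine intervalIntegral.integral_mono_on_of_le_Ioo hH.le hWri
      (hGc.intervalIntegrable _ _) ?_
    intro u hu
    have huI : u ∈ Set.Icc 0 H := ⟨hu.1.le, hu.2.le⟩
    have f1 : Complex.exp (-((T : ℂ) * u)) = ((Real.exp (-(T * u)) : ℝ) : ℂ) := by
      push_cast; rfl
    have f2 : (W u).re = Real.exp (-(T * u)) *
        ((Complex.exp (-(Complex.I * s) * (l u))).re -
          (Complex.exp (-(Complex.I * s) * (r u))).re) := by
      simp only [hW]
      rw [f1, Complex.re_ofReal_mul, Complex.sub_re]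
    have f3 : (Complex.exp (-(Complex.I * s) * (l u))).re ≤ Real.exp (s.im * l u) := by
      refine (Complex.re_le_norm _).trans ?_
      rw [Complex.norm_exp]
      refine le_of_eq (congrArg _ ?_)
      simp
    have f4 : 1 - (Complex.exp (-(Complex.I * s) * (r u))).re ≤
        ‖s‖ * C * u * Real.exp (‖s‖ * C * u) := by
      have g1 : 1 - (Complex.exp (-(Complex.I * s) * (r u))).re ≤
          ‖Complex.exp (-(Complex.I * s) * (r u)) - 1‖ := by
        have := (abs_le.1 (Complex.abs_re_le_norm (Complex.exp (-(Complex.I * s) * (r u)) - 1))).1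
        simp only [Complex.sub_re, Complex.one_re] at this
        linarith
      have g2 := Complex.norm_exp_sub_sum_le_norm_mul_exp (-(Complex.I * s) * (r u)) 1
      simp only [Finset.range_one, Finset.sum_singleton, pow_zero, Nat.factorial_zero,
        Nat.cast_one, div_one, pow_one] at g2
      have g3 : ‖-(Complex.I * s) * (r u : ℂ)‖ ≤ ‖s‖ * C * u := by
        rw [norm_mul, norm_neg, norm_mul, Complex.norm_I, one_mul, Complex.norm_real,
          Real.norm_eq_abs, mul_assoc]
        exact mul_le_mul_of_nonneg_left (hr u huI) (norm_nonneg _)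
      refine g1.trans (g2.trans ?_)
      exact mul_le_mul g3 (Real.exp_le_exp.2 g3) (Real.exp_pos _).le
        (le_trans (norm_nonneg _) g3)
    have f5 : Real.exp (-(T * u)) * Real.exp (s.im * l u) ≤
        Real.exp (-((T + q) * u)) + E := by
      rcases lt_or_ge u u0 with h0 | h0
      · have g1 := hl u ⟨hu.1, h0⟩ hu.2.le
        have g2 : Real.exp (-(T * u)) * Real.exp (s.im * l u) ≤ Real.exp (-((T + q) * u)) := by
          rw [← Real.exp_add]
          refine Real.exp_le_exp.2 ?_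
          nlinarith
        have : 0 ≤ E := by positivity
        linarith
      · have g1 : Real.exp (-(T * u)) ≤ Real.exp (-(T * u0)) := by
          refine Real.exp_le_exp.2 ?_
          nlinarith
        have g2 : Real.exp (s.im * l u) ≤ Real.exp (‖s‖ * C2) := by
          refine Real.exp_le_exp.2 ((le_abs_self _).trans ?_)
          rw [abs_mul]
          exact mul_le_mul (Complex.abs_im_le_norm s) (hC2 u huI) (abs_nonneg _) (norm_nonneg _)
        have g3 : Real.exp (-(T * u)) * Real.exp (s.im * l u) ≤ E :=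
          mul_le_mul g1 g2 (Real.exp_pos _).le (Real.exp_pos _).le
        have := Real.exp_pos (-((T + q) * u))
        linarith
    have f6 : Real.exp (-(T * u)) * (‖s‖ * C * u * Real.exp (‖s‖ * C * u)) =
        ‖s‖ * C * (u * Real.exp (-(a * u))) := by
      have : Real.exp (-(a * u)) = Real.exp (-(T * u)) * Real.exp (‖s‖ * C * u) := by
        rw [← Real.exp_add]
        congr 1
        simp only [ha']
        ring
      rw [this]
      ring
    rw [f2]
    have g0 := Real.exp_pos (-(T * u))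
    have g1 := mul_le_mul_of_nonneg_left f3 g0.le
    have g2 := mul_le_mul_of_nonneg_left f4 g0.le
    simp only [hG]
    rw [f6] at g2
    nlinarith
  rw [e4, e5] at e6
  have e7 : F 0 = -(1 / (T + q)) + 1 / T - ‖s‖ * C * (1 / a ^ 2) := by
    simp [hF]
  have e8 : F H ≤ Real.exp (-(T * H)) / T + E * H := by
    have g1 : 0 ≤ Real.exp (-((T + q) * H)) / (T + q) := by positivity
    have g2 : 0 ≤ ‖s‖ * C * ((H / a + 1 / a ^ 2) * Real.exp (-(a * H))) := by positivity
    simp only [hF]
    linarith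
  rw [e7] at e6
  have e9 : ‖s‖ * C * (1 / a ^ 2) = ‖s‖ * C / a ^ 2 := by ring
  rw [e9] at e6
  linarith

theorem top_good (l r : ℝ → ℝ) (H : ℝ) (h : Prof l r H) (C : ℝ)
    (hr : ∀ u ∈ Set.Icc 0 H, |r u| ≤ C * u)
    (hl : ∀ M : ℝ, ∃ u0 : ℝ, 0 < u0 ∧ ∀ u ∈ Set.Ioo 0 u0, l u ≤ -(M * u)) (s : ℝ → ℂ)
    (hs : Filter.Tendsto (fun T : ℝ => ‖s T‖ / T) Filter.atTop (nhds 0))
    (hs' : Filter.Tendsto (fun T : ℝ => ‖s T‖) Filter.atTop Filter.atTop) (c : ℝ) (hc : 0 < c)
    (him : ∀ᶠ T : ℝ in Filter.atTop, c * ‖s T‖ ≤ (s T).im) :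
    ∀ᶠ T : ℝ in Filter.atTop, Lap l r H (s T) T ≠ 0 := by
  have hP := h
  obtain ⟨hH, -, -, hlc, -, -, -⟩ := hP
  have hC : 0 ≤ C := by
    have := hr H ⟨hH.le, le_rfl⟩
    have := (abs_nonneg _).trans this
    exact nonneg_of_mul_nonneg_left this hH
  obtain ⟨C2, hC2⟩ := isCompact_Icc.exists_bound_of_continuousOn hlc
  simp only [Real.norm_eq_abs] at hC2
  have hC20 : 0 ≤ C2 := (abs_nonneg _).trans (hC2 0 ⟨le_rfl, hH.le⟩)
  obtain ⟨u0, hu0, hlu⟩ := hl ((4 * C + 4) / c)
  have v1 := top_good_exp H 1 hH one_pos 1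
  have v2 := top_good_exp (u0 / 2) (1 / H) (by positivity) (by positivity) 2
  have v3 := hs.eventually (gt_mem_nhds (show (0:ℝ) < 1 / (4 * C + 4) by positivity))
  have v4 := hs.eventually (gt_mem_nhds (show (0:ℝ) < u0 / 2 / (C2 + 1) by positivity))
  filter_upwards [v1, v2, v3, v4, hs'.eventually_ge_atTop 1, him, Filter.eventually_ge_atTop 1]
    with T w1 w2 w3 w4 w5 w6 w7 hlap
  have hT : 0 < T := by linarith
  rw [div_lt_div_iff₀ hT (by positivity), one_mul] at w3
  rw [div_lt_div_iff₀ hT (by positivity)] at w4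
  have hσ : 0 < ‖s T‖ := by linarith
  have hs0 : s T ≠ 0 := norm_pos_iff.1 hσ
  have hq : 0 ≤ ‖s T‖ * (4 * C + 4) := by positivity
  have hl' : ∀ u ∈ Set.Ioo 0 u0, u ≤ H → (s T).im * l u ≤ -(‖s T‖ * (4 * C + 4) * u) := by
    intro u hu _
    have g1 := hlu u hu
    have g2 : 0 ≤ (4 * C + 4) / c * u := by have := hu.1; positivity
    have g3 : (s T).im * l u ≤ (c * ‖s T‖) * l u :=
      mul_le_mul_of_nonpos_right w6 (by linarith)
    have g4 : (c * ‖s T‖) * l u ≤ (c * ‖s T‖) * -((4 * C + 4) / c * u) :=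
      mul_le_mul_of_nonneg_left g1 (by positivity)
    have g5 : (c * ‖s T‖) * -((4 * C + 4) / c * u) = -(‖s T‖ * (4 * C + 4) * u) := by
      field_simp
    linarith
  have key := top_good_core l r H h C C2 u0 (‖s T‖ * (4 * C + 4)) hC hr hC2 (s T) T hT hq
    (by nlinarith) hs0 hl' hlap
  generalize ‖s T‖ = σ at *
  have k1 : 1 / (T + σ * (4 * C + 4)) - 1 / T ≤ -(σ * (2 * C + 2) / T ^ 2) := by
    rw [div_sub_div _ _ (by positivity) (by positivity), ← neg_div,
      div_le_div_iff₀ (by positivity) (by positivity)]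
    have : 0 ≤ σ * (2 * C + 2) * T * (T - σ * (4 * C + 4)) :=
      mul_nonneg (by positivity) (by linarith)
    nlinarith
  have k2 : σ * C / (T - σ * C) ^ 2 ≤ 2 * (σ * C) / T ^ 2 := by
    have hσC : σ * C ≤ T / 4 := by nlinarith
    have hσC0 : 0 ≤ σ * C := by positivity
    have hpos : 0 < T - σ * C := by linarith
    rw [div_le_div_iff₀ (by positivity) (by positivity)]
    have : T ^ 2 ≤ 2 * (T - σ * C) ^ 2 := by nlinarith
    nlinarith
  have k3 : Real.exp (-(T * u0)) * Real.exp (σ * C2) ≤ Real.exp (-(T * (u0 / 2))) := by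
    rw [← Real.exp_add]
    refine Real.exp_le_exp.2 ?_
    nlinarith
  have k4 : Real.exp (-(T * u0)) * Real.exp (σ * C2) * H ≤ Real.exp (-(T * (u0 / 2))) * H :=
    mul_le_mul_of_nonneg_right k3 hH.le
  have k5 : Real.exp (-(T * (u0 / 2))) * H < 1 / T ^ 2 := by
    rw [lt_div_iff₀ (by positivity)]
    have := mul_lt_mul_of_pos_right w2 hH
    rw [one_div, inv_mul_cancel₀ hH.ne'] at this
    nlinarith
  have k6 : Real.exp (-(T * H)) / T < 1 / T ^ 2 := by
    rw [div_lt_div_iff₀ (by positivity) (by positivity)]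
    rw [pow_one] at w1
    nlinarith
  have k7 : 1 / T ^ 2 ≤ σ / T ^ 2 := by gcongr
  have k8 : -(σ * (2 * C + 2) / T ^ 2) + 2 * (σ * C) / T ^ 2 + 2 * (σ / T ^ 2) = 0 := by ring
  linarith

end Helper112.Pf
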