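import Mathlib
import Pool.Agent.Helper112.Pf.Defs3

set_option autoImplicit false

namespace Helper112.Pf

open MeasureTheory



/-! TO PROVE -/

theorem pf3_exp (z : ℂ) : ‖Complex.exp z - 1‖ ≤ ‖z‖ * Real.exp ‖z‖ := by
  have h := Complex.norm_exp_sub_sum_le_norm_mul_exp z 1
  simpa using h

theorem pf3_inner (s : ℂ) (a b c : ℝ) (hab : a ≤ b) (ha : |a| ≤ c) (hb : |b| ≤ c) :
    ‖(∫ x in a..b, Complex.exp (-(Complex.I * s * x))) - ((b - a : ℝ) : ℂ)‖ ≤
      (‖s‖ * c * Real.exp (‖s‖ * c)) * (b - a) := by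
  have hint : IntervalIntegrable (fun x : ℝ => Complex.exp (-(Complex.I * s * x))) volume a b :=
    Continuous.intervalIntegrable (by fun_prop) _ _
  have h1 : (∫ x in a..b, Complex.exp (-(Complex.I * s * x))) - ((b - a : ℝ) : ℂ) =
      ∫ x in a..b, (Complex.exp (-(Complex.I * s * x)) - 1) := by
    rw [intervalIntegral.integral_sub hint intervalIntegrable_const]
    simp
  rw [h1]
  have hc : 0 ≤ c := (abs_nonneg _).trans ha
  have h2 := intervalIntegral.norm_integral_le_of_norm_le_const (a := a) (b := b)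
    (C := ‖s‖ * c * Real.exp (‖s‖ * c))
    (f := fun x : ℝ => Complex.exp (-(Complex.I * s * x)) - 1) (by
      intro x hx
      rw [Set.uIoc_of_le hab] at hx
      have hxc : |x| ≤ c := abs_le.2 ⟨by linarith [(abs_le.1 ha).1, hx.1],
        by linarith [(abs_le.1 hb).2, hx.2]⟩
      have hn : ‖-(Complex.I * s * x)‖ ≤ ‖s‖ * c := by
        rw [norm_neg, norm_mul, norm_mul, Complex.norm_I, one_mul, Complex.norm_real]
        exact mul_le_mul_of_nonneg_left hxc (norm_nonneg _)
      refine (pf3_exp _).trans ?_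
      exact mul_le_mul hn (Real.exp_le_exp.2 hn) (Real.exp_pos _).le (by positivity))
  rwa [abs_of_nonneg (sub_nonneg.2 hab)] at h2

theorem pf3_prim (T H : ℝ) (hT : 0 < T) (hH : 0 < H) :
    ∫ u in (0 : ℝ)..H, Real.exp (-(T * u / 2)) * (u * (2 + T * u)) ≤ 24 / T ^ 2 := by
  have hd : ∀ u ∈ Set.uIcc (0 : ℝ) H, HasDerivAt
      (fun u : ℝ => -(Real.exp (-(T * u / 2)) * ((2 * T ^ 2 * u ^ 2 + 12 * T * u + 24) / T ^ 2)))
      (Real.exp (-(T * u / 2)) * (u * (2 + T * u))) u := by
    intro u _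
    have h1 : HasDerivAt (fun u : ℝ => -(T * u / 2)) (-(T / 2)) u := by
      have := (((hasDerivAt_id u).const_mul T).div_const 2).fun_neg
      simpa using this
    have h2 : HasDerivAt (fun u : ℝ => (2 * T ^ 2 * u ^ 2 + 12 * T * u + 24) / T ^ 2)
        ((2 * T ^ 2 * (2 * u) + 12 * T) / T ^ 2) u := by
      have a1 : HasDerivAt (fun u : ℝ => 2 * T ^ 2 * u ^ 2) (2 * T ^ 2 * (2 * u)) u := by
        have := (hasDerivAt_pow 2 u).const_mul (2 * T ^ 2)
        simpa using this
      have a2 : HasDerivAt (fun u : ℝ => 12 * T * u) (12 * T) u := by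
        have := (hasDerivAt_id u).const_mul (12 * T)
        simpa using this
      exact ((a1.add a2).add_const 24).div_const (T ^ 2)
    have h3 := (h1.exp.fun_mul h2).fun_neg
    refine h3.congr_deriv ?_
    have hT' : T ≠ 0 := hT.ne'
    field_simp
    ring
  rw [intervalIntegral.integral_eq_sub_of_hasDerivAt hd
    (Continuous.intervalIntegrable (by fun_prop) _ _)]
  have h4 : 0 ≤ Real.exp (-(T * H / 2)) * ((2 * T ^ 2 * H ^ 2 + 12 * T * H + 24) / T ^ 2) := by
    positivity
  simp only [mul_zero, zero_div, neg_zero, Real.exp_zero]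
  have h5 : (1 : ℝ) * ((2 * T ^ 2 * 0 ^ 2 + 0 + 24) / T ^ 2) = 24 / T ^ 2 := by norm_num
  linarith

theorem top_good0 (l r : ℝ → ℝ) (H : ℝ) (h : Prof l r H) (C : ℝ)
    (hl : ∀ u ∈ Set.Icc 0 H, |l u| ≤ C * u) (hr : ∀ u ∈ Set.Icc 0 H, |r u| ≤ C * u) (s : ℝ → ℂ)
    (hs : Filter.Tendsto (fun T : ℝ => ‖s T‖ / T) Filter.atTop (nhds 0)) :
    ∀ᶠ T : ℝ in Filter.atTop, Lap l r H (s T) T ≠ 0 := by
  obtain ⟨hH, hcl, hcr, hol, hor, hle, hlt⟩ := h
  have hC : 0 ≤ C := by
    have h1 := (abs_nonneg _).trans (hl H ⟨hH.le, le_rfl⟩)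
    by_contra h2
    push Not at h2
    nlinarith
  have hconc : ConcaveOn ℝ (Set.Icc 0 H) (r - l) := hcr.sub hcl
  have hlam0 : ∀ u ∈ Set.Icc 0 H, 0 ≤ r u - l u := fun u hu => sub_nonneg.2 (hle u hu)
  -- concavity facts
  have factA : ∀ u a : ℝ, 0 ≤ u → u ≤ a → 0 < a → a ≤ H → u / a * (r a - l a) ≤ r u - l u := by
    intro u a hu hua ha haH
    have h1 := hconc.2 (show (0 : ℝ) ∈ Set.Icc 0 H from ⟨le_rfl, hH.le⟩)
      (show a ∈ Set.Icc 0 H from ⟨ha.le, haH⟩)
      (show (0 : ℝ) ≤ 1 - u / a from sub_nonneg.2 ((div_le_one ha).2 hua))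
      (show (0 : ℝ) ≤ u / a from div_nonneg hu ha.le) (by ring)
    have e1 : (1 - u / a) • (0 : ℝ) + (u / a) • a = u := by
      simp only [smul_eq_mul, mul_zero, zero_add]; field_simp
    rw [e1] at h1
    simp only [Pi.sub_apply, smul_eq_mul] at h1
    have h2 : 0 ≤ (1 - u / a) * (r 0 - l 0) :=
      mul_nonneg (sub_nonneg.2 ((div_le_one ha).2 hua)) (hlam0 0 ⟨le_rfl, hH.le⟩)
    linarith
  have factC : ∀ u a : ℝ, 0 ≤ u → u ≤ a → a ≤ H / 2 → r u - l u ≤ 2 * (r a - l a) := by
    intro u a hu hua haH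
    have huH : 0 < H - u := by linarith
    have hw1 : 0 ≤ (H - a) / (H - u) := div_nonneg (by linarith) huH.le
    have hw2 : 0 ≤ (a - u) / (H - u) := div_nonneg (by linarith) huH.le
    have h1 := hconc.2 (show u ∈ Set.Icc 0 H from ⟨hu, by linarith⟩)
      (show H ∈ Set.Icc 0 H from ⟨hH.le, le_rfl⟩) hw1 hw2
      (by field_simp; ring)
    have e1 : ((H - a) / (H - u)) • u + ((a - u) / (H - u)) • H = a := by
      simp only [smul_eq_mul]; field_simp; ring
    rw [e1] at h1
    simp only [Pi.sub_apply, smul_eq_mul] at h1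
    have h2 : 0 ≤ (a - u) / (H - u) * (r H - l H) := mul_nonneg hw2 (hlam0 H ⟨hH.le, le_rfl⟩)
    have h3 : 1 / 2 ≤ (H - a) / (H - u) := by
      rw [le_div_iff₀ huH]; linarith
    have h4 := mul_le_mul_of_nonneg_right h3 (hlam0 u ⟨hu, by linarith⟩)
    linarith
  have ev1 : ∀ᶠ T : ℝ in Filter.atTop, ‖s T‖ / T < 1 / (200 * (C + 1)) :=
    hs.eventually_lt_const (by positivity)
  filter_upwards [ev1, Filter.eventually_gt_atTop 0, Filter.eventually_ge_atTop (2 / H),
    Filter.eventually_ge_atTop 1] with T h1 hT hTH hT1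
  have hsC : ‖s T‖ * C ≤ 1 / 200 * T := by
    rw [div_lt_iff₀ hT] at h1
    have h2 : ‖s T‖ * (C + 1) < 1 / 200 * T := by
      have h3 := mul_lt_mul_of_pos_right h1 (show 0 < C + 1 by linarith)
      have h4 : 1 / (200 * (C + 1)) * T * (C + 1) = 1 / 200 * T := by
        field_simp
      rw [h4] at h3
      exact h3
    nlinarith [norm_nonneg (s T)]
  have haH : 1 / T ≤ H / 2 := by
    rw [div_le_div_iff₀ hT two_pos]
    rw [div_le_iff₀ hH] at hTH
    linarith
  have ha0 : 0 < 1 / T := by positivity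
  set m : ℝ := r (1 / T) - l (1 / T) with hm
  have hm0 : 0 < m := sub_pos.2 (hlt _ ⟨ha0, by linarith⟩)
  -- upper bound for lambda
  have hup : ∀ u ∈ Set.Icc 0 H, r u - l u ≤ m * (2 + T * u) := by
    intro u hu
    rcases le_total u (1 / T) with h2 | h2
    · have h3 := factC u (1 / T) hu.1 h2 haH
      have h4 : 0 ≤ m * (T * u) := mul_nonneg hm0.le (mul_nonneg hT.le hu.1)
      rw [← hm] at h3
      linarith
    · have hu0 : 0 < u := lt_of_lt_of_le ha0 h2
      have h3 := factA (1 / T) u ha0.le h2 hu0 hu.2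
      rw [← hm] at h3
      have h4 : 1 / T / u * (r u - l u) = (r u - l u) / (T * u) := by
        field_simp
      rw [h4, div_le_iff₀ (mul_pos hT hu0)] at h3
      linarith
  -- lower bound for lambda
  have hlo : ∀ u ∈ Set.Icc 0 (1 / T), T * u * m ≤ r u - l u := by
    intro u hu
    have h3 := factA u (1 / T) hu.1 hu.2 ha0 (by linarith)
    rw [← hm] at h3
    have h4 : u / (1 / T) = T * u := by field_simp
    rwa [h4] at h3
  -- the main term
  set I0 : ℝ := ∫ u in (0 : ℝ)..H, Real.exp (-(T * u)) * (r u - l u) with hI0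
  have hcont1 : ContinuousOn (fun u : ℝ => Real.exp (-(T * u)) * (r u - l u)) (Set.Icc 0 H) :=
    (Continuous.continuousOn (by fun_prop)).mul (hor.sub hol)
  have hint1 : IntervalIntegrable (fun u : ℝ => Real.exp (-(T * u)) * (r u - l u)) volume 0 H :=
    hcont1.intervalIntegrable_of_Icc hH.le
  have hI0lo : Real.exp (-1) * m / (2 * T) ≤ I0 := by
    have h2 : ∫ u in (0 : ℝ)..(1 / T), Real.exp (-(T * u)) * (r u - l u) ≤ I0 := by
      apply intervalIntegral.integral_mono_interval le_rfl ha0.le (by linarith) _ hint1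
      refine (ae_restrict_iff' measurableSet_Ioc).2 (Filter.Eventually.of_forall ?_)
      intro u hu
      exact mul_nonneg (Real.exp_pos _).le (hlam0 u ⟨hu.1.le, hu.2⟩)
    have h3 : ∫ u in (0 : ℝ)..(1 / T), Real.exp (-1) * m * T * u ≤
        ∫ u in (0 : ℝ)..(1 / T), Real.exp (-(T * u)) * (r u - l u) := by
      apply intervalIntegral.integral_mono_on ha0.le
      · exact Continuous.intervalIntegrable (by fun_prop) _ _
      · exact (hcont1.mono (Set.Icc_subset_Icc le_rfl (by linarith))).intervalIntegrable_of_Icc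
          ha0.le
      · intro u hu
        have h4 := hlo u hu
        have h5 : Real.exp (-1) ≤ Real.exp (-(T * u)) := by
          apply Real.exp_le_exp.2
          have h6 := hu.2
          rw [le_div_iff₀ hT] at h6
          linarith
        have h7 : 0 ≤ T * u * m := mul_nonneg (mul_nonneg hT.le hu.1) hm0.le
        calc Real.exp (-1) * m * T * u = Real.exp (-1) * (T * u * m) := by ring
          _ ≤ Real.exp (-(T * u)) * (r u - l u) :=
            mul_le_mul h5 h4 h7 (Real.exp_pos _).le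
    have h4 : ∫ u in (0 : ℝ)..(1 / T), Real.exp (-1) * m * T * u = Real.exp (-1) * m / (2 * T) := by
      rw [intervalIntegral.integral_const_mul, integral_id]
      field_simp
      ring
    rw [h4] at h3
    exact h3.trans h2
  -- the primitive
  have hGc : Continuous (fun y : ℝ => ∫ x in (0 : ℝ)..y, Complex.exp (-(Complex.I * s T * x))) := by
    apply intervalIntegral.continuous_primitive
    intro a b
    exact Continuous.intervalIntegrable (by fun_prop) _ _
  have hinn : ∀ u : ℝ, (∫ x in (l u)..(r u), Complex.exp (-(Complex.I * s T * x))) =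
      (∫ x in (0 : ℝ)..(r u), Complex.exp (-(Complex.I * s T * x))) -
      ∫ x in (0 : ℝ)..(l u), Complex.exp (-(Complex.I * s T * x)) := by
    intro u
    rw [intervalIntegral.integral_interval_sub_left]
    · exact Continuous.intervalIntegrable (by fun_prop) _ _
    · exact Continuous.intervalIntegrable (by fun_prop) _ _
  have hcont2 : ContinuousOn (fun u : ℝ => Complex.exp (-((T : ℂ) * u)) *
      ∫ x in (l u)..(r u), Complex.exp (-(Complex.I * s T * x))) (Set.Icc 0 H) := by
    have : (fun u : ℝ => Complex.exp (-((T : ℂ) * u)) *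
      ∫ x in (l u)..(r u), Complex.exp (-(Complex.I * s T * x))) =
      fun u : ℝ => Complex.exp (-((T : ℂ) * u)) *
      ((∫ x in (0 : ℝ)..(r u), Complex.exp (-(Complex.I * s T * x))) -
      ∫ x in (0 : ℝ)..(l u), Complex.exp (-(Complex.I * s T * x))) := by
      funext u
      rw [hinn]
    rw [this]
    apply ContinuousOn.mul (Continuous.continuousOn (by fun_prop))
    exact (hGc.comp_continuousOn hor).sub (hGc.comp_continuousOn hol)
  have hint2 := hcont2.intervalIntegrable_of_Icc hH.le (μ := volume)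
  have hdiff : Lap l r H (s T) T - (I0 : ℂ) = ∫ u in (0 : ℝ)..H,
      (Complex.exp (-((T : ℂ) * u)) * (∫ x in (l u)..(r u), Complex.exp (-(Complex.I * s T * x))) -
        ((Real.exp (-(T * u)) * (r u - l u) : ℝ) : ℂ)) := by
    have hint3 : IntervalIntegrable
        (fun u : ℝ => ((Real.exp (-(T * u)) * (r u - l u) : ℝ) : ℂ)) volume 0 H :=
      (Complex.continuous_ofReal.comp_continuousOn hcont1).intervalIntegrable_of_Icc hH.le
    rw [intervalIntegral.integral_sub hint2 hint3, intervalIntegral.integral_ofReal]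
    rfl
  have hpt : ∀ u ∈ Set.Icc 0 H,
      ‖Complex.exp (-((T : ℂ) * u)) * (∫ x in (l u)..(r u), Complex.exp (-(Complex.I * s T * x))) -
        ((Real.exp (-(T * u)) * (r u - l u) : ℝ) : ℂ)‖ ≤
      1 / 200 * T * m * (Real.exp (-(T * u / 2)) * (u * (2 + T * u))) := by
    intro u hu
    have e1 : Complex.exp (-((T : ℂ) * u)) *
        (∫ x in (l u)..(r u), Complex.exp (-(Complex.I * s T * x))) -
        ((Real.exp (-(T * u)) * (r u - l u) : ℝ) : ℂ) =
        ((Real.exp (-(T * u)) : ℝ) : ℂ) *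
        ((∫ x in (l u)..(r u), Complex.exp (-(Complex.I * s T * x))) - ((r u - l u : ℝ) : ℂ)) := by
      push_cast
      ring
    rw [e1, norm_mul, Complex.norm_real, Real.norm_of_nonneg (Real.exp_pos _).le]
    have h2 := pf3_inner (s T) (l u) (r u) (C * u) (hle u hu) (hl u hu) (hr u hu)
    have hu0 := hu.1
    have h3 : ‖s T‖ * (C * u) ≤ 1 / 200 * T * u := by
      have := mul_le_mul_of_nonneg_right hsC hu0
      linarith
    have h3' : 0 ≤ ‖s T‖ * (C * u) := by positivity
    have h4 : Real.exp (‖s T‖ * (C * u)) ≤ Real.exp (T * u / 2) := by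
      apply Real.exp_le_exp.2
      have : 0 ≤ T * u := mul_nonneg hT.le hu0
      linarith
    have h5 : ‖s T‖ * (C * u) * Real.exp (‖s T‖ * (C * u)) * (r u - l u) ≤
        1 / 200 * T * u * Real.exp (T * u / 2) * (m * (2 + T * u)) := by
      apply mul_le_mul _ (hup u hu) (hlam0 u hu) (by positivity)
      exact mul_le_mul h3 h4 (Real.exp_pos _).le (by positivity)
    have h6 : Real.exp (-(T * u)) * Real.exp (T * u / 2) = Real.exp (-(T * u / 2)) := by
      rw [← Real.exp_add]; congr 1; ring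
    calc Real.exp (-(T * u)) * _ ≤ Real.exp (-(T * u)) *
          (1 / 200 * T * u * Real.exp (T * u / 2) * (m * (2 + T * u))) :=
          mul_le_mul_of_nonneg_left (h2.trans h5) (Real.exp_pos _).le
      _ = 1 / 200 * T * m * ((Real.exp (-(T * u)) * Real.exp (T * u / 2)) * (u * (2 + T * u))) := by
          ring
      _ = _ := by rw [h6]
  have hnorm : ‖Lap l r H (s T) T - (I0 : ℂ)‖ ≤ 1 / 200 * T * m * (24 / T ^ 2) := by
    rw [hdiff]
    refine (intervalIntegral.norm_integral_le_of_norm_le hH.le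
      (g := fun u : ℝ => 1 / 200 * T * m * (Real.exp (-(T * u / 2)) * (u * (2 + T * u))))
      (Filter.Eventually.of_forall fun u hu => hpt u ⟨hu.1.le, hu.2⟩)
      (Continuous.intervalIntegrable (by fun_prop) _ _)).trans ?_
    rw [intervalIntegral.integral_const_mul]
    exact mul_le_mul_of_nonneg_left (pf3_prim T H hT hH) (by positivity)
  intro hzero
  rw [hzero, zero_sub, norm_neg, Complex.norm_real, Real.norm_eq_abs] at hnorm
  have h7 : I0 ≤ 1 / 200 * T * m * (24 / T ^ 2) := (le_abs_self _).trans hnorm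
  have h8 : 1 / 200 * T * m * (24 / T ^ 2) = (24 / 200) * (m / T) := by
    field_simp
  have h9 : Real.exp (-1) * m / (2 * T) = (Real.exp (-1) / 2) * (m / T) := by
    field_simp
  have h10 : 0 < m / T := by positivity
  have h11 : (24 / 200 : ℝ) < Real.exp (-1) / 2 := by
    have := Real.exp_neg_one_gt_d9
    linarith
  have h12 := mul_lt_mul_of_pos_right h11 h10
  linarith

end Helper112.Pf
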