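import Mathlib
import Pool.Agent.Helper112.Pf.Defs3
import Pool.Agent.Helper112.Pf.VChordExists
import Pool.Agent.Helper112.Pf.VFtTop
import Pool.Agent.Helper112.Pf.VProfOfChord
import Pool.Agent.Helper112.Pf.VRlRoot
import Pool.Agent.Helper112.Pf.VRlRot
import Pool.Agent.Helper112.Pf.WFtTopc
import Pool.Agent.Helper112.Pf.WNpAt
import Pool.Agent.Helper112.Pf.WNpReal
import Pool.Agent.Helper112.Pf.WRotIm2
import Pool.Agent.Helper112.Pf.WSlopeDich
import Pool.Agent.Helper112.Pf.WTopBad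
import Pool.Agent.Helper112.Pf.WTopGood
import Pool.Agent.Helper112.Pf.WTopGood0

set_option autoImplicit false

namespace Helper112.Pf

open MeasureTheory







/-! TO PROVE -/

theorem corner_top_case_s (β : ℝ) (h1 : -1 < β) (w : ℝ → ℂ) (w0 : ℂ)
    (hw : Filter.Tendsto w Filter.atTop (nhds w0)) :
    Filter.Tendsto (fun T : ℝ => ‖((T ^ (-β) : ℝ) : ℂ) * w T‖ / T) Filter.atTop (nhds 0) := by
  have h2 := tendsto_rpow_neg_atTop (y := β + 1) (by linarith)
  have h3 := h2.mul hw.norm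
  rw [zero_mul] at h3
  refine h3.congr' ?_
  filter_upwards [Filter.eventually_gt_atTop 0] with T hT
  rw [norm_mul, Complex.norm_real, Real.norm_of_nonneg (Real.rpow_nonneg hT.le _)]
  have h4 : T ^ (-(β + 1)) = T ^ (-β) / T := by
    rw [neg_add, ← sub_eq_add_neg, Real.rpow_sub_one hT.ne']
  rw [h4]
  ring

theorem corner_top_case_inf (β : ℝ) (h1 : β < 0) (w : ℝ → ℂ) (w0 : ℂ) (hw0 : w0 ≠ 0)
    (hw : Filter.Tendsto w Filter.atTop (nhds w0)) :
    Filter.Tendsto (fun T : ℝ => ‖((T ^ (-β) : ℝ) : ℂ) * w T‖) Filter.atTop Filter.atTop := by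
  have h2 := tendsto_rpow_atTop (y := -β) (by linarith)
  have h3 := h2.atTop_mul_pos (norm_pos_iff.2 hw0) hw.norm
  refine h3.congr' ?_
  filter_upwards [Filter.eventually_gt_atTop 0] with T hT
  rw [norm_mul, Complex.norm_real, Real.norm_of_nonneg (Real.rpow_nonneg hT.le _)]

theorem corner_top_case (K : Set (Fin 2 → ℝ)) (hK : IsBody K) (c0 : ℝ) (hn : NCorner K c0)
    (hKt : ∀ x ∈ K, x 1 ≤ 0) (c : ℕ → ℕ → ℂ) (M μ D : ℕ) (β : ℝ) (hβ1 : -1 < β) (hβ2 : β < 0)
    (hP : Pivot c M μ D β) (hz : ∀ s t : ℂ, ev c M s t = 0 → FT K ![s, t] = 0) : False := by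
  obtain ⟨A, B, lo, hi, hch⟩ := chord_exists K hK
  obtain ⟨hAB, hlo, hhi, hloc, hhic, hle, hlt, hKd⟩ := id hch
  obtain ⟨hc0, h0K, hcone⟩ := hn
  have hmem : ∀ u ∈ Set.Icc A B, (![hi u, u] : Fin 2 → ℝ) ∈ K := by
    intro u hu
    rw [hKd]
    exact ⟨hu, hle u hu, le_refl (hi u)⟩
  have h0 : (0 : ℝ) ∈ Set.Icc A B ∧ lo 0 ≤ 0 ∧ 0 ≤ hi 0 := by
    have h1 := h0K
    rw [hKd] at h1
    exact h1
  have hB : B = 0 := by
    have h1 : B ≤ 0 := hKt _ (hmem B ⟨hAB.le, le_rfl⟩)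
    exact le_antisymm h1 h0.1.2
  have hhile : ∀ u ∈ Set.Icc A B, hi u ≤ -(c0 * |u|) := fun u hu => hcone _ (hmem u hu)
  have hhi0 : hi 0 = 0 := by
    have h1 := hhile 0 h0.1
    rw [abs_zero, mul_zero, neg_zero] at h1
    exact le_antisymm h1 h0.2.2
  obtain ⟨l, hl⟩ : ∃ l : ℝ → ℝ, l = fun u => lo (B - u) := ⟨_, rfl⟩
  obtain ⟨r, hr⟩ : ∃ r : ℝ → ℝ, r = fun u => hi (B - u) := ⟨_, rfl⟩
  obtain ⟨H, hH⟩ : ∃ H : ℝ, H = B - A := ⟨_, rfl⟩
  have hprof : Prof l r H := by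
    rw [hl, hr, hH]
    exact (prof_of_chord K A B lo hi hch).1
  have hH0 : 0 < H := hprof.1
  have hsubmem : ∀ u ∈ Set.Icc 0 H, B - u ∈ Set.Icc A B := by
    intro u hu
    rw [hH] at hu
    exact ⟨by linarith [hu.2], by linarith [hu.1]⟩
  have hrneg : ∀ u ∈ Set.Icc 0 H, r u ≤ 0 := by
    intro u hu
    have h1 := hhile (B - u) (hsubmem u hu)
    have h2 : 0 ≤ c0 * |B - u| := mul_nonneg hc0.le (abs_nonneg _)
    rw [hr]
    show hi (B - u) ≤ 0
    linarith
  have hlneg : ∀ u ∈ Set.Icc 0 H, l u ≤ 0 := fun u hu =>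
    (hprof.2.2.2.2.2.1 u hu).trans (hrneg u hu)
  have hr0 : r 0 = 0 := by
    rw [hr, hB]
    show hi (0 - 0) = 0
    rw [sub_zero, hhi0]
  have hrC : ∀ u ∈ Set.Icc 0 H, |r u| ≤ (-(r H) / H) * u := by
    intro u hu
    rw [abs_of_nonpos (hrneg u hu)]
    have hcv := hprof.2.2.1.2 (⟨le_rfl, hH0.le⟩ : (0 : ℝ) ∈ Set.Icc 0 H)
      (⟨hH0.le, le_rfl⟩ : H ∈ Set.Icc 0 H)
      (show (0 : ℝ) ≤ 1 - u / H by rw [sub_nonneg, div_le_one hH0]; exact hu.2)
      (show (0 : ℝ) ≤ u / H from div_nonneg hu.1 hH0.le) (by ring)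
    simp only [smul_eq_mul, mul_zero, zero_add, hr0] at hcv
    rw [div_mul_cancel₀ _ hH0.ne'] at hcv
    have h3 : (-(r H) / H) * u = -(u / H * r H) := by ring
    rw [h3]
    linarith
  -- vanishing
  have hLap : ∀ (s : ℂ) (T : ℝ), ev c M s (Complex.I * T) = 0 → Lap l r H s T = 0 := by
    intro s T h
    have h1 := hz _ _ h
    rw [FT_top K hK A B lo hi hch s T] at h1
    rw [hl, hr, hH]
    exact (mul_eq_zero.1 h1).resolve_left (Complex.exp_ne_zero _)
  have hLapC : ∀ (s z : ℂ), ev c M s (Complex.I * z) = 0 → LapC l r H s z = 0 := by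
    intro s z h
    have h1 := hz _ _ h
    rw [FT_topC K hK A B lo hi hch s z] at h1
    rw [hl, hr, hH]
    exact (mul_eq_zero.1 h1).resolve_left (Complex.exp_ne_zero _)
  obtain ⟨⟨w0, hw0, hroot⟩, _⟩ := Rl_root c M μ D β hP Complex.I Complex.I_ne_zero
  rcases slope_dich l H hH0 hprof.2.1 hprof.2.2.2.1 hlneg with ⟨C1, hC1⟩ | hsteep
  · obtain ⟨w, hw, hev⟩ := np_at c M μ D β hP Complex.I Complex.I_ne_zero w0 hroot
    have h1 := top_good0 l r H hprof (max C1 (-(r H) / H))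
      (fun u hu => (hC1 u hu).trans (mul_le_mul_of_nonneg_right (le_max_left _ _) hu.1))
      (fun u hu => (hrC u hu).trans (mul_le_mul_of_nonneg_right (le_max_right _ _) hu.1))
      (fun T => ((T ^ (-β) : ℝ) : ℂ) * w T) (corner_top_case_s β hβ1 w w0 hw)
    obtain ⟨T, hT1, hT2⟩ := (h1.and hev).exists
    exact hT1 (hLap _ T hT2)
  · rcases rot_im2 w0 hw0 β hβ1 hβ2 with ⟨k, hk⟩ | ⟨hβ, him⟩
    · obtain ⟨w2, hw2⟩ : ∃ w2 : ℂ, w2 =
        Complex.exp (-(Complex.I * Real.pi * β * ((2 * k : ℕ) : ℂ))) * w0 := ⟨_, rfl⟩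
      rw [← hw2] at hk
      have hroot2 : Rl c M μ D β Complex.I w2 = 0 := by
        have h1 := Rl_rot c M μ D β Complex.I w0 (2 * k) hroot
        rw [pow_mul, neg_one_sq, one_pow, mul_one] at h1
        rw [hw2]
        exact h1
      have hw20 : w2 ≠ 0 := by
        intro h
        rw [h, Complex.zero_im] at hk
        exact lt_irrefl _ hk
      have hn2 : 0 < ‖w2‖ := norm_pos_iff.2 hw20
      obtain ⟨w, hw, hev⟩ := np_at c M μ D β hP Complex.I Complex.I_ne_zero w2 hroot2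
      have hcpos : 0 < w2.im / (2 * ‖w2‖) := by positivity
      have him : ∀ᶠ T : ℝ in Filter.atTop, w2.im / (2 * ‖w2‖) * ‖((T ^ (-β) : ℝ) : ℂ) * w T‖ ≤
          (((T ^ (-β) : ℝ) : ℂ) * w T).im := by
        have h1 : Filter.Tendsto (fun T => (w T).im - w2.im / (2 * ‖w2‖) * ‖w T‖) Filter.atTop
            (nhds (w2.im - w2.im / (2 * ‖w2‖) * ‖w2‖)) :=
          ((Complex.continuous_im.tendsto _).comp hw).sub (hw.norm.const_mul _)
        have h2 : 0 < w2.im - w2.im / (2 * ‖w2‖) * ‖w2‖ := by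
          have h3 : w2.im / (2 * ‖w2‖) * ‖w2‖ = w2.im / 2 := by
            field_simp
          rw [h3]
          linarith
        filter_upwards [h1.eventually (lt_mem_nhds h2), Filter.eventually_gt_atTop 0] with T hT hT0
        rw [norm_mul, Complex.norm_real, Real.norm_of_nonneg (Real.rpow_nonneg hT0.le _),
          Complex.im_ofReal_mul]
        have h4 : 0 ≤ T ^ (-β) := Real.rpow_nonneg hT0.le _
        have h5 : w2.im / (2 * ‖w2‖) * ‖w T‖ ≤ (w T).im := by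
          have : 0 < (w T).im - w2.im / (2 * ‖w2‖) * ‖w T‖ := hT
          linarith
        calc w2.im / (2 * ‖w2‖) * (T ^ (-β) * ‖w T‖) =
            T ^ (-β) * (w2.im / (2 * ‖w2‖) * ‖w T‖) := by ring
          _ ≤ T ^ (-β) * (w T).im := mul_le_mul_of_nonneg_left h5 h4
      have h1 := top_good l r H hprof (-(r H) / H) hrC hsteep
        (fun T => ((T ^ (-β) : ℝ) : ℂ) * w T) (corner_top_case_s β hβ1 w w2 hw)
        (corner_top_case_inf β hβ2 w w2 hw20 hw) _ hcpos him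
      obtain ⟨T, hT1, hT2⟩ := (h1.and hev).exists
      exact hT1 (hLap _ T hT2)
    · -- real root
      have hw0r : w0 = ((w0.re : ℝ) : ℂ) := by
        apply Complex.ext
        · rw [Complex.ofReal_re]
        · rw [Complex.ofReal_im, him]
      have hre : w0.re ≠ 0 := by
        intro h
        rw [h, Complex.ofReal_zero] at hw0r
        exact hw0 hw0r
      have hxe : ∃ x : ℝ, 0 < x ∧ Rl c M μ D β Complex.I (x : ℂ) = 0 := by
        rcases lt_or_gt_of_ne hre with h | h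
        · refine ⟨-w0.re, by linarith, ?_⟩
          have h1 := Rl_rot c M μ D β Complex.I w0 2 hroot
          rw [neg_one_sq, mul_one] at h1
          have h2 : Complex.exp (-(Complex.I * Real.pi * β * ((2 : ℕ) : ℂ))) = -1 := by
            rw [hβ]
            have : (-(Complex.I * Real.pi * ((-1 / 2 : ℝ) : ℂ) * ((2 : ℕ) : ℂ))) =
                Real.pi * Complex.I := by
              push_cast
              ring
            rw [this, Complex.exp_pi_mul_I]
          rw [h2, hw0r] at h1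
          have h3 : ((-w0.re : ℝ) : ℂ) = -1 * ((w0.re : ℝ) : ℂ) := by push_cast; ring
          rw [h3]
          exact h1
        · refine ⟨w0.re, h, ?_⟩
          rw [← hw0r]
          exact hroot
      obtain ⟨x, hx, hxr⟩ := hxe
      obtain ⟨v, hv, hev⟩ := np_real c M μ D β hP hβ x hx hxr
      apply top_bad l r H hprof (-(r H) / H) hrC hlneg x hx v hv
      filter_upwards [hev] with T hT
      exact hLapC _ _ hT

end Helper112.Pf
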