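import Mathlib
import Pool.Agent.Helper112.Pf.Defs3
import Pool.Agent.Helper112.Pf.JFtLinear
import Pool.Agent.Helper112.Pf.VBodyLinear
import Pool.Agent.Helper112.Pf.WCornerTopCase

set_option autoImplicit false

namespace Helper112.Pf

open MeasureTheory







/-! TO PROVE -/

noncomputable def Mr406 : (Fin 2 → ℝ) ≃ₗ[ℝ] (Fin 2 → ℝ) :=
  LinearEquiv.ofInvolutive
    { toFun := fun x => ![x 0, -x 1]
      map_add' := by
        intro x y
        ext i
        fin_cases i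
        · simp
        · simp; ring
      map_smul' := by
        intro r x
        ext i
        fin_cases i
        · simp
        · simp } (by
      intro x
      ext i
      fin_cases i
      · simp
      · simp)

theorem Mr406_zero (x : Fin 2 → ℝ) : Mr406 x 0 = x 0 := rfl

theorem Mr406_one (x : Fin 2 → ℝ) : Mr406 x 1 = -x 1 := rfl

theorem corner_bot_case (K : Set (Fin 2 → ℝ)) (hK : IsBody K) (c0 : ℝ) (hn : NCorner K c0)
    (hKt : ∀ x ∈ K, 0 ≤ x 1) (c : ℕ → ℕ → ℂ) (M μ D : ℕ) (β : ℝ) (hβ1 : -1 < β) (hβ2 : β < 0)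
    (hP : Pivot c M μ D β) (hz : ∀ s t : ℂ, ev c M s t = 0 → FT K ![s, t] = 0) : False := by
  have hne : ∀ i j : ℕ, ((-1 : ℂ) ^ j * c i j ≠ 0) ↔ c i j ≠ 0 := by
    intro i j
    have h1 : ((-1 : ℂ) ^ j) ≠ 0 := pow_ne_zero _ (by norm_num)
    constructor
    · intro h h2
      exact h (by rw [h2, mul_zero])
    · intro h
      exact mul_ne_zero h1 h
  obtain ⟨hn0, hn1, hn2⟩ := hn
  refine corner_top_case (Mr406 '' K) (body_linear Mr406 K hK) c0 ⟨hn0, ?_, ?_⟩ ?_
    (fun i j => (-1 : ℂ) ^ j * c i j) M μ D β hβ1 hβ2 ?_ ?_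
  · exact ⟨0, hn1, map_zero _⟩
  · rintro x ⟨y, hy, rfl⟩
    rw [Mr406_zero, Mr406_one, abs_neg]
    exact hn2 y hy
  · rintro x ⟨y, hy, rfl⟩
    rw [Mr406_one]
    linarith [hKt y hy]
  · obtain ⟨h1, h2, h3, h4, h5, h6, i, j, h7, h8, h9, h10⟩ := hP
    refine ⟨h1, h2, (hne _ _).2 h3, ?_, ?_, ?_, i, j, h7, h8, (hne _ _).2 h9, h10⟩
    · intro i j hi hj hc
      exact h4 i j hi hj ((hne _ _).1 hc)
    · intro i j hi hi2 hj hc
      exact h5 i j hi hi2 hj ((hne _ _).1 hc)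
    · intro j hj hc
      exact h6 j hj ((hne _ _).1 hc)
  · intro s t hst
    have hev : ev c M s (-t) = 0 := by
      rw [← hst]
      unfold ev
      refine Finset.sum_congr rfl fun i _ => Finset.sum_congr rfl fun j _ => ?_
      rw [neg_pow t j]
      ring
    obtain ⟨d, hd, hd2⟩ := FT_linear Mr406 K hK.1 ![s, t] ![s, -t] (by
      intro x
      rw [Fin.sum_univ_two, Fin.sum_univ_two, Mr406_zero, Mr406_one]
      simp)
    rw [hd2, hz s (-t) hev, mul_zero]

end Helper112.Pf
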