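import Mathlib
import Pool.Agent.Helper112.Pf.Defs2

set_option autoImplicit false

namespace Helper112.Pf

open MeasureTheory

/-! TO PROVE -/

theorem rot_im (w0 : ℂ) (hw : w0 ≠ 0) (β : ℝ) (h1 : -1 < β) (h2 : β < 0) :
    ∃ k : ℕ, 0 < (Complex.exp (-(Complex.I * Real.pi * β * k)) * w0).im := by
  have hpi := Real.pi_pos
  set th : ℝ := Complex.arg w0 with hth
  set a : ℝ := -(Real.pi * β) with ha
  have ha0 : 0 < a := by
    have : 0 < Real.pi * (-β) := mul_pos hpi (by linarith)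
    rw [ha]; linarith
  have hapi : a < Real.pi := by
    have : Real.pi * (-β) < Real.pi * 1 := mul_lt_mul_of_pos_left (by linarith) hpi
    rw [ha]; linarith
  have hth1 : th ≤ Real.pi := Complex.arg_le_pi w0
  let y : ℝ := (2 * Real.pi - th) / a
  have hy0 : 0 ≤ y := div_nonneg (by linarith) ha0.le
  refine ⟨⌊y⌋₊ + 1, ?_⟩
  have hk1 : y < (⌊y⌋₊ : ℝ) + 1 := Nat.lt_floor_add_one y
  have hk2 : (⌊y⌋₊ : ℝ) ≤ y := Nat.floor_le hy0
  have hya : y * a = 2 * Real.pi - th := div_mul_cancel₀ _ ha0.ne'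
  have h3 : 2 * Real.pi < th + a * ((⌊y⌋₊ : ℝ) + 1) := by
    have := mul_lt_mul_of_pos_right hk1 ha0
    linarith
  have h4 : th + a * ((⌊y⌋₊ : ℝ) + 1) < 3 * Real.pi := by
    have := mul_le_mul_of_nonneg_right hk2 ha0.le
    linarith
  have hsin : 0 < Real.sin (th + a * ((⌊y⌋₊ : ℝ) + 1)) := by
    rw [← Real.sin_sub_two_pi]
    exact Real.sin_pos_of_pos_of_lt_pi (by linarith) (by linarith)
  have hw0 : w0 = (‖w0‖ : ℂ) * Complex.exp ((th : ℂ) * Complex.I) := (Complex.norm_mul_exp_arg_mul_I w0).symm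
  have hprod : Complex.exp (-(Complex.I * Real.pi * β * ((⌊y⌋₊ + 1 : ℕ) : ℂ))) * w0 =
      (‖w0‖ : ℂ) * Complex.exp (((th + a * ((⌊y⌋₊ : ℝ) + 1) : ℝ) : ℂ) * Complex.I) := by
    rw [hw0]
    have : ‖((‖w0‖ : ℂ) * Complex.exp ((th : ℂ) * Complex.I))‖ = ‖w0‖ := by rw [← hw0]
    rw [this]
    rw [mul_left_comm, ← Complex.exp_add]
    congr 2
    rw [ha]
    push_cast
    ring
  rw [hprod, Complex.im_ofReal_mul, Complex.exp_ofReal_mul_I_im]
  exact mul_pos (norm_pos_iff.mpr hw) hsin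

end Helper112.Pf
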