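import Mathlib
import Pool.Agent.Helper112.Pf.Defs3

set_option autoImplicit false

namespace Helper112.Pf

open MeasureTheory

/-! TO PROVE -/

theorem cl_right (A B : ℝ) (hA : A < 0) (hB : 0 < B) (hi : ℝ → ℝ)
    (hhi : ConcaveOn ℝ (Set.Icc A B) hi) (c : ℝ) (hc : 0 < c) (hi0 : hi 0 = 0)
    (hle : ∀ u ∈ Set.Icc A B, hi u ≤ -(c * |u|)) :
    ∃ pp : ℝ, pp ≤ -c ∧ ∀ δ : ℝ, 0 < δ → ∃ ε : ℝ, 0 < ε ∧ ε < B ∧
      ∀ ε' ≤ ε, ∀ u v, 0 ≤ u → u ≤ v → v ≤ ε' →
        (pp - δ) * (v - u) ≤ hi v - hi u ∧ hi v - hi u ≤ pp * (v - u) := by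
  set S : Set ℝ := {q | ∃ u, 0 < u ∧ u ≤ B ∧ q = hi u / u} with hS
  have hne : S.Nonempty := ⟨_, B, hB, le_rfl, rfl⟩
  have hub : ∀ q ∈ S, q ≤ -c := by
    rintro q ⟨u, hu, huB, rfl⟩
    have h1 := hle u ⟨by linarith, huB⟩
    rw [abs_of_pos hu] at h1
    rw [div_le_iff₀ hu]
    linarith
  have hbdd : BddAbove S := ⟨-c, hub⟩
  set pp : ℝ := sSup S with hpp
  have hppc : pp ≤ -c := csSup_le hne hub
  have hq : ∀ u, 0 < u → u ≤ B → hi u ≤ pp * u := by
    intro u hu huB
    have h1 : hi u / u ≤ pp := le_csSup hbdd ⟨u, hu, huB, rfl⟩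
    exact (div_le_iff₀ hu).mp h1
  refine ⟨pp, hppc, fun δ hδ => ?_⟩
  obtain ⟨q, ⟨u1, hu1, hu1B, rfl⟩, hq1⟩ := exists_lt_of_lt_csSup hne (show pp - δ / 2 < sSup S by linarith)
  have hq1' : (pp - δ / 2) * u1 ≤ hi u1 := by
    rw [lt_div_iff₀ hu1] at hq1
    exact hq1.le
  have hden : 0 < δ - pp := by linarith
  refine ⟨min (u1 / 2) (δ / 2 * u1 / (δ - pp)), lt_min (by linarith) (by positivity),
    lt_of_le_of_lt (min_le_left _ _) (by linarith), ?_⟩
  intro ε' hε' u v hu huv hv
  have hv1 : v ≤ u1 / 2 := hv.trans (hε'.trans (min_le_left _ _))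
  have hv2 : v ≤ δ / 2 * u1 / (δ - pp) := hv.trans (hε'.trans (min_le_right _ _))
  rw [le_div_iff₀ hden] at hv2
  rcases eq_or_lt_of_le huv with rfl | huv'
  · simp
  have hv0 : 0 < v := lt_of_le_of_lt hu huv'
  have hvB : v ≤ B := by linarith
  have huA : u ∈ Set.Icc A B := ⟨by linarith, by linarith⟩
  constructor
  · -- lower bound
    have h1 := hhi.slope_anti_adjacent huA (show u1 ∈ Set.Icc A B from ⟨by linarith, hu1B⟩) huv'
      (show v < u1 by linarith)
    have h2 : pp - δ ≤ (hi u1 - hi v) / (u1 - v) := by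
      rw [le_div_iff₀ (by linarith)]
      have h3 := hle v ⟨by linarith, hvB⟩
      have h4 : 0 ≤ c * |v| := by positivity
      nlinarith
    have h5 := h2.trans h1
    rw [le_div_iff₀ (by linarith)] at h5
    exact h5
  · rcases eq_or_lt_of_le hu with rfl | hu'
    · rw [hi0]
      have := hq v hv0 hvB
      linarith
    · have h1 := hhi.slope_anti_adjacent (show (0 : ℝ) ∈ Set.Icc A B from ⟨hA.le, hB.le⟩)
        (show v ∈ Set.Icc A B from ⟨by linarith, hvB⟩) hu' huv'
      have h2 : (hi u - hi 0) / (u - 0) ≤ pp := by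
        rw [div_le_iff₀ (by linarith), hi0]
        have := hq u hu' (by linarith)
        linarith
      have h5 := h1.trans h2
      rw [div_le_iff₀ (by linarith)] at h5
      exact h5

theorem cl_concave (g : ℝ → ℝ) (h : ∀ y, ∃ m : ℝ, ∀ x, g x ≤ g y + m * (x - y)) :
    ConcaveOn ℝ Set.univ g := by
  refine ⟨convex_univ, ?_⟩
  intro x _ z _ a b ha hb hab
  obtain ⟨m, hm⟩ := h (a • x + b • z)
  have h1 := mul_le_mul_of_nonneg_left (hm x) ha
  have h2 := mul_le_mul_of_nonneg_left (hm z) hb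
  simp only [smul_eq_mul] at *
  have e : a * (g (a * x + b * z) + m * (x - (a * x + b * z))) +
      b * (g (a * x + b * z) + m * (z - (a * x + b * z))) = g (a * x + b * z) := by
    have hb' : b = 1 - a := by linarith
    subst hb'
    ring
  linarith

theorem concave_local (A B : ℝ) (hA : A < 0) (hB : 0 < B) (hi : ℝ → ℝ)
    (hhi : ConcaveOn ℝ (Set.Icc A B) hi) (c : ℝ) (hc : 0 < c) (hi0 : hi 0 = 0)
    (hle : ∀ u ∈ Set.Icc A B, hi u ≤ -(c * |u|)) :
    ∃ pp pm : ℝ, pp ≤ -c ∧ c ≤ pm ∧ ∀ δ : ℝ, 0 < δ → δ < c / 2 → ∃ (ε : ℝ) (g : ℝ → ℝ), 0 < ε ∧ ε < B ∧ ε < -A ∧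
      ConcaveOn ℝ Set.univ g ∧ g 0 = 0 ∧
      (∀ u v, 0 ≤ u → u ≤ v → (pp - δ) * (v - u) ≤ g v - g u ∧ g v - g u ≤ pp * (v - u)) ∧
      (∀ u v, v ≤ 0 → u ≤ v → pm * (v - u) ≤ g v - g u ∧ g v - g u ≤ (pm + δ) * (v - u)) ∧
      (∀ u, g u ≤ -(c * |u|)) ∧ (∀ u, |u| ≤ ε → g u = hi u) := by
  obtain ⟨pp, hpp, hR⟩ := cl_right A B hA hB hi hhi c hc hi0 hle
  have hhi' : ConcaveOn ℝ (Set.Icc (-B) (-A)) (fun x => hi (-x)) := by
    refine ⟨convex_Icc _ _, ?_⟩
    intro x hx y hy a b ha hb hab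
    have h1 := hhi.2 (show -x ∈ Set.Icc A B from ⟨by linarith [hx.2], by linarith [hx.1]⟩)
      (show -y ∈ Set.Icc A B from ⟨by linarith [hy.2], by linarith [hy.1]⟩) ha hb hab
    have e : -(a • x + b • y) = a • (-x) + b • (-y) := by simp only [smul_eq_mul]; ring
    show a • hi (-x) + b • hi (-y) ≤ hi (-(a • x + b • y))
    rw [e]
    exact h1
  obtain ⟨qq, hqq, hL⟩ := cl_right (-B) (-A) (by linarith) (by linarith) (fun x => hi (-x)) hhi' c hc
    (by simpa using hi0) (by
      intro u hu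
      have := hle (-u) ⟨by linarith [hu.2], by linarith [hu.1]⟩
      rw [abs_neg] at this
      exact this)
  refine ⟨pp, -qq, hpp, by linarith, fun δ hδ _ => ?_⟩
  obtain ⟨ε1, hε1, hε1B, hR1⟩ := hR δ hδ
  obtain ⟨ε2, hε2, hε2A, hL1⟩ := hL δ hδ
  set ε : ℝ := min ε1 ε2 with hεdef
  have hε : 0 < ε := lt_min hε1 hε2
  have hεB : ε < B := lt_of_le_of_lt (min_le_left _ _) hε1B
  have hεA : ε < -A := lt_of_le_of_lt (min_le_right _ _) hε2A
  have hRR : ∀ u v, 0 ≤ u → u ≤ v → v ≤ ε →
      (pp - δ) * (v - u) ≤ hi v - hi u ∧ hi v - hi u ≤ pp * (v - u) :=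
    fun u v => hR1 ε (min_le_left _ _) u v
  have hLL : ∀ u v, v ≤ 0 → u ≤ v → -ε ≤ u →
      (-qq) * (v - u) ≤ hi v - hi u ∧ hi v - hi u ≤ (-qq + δ) * (v - u) := by
    intro u v hv huv hu
    have h1 := hL1 ε (min_le_right _ _) (-v) (-u) (by linarith) (by linarith) (by linarith)
    simp only [neg_neg] at h1
    constructor <;> nlinarith [h1.1, h1.2]
  set pm : ℝ := -qq with hpm
  have hpmc : c ≤ pm := by linarith
  -- all slopes on [-ε, ε]
  have hall : ∀ u v, -ε ≤ u → u ≤ v → v ≤ ε →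
      (pp - δ) * (v - u) ≤ hi v - hi u ∧ hi v - hi u ≤ (pm + δ) * (v - u) := by
    intro u v hu huv hv
    rcases le_or_gt 0 u with h0 | h0
    · have h1 := hRR u v h0 huv hv
      refine ⟨h1.1, h1.2.trans ?_⟩
      nlinarith
    · rcases le_or_gt v 0 with h0' | h0'
      · have h1 := hLL u v h0' huv hu
        refine ⟨le_trans ?_ h1.1, h1.2⟩
        nlinarith
      · have h1 := hRR 0 v le_rfl h0'.le hv
        have h2 := hLL u 0 le_rfl h0.le hu
        constructor
        · nlinarith [h1.1, h2.1]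
        · nlinarith [h1.2, h2.2]
  set g : ℝ → ℝ := fun u => if ε < u then hi ε + (pp - δ) * (u - ε) else
    if u < -ε then hi (-ε) + (pm + δ) * (u + ε) else hi u with hg
  have gR : ∀ u, ε < u → g u = hi ε + (pp - δ) * (u - ε) := by
    intro u hu
    simp only [hg, if_pos hu]
  have gL : ∀ u, u < -ε → g u = hi (-ε) + (pm + δ) * (u + ε) := by
    intro u hu
    simp only [hg, if_neg (show ¬ ε < u by linarith), if_pos hu]
  have gM : ∀ u, -ε ≤ u → u ≤ ε → g u = hi u := by
    intro u hu hu'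
    simp only [hg, if_neg (show ¬ ε < u by linarith), if_neg (show ¬ u < -ε by linarith)]
  refine ⟨ε, g, hε, hεB, hεA, ?_, ?_, ?_, ?_, ?_, ?_⟩
  · apply cl_concave
    intro y
    rcases le_or_gt ε y with hy | hy
    · refine ⟨pp - δ, fun x => ?_⟩
      have gy : g y = hi ε + (pp - δ) * (y - ε) := by
        rcases eq_or_lt_of_le hy with rfl | hy'
        · rw [gM ε (by linarith) le_rfl]; ring
        · exact gR y hy'
      rw [gy]
      rcases lt_or_ge ε x with hx | hx
      · rw [gR x hx]; linarith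
      · rcases lt_or_ge x (-ε) with hx' | hx'
        · rw [gL x hx']
          have h1 := (hall (-ε) ε le_rfl (by linarith) le_rfl).1
          nlinarith
        · rw [gM x hx' hx]
          have h1 := (hall x ε hx' hx le_rfl).1
          nlinarith
    · rcases le_or_gt y (-ε) with hy2 | hy2
      · refine ⟨pm + δ, fun x => ?_⟩
        have gy : g y = hi (-ε) + (pm + δ) * (y + ε) := by
          rcases eq_or_lt_of_le hy2 with rfl | hy'
          · rw [gM (-ε) le_rfl (by linarith)]; ring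
          · exact gL y hy'
        rw [gy]
        rcases lt_or_ge ε x with hx | hx
        · rw [gR x hx]
          have h1 := (hall (-ε) ε le_rfl (by linarith) le_rfl).2
          nlinarith
        · rcases lt_or_ge x (-ε) with hx' | hx'
          · rw [gL x hx']; linarith
          · rw [gM x hx' hx]
            have h1 := (hall (-ε) x le_rfl hx' hx).2
            nlinarith
      · -- interior point
        set T : Set ℝ := {q | ∃ z, y < z ∧ z ≤ ε ∧ q = (hi z - hi y) / (z - y)} with hT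
        have hTne : T.Nonempty := ⟨_, ε, hy, le_rfl, rfl⟩
        have hin : ∀ z, -ε ≤ z → z ≤ ε → z ∈ Set.Icc A B := fun z h1 h2 => ⟨by linarith, by linarith⟩
        have hTub : ∀ x, -ε ≤ x → x < y → ∀ q ∈ T, q ≤ (hi y - hi x) / (y - x) := by
          rintro x hx hxy q ⟨z, hz, hzε, rfl⟩
          exact hhi.slope_anti_adjacent (hin x hx (by linarith)) (hin z (by linarith) hzε) hxy hz
        have hTbdd : BddAbove T := ⟨_, hTub (-ε) le_rfl hy2⟩
        set m : ℝ := sSup T with hm
        have hm1 : ∀ z, y < z → z ≤ ε → hi z ≤ hi y + m * (z - y) := by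
          intro z hz hzε
          have h1 : (hi z - hi y) / (z - y) ≤ m := le_csSup hTbdd ⟨z, hz, hzε, rfl⟩
          rw [div_le_iff₀ (by linarith)] at h1
          linarith
        have hm2 : ∀ x, -ε ≤ x → x < y → hi x ≤ hi y + m * (x - y) := by
          intro x hx hxy
          have h1 : m ≤ (hi y - hi x) / (y - x) := csSup_le hTne (hTub x hx hxy)
          rw [le_div_iff₀ (by linarith)] at h1
          linarith
        have hmlo : pp - δ ≤ m := by
          have h1 : (hi ε - hi y) / (ε - y) ≤ m := le_csSup hTbdd ⟨ε, hy, le_rfl, rfl⟩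
          refine le_trans ?_ h1
          rw [le_div_iff₀ (by linarith)]
          exact (hall y ε hy2.le hy.le le_rfl).1
        have hmhi : m ≤ pm + δ := by
          refine (csSup_le hTne (hTub (-ε) le_rfl hy2)).trans ?_
          rw [div_le_iff₀ (by linarith)]
          exact (hall (-ε) y le_rfl hy2.le hy.le).2
        refine ⟨m, fun x => ?_⟩
        rw [gM y hy2.le hy.le]
        rcases lt_or_ge ε x with hx | hx
        · rw [gR x hx]
          have h1 := hm1 ε hy le_rfl
          nlinarith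
        · rcases lt_or_ge x (-ε) with hx' | hx'
          · rw [gL x hx']
            have h1 := hm2 (-ε) le_rfl hy2
            nlinarith
          · rw [gM x hx' hx]
            rcases lt_trichotomy x y with h | h | h
            · exact hm2 x hx' h
            · rw [h]; linarith
            · exact hm1 x h hx
  · rw [gM 0 (by linarith) hε.le, hi0]
  · intro u v hu huv
    rcases lt_or_ge ε v with hv | hv
    · rw [gR v hv]
      rcases lt_or_ge ε u with hu' | hu'
      · rw [gR u hu']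
        constructor <;> nlinarith
      · rw [gM u (by linarith) hu']
        have h1 := hRR u ε hu hu' le_rfl
        constructor <;> nlinarith [h1.1, h1.2]
    · rw [gM v (by linarith) hv, gM u (by linarith) (by linarith)]
      exact hRR u v hu huv hv
  · intro u v hv huv
    rcases lt_or_ge u (-ε) with hu | hu
    · rw [gL u hu]
      rcases lt_or_ge v (-ε) with hv' | hv'
      · rw [gL v hv']
        constructor <;> nlinarith
      · rw [gM v hv' (by linarith)]
        have h1 := hLL (-ε) v hv hv' le_rfl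
        constructor <;> nlinarith [h1.1, h1.2]
    · rw [gM u hu (by linarith), gM v (by linarith) (by linarith)]
      exact hLL u v hv huv hu
  · intro u
    rcases lt_or_ge ε u with hu | hu
    · rw [gR u hu, abs_of_pos (by linarith)]
      have h1 := hle ε ⟨by linarith, hεB.le⟩
      rw [abs_of_pos hε] at h1
      nlinarith
    · rcases lt_or_ge u (-ε) with hu' | hu'
      · rw [gL u hu', abs_of_neg (by linarith)]
        have h1 := hle (-ε) ⟨by linarith, by linarith⟩
        rw [abs_neg, abs_of_pos hε] at h1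
        nlinarith
      · rw [gM u hu' hu]
        exact hle u ⟨by linarith, by linarith⟩
  · intro u hu
    have h1 := abs_le.mp hu
    exact gM u h1.1 h1.2


end Helper112.Pf
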