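import Mathlib
import Pool.Agent.Helper112.Pf.Defs3

set_option autoImplicit false

namespace Helper112.Pf

open MeasureTheory

/-! TO PROVE -/

lemma second_diff_norm (t u : ℝ) : ‖Complex.exp (-(Complex.I * t * u))‖ = 1 := by
  have : -(Complex.I * t * u) = ((-(t * u) : ℝ) : ℂ) * Complex.I := by push_cast; ring
  rw [this, Complex.norm_exp_ofReal_mul_I]

lemma second_diff_int (g : ℝ → ℂ) (hg : Integrable g) (t : ℝ) :
    Integrable (fun u : ℝ => Complex.exp (-(Complex.I * t * u)) * g u) := by
  refine hg.bdd_mul (c := 1) ?_ ?_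
  · exact (by fun_prop : Continuous fun u : ℝ =>
      Complex.exp (-(Complex.I * t * u))).aestronglyMeasurable
  · exact Filter.Eventually.of_forall fun u => (second_diff_norm t u).le

lemma second_diff_shift (f : ℝ → ℂ) (t c : ℝ) :
    ∫ u : ℝ, Complex.exp (-(Complex.I * t * u)) * f (u + c) =
      Complex.exp (Complex.I * t * c) * ∫ u : ℝ, Complex.exp (-(Complex.I * t * u)) * f u := by
  have h := integral_add_right_eq_self (μ := (volume : Measure ℝ))
    (fun u : ℝ => Complex.exp (Complex.I * t * c) *
      (Complex.exp (-(Complex.I * t * u)) * f u)) c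
  rw [← integral_const_mul, ← h]
  apply integral_congr_ae
  filter_upwards with u
  rw [← mul_assoc, ← Complex.exp_add]
  congr 2
  push_cast
  ring

theorem second_diff (f : ℝ → ℂ) (hf : Integrable f) (t : ℝ) (ht : t ≠ 0) :
    4 * ‖∫ u : ℝ, Complex.exp (-(Complex.I * t * u)) * f u‖ ≤
      ∫ u : ℝ, ‖f (u + Real.pi / |t|) - 2 * f u + f (u - Real.pi / |t|)‖ := by
  set h : ℝ := Real.pi / |t| with hh
  have e1 : Complex.exp (Complex.I * t * h) = -1 := by
    rcases lt_or_gt_of_ne ht with h0 | h0
    · have : Complex.I * t * h = -(Real.pi * Complex.I) := by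
        rw [hh, abs_of_neg h0]
        have : (t : ℂ) ≠ 0 := by exact_mod_cast ht
        push_cast
        field_simp
      rw [this, Complex.exp_neg, Complex.exp_pi_mul_I]
      norm_num
    · have : Complex.I * t * h = Real.pi * Complex.I := by
        rw [hh, abs_of_pos h0]
        have : (t : ℂ) ≠ 0 := by exact_mod_cast ht
        push_cast
        field_simp
      rw [this, Complex.exp_pi_mul_I]
  have e2 : Complex.exp (Complex.I * t * ((-h : ℝ) : ℂ)) = -1 := by
    have : Complex.I * t * ((-h : ℝ) : ℂ) = -(Complex.I * t * h) := by push_cast; ring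
    rw [this, Complex.exp_neg, e1]
    norm_num
  have i1 := second_diff_int (fun u => f (u + h)) (hf.comp_add_right h) t
  have i2 := second_diff_int f hf t
  have i3 := second_diff_int (fun u => f (u - h)) (hf.comp_sub_right h) t
  have s1 := second_diff_shift f t h
  have s2 := second_diff_shift f t (-h)
  rw [e1] at s1
  rw [e2] at s2
  simp only [← sub_eq_add_neg] at s2
  have key : ∫ u : ℝ, Complex.exp (-(Complex.I * t * u)) *
      (f (u + h) - 2 * f u + f (u - h)) =
      -4 * ∫ u : ℝ, Complex.exp (-(Complex.I * t * u)) * f u := by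
    have : (fun u : ℝ => Complex.exp (-(Complex.I * t * u)) *
      (f (u + h) - 2 * f u + f (u - h))) = fun u : ℝ =>
      (Complex.exp (-(Complex.I * t * u)) * f (u + h) -
        2 * (Complex.exp (-(Complex.I * t * u)) * f u)) +
        Complex.exp (-(Complex.I * t * u)) * f (u - h) := by
      funext u; ring
    have i4 : Integrable (fun u : ℝ => Complex.exp (-(Complex.I * t * u)) * f (u + h) -
        2 * (Complex.exp (-(Complex.I * t * u)) * f u)) := i1.sub (i2.const_mul 2)
    rw [this, integral_add i4 i3, integral_sub i1 (i2.const_mul 2),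
      integral_const_mul, s1, s2]
    ring
  have n1 : ‖∫ u : ℝ, Complex.exp (-(Complex.I * t * u)) *
      (f (u + h) - 2 * f u + f (u - h))‖ ≤
      ∫ u : ℝ, ‖f (u + h) - 2 * f u + f (u - h)‖ := by
    refine (norm_integral_le_integral_norm _).trans (le_of_eq ?_)
    apply integral_congr_ae
    filter_upwards with u
    rw [norm_mul, second_diff_norm, one_mul]
  rw [key, norm_mul] at n1
  simpa using n1

end Helper112.Pf
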