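import Mathlib
import Pool.Agent.Helper112.Pf.Defs3
import Pool.Agent.Helper112.Pf.WSecondDiff

set_option autoImplicit false

namespace Helper112.Pf

open MeasureTheory



/-! TO PROVE -/

theorem kc_exp_sub (a b : ℂ) (m : ℝ) (ha : a.re ≤ m) (hb : b.re ≤ m) :
    ‖Complex.exp a - Complex.exp b‖ ≤ Real.exp m * ‖a - b‖ := by
  refine Convex.norm_image_sub_le_of_norm_deriv_le (𝕜 := ℂ) (f := Complex.exp)
    (s := {z : ℂ | z.re ≤ m}) (fun z _ => Complex.differentiable_exp z) ?_
    (convex_halfSpace_re_le m) hb ha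
  intro z hz
  rw [Complex.deriv_exp, Complex.norm_exp]
  exact Real.exp_le_exp.2 hz

theorem kc_phi_sub (a b : ℂ) (r : ℝ) (ha : ‖a‖ ≤ r) (hb : ‖b‖ ≤ r) :
    ‖(Complex.exp a - a) - (Complex.exp b - b)‖ ≤ r * Real.exp r * ‖a - b‖ := by
  refine Convex.norm_image_sub_le_of_norm_deriv_le (𝕜 := ℂ) (f := fun z => Complex.exp z - z)
    (s := Metric.closedBall 0 r) ?_ ?_ (convex_closedBall _ _) ?_ ?_
  · intro z _
    exact (Complex.differentiable_exp z).sub differentiableAt_id
  · intro z hz
    have hz' : ‖z‖ ≤ r := by simpa using hz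
    have hr : 0 ≤ r := (norm_nonneg z).trans hz'
    have h0 : deriv (fun z => Complex.exp z - z) z = Complex.exp z - 1 :=
      ((Complex.hasDerivAt_exp z).sub (hasDerivAt_id z)).deriv
    rw [h0]
    have h1 := kc_exp_sub z 0 r ((Complex.re_le_norm z).trans hz') (by simpa using hr)
    rw [Complex.exp_zero, sub_zero] at h1
    calc _ ≤ Real.exp r * ‖z‖ := h1
      _ ≤ Real.exp r * r := mul_le_mul_of_nonneg_left hz' (Real.exp_pos r).le
      _ = _ := mul_comm _ _
  · simpa using hb
  · simpa using ha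

theorem kc_point0 (a0 a1 a2 c0 c1 c2 : ℂ) (m r : ℝ) (ha : a0.re ≤ -m) (hc : c0.re ≤ -m)
    (hX : ‖a1 - a0‖ ≤ r) (hY : ‖a2 - a0‖ ≤ r) (hXc : ‖c1 - c0‖ ≤ r) (hYc : ‖c2 - c0‖ ≤ r) :
    ‖(Complex.exp a1 - Complex.exp c1) - 2 * (Complex.exp a0 - Complex.exp c0) +
      (Complex.exp a2 - Complex.exp c2)‖ ≤
      Real.exp (-m) * ‖a0 - c0‖ * (2 * (r * Real.exp r * r) + ‖c1 - 2 * c0 + c2‖) +
      Real.exp (-m) * (‖(a1 - c1) - 2 * (a0 - c0) + (a2 - c2)‖ +
        r * Real.exp r * (‖(a1 - a0) - (c1 - c0)‖ + ‖(a2 - a0) - (c2 - c0)‖)) := by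
  have hr : 0 ≤ r := (norm_nonneg _).trans hX
  have e1 : Complex.exp a1 = Complex.exp a0 * Complex.exp (a1 - a0) := by
    rw [← Complex.exp_add]; congr 1; ring
  have e2 : Complex.exp a2 = Complex.exp a0 * Complex.exp (a2 - a0) := by
    rw [← Complex.exp_add]; congr 1; ring
  have e3 : Complex.exp c1 = Complex.exp c0 * Complex.exp (c1 - c0) := by
    rw [← Complex.exp_add]; congr 1; ring
  have e4 : Complex.exp c2 = Complex.exp c0 * Complex.exp (c2 - c0) := by
    rw [← Complex.exp_add]; congr 1; ring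
  set X := a1 - a0 with hXd
  set Y := a2 - a0 with hYd
  set Xc := c1 - c0 with hXcd
  set Yc := c2 - c0 with hYcd
  have hdec : (Complex.exp a1 - Complex.exp c1) - 2 * (Complex.exp a0 - Complex.exp c0) +
      (Complex.exp a2 - Complex.exp c2) =
      (Complex.exp a0 - Complex.exp c0) *
        (((Complex.exp Xc - Xc) - (Complex.exp 0 - 0)) +
          ((Complex.exp Yc - Yc) - (Complex.exp 0 - 0)) + (c1 - 2 * c0 + c2)) +
      Complex.exp a0 * (((a1 - c1) - 2 * (a0 - c0) + (a2 - c2)) +
        (((Complex.exp X - X) - (Complex.exp Xc - Xc)) +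
          ((Complex.exp Y - Y) - (Complex.exp Yc - Yc)))) := by
    rw [e1, e2, e3, e4, Complex.exp_zero, hXd, hYd, hXcd, hYcd]
    ring
  rw [hdec]
  have n0 : ‖Complex.exp a0 - Complex.exp c0‖ ≤ Real.exp (-m) * ‖a0 - c0‖ :=
    kc_exp_sub _ _ _ ha hc
  have n0' : ‖Complex.exp a0‖ ≤ Real.exp (-m) := by
    rw [Complex.norm_exp]; exact Real.exp_le_exp.2 ha
  have n1 := kc_phi_sub Xc 0 r hXc (by simpa using hr)
  have n2 := kc_phi_sub Yc 0 r hYc (by simpa using hr)
  have n3 := kc_phi_sub X Xc r hX hXc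
  have n4 := kc_phi_sub Y Yc r hY hYc
  have hrr : 0 ≤ r * Real.exp r := by positivity
  rw [sub_zero (Xc)] at n1
  rw [sub_zero (Yc)] at n2
  have n1' : ‖(Complex.exp Xc - Xc) - (Complex.exp 0 - 0)‖ ≤ r * Real.exp r * r :=
    n1.trans (mul_le_mul_of_nonneg_left hXc hrr)
  have n2' : ‖(Complex.exp Yc - Yc) - (Complex.exp 0 - 0)‖ ≤ r * Real.exp r * r :=
    n2.trans (mul_le_mul_of_nonneg_left hYc hrr)
  refine (norm_add_le _ _).trans (add_le_add ?_ ?_)
  · rw [norm_mul]
    refine mul_le_mul n0 ?_ (norm_nonneg _) (by positivity)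
    refine (norm_add_le _ _).trans (add_le_add ?_ le_rfl)
    refine (norm_add_le _ _).trans ?_
    linarith
  · rw [norm_mul]
    refine mul_le_mul n0' ?_ (norm_nonneg _) (Real.exp_pos _).le
    refine (norm_add_le _ _).trans (add_le_add le_rfl ?_)
    refine (norm_add_le _ _).trans ?_
    linarith

/-- integral of the second difference of a function with small slopes, concave -/
theorem kc_int1 (e : ℝ → ℝ) (δ h R : ℝ) (hcont : Continuous e) (hh : 0 < h) (hR : h ≤ R)
    (hE : ∀ u v, 0 ≤ u → u ≤ v → -δ * (v - u) ≤ e v - e u ∧ e v - e u ≤ 0)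
    (hconc : ∀ u, h ≤ u → e (u + h) - 2 * e u + e (u - h) ≤ 0) :
    ∫ u in h..R, |e (u + h) - 2 * e u + e (u - h)| ≤ δ * h ^ 2 := by
  set G : ℝ → ℝ := fun u => e (u + h) - e u with hG
  have hGc : Continuous G := (hcont.comp (continuous_id.add continuous_const)).sub hcont
  have h1 : ∫ u in h..R, |e (u + h) - 2 * e u + e (u - h)| = ∫ u in h..R, (G (u - h) - G u) := by
    apply intervalIntegral.integral_congr
    intro u hu
    rw [Set.uIcc_of_le hR] at hu
    simp only [hG]
    rw [abs_of_nonpos (hconc u hu.1)]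
    ring_nf
  have hGc2 : Continuous fun u => G (u - h) := hGc.comp (continuous_id.sub continuous_const)
  rw [h1, intervalIntegral.integral_sub (hGc2.intervalIntegrable _ _)
    (hGc.intervalIntegrable _ _),
    intervalIntegral.integral_comp_sub_right (fun u => G u) h,
    intervalIntegral.integral_interval_sub_interval_comm (hGc.intervalIntegrable _ _)
    (hGc.intervalIntegrable _ _) (hGc.intervalIntegrable _ _), sub_self]
  have h2 : ∫ u in (0:ℝ)..h, G u ≤ 0 := by
    have : ∫ u in (0:ℝ)..h, G u ≤ ∫ u in (0:ℝ)..h, (0:ℝ) := by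
      apply intervalIntegral.integral_mono_on hh.le (hGc.intervalIntegrable _ _)
        (continuous_const.intervalIntegrable _ _)
      intro u hu
      exact (hE u (u + h) hu.1 (by linarith)).2
    simpa using this
  have h3 : -(δ * h) * h ≤ ∫ u in (R - h)..R, G u := by
    have : ∫ u in (R - h)..R, (-(δ * h)) ≤ ∫ u in (R - h)..R, G u := by
      apply intervalIntegral.integral_mono_on (by linarith) (continuous_const.intervalIntegrable _ _)
        (hGc.intervalIntegrable _ _)
      intro u hu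
      have := (hE u (u + h) (by linarith [hu.1]) (by linarith)).1
      simp only [hG]
      linarith
    rw [intervalIntegral.integral_const] at this
    have e : (R - (R - h)) • (-(δ * h)) = -(δ * h) * h := by
      rw [smul_eq_mul]; ring
    rw [e] at this
    exact this
  nlinarith

theorem kc_expint (a : ℝ) (ha : 0 < a) : Integrable (fun u : ℝ => Real.exp (-(a * |u|))) ∧
    ∫ u : ℝ, Real.exp (-(a * |u|)) = 2 / a := by
  constructor
  · rw [← integrableOn_univ, ← Set.Iic_union_Ioi (a := (0:ℝ))]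
    refine IntegrableOn.union ?_ ?_
    · refine (integrableOn_exp_mul_Iic ha 0).congr_fun ?_ measurableSet_Iic
      intro u hu
      have hu' : u ≤ 0 := hu
      simp only [abs_of_nonpos hu']
      congr 1; ring
    · refine (integrableOn_exp_mul_Ioi (a := -a) (by linarith) 0).congr_fun ?_ measurableSet_Ioi
      intro u hu
      have hu' : 0 < u := hu
      simp only [abs_of_pos hu']
      congr 1; ring
  · rw [integral_comp_abs (f := fun x => Real.exp (-(a * x)))]
    have h1 := integral_exp_mul_Ioi (a := -a) (by linarith) 0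
    have h2 : ∫ x in Set.Ioi (0:ℝ), Real.exp (-(a * x)) = 1 / a := by
      have e : ∀ x : ℝ, -(a * x) = -a * x := fun x => by ring
      simp only [e]
      rw [h1, mul_zero, Real.exp_zero]
      field_simp
    rw [h2]; ring

theorem kc_int3 (e : ℝ → ℝ) (δ h R : ℝ) (hcont : Continuous e) (hh : 0 < h) (hR : h ≤ R)
    (hE : ∀ u v, 0 ≤ u → u ≤ v → -δ * (v - u) ≤ e v - e u ∧ e v - e u ≤ 0)
    (hE2 : ∀ u v, u ≤ v → v ≤ 0 → 0 ≤ e v - e u ∧ e v - e u ≤ δ * (v - u))
    (hLip : ∀ u v, |e v - e u| ≤ δ * |v - u|)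
    (hconc : ∀ u, h ≤ u → e (u + h) - 2 * e u + e (u - h) ≤ 0)
    (hconc2 : ∀ u, u ≤ -h → e (u + h) - 2 * e u + e (u - h) ≤ 0) :
    ∫ u in (-R)..R, |e (u + h) - 2 * e u + e (u - h)| ≤ 6 * δ * h ^ 2 := by
  have hDc : Continuous fun u => |e (u + h) - 2 * e u + e (u - h)| := by
    have h1 : Continuous fun u => e (u + h) := hcont.comp (continuous_id.add continuous_const)
    have h2 : Continuous fun u => e (u - h) := hcont.comp (continuous_id.sub continuous_const)
    exact ((h1.sub (continuous_const.mul hcont)).add h2).abs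
  have hI : ∀ a b : ℝ, IntervalIntegrable (fun u => |e (u + h) - 2 * e u + e (u - h)|) volume a b :=
    fun a b => hDc.intervalIntegrable a b
  rw [← intervalIntegral.integral_add_adjacent_intervals (hI (-R) h) (hI h R),
    ← intervalIntegral.integral_add_adjacent_intervals (hI (-R) (-h)) (hI (-h) h)]
  have i1 := kc_int1 e δ h R hcont hh hR hE hconc
  have i2 : ∫ u in (-R)..(-h), |e (u + h) - 2 * e u + e (u - h)| ≤ δ * h ^ 2 := by
    rw [← intervalIntegral.integral_comp_neg (fun u => |e (u + h) - 2 * e u + e (u - h)|)]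
    have i3 := kc_int1 (fun u => e (-u)) δ h R (hcont.comp continuous_neg) hh hR ?_ ?_
    · refine le_trans (le_of_eq ?_) i3
      apply intervalIntegral.integral_congr
      intro u _
      have q1 : -(u + h) = -u - h := by ring
      have q2 : -(u - h) = -u + h := by ring
      simp only [q1, q2]
      congr 1; ring
    · intro u v hu huv
      have := hE2 (-v) (-u) (by linarith) (by linarith)
      constructor <;> linarith [this.1, this.2]
    · intro u hu
      have := hconc2 (-u) (by linarith)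
      have q1 : -(u + h) = -u - h := by ring
      have q2 : -(u - h) = -u + h := by ring
      simp only [q1, q2]
      linarith
  have i3 : ∫ u in (-h)..h, |e (u + h) - 2 * e u + e (u - h)| ≤ 4 * δ * h ^ 2 := by
    have : ∫ u in (-h)..h, |e (u + h) - 2 * e u + e (u - h)| ≤ ∫ u in (-h)..h, (2 * δ * h) := by
      apply intervalIntegral.integral_mono_on (by linarith) (hI _ _)
        (continuous_const.intervalIntegrable _ _)
      intro u _
      have l1 := hLip u (u + h)
      have l2 := hLip u (u - h)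
      rw [show u + h - u = h by ring, abs_of_pos hh] at l1
      rw [show u - h - u = -h by ring, abs_neg, abs_of_pos hh] at l2
      have e1 : e (u + h) - 2 * e u + e (u - h) = (e (u + h) - e u) + (e (u - h) - e u) := by ring
      rw [e1]
      exact (abs_add_le _ _).trans (by linarith)
    refine this.trans (le_of_eq ?_)
    rw [intervalIntegral.integral_const, smul_eq_mul]
    ring
  linarith

theorem kc_Bl_pos (pm pp u : ℝ) (hu : 0 ≤ u) : Bl pm pp u = pp * u := by
  unfold Bl; rw [if_pos hu]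

theorem kc_Bl_neg (pm pp u : ℝ) (hu : u ≤ 0) : Bl pm pp u = pm * u := by
  unfold Bl
  split_ifs with h
  · have : u = 0 := le_antisymm hu h
    rw [this]; ring
  · rfl

theorem kc_Bl_lip (pm pp Q : ℝ) (hpp : |pp| ≤ Q) (hpm : |pm| ≤ Q) (u v : ℝ) :
    |Bl pm pp v - Bl pm pp u| ≤ Q * |v - u| := by
  have hQ : 0 ≤ Q := (abs_nonneg _).trans hpp
  have mix : ∀ u v : ℝ, u ≤ 0 → 0 ≤ v → |pp * v - pm * u| ≤ Q * |v - u| := by
    intro u v hu hv
    have h1 : |pp * v| ≤ Q * v := by
      rw [abs_mul, abs_of_nonneg hv]; exact mul_le_mul_of_nonneg_right hpp hv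
    have h2 : |pm * u| ≤ Q * (-u) := by
      rw [abs_mul, abs_of_nonpos hu]; exact mul_le_mul_of_nonneg_right hpm (by linarith)
    rw [abs_of_nonneg (by linarith : 0 ≤ v - u)]
    exact (abs_sub _ _).trans (by linarith)
  rcases le_total 0 u with hu | hu <;> rcases le_total 0 v with hv | hv
  · rw [kc_Bl_pos _ _ _ hu, kc_Bl_pos _ _ _ hv, ← mul_sub, abs_mul]
    exact mul_le_mul_of_nonneg_right hpp (abs_nonneg _)
  · rw [kc_Bl_pos _ _ _ hu, kc_Bl_neg _ _ _ hv, abs_sub_comm, abs_sub_comm v u]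
    exact mix v u hv hu
  · rw [kc_Bl_neg _ _ _ hu, kc_Bl_pos _ _ _ hv]
    exact mix u v hu hv
  · rw [kc_Bl_neg _ _ _ hu, kc_Bl_neg _ _ _ hv, ← mul_sub, abs_mul]
    exact mul_le_mul_of_nonneg_right hpm (abs_nonneg _)

theorem kc_Bl_d2 (pm pp Q h : ℝ) (hh : 0 < h) (hpp : |pp| ≤ Q) (hpm : |pm| ≤ Q) (u : ℝ) :
    |u| * |Bl pm pp (u + h) - 2 * Bl pm pp u + Bl pm pp (u - h)| ≤ 2 * Q * h ^ 2 := by
  have hQ : 0 ≤ Q := (abs_nonneg _).trans hpp
  rcases le_or_gt h u with h1 | h1
  · rw [kc_Bl_pos _ _ _ (by linarith : 0 ≤ u + h), kc_Bl_pos _ _ _ (by linarith : 0 ≤ u),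
      kc_Bl_pos _ _ _ (by linarith : 0 ≤ u - h)]
    rw [show pp * (u + h) - 2 * (pp * u) + pp * (u - h) = 0 by ring, abs_zero, mul_zero]
    positivity
  rcases le_or_gt u (-h) with h2 | h2
  · rw [kc_Bl_neg _ _ _ (by linarith : u + h ≤ 0), kc_Bl_neg _ _ _ (by linarith : u ≤ 0),
      kc_Bl_neg _ _ _ (by linarith : u - h ≤ 0)]
    rw [show pm * (u + h) - 2 * (pm * u) + pm * (u - h) = 0 by ring, abs_zero, mul_zero]
    positivity
  have hu : |u| ≤ h := abs_le.2 ⟨h2.le, h1.le⟩
  have l1 := kc_Bl_lip pm pp Q hpp hpm u (u + h)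
  have l2 := kc_Bl_lip pm pp Q hpp hpm u (u - h)
  rw [show u + h - u = h by ring, abs_of_pos hh] at l1
  rw [show u - h - u = -h by ring, abs_neg, abs_of_pos hh] at l2
  have e1 : Bl pm pp (u + h) - 2 * Bl pm pp u + Bl pm pp (u - h) =
    (Bl pm pp (u + h) - Bl pm pp u) + (Bl pm pp (u - h) - Bl pm pp u) := by ring
  have e2 : |Bl pm pp (u + h) - 2 * Bl pm pp u + Bl pm pp (u - h)| ≤ 2 * Q * h := by
    rw [e1]; exact (abs_add_le _ _).trans (by linarith)
  calc _ ≤ h * (2 * Q * h) := mul_le_mul hu e2 (abs_nonneg _) hh.le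
    _ = _ := by ring

theorem kink_cmp (c c1 P : ℝ) (hc : 0 < c) (hc1 : 0 < c1) :
    ∃ C : ℝ, 0 < C ∧ ∀ (δ : ℝ) (g : ℝ → ℝ) (pp pm : ℝ), 0 ≤ δ → δ ≤ 1 → ConcaveOn ℝ Set.univ g →
      g 0 = 0 → |pp| ≤ P → |pm| ≤ P → pp ≤ -c → c ≤ pm →
      (∀ u v, 0 ≤ u → u ≤ v → (pp - δ) * (v - u) ≤ g v - g u ∧ g v - g u ≤ pp * (v - u)) →
      (∀ u v, v ≤ 0 → u ≤ v → pm * (v - u) ≤ g v - g u ∧ g v - g u ≤ (pm + δ) * (v - u)) →
      (∀ u, g u ≤ -(c * |u|)) →
      ∀ (s : ℂ) (t : ℝ), 1 ≤ ‖s‖ → ‖s‖ ≤ |t| → c1 * ‖s‖ ≤ s.im →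
        ‖∫ u : ℝ, Complex.exp (-(Complex.I * t * u)) *
          (Complex.exp (-(Complex.I * s * g u)) - Complex.exp (-(Complex.I * s * Bl pm pp u)))‖
          ≤ C * δ * ‖s‖ / t ^ 2 := by
  set κ : ℝ := c * c1 with hκd
  have hκ : 0 < κ := mul_pos hc hc1
  set L : ℝ := |P| + 1 with hLd
  have hL : 1 ≤ L := by have := abs_nonneg P; linarith
  have hL0 : 0 < L := by linarith
  set Ex : ℝ := Real.exp (L * Real.pi) with hEx
  have hEx0 : 0 < Ex := Real.exp_pos _
  set A : ℝ := 4 * L ^ 2 * Ex / κ + 2 * L + 2 * L * Ex with hA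
  have hA0 : 0 < A := by positivity
  refine ⟨Real.pi ^ 2 * (4 * A / κ + 6) / 4, by have := Real.pi_pos; positivity, ?_⟩
  intro δ g pp pm hδ0 hδ1 hconc hg0 hpp hpm hppc hpmc hS1 hS2 hgle s t hs1 hst hsim
  have hs0 : 0 < ‖s‖ := by linarith
  have habs : 0 < |t| := by linarith
  have ht : t ≠ 0 := abs_pos.1 habs
  have hpi := Real.pi_pos
  set h : ℝ := Real.pi / |t| with hhd
  have hh : 0 < h := by positivity
  have hsh : ‖s‖ * h ≤ Real.pi := by
    have : ‖s‖ * h ≤ |t| * h := mul_le_mul_of_nonneg_right hst hh.le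
    have e : |t| * h = Real.pi := by rw [hhd]; field_simp
    linarith
  have hpp' : |pp| ≤ |P| := hpp.trans (le_abs_self P)
  have hpm' : |pm| ≤ |P| := hpm.trans (le_abs_self P)
  set e : ℝ → ℝ := fun u => g u - Bl pm pp u with hed
  have E1 : ∀ u v, 0 ≤ u → u ≤ v → -δ * (v - u) ≤ e v - e u ∧ e v - e u ≤ 0 := by
    intro u v hu huv
    have := hS1 u v hu huv
    simp only [hed]
    rw [kc_Bl_pos _ _ _ hu, kc_Bl_pos _ _ _ (hu.trans huv)]
    constructor <;> linarith [this.1, this.2]
  have E2 : ∀ u v, u ≤ v → v ≤ 0 → 0 ≤ e v - e u ∧ e v - e u ≤ δ * (v - u) := by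
    intro u v huv hv
    have := hS2 u v hv huv
    simp only [hed]
    rw [kc_Bl_neg _ _ _ hv, kc_Bl_neg _ _ _ (huv.trans hv)]
    constructor <;> linarith [this.1, this.2]
  have hLip0 : ∀ u v, u ≤ v → |e v - e u| ≤ δ * (v - u) := by
    intro u v huv
    rw [abs_le]
    have hduv : 0 ≤ δ * (v - u) := mul_nonneg hδ0 (by linarith)
    rcases le_total 0 u with hu | hu
    · have := E1 u v hu huv
      constructor <;> linarith [this.1, this.2]
    rcases le_total 0 v with hv | hv
    · have a1 := E1 0 v le_rfl hv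
      have a2 := E2 u 0 hu le_rfl
      have a3 : 0 ≤ δ * v := mul_nonneg hδ0 hv
      have a4 : 0 ≤ δ * (-u) := mul_nonneg hδ0 (by linarith)
      constructor <;> linarith [a1.1, a1.2, a2.1, a2.2]
    · have := E2 u v huv hv
      constructor <;> linarith [this.1, this.2]
  have hLip : ∀ u v, |e v - e u| ≤ δ * |v - u| := by
    intro u v
    rcases le_total u v with huv | huv
    · rw [abs_of_nonneg (by linarith : 0 ≤ v - u)]; exact hLip0 u v huv
    · rw [abs_sub_comm, abs_sub_comm v u, abs_of_nonneg (by linarith : 0 ≤ u - v)]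
      exact hLip0 v u huv
  have he0 : e 0 = 0 := by
    simp only [hed]; rw [hg0, kc_Bl_pos _ _ _ le_rfl]; ring
  have heu : ∀ u, |e u| ≤ δ * |u| := by
    intro u
    have := hLip 0 u
    rwa [he0, sub_zero, sub_zero] at this
  have hBlip := kc_Bl_lip pm pp |P| hpp' hpm'
  have heu2 : ∀ u, g u = e u + Bl pm pp u := fun u => by simp only [hed]; ring
  have hglip : ∀ u v, |g v - g u| ≤ L * |v - u| := by
    intro u v
    have e1 : g v - g u = (e v - e u) + (Bl pm pp v - Bl pm pp u) := by
      rw [heu2, heu2]; ring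
    rw [e1]
    have h1 := hLip u v
    have h2 := hBlip u v
    have h3 : δ * |v - u| ≤ 1 * |v - u| := mul_le_mul_of_nonneg_right hδ1 (abs_nonneg _)
    refine (abs_add_le _ _).trans ?_
    rw [hLd]; linarith
  have hcontof : ∀ (K : ℝ) (f : ℝ → ℝ), 0 ≤ K → (∀ u v, |f v - f u| ≤ K * |v - u|) →
      Continuous f := by
    intro K f hK hf
    have : LipschitzWith ⟨K, hK⟩ f := LipschitzWith.of_dist_le_mul fun x y => by
      rw [Real.dist_eq, Real.dist_eq]; exact hf y x
    exact this.continuous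
  have hec : Continuous e := hcontof δ e hδ0 hLip
  have hgc : Continuous g := hcontof L g hL0.le hglip
  have hBc : Continuous (Bl pm pp) := hcontof |P| _ (abs_nonneg _) hBlip
  have hBle : ∀ u, Bl pm pp u ≤ -(c * |u|) := by
    intro u
    rcases le_total 0 u with hu | hu
    · rw [kc_Bl_pos _ _ _ hu, abs_of_nonneg hu]
      have := mul_le_mul_of_nonneg_right hppc hu
      linarith
    · rw [kc_Bl_neg _ _ _ hu, abs_of_nonpos hu]
      have := mul_le_mul_of_nonpos_right hpmc hu
      linarith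
  have hg2 : ∀ u, g (u + h) - 2 * g u + g (u - h) ≤ 0 := by
    intro u
    have := hconc.2 (Set.mem_univ (u + h)) (Set.mem_univ (u - h))
      (show (0:ℝ) ≤ 1 / 2 by norm_num) (show (0:ℝ) ≤ 1 / 2 by norm_num) (by norm_num)
    simp only [smul_eq_mul] at this
    rw [show 1 / 2 * (u + h) + 1 / 2 * (u - h) = u by ring] at this
    linarith
  have hc1' : ∀ u, h ≤ u → e (u + h) - 2 * e u + e (u - h) ≤ 0 := by
    intro u hu
    simp only [hed]
    rw [kc_Bl_pos _ _ _ (by linarith : 0 ≤ u + h), kc_Bl_pos _ _ _ (by linarith : 0 ≤ u),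
      kc_Bl_pos _ _ _ (by linarith : 0 ≤ u - h)]
    linarith [hg2 u]
  have hc2' : ∀ u, u ≤ -h → e (u + h) - 2 * e u + e (u - h) ≤ 0 := by
    intro u hu
    simp only [hed]
    rw [kc_Bl_neg _ _ _ (by linarith : u + h ≤ 0), kc_Bl_neg _ _ _ (by linarith : u ≤ 0),
      kc_Bl_neg _ _ _ (by linarith : u - h ≤ 0)]
    linarith [hg2 u]
  -- norms
  have hnorm : ∀ (z : ℂ) (x : ℝ), z = -(Complex.I * s * x) → ‖z‖ = ‖s‖ * |x| := by
    intro z x hz
    rw [hz, norm_neg, norm_mul, norm_mul, Complex.norm_I, one_mul, Complex.norm_real,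
      Real.norm_eq_abs]
  have hre : ∀ x : ℝ, (-(Complex.I * s * (x : ℂ))).re = s.im * x := by
    intro x
    simp [Complex.mul_re]
  have hrele : ∀ x u : ℝ, x ≤ -(c * |u|) → s.im * x ≤ -(κ * ‖s‖ * |u|) := by
    intro x u hx
    have h1 : 0 ≤ s.im := le_trans (by positivity) hsim
    have h2 : s.im * x ≤ s.im * (-(c * |u|)) := mul_le_mul_of_nonneg_left hx h1
    have h3 : c1 * ‖s‖ * (c * |u|) ≤ s.im * (c * |u|) :=
      mul_le_mul_of_nonneg_right hsim (by positivity)
    rw [hκd]
    linarith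
  set f : ℝ → ℂ := fun u => Complex.exp (-(Complex.I * s * g u)) -
    Complex.exp (-(Complex.I * s * Bl pm pp u)) with hfd
  have hfc : Continuous f := by
    have h1 : Continuous fun u : ℝ => ((g u : ℝ) : ℂ) := Complex.continuous_ofReal.comp hgc
    have h2 : Continuous fun u : ℝ => ((Bl pm pp u : ℝ) : ℂ) :=
      Complex.continuous_ofReal.comp hBc
    exact (Complex.continuous_exp.comp (continuous_const.mul h1).neg).sub
      (Complex.continuous_exp.comp (continuous_const.mul h2).neg)
  set a : ℝ := κ * ‖s‖ / 2 with had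
  have ha : 0 < a := by positivity
  obtain ⟨hei, hev⟩ := kc_expint a ha
  have hfb : ∀ u, ‖f u‖ ≤ 2 * Real.exp (-(a * |u|)) := by
    intro u
    have k1 : ‖Complex.exp (-(Complex.I * s * g u))‖ ≤ Real.exp (-(a * |u|)) := by
      rw [Complex.norm_exp, hre]
      apply Real.exp_le_exp.2
      have := hrele _ u (hgle u)
      have h3 : 0 ≤ κ * ‖s‖ * |u| := by positivity
      rw [had]; linarith
    have k2 : ‖Complex.exp (-(Complex.I * s * Bl pm pp u))‖ ≤ Real.exp (-(a * |u|)) := by
      rw [Complex.norm_exp, hre]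
      apply Real.exp_le_exp.2
      have := hrele _ u (hBle u)
      have h3 : 0 ≤ κ * ‖s‖ * |u| := by positivity
      rw [had]; linarith
    exact (norm_sub_le _ _).trans (by linarith)
  have hfi : Integrable f := (hei.const_mul 2).mono' hfc.aestronglyMeasurable
    (Filter.Eventually.of_forall hfb)
  have hsd := second_diff f hfi t ht
  set q : ℝ := δ * ‖s‖ ^ 2 * h ^ 2 with hq
  have hq0 : 0 ≤ q := by positivity
  have hpt : ∀ u, ‖f (u + h) - 2 * f u + f (u - h)‖ ≤
      A * q * Real.exp (-(a * |u|)) + ‖s‖ * |e (u + h) - 2 * e u + e (u - h)| := by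
    intro u
    have hr : ∀ x : ℝ, |x| ≤ L * h → ‖s‖ * |x| ≤ L * (‖s‖ * h) := by
      intro x hx
      have := mul_le_mul_of_nonneg_left hx hs0.le
      linarith
    have g1 : |g (u + h) - g u| ≤ L * h := by
      have := hglip u (u + h)
      rwa [show u + h - u = h by ring, abs_of_pos hh] at this
    have g2 : |g (u - h) - g u| ≤ L * h := by
      have := hglip u (u - h)
      rwa [show u - h - u = -h by ring, abs_neg, abs_of_pos hh] at this
    have hPL : |P| * h ≤ L * h := mul_le_mul_of_nonneg_right (by rw [hLd]; linarith) hh.le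
    have b1 : |Bl pm pp (u + h) - Bl pm pp u| ≤ L * h := by
      have := hBlip u (u + h)
      rw [show u + h - u = h by ring, abs_of_pos hh] at this
      exact this.trans hPL
    have b2 : |Bl pm pp (u - h) - Bl pm pp u| ≤ L * h := by
      have := hBlip u (u - h)
      rw [show u - h - u = -h by ring, abs_neg, abs_of_pos hh] at this
      exact this.trans hPL
    have e1 : |e (u + h) - e u| ≤ δ * h := by
      have := hLip u (u + h)
      rwa [show u + h - u = h by ring, abs_of_pos hh] at this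
    have e2 : |e (u - h) - e u| ≤ δ * h := by
      have := hLip u (u - h)
      rwa [show u - h - u = -h by ring, abs_neg, abs_of_pos hh] at this
    have hd2 := kc_Bl_d2 pm pp |P| h hh hpp' hpm' u
    have main := kc_point0 (-(Complex.I * s * g u)) (-(Complex.I * s * g (u + h)))
      (-(Complex.I * s * g (u - h))) (-(Complex.I * s * Bl pm pp u))
      (-(Complex.I * s * Bl pm pp (u + h))) (-(Complex.I * s * Bl pm pp (u - h)))
      (κ * ‖s‖ * |u|) (L * (‖s‖ * h)) (by rw [hre]; exact hrele _ u (hgle u))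
      (by rw [hre]; exact hrele _ u (hBle u))
      (by rw [hnorm _ (g (u + h) - g u) (by push_cast; ring)]; exact hr _ g1)
      (by rw [hnorm _ (g (u - h) - g u) (by push_cast; ring)]; exact hr _ g2)
      (by rw [hnorm _ (Bl pm pp (u + h) - Bl pm pp u) (by push_cast; ring)]; exact hr _ b1)
      (by rw [hnorm _ (Bl pm pp (u - h) - Bl pm pp u) (by push_cast; ring)]; exact hr _ b2)
    rw [hnorm (-(Complex.I * s * g u) - -(Complex.I * s * Bl pm pp u)) (e u)
        (by simp only [hed]; push_cast; ring),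
      hnorm (-(Complex.I * s * Bl pm pp (u + h)) - 2 * -(Complex.I * s * Bl pm pp u) +
        -(Complex.I * s * Bl pm pp (u - h)))
        (Bl pm pp (u + h) - 2 * Bl pm pp u + Bl pm pp (u - h)) (by push_cast; ring),
      hnorm (-(Complex.I * s * g (u + h)) - -(Complex.I * s * Bl pm pp (u + h)) -
        2 * (-(Complex.I * s * g u) - -(Complex.I * s * Bl pm pp u)) +
        (-(Complex.I * s * g (u - h)) - -(Complex.I * s * Bl pm pp (u - h))))
        (e (u + h) - 2 * e u + e (u - h)) (by simp only [hed]; push_cast; ring),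
      hnorm (-(Complex.I * s * g (u + h)) - -(Complex.I * s * g u) -
        (-(Complex.I * s * Bl pm pp (u + h)) - -(Complex.I * s * Bl pm pp u)))
        (e (u + h) - e u) (by simp only [hed]; push_cast; ring),
      hnorm (-(Complex.I * s * g (u - h)) - -(Complex.I * s * g u) -
        (-(Complex.I * s * Bl pm pp (u - h)) - -(Complex.I * s * Bl pm pp u)))
        (e (u - h) - e u) (by simp only [hed]; push_cast; ring)] at main
    refine le_trans main ?_
    set W : ℝ := |e (u + h) - 2 * e u + e (u - h)| with hW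
    set Z : ℝ := |Bl pm pp (u + h) - 2 * Bl pm pp u + Bl pm pp (u - h)| with hZ
    have hW0 : 0 ≤ W := abs_nonneg _
    have hZ0 : 0 ≤ Z := abs_nonneg _
    set m : ℝ := κ * ‖s‖ * |u| with hm
    have hm0 : 0 ≤ m := by positivity
    have ham : a * |u| = m / 2 := by rw [had, hm]; ring
    rw [ham]
    have hEr : Real.exp (L * (‖s‖ * h)) ≤ Ex :=
      Real.exp_le_exp.2 (mul_le_mul_of_nonneg_left hsh hL0.le)
    have hex1 : Real.exp (-m) ≤ 1 := Real.exp_le_one_iff.2 (by linarith)
    have hex2 : Real.exp (-m) ≤ Real.exp (-(m / 2)) := Real.exp_le_exp.2 (by linarith)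
    have hex3 : Real.exp (-m) * (‖s‖ * |u|) ≤ 2 / κ * Real.exp (-(m / 2)) := by
      have h1 : m / 2 ≤ Real.exp (m / 2) := by linarith [Real.add_one_le_exp (m / 2)]
      have h2 : ‖s‖ * |u| = 2 / κ * (m / 2) := by rw [hm]; field_simp
      have h3 : Real.exp (-m) * Real.exp (m / 2) = Real.exp (-(m / 2)) := by
        rw [← Real.exp_add]; congr 1; ring
      rw [h2]
      calc Real.exp (-m) * (2 / κ * (m / 2)) ≤ Real.exp (-m) * (2 / κ * Real.exp (m / 2)) := by
            apply mul_le_mul_of_nonneg_left _ (Real.exp_pos _).le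
            exact mul_le_mul_of_nonneg_left h1 (by positivity)
        _ = 2 / κ * (Real.exp (-m) * Real.exp (m / 2)) := by ring
        _ = _ := by rw [h3]
    -- four terms
    have t1 : Real.exp (-m) * (‖s‖ * |e u|) *
        (2 * (L * (‖s‖ * h) * Real.exp (L * (‖s‖ * h)) * (L * (‖s‖ * h)))) ≤
        (4 * L ^ 2 * Ex / κ) * q * Real.exp (-(m / 2)) := by
      have h1 : Real.exp (-m) * (‖s‖ * |e u|) ≤ δ * (2 / κ * Real.exp (-(m / 2))) := by
        calc Real.exp (-m) * (‖s‖ * |e u|) ≤ Real.exp (-m) * (‖s‖ * (δ * |u|)) := by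
              apply mul_le_mul_of_nonneg_left _ (Real.exp_pos _).le
              exact mul_le_mul_of_nonneg_left (heu u) hs0.le
          _ = δ * (Real.exp (-m) * (‖s‖ * |u|)) := by ring
          _ ≤ _ := mul_le_mul_of_nonneg_left hex3 hδ0
      have h2 : 2 * (L * (‖s‖ * h) * Real.exp (L * (‖s‖ * h)) * (L * (‖s‖ * h))) ≤
          2 * (L * (‖s‖ * h) * Ex * (L * (‖s‖ * h))) := by
        have : L * (‖s‖ * h) * Real.exp (L * (‖s‖ * h)) ≤ L * (‖s‖ * h) * Ex :=
          mul_le_mul_of_nonneg_left hEr (by positivity)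
        have h3 := mul_le_mul_of_nonneg_right this (by positivity : 0 ≤ L * (‖s‖ * h))
        linarith
      calc _ ≤ δ * (2 / κ * Real.exp (-(m / 2))) *
            (2 * (L * (‖s‖ * h) * Ex * (L * (‖s‖ * h)))) :=
            mul_le_mul h1 h2 (by positivity) (by positivity)
        _ = _ := by rw [hq]; ring
    have t2 : Real.exp (-m) * (‖s‖ * |e u|) * (‖s‖ * Z) ≤
        2 * L * q * Real.exp (-(m / 2)) := by
      have h1 : |e u| * Z ≤ δ * (2 * |P| * h ^ 2) := by
        calc |e u| * Z ≤ δ * |u| * Z := mul_le_mul_of_nonneg_right (heu u) hZ0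
          _ = δ * (|u| * Z) := by ring
          _ ≤ _ := mul_le_mul_of_nonneg_left hd2 hδ0
      have h2 : δ * (2 * |P| * h ^ 2) ≤ δ * (2 * L * h ^ 2) := by
        apply mul_le_mul_of_nonneg_left _ hδ0
        apply mul_le_mul_of_nonneg_right _ (by positivity)
        rw [hLd]; linarith
      calc Real.exp (-m) * (‖s‖ * |e u|) * (‖s‖ * Z) =
            Real.exp (-m) * (‖s‖ ^ 2 * (|e u| * Z)) := by ring
        _ ≤ Real.exp (-(m / 2)) * (‖s‖ ^ 2 * (δ * (2 * L * h ^ 2))) := by
            apply mul_le_mul hex2 _ (by positivity) (Real.exp_pos _).le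
            exact mul_le_mul_of_nonneg_left (h1.trans h2) (by positivity)
        _ = _ := by rw [hq]; ring
    have t3 : Real.exp (-m) * (‖s‖ * W) ≤ ‖s‖ * W := by
      have := mul_le_mul_of_nonneg_right hex1 (by positivity : 0 ≤ ‖s‖ * W)
      linarith
    have t4 : Real.exp (-m) * (L * (‖s‖ * h) * Real.exp (L * (‖s‖ * h)) *
        (‖s‖ * |e (u + h) - e u| + ‖s‖ * |e (u - h) - e u|)) ≤
        2 * L * Ex * q * Real.exp (-(m / 2)) := by
      have h1 : ‖s‖ * |e (u + h) - e u| + ‖s‖ * |e (u - h) - e u| ≤ ‖s‖ * (2 * δ * h) := by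
        have k1 := mul_le_mul_of_nonneg_left e1 hs0.le
        have k2 := mul_le_mul_of_nonneg_left e2 hs0.le
        linarith
      have h2 : L * (‖s‖ * h) * Real.exp (L * (‖s‖ * h)) ≤ L * (‖s‖ * h) * Ex :=
          mul_le_mul_of_nonneg_left hEr (by positivity)
      calc _ ≤ Real.exp (-(m / 2)) * (L * (‖s‖ * h) * Ex * (‖s‖ * (2 * δ * h))) := by
            apply mul_le_mul hex2 _ (by positivity) (Real.exp_pos _).le
            exact mul_le_mul h2 h1 (by positivity) (by positivity)
        _ = _ := by rw [hq]; ring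
    have hfin : A * q * Real.exp (-(m / 2)) = (4 * L ^ 2 * Ex / κ) * q * Real.exp (-(m / 2)) +
        2 * L * q * Real.exp (-(m / 2)) + 2 * L * Ex * q * Real.exp (-(m / 2)) := by
      rw [hA]; ring
    rw [hfin]
    have := add_le_add (add_le_add t1 t2) (add_le_add t3 t4)
    refine le_trans (le_of_eq ?_) (this.trans (le_of_eq ?_)) <;> ring
  -- the integral of the second difference
  have hDc : Continuous fun u => f (u + h) - 2 * f u + f (u - h) := by
    have h1 : Continuous fun u => f (u + h) := hfc.comp (continuous_id.add continuous_const)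
    have h2 : Continuous fun u => f (u - h) := hfc.comp (continuous_id.sub continuous_const)
    exact (h1.sub (continuous_const.mul hfc)).add h2
  have hDi : Integrable fun u => ‖f (u + h) - 2 * f u + f (u - h)‖ :=
    (((hfi.comp_add_right h).sub (hfi.const_mul 2)).add (hfi.comp_sub_right h)).norm
  have hlim := intervalIntegral_tendsto_integral hDi Filter.tendsto_neg_atTop_atBot
    Filter.tendsto_id
  have hbound : ∫ u : ℝ, ‖f (u + h) - 2 * f u + f (u - h)‖ ≤
      A * q * (2 / a) + ‖s‖ * (6 * δ * h ^ 2) := by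
    refine le_of_tendsto hlim ?_
    filter_upwards [Filter.eventually_ge_atTop h] with R hR
    have hDe : Continuous fun u => |e (u + h) - 2 * e u + e (u - h)| := by
      have h1 : Continuous fun u => e (u + h) := hec.comp (continuous_id.add continuous_const)
      have h2 : Continuous fun u => e (u - h) := hec.comp (continuous_id.sub continuous_const)
      exact ((h1.sub (continuous_const.mul hec)).add h2).abs
    have hexpc : Continuous fun u : ℝ => A * q * Real.exp (-(a * |u|)) :=
      continuous_const.mul (Real.continuous_exp.comp (continuous_const.mul continuous_abs).neg)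
    have hRR : -R ≤ R := by linarith
    calc ∫ u in (-R)..(id R), ‖f (u + h) - 2 * f u + f (u - h)‖ ≤
        ∫ u in (-R)..R, (A * q * Real.exp (-(a * |u|)) +
          ‖s‖ * |e (u + h) - 2 * e u + e (u - h)|) := by
          apply intervalIntegral.integral_mono_on hRR (hDc.norm.intervalIntegrable _ _)
            ((hexpc.add (continuous_const.mul hDe)).intervalIntegrable _ _)
          intro u _
          exact hpt u
      _ = (∫ u in (-R)..R, A * q * Real.exp (-(a * |u|))) +
          ∫ u in (-R)..R, ‖s‖ * |e (u + h) - 2 * e u + e (u - h)| :=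
          intervalIntegral.integral_add (hexpc.intervalIntegrable _ _)
            ((continuous_const.mul hDe).intervalIntegrable _ _)
      _ ≤ A * q * (2 / a) + ‖s‖ * (6 * δ * h ^ 2) := by
          refine add_le_add ?_ ?_
          · rw [intervalIntegral.integral_const_mul]
            refine mul_le_mul_of_nonneg_left ?_ (by positivity)
            rw [intervalIntegral.integral_of_le hRR, ← hev]
            exact setIntegral_le_integral hei
              (Filter.Eventually.of_forall fun u => (Real.exp_pos _).le)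
          · rw [intervalIntegral.integral_const_mul]
            exact mul_le_mul_of_nonneg_left
              (kc_int3 e δ h R hec hh hR E1 E2 hLip hc1' hc2') hs0.le
  have hfinal : A * q * (2 / a) + ‖s‖ * (6 * δ * h ^ 2) =
      4 * (Real.pi ^ 2 * (4 * A / κ + 6) / 4 * δ * ‖s‖ / t ^ 2) := by
    have hh2 : h ^ 2 = Real.pi ^ 2 / t ^ 2 := by
      rw [hhd, div_pow, sq_abs]
    rw [hq, had, hh2]
    field_simp
    ring
  have := hsd.trans hbound
  rw [hfinal] at this
  linarith

end Helper112.Pf
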