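import Mathlib
import Pool.Agent.Helper112.Pf.Defs3

set_option autoImplicit false

namespace Helper112.Pf

open MeasureTheory


theorem kink_exact (c c1 P : ℝ) (hc : 0 < c) (hc1 : 0 < c1) (hP : 0 < P) :
    ∃ C : ℝ, 0 < C ∧ ∀ (pp pm : ℝ), |pp| ≤ P → |pm| ≤ P → pp ≤ -c → c ≤ pm →
      ∀ (s : ℂ) (t : ℝ), 1 ≤ ‖s‖ → ‖s‖ ≤ |t| → c1 * ‖s‖ ≤ s.im →
        Integrable (fun u : ℝ => Complex.exp (-(Complex.I * t * u)) * Complex.exp (-(Complex.I * s * Bl pm pp u))) ∧
        C * ‖s‖ / t ^ 2 ≤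
          ‖∫ u : ℝ, Complex.exp (-(Complex.I * t * u)) * Complex.exp (-(Complex.I * s * Bl pm pp u))‖ := by
  refine ⟨2 * c / (1 + P) ^ 2, by positivity, ?_⟩
  intro pp pm hpp hpm hppc hpmc s t hs1 hst hsim
  have him : 0 < s.im := lt_of_lt_of_le (by positivity) hsim
  set A : ℂ := -(Complex.I * ((t : ℂ) + s * pp)) with hA
  set B : ℂ := -(Complex.I * ((t : ℂ) + s * pm)) with hB
  have hAre : A.re < 0 := by
    have : A.re = s.im * pp := by simp [hA]
    rw [this]
    nlinarith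
  have hBre : 0 < B.re := by
    have : B.re = s.im * pm := by simp [hB]
    rw [this]
    have : 0 < pm := by linarith
    positivity
  have e1 : Set.EqOn (fun u : ℝ => Complex.exp (-(Complex.I * t * u)) * Complex.exp (-(Complex.I * s * Bl pm pp u)))
      (fun u : ℝ => Complex.exp (A * u)) (Set.Ioi 0) := by
    intro u hu
    have hu' : (0:ℝ) ≤ u := le_of_lt hu
    simp only [Bl, if_pos hu']
    rw [← Complex.exp_add]
    congr 1
    rw [hA]; push_cast; ring
  have e2 : Set.EqOn (fun u : ℝ => Complex.exp (-(Complex.I * t * u)) * Complex.exp (-(Complex.I * s * Bl pm pp u)))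
      (fun u : ℝ => Complex.exp (B * u)) (Set.Iic 0) := by
    intro u hu
    rcases lt_or_eq_of_le (Set.mem_Iic.mp hu) with h | h
    · simp only [Bl, if_neg (not_le.mpr h)]
      rw [← Complex.exp_add]
      congr 1
      rw [hB]; push_cast; ring
    · subst h
      simp [Bl]
  have i1 : IntegrableOn (fun u : ℝ => Complex.exp (A * u)) (Set.Ioi 0) := integrableOn_exp_mul_complex_Ioi hAre 0
  have i2 : IntegrableOn (fun u : ℝ => Complex.exp (B * u)) (Set.Iic 0) := integrableOn_exp_mul_complex_Iic hBre 0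
  have j1 := (integrableOn_congr_fun e1 measurableSet_Ioi).mpr i1
  have j2 := (integrableOn_congr_fun e2 measurableSet_Iic).mpr i2
  have hint : Integrable (fun u : ℝ => Complex.exp (-(Complex.I * t * u)) * Complex.exp (-(Complex.I * s * Bl pm pp u))) := by
    rw [← integrableOn_univ, ← Set.Iic_union_Ioi (a := (0:ℝ))]
    exact j2.union j1
  refine ⟨hint, ?_⟩
  have hval : ∫ u : ℝ, Complex.exp (-(Complex.I * t * u)) * Complex.exp (-(Complex.I * s * Bl pm pp u)) = 1 / B - 1 / A := by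
    rw [← intervalIntegral.integral_Iic_add_Ioi j2 j1, setIntegral_congr_fun measurableSet_Iic e2,
      setIntegral_congr_fun measurableSet_Ioi e1, integral_exp_mul_complex_Ioi hAre, integral_exp_mul_complex_Iic hBre]
    simp
    ring
  rw [hval]
  have hA0 : A ≠ 0 := fun h => by rw [h] at hAre; simp at hAre
  have hB0 : B ≠ 0 := fun h => by rw [h] at hBre; simp at hBre
  have hdiff : 1 / B - 1 / A = (A - B) / (A * B) := by field_simp
  rw [hdiff, norm_div, norm_mul]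
  have hAB : ‖A - B‖ = ‖s‖ * (pm - pp) := by
    have : A - B = Complex.I * s * ((pm - pp : ℝ) : ℂ) := by rw [hA, hB]; push_cast; ring
    rw [this, norm_mul, norm_mul, Complex.norm_I, one_mul, Complex.norm_real, Real.norm_of_nonneg (by linarith)]
  have hAn : ‖A‖ ≤ (1 + P) * |t| := by
    rw [hA, norm_neg, norm_mul, Complex.norm_I, one_mul]
    calc ‖(t : ℂ) + s * pp‖ ≤ ‖(t : ℂ)‖ + ‖s * pp‖ := norm_add_le _ _
      _ = |t| + ‖s‖ * |pp| := by rw [norm_mul, Complex.norm_real, Complex.norm_real, Real.norm_eq_abs, Real.norm_eq_abs]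
      _ ≤ |t| + |t| * P := by gcongr
      _ = (1 + P) * |t| := by ring
  have hBn : ‖B‖ ≤ (1 + P) * |t| := by
    rw [hB, norm_neg, norm_mul, Complex.norm_I, one_mul]
    calc ‖(t : ℂ) + s * pm‖ ≤ ‖(t : ℂ)‖ + ‖s * pm‖ := norm_add_le _ _
      _ = |t| + ‖s‖ * |pm| := by rw [norm_mul, Complex.norm_real, Complex.norm_real, Real.norm_eq_abs, Real.norm_eq_abs]
      _ ≤ |t| + |t| * P := by gcongr
      _ = (1 + P) * |t| := by ring
  have ht : 0 < |t| := by linarith
  have hApos : 0 < ‖A‖ := norm_pos_iff.mpr hA0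
  have hBpos : 0 < ‖B‖ := norm_pos_iff.mpr hB0
  rw [hAB]
  have h1 : ‖A‖ * ‖B‖ ≤ (1 + P) ^ 2 * t ^ 2 := by
    calc ‖A‖ * ‖B‖ ≤ ((1 + P) * |t|) * ((1 + P) * |t|) := by gcongr
      _ = (1 + P) ^ 2 * t ^ 2 := by rw [← sq_abs t]; ring
  have h2 : ‖s‖ * (2 * c) ≤ ‖s‖ * (pm - pp) := by
    apply mul_le_mul_of_nonneg_left _ (norm_nonneg _); linarith
  calc 2 * c / (1 + P) ^ 2 * ‖s‖ / t ^ 2 = ‖s‖ * (2 * c) / ((1 + P) ^ 2 * t ^ 2) := by
        field_simp
    _ ≤ ‖s‖ * (pm - pp) / (‖A‖ * ‖B‖) := by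
        apply div_le_div₀ _ h2 (by positivity) h1
        exact mul_nonneg (norm_nonneg _) (by linarith)

end Helper112.Pf
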