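import Mathlib
import Pool.Agent.Helper112.Pf.Defs3
import Pool.Agent.Helper112.Pf.WConcaveLocal
import Pool.Agent.Helper112.Pf.WKinkCmp
import Pool.Agent.Helper112.Pf.WKinkExact

set_option autoImplicit false

namespace Helper112.Pf

open MeasureTheory



theorem expabs_31109 (κ : ℝ) (hκ : 0 < κ) : Integrable (fun u : ℝ => Real.exp (-(κ * |u|))) := by
  rw [← integrableOn_univ, ← Set.Iic_union_Ioi (a := (0:ℝ)), integrableOn_union]
  constructor
  · have h1 := integrableOn_exp_mul_Iic (a := κ) hκ 0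
    apply h1.congr_fun _ measurableSet_Iic
    intro u hu
    simp only [abs_of_nonpos (Set.mem_Iic.mp hu)]
    congr 1; ring
  · have h1 := integrableOn_exp_mul_Ioi (a := -κ) (by linarith) 0
    apply h1.congr_fun _ measurableSet_Ioi
    intro u hu
    simp only [abs_of_pos (Set.mem_Ioi.mp hu)]
    congr 1; ring

theorem norm1_31109 (s : ℂ) (y : ℝ) : ‖Complex.exp (-(Complex.I * s * y))‖ = Real.exp (s.im * y) := by
  rw [Complex.norm_exp]
  congr 1
  simp

theorem norm2_31109 (t y : ℝ) : ‖Complex.exp (-(Complex.I * t * y))‖ = 1 := by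
  rw [Complex.norm_exp]
  simp

theorem core_31109 (A B : ℝ) (hA : A < 0) (hB : 0 < B) (lo hi : ℝ → ℝ)
    (hhic : ContinuousOn hi (Set.Icc A B)) (hloc : ContinuousOn lo (Set.Icc A B))
    (c : ℝ) (hc : 0 < c) (hle : ∀ u ∈ Set.Icc A B, hi u ≤ -(c * |u|))
    (c2 : ℝ) (hlo2 : ∀ u ∈ Set.Icc A B, lo u ≤ -c2) (ε : ℝ) (hε : 0 < ε) (hεB : ε < B) (hεA : ε < -A)
    (g : ℝ → ℝ) (hgc : Continuous g) (hg : ∀ u, g u ≤ -(c * |u|)) (hgh : ∀ u, |u| ≤ ε → g u = hi u)
    (s : ℂ) (t : ℝ) (σ0 : ℝ) (hσ0 : 0 < σ0) (hσ : σ0 ≤ s.im)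
    (hzero : (∫ u in A..B, Complex.exp (-(Complex.I * t * u)) *
        ∫ x in (lo u)..(hi u), Complex.exp (-(Complex.I * s * x))) = 0) :
    Integrable (fun u : ℝ => Complex.exp (-(Complex.I * t * u)) * Complex.exp (-(Complex.I * s * g u))) ∧
    ‖∫ u : ℝ, Complex.exp (-(Complex.I * t * u)) * Complex.exp (-(Complex.I * s * g u))‖ ≤
      (B - A) * Real.exp (-(c2 * s.im)) +
        2 * (∫ u : ℝ, Real.exp (-(c * σ0 / 2 * |u|))) * Real.exp (-(c * ε / 2 * s.im)) := by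
  have hs0 : 0 < s.im := lt_of_lt_of_le hσ0 hσ
  have hs : s ≠ 0 := by
    intro h; rw [h] at hs0; simp at hs0
  have hAB : A ≤ B := by linarith
  obtain ⟨G, hG⟩ : ∃ G : ℝ → ℂ, G = fun u : ℝ => Complex.exp (-(Complex.I * t * u)) * Complex.exp (-(Complex.I * s * g u)) := ⟨_, rfl⟩
  obtain ⟨Hh, hHh⟩ : ∃ Hh : ℝ → ℂ, Hh = fun u : ℝ => Complex.exp (-(Complex.I * t * u)) * Complex.exp (-(Complex.I * s * hi u)) := ⟨_, rfl⟩
  obtain ⟨L, hL⟩ : ∃ L : ℝ → ℂ, L = fun u : ℝ => Complex.exp (-(Complex.I * t * u)) * Complex.exp (-(Complex.I * s * lo u)) := ⟨_, rfl⟩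
  have hGn : ∀ u, ‖G u‖ = Real.exp (s.im * g u) := by
    intro u; rw [hG]; simp only [norm_mul]; rw [norm2_31109, one_mul, norm1_31109]
  have hHn : ∀ u, ‖Hh u‖ = Real.exp (s.im * hi u) := by
    intro u; rw [hHh]; simp only [norm_mul]; rw [norm2_31109, one_mul, norm1_31109]
  have hLn : ∀ u, ‖L u‖ = Real.exp (s.im * lo u) := by
    intro u; rw [hL]; simp only [norm_mul]; rw [norm2_31109, one_mul, norm1_31109]
  have hec : ∀ (f : ℝ → ℝ), ContinuousOn f (Set.Icc A B) →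
      ContinuousOn (fun u : ℝ => Complex.exp (-(Complex.I * t * u)) * Complex.exp (-(Complex.I * s * f u))) (Set.Icc A B) := by
    intro f hf
    apply ContinuousOn.mul
    · apply Continuous.continuousOn
      fun_prop
    · apply Complex.continuous_exp.comp_continuousOn
      exact (continuousOn_const.mul (Complex.continuous_ofReal.comp_continuousOn hf)).neg
  have hHc : ContinuousOn Hh (Set.Icc A B) := by rw [hHh]; exact hec hi hhic
  have hLc : ContinuousOn L (Set.Icc A B) := by rw [hL]; exact hec lo hloc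
  have hHi : IntervalIntegrable Hh volume A B := by
    apply ContinuousOn.intervalIntegrable
    rw [Set.uIcc_of_le hAB]; exact hHc
  have hLi : IntervalIntegrable L volume A B := by
    apply ContinuousOn.intervalIntegrable
    rw [Set.uIcc_of_le hAB]; exact hLc
  -- step 1
  have hIs : -(Complex.I * s) ≠ 0 := neg_ne_zero.mpr (mul_ne_zero Complex.I_ne_zero hs)
  have h1 : (∫ u in A..B, Hh u) = ∫ u in A..B, L u := by
    have h2 : (∫ u in A..B, Complex.exp (-(Complex.I * t * u)) *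
        ∫ x in (lo u)..(hi u), Complex.exp (-(Complex.I * s * x))) =
        ∫ u in A..B, (Hh u - L u) * (-(Complex.I * s))⁻¹ := by
      apply intervalIntegral.integral_congr
      intro u _
      have h3 := integral_exp_mul_complex (a := lo u) (b := hi u) hIs
      simp only [neg_mul] at h3
      simp only [h3, hHh, hL]
      rw [div_eq_mul_inv]
      ring
    rw [h2, intervalIntegral.integral_mul_const, intervalIntegral.integral_sub hHi hLi] at hzero
    rcases mul_eq_zero.mp hzero with h3 | h3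
    · exact sub_eq_zero.mp h3
    · exact absurd h3 (inv_ne_zero hIs)
  -- step 2
  have h2 : ‖∫ u in A..B, L u‖ ≤ (B - A) * Real.exp (-(c2 * s.im)) := by
    have h3 := intervalIntegral.norm_integral_le_of_norm_le_const (a := A) (b := B) (f := L)
      (C := Real.exp (-(c2 * s.im))) (by
        intro u hu
        rw [Set.uIoc_of_le hAB] at hu
        rw [hLn]
        apply Real.exp_le_exp.mpr
        have := hlo2 u ⟨hu.1.le, hu.2⟩
        nlinarith)
    rw [abs_of_pos (by linarith)] at h3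
    linarith
  -- step 3
  have hdec : ∀ u : ℝ, Real.exp (s.im * (-(c * |u|))) ≤ Real.exp (-(c * σ0 / 2 * |u|)) := by
    intro u
    apply Real.exp_le_exp.mpr
    have h5 := mul_nonneg hc.le (abs_nonneg u)
    nlinarith [mul_nonneg h5 (sub_nonneg.mpr hσ), mul_nonneg h5 hσ0.le]
  have hKi := expabs_31109 (c * σ0 / 2) (by positivity)
  have hGc : Continuous G := by
    rw [hG]; fun_prop
  have hGi : Integrable G := by
    apply hKi.mono' hGc.aestronglyMeasurable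
    filter_upwards with u
    rw [hGn]
    refine le_trans (Real.exp_le_exp.mpr ?_) (hdec u)
    exact mul_le_mul_of_nonneg_left (hg u) hs0.le
  have hindi : Integrable ((Set.Ioc A B).indicator Hh) := by
    rw [integrable_indicator_iff measurableSet_Ioc]
    exact (intervalIntegrable_iff_integrableOn_Ioc_of_le hAB).mp hHi
  have h4 : ∫ u, (Set.Ioc A B).indicator Hh u = ∫ u in A..B, Hh u := by
    rw [integral_indicator measurableSet_Ioc, intervalIntegral.integral_of_le hAB]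
  have h5 : ‖∫ u, (G u - (Set.Ioc A B).indicator Hh u)‖ ≤
      ∫ u : ℝ, 2 * Real.exp (-(c * ε / 2 * s.im)) * Real.exp (-(c * σ0 / 2 * |u|)) := by
    apply norm_integral_le_of_norm_le (hKi.const_mul _)
    filter_upwards with u
    rcases le_or_gt |u| ε with hu | hu
    · have hu' := abs_le.mp hu
      have hmem : u ∈ Set.Ioc A B := ⟨by linarith [hu'.1], by linarith [hu'.2]⟩
      rw [Set.indicator_of_mem hmem]
      have h6 : G u = Hh u := by rw [hG, hHh]; simp only [hgh u hu]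
      rw [h6, sub_self, norm_zero]
      positivity
    · have h7 : Real.exp (s.im * (-(c * |u|))) ≤
          Real.exp (-(c * ε / 2 * s.im)) * Real.exp (-(c * σ0 / 2 * |u|)) := by
        rw [← Real.exp_add]
        apply Real.exp_le_exp.mpr
        have h8 := mul_nonneg hc.le (abs_nonneg u)
        have h9 : 0 ≤ c * s.im * (|u| - ε) := by
          have : 0 ≤ |u| - ε := by linarith
          positivity
        nlinarith [mul_nonneg h8 (sub_nonneg.mpr hσ)]
      have h8 : ‖G u‖ ≤ Real.exp (-(c * ε / 2 * s.im)) * Real.exp (-(c * σ0 / 2 * |u|)) := by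
        rw [hGn]
        refine le_trans (Real.exp_le_exp.mpr ?_) h7
        exact mul_le_mul_of_nonneg_left (hg u) hs0.le
      have h9 : ‖(Set.Ioc A B).indicator Hh u‖ ≤ Real.exp (-(c * ε / 2 * s.im)) * Real.exp (-(c * σ0 / 2 * |u|)) := by
        by_cases hmem : u ∈ Set.Ioc A B
        · rw [Set.indicator_of_mem hmem, hHn]
          refine le_trans (Real.exp_le_exp.mpr ?_) h7
          exact mul_le_mul_of_nonneg_left (hle u ⟨hmem.1.le, hmem.2⟩) hs0.le
        · rw [Set.indicator_of_notMem hmem, norm_zero]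
          positivity
      calc ‖G u - (Set.Ioc A B).indicator Hh u‖ ≤ ‖G u‖ + ‖(Set.Ioc A B).indicator Hh u‖ := norm_sub_le _ _
        _ ≤ _ := by linarith
  have hfinG : Integrable (fun u : ℝ => Complex.exp (-(Complex.I * t * u)) * Complex.exp (-(Complex.I * s * g u))) := by
    rw [← hG]; exact hGi
  refine ⟨hfinG, ?_⟩
  have h10 : (∫ u : ℝ, Complex.exp (-(Complex.I * t * u)) * Complex.exp (-(Complex.I * s * g u))) =
      (∫ u in A..B, L u) + ∫ u, (G u - (Set.Ioc A B).indicator Hh u) := by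
    rw [integral_sub hGi hindi, h4, h1, hG]
    ring
  rw [h10]
  rw [integral_const_mul] at h5
  calc _ ≤ ‖∫ u in A..B, L u‖ + ‖∫ u, (G u - (Set.Ioc A B).indicator Hh u)‖ := norm_add_le _ _
    _ ≤ _ := by
      refine add_le_add h2 (h5.trans (le_of_eq ?_))
      ring

theorem lim_31109 (a b : ℝ) (ha : 0 < a) (hb : 0 < b) :
    Filter.Tendsto (fun T : ℝ => T ^ 2 * Real.exp (-(b * T ^ a))) Filter.atTop (nhds 0) := by
  have h1 := (tendsto_rpow_mul_exp_neg_mul_atTop_nhds_zero (2 / a) b hb).comp (tendsto_rpow_atTop ha)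
  apply h1.congr'
  filter_upwards [Filter.eventually_gt_atTop 0] with T hT
  simp only [Function.comp]
  rw [← Real.rpow_mul hT.le, mul_div_cancel₀ _ ha.ne', neg_mul]
  norm_num

/-! TO PROVE -/

theorem kink (A B : ℝ) (hA : A < 0) (hB : 0 < B) (lo hi : ℝ → ℝ)
    (hhi : ConcaveOn ℝ (Set.Icc A B) hi) (hhic : ContinuousOn hi (Set.Icc A B))
    (hloc : ContinuousOn lo (Set.Icc A B)) (c : ℝ) (hc : 0 < c) (hi0 : hi 0 = 0)
    (hle : ∀ u ∈ Set.Icc A B, hi u ≤ -(c * |u|)) (hlo : ∀ u ∈ Set.Icc A B, lo u ≤ hi u)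
    (hlo0 : lo 0 < 0) (a : ℝ) (ha0 : 0 < a) (ha1 : a < 1) (w : ℝ → ℂ) (w1 : ℂ)
    (hw : Filter.Tendsto w Filter.atTop (nhds w1)) (him : 0 < w1.im) (sg : ℝ) (hsg : sg = 1 ∨ sg = -1) :
    ∀ᶠ T : ℝ in Filter.atTop,
      (∫ u in A..B, Complex.exp (-(Complex.I * ((sg * T : ℝ) : ℂ) * u)) *
        ∫ x in (lo u)..(hi u), Complex.exp (-(Complex.I * (((T ^ a : ℝ) : ℂ) * w T) * x))) ≠ 0 := by
  obtain ⟨pp, pm, hpp, hpm, hloc'⟩ := concave_local A B hA hB hi hhi c hc hi0 hle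
  obtain ⟨P, hP⟩ : ∃ P : ℝ, P = |pp| + |pm| + 1 := ⟨_, rfl⟩
  have hP0 : 0 < P := by rw [hP]; positivity
  have hppP : |pp| ≤ P := by rw [hP]; linarith [abs_nonneg pm]
  have hpmP : |pm| ≤ P := by rw [hP]; linarith [abs_nonneg pp]
  have hw1 : 0 < ‖w1‖ := by
    apply norm_pos_iff.mpr
    intro h; rw [h] at him; simp at him
  obtain ⟨c1, hc1d⟩ : ∃ c1 : ℝ, c1 = w1.im / (4 * ‖w1‖) := ⟨_, rfl⟩
  have hc1 : 0 < c1 := by rw [hc1d]; positivity
  obtain ⟨C1, hC1, hcmp⟩ := kink_cmp c c1 P hc hc1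
  obtain ⟨C2, hC2, hex⟩ := kink_exact c c1 P hc hc1 hP0
  obtain ⟨δ, hδ⟩ : ∃ δ : ℝ, δ = min (min 1 (c / 4)) (C2 / (2 * C1)) := ⟨_, rfl⟩
  have hδ0 : 0 < δ := by rw [hδ]; positivity
  have hδ1 : δ ≤ 1 := by rw [hδ]; exact (min_le_left _ _).trans (min_le_left _ _)
  have hδc : δ < c / 2 := by
    have : δ ≤ c / 4 := by rw [hδ]; exact (min_le_left _ _).trans (min_le_right _ _)
    linarith
  have hδC : C1 * δ ≤ C2 / 2 := by
    have h1 : δ ≤ C2 / (2 * C1) := by rw [hδ]; exact min_le_right _ _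
    calc C1 * δ ≤ C1 * (C2 / (2 * C1)) := mul_le_mul_of_nonneg_left h1 hC1.le
      _ = C2 / 2 := by field_simp
  obtain ⟨ε, g, hε, hεB, hεA, hgconc, hg0, hgr, hgl, hgle, hgeq⟩ := hloc' δ hδ0 hδc
  have hgc : Continuous g := by
    rw [← continuousOn_univ]
    exact ConcaveOn.continuousOn isOpen_univ hgconc
  -- bound for lo
  obtain ⟨c2, hc2, hlo2⟩ : ∃ c2 : ℝ, 0 < c2 ∧ ∀ u ∈ Set.Icc A B, lo u ≤ -c2 := by
    have hne : (Set.Icc A B).Nonempty := ⟨0, hA.le, hB.le⟩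
    obtain ⟨u0, hu0, hmax⟩ := isCompact_Icc.exists_isMaxOn hne hloc
    refine ⟨-(lo u0), ?_, fun u hu => by rw [neg_neg]; exact hmax hu⟩
    rcases eq_or_ne u0 0 with h | h
    · rw [h]; linarith
    · have h1 := hlo u0 hu0
      have h2 := hle u0 hu0
      have h3 : 0 < c * |u0| := by positivity
      linarith
  -- eventual facts
  have hwn : Filter.Tendsto (fun T => ‖w T‖) Filter.atTop (nhds ‖w1‖) := hw.norm
  have hwi : Filter.Tendsto (fun T => (w T).im) Filter.atTop (nhds w1.im) :=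
    (Complex.continuous_im.tendsto w1).comp hw
  have E1 : ∀ᶠ T in Filter.atTop, ‖w T‖ < 2 * ‖w1‖ := hwn.eventually_lt_const (by linarith)
  have E2 : ∀ᶠ T in Filter.atTop, ‖w1‖ / 2 < ‖w T‖ := hwn.eventually_const_lt (by linarith)
  have E3 : ∀ᶠ T in Filter.atTop, w1.im / 2 < (w T).im := hwi.eventually_const_lt (by linarith)
  have E4 : ∀ᶠ T : ℝ in Filter.atTop, 2 / ‖w1‖ ≤ T ^ a :=
    (tendsto_rpow_atTop ha0).eventually_ge_atTop _
  have E5 : ∀ᶠ T : ℝ in Filter.atTop, 2 * ‖w1‖ ≤ T ^ (1 - a) :=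
    (tendsto_rpow_atTop (by linarith : 0 < 1 - a)).eventually_ge_atTop _
  have E7 := Filter.eventually_gt_atTop (0:ℝ)
  obtain ⟨c3, hc3d⟩ : ∃ c3 : ℝ, c3 = w1.im / 2 := ⟨_, rfl⟩
  have hc3 : 0 < c3 := by rw [hc3d]; linarith
  obtain ⟨σ0, hσ0d⟩ : ∃ σ0 : ℝ, σ0 = c1 := ⟨_, rfl⟩
  obtain ⟨Kc, hKc⟩ : ∃ Kc : ℝ, Kc = ∫ u : ℝ, Real.exp (-(c * c1 / 2 * |u|)) := ⟨_, rfl⟩
  have hKc0 : 0 ≤ Kc := by
    rw [hKc]; exact integral_nonneg (fun u => (Real.exp_pos _).le)
  have E6 : ∀ᶠ T : ℝ in Filter.atTop, (B - A) * (T ^ 2 * Real.exp (-(c2 * c3 * T ^ a))) +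
      2 * Kc * (T ^ 2 * Real.exp (-(c * ε / 2 * c3 * T ^ a))) < C2 / 2 := by
    have h1 := (lim_31109 a (c2 * c3) ha0 (by positivity)).const_mul (B - A)
    have h2 := (lim_31109 a (c * ε / 2 * c3) ha0 (by positivity)).const_mul (2 * Kc)
    have h3 := h1.add h2
    rw [mul_zero, mul_zero, add_zero] at h3
    exact h3.eventually_lt_const (by positivity)
  filter_upwards [E1, E2, E3, E4, E5, E6, E7] with T e1 e2 e3 e4 e5 e6 e7
  intro hzero
  obtain ⟨s, hs⟩ : ∃ s : ℂ, s = ((T ^ a : ℝ) : ℂ) * w T := ⟨_, rfl⟩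
  obtain ⟨t, ht⟩ : ∃ t : ℝ, t = sg * T := ⟨_, rfl⟩
  rw [← hs, ← ht] at hzero
  have hTa : 0 < T ^ a := Real.rpow_pos_of_pos e7 a
  have hsn : ‖s‖ = T ^ a * ‖w T‖ := by
    rw [hs, norm_mul, Complex.norm_real, Real.norm_of_nonneg hTa.le]
  have hsi : s.im = T ^ a * (w T).im := by
    rw [hs, Complex.im_ofReal_mul]
  have hs1 : 1 ≤ ‖s‖ := by
    rw [hsn]
    calc (1:ℝ) = (2 / ‖w1‖) * (‖w1‖ / 2) := by field_simp
      _ ≤ T ^ a * ‖w T‖ := mul_le_mul e4 e2.le (by positivity) hTa.le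
  have htabs : |t| = T := by
    rw [ht, abs_mul, abs_of_pos e7]
    rcases hsg with h | h <;> rw [h] <;> norm_num
  have hTT : T ^ a * T ^ (1 - a) = T := by
    rw [← Real.rpow_add e7, add_sub_cancel, Real.rpow_one]
  have hst : ‖s‖ ≤ |t| := by
    rw [htabs, hsn]
    calc T ^ a * ‖w T‖ ≤ T ^ a * T ^ (1 - a) :=
          mul_le_mul_of_nonneg_left (e1.le.trans e5) hTa.le
      _ = T := hTT
  have hcs : c1 * ‖s‖ ≤ s.im := by
    rw [hsn, hsi, hc1d]
    have h1 : w1.im / (4 * ‖w1‖) * (T ^ a * ‖w T‖) ≤ w1.im / (4 * ‖w1‖) * (T ^ a * (2 * ‖w1‖)) := by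
      apply mul_le_mul_of_nonneg_left _ (by positivity)
      exact mul_le_mul_of_nonneg_left e1.le hTa.le
    have h2 : w1.im / (4 * ‖w1‖) * (T ^ a * (2 * ‖w1‖)) = T ^ a * (w1.im / 2) := by
      field_simp
      ring
    rw [h2] at h1
    exact h1.trans (mul_le_mul_of_nonneg_left e3.le hTa.le)
  have hc1s : c1 ≤ s.im := by
    have : c1 * 1 ≤ c1 * ‖s‖ := mul_le_mul_of_nonneg_left hs1 hc1.le
    linarith
  have hc3s : c3 * T ^ a ≤ s.im := by
    rw [hsi, hc3d, mul_comm]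
    exact mul_le_mul_of_nonneg_left e3.le hTa.le
  obtain ⟨hGi, hcore⟩ := core_31109 A B hA hB lo hi hhic hloc c hc hle c2 hlo2 ε hε hεB hεA g hgc hgle
    hgeq s t c1 hc1 hc1s hzero
  obtain ⟨hBi, hBl⟩ := hex pp pm hppP hpmP hpp hpm s t hs1 hst hcs
  have hcmp' := hcmp δ g pp pm hδ0.le hδ1 hgconc hg0 hppP hpmP hpp hpm hgr hgl hgle s t hs1 hst hcs
  have hsplit : (∫ u : ℝ, Complex.exp (-(Complex.I * t * u)) *
          (Complex.exp (-(Complex.I * s * g u)) - Complex.exp (-(Complex.I * s * Bl pm pp u)))) =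
      (∫ u : ℝ, Complex.exp (-(Complex.I * t * u)) * Complex.exp (-(Complex.I * s * g u))) -
      ∫ u : ℝ, Complex.exp (-(Complex.I * t * u)) * Complex.exp (-(Complex.I * s * Bl pm pp u)) := by
    rw [← integral_sub hGi hBi]
    apply integral_congr_ae
    filter_upwards with u
    ring
  rw [hsplit] at hcmp'
  generalize (∫ u : ℝ, Complex.exp (-(Complex.I * t * u)) * Complex.exp (-(Complex.I * s * g u))) = JG at hcmp' hcore
  generalize (∫ u : ℝ, Complex.exp (-(Complex.I * t * u)) * Complex.exp (-(Complex.I * s * Bl pm pp u))) = JB at hcmp' hBl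
  rw [← hKc] at hcore
  have htri : ‖JB‖ ≤ ‖JG‖ + ‖JG - JB‖ := by
    have := norm_sub_norm_le JB JG
    rw [norm_sub_rev] at this
    linarith
  have ht2 : t ^ 2 = T ^ 2 := by rw [← sq_abs, htabs]
  rw [ht2] at hcmp' hBl
  have hT2 : 0 < T ^ 2 := by positivity
  have hlow : C2 / 2 / T ^ 2 ≤ ‖JG‖ := by
    have h1 : C1 * δ * ‖s‖ / T ^ 2 ≤ C2 / 2 * ‖s‖ / T ^ 2 := by
      apply div_le_div_of_nonneg_right _ hT2.le
      exact mul_le_mul_of_nonneg_right hδC (norm_nonneg _)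
    have h2 : C2 / 2 * ‖s‖ / T ^ 2 ≤ ‖JG‖ := by
      have h3 : C2 * ‖s‖ / T ^ 2 = C2 / 2 * ‖s‖ / T ^ 2 + C2 / 2 * ‖s‖ / T ^ 2 := by ring
      linarith
    refine le_trans ?_ h2
    apply div_le_div_of_nonneg_right _ hT2.le
    have : C2 / 2 * 1 ≤ C2 / 2 * ‖s‖ := mul_le_mul_of_nonneg_left hs1 (by positivity)
    linarith
  have hx1 : Real.exp (-(c2 * s.im)) ≤ Real.exp (-(c2 * c3 * T ^ a)) := by
    apply Real.exp_le_exp.mpr
    have := mul_le_mul_of_nonneg_left hc3s hc2.le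
    linarith
  have hx2 : Real.exp (-(c * ε / 2 * s.im)) ≤ Real.exp (-(c * ε / 2 * c3 * T ^ a)) := by
    apply Real.exp_le_exp.mpr
    have := mul_le_mul_of_nonneg_left hc3s (by positivity : 0 ≤ c * ε / 2)
    linarith
  have hup : ‖JG‖ ≤ (B - A) * Real.exp (-(c2 * c3 * T ^ a)) + 2 * Kc * Real.exp (-(c * ε / 2 * c3 * T ^ a)) := by
    refine hcore.trans (add_le_add ?_ ?_)
    · exact mul_le_mul_of_nonneg_left hx1 (by linarith)
    · exact mul_le_mul_of_nonneg_left hx2 (by positivity)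
  have hfin := hlow.trans hup
  rw [div_le_iff₀ hT2] at hfin
  nlinarith [hfin, e6]

end Helper112.Pf

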