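import Mathlib
import Pool.Agent.Helper112.Pf.Defs3
import Pool.Agent.Helper112.Pf.VChordExists
import Pool.Agent.Helper112.Pf.VNp
import Pool.Agent.Helper112.Pf.VRotIm
import Pool.Agent.Helper112.Pf.WFtChord
import Pool.Agent.Helper112.Pf.WKink

set_option autoImplicit false

namespace Helper112.Pf

open MeasureTheory







/-! TO PROVE -/

theorem corner_mid_case (K : Set (Fin 2 → ℝ)) (hK : IsBody K) (c0 : ℝ) (hn : NCorner K c0)
    (hK1 : ∃ x ∈ K, x 1 < 0) (hK2 : ∃ x ∈ K, 0 < x 1) (c : ℕ → ℕ → ℂ) (M μ D : ℕ) (β : ℝ)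
    (hβ1 : -1 < β) (hβ2 : β < 0)
    (hP : Pivot c M μ D β) (hz : ∀ s t : ℂ, ev c M s t = 0 → FT K ![s, t] = 0) : False := by
  obtain ⟨A, B, lo, hi, hch⟩ := chord_exists K hK
  have hch' := hch
  obtain ⟨hAB, hloc, hhic, hlo_c, hhi_c, hle, hlt, hKeq⟩ := hch
  obtain ⟨hc0, h0K, hcone⟩ := hn
  have hA : A < 0 := by
    obtain ⟨x, hx, hx1⟩ := hK1
    rw [hKeq] at hx
    exact lt_of_le_of_lt hx.1.1 hx1
  have hB : 0 < B := by
    obtain ⟨x, hx, hx1⟩ := hK2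
    rw [hKeq] at hx
    exact lt_of_lt_of_le hx1 hx.1.2
  have hmem : ∀ u ∈ Set.Icc A B, (![hi u, u] : Fin 2 → ℝ) ∈ K := by
    intro u hu
    rw [hKeq]
    exact ⟨hu, hle u hu, le_refl _⟩
  have hhle : ∀ u ∈ Set.Icc A B, hi u ≤ -(c0 * |u|) := by
    intro u hu
    exact hcone _ (hmem u hu)
  have h0mem : (0 : ℝ) ∈ Set.Icc A B := ⟨hA.le, hB.le⟩
  have hi0 : hi 0 = 0 := by
    apply le_antisymm
    · have := hhle 0 h0mem
      simpa using this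
    · have h1 := h0K
      rw [hKeq] at h1
      exact h1.2.2
  have hlo0 : lo 0 < 0 := by
    have := hlt 0 ⟨hA, hB⟩
    rwa [hi0] at this
  obtain ⟨w0, hw0, hk⟩ := np c M μ D β hP 1 one_ne_zero
  obtain ⟨k, hk1⟩ := rot_im w0 hw0 β hβ1 hβ2
  obtain ⟨w, hw1, hw2⟩ := hk k
  have hkink := kink A B hA hB lo hi hhic hhi_c hlo_c c0 hc0 hi0 hhle hle hlo0 (-β) (by linarith)
    (by linarith) w _ hw1 hk1 ((-1) ^ k) (neg_one_pow_eq_or ℝ k)
  obtain ⟨T, hT1, hT2⟩ := (hw2.and hkink).exists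
  apply hT2
  have h1 := hz _ _ hT1
  rw [FT_chord K hK A B lo hi hch'] at h1
  have h2 : (1 * (-1) ^ k * (T : ℂ)) = (((-1) ^ k * T : ℝ) : ℂ) := by
    push_cast
    ring
  rw [h2] at h1
  exact h1

end Helper112.Pf
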