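import Mathlib
import Pool.Agent.Helper112.Pf.Defs3
import Pool.Agent.Helper112.Pf.VPivotUnbounded
import Pool.Agent.Helper112.Pf.WCornerBotCase
import Pool.Agent.Helper112.Pf.WCornerMidCase
import Pool.Agent.Helper112.Pf.WCornerTopCase

set_option autoImplicit false

namespace Helper112.Pf

open MeasureTheory







/-! TO PROVE -/

theorem corner_levi (K : Set (Fin 2 → ℝ)) (hK : IsBody K) (c0 : ℝ) (hn : NCorner K c0)
    (c : ℕ → ℕ → ℂ) (m : ℕ) (hm : 1 ≤ m) (htop : ∀ i j, m < i + j → c i j = 0)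
    (hm0 : c m 0 ≠ 0) (h0m : c 0 m = 0) (hz : ∀ s t : ℂ, ev c (m + 1) s t = 0 → FT K ![s, t] = 0) :
    ∃ D, D < m + 1 ∧ (∀ i j, D < j → c i j = 0) ∧ ∃ i, 1 ≤ i ∧ i < m + 1 ∧ c i D ≠ 0 := by
  rcases pivot_unbounded c m hm htop hm0 h0m with h | ⟨μ, D, β, hβ1, hβ2, hP⟩
  · exact h
  · exfalso
    by_cases hneg : ∃ x ∈ K, x 1 < 0
    · by_cases hpos : ∃ x ∈ K, 0 < x 1
      · exact corner_mid_case K hK c0 hn hneg hpos c (m + 1) μ D β hβ1 hβ2 hP hz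
      · refine corner_top_case K hK c0 hn (fun x hx => ?_) c (m + 1) μ D β hβ1 hβ2 hP hz
        exact not_lt.1 fun h => hpos ⟨x, hx, h⟩
    · refine corner_bot_case K hK c0 hn (fun x hx => ?_) c (m + 1) μ D β hβ1 hβ2 hP hz
      exact not_lt.1 fun h => hneg ⟨x, hx, h⟩

end Helper112.Pf
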