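import Mathlib
import Pool.Agent.Helper112.Pf.Defs3

set_option autoImplicit false

namespace Helper112.Pf

open MeasureTheory

/-! TO PROVE -/

open Complex in
/-- the first moment of an exponential -/
theorem pf_moment (a : ℂ) (ha : 0 < a.re)
    (hint : IntegrableOn (fun x : ℝ => -(x : ℂ) * Complex.exp (a * x)) (Set.Iic 0)) :
    ∫ x : ℝ in Set.Iic 0, -(x : ℂ) * Complex.exp (a * x) = 1 / a ^ 2 := by
  have ha0 : a ≠ 0 := by
    rintro rfl
    simp at ha
  have hder : ∀ x ∈ Set.Iic (0 : ℝ),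
      HasDerivAt (fun x : ℝ => Complex.exp (a * x) * (1 / a ^ 2 - (x : ℂ) / a))
        (-(x : ℂ) * Complex.exp (a * x)) x := by
    intro x _
    have h1 : HasDerivAt (fun x : ℝ => a * (x : ℂ)) a x := by
      simpa using (Complex.ofRealCLM.hasDerivAt (x := x)).const_mul a
    have h2 := h1.cexp
    have h3 : HasDerivAt (fun x : ℝ => (1 / a ^ 2 - (x : ℂ) / a)) (0 - 1 / a) x :=
      (hasDerivAt_const x (1 / a ^ 2)).sub ((Complex.ofRealCLM.hasDerivAt (x := x)).div_const a)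
    have h4 := h2.mul h3
    refine h4.congr_deriv ?_
    field_simp
    ring
  have hlim : Filter.Tendsto (fun x : ℝ => Complex.exp (a * x) * (1 / a ^ 2 - (x : ℂ) / a))
      Filter.atBot (nhds 0) := by
    have e1 : Filter.Tendsto (fun x : ℝ => Real.exp (a.re * x)) Filter.atBot (nhds 0) :=
      Real.tendsto_exp_atBot.comp (Filter.tendsto_id.const_mul_atBot ha)
    have e2 : Filter.Tendsto (fun x : ℝ => |x| * Real.exp (a.re * x)) Filter.atBot (nhds 0) := by
      have h := (tendsto_rpow_mul_exp_neg_mul_atTop_nhds_zero 1 a.re ha).comp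
        (Filter.tendsto_neg_atBot_atTop (G := ℝ))
      refine h.congr' ?_
      filter_upwards [Filter.eventually_le_atBot (0 : ℝ)] with x hx
      simp only [Function.comp, Real.rpow_one, abs_of_nonpos hx]
      congr 2
      ring
    have e3 : Filter.Tendsto (fun x : ℝ => Real.exp (a.re * x) * ‖1 / a ^ 2‖ +
        (|x| * Real.exp (a.re * x)) * ‖(1 : ℂ) / a‖) Filter.atBot (nhds 0) := by
      have := (e1.mul_const (‖1 / a ^ 2‖)).add (e2.mul_const (‖(1 : ℂ) / a‖))
      simpa using this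
    refine squeeze_zero_norm (fun x => ?_) e3
    rw [norm_mul, Complex.norm_exp]
    have hre : (a * (x : ℂ)).re = a.re * x := by simp
    rw [hre]
    calc Real.exp (a.re * x) * ‖1 / a ^ 2 - (x : ℂ) / a‖
        ≤ Real.exp (a.re * x) * (‖1 / a ^ 2‖ + ‖(x : ℂ) / a‖) := by
          gcongr
          exact norm_sub_le _ _
      _ = _ := by
          have : ‖(x : ℂ) / a‖ = |x| * ‖(1 : ℂ) / a‖ := by
            rw [norm_div, norm_div, Complex.norm_real, norm_one, Real.norm_eq_abs]; ring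
          rw [this]; ring
  rw [integral_Iic_of_hasDerivAt_of_tendsto' hder hint hlim]
  simp

theorem pf_exp_abs (δ : ℝ) (hδ : 0 < δ) : Integrable (fun x : ℝ => Real.exp (-(δ * |x|))) := by
  have h1 : IntegrableOn (fun x : ℝ => Real.exp (-(δ * |x|))) (Set.Iic 0) := by
    refine (integrableOn_exp_mul_Iic hδ 0).congr_fun (fun x hx => ?_) measurableSet_Iic
    have : |x| = -x := abs_of_nonpos hx
    simp only [this]
    congr 1
    ring
  have h2 : IntegrableOn (fun x : ℝ => Real.exp (-(δ * |x|))) (Set.Ioi 0) := by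
    refine (integrableOn_exp_mul_Ioi (neg_lt_zero.2 hδ) 0).congr_fun (fun x hx => ?_)
      measurableSet_Ioi
    have : |x| = x := abs_of_pos hx
    simp only [this]
    congr 1
    ring
  have h3 := h1.union h2
  rwa [Set.Iic_union_Ioi, integrableOn_univ] at h3

/-- the cone -/
def pfC (α1 α2 : ℝ) : Set (ℝ × ℝ) :=
  {p | p.1 < 0 ∧ α1 * (-p.1) < p.2 ∧ p.2 < α2 * (-p.1)}

theorem pfC_meas (α1 α2 : ℝ) : MeasurableSet (pfC α1 α2) := by
  have h : IsOpen (pfC α1 α2) := by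
    have h1 : IsOpen {p : ℝ × ℝ | p.1 < 0} := isOpen_lt continuous_fst continuous_const
    have h2 : IsOpen {p : ℝ × ℝ | α1 * (-p.1) < p.2} := isOpen_lt (by fun_prop) (by fun_prop)
    have h3 : IsOpen {p : ℝ × ℝ | p.2 < α2 * (-p.1)} := isOpen_lt (by fun_prop) (by fun_prop)
    exact h1.inter (h2.inter h3)
  exact h.measurableSet

/-- the integrand -/
noncomputable def pfg (ω : Fin 2 → ℂ) (p : ℝ × ℝ) : ℂ :=
  Complex.exp (-(Complex.I * (p.1 * ω 0 + p.2 * ω 1)))

theorem pfg_cont (ω : Fin 2 → ℂ) : Continuous (pfg ω) := by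
  unfold pfg
  fun_prop

theorem pfg_bound (α1 α2 : ℝ) (ω : Fin 2 → ℂ) (δ : ℝ)
    (h : ∀ α ∈ Set.Icc α1 α2, -(ω 0).im + α * (ω 1).im ≤ -(δ * (1 + |α|)))
    (p : ℝ × ℝ) (hp : p ∈ pfC α1 α2) :
    ‖pfg ω p‖ ≤ Real.exp (-(δ * |p.1|)) * Real.exp (-(δ * |p.2|)) := by
  obtain ⟨h0, h1, h2⟩ := hp
  have hτ : 0 < -p.1 := by linarith
  have hmem : p.2 / (-p.1) ∈ Set.Icc α1 α2 :=
    ⟨(le_div_iff₀ hτ).2 h1.le, (div_le_iff₀ hτ).2 h2.le⟩
  have h3 := h _ hmem
  have h4 := mul_le_mul_of_nonneg_left h3 hτ.le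
  unfold pfg
  rw [Complex.norm_exp, ← Real.exp_add]
  apply Real.exp_le_exp.2
  have hre : (-(Complex.I * (p.1 * ω 0 + p.2 * ω 1))).re = p.1 * (ω 0).im + p.2 * (ω 1).im := by
    simp
  rw [hre]
  have e1 : -p.1 * (-(ω 0).im + p.2 / -p.1 * (ω 1).im) = p.1 * (ω 0).im + p.2 * (ω 1).im := by
    have hp1 : p.1 ≠ 0 := h0.ne
    field_simp
    ring
  have e2 : -p.1 * -(δ * (1 + |p.2 / -p.1|)) = -(δ * |p.1|) + -(δ * |p.2|) := by
    rw [abs_div, abs_of_pos hτ, abs_of_neg h0]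
    have hp1 : p.1 ≠ 0 := h0.ne
    field_simp
    try ring
  rw [e1, e2] at h4
  exact h4

theorem pf_int_WConeInt (α1 α2 : ℝ) (ω : Fin 2 → ℂ) (δ : ℝ) (hδ : 0 < δ)
    (h : ∀ α ∈ Set.Icc α1 α2, -(ω 0).im + α * (ω 1).im ≤ -(δ * (1 + |α|))) :
    IntegrableOn (pfg ω) (pfC α1 α2) := by
  have h1 : Integrable (fun p : ℝ × ℝ => Real.exp (-(δ * |p.1|)) * Real.exp (-(δ * |p.2|))) :=
    (pf_exp_abs δ hδ).mul_prod (pf_exp_abs δ hδ)
  refine Integrable.mono' (h1.integrableOn (s := pfC α1 α2))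
    (pfg_cont ω).aestronglyMeasurable ?_
  exact (ae_restrict_iff' (pfC_meas α1 α2)).2 (Filter.Eventually.of_forall
    (fun p hp => pfg_bound α1 α2 ω δ h p hp))

/-- the inner integral -/
noncomputable def pfG (α1 α2 : ℝ) (ω : Fin 2 → ℂ) (x : ℝ) : ℂ :=
  ∫ y in (α1 * (-x))..(α2 * (-x)), pfg ω (x, y)

theorem pf_inner (α1 α2 : ℝ) (hα : α1 < α2) (ω : Fin 2 → ℂ) (x : ℝ) :
    ∫ y, (pfC α1 α2).indicator (pfg ω) (x, y) = (Set.Iio (0 : ℝ)).indicator (pfG α1 α2 ω) x := by
  by_cases hx : x < 0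
  · rw [Set.indicator_of_mem (show x ∈ Set.Iio (0 : ℝ) from hx)]
    have h1 : (fun y => (pfC α1 α2).indicator (pfg ω) (x, y)) =
        (Set.Ioo (α1 * (-x)) (α2 * (-x))).indicator (fun y => pfg ω (x, y)) := by
      funext y
      by_cases hy : y ∈ Set.Ioo (α1 * (-x)) (α2 * (-x))
      · rw [Set.indicator_of_mem hy, Set.indicator_of_mem]
        exact ⟨hx, hy.1, hy.2⟩
      · rw [Set.indicator_of_notMem hy, Set.indicator_of_notMem]
        exact fun h => hy ⟨h.2.1, h.2.2⟩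
    rw [h1, integral_indicator measurableSet_Ioo, ← integral_Ioc_eq_integral_Ioo]
    unfold pfG
    rw [intervalIntegral.integral_of_le]
    nlinarith
  · rw [Set.indicator_of_notMem (show x ∉ Set.Iio (0 : ℝ) from hx)]
    have h1 : (fun y => (pfC α1 α2).indicator (pfg ω) (x, y)) = fun _ => 0 := by
      funext y
      rw [Set.indicator_of_notMem]
      exact fun h => hx h.1
    rw [h1, integral_zero]

theorem pf_fub (α1 α2 : ℝ) (hα : α1 < α2) (ω : Fin 2 → ℂ) (δ : ℝ) (hδ : 0 < δ)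
    (h : ∀ α ∈ Set.Icc α1 α2, -(ω 0).im + α * (ω 1).im ≤ -(δ * (1 + |α|))) :
    IntegrableOn (pfG α1 α2 ω) (Set.Iic 0) ∧
    ∫ p in pfC α1 α2, pfg ω p = ∫ x in Set.Iic (0 : ℝ), pfG α1 α2 ω x := by
  have hint : Integrable ((pfC α1 α2).indicator (pfg ω)) :=
    (integrable_indicator_iff (pfC_meas α1 α2)).2 (pf_int_WConeInt α1 α2 ω δ hδ h)
  have hint' : Integrable ((pfC α1 α2).indicator (pfg ω))
      ((volume : Measure ℝ).prod (volume : Measure ℝ)) := hint
  constructor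
  · have h2 := hint'.integral_prod_left
    have h3 : (fun x => ∫ y, (pfC α1 α2).indicator (pfg ω) (x, y)) =
        (Set.Iio (0 : ℝ)).indicator (pfG α1 α2 ω) := by
      funext x
      exact pf_inner α1 α2 hα ω x
    rw [h3, integrable_indicator_iff measurableSet_Iio] at h2
    exact (integrableOn_Iic_iff_integrableOn_Iio).2 h2
  · rw [← integral_indicator (pfC_meas α1 α2)]
    have h2 : ∫ p, (pfC α1 α2).indicator (pfg ω) p =
        ∫ x, ∫ y, (pfC α1 α2).indicator (pfg ω) (x, y) := integral_prod _ hint'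
    rw [h2]
    simp_rw [pf_inner α1 α2 hα ω]
    rw [integral_indicator measurableSet_Iio, integral_Iic_eq_integral_Iio]

theorem pf_val (α1 α2 : ℝ) (hα : α1 < α2) (ω : Fin 2 → ℂ) (δ : ℝ) (hδ : 0 < δ)
    (h : ∀ α ∈ Set.Icc α1 α2, -(ω 0).im + α * (ω 1).im ≤ -(δ * (1 + |α|)))
    (hint : IntegrableOn (pfG α1 α2 ω) (Set.Iic 0)) :
    ∫ x in Set.Iic (0 : ℝ), pfG α1 α2 ω x ≠ 0 := by
  have hsplit : ∀ x y : ℝ, pfg ω (x, y) =
      Complex.exp ((-(Complex.I * ω 0)) * x) * Complex.exp ((-(Complex.I * ω 1)) * y) := by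
    intro x y
    unfold pfg
    rw [← Complex.exp_add]
    congr 1
    ring
  have hG : ∀ x, pfG α1 α2 ω x = Complex.exp ((-(Complex.I * ω 0)) * x) *
      ∫ y in (α1 * (-x))..(α2 * (-x)), Complex.exp ((-(Complex.I * ω 1)) * y) := by
    intro x
    unfold pfG
    simp_rw [hsplit]
    rw [intervalIntegral.integral_const_mul]
  have hαne : ((α2 : ℂ) - α1) ≠ 0 := by
    rw [← Complex.ofReal_sub]
    exact Complex.ofReal_ne_zero.2 (by linarith [hα])
  by_cases h1 : ω 1 = 0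
  · have hG2 : pfG α1 α2 ω = fun x : ℝ => ((α2 : ℂ) - α1) *
        (-(x : ℂ) * Complex.exp ((-(Complex.I * ω 0)) * x)) := by
      funext x
      rw [hG x, h1]
      simp only [mul_zero, neg_zero, zero_mul, Complex.exp_zero, intervalIntegral.integral_const]
      rw [Complex.real_smul]
      push_cast
      ring
    have hre : 0 < (-(Complex.I * ω 0)).re := by
      have h2 := h α1 ⟨le_rfl, hα.le⟩
      rw [h1] at h2
      simp only [Complex.zero_im, mul_zero, add_zero] at h2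
      have h3 : (-(Complex.I * ω 0)).re = (ω 0).im := by simp
      rw [h3]
      have h4 : 0 < δ * (1 + |α1|) := by positivity
      linarith
    have hint2 : IntegrableOn (fun x : ℝ => -(x : ℂ) * Complex.exp ((-(Complex.I * ω 0)) * x))
        (Set.Iic 0) := by
      rw [hG2] at hint
      exact (integrable_const_mul_iff hαne.isUnit _).1 hint
    rw [hG2, integral_const_mul, pf_moment _ hre hint2]
    have ha0 : -(Complex.I * ω 0) ≠ 0 := by
      intro h0
      rw [h0] at hre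
      simp at hre
    exact mul_ne_zero hαne (one_div_ne_zero (pow_ne_zero 2 ha0))
  · have hc : -(Complex.I * ω 1) ≠ 0 := neg_ne_zero.2 (mul_ne_zero Complex.I_ne_zero h1)
    let b : ℝ → ℂ := fun α => -(Complex.I * ω 0) + α * (Complex.I * ω 1)
    have hb : ∀ α ∈ Set.Icc α1 α2, 0 < (b α).re := by
      intro α hα'
      have h2 := h α hα'
      have h3 : (b α).re = (ω 0).im - α * (ω 1).im := by
        simp only [b]
        simp
        ring
      rw [h3]
      have h4 : 0 < δ * (1 + |α|) := by positivity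
      linarith
    have hb1 := hb α1 ⟨le_rfl, hα.le⟩
    have hb2 := hb α2 ⟨hα.le, le_rfl⟩
    have hb1' : b α1 ≠ 0 := by
      intro h0; rw [h0] at hb1; simp at hb1
    have hb2' : b α2 ≠ 0 := by
      intro h0; rw [h0] at hb2; simp at hb2
    have hG2 : pfG α1 α2 ω = fun x : ℝ =>
        (Complex.exp (b α2 * x) - Complex.exp (b α1 * x)) / (-(Complex.I * ω 1)) := by
      funext x
      rw [hG x, integral_exp_mul_complex hc, mul_div_assoc', mul_sub, ← Complex.exp_add,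
        ← Complex.exp_add]
      congr 3
      · congr 1
        simp only [b]
        push_cast
        ring
      · simp only [b]
        push_cast
        ring
    rw [hG2, integral_div, integral_sub (integrableOn_exp_mul_complex_Iic hb2 0)
      (integrableOn_exp_mul_complex_Iic hb1 0), integral_exp_mul_complex_Iic hb2,
      integral_exp_mul_complex_Iic hb1]
    simp only [Complex.ofReal_zero, mul_zero, Complex.exp_zero]
    apply div_ne_zero _ hc
    rw [sub_ne_zero]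
    intro he
    have h5 : b α1 = b α2 := by
      field_simp at he
      exact he
    simp only [b] at h5
    have h6 : ((α2 : ℂ) - α1) * (Complex.I * ω 1) = 0 := by
      linear_combination -h5
    exact (mul_ne_zero hαne (mul_ne_zero Complex.I_ne_zero h1)) h6

theorem cone_int (α1 α2 : ℝ) (hα : α1 < α2) (ω : Fin 2 → ℂ) (δ : ℝ) (hδ : 0 < δ)
    (h : ∀ α ∈ Set.Icc α1 α2, -(ω 0).im + α * (ω 1).im ≤ -(δ * (1 + |α|))) :
    IntegrableOn (fun y : Fin 2 → ℝ => Complex.exp (-(Complex.I * (y 0 * ω 0 + y 1 * ω 1))))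
      {y : Fin 2 → ℝ | y 0 < 0 ∧ α1 * (-(y 0)) < y 1 ∧ y 1 < α2 * (-(y 0))} ∧
    ∫ y in {y : Fin 2 → ℝ | y 0 < 0 ∧ α1 * (-(y 0)) < y 1 ∧ y 1 < α2 * (-(y 0))},
      Complex.exp (-(Complex.I * (y 0 * ω 0 + y 1 * ω 1))) ≠ 0 := by
  have hmp := volume_preserving_finTwoArrow ℝ
  have hme := (MeasurableEquiv.finTwoArrow (α := ℝ)).measurableEmbedding
  obtain ⟨hi, he⟩ := pf_fub α1 α2 hα ω δ hδ h
  constructor
  · exact (hmp.integrableOn_comp_preimage hme).2 (pf_int_WConeInt α1 α2 ω δ hδ h)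
  · have h1 := hmp.setIntegral_preimage_emb hme (pfg ω) (pfC α1 α2)
    have h2 : ∫ y in {y : Fin 2 → ℝ | y 0 < 0 ∧ α1 * (-(y 0)) < y 1 ∧ y 1 < α2 * (-(y 0))},
      Complex.exp (-(Complex.I * (y 0 * ω 0 + y 1 * ω 1))) = ∫ p in pfC α1 α2, pfg ω p := h1
    rw [h2, he]
    exact pf_val α1 α2 hα ω δ hδ h hi

end Helper112.Pf
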