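import Mathlib
import Pool.Agent.Helper112.Pf.Defs3

set_option autoImplicit false

namespace Helper112.Pf

open MeasureTheory





/-! TO PROVE -/

theorem cone_shape_two (K : Set (Fin 2 → ℝ)) (hK : IsBody K) (c : ℝ) (hn : NCorner K c) :
    ∃ x ∈ K, ∃ x' ∈ K, x 0 < 0 ∧ x' 0 < 0 ∧ x 1 / (-(x 0)) < x' 1 / (-(x' 0)) := by
  obtain ⟨-, -, p, hp⟩ := hK
  obtain ⟨hc, h0, hb⟩ := hn
  obtain ⟨ε, hε, hball⟩ := Metric.isOpen_iff.1 isOpen_interior p hp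
  have hpK : p ∈ K := interior_subset hp
  have hle : ∀ x ∈ K, x 0 ≤ 0 := by
    intro x hx
    have h1 := hb x hx
    have h2 : 0 ≤ c * |x 1| := by positivity
    linarith
  have h1 : (![p 0 + ε / 2, p 1] : Fin 2 → ℝ) ∈ K := by
    apply interior_subset
    apply hball
    rw [Metric.mem_ball, dist_pi_lt_iff hε, Fin.forall_fin_two]
    constructor
    · show dist (p 0 + ε / 2) (p 0) < ε
      rw [Real.dist_eq, add_sub_cancel_left, abs_of_pos (by positivity)]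
      linarith
    · show dist (p 1) (p 1) < ε
      rw [dist_self]
      exact hε
  have h2 : (![p 0, p 1 + ε / 2] : Fin 2 → ℝ) ∈ K := by
    apply interior_subset
    apply hball
    rw [Metric.mem_ball, dist_pi_lt_iff hε, Fin.forall_fin_two]
    constructor
    · show dist (p 0) (p 0) < ε
      rw [dist_self]
      exact hε
    · show dist (p 1 + ε / 2) (p 1) < ε
      rw [Real.dist_eq, add_sub_cancel_left, abs_of_pos (by positivity)]
      linarith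
  have h3 := hle _ h1
  have h4 : p 0 + ε / 2 ≤ 0 := h3
  have h5 : p 0 < 0 := by linarith
  refine ⟨p, hpK, _, h2, h5, h5, ?_⟩
  show p 1 / (-(p 0)) < (p 1 + ε / 2) / (-(p 0))
  apply div_lt_div_of_pos_right _ (by linarith)
  linarith

theorem cone_shape_conv (K : Set (Fin 2 → ℝ)) (hKc : Convex ℝ K) (h0 : (0 : Fin 2 → ℝ) ∈ K)
    (x x' y : Fin 2 → ℝ) (hx : x ∈ K) (hx' : x' ∈ K) (hx0 : x 0 < 0) (hx'0 : x' 0 < 0)
    (hy0 : y 0 < 0) (h1 : x 1 / (-(x 0)) < y 1 / (-(y 0))) (h2 : y 1 / (-(y 0)) < x' 1 / (-(x' 0))) :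
    ∃ T0 : ℝ, 0 < T0 ∧ ∀ T : ℝ, T0 ≤ T → (T⁻¹) • y ∈ K := by
  obtain ⟨σ, hσ⟩ : ∃ σ : ℝ, σ = x 1 / (-(x 0)) := ⟨_, rfl⟩
  obtain ⟨σ', hσ'⟩ : ∃ σ' : ℝ, σ' = x' 1 / (-(x' 0)) := ⟨_, rfl⟩
  obtain ⟨s, hs⟩ : ∃ s : ℝ, s = y 1 / (-(y 0)) := ⟨_, rfl⟩
  rw [← hσ, ← hs] at h1
  rw [← hσ', ← hs] at h2
  have ex : x 1 = σ * (-(x 0)) := by
    rw [hσ, div_mul_cancel₀ _ (by linarith : -(x 0) ≠ 0)]
  have ex' : x' 1 = σ' * (-(x' 0)) := by
    rw [hσ', div_mul_cancel₀ _ (by linarith : -(x' 0) ≠ 0)]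
  have ey : y 1 = s * (-(y 0)) := by
    rw [hs, div_mul_cancel₀ _ (by linarith : -(y 0) ≠ 0)]
  have hd : 0 < σ' - σ := by linarith
  have hdn : σ' - σ ≠ 0 := hd.ne'
  have hx0n : x 0 ≠ 0 := hx0.ne
  have hx'0n : x' 0 ≠ 0 := hx'0.ne
  obtain ⟨a, ha⟩ : ∃ a : ℝ, a = (y 0) * (σ' - s) / ((σ' - σ) * (x 0)) := ⟨_, rfl⟩
  obtain ⟨b, hb⟩ : ∃ b : ℝ, b = (y 0) * (s - σ) / ((σ' - σ) * (x' 0)) := ⟨_, rfl⟩
  have ha0 : 0 < a := by
    rw [ha]
    apply div_pos_of_neg_of_neg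
    · exact mul_neg_of_neg_of_pos hy0 (by linarith)
    · exact mul_neg_of_pos_of_neg hd hx0
  have hb0 : 0 < b := by
    rw [hb]
    apply div_pos_of_neg_of_neg
    · exact mul_neg_of_neg_of_pos hy0 (by linarith)
    · exact mul_neg_of_pos_of_neg hd hx'0
  have hax : a * x 0 = (y 0) * (σ' - s) / (σ' - σ) := by
    rw [ha]
    field_simp
  have hbx : b * x' 0 = (y 0) * (s - σ) / (σ' - σ) := by
    rw [hb]
    field_simp
  have hy : y = a • x + b • x' := by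
    funext i
    fin_cases i
    · show y 0 = a * x 0 + b * x' 0
      rw [hax, hbx]
      field_simp
      ring
    · show y 1 = a * x 1 + b * x' 1
      rw [ex, ex', ey]
      have e1 : a * (σ * -(x 0)) + b * (σ' * -(x' 0)) = -(σ * (a * x 0)) - σ' * (b * x' 0) := by ring
      rw [e1, hax, hbx]
      field_simp
      ring
  refine ⟨a + b, by linarith, ?_⟩
  intro T hT
  have hT0 : 0 < T := by linarith
  have hab : 0 < a + b := by linarith
  have hz : (a / (a + b)) • x + (b / (a + b)) • x' ∈ K :=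
    hKc hx hx' (by positivity) (by positivity) (by field_simp)
  have h3 : (T⁻¹) • y = ((a + b) / T) • ((a / (a + b)) • x + (b / (a + b)) • x') := by
    rw [hy, smul_add, smul_add, smul_smul, smul_smul, smul_smul, smul_smul]
    congr 2
    · field_simp
    · field_simp
  rw [h3]
  apply hKc.smul_mem_of_zero_mem h0 hz
  constructor
  · positivity
  · rw [div_le_one hT0]
    exact hT

theorem cone_shape (K : Set (Fin 2 → ℝ)) (hK : IsBody K) (c : ℝ) (hn : NCorner K c) :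
    ∃ α1 α2 : ℝ, α1 < α2 ∧ (∀ x ∈ K, α1 * (-(x 0)) ≤ x 1 ∧ x 1 ≤ α2 * (-(x 0))) ∧
      (∀ y : Fin 2 → ℝ, y 0 < 0 → α1 * (-(y 0)) < y 1 → y 1 < α2 * (-(y 0)) →
        ∃ T0 : ℝ, 0 < T0 ∧ ∀ T : ℝ, T0 ≤ T → (T⁻¹) • y ∈ K) ∧
      (∀ α ∈ Set.Icc α1 α2, ∀ η : Fin 2 → ℝ, ∀ δ : ℝ,
        (∀ x ∈ K, η 0 * x 0 + η 1 * x 1 ≤ -(δ * (|x 0| + |x 1|))) →
        -(η 0) + α * η 1 ≤ -(δ * (1 + |α|))) := by
  obtain ⟨hKcomp, hKc, -⟩ := id hK
  obtain ⟨hc, h0, hb⟩ := id hn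
  obtain ⟨p, hp, p', hp', hp0, hp'0, hpp⟩ := cone_shape_two K hK c hn
  have hle : ∀ x ∈ K, x 0 ≤ 0 := by
    intro x hx
    have h1 := hb x hx
    have h2 : 0 ≤ c * |x 1| := by positivity
    linarith
  obtain ⟨A, hA⟩ : ∃ A : Set ℝ, A = {α | ∃ x ∈ K, x 0 < 0 ∧ α = x 1 / (-(x 0))} := ⟨_, rfl⟩
  have hmem : ∀ x ∈ K, x 0 < 0 → x 1 / (-(x 0)) ∈ A := by
    intro x hx hx0
    rw [hA]
    exact ⟨x, hx, hx0, rfl⟩
  have hne : A.Nonempty := ⟨_, hmem p hp hp0⟩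
  have hbd : ∀ α ∈ A, |α| ≤ 1 / c := by
    intro α hα
    rw [hA] at hα
    obtain ⟨x, hx, hx0, rfl⟩ := hα
    have hx0' : 0 < -(x 0) := by linarith
    rw [abs_div, abs_of_pos hx0', div_le_div_iff₀ hx0' hc]
    have h1 := hb x hx
    linarith
  have hba : BddAbove A := ⟨1 / c, fun α hα => (abs_le.1 (hbd α hα)).2⟩
  have hbb : BddBelow A := ⟨-(1 / c), fun α hα => (abs_le.1 (hbd α hα)).1⟩
  have hlt : sInf A < sSup A :=
    lt_of_le_of_lt (csInf_le hbb (hmem p hp hp0))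
      (lt_of_lt_of_le hpp (le_csSup hba (hmem p' hp' hp'0)))
  have h3 : ∀ y : Fin 2 → ℝ, y 0 < 0 → sInf A * (-(y 0)) < y 1 → y 1 < sSup A * (-(y 0)) →
        ∃ T0 : ℝ, 0 < T0 ∧ ∀ T : ℝ, T0 ≤ T → (T⁻¹) • y ∈ K := by
    intro y hy0 hy1 hy2
    have hy0' : 0 < -(y 0) := by linarith
    have e1 : sInf A < y 1 / (-(y 0)) := by
      rw [lt_div_iff₀ hy0']
      exact hy1
    have e2 : y 1 / (-(y 0)) < sSup A := by
      rw [div_lt_iff₀ hy0']
      exact hy2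
    obtain ⟨σ, hσ, hσ1⟩ := exists_lt_of_csInf_lt hne e1
    obtain ⟨σ', hσ', hσ1'⟩ := exists_lt_of_lt_csSup hne e2
    rw [hA] at hσ hσ'
    obtain ⟨x, hx, hx0, rfl⟩ := hσ
    obtain ⟨x', hx', hx0', rfl⟩ := hσ'
    exact cone_shape_conv K hKc h0 x x' y hx hx' hx0 hx0' hy0 hσ1 hσ1'
  refine ⟨sInf A, sSup A, hlt, ?_, h3, ?_⟩
  · intro x hx
    rcases lt_or_eq_of_le (hle x hx) with hx0 | hx0
    · have hx0' : 0 < -(x 0) := by linarith
      constructor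
      · rw [← le_div_iff₀ hx0']
        exact csInf_le hbb (hmem x hx hx0)
      · rw [← div_le_iff₀ hx0']
        exact le_csSup hba (hmem x hx hx0)
    · have h1 := hb x hx
      rw [hx0] at h1
      have h2 : c * |x 1| ≤ 0 := by linarith
      have h4 : |x 1| ≤ 0 := by
        by_contra hcon
        push Not at hcon
        have := mul_pos hc hcon
        linarith
      have h5 : x 1 = 0 := abs_eq_zero.1 (le_antisymm h4 (abs_nonneg _))
      rw [hx0, h5]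
      simp
  · intro α hα η δ hη
    have hcl : IsClosed {α : ℝ | -(η 0) + α * η 1 ≤ -(δ * (1 + |α|))} := by
      apply isClosed_le
      · fun_prop
      · fun_prop
    have hsub : Set.Ioo (sInf A) (sSup A) ⊆ {α : ℝ | -(η 0) + α * η 1 ≤ -(δ * (1 + |α|))} := by
      intro β hβ
      obtain ⟨T, hT, hTT⟩ := h3 ![-1, β] (by
          show (-1 : ℝ) < 0
          norm_num) (by
          show sInf A * (-(-1)) < β
          rw [neg_neg, mul_one]
          exact hβ.1) (by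
          show β < sSup A * (-(-1))
          rw [neg_neg, mul_one]
          exact hβ.2)
      have h4 := hη _ (hTT T le_rfl)
      have h5 : η 0 * (T⁻¹ * (-1)) + η 1 * (T⁻¹ * β) ≤ -(δ * (|T⁻¹ * (-1)| + |T⁻¹ * β|)) := h4
      have hTi : 0 < T⁻¹ := inv_pos.2 hT
      rw [abs_mul, abs_mul, abs_of_pos hTi, abs_neg, abs_one] at h5
      show -(η 0) + β * η 1 ≤ -(δ * (1 + |β|))
      have h6 : T⁻¹ * (-(η 0) + β * η 1) ≤ T⁻¹ * (-(δ * (1 + |β|))) := by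
        have e1 : T⁻¹ * (-(η 0) + β * η 1) = η 0 * (T⁻¹ * (-1)) + η 1 * (T⁻¹ * β) := by ring
        have e2 : T⁻¹ * (-(δ * (1 + |β|))) = -(δ * (T⁻¹ * 1 + T⁻¹ * |β|)) := by ring
        rw [e1, e2]
        exact h5
      exact le_of_mul_le_mul_left h6 hTi
    have h7 := closure_minimal hsub hcl
    rw [closure_Ioo hlt.ne] at h7
    exact h7 hα


end Helper112.Pf
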