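import Mathlib
import Pool.Agent.Helper112.Pf.Defs3
import Pool.Agent.Helper112.Pf.WConeInt
import Pool.Agent.Helper112.Pf.WConeShape

set_option autoImplicit false

namespace Helper112.Pf

open MeasureTheory





/-! TO PROVE -/

theorem cn_int1 (a : ℝ) (ha : 0 < a) : Integrable (fun x : ℝ => Real.exp (-(a * |x|))) := by
  refine Integrable.of_integral_ne_zero ?_
  have h := integral_comp_abs (f := fun x : ℝ => Real.exp (-(a * x)))
  have h2 := integral_exp_mul_Ioi (a := -a) (by linarith) 0
  have h3 : ∫ x in Set.Ioi (0 : ℝ), Real.exp (-(a * x)) = 1 / a := by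
    have h4 : (fun x : ℝ => Real.exp (-(a * x))) = fun x : ℝ => Real.exp (-a * x) := by
      ext x
      rw [neg_mul]
    rw [h4, h2, mul_zero, Real.exp_zero, neg_div_neg_eq]
  rw [h, h3]
  positivity

theorem cn_int2 (a : ℝ) (ha : 0 < a) :
    Integrable (fun y : Fin 2 → ℝ => Real.exp (-(a * (|y 0| + |y 1|)))) := by
  have h := Integrable.fintype_prod (ι := Fin 2) (f := fun (_ : Fin 2) (x : ℝ) => Real.exp (-(a * |x|)))
    (μ := fun _ => volume) (fun _ => cn_int1 a ha)
  rw [← volume_pi] at h
  refine h.congr (Filter.Eventually.of_forall fun y => ?_)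
  simp only [Fin.prod_univ_two]
  rw [← Real.exp_add]
  congr 1
  ring

theorem cn_null (p q : ℝ) (h : p ≠ 0 ∨ q ≠ 0) :
    ∀ᵐ y : Fin 2 → ℝ, p * y 0 + q * y 1 ≠ 0 := by
  let L : (Fin 2 → ℝ) →ₗ[ℝ] ℝ := p • LinearMap.proj 0 + q • LinearMap.proj 1
  have hL : ∀ y, L y = p * y 0 + q * y 1 := fun y => rfl
  have hs : LinearMap.ker L ≠ ⊤ := by
    intro htop
    have h1 : L (Pi.single 0 1) = 0 := by
      rw [← LinearMap.mem_ker, htop]
      exact Submodule.mem_top
    have h2 : L (Pi.single 1 1) = 0 := by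
      rw [← LinearMap.mem_ker, htop]
      exact Submodule.mem_top
    rw [hL] at h1 h2
    simp at h1 h2
    rcases h with h | h
    · exact h h1
    · exact h h2
  have h0 := Measure.addHaar_submodule (volume : Measure (Fin 2 → ℝ)) (LinearMap.ker L) hs
  rw [ae_iff]
  refine measure_mono_null (fun y hy => ?_) h0
  simp only [ne_eq, not_not, Set.mem_ofPred_eq] at hy
  rw [SetLike.mem_coe, LinearMap.mem_ker, hL]
  exact hy

theorem cone_nonzero (K : Set (Fin 2 → ℝ)) (hK : IsBody K) (c : ℝ) (hn : NCorner K c)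
    (ζ : ℝ → Fin 2 → ℂ) (ω : Fin 2 → ℂ)
    (hζ : ∀ i, Filter.Tendsto (fun T : ℝ => ζ T i / (T : ℂ)) Filter.atTop (nhds (ω i)))
    (δ : ℝ) (hδ : 0 < δ)
    (hω : ∀ x ∈ K, (ω 0).im * x 0 + (ω 1).im * x 1 ≤ -(δ * (|x 0| + |x 1|))) :
    ∀ᶠ T : ℝ in Filter.atTop, FT K (ζ T) ≠ 0 := by
  obtain ⟨α1, α2, hα, P1, P2, P3⟩ := cone_shape K hK c hn
  obtain ⟨hWint, hW0⟩ := cone_int α1 α2 hα ω δ hδ
    (fun α hα' => P3 α hα' (fun i => (ω i).im) δ hω)
  set W : Set (Fin 2 → ℝ) := {y : Fin 2 → ℝ | y 0 < 0 ∧ α1 * (-(y 0)) < y 1 ∧ y 1 < α2 * (-(y 0))}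
    with hW
  have hWo : MeasurableSet W := by
    refine IsOpen.measurableSet ?_
    refine (isOpen_lt (continuous_apply 0) continuous_const).inter
      ((isOpen_lt (continuous_const.mul (continuous_apply 0).neg) (continuous_apply 1)).inter
        (isOpen_lt (continuous_apply 1) (continuous_const.mul (continuous_apply 0).neg)))
  have hKm : MeasurableSet K := hK.1.isClosed.measurableSet
  -- the rescaled functions
  set g : ℝ → (Fin 2 → ℝ) → ℂ := fun T x => Complex.exp (-(Complex.I * ∑ i, (x i : ℂ) * ζ T i))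
    with hg
  have hgc : ∀ T, Continuous (g T) := by
    intro T
    refine Complex.continuous_exp.comp (Continuous.neg (continuous_const.mul ?_))
    refine continuous_finsetSum _ fun i _ => ?_
    exact (Complex.continuous_ofReal.comp (continuous_apply i)).mul continuous_const
  set F : ℝ → (Fin 2 → ℝ) → ℂ := fun T y => K.indicator (g T) (T⁻¹ • y) with hF
  have hFint : ∀ T, ∫ y, F T y = |T ^ Module.finrank ℝ (Fin 2 → ℝ)| • FT K (ζ T) := by
    intro T
    rw [hF]
    simp only
    rw [Measure.integral_comp_inv_smul, integral_indicator hKm]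
    rfl
  have hgT : ∀ T : ℝ, T ≠ 0 → ∀ y : Fin 2 → ℝ, g T (T⁻¹ • y) =
      Complex.exp (-(Complex.I * (y 0 * (ζ T 0 / T) + y 1 * (ζ T 1 / T)))) := by
    intro T hT y
    rw [hg]
    simp only [Fin.sum_univ_two, Pi.smul_apply, smul_eq_mul]
    congr 3
    push_cast
    have hT' : (T : ℂ) ≠ 0 := by exact_mod_cast hT
    field_simp
  have hlim : Filter.Tendsto (fun T => ∫ y, F T y) Filter.atTop
      (nhds (∫ y, W.indicator
        (fun y : Fin 2 → ℝ => Complex.exp (-(Complex.I * (y 0 * ω 0 + y 1 * ω 1)))) y)) := by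
    refine tendsto_integral_filter_of_dominated_convergence
      (fun y => Real.exp (-((δ / 2) * (|y 0| + |y 1|)))) ?_ ?_ (cn_int2 (δ / 2) (by positivity)) ?_
    · refine Filter.Eventually.of_forall fun T => ?_
      have h1 : Measurable (K.indicator (g T)) := (hgc T).measurable.indicator hKm
      exact (h1.comp (measurable_const_smul T⁻¹)).aestronglyMeasurable
    · have e0 : ∀ i : Fin 2, ∀ᶠ T : ℝ in Filter.atTop,
          |(ζ T i / (T : ℂ)).im - (ω i).im| ≤ δ / 2 := by
        intro i
        have h1 : Filter.Tendsto (fun T : ℝ => (ζ T i / (T : ℂ)).im) Filter.atTop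
            (nhds (ω i).im) := (Complex.continuous_im.tendsto _).comp (hζ i)
        have h2 := (Metric.tendsto_nhds.1 h1) (δ / 2) (by positivity)
        filter_upwards [h2] with T hT
        rw [Real.dist_eq] at hT
        exact hT.le
      filter_upwards [e0 0, e0 1, Filter.eventually_gt_atTop 0] with T h0 h1 hT
      refine Filter.Eventually.of_forall fun y => ?_
      rw [hF]
      simp only
      by_cases hy : T⁻¹ • y ∈ K
      · rw [Set.indicator_of_mem hy, hgT T hT.ne', Complex.norm_exp]
        refine Real.exp_le_exp.2 ?_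
        have hre : (-(Complex.I * ((y 0 : ℂ) * (ζ T 0 / T) + (y 1 : ℂ) * (ζ T 1 / T)))).re =
            y 0 * (ζ T 0 / (T : ℂ)).im + y 1 * (ζ T 1 / (T : ℂ)).im := by
          rw [Complex.neg_re, Complex.I_mul_re, neg_neg, Complex.add_im, Complex.im_ofReal_mul,
            Complex.im_ofReal_mul]
        rw [hre]
        have hω' := hω _ hy
        simp only [Pi.smul_apply, smul_eq_mul] at hω'
        rw [abs_mul, abs_mul, abs_of_pos (inv_pos.2 hT)] at hω'
        have h3 : (ω 0).im * y 0 + (ω 1).im * y 1 ≤ -(δ * (|y 0| + |y 1|)) := by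
          have h4 := mul_le_mul_of_nonneg_left hω' hT.le
          have h5 : T * ((ω 0).im * (T⁻¹ * y 0) + (ω 1).im * (T⁻¹ * y 1)) =
              (ω 0).im * y 0 + (ω 1).im * y 1 := by
            field_simp
          have h6 : T * -(δ * (T⁻¹ * |y 0| + T⁻¹ * |y 1|)) = -(δ * (|y 0| + |y 1|)) := by
            field_simp
          rw [h5, h6] at h4
          exact h4
        have h7 : ∀ (u a b : ℝ), |a - b| ≤ δ / 2 → u * a ≤ b * u + δ / 2 * |u| := by
          intro u a b hab
          have h8 : u * (a - b) ≤ |u| * (δ / 2) :=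
            (le_abs_self _).trans (by rw [abs_mul]; exact mul_le_mul_of_nonneg_left hab (abs_nonneg _))
          linarith
        have h8 := h7 (y 0) _ _ h0
        have h9 := h7 (y 1) _ _ h1
        linarith
      · rw [Set.indicator_of_notMem hy, norm_zero]
        exact (Real.exp_pos _).le
    · filter_upwards [cn_null 1 0 (Or.inl one_ne_zero), cn_null α1 1 (Or.inr one_ne_zero),
        cn_null α2 1 (Or.inr one_ne_zero)] with y hy0 hy1 hy2
      by_cases hyW : y ∈ W
      · rw [Set.indicator_of_mem hyW]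
        obtain ⟨T0, hT0, hT⟩ := P2 y hyW.1 hyW.2.1 hyW.2.2
        have h1 : Filter.Tendsto (fun T : ℝ =>
            Complex.exp (-(Complex.I * ((y 0 : ℂ) * (ζ T 0 / T) + (y 1 : ℂ) * (ζ T 1 / T)))))
            Filter.atTop (nhds (Complex.exp (-(Complex.I * (y 0 * ω 0 + y 1 * ω 1))))) := by
          refine (Complex.continuous_exp.tendsto _).comp ?_
          exact ((tendsto_const_nhds.mul ((tendsto_const_nhds.mul (hζ 0)).add
            (tendsto_const_nhds.mul (hζ 1))))).neg
        refine h1.congr' ?_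
        filter_upwards [Filter.eventually_ge_atTop T0] with T hTT
        rw [hF]
        simp only
        rw [Set.indicator_of_mem (hT T hTT), hgT T (hT0.trans_le hTT).ne']
      · rw [Set.indicator_of_notMem hyW]
        refine (tendsto_const_nhds (x := (0 : ℂ))).congr' ?_
        filter_upwards [Filter.eventually_gt_atTop 0] with T hT
        rw [hF]
        simp only
        rw [Set.indicator_of_notMem]
        intro hy
        apply hyW
        have hTi : 0 < T⁻¹ := inv_pos.2 hT
        have q1 := (P1 _ hy).1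
        have q2 := (P1 _ hy).2
        have q3 := hn.2.2 _ hy
        simp only [Pi.smul_apply, smul_eq_mul] at q1 q2 q3
        have q4 : T⁻¹ * y 0 ≤ 0 := q3.trans (neg_nonpos.2 (mul_nonneg hn.1.le (abs_nonneg _)))
        have r0 : y 0 ≤ 0 := by
          by_contra hcon
          rw [not_le] at hcon
          exact absurd q4 (not_le.2 (mul_pos hTi hcon))
        have r1 : α1 * (-(y 0)) ≤ y 1 := by
          have : T⁻¹ * (α1 * (-(y 0))) ≤ T⁻¹ * y 1 := by linarith
          exact le_of_mul_le_mul_left this hTi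
        have r2 : y 1 ≤ α2 * (-(y 0)) := by
          have : T⁻¹ * y 1 ≤ T⁻¹ * (α2 * (-(y 0))) := by linarith
          exact le_of_mul_le_mul_left this hTi
        refine ⟨lt_of_le_of_ne r0 (fun h => hy0 (by rw [h]; ring)),
          lt_of_le_of_ne r1 (fun h => hy1 (by linarith)),
          lt_of_le_of_ne r2 (fun h => hy2 (by linarith))⟩
  rw [integral_indicator hWo] at hlim
  have hev := hlim.eventually_ne hW0
  filter_upwards [hev] with T hT hcon
  apply hT
  rw [hFint, hcon, smul_zero]

end Helper112.Pf
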