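import Mathlib
import Pool.Agent.Helper112.Pf.Defs3
import Pool.Agent.Helper112.Pf.VRootsCont
import Pool.Agent.Helper112.Pf.WConeNonzero

set_option autoImplicit false

namespace Helper112.Pf

open MeasureTheory







/-! TO PROVE -/

theorem corner_real_lim (m a : ℕ) :
    (a = m → Filter.Tendsto (fun T : ℝ => (T : ℂ) ^ a / (T : ℂ) ^ m) Filter.atTop (nhds 1)) ∧
    (a < m → Filter.Tendsto (fun T : ℝ => (T : ℂ) ^ a / (T : ℂ) ^ m) Filter.atTop (nhds 0)) := by
  constructor
  · rintro rfl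
    apply Filter.Tendsto.congr' _ tendsto_const_nhds
    filter_upwards [Filter.eventually_gt_atTop (0 : ℝ)] with T hT
    have h1 : (T : ℂ) ≠ 0 := by exact_mod_cast hT.ne'
    rw [div_self (pow_ne_zero _ h1)]
  · intro h
    have h1 : Filter.Tendsto (fun x : ℝ => x ^ a / x ^ m) Filter.atTop (nhds 0) :=
      tendsto_pow_div_pow_atTop_zero h
    have h2 := (Complex.continuous_ofReal.tendsto 0).comp h1
    rw [Complex.ofReal_zero] at h2
    refine h2.congr fun T => ?_
    simp

theorem corner_real_sg (K : Set (Fin 2 → ℝ)) (hK : IsBody K) (c0 : ℝ) (hn : NCorner K c0)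
    (c : ℕ → ℕ → ℂ) (m : ℕ) (htop : ∀ i j, m < i + j → c i j = 0)
    (hm0 : c m 0 ≠ 0) (hz : ∀ s t : ℂ, ev c (m + 1) s t = 0 → FT K ![s, t] = 0)
    (ρ : ℂ) (hρ : ∑ i ∈ Finset.range (m + 1), c i (m - i) * ρ ^ i = 0) (sg : ℝ)
    (hsg : sg = 1 ∨ sg = -1) : sg * ρ.im ≤ 0 := by
  classical
  by_contra hcon
  push Not at hcon
  have hsq : (sg : ℂ) * sg = 1 := by
    rcases hsg with h | h <;> rw [h] <;> push_cast <;> ring
  set Q : Polynomial ℂ := ∑ i ∈ Finset.range (m + 1),
    Polynomial.C (c i (m - i) * (sg : ℂ) ^ (m - i)) * Polynomial.X ^ i with hQ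
  have hQev : ∀ z, Q.eval z = ∑ i ∈ Finset.range (m + 1), c i (m - i) * (sg : ℂ) ^ (m - i) * z ^ i := by
    intro z
    rw [hQ, Polynomial.eval_finsetSum]
    refine Finset.sum_congr rfl fun i _ => ?_
    simp
  have hQ0 : Q ≠ 0 := by
    intro h0
    have h1 : Q.coeff m = c m 0 := by
      rw [hQ, Polynomial.finsetSum_coeff]
      rw [Finset.sum_eq_single m]
      · rw [Polynomial.coeff_C_mul, Polynomial.coeff_X_pow, if_pos rfl]
        simp
      · intro i _ hi
        rw [Polynomial.coeff_C_mul, Polynomial.coeff_X_pow, if_neg (fun h => hi h.symm), mul_zero]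
      · intro h
        exact absurd (Finset.mem_range.2 (Nat.lt_succ_self m)) h
    rw [h0, Polynomial.coeff_zero] at h1
    exact hm0 h1.symm
  obtain ⟨z1, hz1⟩ : ∃ z1, Q.eval z1 ≠ 0 := by
    by_contra h
    push Not at h
    exact hQ0 (Polynomial.funext fun z => by rw [h z, Polynomial.eval_zero])
  have hQρ : Q.eval ((sg : ℂ) * ρ) = 0 := by
    rw [hQev]
    have h1 : ∀ i ∈ Finset.range (m + 1), c i (m - i) * (sg : ℂ) ^ (m - i) * ((sg : ℂ) * ρ) ^ i =
        (sg : ℂ) ^ m * (c i (m - i) * ρ ^ i) := by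
      intro i hi
      have hi' : i ≤ m := Nat.lt_succ_iff.1 (Finset.mem_range.1 hi)
      have h2 : (sg : ℂ) ^ m = (sg : ℂ) ^ (m - i) * (sg : ℂ) ^ i := by
        rw [← pow_add, Nat.sub_add_cancel hi']
      rw [h2, mul_pow]
      ring
    rw [Finset.sum_congr rfl h1, ← Finset.mul_sum, hρ, mul_zero]
  set f : ℝ → Polynomial ℂ := fun T => ∑ i ∈ Finset.range (m + 1), ∑ j ∈ Finset.range (m + 1),
    Polynomial.C (c i j * (sg : ℂ) ^ j * ((T : ℂ) ^ (i + j) / (T : ℂ) ^ m)) * Polynomial.X ^ i with hf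
  have hfev : ∀ T z, (f T).eval z = ∑ i ∈ Finset.range (m + 1), ∑ j ∈ Finset.range (m + 1),
      c i j * (sg : ℂ) ^ j * ((T : ℂ) ^ (i + j) / (T : ℂ) ^ m) * z ^ i := by
    intro T z
    rw [hf, Polynomial.eval_finsetSum]
    refine Finset.sum_congr rfl fun i _ => ?_
    rw [Polynomial.eval_finsetSum]
    refine Finset.sum_congr rfl fun j _ => ?_
    simp
  have hdeg : ∀ T, (f T).natDegree ≤ m := by
    intro T
    rw [hf]
    apply Polynomial.natDegree_sum_le_of_forall_le
    intro i hi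
    apply Polynomial.natDegree_sum_le_of_forall_le
    intro j _
    exact (Polynomial.natDegree_C_mul_X_pow_le _ _).trans (Nat.lt_succ_iff.1 (Finset.mem_range.1 hi))
  have hlim : ∀ z, Filter.Tendsto (fun T => (f T).eval z) Filter.atTop (nhds (Q.eval z)) := by
    intro z
    have h1 : Q.eval z = ∑ i ∈ Finset.range (m + 1), ∑ j ∈ Finset.range (m + 1),
        (if i + j = m then c i j * (sg : ℂ) ^ j * z ^ i else 0) := by
      rw [hQev]
      refine Finset.sum_congr rfl fun i hi => ?_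
      have hi' : i ≤ m := Nat.lt_succ_iff.1 (Finset.mem_range.1 hi)
      rw [Finset.sum_eq_single (m - i)]
      · rw [if_pos (by omega)]
      · intro j _ hj
        rw [if_neg (by omega)]
      · intro h
        exact absurd (Finset.mem_range.2 (by omega)) h
    rw [h1]
    simp only [hfev]
    apply tendsto_finsetSum
    intro i hi
    apply tendsto_finsetSum
    intro j hj
    rcases lt_trichotomy (i + j) m with h | h | h
    · rw [if_neg h.ne]
      have h2 := ((corner_real_lim m (i + j)).2 h).const_mul (c i j * (sg : ℂ) ^ j)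
      have h3 := h2.mul_const (z ^ i)
      rw [mul_zero, zero_mul] at h3
      exact h3
    · rw [if_pos h]
      have h2 := ((corner_real_lim m (i + j)).1 h).const_mul (c i j * (sg : ℂ) ^ j)
      have h3 := h2.mul_const (z ^ i)
      rw [mul_one] at h3
      exact h3
    · rw [if_neg h.ne', htop i j h]
      simp
  have h0 := hlim ((sg : ℂ) * ρ)
  rw [hQρ] at h0
  obtain ⟨z, hzt, hze⟩ := roots_cont f m hdeg ((sg : ℂ) * ρ) z1 (Q.eval z1) hz1 h0 (hlim z1)
  -- zeros of the transform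
  have hFT : ∀ᶠ T : ℝ in Filter.atTop, FT K ![(T : ℂ) * z T, (sg : ℂ) * T] = 0 := by
    filter_upwards [hze, Filter.eventually_gt_atTop (0 : ℝ)] with T hT hT0
    apply hz
    have hTne : (T : ℂ) ≠ 0 := by exact_mod_cast hT0.ne'
    rw [hfev] at hT
    have h2 : ev c (m + 1) ((T : ℂ) * z T) ((sg : ℂ) * T) = (T : ℂ) ^ m *
        ∑ i ∈ Finset.range (m + 1), ∑ j ∈ Finset.range (m + 1),
          c i j * (sg : ℂ) ^ j * ((T : ℂ) ^ (i + j) / (T : ℂ) ^ m) * z T ^ i := by
      unfold ev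
      rw [Finset.mul_sum]
      refine Finset.sum_congr rfl fun i _ => ?_
      rw [Finset.mul_sum]
      refine Finset.sum_congr rfl fun j _ => ?_
      rw [mul_pow, mul_pow, pow_add]
      field_simp
    rw [h2, hT, mul_zero]
  obtain ⟨hc0, hK0, hcone⟩ := hn
  set y : ℝ := sg * ρ.im with hy
  have hne := cone_nonzero K hK c0 ⟨hc0, hK0, hcone⟩ (fun T => ![(T : ℂ) * z T, (sg : ℂ) * T])
    ![(sg : ℂ) * ρ, (sg : ℂ)] (by
      intro i
      fin_cases i
      · apply hzt.congr'
        filter_upwards [Filter.eventually_gt_atTop (0 : ℝ)] with T hT0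
        have hTne : (T : ℂ) ≠ 0 := by exact_mod_cast hT0.ne'
        simp only [Fin.zero_eta, Matrix.cons_val_zero]
        field_simp
      · apply Filter.Tendsto.congr' _ tendsto_const_nhds
        filter_upwards [Filter.eventually_gt_atTop (0 : ℝ)] with T hT0
        have hTne : (T : ℂ) ≠ 0 := by exact_mod_cast hT0.ne'
        simp only [Fin.mk_one, Matrix.cons_val_one, Matrix.cons_val_fin_one]
        field_simp)
    (y / (1 + 1 / c0)) (div_pos hcon (by positivity)) (by
      intro x hx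
      have h1 := hcone x hx
      have h2 : ((![(sg : ℂ) * ρ, (sg : ℂ)] : Fin 2 → ℂ) 0).im = y := by
        simp [hy]
      have h3 : ((![(sg : ℂ) * ρ, (sg : ℂ)] : Fin 2 → ℂ) 1).im = 0 := by
        simp
      rw [h2, h3, zero_mul, add_zero]
      have h4 : 0 ≤ |x 1| := abs_nonneg _
      have h5 : 0 ≤ c0 * |x 1| := mul_nonneg hc0.le h4
      have h6 : |x 0| = - x 0 := abs_of_nonpos (by linarith)
      have h7 : |x 0| + |x 1| ≤ (-x 0) * (1 + 1 / c0) := by
        rw [h6]
        have h8 : |x 1| ≤ (-x 0) / c0 := by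
          rw [le_div_iff₀ hc0]
          linarith
        have h9 : (-x 0) * (1 + 1 / c0) = -x 0 + (-x 0) / c0 := by ring
        rw [h9]
        linarith
      have h10 : 0 < 1 + 1 / c0 := by positivity
      have h11 : y / (1 + 1 / c0) * (|x 0| + |x 1|) ≤ y / (1 + 1 / c0) * ((-x 0) * (1 + 1 / c0)) :=
        mul_le_mul_of_nonneg_left h7 (div_pos hcon h10).le
      have h12 : y / (1 + 1 / c0) * ((-x 0) * (1 + 1 / c0)) = - (y * x 0) := by
        field_simp
      rw [h12] at h11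
      linarith)
  obtain ⟨T, hT1, hT2⟩ := (hFT.and hne).exists
  exact hT2 hT1

theorem corner_real (K : Set (Fin 2 → ℝ)) (hK : IsBody K) (c0 : ℝ) (hn : NCorner K c0)
    (c : ℕ → ℕ → ℂ) (m : ℕ) (hm : 1 ≤ m) (htop : ∀ i j, m < i + j → c i j = 0)
    (hm0 : c m 0 ≠ 0) (hz : ∀ s t : ℂ, ev c (m + 1) s t = 0 → FT K ![s, t] = 0)
    (ρ : ℂ) (hρ : ∑ i ∈ Finset.range (m + 1), c i (m - i) * ρ ^ i = 0) : ρ.im = 0 := by
  have h1 := corner_real_sg K hK c0 hn c m htop hm0 hz ρ hρ 1 (Or.inl rfl)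
  have h2 := corner_real_sg K hK c0 hn c m htop hm0 hz ρ hρ (-1) (Or.inr rfl)
  linarith

end Helper112.Pf
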