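import Mathlib
import Pool.Agent.Helper112.Pf.Defs3
import Pool.Agent.Helper112.Pf.VRootsCont
import Pool.Agent.Helper112.Pf.WConeNonzero

set_option autoImplicit false

namespace Helper112.Pf

open MeasureTheory







/-! TO PROVE -/

theorem corner_top (K : Set (Fin 2 → ℝ)) (hK : IsBody K) (c0 : ℝ) (hn : NCorner K c0)
    (c : ℕ → ℕ → ℂ) (m : ℕ) (hm : 1 ≤ m) (htop : ∀ i j, m < i + j → c i j = 0)
    (hne : ∃ i j, i + j = m ∧ c i j ≠ 0) (hz : ∀ s t : ℂ, ev c (m + 1) s t = 0 → FT K ![s, t] = 0) :
    c m 0 ≠ 0 := by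
  intro hc0
  classical
  let f : ℝ → Polynomial ℂ := fun T => ∑ i ∈ Finset.range (m + 1), ∑ j ∈ Finset.range (m + 1),
    Polynomial.C (c i j * (Complex.I * (T : ℂ)) ^ (i + j) / (Complex.I * (T : ℂ)) ^ m) * Polynomial.X ^ j
  have hdeg : ∀ T, (f T).natDegree ≤ m := by
    intro T
    apply Polynomial.natDegree_sum_le_of_forall_le
    intro i hi
    apply Polynomial.natDegree_sum_le_of_forall_le
    intro j hj
    refine (Polynomial.natDegree_C_mul_X_pow_le _ _).trans ?_
    have := Finset.mem_range.1 hj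
    omega
  have heval : ∀ (T : ℝ) (w : ℂ), (f T).eval w = ∑ i ∈ Finset.range (m + 1), ∑ j ∈ Finset.range (m + 1),
      (c i j * (Complex.I * (T : ℂ)) ^ (i + j) / (Complex.I * (T : ℂ)) ^ m) * w ^ j := by
    intro T w
    simp only [f, Polynomial.eval_finset_sum, Polynomial.eval_mul, Polynomial.eval_C,
      Polynomial.eval_pow, Polynomial.eval_X]
  have hev : ∀ (T : ℝ) (w : ℂ), (f T).eval w =
      ev c (m + 1) (Complex.I * (T : ℂ)) (Complex.I * (T : ℂ) * w) / (Complex.I * (T : ℂ)) ^ m := by
    intro T w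
    rw [heval, ev, Finset.sum_div]
    refine Finset.sum_congr rfl fun i _ => ?_
    rw [Finset.sum_div]
    refine Finset.sum_congr rfl fun j _ => ?_
    rw [mul_pow (Complex.I * (T : ℂ)) w j, pow_add]
    ring
  let q : ℕ → ℕ → ℂ := fun i j => if i + j = m then c i j else 0
  have hinv : Filter.Tendsto (fun T : ℝ => (Complex.I * (T : ℂ))⁻¹) Filter.atTop (nhds 0) := by
    have h1 : Filter.Tendsto (fun T : ℝ => ((T⁻¹ : ℝ) : ℂ)) Filter.atTop (nhds ((0 : ℝ) : ℂ)) :=
      (Complex.continuous_ofReal.tendsto 0).comp tendsto_inv_atTop_zero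
    have h2 := h1.const_mul (Complex.I)⁻¹
    rw [Complex.ofReal_zero, mul_zero] at h2
    refine h2.congr fun T => ?_
    rw [mul_inv, Complex.ofReal_inv]
  have hlim : ∀ w : ℂ, Filter.Tendsto (fun T : ℝ => (f T).eval w) Filter.atTop
      (nhds (∑ i ∈ Finset.range (m + 1), ∑ j ∈ Finset.range (m + 1), q i j * w ^ j)) := by
    intro w
    simp only [heval]
    refine tendsto_finset_sum _ fun i _ => tendsto_finset_sum _ fun j _ => Filter.Tendsto.mul_const _ ?_
    rcases lt_trichotomy (i + j) m with h | h | h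
    · have hq : q i j = 0 := if_neg h.ne
      rw [hq]
      have h1 := (hinv.pow (m - (i + j))).const_mul (c i j)
      rw [zero_pow (by omega), mul_zero] at h1
      refine h1.congr' ?_
      filter_upwards [Filter.eventually_gt_atTop (0 : ℝ)] with T hT
      have hx : Complex.I * (T : ℂ) ≠ 0 := mul_ne_zero Complex.I_ne_zero (by exact_mod_cast hT.ne')
      have hm' : m = (i + j) + (m - (i + j)) := by omega
      have h3 : (Complex.I * (T : ℂ)) ^ m = (Complex.I * (T : ℂ)) ^ (i + j) *
          (Complex.I * (T : ℂ)) ^ (m - (i + j)) := by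
        rw [← pow_add]
        congr 1
      rw [h3, inv_pow]
      field_simp
    · have hq : q i j = c i j := if_pos h
      rw [hq]
      refine tendsto_const_nhds.congr' ?_
      filter_upwards [Filter.eventually_gt_atTop (0 : ℝ)] with T hT
      have hx : Complex.I * (T : ℂ) ≠ 0 := mul_ne_zero Complex.I_ne_zero (by exact_mod_cast hT.ne')
      rw [h]
      field_simp
    · have hq : q i j = 0 := if_neg h.ne'
      rw [hq, htop i j h]
      simp
  have hQ0 : (∑ i ∈ Finset.range (m + 1), ∑ j ∈ Finset.range (m + 1), q i j * (0 : ℂ) ^ j) = 0 := by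
    apply Finset.sum_eq_zero
    intro i _
    apply Finset.sum_eq_zero
    intro j _
    by_cases hj : j = 0
    · subst hj
      by_cases hi : i = m
      · subst hi
        simp [q, hc0]
      · simp [q, hi]
    · simp [hj]
  obtain ⟨w1, hw1⟩ : ∃ w1 : ℂ, (∑ i ∈ Finset.range (m + 1), ∑ j ∈ Finset.range (m + 1), q i j * w1 ^ j) ≠ 0 := by
    by_contra hcon
    push Not at hcon
    let P : Polynomial ℂ := ∑ i ∈ Finset.range (m + 1), ∑ j ∈ Finset.range (m + 1),
      Polynomial.C (q i j) * Polynomial.X ^ j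
    have hP : P = 0 := by
      apply Polynomial.funext
      intro w
      rw [Polynomial.eval_zero, ← hcon w]
      simp only [P, Polynomial.eval_finset_sum, Polynomial.eval_mul, Polynomial.eval_C,
        Polynomial.eval_pow, Polynomial.eval_X]
    obtain ⟨i0, j0, hij, hne0⟩ := hne
    have hco : P.coeff j0 = c i0 j0 := by
      simp only [P, Polynomial.finset_sum_coeff, Polynomial.coeff_C_mul_X_pow]
      rw [Finset.sum_eq_single i0]
      · rw [Finset.sum_eq_single j0]
        · simp [q, hij]
        · intro b _ hb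
          rw [if_neg (Ne.symm hb)]
        · intro hb
          exact absurd (Finset.mem_range.2 (by omega)) hb
      · intro b _ hb
        apply Finset.sum_eq_zero
        intro j _
        by_cases hjj : j0 = j
        · subst hjj
          rw [if_pos rfl]
          exact if_neg (by omega)
        · rw [if_neg hjj]
      · intro hb
        exact absurd (Finset.mem_range.2 (by omega)) hb
    rw [hP, Polynomial.coeff_zero] at hco
    exact hne0 hco.symm
  have hl0 := hlim 0
  rw [hQ0] at hl0
  obtain ⟨z, hz0, hzr⟩ := roots_cont f m hdeg 0 w1 _ hw1 hl0 (hlim w1)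
  have hnz := cone_nonzero K hK c0 hn (fun T => ![Complex.I * (T : ℂ), Complex.I * (T : ℂ) * z T])
    ![Complex.I, 0] (by
      intro i
      fin_cases i
      · simp only [Fin.zero_eta, Matrix.cons_val_zero]
        refine tendsto_const_nhds.congr' ?_
        filter_upwards [Filter.eventually_gt_atTop (0 : ℝ)] with T hT
        have hT' : (T : ℂ) ≠ 0 := by exact_mod_cast hT.ne'
        field_simp
      · simp only [Fin.mk_one, Matrix.cons_val_one, Matrix.cons_val_fin_one]
        have h1 := hz0.const_mul Complex.I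
        rw [mul_zero] at h1
        refine h1.congr' ?_
        filter_upwards [Filter.eventually_gt_atTop (0 : ℝ)] with T hT
        have hT' : (T : ℂ) ≠ 0 := by exact_mod_cast hT.ne'
        field_simp)
    (c0 / (c0 + 1)) (div_pos hn.1 (by linarith [hn.1])) (by
      intro x hx
      have h1 := hn.2.2 x hx
      have hc := hn.1
      have h2 : x 0 ≤ 0 := h1.trans (neg_nonpos.2 (mul_nonneg hc.le (abs_nonneg _)))
      simp only [Matrix.cons_val_zero, Complex.I_im, Matrix.cons_val_one, Complex.zero_im]
      rw [abs_of_nonpos h2]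
      have h3 : c0 / (c0 + 1) * (-x 0 + |x 1|) = (c0 * (-x 0) + c0 * |x 1|) / (c0 + 1) := by ring
      rw [h3]
      have h4 : (c0 * (-x 0) + c0 * |x 1|) / (c0 + 1) ≤ - x 0 := by
        rw [div_le_iff₀ (by linarith)]
        nlinarith
      linarith)
  obtain ⟨T, ⟨hT1, hT2⟩, hT3⟩ := ((hnz.and hzr).and (Filter.eventually_gt_atTop (0 : ℝ))).exists
  apply hT1
  apply hz
  rw [hev, div_eq_zero_iff] at hT2
  rcases hT2 with h | h
  · exact h
  · exfalso
    have hx : Complex.I * (T : ℂ) ≠ 0 := mul_ne_zero Complex.I_ne_zero (by exact_mod_cast hT3.ne')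
    exact pow_ne_zero m hx h

end Helper112.Pf
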