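import Mathlib
import Pool.Agent.Helper112.Pf.Defs3
import Pool.Agent.Helper112.Pf.JFtLinear
import Pool.Agent.Helper112.Pf.VAsymPrism
import Pool.Agent.Helper112.Pf.VBodyLinear
import Pool.Agent.Helper112.Pf.VCoefShear
import Pool.Agent.Helper112.Pf.VPrismLinear
import Pool.Agent.Helper112.Pf.WCornerLevi
import Pool.Agent.Helper112.Pf.WCornerReal
import Pool.Agent.Helper112.Pf.WCornerTop

set_option autoImplicit false

namespace Helper112.Pf

open MeasureTheory







/-! TO PROVE -/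


/-- shear -/
noncomputable def shearEq (r : ℝ) : (Fin 2 → ℝ) ≃ₗ[ℝ] (Fin 2 → ℝ) where
  toFun x := ![x 0, x 1 + r * x 0]
  map_add' x y := by
    ext i
    fin_cases i
    · simp
    · simp; ring
  map_smul' a x := by
    ext i
    fin_cases i
    · simp
    · simp; ring
  invFun x := ![x 0, x 1 - r * x 0]
  left_inv x := by
    ext i
    fin_cases i
    · simp
    · simp
  right_inv x := by
    ext i
    fin_cases i
    · simp
    · simp

theorem shearEq_zero' (r : ℝ) (x : Fin 2 → ℝ) : shearEq r x 0 = x 0 := rfl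
theorem shearEq_one' (r : ℝ) (x : Fin 2 → ℝ) : shearEq r x 1 = x 1 + r * x 0 := rfl

theorem corner_prism0 (K : Set (Fin 2 → ℝ)) (hK : IsBody K) (c0 : ℝ) (hn : NCorner K c0)
    (c : ℕ → ℕ → ℂ) (m : ℕ) (hm : 1 ≤ m) (htop : ∀ i j, m < i + j → c i j = 0)
    (hne : ∃ i j, i + j = m ∧ c i j ≠ 0) (hz : ∀ s t : ℂ, ev c (m + 1) s t = 0 → FT K ![s, t] = 0) :
    IsPrism K := by
  have hm0 : c m 0 ≠ 0 := corner_top K hK c0 hn c m hm htop hne hz
  -- a root
  obtain ⟨ρ, hρ⟩ : ∃ ρ : ℂ, ∑ i ∈ Finset.range (m + 1), c i (m - i) * ρ ^ i = 0 := by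
    let P : Polynomial ℂ := ∑ i ∈ Finset.range (m + 1), Polynomial.C (c i (m - i)) * Polynomial.X ^ i
    have hcoef : P.coeff m = c m 0 := by
      show (∑ i ∈ Finset.range (m + 1), Polynomial.C (c i (m - i)) * Polynomial.X ^ i).coeff m = c m 0
      rw [Polynomial.finset_sum_coeff]
      rw [Finset.sum_eq_single m]
      · rw [Polynomial.coeff_C_mul_X_pow, if_pos rfl, Nat.sub_self]
      · intro b _ hb
        rw [Polynomial.coeff_C_mul_X_pow, if_neg (Ne.symm hb)]
      · intro h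
        exact absurd (Finset.mem_range.mpr (Nat.lt_succ_self m)) h
    have hdeg : 0 < P.degree := by
      have h1 : ((m : ℕ) : WithBot ℕ) ≤ P.degree := Polynomial.le_degree_of_ne_zero (by rw [hcoef]; exact hm0)
      refine lt_of_lt_of_le ?_ h1
      exact_mod_cast hm
    obtain ⟨z, hz'⟩ := Complex.exists_root hdeg
    refine ⟨z, ?_⟩
    have h2 : P.eval z = 0 := hz'
    have h3 : P.eval z = ∑ i ∈ Finset.range (m + 1), c i (m - i) * z ^ i := by
      show (∑ i ∈ Finset.range (m + 1), Polynomial.C (c i (m - i)) * Polynomial.X ^ i).eval z = _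
      rw [Polynomial.eval_finset_sum]
      refine Finset.sum_congr rfl (fun i _ => ?_)
      simp
    rw [← h3]; exact h2
  have him : ρ.im = 0 := corner_real K hK c0 hn c m hm htop hm0 hz ρ hρ
  obtain ⟨r, hr⟩ : ∃ r : ℝ, ρ = (r : ℂ) := ⟨ρ.re, by
    apply Complex.ext
    · simp
    · simp [him]⟩
  obtain ⟨c', ht', hm', h0', hev'⟩ := coef_shear c m htop ρ
  rw [hρ] at h0'
  have hc0 := hn.1
  have hN1 : NCorner (shearEq r '' K) (c0 / (1 + c0 * |r|)) := by
    have hpos : 0 < 1 + c0 * |r| := by positivity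
    refine ⟨by positivity, ⟨0, hn.2.1, map_zero _⟩, ?_⟩
    rintro _ ⟨x, hx, rfl⟩
    rw [shearEq_zero', shearEq_one']
    have h1 := hn.2.2 x hx
    have h2 : x 0 ≤ 0 := by
      have : 0 ≤ c0 * |x 1| := by positivity
      linarith
    have h3 : |x 1 + r * x 0| ≤ |x 1| + |r| * (-x 0) := by
      refine le_trans (abs_add_le _ _) ?_
      rw [abs_mul, abs_of_nonpos h2]
    have h4 : c0 * |x 1 + r * x 0| ≤ (1 + c0 * |r|) * (-x 0) := by
      have := mul_le_mul_of_nonneg_left h3 hc0.le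
      nlinarith
    have h5 : c0 / (1 + c0 * |r|) * |x 1 + r * x 0| ≤ -x 0 := by
      rw [div_mul_eq_mul_div, div_le_iff₀ hpos]
      linarith
    linarith
  have hK1 : IsBody (shearEq r '' K) := body_linear (shearEq r) K hK
  have hz1 : ∀ s t : ℂ, ev c' (m + 1) s t = 0 → FT (shearEq r '' K) ![s, t] = 0 := by
    intro s t h
    rw [hev'] at h
    have h1 := hz _ _ h
    obtain ⟨d, _, hd⟩ := FT_linear (shearEq r) K hK.1 ![s, t] ![s + ρ * t, t] (by
      intro x
      rw [Fin.sum_univ_two, Fin.sum_univ_two, shearEq_zero', shearEq_one', hr]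
      simp
      ring)
    rw [hd, h1, mul_zero]
  obtain ⟨D, hDM, hD, hg⟩ := corner_levi (shearEq r '' K) hK1 _ hN1 c' m hm ht' (by rw [hm']; exact hm0) h0' hz1
  exact prism_linear (shearEq r) K (asym_prism (shearEq r '' K) hK1 c' (m + 1) D hDM hz1 hD hg)

end Helper112.Pf
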