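import Mathlib
import Pool.Agent.Helper112.Pf.Defs3

set_option autoImplicit false

namespace Helper112.Pf

open MeasureTheory



/-! TO PROVE -/

theorem translate_facts {n : ℕ} (K : Set (Fin n → ℝ)) (hK : IsBody K) (a : Fin n → ℝ) :
    IsBody ((fun x => x + a) '' K) ∧
    (∀ ζ : Fin n → ℂ, FT ((fun x => x + a) '' K) ζ =
      Complex.exp (-(Complex.I * ∑ i, (a i : ℂ) * ζ i)) * FT K ζ) ∧
    (IsPrism ((fun x => x + a) '' K) → IsPrism K) := by
  refine ⟨⟨?_, ?_, ?_⟩, ?_, ?_⟩
  · exact hK.1.image (continuous_id.add continuous_const)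
  · have h := hK.2.1.translate a
    have e : (fun x : Fin n → ℝ => x + a) = fun x => a + x := by
      funext x
      exact add_comm x a
    rw [e]
    exact h
  · have e : (fun x : Fin n → ℝ => x + a) '' K = (Homeomorph.addRight a) '' K := rfl
    rw [e, ← Homeomorph.image_interior]
    exact hK.2.2.image _
  · intro ζ
    unfold FT
    have hmp : MeasurePreserving (fun x : Fin n → ℝ => x + a) volume volume :=
      measurePreserving_add_right volume a
    have hme : MeasurableEmbedding (fun x : Fin n → ℝ => x + a) :=
      measurableEmbedding_addRight a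
    rw [hmp.setIntegral_image_emb hme, ← integral_const_mul]
    congr 1
    funext x
    rw [← Complex.exp_add]
    congr 1
    have e : ∑ i, (((x + a) i : ℝ) : ℂ) * ζ i = ∑ i, (x i : ℂ) * ζ i + ∑ i, (a i : ℂ) * ζ i := by
      rw [← Finset.sum_add_distrib]
      refine Finset.sum_congr rfl fun i _ => ?_
      rw [Pi.add_apply, Complex.ofReal_add, add_mul]
    rw [e]
    ring
  · rintro ⟨C, v, l, s, h1, h2, h3⟩
    refine ⟨{y | y + a ∈ C}, v, l, s - ∑ i, l i * a i, h1, ?_, ?_⟩
    · intro y hy
      have h4 := h2 (y + a) hy
      have e : ∑ i, l i * (y + a) i = ∑ i, l i * y i + ∑ i, l i * a i := by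
        rw [← Finset.sum_add_distrib]
        refine Finset.sum_congr rfl fun i _ => ?_
        rw [Pi.add_apply, mul_add]
      rw [e] at h4
      linarith
    · ext x
      constructor
      · intro hx
        have h5 : x + a ∈ (fun x => x + a) '' K := ⟨x, hx, rfl⟩
        rw [h3] at h5
        obtain ⟨y, hy, t, ht, h6⟩ := h5
        refine ⟨y - a, ?_, t, ht, ?_⟩
        · show y - a + a ∈ C
          rw [sub_add_cancel]
          exact hy
        · rw [sub_add_eq_add_sub, ← h6, add_sub_cancel_right]
      · rintro ⟨y, hy, t, ht, rfl⟩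
        have h5 : (y + a) + t • v ∈ (fun x => x + a) '' K := by
          rw [h3]
          exact ⟨y + a, hy, t, ht, rfl⟩
        obtain ⟨z, hz, h6⟩ := h5
        have h7 : z = y + t • v := by
          have h8 : z + a = (y + t • v) + a := by
            rw [show z + a = y + a + t • v from h6]
            abel
          exact add_right_cancel h8
        rw [← h7]
        exact hz

end Helper112.Pf
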