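import Mathlib
import Pool.Agent.Helper112.Pf.Defs3
import Pool.Agent.Helper112.Pf.JFtLinear
import Pool.Agent.Helper112.Pf.VBodyLinear
import Pool.Agent.Helper112.Pf.VCoefOfMv
import Pool.Agent.Helper112.Pf.VPrismLinear
import Pool.Agent.Helper112.Pf.WCornerPrism0
import Pool.Agent.Helper112.Pf.WTranslateFacts

set_option autoImplicit false

namespace Helper112.Pf

open MeasureTheory







/-! TO PROVE -/

/-- rotation-dilation with first row `e` -/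
noncomputable def corner_prism_M (e0 e1 : ℝ) (he : e0 ^ 2 + e1 ^ 2 ≠ 0) :
    (Fin 2 → ℝ) ≃ₗ[ℝ] (Fin 2 → ℝ) where
  toFun x := ![e0 * x 0 + e1 * x 1, -e1 * x 0 + e0 * x 1]
  invFun y := ![(e0 * y 0 - e1 * y 1) / (e0 ^ 2 + e1 ^ 2), (e1 * y 0 + e0 * y 1) / (e0 ^ 2 + e1 ^ 2)]
  map_add' x y := by
    ext i
    fin_cases i
    · change e0 * (x 0 + y 0) + e1 * (x 1 + y 1) = (e0 * x 0 + e1 * x 1) + (e0 * y 0 + e1 * y 1)
      ring
    · change -e1 * (x 0 + y 0) + e0 * (x 1 + y 1) = (-e1 * x 0 + e0 * x 1) + (-e1 * y 0 + e0 * y 1)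
      ring
  map_smul' c x := by
    ext i
    fin_cases i
    · change e0 * (c * x 0) + e1 * (c * x 1) = c * (e0 * x 0 + e1 * x 1)
      ring
    · change -e1 * (c * x 0) + e0 * (c * x 1) = c * (-e1 * x 0 + e0 * x 1)
      ring
  left_inv x := by
    ext i
    fin_cases i
    · change (e0 * (e0 * x 0 + e1 * x 1) - e1 * (-e1 * x 0 + e0 * x 1)) / (e0 ^ 2 + e1 ^ 2) = x 0
      rw [div_eq_iff he]; ring
    · change (e1 * (e0 * x 0 + e1 * x 1) + e0 * (-e1 * x 0 + e0 * x 1)) / (e0 ^ 2 + e1 ^ 2) = x 1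
      rw [div_eq_iff he]; ring
  right_inv y := by
    ext i
    fin_cases i
    · change e0 * ((e0 * y 0 - e1 * y 1) / (e0 ^ 2 + e1 ^ 2)) +
        e1 * ((e1 * y 0 + e0 * y 1) / (e0 ^ 2 + e1 ^ 2)) = y 0
      field_simp; ring
    · change -e1 * ((e0 * y 0 - e1 * y 1) / (e0 ^ 2 + e1 ^ 2)) +
        e0 * ((e1 * y 0 + e0 * y 1) / (e0 ^ 2 + e1 ^ 2)) = y 1
      field_simp; ring

theorem corner_prism_M0 (e0 e1 : ℝ) (he : e0 ^ 2 + e1 ^ 2 ≠ 0) (x : Fin 2 → ℝ) :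
    corner_prism_M e0 e1 he x 0 = e0 * x 0 + e1 * x 1 := rfl

theorem corner_prism_M1 (e0 e1 : ℝ) (he : e0 ^ 2 + e1 ^ 2 ≠ 0) (x : Fin 2 → ℝ) :
    corner_prism_M e0 e1 he x 1 = -e1 * x 0 + e0 * x 1 := rfl

theorem corner_prism (K : Set (Fin 2 → ℝ)) (hK : IsBody K) (x0 p q : Fin 2 → ℝ) (hx0 : x0 ∈ K)
    (hpq : p 0 * q 1 - p 1 * q 0 ≠ 0)
    (hsup : ∀ x ∈ K, ∑ i, p i * x i ≤ ∑ i, p i * x0 i ∧ ∑ i, q i * x i ≤ ∑ i, q i * x0 i)
    (f : MvPolynomial (Fin 2) ℂ) (hf : f.totalDegree ≠ 0) (h : HasFactor f K) : IsPrism K := by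
  obtain ⟨g, _, hg⟩ := h
  obtain ⟨hB1, hFT1, hP1⟩ := translate_facts K hK (-x0)
  apply hP1
  obtain ⟨K1, hK1⟩ : ∃ K1 : Set (Fin 2 → ℝ), K1 = (fun x => x + -x0) '' K := ⟨_, rfl⟩
  rw [← hK1] at hB1 hFT1 ⊢
  have h0 : (0 : Fin 2 → ℝ) ∈ K1 := by
    rw [hK1]
    exact ⟨x0, hx0, by simp⟩
  have hsup1 : ∀ x ∈ K1, p 0 * x 0 + p 1 * x 1 ≤ 0 ∧ q 0 * x 0 + q 1 * x 1 ≤ 0 := by
    intro x hx
    rw [hK1] at hx
    obtain ⟨y, hy, rfl⟩ := hx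
    have h1 := hsup y hy
    simp only [Fin.sum_univ_two] at h1
    simp only [Pi.add_apply, Pi.neg_apply]
    constructor
    · nlinarith [h1.1]
    · nlinarith [h1.2]
  obtain ⟨e0, he0⟩ : ∃ e0 : ℝ, e0 = p 0 + q 0 := ⟨_, rfl⟩
  obtain ⟨e1, he1⟩ : ∃ e1 : ℝ, e1 = p 1 + q 1 := ⟨_, rfl⟩
  have he : e0 ^ 2 + e1 ^ 2 ≠ 0 := by
    intro hcon
    have h1 : e0 = 0 := by nlinarith [sq_nonneg e0, sq_nonneg e1]
    have h2 : e1 = 0 := by nlinarith [sq_nonneg e0, sq_nonneg e1]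
    apply hpq
    have h3 : q 0 = -p 0 := by linarith
    have h4 : q 1 = -p 1 := by linarith
    rw [h3, h4]; ring
  apply prism_linear (corner_prism_M e0 e1 he)
  obtain ⟨c, m, hm, htop, hne, hev⟩ := coef_of_mv f e0 (-e1) e1 e0
    (by intro hcon; apply he; rw [← hcon]; ring) hf
  obtain ⟨al, hal⟩ : ∃ al : ℝ, al = -(e0 * q 0 + e1 * q 1) / (p 0 * q 1 - p 1 * q 0) := ⟨_, rfl⟩
  obtain ⟨be, hbe⟩ : ∃ be : ℝ, be = (e0 * p 0 + e1 * p 1) / (p 0 * q 1 - p 1 * q 0) := ⟨_, rfl⟩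
  have hmm : 0 < |al| + |be| + 1 := by positivity
  refine corner_prism0 _ (body_linear _ K1 hB1) (1 / (|al| + |be| + 1)) ?_ c m hm htop hne ?_
  · refine ⟨by positivity, ⟨0, h0, map_zero _⟩, ?_⟩
    rintro _ ⟨x, hx, rfl⟩
    rw [corner_prism_M0, corner_prism_M1]
    obtain ⟨hp, hq⟩ := hsup1 x hx
    have e3 : -e1 * x 0 + e0 * x 1 = al * (p 0 * x 0 + p 1 * x 1) +
        be * (q 0 * x 0 + q 1 * x 1) := by
      have h1 : al * (p 0 * q 1 - p 1 * q 0) = -(e0 * q 0 + e1 * q 1) := by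
        rw [hal, div_mul_cancel₀ _ hpq]
      have h2 : be * (p 0 * q 1 - p 1 * q 0) = e0 * p 0 + e1 * p 1 := by
        rw [hbe, div_mul_cancel₀ _ hpq]
      apply mul_right_cancel₀ hpq
      linear_combination -(p 0 * x 0 + p 1 * x 1) * h1 - (q 0 * x 0 + q 1 * x 1) * h2
    have e4 : e0 * x 0 + e1 * x 1 = (p 0 * x 0 + p 1 * x 1) + (q 0 * x 0 + q 1 * x 1) := by
      rw [he0, he1]; ring
    have h5 : |-e1 * x 0 + e0 * x 1| ≤
        (|al| + |be| + 1) * (-(e0 * x 0 + e1 * x 1)) := by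
      rw [e3, e4]
      refine (abs_add_le _ _).trans ?_
      rw [abs_mul, abs_mul, abs_of_nonpos hp, abs_of_nonpos hq]
      nlinarith [abs_nonneg al, abs_nonneg be, mul_nonneg (abs_nonneg al) (neg_nonneg.2 hq),
        mul_nonneg (abs_nonneg be) (neg_nonneg.2 hp)]
    have h6 : 1 / (|al| + |be| + 1) * |-e1 * x 0 + e0 * x 1| ≤ -(e0 * x 0 + e1 * x 1) := by
      rw [one_div, inv_mul_le_iff₀ hmm]
      exact h5
    linarith
  · intro s t hst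
    rw [hev] at hst
    obtain ⟨c', _, hc'⟩ := FT_linear (corner_prism_M e0 e1 he) K1 hB1.1 ![s, t]
      ![((e0 : ℝ) : ℂ) * s + ((-e1 : ℝ) : ℂ) * t, ((e1 : ℝ) : ℂ) * s + ((e0 : ℝ) : ℂ) * t] (by
        intro x
        rw [Fin.sum_univ_two, Fin.sum_univ_two, corner_prism_M0, corner_prism_M1]
        simp only [Matrix.cons_val_zero, Matrix.cons_val_one]
        push_cast
        ring)
    rw [hc', hFT1, hg, hst]
    ring

end Helper112.Pf
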