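import Mathlib
import Pool.Agent.Helper112.Pf.MainA
import Pool.Agent.Helper112.Pf.WCornerPrism
import Pool.Agent.Helper112.Pf.WAsymptotePrism

set_option autoImplicit false

namespace Helper112.Pf

/-- The planar set `K` has a point with two different supporting lines (outer normals `p`, `q`). -/
def HasCorner (K : Set (Fin 2 → ℝ)) : Prop :=
  ∃ x0 ∈ K, ∃ p q : Fin 2 → ℝ, p 0 * q 1 - p 1 * q 0 ≠ 0 ∧
    ∀ x ∈ K, ∑ i, p i * x i ≤ ∑ i, p i * x0 i ∧ ∑ i, q i * x i ≤ ∑ i, q i * x0 i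

theorem main_corner (K : Set (Fin 2 → ℝ)) (hK : IsBody K) (hc : HasCorner K) :
    HasPolyFactor K ↔ IsPrism K := by
  constructor
  · rintro ⟨f, hf, h⟩
    obtain ⟨x0, hx0, p, q, hpq, hsup⟩ := hc
    exact corner_prism K hK x0 p q hx0 hpq hsup f hf h
  · intro h
    obtain ⟨p, hp, hf⟩ := prism_factor K hK h
    exact ⟨p, by rw [hp]; norm_num, hf⟩

theorem main_asymptote (K : Set (Fin 2 → ℝ)) (hK : IsBody K) (p : MvPolynomial (Fin 2) ℂ)
    (h : HasFactor p K) (ha : RealAsymptote p) : IsPrism K :=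
  asymptote_prism K hK p h ha

end Helper112.Pf
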