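import Mathlib
import Pool.Agent.Helper112.Pf.Defs5

set_option autoImplicit false

namespace Helper112.Pf

open MeasureTheory





/-! TO PROVE -/

theorem body_prod {m n : ℕ} (K1 : Set (Fin m → ℝ)) (K2 : Set (Fin n → ℝ)) (h1 : IsBody K1)
    (h2 : IsBody K2) : IsBody (Pr K1 K2) := by
  obtain ⟨c1, v1, ⟨p1, hp1⟩⟩ := h1
  obtain ⟨c2, v2, ⟨p2, hp2⟩⟩ := h2
  have hl : ∀ (a : Fin m → ℝ) (b : Fin n → ℝ), (fun i => Fin.append a b (Fin.castAdd n i)) = a :=
    fun a b => funext fun i => Fin.append_left a b i
  have hr : ∀ (a : Fin m → ℝ) (b : Fin n → ℝ), (fun j => Fin.append a b (Fin.natAdd m j)) = b :=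
    fun a b => funext fun j => Fin.append_right a b j
  refine ⟨?_, ?_, ?_⟩
  · have hcont : Continuous (fun x : (Fin m → ℝ) × (Fin n → ℝ) => Fin.append x.1 x.2) := by
      refine continuous_pi fun i => ?_
      refine Fin.addCases (fun i => ?_) (fun j => ?_) i
      · simp only [Fin.append_left]
        exact (continuous_apply i).comp continuous_fst
      · simp only [Fin.append_right]
        exact (continuous_apply j).comp continuous_snd
    have h := (c1.prod c2).image hcont
    have he : (fun x : (Fin m → ℝ) × (Fin n → ℝ) => Fin.append x.1 x.2) '' (K1 ×ˢ K2) =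
        Pr K1 K2 := by
      ext x
      constructor
      · rintro ⟨⟨a, b⟩, ⟨ha, hb⟩, rfl⟩
        refine ⟨?_, ?_⟩
        · show (fun i => Fin.append a b (Fin.castAdd n i)) ∈ K1
          rw [hl]
          exact ha
        · show (fun j => Fin.append a b (Fin.natAdd m j)) ∈ K2
          rw [hr]
          exact hb
      · rintro ⟨ha, hb⟩
        refine ⟨(fun i => x (Fin.castAdd n i), fun j => x (Fin.natAdd m j)), ⟨ha, hb⟩, ?_⟩
        funext i
        refine Fin.addCases (fun i => ?_) (fun j => ?_) i
        · simp only [Fin.append_left]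
        · simp only [Fin.append_right]
    rw [← he]
    exact h
  · intro x hx y hy a b ha hb hab
    exact ⟨v1 hx.1 hy.1 ha hb hab, v2 hx.2 hy.2 ha hb hab⟩
  · refine ⟨Fin.append p1 p2, ?_⟩
    rw [mem_interior]
    refine ⟨{x | (fun i => x (Fin.castAdd n i)) ∈ interior K1 ∧
      (fun j => x (Fin.natAdd m j)) ∈ interior K2}, ?_, ?_, ?_⟩
    · rintro x ⟨ha, hb⟩
      exact ⟨interior_subset ha, interior_subset hb⟩
    · refine IsOpen.inter ?_ ?_
      · exact isOpen_interior.preimage (continuous_pi fun i => continuous_apply _)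
      · exact isOpen_interior.preimage (continuous_pi fun i => continuous_apply _)
    · refine ⟨?_, ?_⟩
      · rw [hl]
        exact hp1
      · rw [hr]
        exact hp2


end Helper112.Pf
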