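import Mathlib
import Pool.Agent.Helper112.Pf.Defs5

set_option autoImplicit false

namespace Helper112.Pf

open MeasureTheory

/-! TO PROVE -/

theorem descend_gen {σ τ : Type} (f : τ → σ) (hf : Function.Injective f)
    (q : MvPolynomial σ ℂ) (hq : q.totalDegree ≠ 0)
    (h : ∀ k, k ∉ Set.range f → MvPolynomial.pderiv k q = 0) :
    ∃ q1 : MvPolynomial τ ℂ, q1.totalDegree ≠ 0 ∧ ∀ ζ : σ → ℂ,
      MvPolynomial.eval ζ q = MvPolynomial.eval (fun i => ζ (f i)) q1 := by
  classical
  have hv : (q.vars : Set σ) ⊆ Set.range f := by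
    intro k hk
    by_contra hcon
    have h1 := h k hcon
    rw [Finset.mem_coe, MvPolynomial.mem_vars] at hk
    obtain ⟨d, hd, hkd⟩ := hk
    rw [MvPolynomial.mem_support_iff] at hd
    rw [Finsupp.mem_support_iff] at hkd
    have h2 := MvPolynomial.coeff_pderiv (i := k) q (d - Finsupp.single k 1)
    rw [h1, MvPolynomial.coeff_zero] at h2
    have h3 : d - Finsupp.single k 1 + Finsupp.single k 1 = d := by
      apply tsub_add_cancel_of_le
      rw [Finsupp.single_le_iff]
      omega
    rw [h3] at h2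
    exact mul_ne_zero hd (Nat.cast_add_one_ne_zero _) h2.symm
  obtain ⟨q1, hq1⟩ := MvPolynomial.exists_rename_eq_of_vars_subset_range q f hf hv
  refine ⟨q1, ?_, ?_⟩
  · intro h0
    apply hq
    have h1 := MvPolynomial.totalDegree_rename_le f q1
    rw [hq1] at h1
    omega
  · intro ζ
    rw [← hq1, MvPolynomial.eval_rename]
    rfl

theorem descend {m n : ℕ} (q : MvPolynomial (Fin (m + n)) ℂ) (hq : q.totalDegree ≠ 0) :
    ((∀ j : Fin n, MvPolynomial.pderiv (Fin.natAdd m j) q = 0) →
      ∃ q1 : MvPolynomial (Fin m) ℂ, q1.totalDegree ≠ 0 ∧ ∀ ζ : Fin (m + n) → ℂ,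
        MvPolynomial.eval ζ q = MvPolynomial.eval (fun i => ζ (Fin.castAdd n i)) q1) ∧
    ((∀ i : Fin m, MvPolynomial.pderiv (Fin.castAdd n i) q = 0) →
      ∃ q2 : MvPolynomial (Fin n) ℂ, q2.totalDegree ≠ 0 ∧ ∀ ζ : Fin (m + n) → ℂ,
        MvPolynomial.eval ζ q = MvPolynomial.eval (fun j => ζ (Fin.natAdd m j)) q2) := by
  constructor
  · intro h
    refine descend_gen (Fin.castAdd n) (Fin.castAdd_injective m n) q hq ?_
    intro k hk
    induction k using Fin.addCases with
    | left i => exact absurd ⟨i, rfl⟩ hk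
    | right j => exact h j
  · intro h
    refine descend_gen (Fin.natAdd m) (Fin.natAdd_injective n m) q hq ?_
    intro k hk
    induction k using Fin.addCases with
    | left i => exact h i
    | right j => exact absurd ⟨j, rfl⟩ hk

end Helper112.Pf
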