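import Mathlib
import Pool.Agent.Helper112.Pf.Defs5

set_option autoImplicit false

namespace Helper112.Pf

open MeasureTheory





/-! TO PROVE -/

theorem FT_prod {m n : ℕ} (K1 : Set (Fin m → ℝ)) (K2 : Set (Fin n → ℝ)) (h1 : IsCompact K1)
    (h2 : IsCompact K2) (ζ : Fin (m + n) → ℂ) :
    FT (Pr K1 K2) ζ = FT K1 (fun i => ζ (Fin.castAdd n i)) * FT K2 (fun j => ζ (Fin.natAdd m j)) := by
  let e := MeasurableEquiv.piCongrLeft (fun _ : Fin (m + n) => ℝ) (finSumFinEquiv (m := m) (n := n))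
  let e2 := MeasurableEquiv.sumPiEquivProdPi (fun _ : Fin m ⊕ Fin n => ℝ)
  let φ : (Fin (m + n) → ℝ) ≃ᵐ (Fin m → ℝ) × (Fin n → ℝ) := e.symm.trans e2
  have hφ : MeasurePreserving φ volume volume := by
    have a1 : MeasurePreserving e volume volume :=
      volume_measurePreserving_piCongrLeft (fun _ : Fin (m + n) => ℝ) (finSumFinEquiv (m := m) (n := n))
    have a2 : MeasurePreserving e2 volume volume :=
      volume_measurePreserving_sumPiEquivProdPi (fun _ : Fin m ⊕ Fin n => ℝ)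
    exact a2.comp (MeasurePreserving.symm e a1)
  have hv : ∀ x, φ x = ((fun i => x (Fin.castAdd n i)), (fun j => x (Fin.natAdd m j))) := by
    intro x
    rfl
  have hpre : Pr K1 K2 = φ ⁻¹' (K1 ×ˢ K2) := by
    ext x
    simp only [Set.mem_preimage, Set.mem_prod, hv]
    rfl
  unfold FT
  have hF : ∀ x : Fin (m + n) → ℝ, Complex.exp (-(Complex.I * ∑ i, (x i : ℂ) * ζ i)) =
      (fun z : (Fin m → ℝ) × (Fin n → ℝ) =>
        Complex.exp (-(Complex.I * ∑ i, (z.1 i : ℂ) * ζ (Fin.castAdd n i))) *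
        Complex.exp (-(Complex.I * ∑ j, (z.2 j : ℂ) * ζ (Fin.natAdd m j)))) (φ x) := by
    intro x
    simp only [hv]
    rw [← Complex.exp_add, Fin.sum_univ_add]
    congr 1
    ring
  simp_rw [hF]
  rw [hpre]
  have key := hφ.setIntegral_preimage_emb φ.measurableEmbedding
    (fun z : (Fin m → ℝ) × (Fin n → ℝ) =>
        Complex.exp (-(Complex.I * ∑ i, (z.1 i : ℂ) * ζ (Fin.castAdd n i))) *
        Complex.exp (-(Complex.I * ∑ j, (z.2 j : ℂ) * ζ (Fin.natAdd m j)))) (K1 ×ˢ K2)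
  refine key.trans ?_
  exact setIntegral_prod_mul (μ := volume) (ν := volume)
    (fun z : Fin m → ℝ => Complex.exp (-(Complex.I * ∑ i, (z i : ℂ) * ζ (Fin.castAdd n i))))
    (fun z : Fin n → ℝ => Complex.exp (-(Complex.I * ∑ j, (z j : ℂ) * ζ (Fin.natAdd m j)))) K1 K2

end Helper112.Pf
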