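import Mathlib
import Pool.Agent.Helper112.Pf.Defs5

set_option autoImplicit false

namespace Helper112.Pf

open MeasureTheory

/-! TO PROVE -/

theorem entire_zero {n : ℕ} (F : (Fin n → ℂ) → ℂ) (hF : Differentiable ℂ F) (p : Fin n → ℂ) (r : ℝ)
    (hr : 0 < r) (h : ∀ z, ‖z - p‖ < r → F z = 0) (z : Fin n → ℂ) : F z = 0 := by
  set g : ℂ → ℂ := fun t => F (p + t • (z - p)) with hg
  have hgd : Differentiable ℂ g := by
    intro t
    have h1 : DifferentiableAt ℂ (fun t : ℂ => p + t • (z - p)) t := by fun_prop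
    exact (hF _).comp t h1
  have han : AnalyticOnNhd ℂ g Set.univ := fun t _ => hgd.analyticAt t
  have hcont : Continuous (fun t : ℂ => t • (z - p)) := by fun_prop
  have hev : g =ᶠ[nhds 0] 0 := by
    have h2 : ∀ᶠ t in nhds (0 : ℂ), ‖t • (z - p)‖ < r := by
      have h3 : Filter.Tendsto (fun t : ℂ => ‖t • (z - p)‖) (nhds 0) (nhds 0) := by
        have := (hcont.norm).tendsto (0 : ℂ)
        simpa using this
      exact h3.eventually (gt_mem_nhds hr)
    filter_upwards [h2] with t ht
    apply h
    rw [add_sub_cancel_left]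
    exact ht
  have h4 := han.eqOn_zero_of_preconnected_of_eventuallyEq_zero isPreconnected_univ
    (Set.mem_univ (0 : ℂ)) hev (Set.mem_univ (1 : ℂ))
  have h5 : g 1 = F z := by simp [hg]
  rw [← h5]
  simpa using h4

end Helper112.Pf
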