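import Mathlib
import Pool.Agent.Helper112.Pf.Defs5

set_option autoImplicit false

namespace Helper112.Pf

open MeasureTheory

/-! TO PROVE -/

theorem not_dvd_pderiv {N : ℕ} (q : MvPolynomial (Fin N) ℂ) (hq : Irreducible q) (k : Fin N)
    (h : MvPolynomial.pderiv k q ≠ 0) : ¬ q ∣ MvPolynomial.pderiv k q := by
  rintro ⟨c, hc⟩
  have hq0 : q ≠ 0 := hq.ne_zero
  have hc0 : c ≠ 0 := by
    rintro rfl
    rw [mul_zero] at hc
    exact h hc
  have h1 : (MvPolynomial.pderiv k q).totalDegree = q.totalDegree + c.totalDegree := by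
    rw [hc]
    exact MvPolynomial.totalDegree_mul_of_isDomain hq0 hc0
  obtain ⟨m, hm, hmd⟩ := Finset.exists_mem_eq_sup (MvPolynomial.pderiv k q).support
    (MvPolynomial.support_nonempty.2 h) (fun s => s.sum fun _ e => e)
  have h2 : (MvPolynomial.pderiv k q).totalDegree = m.sum fun _ e => e := hmd
  have h3 : MvPolynomial.coeff (m + Finsupp.single k 1) q ≠ 0 := by
    intro h0
    rw [MvPolynomial.mem_support_iff, MvPolynomial.coeff_pderiv, h0] at hm
    simp at hm
  have h4 := MvPolynomial.le_totalDegree (MvPolynomial.mem_support_iff.2 h3)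
  rw [Finsupp.sum_add_index' (fun _ => rfl) (fun _ _ _ => rfl), Finsupp.sum_single_index rfl] at h4
  omega

end Helper112.Pf
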