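import Mathlib
import Pool.Agent.Helper112.Pf.Defs5

set_option autoImplicit false

namespace Helper112.Pf

open MeasureTheory

/-! TO PROVE -/

theorem op_contDiff {N : ℕ} (q : MvPolynomial (Fin N) ℂ) :
    ContDiff ℂ 1 (fun z : Fin N → ℂ => MvPolynomial.eval z q) := by
  induction q using MvPolynomial.induction_on with
  | C a => simp only [MvPolynomial.eval_C]; exact contDiff_const
  | add p q hp hq => simp only [map_add]; exact hp.add hq
  | mul_X p i hp =>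
    simp only [map_mul, MvPolynomial.eval_X]
    exact hp.mul (contDiff_apply ℂ ℂ i)

theorem op_deriv {N : ℕ} (q : MvPolynomial (Fin N) ℂ) (k : Fin N) (p : Fin N → ℂ) :
    HasDerivAt (fun x : ℂ => MvPolynomial.eval (p + x • Pi.single k (1 : ℂ)) q)
      (MvPolynomial.eval p (MvPolynomial.pderiv k q)) 0 := by
  induction q using MvPolynomial.induction_on with
  | C a =>
    simp only [MvPolynomial.eval_C, MvPolynomial.pderiv_C, map_zero]
    exact hasDerivAt_const _ _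
  | add p q hp hq => simp only [map_add]; exact hp.add hq
  | mul_X r i hr =>
    simp only [map_mul, MvPolynomial.eval_X]
    have h1 : HasDerivAt (fun x : ℂ => (p + x • Pi.single k (1 : ℂ) : Fin N → ℂ) i)
        ((Pi.single k (1 : ℂ) : Fin N → ℂ) i) 0 := by
      have h2 : HasDerivAt (fun x : ℂ => p i + x * (Pi.single k (1 : ℂ) : Fin N → ℂ) i)
          ((Pi.single k (1 : ℂ) : Fin N → ℂ) i) 0 := by
        simpa using ((hasDerivAt_id (0 : ℂ)).mul_const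
          ((Pi.single k (1 : ℂ) : Fin N → ℂ) i)).const_add (p i)
      exact h2
    have h3 := hr.mul h1
    refine h3.congr_deriv ?_
    rw [Derivation.leibniz, MvPolynomial.pderiv_X]
    simp only [zero_smul, add_zero, smul_eq_mul, map_add, map_mul, MvPolynomial.eval_X]
    by_cases hik : i = k
    · subst hik
      simp
      ring
    · simp [Pi.single_eq_of_ne hik]
      ring

theorem op_general {N : ℕ} (F : (Fin N → ℂ) × ℂ → ℂ) (L : (Fin N → ℂ) × ℂ →L[ℂ] ℂ)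
    (p : Fin N → ℂ) (hFs : HasStrictFDerivAt F L (p, 0)) (hF0 : F (p, 0) = 0)
    (hL : L ((0 : Fin N → ℂ), (1 : ℂ)) ≠ 0) (ε : ℝ) (hε : 0 < ε) :
    ∃ δ : ℝ, 0 < δ ∧ ∀ ζ : Fin N → ℂ, ‖ζ - p‖ < δ → ∃ x : ℂ, ‖x‖ < ε ∧ F (ζ, x) = 0 := by
  have hG : HasStrictFDerivAt (fun z : (Fin N → ℂ) × ℂ => (z.1, F z))
      ((ContinuousLinearMap.fst ℂ (Fin N → ℂ) ℂ).prod L) (p, 0) :=
    hasStrictFDerivAt_fst.prodMk hFs
  have hsurj : ((ContinuousLinearMap.fst ℂ (Fin N → ℂ) ℂ).prod L).range = ⊤ := by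
    rw [LinearMap.range_eq_top]
    rintro ⟨u, t⟩
    refine ⟨(u, (t - L (u, 0)) / L ((0 : Fin N → ℂ), (1 : ℂ))), ?_⟩
    generalize hs : (t - L (u, 0)) / L ((0 : Fin N → ℂ), (1 : ℂ)) = s
    have h1 : ((u, s) : (Fin N → ℂ) × ℂ) = (u, 0) + s • ((0 : Fin N → ℂ), (1 : ℂ)) := by
      ext <;> simp
    have h2 : L (u, s) = t := by
      rw [h1, map_add, map_smul, smul_eq_mul, ← hs, div_mul_cancel₀ _ hL]
      ring
    show (u, L (u, s)) = (u, t)
    rw [h2]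
  have hmap := hG.map_nhds_eq_of_surj hsurj
  have hU : {z : (Fin N → ℂ) × ℂ | ‖z.2‖ < ε} ∈ nhds ((p, 0) : (Fin N → ℂ) × ℂ) := by
    refine IsOpen.mem_nhds (isOpen_lt continuous_snd.norm continuous_const) ?_
    simpa using hε
  have himg : (fun z : (Fin N → ℂ) × ℂ => (z.1, F z)) '' {z : (Fin N → ℂ) × ℂ | ‖z.2‖ < ε} ∈
      nhds ((p, 0) : (Fin N → ℂ) × ℂ) := by
    have h1 := Filter.image_mem_map (m := fun z : (Fin N → ℂ) × ℂ => (z.1, F z)) hU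
    rw [hmap, hF0] at h1
    exact h1
  have hcont : Filter.Tendsto (fun ζ : Fin N → ℂ => ((ζ, 0) : (Fin N → ℂ) × ℂ)) (nhds p)
      (nhds (p, 0)) := (continuous_id.prodMk continuous_const).tendsto p
  obtain ⟨δ, hδ, hb⟩ := Metric.eventually_nhds_iff.1 (hcont himg)
  refine ⟨δ, hδ, fun ζ hζ => ?_⟩
  obtain ⟨z, hz, he⟩ := hb (by rw [dist_eq_norm]; exact hζ)
  have e1 : z.1 = ζ := congrArg Prod.fst he
  have e2 : F z = 0 := congrArg Prod.snd he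
  refine ⟨z.2, hz, ?_⟩
  rw [← e1]
  exact e2

theorem op_strict {N : ℕ} (F : (Fin N → ℂ) × ℂ → ℂ) (hFc : ContDiff ℂ 1 F) (p : Fin N → ℂ) (d : ℂ)
    (hd : HasDerivAt (fun x : ℂ => F (p, x)) d 0) :
    ∃ L : (Fin N → ℂ) × ℂ →L[ℂ] ℂ,
      HasStrictFDerivAt F L (p, 0) ∧ L ((0 : Fin N → ℂ), (1 : ℂ)) = d := by
  have hFs : HasStrictFDerivAt F (fderiv ℂ F (p, 0)) (p, 0) :=
    hFc.contDiffAt.hasStrictFDerivAt (by norm_num)
  refine ⟨_, hFs, ?_⟩
  have h1 : HasDerivAt (fun x : ℂ => ((p, x) : (Fin N → ℂ) × ℂ)) ((0 : Fin N → ℂ), (1 : ℂ)) 0 :=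
    (hasDerivAt_const _ _).prodMk (hasDerivAt_id _)
  have h2 := hFs.hasFDerivAt.comp_hasDerivAt (0 : ℂ) h1
  exact h2.unique hd

theorem op_lin {N : ℕ} (k : Fin N) :
    ContDiff ℂ 1 (fun z : (Fin N → ℂ) × ℂ => z.1 + z.2 • (Pi.single k (1 : ℂ) : Fin N → ℂ)) :=
  contDiff_fst.add (contDiff_snd.smul contDiff_const)

theorem op_F {N : ℕ} (q : MvPolynomial (Fin N) ℂ) (k : Fin N) :
    ContDiff ℂ 1 (fun z : (Fin N → ℂ) × ℂ =>
        MvPolynomial.eval (z.1 + z.2 • (Pi.single k (1 : ℂ) : Fin N → ℂ)) q) :=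
  (op_contDiff q).comp (op_lin k)

theorem open_proj {N : ℕ} (q : MvPolynomial (Fin N) ℂ) (k : Fin N) (p : Fin N → ℂ)
    (h0 : MvPolynomial.eval p q = 0) (hk : MvPolynomial.eval p (MvPolynomial.pderiv k q) ≠ 0)
    (ε : ℝ) (hε : 0 < ε) :
    ∃ δ : ℝ, 0 < δ ∧ ∀ ζ : Fin N → ℂ, ‖ζ - p‖ < δ → ∃ x : ℂ, ‖x‖ < ε ∧
      MvPolynomial.eval (ζ + x • Pi.single k (1 : ℂ)) q = 0 := by
  obtain ⟨L, hFs, hL⟩ := op_strict (fun z : (Fin N → ℂ) × ℂ =>
        MvPolynomial.eval (z.1 + z.2 • (Pi.single k (1 : ℂ) : Fin N → ℂ)) q) (op_F q k) p _ (op_deriv q k p)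
  have h00 : (fun z : (Fin N → ℂ) × ℂ =>
        MvPolynomial.eval (z.1 + z.2 • (Pi.single k (1 : ℂ) : Fin N → ℂ)) q) (p, 0) = 0 := by
    simp only [zero_smul, add_zero]
    exact h0
  have hL0 : L ((0 : Fin N → ℂ), (1 : ℂ)) ≠ 0 := by rw [hL]; exact hk
  exact op_general _ L p hFs h00 hL0 ε hε

end Helper112.Pf
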