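import Mathlib
import Pool.Agent.Helper112.Pf.Defs5
import Pool.Agent.Helper112.Pf.JNull
import Pool.Agent.Helper112.Pf.XEntireZero
import Pool.Agent.Helper112.Pf.XNotDvdPderiv
import Pool.Agent.Helper112.Pf.XOpenProj

set_option autoImplicit false

namespace Helper112.Pf

open MeasureTheory

/-! TO PROVE -/

theorem one_group_ne {m n : ℕ} (i : Fin m) (j : Fin n) : Fin.castAdd n i ≠ Fin.natAdd m j := by
  intro h
  have := congrArg Fin.val h
  simp only [Fin.val_castAdd, Fin.val_natAdd] at this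
  have := i.2
  omega

theorem one_group_norm {m n : ℕ} (u : Fin (m + n) → ℂ) (δ : ℝ) (hδ : 0 < δ)
    (h1 : ∀ i : Fin m, ‖u (Fin.castAdd n i)‖ < δ) (h2 : ∀ j : Fin n, ‖u (Fin.natAdd m j)‖ < δ) :
    ‖u‖ < δ := by
  rw [pi_norm_lt_iff hδ]
  intro k
  induction k using Fin.addCases with
  | left i => exact h1 i
  | right j => exact h2 j

theorem one_group {m n : ℕ} (q : MvPolynomial (Fin (m + n)) ℂ) (hq : Irreducible q)
    (F1 : (Fin m → ℂ) → ℂ) (F2 : (Fin n → ℂ) → ℂ) (h1 : Differentiable ℂ F1) (h2 : Differentiable ℂ F2)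
    (hn1 : ∃ z, F1 z ≠ 0) (hn2 : ∃ z, F2 z ≠ 0)
    (h : ∀ ζ : Fin (m + n) → ℂ, MvPolynomial.eval ζ q = 0 →
      F1 (fun i => ζ (Fin.castAdd n i)) * F2 (fun j => ζ (Fin.natAdd m j)) = 0) :
    (∀ j : Fin n, MvPolynomial.pderiv (Fin.natAdd m j) q = 0) ∨
    (∀ i : Fin m, MvPolynomial.pderiv (Fin.castAdd n i) q = 0) := by
  classical
  by_contra hcon
  rw [not_or] at hcon
  obtain ⟨hj, hi⟩ := hcon
  rw [not_forall] at hj hi
  obtain ⟨j, hj⟩ := hj
  obtain ⟨i, hi⟩ := hi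
  have hprime : Prime q := UniqueFactorizationMonoid.irreducible_iff_prime.mp hq
  have hnd : ¬ q ∣ MvPolynomial.pderiv (Fin.castAdd n i) q * MvPolynomial.pderiv (Fin.natAdd m j) q := by
    intro hd
    rcases hprime.dvd_or_dvd hd with h3 | h3
    · exact not_dvd_pderiv q hq _ hi h3
    · exact not_dvd_pderiv q hq _ hj h3
  obtain ⟨p₀, hp0, hp1⟩ : ∃ p₀ : Fin (m + n) → ℂ, MvPolynomial.eval p₀ q = 0 ∧
      MvPolynomial.eval p₀ (MvPolynomial.pderiv (Fin.castAdd n i) q *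
        MvPolynomial.pderiv (Fin.natAdd m j) q) ≠ 0 := by
    by_contra hc
    apply hnd
    apply null q _ hq
    intro ζ hζ
    by_contra h3
    exact hc ⟨ζ, hζ, h3⟩
  rw [map_mul] at hp1
  have hpi : MvPolynomial.eval p₀ (MvPolynomial.pderiv (Fin.castAdd n i) q) ≠ 0 :=
    left_ne_zero_of_mul hp1
  have hpj : MvPolynomial.eval p₀ (MvPolynomial.pderiv (Fin.natAdd m j) q) ≠ 0 :=
    right_ne_zero_of_mul hp1
  -- a ball where `q_i` does not vanish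
  obtain ⟨ρ, hρ, hball⟩ : ∃ ρ : ℝ, 0 < ρ ∧ ∀ p : Fin (m + n) → ℂ, ‖p - p₀‖ < ρ →
      MvPolynomial.eval p (MvPolynomial.pderiv (Fin.castAdd n i) q) ≠ 0 := by
    have hcont : Continuous fun p : Fin (m + n) → ℂ =>
        MvPolynomial.eval p (MvPolynomial.pderiv (Fin.castAdd n i) q) :=
      MvPolynomial.continuous_eval _
    have hopen : IsOpen {p : Fin (m + n) → ℂ |
        MvPolynomial.eval p (MvPolynomial.pderiv (Fin.castAdd n i) q) ≠ 0} :=
      isOpen_ne_fun hcont continuous_const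
    obtain ⟨ρ, hρ, hsub⟩ := Metric.isOpen_iff.mp hopen p₀ hpi
    refine ⟨ρ, hρ, fun p hp => hsub ?_⟩
    rwa [Metric.mem_ball, dist_eq_norm]
  -- step 1
  obtain ⟨δ, hδ, hδ'⟩ := open_proj q (Fin.natAdd m j) p₀ hp0 hpj (ρ / 2) (half_pos hρ)
  obtain ⟨z, hz, hFz⟩ : ∃ z : Fin m → ℂ, ‖z - fun i => p₀ (Fin.castAdd n i)‖ < min δ (ρ / 2) ∧
      F1 z ≠ 0 := by
    by_contra hc
    obtain ⟨w, hw⟩ := hn1
    apply hw
    apply entire_zero F1 h1 (fun i => p₀ (Fin.castAdd n i)) (min δ (ρ / 2))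
      (lt_min hδ (half_pos hρ))
    intro z hz
    by_contra h3
    exact hc ⟨z, hz, h3⟩
  set ζ : Fin (m + n) → ℂ := Fin.append z (fun j => p₀ (Fin.natAdd m j)) with hζ
  have hζnorm : ‖ζ - p₀‖ < min δ (ρ / 2) := by
    apply one_group_norm _ _ (lt_min hδ (half_pos hρ))
    · intro i
      have h3 := norm_le_pi_norm (z - fun i => p₀ (Fin.castAdd n i)) i
      rw [Pi.sub_apply, hζ, Fin.append_left]
      exact lt_of_le_of_lt h3 hz
    · intro j
      rw [Pi.sub_apply, hζ, Fin.append_right, sub_self, norm_zero]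
      exact lt_min hδ (half_pos hρ)
  obtain ⟨x, hx, hqx⟩ := hδ' ζ (lt_of_lt_of_le hζnorm (min_le_left _ _))
  set p : Fin (m + n) → ℂ := ζ + x • Pi.single (Fin.natAdd m j) (1 : ℂ) with hp
  have hpA : ∀ i : Fin m, p (Fin.castAdd n i) = z i := by
    intro i
    rw [hp, Pi.add_apply, Pi.smul_apply, Pi.single_eq_of_ne (one_group_ne i j), smul_zero, add_zero,
      hζ, Fin.append_left]
  have hpp : ‖p - p₀‖ < ρ := by
    have e : p - p₀ = (ζ - p₀) + x • Pi.single (Fin.natAdd m j) (1 : ℂ) := by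
      rw [hp]; abel
    have e2 : ‖x • (Pi.single (Fin.natAdd m j) (1 : ℂ) : Fin (m + n) → ℂ)‖ ≤ ρ / 2 := by
      rw [norm_smul]
      have : ‖(Pi.single (Fin.natAdd m j) (1 : ℂ) : Fin (m + n) → ℂ)‖ = 1 := by
        rw [Pi.norm_single, norm_one]
      rw [this, mul_one]
      exact hx.le
    rw [e]
    have e3 := norm_add_le (ζ - p₀) (x • (Pi.single (Fin.natAdd m j) (1 : ℂ) : Fin (m + n) → ℂ))
    have e4 := lt_of_lt_of_le hζnorm (min_le_right _ _)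
    linarith
  have hqi : MvPolynomial.eval p (MvPolynomial.pderiv (Fin.castAdd n i) q) ≠ 0 := hball p hpp
  -- step 2
  obtain ⟨ρ₁, hρ₁, hF1⟩ : ∃ ρ₁ : ℝ, 0 < ρ₁ ∧ ∀ w : Fin m → ℂ, ‖w - z‖ < ρ₁ → F1 w ≠ 0 := by
    have hopen : IsOpen {w : Fin m → ℂ | F1 w ≠ 0} :=
      isOpen_ne_fun h1.continuous continuous_const
    obtain ⟨ρ₁, hρ₁, hsub⟩ := Metric.isOpen_iff.mp hopen z hFz
    refine ⟨ρ₁, hρ₁, fun w hw => hsub ?_⟩
    rwa [Metric.mem_ball, dist_eq_norm]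
  obtain ⟨δ₁, hδ₁, hδ₁'⟩ := open_proj q (Fin.castAdd n i) p hqx hqi ρ₁ hρ₁
  obtain ⟨w₂, hw₂⟩ := hn2
  apply hw₂
  apply entire_zero F2 h2 (fun j => p (Fin.natAdd m j)) δ₁ hδ₁
  intro z₂ hz₂
  set ζ₂ : Fin (m + n) → ℂ := Fin.append z z₂ with hζ₂
  have hn : ‖ζ₂ - p‖ < δ₁ := by
    apply one_group_norm _ _ hδ₁
    · intro i
      rw [Pi.sub_apply, hζ₂, Fin.append_left, hpA, sub_self, norm_zero]
      exact hδ₁
    · intro j
      have h3 := norm_le_pi_norm (z₂ - fun j => p (Fin.natAdd m j)) j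
      rw [Pi.sub_apply, hζ₂, Fin.append_right]
      exact lt_of_le_of_lt h3 hz₂
  obtain ⟨y, hy, hqy⟩ := hδ₁' ζ₂ hn
  have h4 := h _ hqy
  have hB : (fun j' : Fin n => (ζ₂ + y • Pi.single (Fin.castAdd n i) (1 : ℂ) : Fin (m + n) → ℂ) (Fin.natAdd m j')) = z₂ := by
    funext j'
    rw [Pi.add_apply, Pi.smul_apply, Pi.single_eq_of_ne (one_group_ne i j').symm, smul_zero, add_zero,
      hζ₂, Fin.append_right]
  have hA : ‖(fun i' : Fin m => (ζ₂ + y • Pi.single (Fin.castAdd n i) (1 : ℂ) : Fin (m + n) → ℂ) (Fin.castAdd n i')) - z‖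
      < ρ₁ := by
    rw [pi_norm_lt_iff hρ₁]
    intro i'
    rw [Pi.sub_apply, Pi.add_apply, Pi.smul_apply, hζ₂, Fin.append_left, add_sub_cancel_left,
      smul_eq_mul, norm_mul]
    have : ‖(Pi.single (Fin.castAdd n i) (1 : ℂ) : Fin (m + n) → ℂ) (Fin.castAdd n i')‖ ≤ 1 := by
      refine (norm_le_pi_norm _ _).trans ?_
      rw [Pi.norm_single, norm_one]
    calc ‖y‖ * ‖(Pi.single (Fin.castAdd n i) (1 : ℂ) : Fin (m + n) → ℂ) (Fin.castAdd n i')‖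
        ≤ ‖y‖ * 1 := mul_le_mul_of_nonneg_left this (norm_nonneg _)
      _ < ρ₁ := by rw [mul_one]; exact hy
  rw [hB] at h4
  rcases mul_eq_zero.mp h4 with h5 | h5
  · exact absurd h5 (hF1 _ hA)
  · exact h5

end Helper112.Pf
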