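import Mathlib
import Pool.Agent.Helper112.Pf.Defs5
import Pool.Agent.Helper112.Pf.JFtDiff
import Pool.Agent.Helper112.Pf.JFtPos
import Pool.Agent.Helper112.Pf.XBodyProd
import Pool.Agent.Helper112.Pf.XDescend
import Pool.Agent.Helper112.Pf.XFtProd
import Pool.Agent.Helper112.Pf.XOneGroup

set_option autoImplicit false

namespace Helper112.Pf

open MeasureTheory





/-! TO PROVE -/

theorem pf_eval_diff {k : ℕ} (r : MvPolynomial (Fin k) ℂ) :
    Differentiable ℂ (fun ζ : Fin k → ℂ => MvPolynomial.eval ζ r) := by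
  induction r using MvPolynomial.induction_on with
  | C a =>
    simp only [MvPolynomial.eval_C]
    exact differentiable_const a
  | add p q hp hq =>
    simp only [map_add]
    exact hp.add hq
  | mul_X p i hp =>
    simp only [map_mul, MvPolynomial.eval_X]
    exact hp.mul (differentiable_apply i)

theorem pf_rename_deg {k l : ℕ} (f : Fin k → Fin l) (hf : Function.Injective f)
    (p : MvPolynomial (Fin k) ℂ) (hp : p.totalDegree ≠ 0) :
    (MvPolynomial.rename f p).totalDegree ≠ 0 := by
  intro h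
  apply hp
  rw [MvPolynomial.totalDegree_eq_zero_iff_eq_C] at h
  have h2 : MvPolynomial.rename f p
      = MvPolynomial.rename f (MvPolynomial.C ((MvPolynomial.rename f p).coeff 0)) := by
    rw [MvPolynomial.rename_C]
    exact h
  have h3 := MvPolynomial.rename_injective f hf h2
  rw [h3, MvPolynomial.totalDegree_C]

theorem pf_irred {k : ℕ} (p : MvPolynomial (Fin k) ℂ) (hp : p.totalDegree ≠ 0) :
    ∃ q : MvPolynomial (Fin k) ℂ, Irreducible q ∧ q.totalDegree ≠ 0 ∧ q ∣ p := by
  have hu : ¬ IsUnit p := by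
    intro h
    exact hp (MvPolynomial.isUnit_iff_totalDegree_of_isReduced.mp h).2
  have h0 : p ≠ 0 := by
    intro h
    rw [h] at hp
    simp at hp
  obtain ⟨q, hq, hqp⟩ := WfDvdMonoid.exists_irreducible_factor hu h0
  refine ⟨q, hq, ?_, hqp⟩
  intro hdeg
  apply hq.not_isUnit
  rw [MvPolynomial.totalDegree_eq_zero_iff_eq_C] at hdeg
  rw [hdeg]
  have hc : q.coeff 0 ≠ 0 := by
    intro hc
    rw [hc, MvPolynomial.C_0] at hdeg
    exact hq.ne_zero hdeg
  exact (IsUnit.mk0 _ hc).map MvPolynomial.C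

theorem pf_fst_diff (m n : ℕ) :
    Differentiable ℂ (fun (ζ : Fin (m + n) → ℂ) (i : Fin m) => ζ (Fin.castAdd n i)) :=
  differentiable_pi.mpr fun _ => differentiable_apply _

theorem pf_snd_diff (m n : ℕ) :
    Differentiable ℂ (fun (ζ : Fin (m + n) → ℂ) (j : Fin n) => ζ (Fin.natAdd m j)) :=
  differentiable_pi.mpr fun _ => differentiable_apply _

theorem pf_append_left_diff {m n : ℕ} (w : Fin n → ℂ) :
    Differentiable ℂ (fun z : Fin m → ℂ => (Fin.append z w : Fin (m + n) → ℂ)) := by
  rw [differentiable_pi]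
  intro k
  refine Fin.addCases (fun i => ?_) (fun j => ?_) k
  · simp only [Fin.append_left]
    exact differentiable_apply i
  · simp only [Fin.append_right]
    exact differentiable_const _

theorem pf_append_right_diff {m n : ℕ} (z : Fin m → ℂ) :
    Differentiable ℂ (fun w : Fin n → ℂ => (Fin.append z w : Fin (m + n) → ℂ)) := by
  rw [differentiable_pi]
  intro k
  refine Fin.addCases (fun i => ?_) (fun j => ?_) k
  · simp only [Fin.append_left]
    exact differentiable_const _
  · simp only [Fin.append_right]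
    exact differentiable_apply j

theorem prod_factor {m n : ℕ} (K1 : Set (Fin m → ℝ)) (K2 : Set (Fin n → ℝ)) (h1 : IsBody K1)
    (h2 : IsBody K2) :
    (∃ p : MvPolynomial (Fin (m + n)) ℂ, p.totalDegree ≠ 0 ∧ HasFactor p (Pr K1 K2)) ↔
    ((∃ p : MvPolynomial (Fin m) ℂ, p.totalDegree ≠ 0 ∧ HasFactor p K1) ∨
     (∃ p : MvPolynomial (Fin n) ℂ, p.totalDegree ≠ 0 ∧ HasFactor p K2)) := by
  constructor
  · rintro ⟨p, hp, g0, hg0, hfac⟩
    obtain ⟨q, hq, hqd, r, hr⟩ := pf_irred p hp
    have hg : Differentiable ℂ (fun ζ => MvPolynomial.eval ζ r * g0 ζ) := (pf_eval_diff r).mul hg0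
    have hfac2 : ∀ ζ, FT (Pr K1 K2) ζ
        = MvPolynomial.eval ζ q * (MvPolynomial.eval ζ r * g0 ζ) := by
      intro ζ
      rw [hfac ζ, hr, map_mul, mul_assoc]
    have hn1 := FT_pos K1 h1 0
    have hn2 := FT_pos K2 h2 0
    have hprod : ∀ ζ, FT K1 (fun i => ζ (Fin.castAdd n i)) * FT K2 (fun j => ζ (Fin.natAdd m j))
        = MvPolynomial.eval ζ q * (MvPolynomial.eval ζ r * g0 ζ) := by
      intro ζ
      rw [← FT_prod K1 K2 h1.1 h2.1 ζ, hfac2 ζ]
    have hog := one_group q hq (FT K1) (FT K2) (FT_diff K1 h1.1) (FT_diff K2 h2.1)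
      ⟨_, hn1⟩ ⟨_, hn2⟩ (by
        intro ζ hζ
        rw [hprod ζ, hζ, zero_mul])
    have hd := descend q hqd
    rcases hog with hA | hB
    · obtain ⟨q1, hq1, hev⟩ := hd.1 hA
      left
      refine ⟨q1, hq1, ?_⟩
      set w : Fin n → ℂ := fun i => Complex.I * (((0 : Fin n → ℝ) i : ℝ) : ℂ) with hw
      refine ⟨fun z => (MvPolynomial.eval (Fin.append z w) r * g0 (Fin.append z w)) / FT K2 w,
        ?_, ?_⟩
      · simp only [div_eq_mul_inv]
        exact (hg.comp (pf_append_left_diff w)).mul_const _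
      · intro z
        have h3 := hprod (Fin.append z w)
        rw [hev] at h3
        simp only [Fin.append_left, Fin.append_right] at h3
        change FT K1 z * FT K2 w = MvPolynomial.eval z q1 * _ at h3
        rw [mul_div_assoc', eq_div_iff hn2]
        exact h3
    · obtain ⟨q2, hq2, hev⟩ := hd.2 hB
      right
      refine ⟨q2, hq2, ?_⟩
      set w : Fin m → ℂ := fun i => Complex.I * (((0 : Fin m → ℝ) i : ℝ) : ℂ) with hw
      refine ⟨fun z => (MvPolynomial.eval (Fin.append w z) r * g0 (Fin.append w z)) / FT K1 w,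
        ?_, ?_⟩
      · simp only [div_eq_mul_inv]
        exact (hg.comp (pf_append_right_diff w)).mul_const _
      · intro z
        have h3 := hprod (Fin.append w z)
        rw [hev] at h3
        simp only [Fin.append_left, Fin.append_right] at h3
        change FT K1 w * FT K2 z = MvPolynomial.eval z q2 * _ at h3
        rw [mul_div_assoc', eq_div_iff hn1, mul_comm]
        exact h3
  · rintro (⟨p, hp, f, hf, hfac⟩ | ⟨p, hp, f, hf, hfac⟩)
    · refine ⟨MvPolynomial.rename (Fin.castAdd n) p,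
        pf_rename_deg _ (Fin.castAdd_injective m n) p hp, ?_⟩
      refine ⟨fun ζ => f (fun i => ζ (Fin.castAdd n i)) * FT K2 (fun j => ζ (Fin.natAdd m j)),
        ?_, ?_⟩
      · exact (hf.comp (pf_fst_diff m n)).mul ((FT_diff K2 h2.1).comp (pf_snd_diff m n))
      · intro ζ
        rw [FT_prod K1 K2 h1.1 h2.1 ζ, hfac, MvPolynomial.eval_rename, mul_assoc]
        rfl
    · refine ⟨MvPolynomial.rename (Fin.natAdd m) p,
        pf_rename_deg _ (Fin.natAdd_injective n m) p hp, ?_⟩
      refine ⟨fun ζ => FT K1 (fun i => ζ (Fin.castAdd n i)) * f (fun j => ζ (Fin.natAdd m j)),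
        ?_, ?_⟩
      · exact ((FT_diff K1 h1.1).comp (pf_fst_diff m n)).mul (hf.comp (pf_snd_diff m n))
      · intro ζ
        rw [FT_prod K1 K2 h1.1 h2.1 ζ, hfac, MvPolynomial.eval_rename]
        change FT K1 (fun i => ζ (Fin.castAdd n i)) *
            (MvPolynomial.eval (ζ ∘ Fin.natAdd m) p * f (ζ ∘ Fin.natAdd m))
          = MvPolynomial.eval (ζ ∘ Fin.natAdd m) p *
            (FT K1 (fun i => ζ (Fin.castAdd n i)) * f (ζ ∘ Fin.natAdd m))
        ring

end Helper112.Pf
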