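import Mathlib
import Pool.Agent.Helper112.Pf.MainB
import Pool.Agent.Helper112.Pf.XProdFactor

set_option autoImplicit false

namespace Helper112.Pf

theorem main_prod {m n : ℕ} (K1 : Set (Fin m → ℝ)) (K2 : Set (Fin n → ℝ)) (h1 : IsBody K1)
    (h2 : IsBody K2) : HasPolyFactor (Pr K1 K2) ↔ (HasPolyFactor K1 ∨ HasPolyFactor K2) :=
  prod_factor K1 K2 h1 h2

end Helper112.Pf
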