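import Mathlib
import Pool.Agent.Helper112.Pf.Defs3

set_option autoImplicit false

namespace Helper112.Pf

open MeasureTheory

theorem pz_abs_sin (z : ℝ) (hz : 0 < z) : |Real.sin z| < z := by
  rcases le_or_gt z 1 with h | h
  · have h1 : 0 ≤ Real.sin z :=
      Real.sin_nonneg_of_nonneg_of_le_pi hz.le (by linarith [Real.pi_gt_three])
    rw [abs_of_nonneg h1]
    exact Real.sin_lt hz
  · exact lt_of_le_of_lt (Real.abs_sin_le_one z) h

theorem pz_g (y : ℝ) (hy : 0 < y) :
    1 - 2 * |Real.sin (y / 2)| / y ≤ ∫ s in (1 : ℝ)..2, (1 - Real.cos (s * y)) := by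
  have h1 : ∫ s in (1 : ℝ)..2, (1 - Real.cos (s * y)) =
      1 - (Real.sin (2 * y) - Real.sin (1 * y)) / y := by
    rw [intervalIntegral.integral_sub]
    · rw [intervalIntegral.integral_comp_mul_right (fun x => Real.cos x) hy.ne', integral_cos]
      simp only [intervalIntegral.integral_const, smul_eq_mul]
      field_simp
      ring
    · exact intervalIntegrable_const
    · exact (by fun_prop : Continuous fun s : ℝ => Real.cos (s * y)).intervalIntegrable _ _
  rw [h1]
  have h2 : Real.sin (2 * y) - Real.sin (1 * y) = 2 * Real.sin (y / 2) * Real.cos (3 * y / 2) := by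
    rw [Real.sin_sub_sin]
    congr 2
    · congr 1
      ring
    · ring
  rw [h2]
  have h3 : 2 * Real.sin (y / 2) * Real.cos (3 * y / 2) ≤ 2 * |Real.sin (y / 2)| := by
    have h4 : |Real.sin (y / 2) * Real.cos (3 * y / 2)| ≤ |Real.sin (y / 2)| := by
      rw [abs_mul]
      exact mul_le_of_le_one_right (abs_nonneg _) (Real.abs_cos_le_one _)
    have h5 := le_abs_self (Real.sin (y / 2) * Real.cos (3 * y / 2))
    linarith
  have h6 : 2 * Real.sin (y / 2) * Real.cos (3 * y / 2) / y ≤ 2 * |Real.sin (y / 2)| / y :=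
    div_le_div_of_nonneg_right h3 hy.le
  linarith

theorem pz_c (d : ℝ) (hd : 0 < d) : ∃ c : ℝ, 0 < c ∧ ∀ y : ℝ, d ≤ y →
    c ≤ ∫ s in (1 : ℝ)..2, (1 - Real.cos (s * y)) := by
  have hq : ∀ y : ℝ, 0 < y → 0 < 1 - 2 * |Real.sin (y / 2)| / y := by
    intro y hy
    have h1 := pz_abs_sin (y / 2) (by linarith)
    have h2 : 2 * |Real.sin (y / 2)| / y < 1 := by
      rw [div_lt_one hy]
      linarith
    linarith
  obtain ⟨d', hd'⟩ : ∃ d', d' = min d 4 := ⟨_, rfl⟩
  have hd'0 : 0 < d' := by rw [hd']; exact lt_min hd (by norm_num)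
  have hd'4 : d' ≤ 4 := by rw [hd']; exact min_le_right _ _
  have hcont : ContinuousOn (fun y : ℝ => 1 - 2 * |Real.sin (y / 2)| / y) (Set.Icc d' 4) := by
    apply ContinuousOn.sub continuousOn_const
    apply ContinuousOn.div
    · exact (by fun_prop : Continuous fun y : ℝ => 2 * |Real.sin (y / 2)|).continuousOn
    · exact continuousOn_id
    · intro y hy
      exact (lt_of_lt_of_le hd'0 hy.1).ne'
  obtain ⟨y0, hy0, hmin⟩ := isCompact_Icc.exists_isMinOn (Set.nonempty_Icc.2 hd'4) hcont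
  refine ⟨min (1 / 2) (1 - 2 * |Real.sin (y0 / 2)| / y0), lt_min (by norm_num)
    (hq y0 (lt_of_lt_of_le hd'0 hy0.1)), ?_⟩
  intro y hy
  have hypos : 0 < y := lt_of_lt_of_le hd hy
  refine le_trans ?_ (pz_g y hypos)
  rcases le_or_gt y 4 with h | h
  · refine (min_le_right _ _).trans ?_
    have : y ∈ Set.Icc d' 4 := ⟨by rw [hd']; exact (min_le_left _ _).trans hy, h⟩
    exact hmin this
  · refine (min_le_left _ _).trans ?_
    have h1 : 2 * |Real.sin (y / 2)| / y ≤ 1 / 2 := by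
      rw [div_le_iff₀ hypos]
      have := Real.abs_sin_le_one (y / 2)
      linarith
    linarith

/-! TO PROVE -/

theorem phase_zero (ρ : ℝ → ℝ) (τ : ℝ) (hτ : 0 < τ) (hρ : ConcaveOn ℝ (Set.Icc 0 τ) ρ)
    (hc : ContinuousOn ρ (Set.Icc 0 τ)) (hpos : ∀ u ∈ Set.Icc 0 τ, 0 ≤ ρ u) (w0 : ℝ) (hw : 0 < w0)
    (h : ∀ M : ℝ, 0 < M → Filter.Tendsto
      (fun T : ℝ => ∫ E in (0 : ℝ)..M, (1 - Real.cos (w0 * Real.sqrt T * ρ (E / T)))) Filter.atTop (nhds 0)) :
    Filter.Tendsto (fun T : ℝ => Real.sqrt T * ρ (1 / T)) Filter.atTop (nhds 0) := by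
  -- the extension
  obtain ⟨r, hr⟩ : ∃ r : ℝ → ℝ, r = fun u => ρ (max 0 (min τ u)) := ⟨_, rfl⟩
  have hrc : Continuous r := by
    rw [hr]
    refine hc.comp_continuous (by fun_prop) ?_
    intro u
    exact ⟨le_max_left _ _, max_le hτ.le (min_le_left _ _)⟩
  have hrρ : ∀ u ∈ Set.Icc 0 τ, r u = ρ u := by
    intro u hu
    rw [hr]
    show ρ (max 0 (min τ u)) = ρ u
    rw [min_eq_right hu.2, max_eq_right hu.1]
  rw [Metric.tendsto_atTop]
  intro ε hε
  obtain ⟨c, hc0, hcg⟩ := pz_c (w0 * ε / 2) (by positivity)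
  obtain ⟨T0, hT0⟩ := (Metric.tendsto_atTop.1 (h 4 (by norm_num))) (c / 4) (by positivity)
  refine ⟨max T0 (max 1 (4 / τ)), ?_⟩
  intro T hT
  have hT1 : T0 ≤ T := (le_max_left _ _).trans hT
  have hT2 : 1 ≤ T := (le_max_left _ _).trans ((le_max_right _ _).trans hT)
  have hT3 : 4 / τ ≤ T := (le_max_right _ _).trans ((le_max_right _ _).trans hT)
  have hTpos : 0 < T := by linarith
  have h4T : 4 / T ≤ τ := by
    rw [div_le_iff₀ hTpos]
    rw [div_le_iff₀ hτ] at hT3
    linarith [mul_comm T τ]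
  have h1T : 1 / T ∈ Set.Icc 0 τ := by
    refine ⟨by positivity, ?_⟩
    refine le_trans ?_ h4T
    exact div_le_div_of_nonneg_right (by norm_num) hTpos.le
  rw [Real.dist_eq, sub_zero, abs_of_nonneg (mul_nonneg (Real.sqrt_nonneg _) (hpos _ h1T))]
  by_contra hcon
  have hcon' : ε ≤ Real.sqrt T * ρ (1 / T) := not_lt.1 hcon
  -- lower bound for Y
  have hY : ∀ E : ℝ, 1 / 2 ≤ E → E ≤ 1 → w0 * ε / 2 ≤ w0 * Real.sqrt T * r (E / T) := by
    intro E hE1 hE2
    have hET : E / T ∈ Set.Icc 0 τ := by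
      refine ⟨by positivity, le_trans ?_ h4T⟩
      exact div_le_div_of_nonneg_right (by linarith) hTpos.le
    rw [hrρ _ hET]
    have h0 : (0 : ℝ) ∈ Set.Icc 0 τ := ⟨le_rfl, hτ.le⟩
    have h5 := hρ.2 h1T h0 (show (0 : ℝ) ≤ E by linarith) (show (0 : ℝ) ≤ 1 - E by linarith)
      (by ring)
    simp only [smul_eq_mul, mul_zero, add_zero] at h5
    have h6 : E * (1 / T) = E / T := by ring
    rw [h6] at h5
    have h7 : 0 ≤ (1 - E) * ρ 0 := mul_nonneg (by linarith) (hpos 0 h0)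
    have h8 : E * ρ (1 / T) ≤ ρ (E / T) := by linarith
    have hs0 := Real.sqrt_nonneg T
    have hρ1 := hpos _ h1T
    have h9 : 1 / 2 * ρ (1 / T) ≤ ρ (E / T) := by
      refine le_trans ?_ h8
      exact mul_le_mul_of_nonneg_right hE1 hρ1
    have h10 : Real.sqrt T * (1 / 2 * ρ (1 / T)) ≤ Real.sqrt T * ρ (E / T) :=
      mul_le_mul_of_nonneg_left h9 hs0
    have h11 : ε / 2 ≤ Real.sqrt T * ρ (E / T) := by linarith
    have h12 := mul_le_mul_of_nonneg_left h11 hw.le
    calc w0 * ε / 2 = w0 * (ε / 2) := by ring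
      _ ≤ w0 * (Real.sqrt T * ρ (E / T)) := h12
      _ = _ := by ring
  -- the kernel
  obtain ⟨K, hK⟩ : ∃ K : ℝ → ℝ → ℝ, K = fun s E => 1 - Real.cos (s * (w0 * Real.sqrt T * r (E / T))) :=
    ⟨_, rfl⟩
  have hKc : Continuous (Function.uncurry K) := by
    rw [hK]
    show Continuous fun p : ℝ × ℝ => 1 - Real.cos (p.1 * (w0 * Real.sqrt T * r (p.2 / T)))
    have : Continuous fun p : ℝ × ℝ => r (p.2 / T) := hrc.comp (by fun_prop)
    fun_prop
  have hKc' : Continuous (Function.uncurry fun E s => K s E) := hKc.comp continuous_swap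
  have hKb : ∀ s E, ‖K s E‖ ≤ 2 := by
    intro s E
    rw [hK]
    show ‖1 - Real.cos (s * (w0 * Real.sqrt T * r (E / T)))‖ ≤ 2
    rw [Real.norm_eq_abs, abs_le]
    have h1 := Real.cos_le_one (s * (w0 * Real.sqrt T * r (E / T)))
    have h2 := Real.neg_one_le_cos (s * (w0 * Real.sqrt T * r (E / T)))
    constructor <;> linarith
  have hKn : ∀ s E, 0 ≤ K s E := by
    intro s E
    rw [hK]
    show 0 ≤ 1 - Real.cos (s * (w0 * Real.sqrt T * r (E / T)))
    linarith [Real.cos_le_one (s * (w0 * Real.sqrt T * r (E / T)))]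
  have hswap : ∫ s in (1 : ℝ)..2, ∫ E in (1 / 2 : ℝ)..1, K s E =
      ∫ E in (1 / 2 : ℝ)..1, ∫ s in (1 : ℝ)..2, K s E := by
    simp only [intervalIntegral.integral_of_le (show (1 : ℝ) ≤ 2 by norm_num),
      intervalIntegral.integral_of_le (show (1 / 2 : ℝ) ≤ 1 by norm_num)]
    apply integral_integral_swap
    exact Integrable.of_bound hKc.aestronglyMeasurable 2
      (Filter.Eventually.of_forall fun p => hKb p.1 p.2)
  -- lower bound
  have hlow : c / 2 ≤ ∫ E in (1 / 2 : ℝ)..1, ∫ s in (1 : ℝ)..2, K s E := by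
    have h1 : ∫ _E in (1 / 2 : ℝ)..1, c = c / 2 := by
      rw [intervalIntegral.integral_const, smul_eq_mul]
      ring
    rw [← h1]
    apply intervalIntegral.integral_mono_on (by norm_num) intervalIntegrable_const
    · exact (intervalIntegral.continuous_parametric_intervalIntegral_of_continuous'
        hKc' 1 2).intervalIntegrable _ _
    · intro E hE
      rw [hK]
      exact hcg _ (hY E hE.1 hE.2)
  -- upper bound
  have hup : ∀ s : ℝ, 1 ≤ s → s ≤ 2 → ∫ E in (1 / 2 : ℝ)..1, K s E ≤ c / 4 := by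
    intro s hs1 hs2
    have hs0 : 0 < s := by linarith
    have hs2T : 0 < s ^ 2 * T := by positivity
    have hs21 : 1 ≤ s ^ 2 := by nlinarith
    have hs24 : s ^ 2 ≤ 4 := by nlinarith
    have hTle : T ≤ s ^ 2 * T := by nlinarith
    obtain ⟨F, hF⟩ : ∃ F : ℝ → ℝ, F = fun E =>
      1 - Real.cos (w0 * Real.sqrt (s ^ 2 * T) * r (E / (s ^ 2 * T))) := ⟨_, rfl⟩
    have hFc : Continuous F := by
      rw [hF]
      have : Continuous fun E : ℝ => r (E / (s ^ 2 * T)) := hrc.comp (by fun_prop)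
      fun_prop
    have hFn : ∀ E, 0 ≤ F E := by
      intro E
      rw [hF]
      show 0 ≤ 1 - Real.cos (w0 * Real.sqrt (s ^ 2 * T) * r (E / (s ^ 2 * T)))
      linarith [Real.cos_le_one (w0 * Real.sqrt (s ^ 2 * T) * r (E / (s ^ 2 * T)))]
    have hKF : ∀ E, K s E = F (s ^ 2 * E) := by
      intro E
      rw [hK, hF]
      show 1 - Real.cos (s * (w0 * Real.sqrt T * r (E / T))) =
        1 - Real.cos (w0 * Real.sqrt (s ^ 2 * T) * r (s ^ 2 * E / (s ^ 2 * T)))
      rw [mul_div_mul_left _ _ (by positivity), Real.sqrt_mul (by positivity), Real.sqrt_sq hs0.le]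
      congr 2
      ring
    have h1 : ∫ E in (1 / 2 : ℝ)..1, K s E ≤ ∫ E in (0 : ℝ)..1, K s E := by
      have hi : ∀ a b : ℝ, IntervalIntegrable (fun E => K s E) volume a b := by
        intro a b
        have : Continuous (fun E => K s E) := hKc.comp (by fun_prop : Continuous fun E : ℝ => (s, E))
        exact this.intervalIntegrable _ _
      rw [← intervalIntegral.integral_add_adjacent_intervals (hi 0 (1 / 2)) (hi (1 / 2) 1)]
      have h2 : 0 ≤ ∫ E in (0 : ℝ)..(1 / 2), K s E :=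
        intervalIntegral.integral_nonneg (by norm_num) (fun E _ => hKn s E)
      linarith
    have h2 : ∫ E in (0 : ℝ)..1, K s E = (s ^ 2)⁻¹ * ∫ E in (0 : ℝ)..(s ^ 2), F E := by
      simp only [hKF]
      rw [intervalIntegral.integral_comp_mul_left F (by positivity), smul_eq_mul, mul_zero, mul_one]
    have h3 : 0 ≤ ∫ E in (0 : ℝ)..(s ^ 2), F E :=
      intervalIntegral.integral_nonneg (by positivity) (fun E _ => hFn E)
    have h4 : (s ^ 2)⁻¹ * ∫ E in (0 : ℝ)..(s ^ 2), F E ≤ ∫ E in (0 : ℝ)..(s ^ 2), F E := by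
      apply mul_le_of_le_one_left h3
      exact inv_le_one_of_one_le₀ hs21
    have h5 : ∫ E in (0 : ℝ)..(s ^ 2), F E ≤ ∫ E in (0 : ℝ)..4, F E := by
      rw [← intervalIntegral.integral_add_adjacent_intervals (hFc.intervalIntegrable 0 (s ^ 2))
        (hFc.intervalIntegrable (s ^ 2) 4)]
      have h6 : 0 ≤ ∫ E in (s ^ 2)..4, F E :=
        intervalIntegral.integral_nonneg hs24 (fun E _ => hFn E)
      linarith
    have h7 : ∫ E in (0 : ℝ)..4, F E =
        ∫ E in (0 : ℝ)..4, (1 - Real.cos (w0 * Real.sqrt (s ^ 2 * T) * ρ (E / (s ^ 2 * T)))) := by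
      apply intervalIntegral.integral_congr
      intro E hE
      rw [Set.uIcc_of_le (by norm_num)] at hE
      rw [hF]
      show 1 - Real.cos (w0 * Real.sqrt (s ^ 2 * T) * r (E / (s ^ 2 * T))) = _
      rw [hrρ]
      refine ⟨div_nonneg hE.1 hs2T.le, ?_⟩
      refine le_trans ?_ h4T
      exact div_le_div₀ (by norm_num) hE.2 hTpos hTle
    have h8 := hT0 (s ^ 2 * T) (hT1.trans hTle)
    rw [Real.dist_eq, sub_zero, ← h7] at h8
    have h9 := le_abs_self (∫ E in (0 : ℝ)..4, F E)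
    linarith
  have hup2 : ∫ s in (1 : ℝ)..2, ∫ E in (1 / 2 : ℝ)..1, K s E ≤ c / 4 := by
    have h1 : ∫ _s in (1 : ℝ)..2, c / 4 = c / 4 := by
      rw [intervalIntegral.integral_const, smul_eq_mul]
      ring
    rw [← h1]
    apply intervalIntegral.integral_mono_on (by norm_num) _ intervalIntegrable_const
    · intro s hs
      exact hup s hs.1 hs.2
    · exact (intervalIntegral.continuous_parametric_intervalIntegral_of_continuous'
        hKc (1 / 2) 1).intervalIntegrable _ _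
  linarith

end Helper112.Pf
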