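import Mathlib
import Pool.Agent.Helper112.Pf.Defs3
import Pool.Agent.Helper112.Pf.WPhaseZero

set_option autoImplicit false

namespace Helper112.Pf

open MeasureTheory





/-! TO PROVE -/

section tb
open Filter Topology

theorem tb_ediff (T : ℝ) (hT : 0 < T) (v : ℂ) (hv : ‖v - 1‖ ≤ 1 / 2) (u : ℝ) (hu : 0 ≤ u) :
    ‖Complex.exp (-((T : ℂ) * u)) - Complex.exp (-((T : ℂ) * v * u))‖
      ≤ ‖v - 1‖ * (T * u) * Real.exp (-(T * u) / 2) := by
  set w : ℂ := -((T : ℂ) * (v - 1) * u) with hw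
  have e1 : Complex.exp (-((T : ℂ) * v * u)) = Complex.exp (-((T : ℂ) * u)) * Complex.exp w := by
    rw [← Complex.exp_add]; congr 1; rw [hw]; ring
  have e2 : Complex.exp (-((T : ℂ) * u)) - Complex.exp (-((T : ℂ) * v * u))
      = -(Complex.exp (-((T : ℂ) * u)) * (Complex.exp w - 1)) := by
    rw [e1]; ring
  have hnw : ‖w‖ = ‖v - 1‖ * (T * u) := by
    rw [hw, norm_neg, norm_mul, norm_mul, Complex.norm_real, Complex.norm_real,
      Real.norm_of_nonneg hT.le, Real.norm_of_nonneg hu]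
    ring
  have h1 : ‖Complex.exp w - 1‖ ≤ ‖w‖ * Real.exp ‖w‖ := by
    have := Complex.norm_exp_sub_sum_le_norm_mul_exp w 1
    simpa using this
  have h2 : ‖Complex.exp (-((T : ℂ) * u))‖ = Real.exp (-(T * u)) := by
    rw [Complex.norm_exp]; congr 1; simp
  rw [e2, norm_neg, norm_mul, h2]
  have hTu : 0 ≤ T * u := by positivity
  have h3 : ‖w‖ ≤ T * u / 2 := by
    rw [hnw]; nlinarith
  calc Real.exp (-(T * u)) * ‖Complex.exp w - 1‖
      ≤ Real.exp (-(T * u)) * (‖w‖ * Real.exp (T * u / 2)) := by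
        refine mul_le_mul_of_nonneg_left (h1.trans ?_) (Real.exp_pos _).le
        exact mul_le_mul_of_nonneg_left (Real.exp_le_exp.2 h3) (norm_nonneg _)
    _ = ‖w‖ * (Real.exp (-(T * u)) * Real.exp (T * u / 2)) := by ring
    _ = ‖v - 1‖ * (T * u) * Real.exp (-(T * u) / 2) := by
        rw [hnw, ← Real.exp_add]; congr 2; ring

theorem tb_e1 (T : ℝ) (hT : 0 < T) (v : ℂ) (hv : ‖v - 1‖ ≤ 1 / 2) (u : ℝ) (hu : 0 ≤ u) :
    ‖Complex.exp (-((T : ℂ) * v * u))‖ ≤ Real.exp (-(T * u) / 2) := by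
  rw [Complex.norm_exp]
  apply Real.exp_le_exp.2
  have h1 : (-((T : ℂ) * v * u)).re = -(T * u) * v.re := by
    simp [Complex.mul_re]
    ring
  rw [h1]
  have h2 : |(v - 1).re| ≤ 1 / 2 := (Complex.abs_re_le_norm _).trans hv
  rw [Complex.sub_re, Complex.one_re, abs_le] at h2
  have hTu : 0 ≤ T * u := by positivity
  nlinarith [h2.1]

theorem tb_one (x : ℝ) : ‖1 - Complex.exp (-(Complex.I * x))‖ ≤ |x| := by
  have h := Real.norm_exp_I_mul_ofReal_sub_one_le (x := -x)
  rw [norm_sub_rev]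
  have e : Complex.exp (-(Complex.I * x)) = Complex.exp (Complex.I * ((-x : ℝ) : ℂ)) := by
    congr 1; push_cast; ring
  rw [e]
  simpa using h

theorem tb_two (x : ℝ) : ‖1 - Complex.exp (-(Complex.I * x)) - Complex.I * x‖ ≤ 2 * x ^ 2 := by
  have hn : ‖-(Complex.I * (x : ℂ))‖ = |x| := by
    rw [norm_neg, norm_mul, Complex.norm_I, one_mul, Complex.norm_real, Real.norm_eq_abs]
  rcases le_or_gt |x| 1 with h | h
  · have h1 := Complex.norm_exp_sub_one_sub_id_le (x := -(Complex.I * (x : ℂ))) (by rw [hn]; exact h)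
    rw [hn, sq_abs] at h1
    have e : 1 - Complex.exp (-(Complex.I * x)) - Complex.I * x
        = -(Complex.exp (-(Complex.I * x)) - 1 - -(Complex.I * x)) := by ring
    rw [e, norm_neg]
    nlinarith [sq_nonneg x]
  · have h1 := tb_one x
    calc ‖1 - Complex.exp (-(Complex.I * x)) - Complex.I * x‖
        ≤ ‖1 - Complex.exp (-(Complex.I * x))‖ + ‖Complex.I * (x : ℂ)‖ := norm_sub_le _ _
      _ ≤ |x| + |x| := by
          refine add_le_add h1 ?_
          rw [← norm_neg, hn]
      _ ≤ 2 * |x| ^ 2 := by nlinarith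
      _ = 2 * x ^ 2 := by rw [sq_abs]

theorem tb_up (ρ : ℝ → ℝ) (H T : ℝ) (hρ : ConcaveOn ℝ (Set.Icc 0 H) ρ)
    (hpos : ∀ u ∈ Set.Icc 0 H, 0 ≤ ρ u) (hT : 0 < T) (hTH : 2 ≤ T * H) (u : ℝ)
    (hu : u ∈ Set.Icc 0 H) : ρ u ≤ (2 + T * u) * ρ (1 / T) := by
  have hH : 0 < H := by
    by_contra hcon
    push Not at hcon
    nlinarith
  have h1T : 1 / T ≤ H / 2 := by
    rw [div_le_div_iff₀ hT (by norm_num)]; linarith
  have hmem : 1 / T ∈ Set.Icc 0 H := ⟨by positivity, by linarith⟩
  have hr0 := hpos _ hmem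
  have hTu : 0 ≤ T * u := mul_nonneg hT.le hu.1
  rcases le_or_gt 1 (T * u) with h | h
  · -- 1/T = (1/(Tu)) u + (1 - 1/(Tu)) 0
    have hup : 0 < T * u := lt_of_lt_of_le one_pos h
    have ha : 0 ≤ 1 / (T * u) := by positivity
    have hb : 0 ≤ 1 - 1 / (T * u) := by
      rw [sub_nonneg, div_le_one hup]; exact h
    have h2 := hρ.2 hu (Set.left_mem_Icc.2 hH.le) ha hb (by ring)
    have h3 : (1 / (T * u)) • u + (1 - 1 / (T * u)) • (0 : ℝ) = 1 / T := by
      have hu0 : u ≠ 0 := by rintro rfl; simp at hup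
      simp only [smul_eq_mul]; field_simp; ring
    rw [h3] at h2
    simp only [smul_eq_mul] at h2
    have h4 : 0 ≤ (1 - 1 / (T * u)) * ρ 0 := mul_nonneg hb (hpos 0 (Set.left_mem_Icc.2 hH.le))
    have h5 : 1 / (T * u) * ρ u ≤ ρ (1 / T) := by linarith
    have h6 : ρ u ≤ (T * u) * ρ (1 / T) := by
      have := mul_le_mul_of_nonneg_left h5 hTu
      rwa [← mul_assoc, mul_one_div_cancel hup.ne', one_mul] at this
    nlinarith
  · -- 1/T between u and H
    have hu1 : u < 1 / T := by rw [lt_div_iff₀ hT]; linarith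
    have hHu : 0 < H - u := by linarith
    set a := (H - 1 / T) / (H - u) with ha
    have ha0 : 0 ≤ a := div_nonneg (by linarith) hHu.le
    have ha1 : a ≤ 1 := by rw [ha, div_le_one hHu]; linarith
    have h2 := hρ.2 hu (Set.right_mem_Icc.2 hH.le) ha0 (sub_nonneg.2 ha1) (by ring)
    have h3 : a • u + (1 - a) • H = 1 / T := by
      simp only [smul_eq_mul]
      have : a * (H - u) = H - 1 / T := by rw [ha]; field_simp
      linarith
    rw [h3] at h2
    simp only [smul_eq_mul] at h2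
    have h4 : 0 ≤ (1 - a) * ρ H := mul_nonneg (sub_nonneg.2 ha1) (hpos H (Set.right_mem_Icc.2 hH.le))
    have h5 : 1 / 2 ≤ a := by
      rw [ha, div_le_div_iff₀ (by norm_num) hHu]; linarith [hu.1]
    have h6 : 1 / 2 * ρ u ≤ a * ρ u := mul_le_mul_of_nonneg_right h5 (hpos u hu)
    nlinarith

theorem tb_lo (ρ : ℝ → ℝ) (H T : ℝ) (hρ : ConcaveOn ℝ (Set.Icc 0 H) ρ)
    (hpos : ∀ u ∈ Set.Icc 0 H, 0 ≤ ρ u) (hT : 0 < T) (hTH : 1 / T ≤ H) (u : ℝ)
    (hu : u ∈ Set.Icc 0 (1 / T)) : T * u * ρ (1 / T) ≤ ρ u := by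
  have hH : 0 < H := lt_of_lt_of_le (by positivity) hTH
  have h1 : T * u ≤ 1 := by
    have := mul_le_mul_of_nonneg_left hu.2 hT.le
    rwa [mul_one_div_cancel hT.ne'] at this
  have h2 := hρ.2 (x := 1 / T) ⟨by positivity, hTH⟩ (Set.left_mem_Icc.2 hH.le)
    (mul_nonneg hT.le hu.1) (sub_nonneg.2 h1) (by ring)
  have h3 : (T * u) • (1 / T) + (1 - T * u) • (0 : ℝ) = u := by
    simp only [smul_eq_mul]; field_simp; ring
  rw [h3] at h2
  simp only [smul_eq_mul] at h2
  have h4 : 0 ≤ (1 - T * u) * ρ 0 :=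
    mul_nonneg (sub_nonneg.2 h1) (hpos 0 (Set.left_mem_Icc.2 hH.le))
  linarith

theorem tb_int (T H : ℝ) (hT : 0 < T) :
    ∫ u in (0 : ℝ)..H, Real.exp (-(T * u) / 4) ≤ 4 / T := by
  have h : ∫ u in (0 : ℝ)..H, Real.exp (-(T * u) / 4) = (1 - Real.exp (-(T * H) / 4)) * (4 / T) := by
    have hd : ∀ u ∈ Set.uIcc 0 H, HasDerivAt (fun u => -(4 / T) * Real.exp (-(T * u) / 4))
        (Real.exp (-(T * u) / 4)) u := by
      intro u _
      have h1 : HasDerivAt (fun u : ℝ => -(T * u) / 4) (-(T * 1) / 4) u :=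
        (((hasDerivAt_id u).const_mul T).neg).div_const 4
      have h2 := (h1.exp).const_mul (-(4 / T))
      refine h2.congr_deriv ?_
      have hT' : T ≠ 0 := hT.ne'
      field_simp
    rw [intervalIntegral.integral_eq_sub_of_hasDerivAt hd
      ((by fun_prop : Continuous fun u : ℝ => Real.exp (-(T * u) / 4)).intervalIntegrable _ _)]
    simp
    ring
  rw [h]
  have h1 : 0 < Real.exp (-(T * H) / 4) := Real.exp_pos _
  have h2 : 0 < 4 / T := by positivity
  nlinarith

theorem tb_p1 (E : ℝ) (hE : 0 ≤ E) : E * Real.exp (-E / 2) ≤ 4 * Real.exp (-E / 4) := by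
  have h1 : E / 4 + 1 ≤ Real.exp (E / 4) := Real.add_one_le_exp _
  have h2 : Real.exp (-E / 4) = Real.exp (-E / 2) * Real.exp (E / 4) := by
    rw [← Real.exp_add]; congr 1; ring
  rw [h2]
  have h3 : 0 < Real.exp (-E / 2) := Real.exp_pos _
  nlinarith

theorem tb_p2 (E : ℝ) (hE : 0 ≤ E) :
    (2 + E) ^ 2 * Real.exp (-E / 2) ≤ 128 * Real.exp (-E / 4) := by
  have h1 := Real.quadratic_le_exp_of_nonneg (x := E / 4) (by positivity)
  have h2 : Real.exp (-E / 4) = Real.exp (-E / 2) * Real.exp (E / 4) := by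
    rw [← Real.exp_add]; congr 1; ring
  rw [h2]
  have h3 : 0 < Real.exp (-E / 2) := Real.exp_pos _
  have h4 : (2 + E) ^ 2 ≤ 128 * Real.exp (E / 4) := by nlinarith
  nlinarith

theorem tb_J (l r : ℝ → ℝ) (H : ℝ) (s z : ℂ) (hs : s ≠ 0) (h0 : LapC l r H s z = 0) :
    ∫ u in (0 : ℝ)..H, Complex.exp (-(z * u)) *
      (Complex.exp (-(Complex.I * s * l u)) - Complex.exp (-(Complex.I * s * r u))) = 0 := by
  have hc : -(Complex.I * s) ≠ 0 := neg_ne_zero.2 (mul_ne_zero Complex.I_ne_zero hs)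
  have h1 : ∀ a b : ℝ, ∫ x in a..b, Complex.exp (-(Complex.I * s * x)) =
      (Complex.exp (-(Complex.I * s * a)) - Complex.exp (-(Complex.I * s * b))) *
        (Complex.I * s)⁻¹ := by
    intro a b
    have h2 : (fun x : ℝ => Complex.exp (-(Complex.I * s * x)))
        = fun x : ℝ => Complex.exp (-(Complex.I * s) * x) := by
      funext x; congr 1; ring
    rw [h2, integral_exp_mul_complex hc]
    rw [div_eq_mul_inv, inv_neg]
    rw [neg_mul, neg_mul]
    ring
  unfold LapC at h0
  simp only [h1] at h0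
  have h2 : (fun u : ℝ => Complex.exp (-(z * u)) *
      ((Complex.exp (-(Complex.I * s * l u)) - Complex.exp (-(Complex.I * s * r u))) *
        (Complex.I * s)⁻¹)) = fun u : ℝ => (Complex.exp (-(z * u)) *
      (Complex.exp (-(Complex.I * s * l u)) - Complex.exp (-(Complex.I * s * r u)))) *
        (Complex.I * s)⁻¹ := by
    funext u; ring
  rw [h2, intervalIntegral.integral_mul_const] at h0
  rcases mul_eq_zero.1 h0 with h3 | h3
  · exact h3
  · exact absurd h3 (inv_ne_zero (mul_ne_zero Complex.I_ne_zero hs))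

theorem tb_A (l r : ℝ → ℝ) (H C T s : ℝ) (v : ℂ) (hH : 0 < H)
    (hlcont : ContinuousOn l (Set.Icc 0 H)) (hrcont : ContinuousOn r (Set.Icc 0 H))
    (hr : ∀ u ∈ Set.Icc 0 H, |r u| ≤ C * u) (hC : 0 ≤ C) (hT : 0 < T) (hs : 0 < s)
    (hv : ‖v - 1‖ ≤ 1 / 2)
    (hJ : ∫ u in (0 : ℝ)..H, Complex.exp (-((T : ℂ) * v * u)) *
      (Complex.exp (-(Complex.I * s * l u)) - Complex.exp (-(Complex.I * s * r u))) = 0) :
    T * ∫ u in (0 : ℝ)..H, Real.exp (-(T * u)) * (1 - Real.cos (s * l u))
      ≤ 32 * ‖v - 1‖ + 16 * (s * C / T) := by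
  have hI : Set.uIcc 0 H = Set.Icc 0 H := Set.uIcc_of_le hH.le
  have hEl : ContinuousOn (fun u : ℝ => Complex.exp (-(Complex.I * s * l u))) (Set.Icc 0 H) := by
    apply Complex.continuous_exp.comp_continuousOn
    exact (continuousOn_const.mul (Complex.continuous_ofReal.comp_continuousOn hlcont)).neg
  have hEr : ContinuousOn (fun u : ℝ => Complex.exp (-(Complex.I * s * r u))) (Set.Icc 0 H) := by
    apply Complex.continuous_exp.comp_continuousOn
    exact (continuousOn_const.mul (Complex.continuous_ofReal.comp_continuousOn hrcont)).neg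
  have he0 : ContinuousOn (fun u : ℝ => Complex.exp (-((T : ℂ) * u))) (Set.Icc 0 H) := by
    apply Continuous.continuousOn; fun_prop
  have he1 : ContinuousOn (fun u : ℝ => Complex.exp (-((T : ℂ) * v * u))) (Set.Icc 0 H) := by
    apply Continuous.continuousOn; fun_prop
  have hii : ∀ f : ℝ → ℂ, ContinuousOn f (Set.Icc 0 H) → IntervalIntegrable f volume 0 H :=
    fun f hf => ContinuousOn.intervalIntegrable (by rwa [hI])
  set K : ℝ := 8 * ‖v - 1‖ + 4 * (s * C / T) with hK
  have hi1 : IntervalIntegrable (fun u : ℝ => Complex.exp (-((T : ℂ) * u)) *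
      (1 - Complex.exp (-(Complex.I * s * l u)))) volume 0 H :=
    hii _ (he0.mul (continuousOn_const.sub hEl))
  have hdec : ∫ u in (0 : ℝ)..H, Complex.exp (-((T : ℂ) * u)) *
      (1 - Complex.exp (-(Complex.I * s * l u))) =
      ∫ u in (0 : ℝ)..H, ((Complex.exp (-((T : ℂ) * u)) - Complex.exp (-((T : ℂ) * v * u))) *
        (1 - Complex.exp (-(Complex.I * s * l u))) + Complex.exp (-((T : ℂ) * v * u)) *
        (1 - Complex.exp (-(Complex.I * s * r u)))) := by
    have hi2 : IntervalIntegrable (fun u : ℝ => (Complex.exp (-((T : ℂ) * u)) -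
        Complex.exp (-((T : ℂ) * v * u))) *
        (1 - Complex.exp (-(Complex.I * s * l u))) + Complex.exp (-((T : ℂ) * v * u)) *
        (1 - Complex.exp (-(Complex.I * s * r u)))) volume 0 H :=
      hii _ (((he0.sub he1).mul (continuousOn_const.sub hEl)).add
        (he1.mul (continuousOn_const.sub hEr)))
    rw [← sub_eq_zero, ← intervalIntegral.integral_sub hi1 hi2]
    have e : ∀ u : ℝ, Complex.exp (-((T : ℂ) * u)) *
      (1 - Complex.exp (-(Complex.I * s * l u))) -
      ((Complex.exp (-((T : ℂ) * u)) - Complex.exp (-((T : ℂ) * v * u))) *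
        (1 - Complex.exp (-(Complex.I * s * l u))) + Complex.exp (-((T : ℂ) * v * u)) *
        (1 - Complex.exp (-(Complex.I * s * r u)))) =
      -(Complex.exp (-((T : ℂ) * v * u)) *
      (Complex.exp (-(Complex.I * s * l u)) - Complex.exp (-(Complex.I * s * r u)))) := by
      intro u; ring
    simp only [e]
    rw [intervalIntegral.integral_neg, hJ, neg_zero]
  have hbd : ‖∫ u in (0 : ℝ)..H, ((Complex.exp (-((T : ℂ) * u)) -
        Complex.exp (-((T : ℂ) * v * u))) *
        (1 - Complex.exp (-(Complex.I * s * l u))) + Complex.exp (-((T : ℂ) * v * u)) *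
        (1 - Complex.exp (-(Complex.I * s * r u))))‖ ≤
        ∫ u in (0 : ℝ)..H, K * Real.exp (-(T * u) / 4) := by
    refine intervalIntegral.norm_integral_le_of_norm_le hH.le
      (Filter.Eventually.of_forall fun u hu => ?_)
      ((by fun_prop : Continuous fun u : ℝ => K * Real.exp (-(T * u) / 4)).intervalIntegrable _ _)
    have hu' : u ∈ Set.Icc 0 H := ⟨hu.1.le, hu.2⟩
    have hE : 0 ≤ T * u := mul_nonneg hT.le hu'.1
    have b1 := tb_ediff T hT v hv u hu'.1
    have b2 : ‖1 - Complex.exp (-(Complex.I * s * l u))‖ ≤ 2 := by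
      calc ‖1 - Complex.exp (-(Complex.I * s * l u))‖
          ≤ ‖(1 : ℂ)‖ + ‖Complex.exp (-(Complex.I * s * l u))‖ := norm_sub_le _ _
        _ = 2 := by
          have : -(Complex.I * s * l u) = ((-(s * l u) : ℝ) : ℂ) * Complex.I := by
            push_cast; ring
          rw [this, Complex.norm_exp_ofReal_mul_I, norm_one]; norm_num
    have b3 := tb_e1 T hT v hv u hu'.1
    have b4 : ‖1 - Complex.exp (-(Complex.I * s * r u))‖ ≤ s * (C * u) := by
      have h1 := tb_one (s * r u)
      have h2 : -(Complex.I * s * r u) = -(Complex.I * ((s * r u : ℝ) : ℂ)) := by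
        push_cast; ring
      rw [h2]
      refine h1.trans ?_
      rw [abs_mul, abs_of_pos hs]
      exact mul_le_mul_of_nonneg_left (hr u hu') hs.le
    have b5 := tb_p1 (T * u) hE
    calc ‖(Complex.exp (-((T : ℂ) * u)) - Complex.exp (-((T : ℂ) * v * u))) *
        (1 - Complex.exp (-(Complex.I * s * l u))) + Complex.exp (-((T : ℂ) * v * u)) *
        (1 - Complex.exp (-(Complex.I * s * r u)))‖
        ≤ ‖Complex.exp (-((T : ℂ) * u)) - Complex.exp (-((T : ℂ) * v * u))‖ *
          ‖1 - Complex.exp (-(Complex.I * s * l u))‖ + ‖Complex.exp (-((T : ℂ) * v * u))‖ *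
          ‖1 - Complex.exp (-(Complex.I * s * r u))‖ := by
          refine (norm_add_le _ _).trans ?_
          rw [norm_mul, norm_mul]
      _ ≤ (‖v - 1‖ * (T * u) * Real.exp (-(T * u) / 2)) * 2 +
          Real.exp (-(T * u) / 2) * (s * (C * u)) := by
          refine add_le_add (mul_le_mul b1 b2 (norm_nonneg _) ?_)
            (mul_le_mul b3 b4 (norm_nonneg _) (Real.exp_pos _).le)
          positivity
      _ = (2 * ‖v - 1‖ + s * C / T) * ((T * u) * Real.exp (-(T * u) / 2)) := by
          field_simp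
      _ ≤ (2 * ‖v - 1‖ + s * C / T) * (4 * Real.exp (-(T * u) / 4)) := by
          refine mul_le_mul_of_nonneg_left b5 ?_
          have := norm_nonneg (v - 1)
          positivity
      _ = K * Real.exp (-(T * u) / 4) := by rw [hK]; ring
  have hK0 : 0 ≤ K := by
    have := norm_nonneg (v - 1)
    rw [hK]; positivity
  have hfin : ‖∫ u in (0 : ℝ)..H, Complex.exp (-((T : ℂ) * u)) *
      (1 - Complex.exp (-(Complex.I * s * l u)))‖ ≤ K * (4 / T) := by
    rw [hdec]
    refine hbd.trans ?_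
    rw [intervalIntegral.integral_const_mul]
    exact mul_le_mul_of_nonneg_left (tb_int T H hT) hK0
  have hre : ∫ u in (0 : ℝ)..H, Real.exp (-(T * u)) * (1 - Real.cos (s * l u)) =
      (∫ u in (0 : ℝ)..H, Complex.exp (-((T : ℂ) * u)) *
      (1 - Complex.exp (-(Complex.I * s * l u)))).re := by
    have h1 := Complex.reCLM.intervalIntegral_comp_comm hi1
    have h2 : Complex.reCLM (∫ u in (0 : ℝ)..H, Complex.exp (-((T : ℂ) * u)) *
      (1 - Complex.exp (-(Complex.I * s * l u)))) = (∫ u in (0 : ℝ)..H,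
      Complex.exp (-((T : ℂ) * u)) * (1 - Complex.exp (-(Complex.I * s * l u)))).re := rfl
    rw [← h2]
    refine Eq.trans ?_ h1
    refine intervalIntegral.integral_congr fun u _ => ?_
    change Real.exp (-(T * u)) * (1 - Real.cos (s * l u)) =
      (Complex.exp (-((T : ℂ) * u)) * (1 - Complex.exp (-(Complex.I * s * l u)))).re
    have e1 : Complex.exp (-((T : ℂ) * u)) = ((Real.exp (-(T * u)) : ℝ) : ℂ) := by
      push_cast; rfl
    have e2 : (Complex.exp (-(Complex.I * s * l u))).re = Real.cos (s * l u) := by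
      have : -(Complex.I * s * l u) = ((-(s * l u) : ℝ) : ℂ) * Complex.I := by
        push_cast; ring
      rw [this, Complex.exp_ofReal_mul_I_re, Real.cos_neg]
    rw [e1, Complex.re_ofReal_mul, Complex.sub_re, Complex.one_re, e2]
  rw [hre]
  have h3 := (Complex.re_le_norm _).trans hfin
  calc T * _ ≤ T * (K * (4 / T)) := mul_le_mul_of_nonneg_left h3 hT.le
    _ = 32 * ‖v - 1‖ + 16 * (s * C / T) := by
      rw [hK]; field_simp; ring

theorem tb_B (l r : ℝ → ℝ) (H C T s : ℝ) (v : ℂ) (hH : 0 < H)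
    (hlcont : ContinuousOn l (Set.Icc 0 H)) (hrcont : ContinuousOn r (Set.Icc 0 H))
    (hlc : ConvexOn ℝ (Set.Icc 0 H) l) (hrc : ConcaveOn ℝ (Set.Icc 0 H) r)
    (hlr : ∀ u ∈ Set.Icc 0 H, l u ≤ r u) (hlr' : ∀ u ∈ Set.Ioo 0 H, l u < r u)
    (hl : ∀ u ∈ Set.Icc 0 H, l u ≤ 0)
    (hr : ∀ u ∈ Set.Icc 0 H, |r u| ≤ C * u) (hC : 0 ≤ C) (hT : 0 < T) (hTH : 2 ≤ T * H)
    (hs : 0 < s) (hv : ‖v - 1‖ ≤ 1 / 2)
    (hJ : ∫ u in (0 : ℝ)..H, Complex.exp (-((T : ℂ) * v * u)) *
      (Complex.exp (-(Complex.I * s * l u)) - Complex.exp (-(Complex.I * s * r u))) = 0)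
    (η : ℝ) (hη0 : 0 ≤ η) (hη : 3 * s * (-l (1 / T)) + 2 * (s * C / T) ≤ η) :
    Real.exp (-1) / 2 ≤ 512 * (‖v - 1‖ + η) := by
  have hI : Set.uIcc 0 H = Set.Icc 0 H := Set.uIcc_of_le hH.le
  have hEl : ContinuousOn (fun u : ℝ => Complex.exp (-(Complex.I * s * l u))) (Set.Icc 0 H) := by
    apply Complex.continuous_exp.comp_continuousOn
    exact (continuousOn_const.mul (Complex.continuous_ofReal.comp_continuousOn hlcont)).neg
  have hEr : ContinuousOn (fun u : ℝ => Complex.exp (-(Complex.I * s * r u))) (Set.Icc 0 H) := by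
    apply Complex.continuous_exp.comp_continuousOn
    exact (continuousOn_const.mul (Complex.continuous_ofReal.comp_continuousOn hrcont)).neg
  have he0 : ContinuousOn (fun u : ℝ => Complex.exp (-((T : ℂ) * u))) (Set.Icc 0 H) := by
    apply Continuous.continuousOn; fun_prop
  have he1 : ContinuousOn (fun u : ℝ => Complex.exp (-((T : ℂ) * v * u))) (Set.Icc 0 H) := by
    apply Continuous.continuousOn; fun_prop
  have hlamC : ContinuousOn (fun u : ℝ => ((r u - l u : ℝ) : ℂ)) (Set.Icc 0 H) :=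
    Complex.continuous_ofReal.comp_continuousOn (hrcont.sub hlcont)
  have hii : ∀ f : ℝ → ℂ, ContinuousOn f (Set.Icc 0 H) → IntervalIntegrable f volume 0 H :=
    fun f hf => ContinuousOn.intervalIntegrable (by rwa [hI])
  have hρc : ConcaveOn ℝ (Set.Icc 0 H) (fun u => - l u) := hlc.neg
  have hρ0 : ∀ u ∈ Set.Icc 0 H, 0 ≤ (fun u => - l u) u := fun u hu => by
    have := hl u hu
    change 0 ≤ - l u
    linarith
  have hlamc : ConcaveOn ℝ (Set.Icc 0 H) (fun u => r u - l u) := hrc.sub hlc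
  have hlam0 : ∀ u ∈ Set.Icc 0 H, 0 ≤ (fun u => r u - l u) u := fun u hu => by
    have := hlr u hu
    change 0 ≤ r u - l u
    linarith
  have h1TH : 1 / T ≤ H / 2 := by
    rw [div_le_div_iff₀ hT (by norm_num)]; linarith
  have h1T : 0 < 1 / T := by positivity
  set L : ℝ := r (1 / T) - l (1 / T) with hL
  have hLpos : 0 < L := sub_pos.2 (hlr' _ ⟨h1T, by linarith⟩)
  have hnv := norm_nonneg (v - 1)
  set K : ℝ := s * L * (‖v - 1‖ + η) * 128 with hK
  have hK0 : 0 ≤ K := by rw [hK]; positivity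
  have hi1 : IntervalIntegrable (fun u : ℝ => Complex.exp (-((T : ℂ) * u)) *
      (Complex.I * s * ((r u - l u : ℝ) : ℂ))) volume 0 H :=
    hii _ (he0.mul (continuousOn_const.mul hlamC))
  have hi2 : IntervalIntegrable (fun u : ℝ => (Complex.exp (-((T : ℂ) * u)) -
      Complex.exp (-((T : ℂ) * v * u))) * (Complex.I * s * ((r u - l u : ℝ) : ℂ)) -
      Complex.exp (-((T : ℂ) * v * u)) * ((Complex.exp (-(Complex.I * s * l u)) -
        Complex.exp (-(Complex.I * s * r u))) - Complex.I * s * ((r u - l u : ℝ) : ℂ)))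
      volume 0 H :=
    hii _ (((he0.sub he1).mul (continuousOn_const.mul hlamC)).sub
      (he1.mul ((hEl.sub hEr).sub (continuousOn_const.mul hlamC))))
  have hdec : ∫ u in (0 : ℝ)..H, Complex.exp (-((T : ℂ) * u)) *
      (Complex.I * s * ((r u - l u : ℝ) : ℂ)) =
      ∫ u in (0 : ℝ)..H, ((Complex.exp (-((T : ℂ) * u)) -
      Complex.exp (-((T : ℂ) * v * u))) * (Complex.I * s * ((r u - l u : ℝ) : ℂ)) -
      Complex.exp (-((T : ℂ) * v * u)) * ((Complex.exp (-(Complex.I * s * l u)) -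
        Complex.exp (-(Complex.I * s * r u))) - Complex.I * s * ((r u - l u : ℝ) : ℂ))) := by
    rw [← sub_eq_zero, ← intervalIntegral.integral_sub hi1 hi2]
    have e : ∀ u : ℝ, Complex.exp (-((T : ℂ) * u)) *
      (Complex.I * s * ((r u - l u : ℝ) : ℂ)) - ((Complex.exp (-((T : ℂ) * u)) -
      Complex.exp (-((T : ℂ) * v * u))) * (Complex.I * s * ((r u - l u : ℝ) : ℂ)) -
      Complex.exp (-((T : ℂ) * v * u)) * ((Complex.exp (-(Complex.I * s * l u)) -
        Complex.exp (-(Complex.I * s * r u))) - Complex.I * s * ((r u - l u : ℝ) : ℂ))) =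
      Complex.exp (-((T : ℂ) * v * u)) *
      (Complex.exp (-(Complex.I * s * l u)) - Complex.exp (-(Complex.I * s * r u))) := by
      intro u; ring
    simp only [e]
    exact hJ
  have hbd : ‖∫ u in (0 : ℝ)..H, ((Complex.exp (-((T : ℂ) * u)) -
      Complex.exp (-((T : ℂ) * v * u))) * (Complex.I * s * ((r u - l u : ℝ) : ℂ)) -
      Complex.exp (-((T : ℂ) * v * u)) * ((Complex.exp (-(Complex.I * s * l u)) -
        Complex.exp (-(Complex.I * s * r u))) - Complex.I * s * ((r u - l u : ℝ) : ℂ)))‖ ≤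
        ∫ u in (0 : ℝ)..H, K * Real.exp (-(T * u) / 4) := by
    refine intervalIntegral.norm_integral_le_of_norm_le hH.le
      (Filter.Eventually.of_forall fun u hu => ?_)
      ((by fun_prop : Continuous fun u : ℝ => K * Real.exp (-(T * u) / 4)).intervalIntegrable _ _)
    have hu' : u ∈ Set.Icc 0 H := ⟨hu.1.le, hu.2⟩
    have hE : 0 ≤ T * u := mul_nonneg hT.le hu'.1
    have hlamu : 0 ≤ r u - l u := hlam0 u hu'
    have hlu : l u ≤ 0 := hl u hu'
    have b1 := tb_ediff T hT v hv u hu'.1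
    have b3 := tb_e1 T hT v hv u hu'.1
    have c1 : r u - l u ≤ (2 + T * u) * L := tb_up _ H T hlamc hlam0 hT hTH u hu'
    have c2 : - l u ≤ (2 + T * u) * (- l (1 / T)) := tb_up _ H T hρc hρ0 hT hTH u hu'
    have c3 := hr u hu'
    have n1 : ‖Complex.I * s * ((r u - l u : ℝ) : ℂ)‖ = s * (r u - l u) := by
      rw [norm_mul, norm_mul, Complex.norm_I, one_mul, Complex.norm_real, Complex.norm_real,
        Real.norm_of_nonneg hs.le, Real.norm_of_nonneg hlamu]
    have n2 : ‖(Complex.exp (-(Complex.I * s * l u)) -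
        Complex.exp (-(Complex.I * s * r u))) - Complex.I * s * ((r u - l u : ℝ) : ℂ)‖
        ≤ s * (r u - l u) * ((2 + T * u) * η) := by
      have d1 := tb_one (s * l u)
      have d2 := tb_one (s * (r u - l u))
      have d3 := tb_two (s * (r u - l u))
      have e1 : (Complex.exp (-(Complex.I * s * l u)) -
        Complex.exp (-(Complex.I * s * r u))) - Complex.I * s * ((r u - l u : ℝ) : ℂ) =
        (1 - Complex.exp (-(Complex.I * ((s * (r u - l u) : ℝ) : ℂ)))
          - Complex.I * ((s * (r u - l u) : ℝ) : ℂ)) -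
        (1 - Complex.exp (-(Complex.I * ((s * l u : ℝ) : ℂ)))) *
          (1 - Complex.exp (-(Complex.I * ((s * (r u - l u) : ℝ) : ℂ)))) := by
        have e2 : Complex.exp (-(Complex.I * s * r u)) =
            Complex.exp (-(Complex.I * s * l u)) *
              Complex.exp (-(Complex.I * ((s * (r u - l u) : ℝ) : ℂ))) := by
          rw [← Complex.exp_add]; congr 1; push_cast; ring
        have e3 : -(Complex.I * ((s * l u : ℝ) : ℂ)) = -(Complex.I * s * l u) := by
          push_cast; ring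
        rw [e2, e3]
        push_cast
        ring
      rw [e1]
      refine (norm_sub_le _ _).trans ?_
      rw [norm_mul]
      have d4 : |s * l u| = s * (- l u) := by
        rw [abs_mul, abs_of_pos hs, abs_of_nonpos hlu]
      have d5 : |s * (r u - l u)| = s * (r u - l u) := abs_of_nonneg (by positivity)
      rw [d4] at d1
      rw [d5] at d2
      have d6 : r u ≤ |r u| := le_abs_self _
      have hsl : 0 ≤ s * (r u - l u) := by positivity
      calc ‖1 - Complex.exp (-(Complex.I * ((s * (r u - l u) : ℝ) : ℂ)))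
          - Complex.I * ((s * (r u - l u) : ℝ) : ℂ)‖ +
          ‖1 - Complex.exp (-(Complex.I * ((s * l u : ℝ) : ℂ)))‖ *
          ‖1 - Complex.exp (-(Complex.I * ((s * (r u - l u) : ℝ) : ℂ)))‖
          ≤ 2 * (s * (r u - l u)) ^ 2 + (s * (- l u)) * (s * (r u - l u)) :=
            add_le_add d3 (mul_le_mul d1 d2 (norm_nonneg _)
              (mul_nonneg hs.le (neg_nonneg.2 hlu)))
        _ = s * (r u - l u) * (2 * (s * (r u - l u)) + s * (- l u)) := by ring
        _ ≤ s * (r u - l u) * ((2 + T * u) * η) := by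
            refine mul_le_mul_of_nonneg_left ?_ hsl
            have f1 : s * r u ≤ s * (C * u) := mul_le_mul_of_nonneg_left (d6.trans c3) hs.le
            have f2 : s * (- l u) ≤ s * ((2 + T * u) * (- l (1 / T))) :=
              mul_le_mul_of_nonneg_left c2 hs.le
            have f3 : s * (C * u) = (s * C / T) * (T * u) := by field_simp
            have f4 : 0 ≤ s * C / T := by positivity
            have f5 : (s * C / T) * (T * u) ≤ (s * C / T) * (2 + T * u) :=
              mul_le_mul_of_nonneg_left (by linarith) f4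
            calc 2 * (s * (r u - l u)) + s * (- l u)
                = 2 * (s * r u) + 3 * (s * (- l u)) := by ring
              _ ≤ 2 * ((s * C / T) * (2 + T * u)) + 3 * (s * ((2 + T * u) * (- l (1 / T)))) := by
                  linarith
              _ = (2 + T * u) * (3 * s * (-l (1 / T)) + 2 * (s * C / T)) := by ring
              _ ≤ (2 + T * u) * η := mul_le_mul_of_nonneg_left hη (by linarith)
    have b6 := tb_p2 (T * u) hE
    have hexp := Real.exp_pos (-(T * u) / 2)
    refine (norm_sub_le _ _).trans ?_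
    rw [norm_mul, n1, norm_mul]
    have g1 : ‖Complex.exp (-((T : ℂ) * u)) - Complex.exp (-((T : ℂ) * v * u))‖ *
        (s * (r u - l u)) ≤ s * L * ‖v - 1‖ * ((2 + T * u) ^ 2 * Real.exp (-(T * u) / 2)) := by
      calc ‖Complex.exp (-((T : ℂ) * u)) - Complex.exp (-((T : ℂ) * v * u))‖ *
          (s * (r u - l u))
          ≤ (‖v - 1‖ * (T * u) * Real.exp (-(T * u) / 2)) * (s * ((2 + T * u) * L)) :=
            mul_le_mul b1 (mul_le_mul_of_nonneg_left c1 hs.le) (by positivity) (by positivity)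
        _ = (s * L * ‖v - 1‖ * (2 + T * u) * Real.exp (-(T * u) / 2)) * (T * u) := by ring
        _ ≤ (s * L * ‖v - 1‖ * (2 + T * u) * Real.exp (-(T * u) / 2)) * (2 + T * u) := by
            refine mul_le_mul_of_nonneg_left (by linarith) (by positivity)
        _ = s * L * ‖v - 1‖ * ((2 + T * u) ^ 2 * Real.exp (-(T * u) / 2)) := by ring
    have g2 : ‖Complex.exp (-((T : ℂ) * v * u))‖ * ‖(Complex.exp (-(Complex.I * s * l u)) -
        Complex.exp (-(Complex.I * s * r u))) - Complex.I * s * ((r u - l u : ℝ) : ℂ)‖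
        ≤ s * L * η * ((2 + T * u) ^ 2 * Real.exp (-(T * u) / 2)) := by
      calc _ ≤ Real.exp (-(T * u) / 2) * (s * (r u - l u) * ((2 + T * u) * η)) :=
            mul_le_mul b3 n2 (norm_nonneg _) hexp.le
        _ ≤ Real.exp (-(T * u) / 2) * (s * ((2 + T * u) * L) * ((2 + T * u) * η)) := by
            refine mul_le_mul_of_nonneg_left ?_ hexp.le
            refine mul_le_mul_of_nonneg_right ?_ (by positivity)
            exact mul_le_mul_of_nonneg_left c1 hs.le
        _ = _ := by ring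
    calc _ ≤ s * L * ‖v - 1‖ * ((2 + T * u) ^ 2 * Real.exp (-(T * u) / 2)) +
          s * L * η * ((2 + T * u) ^ 2 * Real.exp (-(T * u) / 2)) := add_le_add g1 g2
      _ = (s * L * (‖v - 1‖ + η)) * ((2 + T * u) ^ 2 * Real.exp (-(T * u) / 2)) := by ring
      _ ≤ (s * L * (‖v - 1‖ + η)) * (128 * Real.exp (-(T * u) / 4)) :=
          mul_le_mul_of_nonneg_left b6 (by positivity)
      _ = K * Real.exp (-(T * u) / 4) := by rw [hK]; ring
  have hup : ‖∫ u in (0 : ℝ)..H, Complex.exp (-((T : ℂ) * u)) *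
      (Complex.I * s * ((r u - l u : ℝ) : ℂ))‖ ≤ K * (4 / T) := by
    rw [hdec]
    refine hbd.trans ?_
    rw [intervalIntegral.integral_const_mul]
    exact mul_le_mul_of_nonneg_left (tb_int T H hT) hK0
  -- lower bound
  have hcontR : ContinuousOn (fun u => Real.exp (-(T * u)) * (r u - l u)) (Set.Icc 0 H) :=
    (by fun_prop : Continuous fun u : ℝ => Real.exp (-(T * u))).continuousOn.mul
      (hrcont.sub hlcont)
  have hval : ∫ u in (0 : ℝ)..H, Complex.exp (-((T : ℂ) * u)) *
      (Complex.I * s * ((r u - l u : ℝ) : ℂ)) =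
      Complex.I * s * ((∫ u in (0 : ℝ)..H, Real.exp (-(T * u)) * (r u - l u) : ℝ) : ℂ) := by
    rw [← intervalIntegral.integral_ofReal, ← intervalIntegral.integral_const_mul]
    refine intervalIntegral.integral_congr fun u _ => ?_
    push_cast
    ring
  have hRn : 0 ≤ ∫ u in (0 : ℝ)..H, Real.exp (-(T * u)) * (r u - l u) :=
    intervalIntegral.integral_nonneg hH.le fun u hu =>
      mul_nonneg (Real.exp_pos _).le (hlam0 u hu)
  have hnorm : ‖∫ u in (0 : ℝ)..H, Complex.exp (-((T : ℂ) * u)) *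
      (Complex.I * s * ((r u - l u : ℝ) : ℂ))‖ =
      s * ∫ u in (0 : ℝ)..H, Real.exp (-(T * u)) * (r u - l u) := by
    rw [hval, norm_mul, norm_mul, Complex.norm_I, one_mul, Complex.norm_real, Complex.norm_real,
      Real.norm_of_nonneg hs.le, Real.norm_of_nonneg hRn]
  have hiR : ∀ a b : ℝ, a ∈ Set.Icc 0 H → b ∈ Set.Icc 0 H →
      IntervalIntegrable (fun u => Real.exp (-(T * u)) * (r u - l u)) volume a b := by
    intro a b ha hb
    apply ContinuousOn.intervalIntegrable
    exact hcontR.mono (Set.uIcc_subset_Icc ha hb)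
  have h1Tm : 1 / T ∈ Set.Icc 0 H := ⟨h1T.le, by linarith⟩
  have h0m : (0 : ℝ) ∈ Set.Icc 0 H := Set.left_mem_Icc.2 hH.le
  have hHm : H ∈ Set.Icc 0 H := Set.right_mem_Icc.2 hH.le
  have hlow : Real.exp (-1) * L / (2 * T) ≤
      ∫ u in (0 : ℝ)..H, Real.exp (-(T * u)) * (r u - l u) := by
    rw [← intervalIntegral.integral_add_adjacent_intervals (hiR 0 (1 / T) h0m h1Tm)
      (hiR (1 / T) H h1Tm hHm)]
    have q1 : 0 ≤ ∫ u in (1 / T)..H, Real.exp (-(T * u)) * (r u - l u) :=
      intervalIntegral.integral_nonneg h1Tm.2 fun u hu =>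
        mul_nonneg (Real.exp_pos _).le (hlam0 u ⟨h1T.le.trans hu.1, hu.2⟩)
    have q2 : Real.exp (-1) * L / (2 * T) ≤
        ∫ u in (0 : ℝ)..(1 / T), Real.exp (-(T * u)) * (r u - l u) := by
      have q3 : ∫ u in (0 : ℝ)..(1 / T), (Real.exp (-1) * T * L) * u =
          Real.exp (-1) * L / (2 * T) := by
        rw [intervalIntegral.integral_const_mul, integral_id]
        field_simp
        ring
      rw [← q3]
      refine intervalIntegral.integral_mono_on h1T.le
        ((by fun_prop : Continuous fun u : ℝ => (Real.exp (-1) * T * L) * u).intervalIntegrable _ _)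
        (hiR 0 (1 / T) h0m h1Tm) fun u hu => ?_
      have q4 : T * u * L ≤ r u - l u := tb_lo _ H T hlamc hlam0 hT h1Tm.2 u hu
      have q5 : T * u ≤ 1 := by
        have := mul_le_mul_of_nonneg_left hu.2 hT.le
        rwa [mul_one_div_cancel hT.ne'] at this
      calc Real.exp (-1) * T * L * u = Real.exp (-1) * (T * u * L) := by ring
        _ ≤ Real.exp (-(T * u)) * (r u - l u) := by
            refine mul_le_mul (Real.exp_le_exp.2 (by linarith)) q4 ?_ (Real.exp_pos _).le
            have := mul_nonneg hT.le hu.1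
            positivity
    linarith
  rw [hnorm] at hup
  have hA : s * (Real.exp (-1) * L / (2 * T)) ≤ K * (4 / T) :=
    (mul_le_mul_of_nonneg_left hlow hs.le).trans hup
  have hB : s * (Real.exp (-1) * L / (2 * T)) = (s * L / T) * (Real.exp (-1) / 2) := by
    field_simp
  have hC2 : K * (4 / T) = (s * L / T) * (512 * (‖v - 1‖ + η)) := by
    rw [hK]; field_simp; ring
  rw [hB, hC2] at hA
  exact le_of_mul_le_mul_left hA (by positivity)

end tb

theorem top_bad (l r : ℝ → ℝ) (H : ℝ) (h : Prof l r H) (C : ℝ)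
    (hr : ∀ u ∈ Set.Icc 0 H, |r u| ≤ C * u) (hl : ∀ u ∈ Set.Icc 0 H, l u ≤ 0) (w0 : ℝ) (hw : 0 < w0)
    (v : ℝ → ℂ) (hv : Filter.Tendsto v Filter.atTop (nhds 1)) :
    ¬ ∀ᶠ T : ℝ in Filter.atTop, LapC l r H (((w0 * Real.sqrt T : ℝ)) : ℂ) ((T : ℂ) * v T) = 0 := by
  intro hev
  obtain ⟨hH, hlc, hrc, hlcont, hrcont, hlr, hlr'⟩ := h
  have hC : 0 ≤ C := by
    have h1 := (abs_nonneg _).trans (hr H (Set.right_mem_Icc.2 hH.le))
    by_contra hcon
    push Not at hcon
    nlinarith
  have hev1 : ∀ᶠ T : ℝ in Filter.atTop, 0 < T := Filter.eventually_gt_atTop 0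
  have hevH : ∀ M : ℝ, ∀ᶠ T : ℝ in Filter.atTop, M ≤ T * H := fun M =>
    (Filter.tendsto_id.atTop_mul_const hH).eventually_ge_atTop M
  have hnv : Filter.Tendsto (fun T => ‖v T - 1‖) Filter.atTop (nhds 0) := by
    have := (hv.sub_const 1).norm
    simpa using this
  have hev3 : ∀ᶠ T : ℝ in Filter.atTop, ‖v T - 1‖ ≤ 1 / 2 :=
    hnv.eventually_le_const (by norm_num)
  have hJ : ∀ᶠ T : ℝ in Filter.atTop, ∫ u in (0 : ℝ)..H, Complex.exp (-((T : ℂ) * v T * u)) *
      (Complex.exp (-(Complex.I * ((w0 * Real.sqrt T : ℝ) : ℂ) * l u)) -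
        Complex.exp (-(Complex.I * ((w0 * Real.sqrt T : ℝ) : ℂ) * r u))) = 0 := by
    filter_upwards [hev, hev1] with T hT hT0
    refine tb_J l r H _ _ ?_ hT
    have : 0 < w0 * Real.sqrt T := mul_pos hw (Real.sqrt_pos.2 hT0)
    exact_mod_cast this.ne'
  have hsC : Filter.Tendsto (fun T : ℝ => w0 * Real.sqrt T * C / T) Filter.atTop (nhds 0) := by
    have h1 : Filter.Tendsto (fun T : ℝ => (Real.sqrt T)⁻¹) Filter.atTop (nhds 0) :=
      Real.tendsto_sqrt_atTop.inv_tendsto_atTop
    have h2 := h1.const_mul (w0 * C)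
    rw [mul_zero] at h2
    refine h2.congr' ?_
    filter_upwards [hev1] with T hT0
    have h3 : Real.sqrt T * Real.sqrt T = T := Real.mul_self_sqrt hT0.le
    have h4 : Real.sqrt T ≠ 0 := (Real.sqrt_pos.2 hT0).ne'
    rw [eq_div_iff hT0.ne']
    nth_rewrite 2 [← h3]
    field_simp
  have hphase := phase_zero (fun u => - l u) H hH hlc.neg hlcont.neg
    (fun u hu => by
      have := hl u hu
      change 0 ≤ - l u
      linarith) w0 hw (by
    intro M hM
    have hlim : Filter.Tendsto (fun T : ℝ => Real.exp M * (32 * ‖v T - 1‖ +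
        16 * (w0 * Real.sqrt T * C / T))) Filter.atTop (nhds 0) := by
      have := ((hnv.const_mul 32).add (hsC.const_mul 16)).const_mul (Real.exp M)
      simpa using this
    refine tendsto_of_tendsto_of_tendsto_of_le_of_le' tendsto_const_nhds hlim ?_ ?_
    · refine Filter.Eventually.of_forall fun T => ?_
      refine intervalIntegral.integral_nonneg hM.le fun u _ => ?_
      linarith [Real.cos_le_one (w0 * Real.sqrt T * -l (u / T))]
    · filter_upwards [hev1, hevH M, hev3, hJ] with T hT0 hTM hv2 hJT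
      have hs : 0 < w0 * Real.sqrt T := mul_pos hw (Real.sqrt_pos.2 hT0)
      have hA := tb_A l r H C T (w0 * Real.sqrt T) (v T) hH hlcont hrcont hr hC hT0 hs hv2 hJT
      have hMT : M / T ≤ H := by rw [div_le_iff₀ hT0]; linarith
      have hMT0 : 0 ≤ M / T := by positivity
      have e1 : ∫ E in (0 : ℝ)..M, (1 - Real.cos (w0 * Real.sqrt T * (fun u => - l u) (E / T))) =
          T * ∫ u in (0 : ℝ)..(M / T), (1 - Real.cos (w0 * Real.sqrt T * l u)) := by
        have h1 := intervalIntegral.integral_comp_div (a := 0) (b := M) (c := T)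
          (fun u => 1 - Real.cos (w0 * Real.sqrt T * (- l u))) hT0.ne'
        rw [zero_div, smul_eq_mul] at h1
        refine Eq.trans h1 ?_
        congr 1
        refine intervalIntegral.integral_congr fun u _ => ?_
        change 1 - Real.cos (w0 * Real.sqrt T * (- l u)) = 1 - Real.cos (w0 * Real.sqrt T * l u)
        rw [mul_neg, Real.cos_neg]
      rw [e1]
      have hcf : ContinuousOn (fun u => Real.cos (w0 * Real.sqrt T * l u)) (Set.Icc 0 H) :=
        Real.continuous_cos.comp_continuousOn (continuousOn_const.mul hlcont)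
      have hcg : ContinuousOn (fun u => Real.exp (-(T * u)) *
          (1 - Real.cos (w0 * Real.sqrt T * l u))) (Set.Icc 0 H) :=
        (by fun_prop : Continuous fun u : ℝ => Real.exp (-(T * u))).continuousOn.mul
          (continuousOn_const.sub hcf)
      have h0m : (0 : ℝ) ∈ Set.Icc 0 H := Set.left_mem_Icc.2 hH.le
      have hHm : H ∈ Set.Icc 0 H := Set.right_mem_Icc.2 hH.le
      have hMm : M / T ∈ Set.Icc 0 H := ⟨hMT0, hMT⟩
      have i1 : IntervalIntegrable (fun u => 1 - Real.cos (w0 * Real.sqrt T * l u))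
          volume 0 (M / T) :=
        ContinuousOn.intervalIntegrable
          ((continuousOn_const.sub hcf).mono (Set.uIcc_subset_Icc h0m hMm))
      have i2 : ∀ a b : ℝ, a ∈ Set.Icc 0 H → b ∈ Set.Icc 0 H → IntervalIntegrable
          (fun u => Real.exp (-(T * u)) * (1 - Real.cos (w0 * Real.sqrt T * l u)))
          volume a b := fun a b ha hb =>
        ContinuousOn.intervalIntegrable (hcg.mono (Set.uIcc_subset_Icc ha hb))
      have e2 : ∫ u in (0 : ℝ)..(M / T), (1 - Real.cos (w0 * Real.sqrt T * l u)) ≤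
          Real.exp M * ∫ u in (0 : ℝ)..(M / T),
            Real.exp (-(T * u)) * (1 - Real.cos (w0 * Real.sqrt T * l u)) := by
        rw [← intervalIntegral.integral_const_mul]
        refine intervalIntegral.integral_mono_on hMT0 i1 ((i2 _ _ h0m hMm).const_mul _)
          fun u hu => ?_
        have c0 : 0 ≤ 1 - Real.cos (w0 * Real.sqrt T * l u) := by
          linarith [Real.cos_le_one (w0 * Real.sqrt T * l u)]
        rw [← mul_assoc, ← Real.exp_add]
        have c1 : T * u ≤ M := by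
          have := mul_le_mul_of_nonneg_left hu.2 hT0.le
          rwa [mul_div_cancel₀ _ hT0.ne'] at this
        have c2 : 1 ≤ Real.exp (M + -(T * u)) := Real.one_le_exp (by linarith)
        nlinarith
      have e3 : ∫ u in (0 : ℝ)..(M / T),
            Real.exp (-(T * u)) * (1 - Real.cos (w0 * Real.sqrt T * l u)) ≤
          ∫ u in (0 : ℝ)..H,
            Real.exp (-(T * u)) * (1 - Real.cos (w0 * Real.sqrt T * l u)) := by
        rw [← intervalIntegral.integral_add_adjacent_intervals (i2 0 (M / T) h0m hMm)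
          (i2 (M / T) H hMm hHm)]
        have c3 : 0 ≤ ∫ u in (M / T)..H,
            Real.exp (-(T * u)) * (1 - Real.cos (w0 * Real.sqrt T * l u)) :=
          intervalIntegral.integral_nonneg hMT fun u _ => mul_nonneg (Real.exp_pos _).le (by
            linarith [Real.cos_le_one (w0 * Real.sqrt T * l u)])
        linarith
      have hexp := Real.exp_pos M
      calc T * ∫ u in (0 : ℝ)..(M / T), (1 - Real.cos (w0 * Real.sqrt T * l u))
          ≤ T * (Real.exp M * ∫ u in (0 : ℝ)..H,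
            Real.exp (-(T * u)) * (1 - Real.cos (w0 * Real.sqrt T * l u))) :=
            mul_le_mul_of_nonneg_left
              (e2.trans (mul_le_mul_of_nonneg_left e3 hexp.le)) hT0.le
        _ = Real.exp M * (T * ∫ u in (0 : ℝ)..H,
            Real.exp (-(T * u)) * (1 - Real.cos (w0 * Real.sqrt T * l u))) := by ring
        _ ≤ _ := mul_le_mul_of_nonneg_left hA hexp.le)
  have hη : Filter.Tendsto (fun T : ℝ => 512 * (‖v T - 1‖ +
      (3 * (w0 * Real.sqrt T) * (-l (1 / T)) + 2 * (w0 * Real.sqrt T * C / T))))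
      Filter.atTop (nhds 0) := by
    have h1 := (hnv.add ((hphase.const_mul (3 * w0)).add (hsC.const_mul 2))).const_mul 512
    have h2 : (512 : ℝ) * (0 + (3 * w0 * 0 + 2 * 0)) = 0 := by ring
    rw [h2] at h1
    refine h1.congr fun T => ?_
    ring
  have hfin : ∀ᶠ T : ℝ in Filter.atTop, Real.exp (-1) / 2 ≤ 512 * (‖v T - 1‖ +
      (3 * (w0 * Real.sqrt T) * (-l (1 / T)) + 2 * (w0 * Real.sqrt T * C / T))) := by
    filter_upwards [hev1, hevH 2, hev3, hJ] with T hT0 hT2 hv2 hJT
    have hs : 0 < w0 * Real.sqrt T := mul_pos hw (Real.sqrt_pos.2 hT0)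
    have h1T : 1 / T ≤ H / 2 := by
      rw [div_le_div_iff₀ hT0 (by norm_num)]; linarith
    have hl1 := hl (1 / T) ⟨by positivity, by linarith⟩
    refine tb_B l r H C T (w0 * Real.sqrt T) (v T) hH hlcont hrcont hlc hrc hlr hlr' hl hr hC
      hT0 hT2 hs hv2 hJT _ ?_ le_rfl
    have : 0 ≤ -l (1 / T) := by linarith
    positivity
  have hle := ge_of_tendsto hη hfin
  have := Real.exp_pos (-1)
  linarith

end Helper112.Pf
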